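import Pool.Agent.Lib_n3.Defs

/-!
# Module Affine: from a realization in the projective plane to one in the affine plane
with no vertical lines
-/

open scoped Matrix

namespace N3

namespace Aff

theorem dp3 (a b : E) : a ⬝ᵥ b = a 0 * b 0 + a 1 * b 1 + a 2 * b 2 := by
  simp [dotProduct, Fin.sum_univ_three]

theorem dp_self_pos {a : E} (h : a ≠ 0) : 0 < a ⬝ᵥ a := by
  have h0 : 0 ≤ a ⬝ᵥ a := by
    rw [dp3]; nlinarith [sq_nonneg (a 0), sq_nonneg (a 1), sq_nonneg (a 2)]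
  rcases h0.lt_or_eq with h1 | h1
  · exact h1
  · exact absurd (dotProduct_self_eq_zero.1 h1.symm) h

/-- a nonzero vector orthogonal to `p` -/
theorem exists_orth (p : E) : ∃ u : E, u ≠ 0 ∧ u ⬝ᵥ p = 0 := by
  by_cases h : p 0 = 0
  · refine ⟨![1, 0, 0], ?_, ?_⟩
    · intro hc
      have := congrFun hc 0
      simp at this
    · rw [dp3]; simp [h]
  · refine ⟨![- p 1, p 0, 0], ?_, ?_⟩
    · intro hc
      have := congrFun hc 1
      simp [h] at this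
    · rw [dp3]; simp; ring

/-- the functional `x ↦ v ⬝ᵥ x` -/
noncomputable def dpL (v : E) : Module.Dual ℝ E where
  toFun x := v ⬝ᵥ x
  map_add' x y := dotProduct_add v x y
  map_smul' c x := dotProduct_smul c v x

theorem dpL_apply (v x : E) : dpL v x = v ⬝ᵥ x := rfl

/-- strict Cauchy-Schwarz, in the form needed -/
theorem cs_ne {w p u : E} (hp : p ≠ 0) (hup : u ⬝ᵥ p = 0) (huw : u ⬝ᵥ w ≠ 0) :
    (w ⬝ᵥ p) * (w ⬝ᵥ p) - (p ⬝ᵥ p) * (w ⬝ᵥ w) ≠ 0 := by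
  intro h
  rw [dp3, dp3, dp3] at h
  have hs : (w 1 * p 2 - w 2 * p 1) ^ 2 + (w 2 * p 0 - w 0 * p 2) ^ 2 +
      (w 0 * p 1 - w 1 * p 0) ^ 2 = 0 := by linarith
  have h1 : w 1 * p 2 - w 2 * p 1 = 0 := by
    nlinarith [sq_nonneg (w 1 * p 2 - w 2 * p 1), sq_nonneg (w 2 * p 0 - w 0 * p 2),
      sq_nonneg (w 0 * p 1 - w 1 * p 0)]
  have h2 : w 2 * p 0 - w 0 * p 2 = 0 := by
    nlinarith [sq_nonneg (w 1 * p 2 - w 2 * p 1), sq_nonneg (w 2 * p 0 - w 0 * p 2),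
      sq_nonneg (w 0 * p 1 - w 1 * p 0)]
  have h3 : w 0 * p 1 - w 1 * p 0 = 0 := by
    nlinarith [sq_nonneg (w 1 * p 2 - w 2 * p 1), sq_nonneg (w 2 * p 0 - w 0 * p 2),
      sq_nonneg (w 0 * p 1 - w 1 * p 0)]
  rw [dp3] at hup huw
  apply hp
  have e0 : (u 0 * w 0 + u 1 * w 1 + u 2 * w 2) * p 0 = 0 := by
    linear_combination w 0 * hup - u 1 * h3 + u 2 * h2
  have e1 : (u 0 * w 0 + u 1 * w 1 + u 2 * w 2) * p 1 = 0 := by
    linear_combination w 1 * hup + u 0 * h3 - u 2 * h1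
  have e2 : (u 0 * w 0 + u 1 * w 1 + u 2 * w 2) * p 2 = 0 := by
    linear_combination w 2 * hup - u 0 * h2 + u 1 * h1
  funext i
  fin_cases i
  · simpa using (mul_eq_zero.1 e0).resolve_left huw
  · simpa using (mul_eq_zero.1 e1).resolve_left huw
  · simpa using (mul_eq_zero.1 e2).resolve_left huw

/-- the Gram identity -/
theorem gram3 (l p w f : E) :
    (l ⬝ᵥ crossProduct w f) * (crossProduct w f ⬝ᵥ p) =
      (l ⬝ᵥ p) * (w ⬝ᵥ w) * (f ⬝ᵥ f) - (l ⬝ᵥ w) * (w ⬝ᵥ p) * (f ⬝ᵥ f)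
        - (l ⬝ᵥ f) * (f ⬝ᵥ p) * (w ⬝ᵥ w)
        + (w ⬝ᵥ f) * ((l ⬝ᵥ w) * (f ⬝ᵥ p) + (l ⬝ᵥ f) * (w ⬝ᵥ p) - (l ⬝ᵥ p) * (w ⬝ᵥ f)) := by
  simp only [dp3, cross_apply]
  simp
  ring

end Aff

open Aff

theorem affine (n : ℕ) (I : Fin n → Fin n → Prop) (ρ : Fin n ⊕ Fin n → E)
    (hI : ∀ p l, I p l ↔ ρ (Sum.inl p) ⬝ᵥ ρ (Sum.inr l) = 0) (h0 : ∀ v, ρ v ≠ 0) :
    ∃ (a b : Fin n → ℝ) (P : Fin n → ℝ × ℝ), ∀ i j, I i j ↔ (P i).2 = a j * (P i).1 + b j := by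
  rcases Nat.eq_zero_or_pos n with hn | hn
  · subst hn
    exact ⟨fun i => 0, fun i => 0, fun i => 0, fun i => i.elim0⟩
  choose u hu0 hu using fun i : Fin n => exists_orth (ρ (Sum.inl i))
  -- the vertical direction
  let v : Fin n ⊕ Fin n → E := Sum.elim u (fun j => ρ (Sum.inr j))
  have hv : ∀ k, v k ≠ 0 := by
    rintro (k | k)
    · exact hu0 k
    · exact h0 _
  obtain ⟨w, hw⟩ := Module.Dual.exists_forall_ne_zero_of_forall_exists (fun k => dpL (v k))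
    (fun k => ⟨v k, by rw [dpL_apply]; exact (dp_self_pos (hv k)).ne'⟩)
  have hwu : ∀ i, u i ⬝ᵥ w ≠ 0 := fun i => hw (Sum.inl i)
  have hwl : ∀ j, ρ (Sum.inr j) ⬝ᵥ w ≠ 0 := fun j => hw (Sum.inr j)
  have hw0 : w ≠ 0 := by
    rintro rfl
    exact hwl ⟨0, hn⟩ (by simp)
  -- the line at infinity
  obtain ⟨f, hfw, hf⟩ := Module.Dual.exists_forall_mem_ne_zero_of_forall_exists
    (LinearMap.ker (dpL w)) (fun i : Fin n => dpL (ρ (Sum.inl i))) (by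
      intro i
      refine ⟨(w ⬝ᵥ ρ (Sum.inl i)) • w - (w ⬝ᵥ w) • ρ (Sum.inl i), ?_, ?_⟩
      · rw [LinearMap.mem_ker, dpL_apply, dotProduct_sub, dotProduct_smul, dotProduct_smul]
        simp only [smul_eq_mul]
        ring
      · rw [dpL_apply, dotProduct_sub, dotProduct_smul, dotProduct_smul]
        have := cs_ne (h0 (Sum.inl i)) (hu i) (hwu i)
        simp only [smul_eq_mul]
        rw [dotProduct_comm (ρ (Sum.inl i)) w]
        intro hc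
        apply this
        linarith)
  have hwf : w ⬝ᵥ f = 0 := hfw
  have hfp : ∀ i, f ⬝ᵥ ρ (Sum.inl i) ≠ 0 := by
    intro i
    rw [dotProduct_comm]
    exact hf i
  have hf0 : f ≠ 0 := by
    rintro rfl
    exact hfp ⟨0, hn⟩ (by simp)
  have hww := (dp_self_pos hw0).ne'
  have hff := (dp_self_pos hf0).ne'
  refine ⟨fun j => -(ρ (Sum.inr j) ⬝ᵥ crossProduct w f) / ((ρ (Sum.inr j) ⬝ᵥ w) * (f ⬝ᵥ f)),
    fun j => -((ρ (Sum.inr j) ⬝ᵥ f) * (w ⬝ᵥ w)) / ((ρ (Sum.inr j) ⬝ᵥ w) * (f ⬝ᵥ f)),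
    fun i => ((crossProduct w f ⬝ᵥ ρ (Sum.inl i)) / (f ⬝ᵥ ρ (Sum.inl i)),
      (w ⬝ᵥ ρ (Sum.inl i)) / (f ⬝ᵥ ρ (Sum.inl i))), ?_⟩
  intro i j
  have hg := gram3 (ρ (Sum.inr j)) (ρ (Sum.inl i)) w f
  rw [hwf] at hg
  have h1 := hfp i
  have h2 := hwl j
  rw [hI, dotProduct_comm]
  dsimp only
  generalize ρ (Sum.inr j) ⬝ᵥ ρ (Sum.inl i) = lp at hg ⊢
  generalize ρ (Sum.inr j) ⬝ᵥ crossProduct w f = lg at hg ⊢
  generalize crossProduct w f ⬝ᵥ ρ (Sum.inl i) = gp at hg ⊢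
  generalize ρ (Sum.inr j) ⬝ᵥ w = lw at hg h2 ⊢
  generalize ρ (Sum.inr j) ⬝ᵥ f = lf at hg ⊢
  generalize w ⬝ᵥ ρ (Sum.inl i) = wp at hg ⊢
  generalize f ⬝ᵥ ρ (Sum.inl i) = fp at hg h1 ⊢
  generalize w ⬝ᵥ w = ww at hg hww ⊢
  generalize f ⬝ᵥ f = ff at hg hff ⊢
  have h3 : wp / fp = -lg / (lw * ff) * (gp / fp) + -(lf * ww) / (lw * ff) ↔
      wp * (lw * ff) = -lg * gp - lf * ww * fp := by
    rw [← sub_eq_zero, ← sub_eq_zero (a := wp * (lw * ff))]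
    have h4 : wp / fp - (-lg / (lw * ff) * (gp / fp) + -(lf * ww) / (lw * ff)) =
        (wp * (lw * ff) - (-lg * gp - lf * ww * fp)) / (fp * (lw * ff)) := by
      field_simp
      ring
    rw [h4, div_eq_zero_iff]
    constructor
    · rintro (h | h)
      · exact h
      · exact absurd h (mul_ne_zero h1 (mul_ne_zero h2 hff))
    · exact Or.inl
  change lp = 0 ↔ wp / fp = -lg / (lw * ff) * (gp / fp) + -(lf * ww) / (lw * ff)
  rw [h3]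
  constructor
  · intro h
    subst h
    linarith
  · intro h
    have h5 : lp * (ww * ff) = 0 := by
      linear_combination (-1) * hg + h
    exact (mul_eq_zero.1 h5).resolve_right (mul_ne_zero hww hff)

end N3
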