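import Pool.Agent.Lib_n3.Stmts

/-!
# Module CUTS of the project MP_07e12a_co: counting edges
-/

open Finset

namespace N3

variable {V : Type} [Fintype V] [DecidableEq V]

/-- adjacency indicator -/
noncomputable def ai (G : SimpleGraph V) (u v : V) : ℕ := by
  classical exact if G.Adj u v then 1 else 0

theorem ai_comm (G : SimpleGraph V) (u v : V) : ai G u v = ai G v u := by
  classical
  simp only [ai, G.adj_comm u v]

theorem ai_self (G : SimpleGraph V) (u : V) : ai G u u = 0 := by
  classical
  simp [ai]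

theorem ai_of_not (G : SimpleGraph V) {u v : V} (h : ¬ G.Adj u v) : ai G u v = 0 := by
  classical
  simp [ai, h]

theorem ai_of (G : SimpleGraph V) {u v : V} (h : G.Adj u v) : ai G u v = 1 := by
  classical
  simp [ai, h]

theorem ai_mono {F G : SimpleGraph V} (h : F ≤ G) (u v : V) : ai F u v ≤ ai G u v := by
  classical
  unfold ai
  by_cases h1 : F.Adj u v
  · simp [h1, h h1]
  · simp [h1]

theorem dg_eq (G : SimpleGraph V) (S : Finset V) (v : V) : dg G S v = ∑ u ∈ S, ai G v u := by
  classical
  unfold dg ai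
  rw [Finset.card_filter]

theorem ed_eq (G : SimpleGraph V) (A B : Finset V) :
    ed G A B = ∑ v ∈ A, ∑ u ∈ B, ai G v u := by
  unfold ed
  exact Finset.sum_congr rfl (fun v _ => dg_eq G B v)

theorem ed_comm (G : SimpleGraph V) (A B : Finset V) : ed G A B = ed G B A := by
  rw [ed_eq, ed_eq, Finset.sum_comm]
  exact Finset.sum_congr rfl (fun u _ => Finset.sum_congr rfl (fun v _ => ai_comm G v u))

theorem ed_union_left (G : SimpleGraph V) (A B C : Finset V) (h : Disjoint A B) :
    ed G (A ∪ B) C = ed G A C + ed G B C := by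
  unfold ed
  rw [Finset.sum_union h]

theorem ed_union_right (G : SimpleGraph V) (A B C : Finset V) (h : Disjoint B C) :
    ed G A (B ∪ C) = ed G A B + ed G A C := by
  rw [ed_comm G A, ed_union_left G B C A h, ed_comm G B, ed_comm G C]

theorem ed_empty_left (G : SimpleGraph V) (A : Finset V) : ed G ∅ A = 0 := by
  simp [ed]

theorem ed_empty_right (G : SimpleGraph V) (A : Finset V) : ed G A ∅ = 0 := by
  rw [ed_comm, ed_empty_left]

theorem ed_singleton_left (G : SimpleGraph V) (v : V) (A : Finset V) : ed G {v} A = dg G A v := by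
  simp [ed]

theorem ed_mono_left (G : SimpleGraph V) {A B : Finset V} (h : A ⊆ B) (C : Finset V) :
    ed G A C ≤ ed G B C := by
  unfold ed
  exact Finset.sum_le_sum_of_subset h

theorem ed_mono_right (G : SimpleGraph V) {A B : Finset V} (h : A ⊆ B) (C : Finset V) :
    ed G C A ≤ ed G C B := by
  rw [ed_comm G C A, ed_comm G C B]
  exact ed_mono_left G h C

theorem ed_mono_graph {F G : SimpleGraph V} (h : F ≤ G) (A B : Finset V) :
    ed F A B ≤ ed G A B := by
  rw [ed_eq, ed_eq]
  exact Finset.sum_le_sum (fun u _ => Finset.sum_le_sum (fun v _ => ai_mono h u v))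

theorem cut_compl (G : SimpleGraph V) (A : Finset V) : cut G Aᶜ = cut G A := by
  unfold cut
  rw [compl_compl, ed_comm]

theorem cut_mono {F G : SimpleGraph V} (h : F ≤ G) (A : Finset V) : cut F A ≤ cut G A :=
  ed_mono_graph h A Aᶜ

/-- the four pieces of a pair of sets -/
theorem four_pieces (G : SimpleGraph V) (A B : Finset V) :
    ∃ pq pr ps qr qs rs : ℕ,
      ed G (A ∩ B) (A \ B) = pq ∧ ed G (A ∩ B) (B \ A) = pr ∧ ed G (A ∩ B) (A ∪ B)ᶜ = ps ∧
      ed G (A \ B) (B \ A) = qr ∧ ed G (A \ B) (A ∪ B)ᶜ = qs ∧ ed G (B \ A) (A ∪ B)ᶜ = rs ∧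
      cut G A = pr + ps + qr + qs ∧ cut G B = pq + ps + qr + rs ∧
      cut G (A ∩ B) = pq + pr + ps ∧ cut G (A ∪ B) = ps + qs + rs ∧
      cut G (A \ B) = pq + qr + qs ∧ cut G (B \ A) = pr + qr + rs := by
  refine ⟨_, _, _, _, _, _, rfl, rfl, rfl, rfl, rfl, rfl, ?_, ?_, ?_, ?_, ?_, ?_⟩
  · have h1 : A = (A ∩ B) ∪ (A \ B) := by ext x; simp only [mem_union, mem_inter, mem_sdiff]; tauto
    have h2 : Aᶜ = (B \ A) ∪ (A ∪ B)ᶜ := by
      ext x; simp only [mem_union, mem_compl, mem_sdiff]; tauto
    have d1 : Disjoint (A ∩ B) (A \ B) := by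
      rw [Finset.disjoint_left]; intro x; simp only [mem_inter, mem_sdiff]; tauto
    have d2 : Disjoint (B \ A) (A ∪ B)ᶜ := by
      rw [Finset.disjoint_left]; intro x; simp only [mem_compl, mem_union, mem_sdiff]; tauto
    have e : cut G A = ed G ((A ∩ B) ∪ (A \ B)) ((B \ A) ∪ (A ∪ B)ᶜ) := by
      unfold cut; rw [← h1, ← h2]
    rw [e, ed_union_left _ _ _ _ d1, ed_union_right _ _ _ _ d2, ed_union_right _ _ _ _ d2]
    omega
  · have h1 : B = (A ∩ B) ∪ (B \ A) := by ext x; simp only [mem_union, mem_inter, mem_sdiff]; tauto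
    have h2 : Bᶜ = (A \ B) ∪ (A ∪ B)ᶜ := by
      ext x; simp only [mem_union, mem_compl, mem_sdiff]; tauto
    have d1 : Disjoint (A ∩ B) (B \ A) := by
      rw [Finset.disjoint_left]; intro x; simp only [mem_inter, mem_sdiff]; tauto
    have d2 : Disjoint (A \ B) (A ∪ B)ᶜ := by
      rw [Finset.disjoint_left]; intro x; simp only [mem_compl, mem_union, mem_sdiff]; tauto
    have e : cut G B = ed G ((A ∩ B) ∪ (B \ A)) ((A \ B) ∪ (A ∪ B)ᶜ) := by
      unfold cut; rw [← h1, ← h2]
    rw [e, ed_union_left _ _ _ _ d1, ed_union_right _ _ _ _ d2, ed_union_right _ _ _ _ d2,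
      ed_comm G (B \ A) (A \ B)]
    omega
  · have h2 : (A ∩ B)ᶜ = ((A \ B) ∪ (B \ A)) ∪ (A ∪ B)ᶜ := by
      ext x; simp only [mem_union, mem_inter, mem_compl, mem_sdiff]; tauto
    have d1 : Disjoint (A \ B) (B \ A) := by
      rw [Finset.disjoint_left]; intro x; simp only [mem_sdiff]; tauto
    have d2 : Disjoint ((A \ B) ∪ (B \ A)) (A ∪ B)ᶜ := by
      rw [Finset.disjoint_left]; intro x; simp only [mem_compl, mem_union, mem_sdiff]; tauto
    unfold cut
    rw [h2, ed_union_right _ _ _ _ d2, ed_union_right _ _ _ _ d1]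
  · have h1 : A ∪ B = ((A ∩ B) ∪ (A \ B)) ∪ (B \ A) := by
      ext x; simp only [mem_union, mem_inter, mem_sdiff]; tauto
    have d1 : Disjoint (A ∩ B) (A \ B) := by
      rw [Finset.disjoint_left]; intro x; simp only [mem_inter, mem_sdiff]; tauto
    have d2 : Disjoint ((A ∩ B) ∪ (A \ B)) (B \ A) := by
      rw [Finset.disjoint_left]; intro x; simp only [mem_inter, mem_union, mem_sdiff]; tauto
    have e : cut G (A ∪ B) = ed G (((A ∩ B) ∪ (A \ B)) ∪ (B \ A)) (A ∪ B)ᶜ := by
      unfold cut; rw [← h1]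
    rw [e, ed_union_left _ _ _ _ d2, ed_union_left _ _ _ _ d1]
  · have h2 : (A \ B)ᶜ = ((A ∩ B) ∪ (B \ A)) ∪ (A ∪ B)ᶜ := by
      ext x; simp only [mem_union, mem_inter, mem_compl, mem_sdiff]; tauto
    have d1 : Disjoint (A ∩ B) (B \ A) := by
      rw [Finset.disjoint_left]; intro x; simp only [mem_inter, mem_sdiff]; tauto
    have d2 : Disjoint ((A ∩ B) ∪ (B \ A)) (A ∪ B)ᶜ := by
      rw [Finset.disjoint_left]; intro x; simp only [mem_inter, mem_compl, mem_union, mem_sdiff]
      tauto
    unfold cut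
    rw [h2, ed_union_right _ _ _ _ d2, ed_union_right _ _ _ _ d1, ed_comm G (A \ B) (A ∩ B)]
  · have h2 : (B \ A)ᶜ = ((A ∩ B) ∪ (A \ B)) ∪ (A ∪ B)ᶜ := by
      ext x; simp only [mem_union, mem_inter, mem_compl, mem_sdiff]; tauto
    have d1 : Disjoint (A ∩ B) (A \ B) := by
      rw [Finset.disjoint_left]; intro x; simp only [mem_inter, mem_sdiff]; tauto
    have d2 : Disjoint ((A ∩ B) ∪ (A \ B)) (A ∪ B)ᶜ := by
      rw [Finset.disjoint_left]; intro x; simp only [mem_inter, mem_compl, mem_union, mem_sdiff]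
      tauto
    unfold cut
    rw [h2, ed_union_right _ _ _ _ d2, ed_union_right _ _ _ _ d1, ed_comm G (B \ A) (A ∩ B),
      ed_comm G (B \ A) (A \ B)]

theorem cut_submod (G : SimpleGraph V) (A B : Finset V) :
    cut G (A ∩ B) + cut G (A ∪ B) ≤ cut G A + cut G B := by
  obtain ⟨pq, pr, ps, qr, qs, rs, -, -, -, -, -, -, h1, h2, h3, h4, h5, h6⟩ := four_pieces G A B
  omega

theorem cut_posmod (G : SimpleGraph V) (A B : Finset V) :
    cut G (A \ B) + cut G (B \ A) ≤ cut G A + cut G B := by
  obtain ⟨pq, pr, ps, qr, qs, rs, -, -, -, -, -, -, h1, h2, h3, h4, h5, h6⟩ := four_pieces G A B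
  omega

theorem cut_sdiff (G : SimpleGraph V) (A P : Finset V) (hP : P ⊆ A) :
    cut G (A \ P) + ed G P Aᶜ = cut G A + ed G P (A \ P) := by
  have h2 : (A \ P)ᶜ = P ∪ Aᶜ := by
    ext x; simp only [mem_union, mem_compl, mem_sdiff]; tauto
  have d2 : Disjoint P Aᶜ := by
    rw [Finset.disjoint_left]; intro x hx; simp only [mem_compl, not_not]; exact hP hx
  have h1 : A = P ∪ (A \ P) := (Finset.union_sdiff_of_subset hP).symm
  have d1 : Disjoint P (A \ P) := Finset.disjoint_sdiff
  have e : cut G A = ed G (P ∪ (A \ P)) Aᶜ := by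
    unfold cut; rw [← h1]
  rw [e, ed_union_left _ _ _ _ d1]
  unfold cut
  rw [h2, ed_union_right _ _ _ _ d2, ed_comm G (A \ P) P]
  omega

/-- the sum of the degrees of `A` -/
theorem ed_univ (G : SimpleGraph V) (A : Finset V) : ed G A univ = ed G A A + cut G A := by
  have h : (univ : Finset V) = A ∪ Aᶜ := (Finset.union_compl A).symm
  have d : Disjoint A Aᶜ := disjoint_compl_right
  unfold cut
  rw [h, ed_union_right _ _ _ _ d]

theorem ed_univ_cubic {G : SimpleGraph V} (h3 : ∀ v, dg G univ v = 3) (A : Finset V) :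
    ed G A univ = 3 * A.card := by
  unfold ed
  rw [Finset.sum_congr rfl (fun v _ => h3 v), Finset.sum_const, smul_eq_mul, mul_comm]

theorem three_card {G : SimpleGraph V} (h3 : ∀ v, dg G univ v = 3) (A : Finset V) :
    3 * A.card = ed G A A + cut G A := by
  rw [← ed_univ, ed_univ_cubic h3]

theorem ed_insert_self (G : SimpleGraph V) (A : Finset V) (v : V) (hv : v ∉ A) :
    ed G (insert v A) (insert v A) = ed G A A + 2 * dg G A v := by
  have hd : Disjoint {v} A := Finset.disjoint_singleton_left.2 hv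
  have h0 : ed G {v} {v} = 0 := by
    rw [ed_eq]; simp [ai_self]
  have e : ed G (insert v A) (insert v A) = ed G ({v} ∪ A) ({v} ∪ A) := by
    rw [Finset.insert_eq]
  rw [e, ed_union_left _ _ _ _ hd, ed_union_right _ _ _ _ hd, ed_union_right _ _ _ _ hd, h0,
    ed_comm G A {v}, ed_singleton_left]
  omega

theorem ed_self_even (G : SimpleGraph V) (A : Finset V) : Even (ed G A A) := by
  induction A using Finset.induction_on with
  | empty => simp [ed]
  | insert v A hv ih =>
    rw [ed_insert_self G A v hv]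
    exact ih.add (even_two_mul _)

theorem cut_parity {G : SimpleGraph V} (h3 : ∀ v, dg G univ v = 3) (A : Finset V) :
    cut G A % 2 = A.card % 2 := by
  have h := three_card h3 A
  obtain ⟨k, hk⟩ := ed_self_even G A
  omega

theorem ed_side_self {G : SimpleGraph V} {side : V → Bool} (hB : Bip G side) (A B : Finset V)
    (b : Bool) :
    ed G (A.filter (fun v => side v = b)) (B.filter (fun v => side v = b)) = 0 := by
  rw [ed_eq]
  refine Finset.sum_eq_zero (fun u hu => Finset.sum_eq_zero (fun v hv => ?_))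
  rw [Finset.mem_filter] at hu hv
  refine ai_of_not G (fun h => hB u v h ?_)
  rw [hu.2, hv.2]

theorem filter_side_union (side : V → Bool) (A : Finset V) :
    A = A.filter (fun v => side v = false) ∪ A.filter (fun v => side v = true) := by
  ext x
  simp only [mem_union, mem_filter]
  cases side x <;> simp

theorem filter_side_disj (side : V → Bool) (A B : Finset V) :
    Disjoint (A.filter (fun v => side v = false)) (B.filter (fun v => side v = true)) := by
  rw [Finset.disjoint_left]
  intro x hx hx'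
  rw [mem_filter] at hx hx'
  rw [hx.2] at hx'
  exact absurd hx'.2 (by decide)

theorem side_parity {G : SimpleGraph V} {side : V → Bool} (hB : Bip G side)
    (h3 : ∀ v, dg G univ v = 3) (A : Finset V) :
    ed G (A.filter (fun v => side v = false)) Aᶜ + 3 * (A.filter (fun v => side v = true)).card
      = ed G (A.filter (fun v => side v = true)) Aᶜ
        + 3 * (A.filter (fun v => side v = false)).card := by
  set P := A.filter (fun v => side v = false) with hP
  set L := A.filter (fun v => side v = true) with hL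
  have hA : A = P ∪ L := filter_side_union side A
  have hd : Disjoint P L := filter_side_disj side A A
  have hun : (univ : Finset V) = A ∪ Aᶜ := (Finset.union_compl A).symm
  have dA : Disjoint A Aᶜ := disjoint_compl_right
  have key : ∀ C : Finset V, 3 * C.card = ed G C P + ed G C L + ed G C Aᶜ := by
    intro C
    rw [← ed_univ_cubic h3 C, hun, ed_union_right _ _ _ _ dA]
    congr 1
    rw [← ed_union_right _ _ _ _ hd, ← hA]
  have hPP : ed G P P = 0 := ed_side_self hB A A false
  have hLL : ed G L L = 0 := ed_side_self hB A A true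
  have e1 := key P
  have e2 := key L
  rw [ed_comm G L P] at e2
  omega

theorem cuts : CutsStmt := by
  intro V _ _ G side
  refine ⟨ed_comm G, ed_union_right G, ed_union_left G, cut_compl G, cut_submod G, cut_posmod G,
    cut_sdiff G, fun F A h => cut_mono h A, fun h3 => ⟨three_card h3, ed_self_even G,
    cut_parity h3⟩, fun hB h3 A => side_parity hB h3 A⟩

end N3
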