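import Pool.Agent.Lib_n3.CertDefs
import Pool.Agent.Lib_n3.Cuts

/-!
# Soundness of the certificate checker (module Cert, helper21)
-/

open Finset

namespace N3

namespace H21

/-! ## Lists -/

theorem updAt_getElem? (f : Bool × List ℕ → Bool × List ℕ) (s : St) (a v : ℕ) :
    (updAt f s a)[v]? = if v = a then (s[v]?).map f else s[v]? := by
  induction s generalizing a v with
  | nil => cases a <;> simp [updAt]
  | cons x s ih =>
    cases a with
    | zero =>
      cases v with
      | zero => simp [updAt]
      | succ v => simp [updAt]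
    | succ a =>
      cases v with
      | zero => simp [updAt]
      | succ v =>
        simp only [updAt, List.getElem?_cons_succ, ih]
        by_cases h : v = a
        · simp [h]
        · simp [h]

theorem updAt_length (f : Bool × List ℕ → Bool × List ℕ) (s : St) (a : ℕ) :
    (updAt f s a).length = s.length := by
  induction s generalizing a with
  | nil => cases a <;> simp [updAt]
  | cons x s ih =>
    cases a with
    | zero => simp [updAt]
    | succ a => simp [updAt, ih]

theorem ty_eq (s : St) (v : ℕ) : s.ty v = ((s[v]?).getD (false, [])).1 := by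
  rw [St.ty, List.getD_eq_getElem?_getD]

theorem nb_eq (s : St) (v : ℕ) : s.nb v = ((s[v]?).getD (false, [])).2 := by
  rw [St.nb, List.getD_eq_getElem?_getD]

theorem nb_of_ge (s : St) {v : ℕ} (h : s.length ≤ v) : s.nb v = [] := by
  rw [nb_eq, List.getElem?_eq_none h]; rfl

theorem adjq_iff (s : St) (a b : ℕ) : s.adjq a b = true ↔ b ∈ s.nb a := by
  rw [St.adjq, List.elem_iff]

theorem add_length (s : St) (a b : ℕ) : (s.add a b).length = s.length := by
  rw [St.add, updAt_length, updAt_length]

theorem add_ty (s : St) (a b v : ℕ) : (s.add a b).ty v = s.ty v := by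
  rw [ty_eq, ty_eq, St.add, updAt_getElem?, updAt_getElem?]
  by_cases h1 : v = a <;> by_cases h2 : v = b <;> simp [h1, h2] <;> split_ifs <;>
    cases s[a]? <;> cases s[b]? <;> simp_all

theorem add_nb (s : St) {a b : ℕ} (ha : a < s.length) (hb : b < s.length) (hab : a ≠ b) (v : ℕ) :
    (s.add a b).nb v = if v = a then s.nb a ++ [b] else if v = b then s.nb b ++ [a] else s.nb v := by
  rw [nb_eq, St.add, updAt_getElem?, updAt_getElem?]
  by_cases h1 : v = a
  · subst h1
    simp [hab, nb_eq, List.getElem?_eq_getElem ha]
  · by_cases h2 : v = b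
    · subst h2
      simp [h1, nb_eq, List.getElem?_eq_getElem hb]
    · simp [h1, h2, nb_eq]

theorem newv_length (s : St) (a : ℕ) : (s.newv a).length = s.length + 1 := by
  rw [St.newv, List.length_append, updAt_length]; rfl

theorem newv_get (s : St) (a v : ℕ) : (s.newv a)[v]? =
    if v < s.length then (if v = a then (s[v]?).map (fun x => (x.1, x.2 ++ [s.length])) else s[v]?)
    else if v = s.length then some (!(s.ty a), [a]) else none := by
  rw [St.newv, List.getElem?_append, updAt_length, updAt_getElem?]
  split_ifs with h1 h2 h3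
  · rfl
  · rfl
  · subst h3; simp
  · have : v - s.length ≠ 0 := by omega
    obtain ⟨k, hk⟩ := Nat.exists_eq_succ_of_ne_zero this
    rw [hk]; simp

theorem newv_ty (s : St) {a : ℕ} (_ha : a < s.length) (v : ℕ) (hv : v < s.length) :
    (s.newv a).ty v = s.ty v := by
  rw [ty_eq, newv_get, if_pos hv, ty_eq]
  split_ifs
  · rw [List.getElem?_eq_getElem hv]; rfl
  · rfl

theorem newv_ty_last (s : St) (a : ℕ) : (s.newv a).ty s.length = !(s.ty a) := by
  rw [ty_eq, newv_get]; simp

theorem newv_nb (s : St) {a : ℕ} (ha : a < s.length) (v : ℕ) (hv : v < s.length) :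
    (s.newv a).nb v = if v = a then s.nb a ++ [s.length] else s.nb v := by
  rw [nb_eq, newv_get, if_pos hv, nb_eq, nb_eq]
  split_ifs with h
  · subst h
    rw [List.getElem?_eq_getElem hv]; rfl
  · rfl

theorem newv_nb_last (s : St) (a : ℕ) : (s.newv a).nb s.length = [a] := by
  rw [nb_eq, newv_get]; simp

theorem free_eq (s : St) : s.free = ∑ i ∈ Finset.range s.length, (3 - (s.nb i).length) := by
  have h : ∀ t : St, (t.map (fun x => 3 - x.2.length)).sum =
      ∑ i ∈ Finset.range t.length, (3 - ((t[i]?).getD (false, [])).2.length) := by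
    intro t
    induction t with
    | nil => simp
    | cons x t ih =>
      rw [List.map_cons, List.sum_cons, ih, List.length_cons, Finset.sum_range_succ']
      simp only [List.getElem?_cons_succ, List.getElem?_cons_zero, Option.getD_some]
      rw [add_comm]
  rw [St.free, h]
  simp only [nb_eq]

/-! ## Well-formed states -/

structure WF (s : St) : Prop where
  len : ∀ v, (s.nb v).length ≤ 3
  nodup : ∀ v, (s.nb v).Nodup
  lt : ∀ v, ∀ x ∈ s.nb v, x < s.length
  sym : ∀ v, ∀ x ∈ s.nb v, v ∈ s.nb x
  ty : ∀ v, ∀ x ∈ s.nb v, s.ty x ≠ s.ty v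

theorem WF.lt' {s : St} (_h : WF s) {v x : ℕ} (hx : x ∈ s.nb v) : v < s.length := by
  by_contra hc
  rw [nb_of_ge s (not_lt.1 hc)] at hx
  simp at hx

theorem wf_iff {s : St} (h : s.wf = true) : WF s := by
  rw [St.wf, List.all_eq_true] at h
  have h' : ∀ v < s.length, (s.nb v).length ≤ 3 ∧ (s.nb v).Nodup ∧
      ∀ x ∈ s.nb v, x < s.length ∧ v ∈ s.nb x ∧ s.ty x ≠ s.ty v := by
    intro v hv
    have := h v (List.mem_range.2 hv)
    simp only [Bool.and_eq_true, List.all_eq_true, Nat.ble_eq, decide_eq_true_eq, bne_iff_ne,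
      Nat.blt_eq, adjq_iff] at this
    obtain ⟨⟨h1, h2⟩, h3⟩ := this
    exact ⟨h1, h2, fun x hx => ⟨(h3 x hx).1.1, (h3 x hx).1.2, (h3 x hx).2⟩⟩
  have hge : ∀ v, ¬ v < s.length → s.nb v = [] := fun v hv => nb_of_ge s (not_lt.1 hv)
  refine ⟨fun v => ?_, fun v => ?_, fun v x hx => ?_, fun v x hx => ?_, fun v x hx => ?_⟩ <;>
    by_cases hv : v < s.length
  · exact (h' v hv).1
  · rw [hge v hv]; simp
  · exact (h' v hv).2.1
  · rw [hge v hv]; simp
  · exact ((h' v hv).2.2 x hx).1
  · rw [hge v hv] at hx; simp at hx
  · exact ((h' v hv).2.2 x hx).2.1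
  · rw [hge v hv] at hx; simp at hx
  · exact ((h' v hv).2.2 x hx).2.2
  · rw [hge v hv] at hx; simp at hx

theorem canadd_iff {s : St} {a b : ℕ} : s.canadd a b = true ↔ s.ty a ≠ s.ty b ∧
    (s.nb a).length < 3 ∧ (s.nb b).length < 3 ∧ b ∉ s.nb a ∧
      ∀ x ∈ s.nb a, ∀ y ∈ s.nb x, y = a ∨ b ∉ s.nb y := by
  unfold St.canadd
  simp only [Bool.and_eq_true, List.all_eq_true, bne_iff_ne, Nat.blt_eq, Bool.not_eq_true',
    Bool.or_eq_true, Nat.beq_eq]
  constructor
  · rintro ⟨⟨⟨⟨h1, h2⟩, h3⟩, h4⟩, h5⟩
    refine ⟨h1, h2, h3, ?_, fun x hx y hy => ?_⟩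
    · intro h; rw [← adjq_iff] at h; rw [h] at h4; cases h4
    · rcases h5 x hx y hy with h | h
      · exact Or.inl h
      · right; intro h'; rw [← adjq_iff] at h'; rw [h'] at h; cases h
  · rintro ⟨h1, h2, h3, h4, h5⟩
    refine ⟨⟨⟨⟨h1, h2⟩, h3⟩, ?_⟩, fun x hx y hy => ?_⟩
    · rw [← Bool.not_eq_true, adjq_iff]; exact h4
    · rcases h5 x hx y hy with h | h
      · exact Or.inl h
      · right; rw [← Bool.not_eq_true, adjq_iff]; exact h

theorem WF.add {s : St} (h : WF s) {a b : ℕ} (ha : a < s.length) (hb : b < s.length)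
    (hc : s.canadd a b = true) : WF (s.add a b) := by
  rw [canadd_iff] at hc
  obtain ⟨h1, h2, h3, h4, -⟩ := hc
  have hab : a ≠ b := fun e => h1 (by rw [e])
  have h4' : a ∉ s.nb b := fun e => h4 (h.sym b a e)
  have hnb := add_nb s ha hb hab
  have hnba : (s.add a b).nb a = s.nb a ++ [b] := by rw [hnb, if_pos rfl]
  have hnbb : (s.add a b).nb b = s.nb b ++ [a] := by rw [hnb, if_neg (Ne.symm hab), if_pos rfl]
  have hsub : ∀ v, ∀ x ∈ s.nb v, x ∈ (s.add a b).nb v := by
    intro v x hx
    rw [hnb]
    split_ifs with e e'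
    · subst e; exact List.mem_append_left _ hx
    · subst e'; exact List.mem_append_left _ hx
    · exact hx
  refine ⟨fun v => ?_, fun v => ?_, fun v x hx => ?_, fun v x hx => ?_, fun v x hx => ?_⟩
  · rw [hnb]
    split_ifs
    · rw [List.length_append]; simp; omega
    · rw [List.length_append]; simp; omega
    · exact h.len v
  · rw [hnb]
    split_ifs
    · rw [List.nodup_append]
      refine ⟨h.nodup a, List.nodup_singleton _, ?_⟩
      intro x hx y hy
      rw [List.mem_singleton] at hy
      rintro rfl
      exact h4 (hy ▸ hx)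
    · rw [List.nodup_append]
      refine ⟨h.nodup b, List.nodup_singleton _, ?_⟩
      intro x hx y hy
      rw [List.mem_singleton] at hy
      rintro rfl
      exact h4' (hy ▸ hx)
    · exact h.nodup v
  · rw [add_length]
    rw [hnb] at hx
    split_ifs at hx
    · rcases List.mem_append.1 hx with hx | hx
      · exact h.lt _ x hx
      · rw [List.mem_singleton] at hx; rw [hx]; exact hb
    · rcases List.mem_append.1 hx with hx | hx
      · exact h.lt _ x hx
      · rw [List.mem_singleton] at hx; rw [hx]; exact ha
    · exact h.lt _ x hx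
  · rw [hnb] at hx
    split_ifs at hx with e e'
    · subst e
      rcases List.mem_append.1 hx with hx | hx
      · exact hsub _ _ (h.sym _ x hx)
      · rw [List.mem_singleton] at hx; rw [hx, hnbb]; simp
    · subst e'
      rcases List.mem_append.1 hx with hx | hx
      · exact hsub _ _ (h.sym _ x hx)
      · rw [List.mem_singleton] at hx; rw [hx, hnba]; simp
    · exact hsub _ _ (h.sym _ x hx)
  · rw [add_ty, add_ty]
    rw [hnb] at hx
    split_ifs at hx with e e'
    · subst e
      rcases List.mem_append.1 hx with hx | hx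
      · exact h.ty _ x hx
      · rw [List.mem_singleton] at hx; rw [hx]; exact Ne.symm h1
    · subst e'
      rcases List.mem_append.1 hx with hx | hx
      · exact h.ty _ x hx
      · rw [List.mem_singleton] at hx; rw [hx]; exact h1
    · exact h.ty _ x hx

theorem newv_nb' (s : St) {a : ℕ} (ha : a < s.length) (v : ℕ) :
    (s.newv a).nb v = if v = a then s.nb a ++ [s.length] else if v = s.length then [a]
      else s.nb v := by
  by_cases hv : v < s.length
  · rw [newv_nb s ha v hv]
    have : v ≠ s.length := by omega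
    simp [this]
  · by_cases hv' : v = s.length
    · have : v ≠ a := by omega
      rw [if_neg this, if_pos hv', hv', newv_nb_last]
    · have : v ≠ a := by omega
      rw [if_neg this, if_neg hv', nb_of_ge s (not_lt.1 hv), nb_of_ge]
      rw [newv_length]; omega

theorem WF.newv {s : St} (h : WF s) {a : ℕ} (ha : a < s.length) (h3 : (s.nb a).length < 3) :
    WF (s.newv a) := by
  have hnb := newv_nb' s ha
  have hnba : (s.newv a).nb a = s.nb a ++ [s.length] := by rw [hnb, if_pos rfl]
  have hna : ∀ v, s.length ∉ s.nb v := fun v hv => lt_irrefl _ (h.lt v _ hv)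
  have hsub : ∀ v, ∀ x ∈ s.nb v, x ∈ (s.newv a).nb v := by
    intro v x hx
    rw [hnb]
    split_ifs with e e'
    · subst e; exact List.mem_append_left _ hx
    · subst e'; rw [nb_of_ge s le_rfl] at hx; simp at hx
    · exact hx
  refine ⟨fun v => ?_, fun v => ?_, fun v x hx => ?_, fun v x hx => ?_, fun v x hx => ?_⟩
  · rw [hnb]
    split_ifs
    · rw [List.length_append]; simp; omega
    · simp
    · exact h.len v
  · rw [hnb]
    split_ifs
    · rw [List.nodup_append]
      refine ⟨h.nodup a, List.nodup_singleton _, ?_⟩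
      intro x hx y hy
      rw [List.mem_singleton] at hy
      rintro rfl
      exact hna a (hy ▸ hx)
    · exact List.nodup_singleton _
    · exact h.nodup v
  · rw [newv_length]
    rw [hnb] at hx
    split_ifs at hx
    · rcases List.mem_append.1 hx with hx | hx
      · exact (h.lt _ x hx).trans (Nat.lt_succ_self _)
      · rw [List.mem_singleton] at hx; omega
    · rw [List.mem_singleton] at hx; omega
    · exact (h.lt _ x hx).trans (Nat.lt_succ_self _)
  · rw [hnb] at hx
    split_ifs at hx with e e'
    · subst e
      rcases List.mem_append.1 hx with hx | hx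
      · exact hsub _ _ (h.sym _ x hx)
      · rw [List.mem_singleton] at hx; rw [hx, newv_nb_last]; simp
    · subst e'
      rw [List.mem_singleton] at hx; rw [hx, hnba]; simp
    · exact hsub _ _ (h.sym _ x hx)
  · rw [hnb] at hx
    split_ifs at hx with e e'
    · subst e
      rcases List.mem_append.1 hx with hx | hx
      · rw [newv_ty s ha _ ha, newv_ty s ha _ (h.lt _ x hx)]
        exact h.ty _ x hx
      · rw [List.mem_singleton] at hx
        rw [hx, newv_ty_last, newv_ty s ha _ ha]
        simp
    · subst e'
      rw [List.mem_singleton] at hx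
      rw [hx, newv_ty_last, newv_ty s ha _ ha]
      simp
    · have hv := h.lt' hx
      rw [newv_ty s ha _ hv, newv_ty s ha _ (h.lt _ x hx)]
      exact h.ty _ x hx

/-! ## Embeddings -/

section emb

variable {V : Type} [Fintype V] [DecidableEq V] {G : SimpleGraph V} {side : V → Bool}

theorem card_nbrs (hL : Lev G side) {v : V} {S : Finset V} (hS : ∀ u ∈ S, G.Adj v u) :
    S.card ≤ 3 := by
  classical
  rw [← hL.cubic v, dg]
  exact Finset.card_le_card fun u hu => Finset.mem_filter.2 ⟨mem_univ _, hS u hu⟩

/-- the known neighbours of a vertex, in `V` -/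
def im (s : St) (φ : ℕ → V) (a : ℕ) : Finset V := ((s.nb a).map φ).toFinset

theorem mem_im {s : St} {φ : ℕ → V} {a : ℕ} {w : V} : w ∈ im s φ a ↔ ∃ x ∈ s.nb a, φ x = w := by
  rw [im, List.mem_toFinset, List.mem_map]

theorem card_im {s : St} (hw : WF s) {φ : ℕ → V} (hE : StEmb G side s φ) (a : ℕ) :
    (im s φ a).card = (s.nb a).length := by
  rw [im, List.toFinset_card_of_nodup, List.length_map]
  refine (List.nodup_map_iff_inj_on (hw.nodup a)).2 ?_
  intro x hx y hy hxy
  exact hE.1 x (hw.lt a x hx) y (hw.lt a y hy) hxy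

theorem im_adj {s : St} {φ : ℕ → V} (hE : StEmb G side s φ) {a : ℕ} (ha : a < s.length) :
    ∀ u ∈ im s φ a, G.Adj (φ a) u := by
  intro u hu
  obtain ⟨x, hx, rfl⟩ := mem_im.1 hu
  exact hE.2.1 a ha x hx

/-- a new neighbour forces a free place -/
theorem len_lt (hL : Lev G side) {s : St} (hw : WF s) {φ : ℕ → V} (hE : StEmb G side s φ) {a : ℕ}
    (ha : a < s.length) {w : V} (hadj : G.Adj (φ a) w) (hn : ∀ x ∈ s.nb a, φ x ≠ w) :
    (s.nb a).length < 3 := by
  have h1 : (insert w (im s φ a)).card ≤ 3 := by
    refine card_nbrs hL (v := φ a) ?_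
    intro u hu
    rcases Finset.mem_insert.1 hu with rfl | hu
    · exact hadj
    · exact im_adj hE ha u hu
  rw [Finset.card_insert_of_notMem, card_im hw hE] at h1
  · omega
  · intro h
    obtain ⟨x, hx, hxw⟩ := mem_im.1 h
    exact hn x hx hxw

theorem canadd_of_adj (hL : Lev G side) {s : St} (hw : WF s) {φ : ℕ → V} (hE : StEmb G side s φ)
    {a b : ℕ} (ha : a < s.length) (hb : b < s.length) (hadj : G.Adj (φ a) (φ b))
    (hn : b ∉ s.nb a) : s.canadd a b = true := by
  have hn' : a ∉ s.nb b := fun h => hn (hw.sym b a h)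
  obtain ⟨hinj, hnb, c, hc⟩ := hE
  have hE : StEmb G side s φ := ⟨hinj, hnb, c, hc⟩
  rw [canadd_iff]
  refine ⟨?_, ?_, ?_, hn, ?_⟩
  · have h1 := hL.bip _ _ hadj
    rw [hc a ha, hc b hb] at h1
    intro h
    exact h1 (by rw [h])
  · refine len_lt hL hw hE ha hadj fun x hx h => ?_
    exact hn (hinj x (hw.lt a x hx) b hb h ▸ hx)
  · refine len_lt hL hw hE hb hadj.symm fun x hx h => ?_
    exact hn' (hinj x (hw.lt b x hx) a ha h ▸ hx)
  · intro x hx y hy
    by_contra hcon
    push Not at hcon
    obtain ⟨hya, hby⟩ := hcon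
    have hxl := hw.lt a x hx
    have hyl := hw.lt x y hy
    have e1 : φ y ≠ φ a := fun h => hya (hinj y hyl a ha h)
    have e2 := hL.noC4 (φ a) (φ y) e1.symm (φ x) (φ b) (hnb a ha x hx)
      (hnb x hxl y hy).symm hadj (hnb y hyl b hby)
    exact hn (hinj x hxl b hb e2 ▸ hx)

theorem emb_add {s : St} {φ : ℕ → V} (hE : StEmb G side s φ) {a b : ℕ} (ha : a < s.length)
    (hb : b < s.length) (hab : a ≠ b) (hadj : G.Adj (φ a) (φ b)) : StEmb G side (s.add a b) φ := by
  obtain ⟨hinj, hnb, c, hc⟩ := hE
  refine ⟨?_, ?_, c, ?_⟩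
  · rw [add_length]; exact hinj
  · rw [add_length]
    intro i hi j hj
    rw [add_nb s ha hb hab] at hj
    split_ifs at hj with e e'
    · subst e
      rcases List.mem_append.1 hj with hj | hj
      · exact hnb _ hi j hj
      · rw [List.mem_singleton] at hj; rw [hj]; exact hadj
    · subst e'
      rcases List.mem_append.1 hj with hj | hj
      · exact hnb _ hi j hj
      · rw [List.mem_singleton] at hj; rw [hj]; exact hadj.symm
    · exact hnb _ hi j hj
  · rw [add_length]
    intro i hi
    rw [add_ty]
    exact hc i hi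

theorem emb_newv (hL : Lev G side) {s : St} (hw : WF s) {φ : ℕ → V} (hE : StEmb G side s φ) {a : ℕ}
    (ha : a < s.length) {w : V} (hadj : G.Adj (φ a) w) (hn : ∀ x < s.length, φ x ≠ w) :
    StEmb G side (s.newv a) (Function.update φ s.length w) := by
  obtain ⟨hinj, hnb, c, hc⟩ := hE
  have hup : ∀ i < s.length, Function.update φ s.length w i = φ i := by
    intro i hi
    rw [Function.update_of_ne (by omega)]
  have hlast : Function.update φ s.length w s.length = w := Function.update_self _ _ _
  have hnb' := newv_nb' s ha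
  refine ⟨?_, ?_, c, ?_⟩
  · rw [newv_length]
    intro i hi j hj h
    by_cases hi' : i = s.length <;> by_cases hj' : j = s.length
    · omega
    · subst hi'
      rw [hlast, hup j (by omega)] at h
      exact absurd h.symm (hn j (by omega))
    · subst hj'
      rw [hlast, hup i (by omega)] at h
      exact absurd h (hn i (by omega))
    · rw [hup i (by omega), hup j (by omega)] at h
      exact hinj i (by omega) j (by omega) h
  · rw [newv_length]
    intro i hi j hj
    rw [hnb'] at hj
    split_ifs at hj with e e'
    · subst e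
      rcases List.mem_append.1 hj with hj | hj
      · rw [hup _ ha, hup j (hw.lt _ j hj)]; exact hnb _ ha j hj
      · rw [List.mem_singleton] at hj
        subst hj
        rw [hlast, hup _ ha]; exact hadj
    · rw [List.mem_singleton] at hj
      subst hj e'
      rw [hlast, hup _ ha]; exact hadj.symm
    · have hi' : i < s.length := by omega
      rw [hup i hi', hup j (hw.lt _ j hj)]; exact hnb i hi' j hj
  · rw [newv_length]
    intro i hi
    by_cases hi' : i = s.length
    · subst hi'
      rw [hlast, newv_ty_last]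
      have h1 := hL.bip _ _ hadj
      rw [hc a ha] at h1
      revert h1
      cases side w <;> cases s.ty a <;> cases c <;> simp
    · have hi'' : i < s.length := by omega
      rw [hup i hi'', newv_ty s ha i hi'']
      exact hc i hi''


/-! ## Assignments -/

theorem get_set' (as : Asg) (i x j : ℕ) :
    (as.set' i x).get j = if j = i then some x else as.get j := by
  induction i generalizing as j with
  | zero =>
    cases as with
    | nil => cases j <;> simp [Asg.set', Asg.get]
    | cons y as => cases j <;> simp [Asg.set', Asg.get]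
  | succ i ih =>
    cases as with
    | nil =>
      cases j with
      | zero => simp [Asg.set', Asg.get]
      | succ j =>
        have h := ih [] j
        simp only [Asg.set', Asg.get, List.getD_cons_succ] at h ⊢
        rw [h]
        simp
    | cons y as =>
      cases j with
      | zero => simp [Asg.set', Asg.get]
      | succ j =>
        have h := ih as j
        simp only [Asg.set', Asg.get, List.getD_cons_succ] at h ⊢
        rw [h]
        simp

theorem excl_false {as : Asg} {ex : List ℕ} {x : ℕ} (h : ∀ e ∈ ex, as.get e ≠ some x) :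
    as.excl ex x = false := by
  rw [Asg.excl, List.any_eq_false]
  intro e he
  simpa using h e he

/-! ## Realizing a blocker -/

theorem realize_sound (hL : Lev G side) (asg' : ℕ → V) : ∀ (f : Form) (s : St) (as : Asg) (φ : ℕ → V)
    (known : List ℕ), WF s → StEmb G side s φ →
    (∀ i x, as.get i = some x → x < s.length ∧ asg' i = φ x) →
    (∀ i ∈ known, ∃ x, as.get i = some x) → formWf f known = true → FormHolds G asg' f →
    ∃ c ∈ realize f s as, WF c ∧ ∃ φ' : ℕ → V, StEmb G side c φ' := by
  intro f
  induction f with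
  | nil =>
    intro s as φ known hw hE _ _ _ _
    exact ⟨s, by simp [realize], hw, φ, hE⟩
  | cons q f ih =>
    intro s as φ known hw hE has hkn hf hH
    rw [formWf, Bool.and_eq_true, List.elem_iff] at hf
    obtain ⟨hqa, hf⟩ := hf
    obtain ⟨a, ha⟩ := hkn _ hqa
    obtain ⟨hal, hav⟩ := has _ _ ha
    obtain ⟨hadj, hex⟩ := hH q (List.mem_cons_self ..)
    have hH' : FormHolds G asg' f := fun q' hq' => hH q' (List.mem_cons_of_mem _ hq')
    rw [hav] at hadj
    have hexcl : ∀ x, x < s.length → φ x = asg' q.b → as.excl q.ex x = false := by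
      intro x hx hxb
      refine excl_false fun e he h => ?_
      exact hex e he (by rw [(has _ _ h).2, hxb])
    rw [realize]
    simp only [ha]
    cases hb : as.get q.b with
    | some b =>
      obtain ⟨hbl, hbv⟩ := has _ _ hb
      have hkn' : ∀ i ∈ q.b :: known, ∃ x, as.get i = some x := by
        intro i hi
        rcases List.mem_cons.1 hi with rfl | hi
        · exact ⟨b, hb⟩
        · exact hkn i hi
      rw [hbv] at hadj
      simp only [hexcl b hbl hbv.symm, Bool.false_eq_true, if_false]
      by_cases hab : b ∈ s.nb a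
      · rw [if_pos ((adjq_iff s a b).2 hab)]
        exact ih s as φ _ hw hE has hkn' hf hH'
      · rw [if_neg (fun h => hab ((adjq_iff s a b).1 h))]
        have hc := canadd_of_adj hL hw hE hal hbl hadj hab
        rw [if_pos hc]
        have hne : a ≠ b := by
          rintro rfl
          exact hadj.ne rfl
        refine ih _ as φ _ (hw.add hal hbl hc) (emb_add hE hal hbl hne hadj) ?_ hkn' hf hH'
        intro i x hi
        rw [add_length]
        exact has i x hi
    | none =>
      have hkn' : ∀ y, ∀ i ∈ q.b :: known, ∃ x, (as.set' q.b y).get i = some x := by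
        intro y i hi
        rw [get_set']
        by_cases hib : i = q.b
        · exact ⟨y, if_pos hib⟩
        · rw [if_neg hib]
          rcases List.mem_cons.1 hi with rfl | hi
          · exact absurd rfl hib
          · exact hkn i hi
      by_cases h1 : ∃ x ∈ s.nb a, φ x = asg' q.b
      · obtain ⟨x, hx, hxb⟩ := h1
        have hxl := hw.lt a x hx
        obtain ⟨c, hc, hc'⟩ := ih s (as.set' q.b x) φ _ hw hE (fun i y hi => by
          rw [get_set'] at hi
          by_cases hib : i = q.b
          · rw [if_pos hib, Option.some_inj] at hi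
            subst hi hib
            exact ⟨hxl, hxb.symm⟩
          · rw [if_neg hib] at hi
            exact has i y hi) (hkn' x) hf hH'
        refine ⟨c, List.mem_append_left _ (List.mem_flatMap.2 ⟨x, List.mem_filter.2 ⟨hx, ?_⟩, hc⟩), hc'⟩
        rw [hexcl x hxl hxb]; rfl
      · push Not at h1
        have h3 := len_lt hL hw hE hal hadj h1
        have h3' : Nat.blt (s.nb a).length 3 = true := by rw [Nat.blt_eq]; exact h3
        rw [if_pos h3']
        by_cases h2 : ∃ x < s.length, φ x = asg' q.b
        · obtain ⟨x, hxl, hxb⟩ := h2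
          have hxa : x ∉ s.nb a := fun h => h1 x h hxb
          rw [← hxb] at hadj
          have hc := canadd_of_adj hL hw hE hal hxl hadj hxa
          have hne : a ≠ x := by
            rintro rfl
            exact hadj.ne rfl
          obtain ⟨c, hc1, hc'⟩ := ih (s.add a x) (as.set' q.b x) φ _ (hw.add hal hxl hc)
            (emb_add hE hal hxl hne hadj) (fun i y hi => by
            rw [add_length]
            rw [get_set'] at hi
            by_cases hib : i = q.b
            · rw [if_pos hib, Option.some_inj] at hi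
              subst hi hib
              exact ⟨hxl, hxb.symm⟩
            · rw [if_neg hib] at hi
              exact has i y hi) (hkn' x) hf hH'
          refine ⟨c, List.mem_append_right _ (List.mem_append_left _
            (List.mem_flatMap.2 ⟨x, List.mem_filter.2 ⟨List.mem_range.2 hxl, ?_⟩, hc1⟩)), hc'⟩
          rw [hexcl x hxl hxb, hc]; rfl
        · push Not at h2
          have hup : ∀ i < s.length, Function.update φ s.length (asg' q.b) i = φ i := by
            intro i hi
            rw [Function.update_of_ne (by omega)]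
          obtain ⟨c, hc1, hc'⟩ := ih (s.newv a) (as.set' q.b s.length)
            (Function.update φ s.length (asg' q.b)) _ (hw.newv hal h3)
            (emb_newv hL hw hE hal hadj h2) (fun i y hi => by
            rw [newv_length]
            rw [get_set'] at hi
            by_cases hib : i = q.b
            · rw [if_pos hib, Option.some_inj] at hi
              subst hi hib
              exact ⟨by omega, by rw [Function.update_self]⟩
            · rw [if_neg hib] at hi
              obtain ⟨h4, h5⟩ := has i y hi
              exact ⟨by omega, by rw [hup y h4, h5]⟩) (hkn' _) hf hH'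
          exact ⟨c, List.mem_append_right _ (List.mem_append_right _ hc1), hc'⟩

/-! ## Sub-states -/

theorem emb_of_check {s t : St} {mp : List ℕ} (hm : embCheck s t mp = true) {φ : ℕ → V}
    (hE : StEmb G side t φ) : StEmb G side s (fun i => φ (mp.getD i 0)) := by
  rw [embCheck] at hm
  simp only [Bool.and_eq_true, Nat.beq_eq, List.all_eq_true, Nat.blt_eq, decide_eq_true_eq,
    List.mem_range, adjq_iff, Bool.or_eq_true, beq_iff_eq, bne_iff_ne] at hm
  obtain ⟨⟨⟨⟨hlen, hlt⟩, hnd⟩, hadj⟩, hty⟩ := hm
  obtain ⟨hinj, hnb, c, hc⟩ := hE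
  have hg : ∀ i < s.length, mp.getD i 0 < t.length := by
    intro i hi
    rw [List.getD_eq_getElem _ _ (hlen ▸ hi)]
    exact hlt _ (List.getElem_mem _)
  refine ⟨?_, ?_, ?_⟩
  · intro i hi j hj h
    have h' := hinj _ (hg i hi) _ (hg j hj) h
    rw [List.getD_eq_getElem _ _ (hlen ▸ hi), List.getD_eq_getElem _ _ (hlen ▸ hj)] at h'
    exact (List.Nodup.getElem_inj_iff hnd).1 h'
  · intro i hi j hj
    exact hnb _ (hg i hi) _ (hadj i hi j hj)
  · rcases hty with h | h
    · refine ⟨c, fun i hi => ?_⟩
      rw [hc _ (hg i hi), h i hi]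
    · refine ⟨!c, fun i hi => ?_⟩
      rw [hc _ (hg i hi)]
      have := h i hi
      revert this
      cases s.ty i <;> cases t.ty (mp.getD i 0) <;> cases c <;> simp

/-! ## Pruning -/

/-- the image of the state -/
def img (s : St) (φ : ℕ → V) : Finset V := (Finset.range s.length).image φ

theorem mem_img {s : St} {φ : ℕ → V} {w : V} : w ∈ img s φ ↔ ∃ i < s.length, φ i = w := by
  simp [img]

theorem card_img {s : St} {φ : ℕ → V} (hE : StEmb G side s φ) : (img s φ).card = s.length := by
  rw [img, Finset.card_image_of_injOn, Finset.card_range]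
  intro i hi j hj h
  exact hE.1 i (by simpa using hi) j (by simpa using hj) h

theorem dg_img (hL : Lev G side) {s : St} (hw : WF s) {φ : ℕ → V} (hE : StEmb G side s φ) {i : ℕ}
    (hi : i < s.length) : dg G (img s φ)ᶜ (φ i) ≤ 3 - (s.nb i).length := by
  classical
  have h1 : (im s φ i ∪ ((img s φ)ᶜ.filter (fun u => G.Adj (φ i) u))).card ≤ 3 := by
    refine card_nbrs hL (v := φ i) ?_
    intro u hu
    rcases Finset.mem_union.1 hu with hu | hu
    · exact im_adj hE hi u hu
    · exact (Finset.mem_filter.1 hu).2
  rw [Finset.card_union_of_disjoint, card_im hw hE] at h1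
  · have h2 : dg G (img s φ)ᶜ (φ i) = ((img s φ)ᶜ.filter (fun u => G.Adj (φ i) u)).card := by
      rw [dg]
    omega
  · rw [Finset.disjoint_left]
    intro u hu hu'
    obtain ⟨x, hx, rfl⟩ := mem_im.1 hu
    have := (Finset.mem_filter.1 hu').1
    rw [Finset.mem_compl, mem_img] at this
    exact this ⟨x, hw.lt i x hx, rfl⟩

theorem cut_img (hL : Lev G side) {s : St} (hw : WF s) {φ : ℕ → V} (hE : StEmb G side s φ) :
    cut G (img s φ) ≤ s.free := by
  have h : cut G (img s φ) = ∑ i ∈ Finset.range s.length, dg G (img s φ)ᶜ (φ i) := by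
    rw [cut, ed]
    conv_lhs => rw [img]
    rw [Finset.sum_image]
    · rfl
    · intro i hi j hj h
      exact hE.1 i (by simpa using hi) j (by simpa using hj) h
  rw [h, free_eq]
  refine Finset.sum_le_sum fun i hi => ?_
  exact dg_img hL hw hE (Finset.mem_range.1 hi)

theorem compl_empty_of_cut (hL : Lev G side) {A : Finset V} (hA : A.Nonempty) (h : cut G A ≤ 2) :
    Aᶜ = ∅ := by
  by_contra hc
  have := hL.c3 A hA (Finset.nonempty_iff_ne_empty.2 hc)
  omega

theorem not_prune (hL : Lev G side) (h5 : Cyc5 G) (h22 : 22 ≤ Fintype.card V) {s : St} (hw : WF s)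
    {φ : ℕ → V} (hE : StEmb G side s φ) : s.prune = false := by
  by_contra hp
  rw [Bool.not_eq_false] at hp
  simp only [St.prune, Bool.and_eq_true, Bool.or_eq_true, Nat.ble_eq, Nat.blt_eq] at hp
  obtain ⟨h3, hp⟩ := hp
  have hcut := cut_img hL hw hE
  have hcard := card_img hE
  have hV : (img s φ)ᶜ.card = Fintype.card V - s.length := by
    rw [Finset.card_compl, hcard]
  have hne : (img s φ).Nonempty := by
    rw [← Finset.card_pos, hcard]; omega
  rcases hp with (⟨h4, hm⟩ | ⟨h4, hm⟩) | ⟨h4, hm⟩
  · rcases h5 (img s φ) (by omega) with h | h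
    · omega
    · omega
  · rcases h5 (img s φ) (by omega) with h | h
    · omega
    · have h2 : (img s φ)ᶜ.card = 2 := by omega
      have hpar := cut_parity hL.cubic (img s φ)ᶜ
      rw [cut_compl, h2] at hpar
      have h6 := compl_empty_of_cut hL hne (by omega)
      rw [h6] at h2
      simp at h2
  · have h6 := compl_empty_of_cut hL hne (by omega)
    rw [h6] at hV
    simp at hV
    omega

/-! ## Complete graphs with coordinates -/

/-- the vector given by three integers -/
def vec (c : ℤ × ℤ × ℤ) : E := ![(c.1 : ℝ), (c.2.1 : ℝ), (c.2.2 : ℝ)]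

theorem vec_dot (a b : ℤ × ℤ × ℤ) : vec a ⬝ᵥ vec b = ((dotZ a b : ℤ) : ℝ) := by
  simp [vec, dotZ, dotProduct, Fin.sum_univ_three]

theorem vec_np {a b : ℤ × ℤ × ℤ} (h : crossNZ a b = true) : Np (vec a) (vec b) := by
  intro h0
  rw [cross_apply] at h0
  simp only [crossNZ, Bool.or_eq_true, bne_iff_ne] at h
  have e0 := congrFun h0 0
  have e1 := congrFun h0 1
  have e2 := congrFun h0 2
  simp [vec] at e0 e1 e2
  have e0' : a.2.1 * b.2.2 - a.2.2 * b.2.1 = 0 := by exact_mod_cast e0
  have e1' : a.2.2 * b.1 - a.1 * b.2.2 = 0 := by exact_mod_cast e1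
  have e2' : a.1 * b.2.1 - a.2.1 * b.1 = 0 := by exact_mod_cast e2
  rcases h with (h | h) | h
  · exact h e0'
  · exact h e1'
  · exact h e2'

theorem np_ne {a b : E} (h : Np a b) : a ≠ 0 := by
  rintro rfl
  apply h
  simp

theorem coord_sound (hL : Lev G side) {s : St} (hw : WF s) {c : List (ℤ × ℤ × ℤ)}
    (hc : coordCheck s c = true) {φ : ℕ → V} (hE : StEmb G side s φ) : ∃ ρ, Exact G side ρ := by
  classical
  simp only [coordCheck, Bool.and_eq_true, Nat.beq_eq, List.all_eq_true, Nat.blt_eq,
    List.mem_range] at hc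
  obtain ⟨⟨⟨⟨hfree, h3⟩, -⟩, hpos⟩, hchk⟩ := hc
  have hnb3 : ∀ i < s.length, (s.nb i).length = 3 := by
    intro i hi
    rw [nb_eq, List.getElem?_eq_getElem hi]
    exact h3 _ (List.getElem_mem _)
  have hcut := cut_img hL hw hE
  have hcard := card_img hE
  have hne : (img s φ).Nonempty := by
    rw [← Finset.card_pos, hcard]; omega
  have hempty := compl_empty_of_cut hL hne (by omega)
  have hsurj : ∀ v : V, ∃ i < s.length, φ i = v := by
    intro v
    rw [← mem_img]
    by_contra hv
    rw [← Finset.mem_compl, hempty] at hv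
    simp at hv
  choose ix hix hφ using hsurj
  have hty : ∀ i < s.length, ∀ j < s.length, side (φ i) = side (φ j) ↔ s.ty i = s.ty j := by
    obtain ⟨-, -, b, hb⟩ := hE
    intro i hi j hj
    rw [hb i hi, hb j hj]
    cases s.ty i <;> cases s.ty j <;> cases b <;> simp
  have hadj : ∀ i < s.length, ∀ j < s.length, G.Adj (φ i) (φ j) ↔ j ∈ s.nb i := by
    intro i hi j hj
    constructor
    · intro h
      by_contra hn
      have := len_lt hL hw hE hi h fun x hx he =>
        hn (hE.1 x (hw.lt i x hx) j hj he ▸ hx)
      rw [hnb3 i hi] at this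
      omega
    · intro h
      exact hE.2.1 i hi j h
  have hD : ∀ u v, side u ≠ side v → (G.Adj u v → dotZ (c.getD (ix u) (0, 0, 0))
      (c.getD (ix v) (0, 0, 0)) = 0) ∧ (¬ G.Adj u v → dotZ (c.getD (ix u) (0, 0, 0))
      (c.getD (ix v) (0, 0, 0)) ≠ 0) := by
    intro u v huv
    have h := hchk (ix u) (hix u) (ix v) (hix v)
    have ht : s.ty (ix u) ≠ s.ty (ix v) := by
      rw [Ne, ← hty _ (hix u) _ (hix v), hφ, hφ]
      exact huv
    have ht' : (s.ty (ix u) != s.ty (ix v)) = true := bne_iff_ne.2 ht
    rw [if_pos ht'] at h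
    have hA := hadj _ (hix u) _ (hix v)
    rw [hφ, hφ, ← adjq_iff] at hA
    rw [hA]
    constructor
    · intro h1
      rw [if_pos h1] at h
      exact beq_iff_eq.1 h
    · intro h1
      rw [if_neg h1] at h
      exact bne_iff_ne.1 h
  have hS : ∀ u v, u ≠ v → side u = side v →
      Np (vec (c.getD (ix u) (0, 0, 0))) (vec (c.getD (ix v) (0, 0, 0))) := by
    intro u v huv hs
    have h := hchk (ix u) (hix u) (ix v) (hix v)
    have ht : s.ty (ix u) = s.ty (ix v) := by
      rw [← hty _ (hix u) _ (hix v), hφ, hφ]
      exact hs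
    have ht' : ¬ (s.ty (ix u) != s.ty (ix v)) = true := by
      rw [bne_iff_ne]; exact fun h => h ht
    rw [if_neg ht'] at h
    rw [Bool.or_eq_true, Nat.beq_eq] at h
    rcases h with h | h
    · exact absurd (by rw [← hφ u, ← hφ v, h]) huv
    · exact vec_np h
  refine ⟨fun v => vec (c.getD (ix v) (0, 0, 0)), ?_, ⟨?_, hS⟩, ?_⟩
  · intro u v huv
    show vec _ ⬝ᵥ vec _ = 0
    rw [vec_dot, (hD u v (hL.bip u v huv)).1 huv]
    simp
  · intro v
    have hi := hix v
    have h1 := hnb3 _ hi
    obtain ⟨x, hx⟩ : ∃ x, x ∈ s.nb (ix v) := by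
      rcases hl : s.nb (ix v) with _ | ⟨x, l⟩
      · rw [hl] at h1; simp at h1
      · exact ⟨x, by simp⟩
    have hxl := hw.lt _ x hx
    have h2 := hnb3 _ hxl
    obtain ⟨y, hy, hyi⟩ : ∃ y ∈ s.nb x, y ≠ ix v := by
      by_contra hcon
      push Not at hcon
      have h4 : (s.nb x).toFinset ⊆ {ix v} := by
        intro y hy
        rw [Finset.mem_singleton]
        exact hcon y (List.mem_toFinset.1 hy)
      have h5 := Finset.card_le_card h4
      rw [List.toFinset_card_of_nodup (hw.nodup x), h2] at h5
      simp at h5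
    have hyl := hw.lt x y hy
    have hne1 : v ≠ φ y := by
      intro h
      apply hyi
      refine hE.1 y hyl _ hi ?_
      rw [hφ, h]
    have hs : side v = side (φ y) := by
      rw [← hφ v, hty _ hi _ hyl]
      have t1 := hw.ty _ x hx
      have t2 := hw.ty _ y hy
      revert t1 t2
      cases s.ty (ix v) <;> cases s.ty x <;> cases s.ty y <;> simp
    exact np_ne (hS v (φ y) hne1 hs)
  · intro u v huv hn
    show vec _ ⬝ᵥ vec _ ≠ 0
    rw [vec_dot]
    exact_mod_cast (hD u v huv).2 hn

end emb

/-! ## Soundness of the checks -/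

theorem kids_sound {later : ℕ → Option St} : ∀ (cs : List St) (ks : List (ℕ × List ℕ)),
    kidsCheck later cs ks = true → ∀ c ∈ cs, c.prune = false →
      ∃ j mp s, later j = some s ∧ embCheck s c mp = true := by
  intro cs
  induction cs with
  | nil => intro ks _ c hc; simp at hc
  | cons c0 cs ih =>
    intro ks h c hc hp
    unfold kidsCheck at h
    by_cases hp0 : c0.prune = true
    · rw [if_pos hp0] at h
      rcases List.mem_cons.1 hc with rfl | hc
      · rw [hp0] at hp; cases hp
      · exact ih ks h c hc hp
    · rw [if_neg hp0] at h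
      rcases ks with _ | ⟨⟨j, mp⟩, ks⟩
      · simp at h
      · simp only [Bool.and_eq_true] at h
        obtain ⟨h1, h2⟩ := h
        rcases List.mem_cons.1 hc with rfl | hc
        · cases hl : later j with
          | none => rw [hl] at h1; simp at h1
          | some s =>
            rw [hl] at h1
            exact ⟨j, mp, s, hl, h1⟩
        · exact ih ks h2 c hc hp

theorem block_sound {later : ℕ → Option St} {s : St} {as : Asg} : ∀ (fs : List Form)
    (kss : List (List (ℕ × List ℕ))), blockCheck later s as fs kss = true → ∀ f ∈ fs,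
      ∃ ks, kidsCheck later (realize f s as) ks = true := by
  intro fs
  induction fs with
  | nil => intro kss _ f hf; simp at hf
  | cons f0 fs ih =>
    intro kss h f hf
    rcases kss with _ | ⟨ks, kss⟩
    · simp [blockCheck] at h
    · rw [blockCheck, Bool.and_eq_true] at h
      rcases List.mem_cons.1 hf with rfl | hf
      · exact ⟨ks, h.1⟩
      · exact ih kss h.2 f hf

theorem node_sound {tools : List Tool} {nd : Node} {base : ℕ} {rest : List Node}
    (hc : nodeCheck tools nd base rest = true)
    (ht : ∀ T ∈ tools, toolWf T = true ∧ ToolThm T) (hrest : ∀ nd ∈ rest, GoodSt nd.st) :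
    GoodSt nd.st := by
  intro V _ _ G side hL h5 h22 φ hE
  unfold nodeCheck at hc
  rw [Bool.and_eq_true] at hc
  obtain ⟨hwf, hc⟩ := hc
  have hw := wf_iff hwf
  cases nd with
  | coord s c => exact coord_sound hL hw hc hE
  | tool s t asg kids =>
    simp only [Node.st] at hw hE
    simp only at hc
    cases hT : tools[t]? with
    | none => rw [hT] at hc; simp at hc
    | some T =>
      rw [hT] at hc
      simp only [Bool.and_eq_true] at hc
      obtain ⟨hpat, hblk⟩ := hc
      obtain ⟨htw, htt⟩ := ht T (List.mem_of_getElem? hT)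
      simp only [patCheck, Bool.and_eq_true, Nat.beq_eq, decide_eq_true_eq, List.all_eq_true,
        Nat.blt_eq, adjq_iff, Bool.not_eq_true'] at hpat
      obtain ⟨⟨⟨hlen, hnd⟩, hlt⟩, hpat⟩ := hpat
      have hg : ∀ i < T.nv, asg.getD i 0 < s.length := by
        intro i hi
        rw [List.getD_eq_getElem _ _ (hlen ▸ hi)]
        exact hlt _ (List.getElem_mem _)
      have hgi : ∀ i < T.nv, ∀ j < T.nv, asg.getD i 0 = asg.getD j 0 → i = j := by
        intro i hi j hj h
        rw [List.getD_eq_getElem _ _ (hlen ▸ hi), List.getD_eq_getElem _ _ (hlen ▸ hj)] at h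
        exact (List.Nodup.getElem_inj_iff hnd).1 h
      by_cases hb : ∀ f ∈ T.bl, ¬ ∃ asg' : ℕ → V, (∀ i < T.nv, asg' i = φ (asg.getD i 0)) ∧
          FormHolds G asg' f
      · refine htt V G side hL h5 h22 (fun i => φ (asg.getD i 0)) ?_ ?_ hb
        · intro i hi j hj h
          exact hgi i hi j hj (hE.1 _ (hg i hi) _ (hg j hj) h)
        · intro q hq
          obtain ⟨⟨⟨hqa, hqb⟩, hq1⟩, hq2⟩ := hpat q hq
          refine ⟨hE.2.1 _ (hg _ hqa) _ hq1, fun e he h => ?_⟩
          obtain ⟨he1, he2⟩ := hq2 e he
          have h1 : Nat.beq (asg.getD e 0) (asg.getD q.b 0) = true := by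
            rw [Nat.beq_eq]
            exact (hE.1 _ (hg _ hqb) _ (hg _ he1) h).symm
          rw [he2] at h1
          cases h1
      · push Not at hb
        obtain ⟨f, hf, asg', hasg, hH⟩ := hb
        obtain ⟨ks, hks⟩ := block_sound _ _ hblk f hf
        have hfw : formWf f (List.range T.nv) = true := by
          rw [toolWf, List.all_eq_true] at htw
          exact htw f hf
        have hget : ∀ i, Asg.get (asg.map some) i = asg[i]? := by
          intro i
          rw [Asg.get, List.getD_eq_getElem?_getD, List.getElem?_map]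
          cases asg[i]? <;> rfl
        obtain ⟨c, hcm, hcw, φ', hE'⟩ := realize_sound hL asg' f s (asg.map some) φ
          (List.range T.nv) hw hE (fun i x hi => by
            rw [hget] at hi
            have hi' : i < asg.length := by
              by_contra hcon
              rw [List.getElem?_eq_none (not_lt.1 hcon)] at hi
              cases hi
            rw [List.getElem?_eq_getElem hi', Option.some_inj] at hi
            have h1 : asg.getD i 0 = x := by
              rw [List.getD_eq_getElem _ _ hi', hi]
            rw [hlen] at hi'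
            refine ⟨h1 ▸ hg i hi', ?_⟩
            rw [hasg i hi', h1]) (fun i hi => by
            rw [List.mem_range, ← hlen] at hi
            exact ⟨asg[i], by rw [hget, List.getElem?_eq_getElem hi]⟩) hfw hH
        have hnp := not_prune hL h5 h22 hcw hE'
        obtain ⟨j, mp, s', hj, hemb⟩ := kids_sound _ _ hks c hcm hnp
        have hmem : ∃ nd ∈ rest, nd.st = s' := by
          by_cases hjb : Nat.blt j base = true
          · simp only [hjb, if_true] at hj
            cases hj
          · rw [if_neg hjb] at hj
            cases hr : rest[j - base]? with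
            | none => rw [hr] at hj; cases hj
            | some nd =>
              rw [hr] at hj
              simp only [Option.map_some, Option.some_inj] at hj
              exact ⟨nd, List.mem_of_getElem? hr, hj⟩
        obtain ⟨nd, hnd1, rfl⟩ := hmem
        exact hrest nd hnd1 V G side hL h5 h22 _ (emb_of_check hemb hE')

theorem all_sound {tools : List Tool} (ht : ∀ T ∈ tools, toolWf T = true ∧ ToolThm T) :
    ∀ (nodes : List Node) (i : ℕ), checkAll tools nodes i = true → ∀ nd ∈ nodes, GoodSt nd.st := by
  intro nodes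
  induction nodes with
  | nil => intro i _ nd h; simp at h
  | cons nd0 rest ih =>
    intro i h nd hnd
    rw [checkAll, Bool.and_eq_true] at h
    have hr := ih (i + 1) h.2
    rcases List.mem_cons.1 hnd with rfl | hnd
    · exact node_sound h.1 ht hr
    · exact hr nd hnd

end H21

/-- The certificate checker is sound. -/
theorem cert : CertStmt := fun _ nodes h ht => H21.all_sound ht nodes 0 h

end N3
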