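import Pool.Agent.Lib_n3.Stmts

/-!
# The search certificate for cyclically 5-connected graphs with a hexagon (MP_07e12a_co)

A *state* is a partial graph: a list of vertices with their types and known neighbours.  It is contained
in `G` (`StEmb`) if its vertices map injectively to `V` such that known neighbours are neighbours.
A *tool* is a pattern (variables `0, ..., nv - 1`) together with finitely many blockers; it applies to a copy
of the pattern in `G` if none of the blockers can be found in `G`.  A *node* of the certificate is a state
with a copy of the pattern of some tool in it; all the ways in which a blocker can be present in `G` lead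
to larger states, which are impossible for a `G` with at least 22 vertices, or contain a later node.
-/

open Finset

namespace N3

/-- the statement: `b` is a neighbour of `a` different from the elements of `ex` -/
structure Step where
  a : ℕ
  b : ℕ
  ex : List ℕ

abbrev Form := List Step

structure Tool where
  /-- number of pattern variables -/
  nv : ℕ
  pat : Form
  /-- blockers; the variables `≥ nv` are existentially quantified; in every step `a` is a pattern variable
  or occurs as `b` in an earlier step -/
  bl : List Form

/-- type and known neighbours of each vertex -/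
abbrev St := List (Bool × List ℕ)

def St.ty (s : St) (v : ℕ) : Bool := (s.getD v (false, [])).1
def St.nb (s : St) (v : ℕ) : List ℕ := (s.getD v (false, [])).2

def St.adjq (s : St) (a b : ℕ) : Bool := (s.nb a).elem b

/-- can the new edge `a b` be added (both vertices exist)? -/
def St.canadd (s : St) (a b : ℕ) : Bool :=
  (s.ty a != s.ty b) && Nat.blt (s.nb a).length 3 && Nat.blt (s.nb b).length 3 && !(s.adjq a b) &&
  (s.nb a).all (fun x => (s.nb x).all (fun y => Nat.beq y a || !(s.adjq y b)))

def updAt (f : Bool × List ℕ → Bool × List ℕ) : St → ℕ → St
  | [], _ => []
  | x :: s, 0 => f x :: s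
  | x :: s, n + 1 => x :: updAt f s n

/-- add the edge `a b` -/
def St.add (s : St) (a b : ℕ) : St :=
  updAt (fun x => (x.1, x.2 ++ [b])) (updAt (fun x => (x.1, x.2 ++ [a])) s b) a

/-- add a new vertex adjacent to `a` -/
def St.newv (s : St) (a : ℕ) : St :=
  updAt (fun x => (x.1, x.2 ++ [s.length])) s a ++ [(!(s.ty a), [a])]

/-- number of unknown neighbours -/
def St.free (s : St) : ℕ := (s.map (fun x => 3 - x.2.length)).sum

/-- a graph with at least 22 vertices cannot contain the state -/
def St.prune (s : St) : Bool :=
  let F := s.free
  let m := s.length
  Nat.ble 3 m && ((Nat.ble F 4 && Nat.blt (m + 2) 22) || (Nat.ble F 3 && Nat.blt (m + 1) 22) ||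
    (Nat.ble F 2 && Nat.blt m 22))

/-- assignment of the variables to vertices of the state -/
abbrev Asg := List (Option ℕ)

def Asg.get (as : Asg) (i : ℕ) : Option ℕ := as.getD i none

def Asg.set' : Asg → ℕ → ℕ → Asg
  | [], 0, x => [some x]
  | [], n + 1, x => none :: Asg.set' [] n x
  | _ :: as, 0, x => some x :: as
  | y :: as, n + 1, x => y :: Asg.set' as n x

/-- `x` is the value of one of the variables in `ex` -/
def Asg.excl (as : Asg) (ex : List ℕ) (x : ℕ) : Bool := ex.any (fun e => as.get e == some x)

/-- all ways to extend the state such that the form holds -/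
def realize : Form → St → Asg → List St
  | [], s, _ => [s]
  | q :: f, s, as =>
    match as.get q.a with
    | none => []
    | some a =>
      match as.get q.b with
      | some b =>
        if as.excl q.ex b then []
        else if s.adjq a b then realize f s as
        else if s.canadd a b then realize f (s.add a b) as
        else []
      | none =>
        ((s.nb a).filter (fun x => !(as.excl q.ex x))).flatMap
          (fun x => realize f s (as.set' q.b x)) ++
        (if Nat.blt (s.nb a).length 3 then
          ((List.range s.length).filter (fun x => !(as.excl q.ex x) && s.canadd a x)).flatMap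
            (fun x => realize f (s.add a x) (as.set' q.b x)) ++
          realize f (s.newv a) (as.set' q.b s.length)
        else [])

/-- `t` contains a copy of `s` given by the list `mp` of images -/
def embCheck (s t : St) (mp : List ℕ) : Bool :=
  Nat.beq mp.length s.length && mp.all (fun x => Nat.blt x t.length) && mp.Nodup &&
  ((List.range s.length).all (fun v =>
    (s.nb v).all (fun x => t.adjq (mp.getD v 0) (mp.getD x 0)))) &&
  (((List.range s.length).all (fun v => s.ty v == t.ty (mp.getD v 0))) ||
    ((List.range s.length).all (fun v => s.ty v != t.ty (mp.getD v 0))))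

/-- a node: a state, the index of a tool, the copy of its pattern, and for each blocker the list of
(index of a later node, embedding) for the non-pruned extensions (in the order of `realize`);
or a complete graph with an explicit realization -/
inductive Node where
  | tool (s : St) (t : ℕ) (asg : List ℕ) (kids : List (List (ℕ × List ℕ))) : Node
  | coord (s : St) (c : List (ℤ × ℤ × ℤ)) : Node

def Node.st : Node → St
  | .tool s _ _ _ => s
  | .coord s _ => s

/-- the pattern is present in the state -/
def patCheck (T : Tool) (s : St) (asg : List ℕ) : Bool :=
  Nat.beq asg.length T.nv && asg.Nodup && asg.all (fun x => Nat.blt x s.length) &&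
  T.pat.all (fun q => Nat.blt q.a T.nv && Nat.blt q.b T.nv && s.adjq (asg.getD q.a 0) (asg.getD q.b 0) &&
    q.ex.all (fun e => Nat.blt e T.nv && !(Nat.beq (asg.getD e 0) (asg.getD q.b 0))))

/-- the list of non-pruned extensions is covered by the list of kids -/
def kidsCheck (later : ℕ → Option St) : List St → List (ℕ × List ℕ) → Bool
  | [], [] => true
  | [], _ :: _ => false
  | c :: cs, ks =>
    if c.prune then kidsCheck later cs ks
    else match ks with
      | [] => false
      | (j, mp) :: ks' =>
        (match later j with
          | none => false
          | some s => embCheck s c mp) && kidsCheck later cs ks'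

def blockCheck (later : ℕ → Option St) (s : St) (as : Asg) :
    List Form → List (List (ℕ × List ℕ)) → Bool
  | [], [] => true
  | f :: fs, ks :: kss => kidsCheck later (realize f s as) ks && blockCheck later s as fs kss
  | _, _ => false

def dotZ (a b : ℤ × ℤ × ℤ) : ℤ := a.1 * b.1 + a.2.1 * b.2.1 + a.2.2 * b.2.2

def crossNZ (a b : ℤ × ℤ × ℤ) : Bool :=
  (a.2.1 * b.2.2 - a.2.2 * b.2.1 != 0) || (a.2.2 * b.1 - a.1 * b.2.2 != 0) ||
    (a.1 * b.2.1 - a.2.1 * b.1 != 0)

/-- the state is a complete cubic graph exactly realized by the coordinates -/
def coordCheck (s : St) (c : List (ℤ × ℤ × ℤ)) : Bool :=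
  Nat.beq s.free 0 && s.all (fun x => Nat.beq x.2.length 3) && Nat.beq c.length s.length &&
  Nat.blt 0 s.length &&
  (List.range s.length).all (fun u => (List.range s.length).all (fun v =>
    if s.ty u != s.ty v then
      (if s.adjq u v then dotZ (c.getD u (0, 0, 0)) (c.getD v (0, 0, 0)) == 0
        else dotZ (c.getD u (0, 0, 0)) (c.getD v (0, 0, 0)) != 0)
    else Nat.beq u v || crossNZ (c.getD u (0, 0, 0)) (c.getD v (0, 0, 0))))

/-- a state is well-formed: known neighbours exist, are of the other type, distinct, the relation is
symmetric, degrees at most 3 -/
def St.wf (s : St) : Bool :=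
  (List.range s.length).all (fun v => Nat.ble (s.nb v).length 3 && (s.nb v).Nodup &&
    (s.nb v).all (fun x => Nat.blt x s.length && s.adjq x v && (s.ty x != s.ty v)))

/-- check one node, `rest` = the later nodes; `base` = index of the first of them -/
def nodeCheck (tools : List Tool) (nd : Node) (base : ℕ) (rest : List Node) : Bool :=
  nd.st.wf &&
  match nd with
  | .coord s c => coordCheck s c
  | .tool s t asg kids =>
    match tools[t]? with
    | none => false
    | some T => patCheck T s asg &&
      blockCheck (fun j => if Nat.blt j base then none else (rest[j - base]?).map Node.st) s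
        (asg.map some) T.bl kids

def checkAll (tools : List Tool) : List Node → ℕ → Bool
  | [], _ => true
  | nd :: rest, i => nodeCheck tools nd (i + 1) rest && checkAll tools rest (i + 1)

/-- every variable `a` of a step is in `known` or occurs as `b` in an earlier step -/
def formWf : Form → List ℕ → Bool
  | [], _ => true
  | q :: f, known => known.elem q.a && formWf f (q.b :: known)

def toolWf (T : Tool) : Bool := T.bl.all (fun f => formWf f (List.range T.nv))

section sem
variable {V : Type} [Fintype V] [DecidableEq V]

/-- all steps hold in `G` for the assignment `asg` -/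
def FormHolds (G : SimpleGraph V) (asg : ℕ → V) (f : Form) : Prop :=
  ∀ q ∈ f, G.Adj (asg q.a) (asg q.b) ∧ ∀ e ∈ q.ex, asg q.b ≠ asg e

/-- `G` contains the state -/
def StEmb (G : SimpleGraph V) (side : V → Bool) (s : St) (φ : ℕ → V) : Prop :=
  (∀ i < s.length, ∀ j < s.length, φ i = φ j → i = j) ∧
  (∀ i < s.length, ∀ j ∈ s.nb i, G.Adj (φ i) (φ j)) ∧
  ∃ c : Bool, ∀ i < s.length, side (φ i) = (s.ty i ^^ c)

end sem

/-- what has to be proved for a tool -/
def ToolThm (T : Tool) : Prop := ∀ (V : Type) [Fintype V] [DecidableEq V] (G : SimpleGraph V)
  (side : V → Bool), Lev G side → Cyc5 G → 22 ≤ Fintype.card V → ∀ asg : ℕ → V,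
    (∀ i < T.nv, ∀ j < T.nv, asg i = asg j → i = j) → FormHolds G asg T.pat →
    (∀ f ∈ T.bl, ¬ ∃ asg' : ℕ → V, (∀ i < T.nv, asg' i = asg i) ∧ FormHolds G asg' f) →
    ∃ ρ, Exact G side ρ

/-- a state is good if every graph containing it has an exact realization -/
def GoodSt (s : St) : Prop := ∀ (V : Type) [Fintype V] [DecidableEq V] (G : SimpleGraph V)
  (side : V → Bool), Lev G side → Cyc5 G → 22 ≤ Fintype.card V → ∀ φ : ℕ → V, StEmb G side s φ →
    ∃ ρ, Exact G side ρ

/-! ### Module Cert

SOUNDNESS.  By induction from the last node all nodes are good.  Node with tool `T`: let `φ` be an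
embedding.  If no blocker is present in `G` use `ToolThm T`.  Otherwise a blocker `f` holds for some
`asg'`; by induction on `f`, some element `c` of `realize f s as` is contained in `G` via an extension
of `φ` (case distinction on whether `asg' q.b` is a known neighbour, another vertex of the state, or a
new vertex; `canadd` is true in that case because `G` is cubic, bipartite and has no 4-cycle; note that
the values of assigned variables agree with `φ`, and that `excl` is sound).  `c` is not pruned: the image of
`φ` has `cut ≤ free c`, so by `Cyc5` (and `c3`, parity) its complement has at most 2 (1, 0) vertices if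
`free c ≤ 4` (3, 2), and `G` has at least 22 vertices.  So it contains a later node.
Coordinates: `free = 0` so `cut = 0`, so `φ` is onto by `c3`. -/
def CertStmt : Prop := ∀ (tools : List Tool) (nodes : List Node), checkAll tools nodes 0 = true →
  (∀ T ∈ tools, toolWf T = true ∧ ToolThm T) → ∀ nd ∈ nodes, GoodSt nd.st

end N3
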