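import Pool.Agent.Lib_n3.Stmts

/-!
# Module CORE: the support of a stress has minimum degree at least three
-/

open scoped Matrix Topology
open Finset

namespace N3

variable {V : Type}

/-- `TwoDeg` is monotone. -/
theorem TwoDeg.mono [Fintype V] [DecidableEq V] {F F' : SimpleGraph V} (h : F ≤ F')
    (h' : TwoDeg F') : TwoDeg F := by
  classical
  intro S hS
  obtain ⟨v, hv, h2⟩ := h' S hS
  refine ⟨v, hv, le_trans ?_ h2⟩
  unfold dg
  refine Finset.card_le_card ?_
  intro u hu
  rw [Finset.mem_filter] at hu ⊢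
  exact ⟨hu.1, h hu.2⟩

/-- `dg` is monotone in the graph. -/
theorem dg_mono_graph [Fintype V] [DecidableEq V] {F F' : SimpleGraph V} (h : F ≤ F')
    (S : Finset V) (v : V) : dg F S v ≤ dg F' S v := by
  classical
  unfold dg
  refine Finset.card_le_card ?_
  intro u hu
  rw [Finset.mem_filter] at hu ⊢
  exact ⟨hu.1, h hu.2⟩

/-- `dg` is monotone in the set. -/
theorem dg_mono_set [Fintype V] [DecidableEq V] (F : SimpleGraph V) {S S' : Finset V} (h : S ⊆ S')
    (v : V) : dg F S v ≤ dg F S' v := by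
  classical
  unfold dg
  refine Finset.card_le_card ?_
  intro u hu
  rw [Finset.mem_filter] at hu ⊢
  exact ⟨h hu.1, hu.2⟩

/-- `addE` is monotone. -/
theorem addE_mono {F F' : SimpleGraph V} (h : F ≤ F') (x y : V) : addE F x y ≤ addE F' x y :=
  sup_le_sup_right h _

theorem le_addE (F : SimpleGraph V) (x y : V) : F ≤ addE F x y := le_sup_left

theorem addE_comm (F : SimpleGraph V) (x y : V) : addE F x y = addE F y x := by
  unfold addE
  rw [SimpleGraph.edge_comm]

theorem addE_adj (F : SimpleGraph V) (x y u v : V) :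
    (addE F x y).Adj u v ↔ F.Adj u v ∨ ((u = x ∧ v = y ∨ u = y ∧ v = x) ∧ x ≠ y) := by
  rw [SimpleGraph.sup_adj, SimpleGraph.edge_adj]
  constructor
  · rintro (h | ⟨h, h'⟩)
    · exact Or.inl h
    · refine Or.inr ⟨?_, ?_⟩
      · rcases h with ⟨h1, h2⟩ | ⟨h1, h2⟩
        · exact Or.inl ⟨h1, h2⟩
        · exact Or.inr ⟨h1, h2⟩
      · rintro rfl
        apply h'
        rcases h with ⟨h1, h2⟩ | ⟨h1, h2⟩
        · rw [h1, h2]
        · rw [h1, h2]
  · rintro (h | ⟨h, h'⟩)
    · exact Or.inl h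
    · refine Or.inr ⟨?_, ?_⟩
      · rcases h with ⟨h1, h2⟩ | ⟨h1, h2⟩
        · exact Or.inl ⟨h1, h2⟩
        · exact Or.inr ⟨h1, h2⟩
      · rcases h with ⟨rfl, rfl⟩ | ⟨rfl, rfl⟩
        · exact h'
        · exact h'.symm

/-- adding an edge between the two sides keeps the graph bipartite -/
theorem Bip.addE {F : SimpleGraph V} {side : V → Bool} (h : Bip F side) {x y : V}
    (hxy : side x ≠ side y) : Bip (addE F x y) side := by
  intro u v huv
  rw [addE_adj] at huv
  rcases huv with huv | ⟨⟨rfl, rfl⟩ | ⟨rfl, rfl⟩, _⟩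
  · exact h u v huv
  · exact hxy
  · exact hxy.symm

/-- neighbours of `v` are on the same side -/
theorem Bip.side_eq {F : SimpleGraph V} {side : V → Bool} (h : Bip F side) {v u w : V}
    (hu : F.Adj v u) (hw : F.Adj v w) : side u = side w := by
  have h1 := h v u hu
  have h2 := h v w hw
  revert h1 h2
  generalize side v = a
  generalize side u = b
  generalize side w = c
  revert a b c
  decide

theorem core : CoreStmt := by
  intro V _ _ F side ρ hB hS ω hω v u hvu
  classical
  set T := univ.filter (fun w => ω v w ≠ 0) with hT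
  have huT : u ∈ T := by rw [hT, Finset.mem_filter]; exact ⟨Finset.mem_univ _, hvu⟩
  have hadj : ∀ w ∈ T, F.Adj v w := by
    intro w hw
    by_contra hn
    rw [hT, Finset.mem_filter] at hw
    exact hw.2 (hω.2.1 v w hn)
  have hsum : ∑ w ∈ T, ω v w • ρ w = 0 := by
    rw [← hω.2.2 v]
    rw [hT, Finset.sum_filter]
    refine Finset.sum_congr rfl ?_
    intro w _
    by_cases h0 : ω v w = 0
    · simp [h0]
    · simp [h0]
  by_contra hlt
  have hcard : T.card ≤ 2 := by omega
  have hpos : 0 < T.card := Finset.card_pos.2 ⟨u, huT⟩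
  have hcases : T.card = 1 ∨ T.card = 2 := by omega
  rcases hcases with h1 | h2
  · obtain ⟨a, ha⟩ := Finset.card_eq_one.1 h1
    have hua : u = a := by rw [ha] at huT; exact Finset.mem_singleton.1 huT
    rw [ha, Finset.sum_singleton, ← hua] at hsum
    rcases smul_eq_zero.1 hsum with h | h
    · exact hvu h
    · exact hS.1 u h
  · obtain ⟨a, b, hab, hTab⟩ := Finset.card_eq_two.1 h2
    have haT : a ∈ T := by rw [hTab]; simp
    have hbT : b ∈ T := by rw [hTab]; simp
    rw [hTab, Finset.sum_pair hab] at hsum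
    have hside : side a = side b := hB.side_eq (hadj a haT) (hadj b hbT)
    have hnp := hS.2 a b hab hside
    have hwa : ω v a ≠ 0 := by
      rw [hT, Finset.mem_filter] at haT
      exact haT.2
    apply hnp
    have h3 : crossProduct (ω v a • ρ a + ω v b • ρ b) (ρ b) = 0 := by rw [hsum]; simp
    rw [map_add, LinearMap.add_apply, map_smul, map_smul, LinearMap.smul_apply,
      LinearMap.smul_apply, cross_self, smul_zero, add_zero] at h3
    rcases smul_eq_zero.1 h3 with h | h
    · exact absurd h hwa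
    · exact h

theorem twoDegFree : TwoDegFreeStmt := by
  intro V _ _ F side ρ hB hS hD ω hω u v
  classical
  by_contra huv
  obtain ⟨a, ha, h2⟩ := hD (univ.filter (fun a => ∃ b, ω a b ≠ 0))
    ⟨u, by rw [Finset.mem_filter]; exact ⟨Finset.mem_univ _, v, huv⟩⟩
  rw [Finset.mem_filter] at ha
  obtain ⟨_, b, hab⟩ := ha
  have h3 := core V F side ρ hB hS ω hω a b hab
  have h4 : (univ.filter (fun w => ω a w ≠ 0)).card ≤
      dg F (univ.filter (fun a => ∃ b, ω a b ≠ 0)) a := by
    unfold dg
    refine Finset.card_le_card ?_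
    intro w hw
    rw [Finset.mem_filter] at hw
    rw [Finset.mem_filter, Finset.mem_filter]
    refine ⟨⟨Finset.mem_univ _, a, ?_⟩, ?_⟩
    · rw [hω.1 w a]
      exact hw.2
    · by_contra hn
      exact hw.2 (hω.2.1 a w hn)
  omega

set_option linter.unusedSectionVars false

section fin
variable [Fintype V] [DecidableEq V]

theorem Stress.add {F : SimpleGraph V} {ρ : V → E} {ω₁ ω₂ : V → V → ℝ} (h₁ : Stress F ρ ω₁)
    (h₂ : Stress F ρ ω₂) : Stress F ρ (fun u v => ω₁ u v + ω₂ u v) := by
  refine ⟨fun u v => ?_, fun u v huv => ?_, fun v => ?_⟩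
  · simp only [h₁.1 u v, h₂.1 u v]
  · simp only [h₁.2.1 u v huv, h₂.2.1 u v huv, add_zero]
  · simp only [add_smul, Finset.sum_add_distrib, h₁.2.2 v, h₂.2.2 v, add_zero]

theorem Stress.smul {F : SimpleGraph V} {ρ : V → E} {ω : V → V → ℝ} (c : ℝ) (h : Stress F ρ ω) :
    Stress F ρ (fun u v => c * ω u v) := by
  refine ⟨fun u v => ?_, fun u v huv => ?_, fun v => ?_⟩
  · simp only [h.1 u v]
  · simp only [h.2.1 u v huv, mul_zero]
  · simp only [mul_smul, ← Finset.smul_sum, h.2.2 v, smul_zero]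

/-- a stress of a subgraph is a stress -/
theorem Stress.mono {F F' : SimpleGraph V} {ρ : V → E} {ω : V → V → ℝ} (hF : F ≤ F')
    (h : Stress F ρ ω) : Stress F' ρ ω :=
  ⟨h.1, fun u v huv => h.2.1 u v (fun hn => huv (hF hn)), h.2.2⟩

/-- a subgraph of a stress-free graph is stress-free -/
theorem StressFree.anti {F F' : SimpleGraph V} {ρ : V → E} (hF : F ≤ F')
    (h : StressFree F' ρ) : StressFree F ρ := fun ω hω => h ω (hω.mono hF)

/-- a stress of `addE F x y` that vanishes at `x y` is a stress of `F` -/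
theorem Stress.of_addE {F : SimpleGraph V} {ρ : V → E} {x y : V} {ω : V → V → ℝ}
    (h : Stress (addE F x y) ρ ω) (h0 : ω x y = 0) : Stress F ρ ω := by
  refine ⟨h.1, fun u v huv => ?_, h.2.2⟩
  by_cases h' : (addE F x y).Adj u v
  · rw [addE_adj] at h'
    rcases h' with h' | ⟨⟨rfl, rfl⟩ | ⟨rfl, rfl⟩, _⟩
    · exact absurd h' huv
    · exact h0
    · rw [h.1]
      exact h0
  · exact h.2.1 u v h'

/-- a nonzero stress of `addE F x y`, `F` stress-free, does not vanish at `x y` -/
theorem Stress.ne_zero {F : SimpleGraph V} {ρ : V → E} {x y : V} {ω : V → V → ℝ}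
    (hF : StressFree F ρ) (h : Stress (addE F x y) ρ ω) {u v : V} (huv : ω u v ≠ 0) :
    ω x y ≠ 0 := fun h0 => huv (hF ω (h.of_addE h0) u v)

/-- two stresses of `addE F x y`, `F` stress-free, are proportional -/
theorem Stress.proportional {F : SimpleGraph V} {ρ : V → E} {x y : V} {ω₁ ω₂ : V → V → ℝ}
    (hF : StressFree F ρ) (h₁ : Stress (addE F x y) ρ ω₁) (h₂ : Stress (addE F x y) ρ ω₂)
    (u v : V) : ω₂ x y * ω₁ u v = ω₁ x y * ω₂ u v := by
  have h := (h₁.smul (ω₂ x y)).add (h₂.smul (-ω₁ x y))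
  have h0 := h.of_addE (by ring)
  have := hF _ h0 u v
  linarith

/-- two stresses of `addE F x y`, `F` stress-free, the first one nonzero: the second one is a
multiple of the first one -/
theorem Stress.exists_mul {F : SimpleGraph V} {ρ : V → E} {x y : V} {ω₁ ω₂ : V → V → ℝ}
    (hF : StressFree F ρ) (h₁ : Stress (addE F x y) ρ ω₁) (h₂ : Stress (addE F x y) ρ ω₂)
    {a b : V} (hab : ω₁ a b ≠ 0) : ∃ c : ℝ, ∀ u v, ω₂ u v = c * ω₁ u v := by
  have h0 := h₁.ne_zero hF hab
  refine ⟨ω₂ x y / ω₁ x y, fun u v => ?_⟩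
  have := Stress.proportional hF h₁ h₂ u v
  field_simp
  linarith

/-- not stress-free means that there is a nonzero stress -/
theorem not_stressFree {F : SimpleGraph V} {ρ : V → E} (h : ¬ StressFree F ρ) :
    ∃ ω, Stress F ρ ω ∧ ∃ u v, ω u v ≠ 0 := by
  unfold StressFree at h
  push Not at h
  exact h

end fin

end N3
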