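import Pool.Agent.Lib_n3.StmtsGlue
import Pool.Agent.Lib_n3.Cuts

/-!
# Module CutEnds of the project MP_07e12a_co: the ends of the edges of a nontrivial 3- or 4-cut
-/

open Finset

namespace N3

variable {V : Type} [Fintype V] [DecidableEq V]

/-- the degree of `v` splits along `A`, `Aᶜ` -/
theorem dg_split (G : SimpleGraph V) (A : Finset V) (v : V) :
    dg G univ v = dg G A v + dg G Aᶜ v := by
  have h : (univ : Finset V) = A ∪ Aᶜ := (Finset.union_compl A).symm
  have d : Disjoint A Aᶜ := disjoint_compl_right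
  rw [dg_eq, dg_eq, dg_eq, h, Finset.sum_union d]

theorem dg_sdiff_self (G : SimpleGraph V) (A : Finset V) (v : V) (hv : v ∈ A) :
    dg G (A \ {v}) v = dg G A v := by
  rw [dg_eq, dg_eq, ← Finset.sum_sdiff (Finset.singleton_subset_iff.2 hv)]
  simp [ai_self]

/-- moving a vertex with two neighbours across out of `A` lowers the cut -/
theorem cut_drop {G : SimpleGraph V} (h3 : ∀ v, dg G univ v = 3) (A : Finset V) (u : V)
    (hu : u ∈ A) (h2 : 2 ≤ dg G Aᶜ u) : cut G (A \ {u}) + 1 ≤ cut G A := by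
  have h := cut_sdiff G A {u} (Finset.singleton_subset_iff.2 hu)
  rw [ed_singleton_left, ed_singleton_left, dg_sdiff_self G A u hu] at h
  have h' := dg_split G A u
  rw [h3 u] at h'
  omega

theorem card_sdiff_one (A : Finset V) (u : V) (hu : u ∈ A) : (A \ {u}).card + 1 = A.card := by
  have h := Finset.card_sdiff_add_card_eq_card (Finset.singleton_subset_iff.2 hu)
  simpa using h

/-- edges from a subset `B` of `A` across, if every vertex of `A` has at most one neighbour across -/
theorem ed_eq_card (G : SimpleGraph V) (A B : Finset V) (hB : B ⊆ A)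
    (h1 : ∀ u ∈ A, dg G Aᶜ u ≤ 1) : ed G B Aᶜ = (B.filter (fun u => dg G Aᶜ u = 1)).card := by
  rw [Finset.card_filter]
  unfold ed
  refine Finset.sum_congr rfl (fun u hu => ?_)
  have := h1 u (hB hu)
  split_ifs with h
  · exact h
  · omega

/-- if the vertex `u` has at most one neighbour in `S`, two neighbours in `S` are equal -/
theorem eq_of_dg_le_one (G : SimpleGraph V) (S : Finset V) (u : V) (h : dg G S u ≤ 1) {x y : V}
    (hx : x ∈ S) (hy : y ∈ S) (h1 : G.Adj u x) (h2 : G.Adj u y) : x = y := by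
  unfold dg at h
  rw [Finset.card_le_one] at h
  exact h x (by simp [hx, h1]) y (by simp [hy, h2])

theorem exists_of_dg_pos (G : SimpleGraph V) (S : Finset V) (u : V) (h : 1 ≤ dg G S u) :
    ∃ x ∈ S, G.Adj u x := by
  unfold dg at h
  obtain ⟨x, hx⟩ := Finset.card_pos.1 h
  simp only [Finset.mem_filter] at hx
  exact ⟨x, hx.1, hx.2⟩

theorem dg_pos_of (G : SimpleGraph V) (S : Finset V) (u x : V) (hx : x ∈ S) (h : G.Adj u x) :
    1 ≤ dg G S u := by
  unfold dg
  exact Finset.card_pos.2 ⟨x, by simp [hx, h]⟩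

/-- the ends in `Aᶜ` belonging to an enumeration of the ends in `A` -/
theorem match_ends (G : SimpleGraph V) (A : Finset V) (h1 : ∀ u ∈ A, dg G Aᶜ u ≤ 1)
    (h2 : ∀ v ∈ Aᶜ, dg G A v ≤ 1) {n : ℕ} (a : Fin n → V) (ha : Function.Injective a)
    (hX : ∀ u, (u ∈ A ∧ dg G Aᶜ u = 1) ↔ ∃ i, a i = u) :
    ∃ b : Fin n → V, Function.Injective b ∧ (∀ i, a i ∈ A ∧ b i ∉ A ∧ G.Adj (a i) (b i)) ∧
      (∀ u ∈ A, ∀ v ∉ A, G.Adj u v → ∃ i, u = a i ∧ v = b i) := by
  have hai : ∀ i, a i ∈ A ∧ dg G Aᶜ (a i) = 1 := fun i => (hX (a i)).2 ⟨i, rfl⟩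
  have hb : ∀ i, ∃ y, y ∈ Aᶜ ∧ G.Adj (a i) y := fun i => by
    obtain ⟨x, hx, hx'⟩ := exists_of_dg_pos G Aᶜ (a i) (hai i).2.ge
    exact ⟨x, hx, hx'⟩
  choose b hb1 hb2 using hb
  refine ⟨b, ?_, fun i => ⟨(hai i).1, by simpa using hb1 i, hb2 i⟩, ?_⟩
  · intro i j hij
    apply ha
    exact eq_of_dg_le_one G A (b i) (h2 _ (hb1 i)) (hai i).1 (hai j).1 (hb2 i).symm
      (hij ▸ (hb2 j).symm)
  · intro u hu v hv huv
    have hv' : v ∈ Aᶜ := by simpa using hv
    obtain ⟨i, hi⟩ := (hX u).1 ⟨hu, le_antisymm (h1 u hu) (dg_pos_of G Aᶜ u v hv' huv)⟩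
    refine ⟨i, hi.symm, ?_⟩
    exact eq_of_dg_le_one G Aᶜ u (h1 u hu) hv' (hb1 i) huv (hi ▸ hb2 i)

/-- the ends in `A`: counts by side -/
theorem ends_count {G : SimpleGraph V} {side : V → Bool} (hL : Lev G side) (A : Finset V)
    (h1 : ∀ u ∈ A, dg G Aᶜ u ≤ 1) :
    ((A.filter (fun u => dg G Aᶜ u = 1)).card = cut G A) ∧
    ((A.filter (fun v => side v = false)).filter (fun u => dg G Aᶜ u = 1)).card +
      ((A.filter (fun v => side v = true)).filter (fun u => dg G Aᶜ u = 1)).card = cut G A ∧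
    ((A.filter (fun v => side v = false)).filter (fun u => dg G Aᶜ u = 1)).card +
      3 * (A.filter (fun v => side v = true)).card =
    ((A.filter (fun v => side v = true)).filter (fun u => dg G Aᶜ u = 1)).card +
      3 * (A.filter (fun v => side v = false)).card := by
  have e0 := ed_eq_card G A A (Finset.Subset.refl A) h1
  have ef := ed_eq_card G A (A.filter (fun v => side v = false)) (Finset.filter_subset _ _) h1
  have et := ed_eq_card G A (A.filter (fun v => side v = true)) (Finset.filter_subset _ _) h1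
  have hp := side_parity hL.bip hL.cubic A
  have hu := ed_union_left G _ _ Aᶜ (filter_side_disj side A A)
  rw [← filter_side_union side A] at hu
  refine ⟨e0.symm, ?_, ?_⟩
  · rw [← ef, ← et, ← hu]; rfl
  · rw [← ef, ← et]; exact hp

/-- in a nontrivial 3-cut every vertex of `A` has at most one neighbour across -/
theorem cut3_le_one {G : SimpleGraph V} {side : V → Bool} (hL : Lev G side) (A : Finset V)
    (hA : cut G A = 3) (hA2 : 2 ≤ A.card) (hA3 : 2 ≤ Aᶜ.card) : ∀ u ∈ A, dg G Aᶜ u ≤ 1 := by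
  intro u hu
  by_contra hc
  have h := cut_drop hL.cubic A u hu (by omega)
  have h' := card_sdiff_one A u hu
  have hs : Aᶜ ⊆ (A \ {u})ᶜ := Finset.compl_subset_compl.2 Finset.sdiff_subset
  have h3 := hL.c3 (A \ {u}) (Finset.card_pos.1 (by omega))
    ((Finset.card_pos.1 (show 0 < Aᶜ.card by omega)).mono hs)
  omega

/-- in a nontrivial 4-cut every vertex of `A` has at most one neighbour across -/
theorem cut4_le_one {G : SimpleGraph V} {side : V → Bool} (hL : Lev G side) (hG : Cyc4 G)
    (A : Finset V) (hA : cut G A = 4) (hA2 : 3 ≤ A.card) (hA3 : 3 ≤ Aᶜ.card) :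
    ∀ u ∈ A, dg G Aᶜ u ≤ 1 := by
  intro u hu
  by_contra hc
  have h := cut_drop hL.cubic A u hu (by omega)
  have h' := card_sdiff_one A u hu
  have hs : Aᶜ ⊆ (A \ {u})ᶜ := Finset.compl_subset_compl.2 Finset.sdiff_subset
  have hs' := Finset.card_le_card hs
  rcases hG (A \ {u}) (by omega) with h4 | h4 <;> omega

/-- module CutEnds, 3-cuts -/
theorem cut3 (_hC : CutsStmt) : Cut3Stmt := by
  intro V _ _ G side hL A hA hA2 hA3
  have h1 := cut3_le_one hL A hA hA2 hA3
  have h2 := cut3_le_one hL Aᶜ (by rw [cut_compl, hA]) hA3 (by rw [compl_compl]; exact hA2)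
  rw [compl_compl] at h2
  obtain ⟨hc, hs, hp⟩ := ends_count hL A h1
  rw [hA] at hc hs
  set X := A.filter (fun u => dg G Aᶜ u = 1) with hX
  let e := X.equivFinOfCardEq hc
  have hinj : Function.Injective (fun i => ((e.symm i : X) : V)) := by
    intro i j hij
    exact e.symm.injective (Subtype.ext hij)
  obtain ⟨b, hb, hab, hall⟩ := match_ends G A h1 h2 (fun i => ((e.symm i : X) : V)) hinj (by
    intro u
    constructor
    · rintro ⟨hu, hu1⟩
      refine ⟨e ⟨u, by rw [hX, Finset.mem_filter]; exact ⟨hu, hu1⟩⟩, ?_⟩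
      simp
    · rintro ⟨i, rfl⟩
      exact Finset.mem_filter.1 (e.symm i).2)
  refine ⟨_, b, hinj, hb, hab, hall, ?_⟩
  have hmem : ∀ i, ((e.symm i : X) : V) ∈ A ∧ dg G Aᶜ ((e.symm i : X) : V) = 1 := by
    intro i
    exact Finset.mem_filter.1 (e.symm i).2
  have hcase : ((A.filter (fun v => side v = false)).filter (fun u => dg G Aᶜ u = 1)).card = 0 ∨
      ((A.filter (fun v => side v = true)).filter (fun u => dg G Aᶜ u = 1)).card = 0 := by omega
  rcases hcase with h0 | h0
  · refine ⟨true, fun i => ?_⟩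
    by_contra hne
    rw [Finset.card_eq_zero] at h0
    have hm : ((e.symm i : X) : V) ∈
        (A.filter (fun v => side v = false)).filter (fun u => dg G Aᶜ u = 1) := by
      rw [Finset.mem_filter, Finset.mem_filter]
      exact ⟨⟨(hmem i).1, by simpa using hne⟩, (hmem i).2⟩
    rw [h0] at hm
    exact absurd hm (Finset.notMem_empty _)
  · refine ⟨false, fun i => ?_⟩
    by_contra hne
    rw [Finset.card_eq_zero] at h0
    have hm : ((e.symm i : X) : V) ∈
        (A.filter (fun v => side v = true)).filter (fun u => dg G Aᶜ u = 1) := by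
      rw [Finset.mem_filter, Finset.mem_filter]
      exact ⟨⟨(hmem i).1, by simpa using hne⟩, (hmem i).2⟩
    rw [h0] at hm
    exact absurd hm (Finset.notMem_empty _)

/-- module CutEnds, 4-cuts -/
theorem cut4 (_hC : CutsStmt) : Cut4Stmt := by
  intro V _ _ G side hL hG A hA hA2 hA3
  have h1 := cut4_le_one hL hG A hA hA2 hA3
  have h2 := cut4_le_one hL hG Aᶜ (by rw [cut_compl, hA]) hA3 (by rw [compl_compl]; exact hA2)
  rw [compl_compl] at h2
  obtain ⟨hc, hs, hp⟩ := ends_count hL A h1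
  rw [hA] at hc hs
  have hf : ((A.filter (fun v => side v = false)).filter (fun u => dg G Aᶜ u = 1)).card = 2 := by
    omega
  have ht : ((A.filter (fun v => side v = true)).filter (fun u => dg G Aᶜ u = 1)).card = 2 := by
    omega
  rw [Finset.card_eq_two] at hf ht
  obtain ⟨p, q, hpq, hf⟩ := hf
  obtain ⟨r, s, hrs, ht⟩ := ht
  have hfm : ∀ u, (u ∈ A ∧ dg G Aᶜ u = 1 ∧ side u = false) ↔ (u = p ∨ u = q) := by
    intro u
    have : u ∈ (A.filter (fun v => side v = false)).filter (fun u => dg G Aᶜ u = 1) ↔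
        u ∈ ({p, q} : Finset V) := by rw [hf]
    rw [Finset.mem_filter, Finset.mem_filter, Finset.mem_insert, Finset.mem_singleton] at this
    rw [← this]
    tauto
  have htm : ∀ u, (u ∈ A ∧ dg G Aᶜ u = 1 ∧ side u = true) ↔ (u = r ∨ u = s) := by
    intro u
    have : u ∈ (A.filter (fun v => side v = true)).filter (fun u => dg G Aᶜ u = 1) ↔
        u ∈ ({r, s} : Finset V) := by rw [ht]
    rw [Finset.mem_filter, Finset.mem_filter, Finset.mem_insert, Finset.mem_singleton] at this
    rw [← this]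
    tauto
  obtain ⟨hp1, hp2, hp3⟩ := (hfm p).2 (Or.inl rfl)
  obtain ⟨hq1, hq2, hq3⟩ := (hfm q).2 (Or.inr rfl)
  obtain ⟨hr1, hr2, hr3⟩ := (htm r).2 (Or.inl rfl)
  obtain ⟨hs1, hs2, hs3⟩ := (htm s).2 (Or.inr rfl)
  have npr : p ≠ r := fun h => by rw [h, hr3] at hp3; exact absurd hp3 (by decide)
  have nps : p ≠ s := fun h => by rw [h, hs3] at hp3; exact absurd hp3 (by decide)
  have nqr : q ≠ r := fun h => by rw [h, hr3] at hq3; exact absurd hq3 (by decide)
  have nqs : q ≠ s := fun h => by rw [h, hs3] at hq3; exact absurd hq3 (by decide)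
  have hinj : Function.Injective (![p, q, r, s] : Fin 4 → V) := by
    intro i j hij
    fin_cases i <;> fin_cases j <;> first
      | rfl
      | exact absurd hij hpq
      | exact absurd hij.symm hpq
      | exact absurd hij npr
      | exact absurd hij.symm npr
      | exact absurd hij nps
      | exact absurd hij.symm nps
      | exact absurd hij nqr
      | exact absurd hij.symm nqr
      | exact absurd hij nqs
      | exact absurd hij.symm nqs
      | exact absurd hij hrs
      | exact absurd hij.symm hrs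
  obtain ⟨b, hb, hab, hall⟩ := match_ends G A h1 h2 (![p, q, r, s] : Fin 4 → V) hinj (by
    intro u
    constructor
    · rintro ⟨hu, hu1⟩
      cases hsu : side u with
      | false =>
        rcases (hfm u).1 ⟨hu, hu1, hsu⟩ with h | h
        · exact ⟨0, h.symm⟩
        · exact ⟨1, h.symm⟩
      | true =>
        rcases (htm u).1 ⟨hu, hu1, hsu⟩ with h | h
        · exact ⟨2, h.symm⟩
        · exact ⟨3, h.symm⟩
    · rintro ⟨i, rfl⟩
      fin_cases i
      · exact ⟨hp1, hp2⟩
      · exact ⟨hq1, hq2⟩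
      · exact ⟨hr1, hr2⟩
      · exact ⟨hs1, hs2⟩)
  exact ⟨_, b, hinj, hb, hab, hall, hp3, hq3, hr3, hs3⟩

end N3
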