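import Pool.Agent.Lib_n3.StmtsDF

/-!
# Module DF: assembly of the case of girth at least 8
-/

open scoped Matrix Topology
open Finset

namespace N3

section df
variable {V : Type} [Fintype V] [DecidableEq V]

theorem df_three (G : SimpleGraph V) (u a : V) (h3 : dg G univ u = 3) (ha : G.Adj u a) :
    ∃ b c, G.Adj u b ∧ G.Adj u c ∧ b ≠ a ∧ c ≠ a ∧ b ≠ c := by
  classical
  unfold dg at h3
  set N := (univ : Finset V).filter (fun w => G.Adj u w) with hN
  have haN : a ∈ N := by simp [hN, ha]
  have h2 : (N.erase a).card = 2 := by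
    rw [Finset.card_erase_of_mem haN]
    have : N.card = 3 := by convert h3
    omega
  obtain ⟨b, c, hbc, hE⟩ := Finset.card_eq_two.1 h2
  have hb : b ∈ N.erase a := by rw [hE]; simp
  have hc : c ∈ N.erase a := by rw [hE]; simp
  rw [Finset.mem_erase] at hb hc
  exact ⟨b, c, (Finset.mem_filter.1 hb.2).2, (Finset.mem_filter.1 hc.2).2, hb.1, hc.1, hbc⟩

theorem df_third (G : SimpleGraph V) (u a b : V) (h3 : dg G univ u = 3) (ha : G.Adj u a)
    (hab : b ≠ a) : ∃ c, G.Adj u c ∧ c ≠ a ∧ b ≠ c := by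
  obtain ⟨c, d, hc, hd, hca, hda, hcd⟩ := df_three G u a h3 ha
  by_cases h : b = c
  · exact ⟨d, hd, hda, fun hbd => hcd (h.symm.trans hbd)⟩
  · exact ⟨c, hc, hca, h⟩

end df

theorem df : DFFromStmt := by
  classical
  intro hE hC hR hK hKill V _ _ G side hL h5 h6
  by_cases hV : Nonempty V
  · obtain ⟨v, x0, p0, hvx, hxp, hvp, hgood⟩ := hE V G side hV hL h5 h6
    obtain ⟨x1, x2, h1, h2, h10, h20, h12⟩ := df_three G v x0 (hL.cubic v) hvx
    let x : Fin 3 → V := ![x0, x1, x2]
    have hx : ∀ i, G.Adj v (x i) := by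
      intro i
      fin_cases i
      · exact hvx
      · exact h1
      · exact h2
    have hinj : Function.Injective x := by
      intro i j hij
      fin_cases i <;> fin_cases j <;> first | rfl | (exfalso; revert hij; simp [x]) <;>
        first | exact h10 | exact h20 | exact h12 | exact h10.symm | exact h20.symm | exact h12.symm
    have hpr : ∀ i : Fin 3, ∃ p' r', G.Adj (x i) p' ∧ G.Adj (x i) r' ∧ p' ≠ v ∧ r' ≠ v ∧ p' ≠ r' ∧
        (i = 0 → p' = p0) := by
      intro i
      by_cases hi : i = 0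
      · subst hi
        obtain ⟨c, hc, hcv, hpc⟩ := df_third G (x 0) v p0 (hL.cubic _) (hx 0).symm hvp.symm
        exact ⟨p0, c, hxp, hc, hvp.symm, hcv, hpc, fun _ => rfl⟩
      · obtain ⟨b, c, hb, hc, hbv, hcv, hbc⟩ := df_three G (x i) v (hL.cubic _) (hx i).symm
        exact ⟨b, c, hb, hc, hbv, hcv, hbc, fun h => absurd h hi⟩
    choose p r hp1 hp2 hp3 hp4 hp5 hp6 using hpr
    have hD : DFData G side v x p r :=
      { lev := hL
        c5 := h5
        c6 := h6
        x_inj := hinj
        vx := hx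
        xp := hp1
        xr := hp2
        pv := hp3
        rv := hp4
        pr := hp5
        good := by
          intro A hA hA1 hA2
          have := hgood A hA hA1 hA2
          rw [hp6 0 rfl]
          exact this }
    obtain ⟨ρ, hρ⟩ := hR V G side v x p r hD (hC V G side v x p r hD)
    obtain ⟨κ, hκ0, hκ, hkill⟩ := hK V G side v x p r ρ hD hρ
    refine hKill V G side hL.bip hL.noC4 (fun u => ?_) κ hκ0 hκ hkill
    rw [hL.cubic u]
    norm_num
  · refine ⟨fun _ => 0, ?_, ⟨?_, ?_⟩, ?_⟩
    · intro u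
      exact (hV ⟨u⟩).elim
    · intro u
      exact (hV ⟨u⟩).elim
    · intro u
      exact (hV ⟨u⟩).elim
    · intro u
      exact (hV ⟨u⟩).elim

end N3
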