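import Pool.Agent.Lib_n3.StmtsDF
import Pool.Agent.Lib_n3.Cuts

/-!
# Base file of the modules DFComb of the project MP_07e12a_co: the graph `dfF`

Notation: `v` and all vertices of its side are points, the others are lines; `q = dfQ p r`.
-/

open scoped Matrix Topology
open Finset

namespace N3

namespace DF

variable {V : Type} [Fintype V] [DecidableEq V]

theorem bool_eq {a b c : Bool} (h1 : a ≠ b) (h2 : b ≠ c) : a = c := by
  revert h1 h2
  cases a <;> cases b <;> cases c <;> simp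

theorem fin3_ne0 : ∀ i : Fin 3, i ≠ 0 → i = 1 ∨ i = 2 := by decide

/-- a vertex of degree three has no other neighbours than three given ones -/
theorem nbr3 {G : SimpleGraph V} {a b₁ b₂ b₃ u : V} (hd : dg G univ a = 3) (h1 : G.Adj a b₁)
    (h2 : G.Adj a b₂) (h3 : G.Adj a b₃) (d12 : b₁ ≠ b₂) (d13 : b₁ ≠ b₃) (d23 : b₂ ≠ b₃)
    (hu : G.Adj a u) : u = b₁ ∨ u = b₂ ∨ u = b₃ := by
  classical
  unfold dg at hd
  have hc : ({b₁, b₂, b₃} : Finset V).card = 3 := by
    rw [card_eq_three]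
    exact ⟨b₁, b₂, b₃, d12, d13, d23, rfl⟩
  have hs : ({b₁, b₂, b₃} : Finset V) ⊆ univ.filter (fun u => G.Adj a u) := by
    intro w hw
    simp only [mem_insert, mem_singleton] at hw
    rw [mem_filter]
    refine ⟨mem_univ _, ?_⟩
    rcases hw with h | h | h <;> rw [h] <;> assumption
  have he := Finset.eq_of_subset_of_card_le hs (by rw [hc]; convert hd.le)
  have : u ∈ ({b₁, b₂, b₃} : Finset V) := by
    rw [he, mem_filter]
    exact ⟨mem_univ _, hu⟩
  simpa only [mem_insert, mem_singleton] using this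

/-- the two other neighbours -/
theorem other2 {G : SimpleGraph V} {a b : V} (hd : dg G univ a = 3) (h1 : G.Adj a b) :
    ∃ c d, b ≠ c ∧ b ≠ d ∧ c ≠ d ∧ G.Adj a c ∧ G.Adj a d := by
  classical
  unfold dg at hd
  rw [card_eq_three] at hd
  obtain ⟨x, y, z, hxy, hxz, hyz, he⟩ := hd
  have hm : ∀ w, G.Adj a w ↔ w = x ∨ w = y ∨ w = z := by
    intro w
    have := Finset.ext_iff.1 he w
    simpa using this
  rcases (hm b).1 h1 with rfl | rfl | rfl
  · exact ⟨y, z, hxy, hxz, hyz, (hm y).2 (by simp), (hm z).2 (by simp)⟩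
  · exact ⟨x, z, hxy.symm, hyz, hxz, (hm x).2 (by simp), (hm z).2 (by simp)⟩
  · exact ⟨x, y, hxz.symm, hyz.symm, hxy, (hm x).2 (by simp), (hm y).2 (by simp)⟩

/-- no hexagon, in a bipartite graph -/
theorem hexF {G : SimpleGraph V} {side : V → Bool} (hB : Bip G side) (h6 : NoC6 G)
    {a b c d e f : V} (ab : G.Adj a b) (bc : G.Adj b c) (cd : G.Adj c d) (de : G.Adj d e)
    (ef : G.Adj e f) (fa : G.Adj f a) (ac : a ≠ c) (ae : a ≠ e) (ce : c ≠ e) (bd : b ≠ d)
    (bf : b ≠ f) (df : d ≠ f) : False := by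
  have s1 := hB _ _ ab
  have s2 := hB _ _ bc
  have s3 := hB _ _ cd
  have s4 := hB _ _ de
  have s5 := hB _ _ ef
  have t1 : side a = side c := bool_eq s1 s2
  have t2 : side c = side e := bool_eq s3 s4
  have t3 : side b = side d := bool_eq s2 s3
  have t4 : side d = side f := bool_eq s4 s5
  have n1 : a ≠ d := fun h => s3 (by rw [← t1, h])
  have n2 : a ≠ f := fun h => fa.ne h.symm
  have n3 : c ≠ f := fun h => s5 (by rw [← t2, h])
  have n4 : e ≠ b := fun h => s2 (by rw [t2, h])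
  refine h6 ![a, b, c, d, e, f] ?_ ?_
  · intro i j hij
    have hab := ab.ne
    have hbc := bc.ne
    have hcd := cd.ne
    have hde := de.ne
    have hef := ef.ne
    fin_cases i <;> fin_cases j <;> simp at hij ⊢ <;>
      first
        | exact absurd hij (by assumption)
        | exact absurd hij.symm (by assumption)
  · intro i
    fin_cases i
    · exact ab
    · exact bc
    · exact cd
    · exact de
    · exact ef
    · exact fa

/-- the number of cut edges as a cardinality -/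
theorem cut_card (F : SimpleGraph V) (S : Finset V) [DecidableRel F.Adj] :
    cut F S = ((S ×ˢ Sᶜ).filter (fun z => F.Adj z.1 z.2)).card := by
  classical
  unfold cut
  rw [ed_eq, Finset.card_filter, ← Finset.sum_product' S Sᶜ (fun a b => ai F a b)]
  refine Finset.sum_congr rfl (fun z _ => ?_)
  by_cases h : F.Adj z.1 z.2
  · rw [ai_of F h, if_pos h]
  · rw [ai_of_not F h, if_neg h]

variable {G : SimpleGraph V} {side : V → Bool} {v : V} {x p r : Fin 3 → V}

section
variable (D : DFData G side v x p r)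
include D

/-! ### sides and distinctness -/

theorem side_x (i : Fin 3) : side (x i) ≠ side v := fun h => D.lev.bip _ _ (D.vx i) h.symm

theorem side_p (i : Fin 3) : side (p i) = side v :=
  bool_eq (fun h => D.lev.bip _ _ (D.xp i) h.symm) (side_x D i)

theorem side_r (i : Fin 3) : side (r i) = side v :=
  bool_eq (fun h => D.lev.bip _ _ (D.xr i) h.symm) (side_x D i)

/-- a vertex which is not `v` is adjacent to at most one `x i` -/
theorem x_uniq {w : V} (hw : w ≠ v) {i j : Fin 3} (hi : G.Adj (x i) w) (hj : G.Adj (x j) w) :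
    i = j := by
  by_contra hij
  exact hij (D.x_inj (D.lev.noC4 v w (fun h => hw h.symm) (x i) (x j) (D.vx i) hi.symm (D.vx j)
    hj.symm))

theorem nbr_v {u : V} (h : G.Adj v u) : ∃ i, u = x i := by
  rcases nbr3 (D.lev.cubic v) (D.vx 0) (D.vx 1) (D.vx 2)
    (fun h => absurd (D.x_inj h) (by decide)) (fun h => absurd (D.x_inj h) (by decide))
    (fun h => absurd (D.x_inj h) (by decide)) h with h | h | h
  · exact ⟨0, h⟩
  · exact ⟨1, h⟩
  · exact ⟨2, h⟩

theorem nbr_x {i : Fin 3} {u : V} (h : G.Adj (x i) u) : u = v ∨ u = p i ∨ u = r i :=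
  nbr3 (D.lev.cubic (x i)) (D.vx i).symm (D.xp i) (D.xr i) (D.pv i).symm (D.rv i).symm (D.pr i) h

theorem p_ne_p {i j : Fin 3} (hij : i ≠ j) : p i ≠ p j := fun h =>
  hij (x_uniq D (D.pv i) (D.xp i) (h ▸ D.xp j))

theorem p_ne_r (i j : Fin 3) : p i ≠ r j := by
  intro h
  by_cases hij : i = j
  · subst hij
    exact D.pr i h
  · exact hij (x_uniq D (D.pv i) (D.xp i) (h ▸ D.xr j))

theorem r_ne_r {i j : Fin 3} (hij : i ≠ j) : r i ≠ r j := fun h =>
  hij (x_uniq D (D.rv i) (D.xr i) (h ▸ D.xr j))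

theorem ne_x_of_side {u : V} (h : side u = side v) (i : Fin 3) : u ≠ x i := fun e =>
  side_x D i (by rw [← e, h])

theorem p_ne_x (i j : Fin 3) : p i ≠ x j := ne_x_of_side D (side_p D i) j

theorem r_ne_x (i j : Fin 3) : r i ≠ x j := ne_x_of_side D (side_r D i) j

theorem v_ne_x (j : Fin 3) : v ≠ x j := ne_x_of_side D rfl j

/-- A vertex adjacent to two vertices which are adjacent to an `x i`, `x j` is equal to `x i`. -/
theorem two_fib {l w w' : V} {i j : Fin 3} (hw : G.Adj (x i) w) (hw' : G.Adj (x j) w')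
    (hv : w ≠ v) (hv' : w' ≠ v) (hne : w ≠ w') (h1 : G.Adj l w) (h2 : G.Adj l w') : l = x i := by
  by_cases hij : i = j
  · subst hij
    exact D.lev.noC4 w w' hne l (x i) h1.symm h2.symm hw.symm hw'.symm
  · exfalso
    have n1 : l ≠ x i := by
      rintro rfl
      exact hij (x_uniq D hv' h2 hw')
    have n2 : l ≠ x j := by
      rintro rfl
      exact hij (x_uniq D hv hw h1)
    exact hexF D.lev.bip D.c6 (D.vx i) hw h1.symm h2 hw'.symm (D.vx j).symm hv.symm hv'.symm hne
      n1.symm (fun h => hij (D.x_inj h)) n2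

/-! ### the map `q` -/

theorem q_of_ne {u : V} (h1 : u ≠ r 1) (h2 : u ≠ r 2) : dfQ p r u = u := by
  unfold dfQ
  rw [if_neg h1, if_neg h2]

theorem q_r1 : dfQ p r (r 1) = p 1 := by
  unfold dfQ
  rw [if_pos rfl]

theorem q_r2 : dfQ p r (r 2) = p 2 := by
  unfold dfQ
  rw [if_neg (r_ne_r D (by decide)), if_pos rfl]

theorem q_cases (u : V) : (dfQ p r u = u ∧ u ≠ r 1 ∧ u ≠ r 2) ∨ (u = r 1 ∧ dfQ p r u = p 1) ∨
    (u = r 2 ∧ dfQ p r u = p 2) := by
  by_cases h1 : u = r 1
  · right; left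
    exact ⟨h1, by rw [h1, q_r1 D]⟩
  · by_cases h2 : u = r 2
    · right; right
      exact ⟨h2, by rw [h2, q_r2 D]⟩
    · left
      exact ⟨q_of_ne D h1 h2, h1, h2⟩

theorem q_p (i : Fin 3) : dfQ p r (p i) = p i := q_of_ne D (p_ne_r D i 1) (p_ne_r D i 2)

theorem q_r0 : dfQ p r (r 0) = r 0 := q_of_ne D (r_ne_r D (by decide)) (r_ne_r D (by decide))

theorem q_line {u : V} (h : side u ≠ side v) : dfQ p r u = u :=
  q_of_ne D (fun e => h (by rw [e, side_r D])) (fun e => h (by rw [e, side_r D]))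

theorem q_x (i : Fin 3) : dfQ p r (x i) = x i := q_line D (side_x D i)

theorem q_v : dfQ p r v = v := q_of_ne D (D.rv 1).symm (D.rv 2).symm

theorem side_q (u : V) : side (dfQ p r u) = side u := by
  rcases q_cases D u with h | h | h
  · rw [h.1]
  · rw [h.2, h.1, side_p D, side_r D]
  · rw [h.2, h.1, side_p D, side_r D]

theorem q_ne_r1 (u : V) : dfQ p r u ≠ r 1 := by
  rcases q_cases D u with h | h | h
  · rw [h.1]; exact h.2.1
  · rw [h.2]; exact p_ne_r D 1 1
  · rw [h.2]; exact p_ne_r D 2 1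

theorem q_ne_r2 (u : V) : dfQ p r u ≠ r 2 := by
  rcases q_cases D u with h | h | h
  · rw [h.1]; exact h.2.2
  · rw [h.2]; exact p_ne_r D 1 2
  · rw [h.2]; exact p_ne_r D 2 2

theorem q_eq_x {u : V} {i : Fin 3} (h : dfQ p r u = x i) : u = x i := by
  rcases q_cases D u with h' | h' | h'
  · rw [← h, h'.1]
  · exact absurd (h'.2.symm.trans h) (p_ne_x D 1 i)
  · exact absurd (h'.2.symm.trans h) (p_ne_x D 2 i)

theorem q_eq_v {u : V} (h : dfQ p r u = v) : u = v := by
  rcases q_cases D u with h' | h' | h'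
  · rw [← h, h'.1]
  · exact absurd (h'.2.symm.trans h) (D.pv 1)
  · exact absurd (h'.2.symm.trans h) (D.pv 2)

/-- fibre of `p 1` -/
theorem q_eq_p1 {u : V} (h : dfQ p r u = p 1) : u = p 1 ∨ u = r 1 := by
  rcases q_cases D u with h' | h' | h'
  · left; rw [← h, h'.1]
  · right; exact h'.1
  · exact absurd (h'.2.symm.trans h) (p_ne_p D (by decide))

/-- fibre of `p 2` -/
theorem q_eq_p2 {u : V} (h : dfQ p r u = p 2) : u = p 2 ∨ u = r 2 := by
  rcases q_cases D u with h' | h' | h'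
  · left; rw [← h, h'.1]
  · exact absurd (h'.2.symm.trans h) (p_ne_p D (by decide))
  · right; exact h'.1

/-- fibres of the other vertices -/
theorem q_eq_other {u a : V} (h : dfQ p r u = a) (h1 : a ≠ p 1) (h2 : a ≠ p 2) : u = a := by
  rcases q_cases D u with h' | h' | h'
  · rw [← h, h'.1]
  · exact absurd (h.symm.trans h'.2) h1
  · exact absurd (h.symm.trans h'.2) h2

/-- two different vertices with the same image are `p i`, `r i` -/
theorem q_eq_q {u w : V} (h : dfQ p r u = dfQ p r w) (hne : u ≠ w) :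
    ∃ i, i ≠ 0 ∧ ((u = p i ∧ w = r i) ∨ (u = r i ∧ w = p i)) := by
  rcases q_cases D u with h1 | h1 | h1 <;> rcases q_cases D w with h2 | h2 | h2
  · exact absurd (by rw [← h1.1, h, h2.1]) hne
  · exact ⟨1, by decide, Or.inl ⟨by rw [← h1.1, h, h2.2], h2.1⟩⟩
  · exact ⟨2, by decide, Or.inl ⟨by rw [← h1.1, h, h2.2], h2.1⟩⟩
  · exact ⟨1, by decide, Or.inr ⟨h1.1, by rw [← h2.1, ← h, h1.2]⟩⟩
  · exact absurd (by rw [h1.1, h2.1]) hne
  · exact absurd (h1.2.symm.trans (h.trans h2.2)) (p_ne_p D (by decide))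
  · exact ⟨2, by decide, Or.inr ⟨h1.1, by rw [← h2.1, ← h, h1.2]⟩⟩
  · exact absurd (h1.2.symm.trans (h.trans h2.2)) (p_ne_p D (by decide))
  · exact absurd (by rw [h1.1, h2.1]) hne

/-- two different vertices with the same image have the common neighbour `x i` -/
theorem q_eq_q_adj {u w : V} (h : dfQ p r u = dfQ p r w) (hne : u ≠ w) :
    ∃ i, i ≠ 0 ∧ G.Adj (x i) u ∧ G.Adj (x i) w ∧ u ≠ v ∧ w ≠ v := by
  obtain ⟨i, hi, ⟨rfl, rfl⟩ | ⟨rfl, rfl⟩⟩ := q_eq_q D h hne
  · exact ⟨i, hi, D.xp i, D.xr i, D.pv i, D.rv i⟩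
  · exact ⟨i, hi, D.xr i, D.xp i, D.rv i, D.pv i⟩

/-! ### adjacency in `dfF` -/

theorem adj_H {a b : V} : (dfH G v x p r).Adj a b ↔
    (∃ u w, G.Adj u w ∧ dfQ p r u = a ∧ dfQ p r w = b) ∧ a ≠ v ∧ (∀ i, a ≠ x i) ∧ b ≠ v ∧
      (∀ i, b ≠ x i) := by
  have hm : ∀ a : V, a ∈ (univ \ {v, x 0, x 1, x 2} : Finset V) ↔ a ≠ v ∧ ∀ i, a ≠ x i := by
    intro a
    simp only [mem_sdiff, mem_univ, true_and, mem_insert, mem_singleton, not_or]
    constructor
    · rintro ⟨h1, h2, h3, h4⟩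
      refine ⟨h1, fun i => ?_⟩
      fin_cases i
      · exact h2
      · exact h3
      · exact h4
    · rintro ⟨h1, h2⟩
      exact ⟨h1, h2 0, h2 1, h2 2⟩
  show ((quot G (dfQ p r)).Adj a b ∧ _ ∧ _) ↔ _
  rw [hm, hm]
  unfold quot
  rw [SimpleGraph.fromRel_adj]
  constructor
  · rintro ⟨⟨-, h | h⟩, ⟨h1, h2⟩, h3, h4⟩
    · exact ⟨h, h1, h2, h3, h4⟩
    · obtain ⟨u, w, h5, h6, h7⟩ := h
      exact ⟨⟨w, u, h5.symm, h7, h6⟩, h1, h2, h3, h4⟩
  · rintro ⟨h, h1, h2, h3, h4⟩
    refine ⟨⟨?_, Or.inl h⟩, ⟨h1, h2⟩, h3, h4⟩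
    obtain ⟨u, w, h5, h6, h7⟩ := h
    rintro rfl
    exact D.lev.bip _ _ h5 (by rw [← side_q D u, ← side_q D w, h6, h7])

theorem adj_F {a b : V} : (dfF G v x p r).Adj a b ↔ (dfH G v x p r).Adj a b ∨
    (a = x 0 ∧ (b = p 0 ∨ b = r 0)) ∨ (b = x 0 ∧ (a = p 0 ∨ a = r 0)) := by
  unfold dfF
  simp only [SimpleGraph.sup_adj, SimpleGraph.edge_adj]
  constructor
  · rintro ((h | ⟨⟨h1, h2⟩ | ⟨h1, h2⟩, -⟩) | ⟨⟨h1, h2⟩ | ⟨h1, h2⟩, -⟩)
    · exact Or.inl h
    · exact Or.inr (Or.inl ⟨h1, Or.inl h2⟩)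
    · exact Or.inr (Or.inr ⟨h2, Or.inl h1⟩)
    · exact Or.inr (Or.inl ⟨h1, Or.inr h2⟩)
    · exact Or.inr (Or.inr ⟨h2, Or.inr h1⟩)
  · rintro (h | ⟨h1, h2 | h2⟩ | ⟨h1, h2 | h2⟩)
    · exact Or.inl (Or.inl h)
    · exact Or.inl (Or.inr ⟨Or.inl ⟨h1, h2⟩, by rw [h1, h2]; exact (D.xp 0).ne⟩)
    · exact Or.inr ⟨Or.inl ⟨h1, h2⟩, by rw [h1, h2]; exact (D.xr 0).ne⟩
    · exact Or.inl (Or.inr ⟨Or.inr ⟨h2, h1⟩, by rw [h1, h2]; exact (D.xp 0).symm.ne⟩)
    · exact Or.inr ⟨Or.inr ⟨h2, h1⟩, by rw [h1, h2]; exact (D.xr 0).symm.ne⟩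

/-- neighbours of the line `x 0` -/
theorem adj_x0 {b : V} : (dfF G v x p r).Adj (x 0) b ↔ b = p 0 ∨ b = r 0 := by
  rw [adj_F D]
  constructor
  · rintro (h | ⟨-, h⟩ | ⟨-, h | h⟩)
    · exact absurd rfl (((adj_H D).1 h).2.2.1 0)
    · exact h
    · exact absurd h.symm (p_ne_x D 0 0)
    · exact absurd h.symm (r_ne_x D 0 0)
  · intro h
    exact Or.inr (Or.inl ⟨rfl, h⟩)

/-- the lines `x 1`, `x 2` are isolated -/
theorem not_adj_x {i : Fin 3} (hi : i ≠ 0) (b : V) : ¬ (dfF G v x p r).Adj (x i) b := by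
  rw [adj_F D]
  rintro (h | ⟨h, -⟩ | ⟨-, h | h⟩)
  · exact ((adj_H D).1 h).2.2.1 i rfl
  · exact hi (D.x_inj h)
  · exact p_ne_x D 0 i h.symm
  · exact r_ne_x D 0 i h.symm

theorem not_adj_v (b : V) : ¬ (dfF G v x p r).Adj v b := by
  rw [adj_F D]
  rintro (h | ⟨h, -⟩ | ⟨-, h | h⟩)
  · exact ((adj_H D).1 h).2.1 rfl
  · exact v_ne_x D 0 h
  · exact D.pv 0 h.symm
  · exact D.rv 0 h.symm

theorem not_adj_r {i : Fin 3} (hi : i ≠ 0) (b : V) : ¬ (dfF G v x p r).Adj (r i) b := by
  rw [adj_F D]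
  rintro (h | ⟨h, -⟩ | ⟨-, h | h⟩)
  · obtain ⟨⟨u, w, -, h1, -⟩, -⟩ := (adj_H D).1 h
    have : i = 1 ∨ i = 2 := fin3_ne0 i hi
    rcases this with rfl | rfl
    · exact q_ne_r1 D u h1
    · exact q_ne_r2 D u h1
  · exact r_ne_x D i 0 h
  · exact p_ne_r D 0 i h.symm
  · exact r_ne_r D hi h

/-- neighbours of a line different from the `x i` -/
theorem adj_line {l b : V} (hl : side l ≠ side v) (hx : ∀ i, l ≠ x i) :
    (dfF G v x p r).Adj l b ↔ ∃ w, G.Adj l w ∧ dfQ p r w = b := by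
  rw [adj_F D]
  constructor
  · rintro (h | ⟨h, -⟩ | ⟨-, h | h⟩)
    · obtain ⟨⟨u, w, h1, h2, h3⟩, -⟩ := (adj_H D).1 h
      have : u = l := q_eq_other D h2 (fun e => hl (by rw [e, side_p D]))
        (fun e => hl (by rw [e, side_p D]))
      rw [this] at h1
      exact ⟨w, h1, h3⟩
    · exact absurd h (hx 0)
    · exact absurd (by rw [h, side_p D]) hl
    · exact absurd (by rw [h, side_r D]) hl
  · rintro ⟨w, h1, h2⟩
    left
    rw [adj_H D]
    have hw : side w = side v := bool_eq (fun h => D.lev.bip _ _ h1 h.symm) hl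
    refine ⟨⟨l, w, h1, q_line D hl, h2⟩, ?_, hx, ?_, ?_⟩
    · rintro rfl
      exact hl rfl
    · intro h3
      have h4 := q_eq_v D (h2.trans h3)
      rw [h4] at h1
      obtain ⟨i, hi⟩ := nbr_v D h1.symm
      exact hx i hi
    · intro i h3
      have h4 := q_eq_x D (h2.trans h3)
      rw [h4] at hw
      exact side_x D i hw

/-- edges of `G` away from `v, x 1, x 2` give edges of `dfF` -/
theorem adj_q {u w : V} (h : G.Adj u w) (huv : u ≠ v) (hu1 : u ≠ x 1) (hu2 : u ≠ x 2)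
    (hwv : w ≠ v) (hw1 : w ≠ x 1) (hw2 : w ≠ x 2) :
    (dfF G v x p r).Adj (dfQ p r u) (dfQ p r w) := by
  have key : ∀ u w : V, G.Adj u w → side u ≠ side v → u ≠ x 1 → u ≠ x 2 → w ≠ v →
      (dfF G v x p r).Adj (dfQ p r u) (dfQ p r w) := by
    intro u w h hs hu1 hu2 hwv
    rw [q_line D hs]
    by_cases hu0 : u = x 0
    · subst hu0
      rw [adj_x0 D]
      rcases nbr_x D h with h1 | h1 | h1
      · exact absurd h1 hwv
      · left; rw [h1, q_p D]
      · right; rw [h1, q_r0 D]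
    · rw [adj_line D hs]
      · exact ⟨w, h, rfl⟩
      · intro i
        fin_cases i
        · exact hu0
        · exact hu1
        · exact hu2
  by_cases hs : side u = side v
  · exact (key w u h.symm (fun h' => D.lev.bip _ _ h (hs.trans h'.symm)) hw1 hw2 huv).symm
  · exact key u w h hs hu1 hu2 hwv

/-- every edge of `dfF` comes from an edge of `G` away from `v, x 1, x 2` -/
theorem adj_lift {a b : V} (h : (dfF G v x p r).Adj a b) : ∃ u w, G.Adj u w ∧ dfQ p r u = a ∧
    dfQ p r w = b := by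
  rw [adj_F D] at h
  rcases h with h | ⟨rfl, rfl | rfl⟩ | ⟨rfl, rfl | rfl⟩
  · exact ((adj_H D).1 h).1
  · exact ⟨x 0, p 0, D.xp 0, q_x D 0, q_p D 0⟩
  · exact ⟨x 0, r 0, D.xr 0, q_x D 0, q_r0 D⟩
  · exact ⟨p 0, x 0, (D.xp 0).symm, q_p D 0, q_x D 0⟩
  · exact ⟨r 0, x 0, (D.xr 0).symm, q_r0 D, q_x D 0⟩

theorem bipF : Bip (dfF G v x p r) side := by
  intro a b h
  obtain ⟨u, w, h1, rfl, rfl⟩ := adj_lift D h
  rw [side_q D, side_q D]
  exact D.lev.bip _ _ h1

/-- a point of `dfF` other than `p 1`, `p 2` has its `G`-neighbours only -/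
theorem adj_point {a b : V} (h : (dfF G v x p r).Adj a b) (h1 : a ≠ p 1) (h2 : a ≠ p 2)
    (hs : side a = side v) : G.Adj a b := by
  obtain ⟨u, w, h3, h4, h5⟩ := adj_lift D h
  have h6 := q_eq_other D h4 h1 h2
  have hw : side w ≠ side v := fun h' => D.lev.bip _ _ h3 (by rw [h6, hs, h'])
  rw [q_line D hw] at h5
  rw [← h6, ← h5]
  exact h3

/-- the neighbours of `p 1` and `p 2` in `dfF` -/
theorem adj_p {i : Fin 3} (hi : i ≠ 0) {b : V} (h : (dfF G v x p r).Adj (p i) b) :
    (G.Adj (p i) b ∨ G.Adj (r i) b) ∧ b ≠ x i := by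
  obtain ⟨u, w, h3, h4, h5⟩ := adj_lift D h
  have h6 : u = p i ∨ u = r i := by
    have : i = 1 ∨ i = 2 := fin3_ne0 i hi
    rcases this with rfl | rfl
    · exact q_eq_p1 D h4
    · exact q_eq_p2 D h4
  have hu : side u = side v := by
    rcases h6 with h6 | h6
    · rw [h6, side_p D]
    · rw [h6, side_r D]
  have hw : side w ≠ side v := fun h' => D.lev.bip _ _ h3 (by rw [hu, h'])
  rw [q_line D hw] at h5
  refine ⟨?_, ?_⟩
  · rcases h6 with h6 | h6
    · left; rw [← h6, ← h5]; exact h3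
    · right; rw [← h6, ← h5]; exact h3
  · rintro rfl
    exact not_adj_x D hi _ h.symm

/-! ### degrees -/

/-- upper bound for the degrees of `dfF`: two at `x 0`, four at `p 1`, `p 2`, three otherwise -/
theorem deg_le (a : V) : dg (dfF G v x p r) univ a + (if a = x 0 then 1 else 0) ≤
    3 + (if a = p 1 then 1 else 0) + (if a = p 2 then 1 else 0) := by
  classical
  have h3 : ∀ u, (univ.filter (fun w => G.Adj u w)).card = 3 := fun u => by
    have := D.lev.cubic u
    unfold dg at this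
    convert this
  unfold dg
  by_cases hs : side a = side v
  · rw [if_neg (ne_x_of_side D hs 0)]
    have hp : ∀ i : Fin 3, i ≠ 0 → (univ.filter (fun u => (dfF G v x p r).Adj (p i) u)).card ≤ 4 := by
      intro i hi
      have hsub : univ.filter (fun u => (dfF G v x p r).Adj (p i) u) ⊆
          (univ.filter (fun w => G.Adj (p i) w)).erase (x i) ∪
            (univ.filter (fun w => G.Adj (r i) w)).erase (x i) := by
        intro b hb
        rw [mem_filter] at hb
        obtain ⟨h1, h2⟩ := adj_p D hi hb.2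
        rw [mem_union, mem_erase, mem_erase, mem_filter, mem_filter]
        rcases h1 with h1 | h1
        · exact Or.inl ⟨h2, mem_univ _, h1⟩
        · exact Or.inr ⟨h2, mem_univ _, h1⟩
      refine (card_le_card hsub).trans ((card_union_le _ _).trans ?_)
      rw [card_erase_of_mem, card_erase_of_mem, h3, h3]
      · rw [mem_filter]; exact ⟨mem_univ _, (D.xr i).symm⟩
      · rw [mem_filter]; exact ⟨mem_univ _, (D.xp i).symm⟩
    by_cases h1 : a = p 1
    · rw [if_pos h1, h1, if_neg (p_ne_p D (by decide))]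
      have := hp 1 (by decide)
      simpa using this
    · by_cases h2 : a = p 2
      · rw [if_pos h2, if_neg h1, h2]
        have := hp 2 (by decide)
        simpa using this
      · rw [if_neg h1, if_neg h2]
        have hsub : univ.filter (fun u => (dfF G v x p r).Adj a u) ⊆
            univ.filter (fun w => G.Adj a w) := by
          intro b hb
          rw [mem_filter] at hb ⊢
          exact ⟨mem_univ _, adj_point D hb.2 h1 h2 hs⟩
        have := card_le_card hsub
        rw [h3] at this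
        simpa using this
  · rw [if_neg (fun e : a = p 1 => hs (by rw [e, side_p D])),
      if_neg (fun e : a = p 2 => hs (by rw [e, side_p D]))]
    by_cases h0 : a = x 0
    · rw [if_pos h0]
      have hsub : univ.filter (fun u => (dfF G v x p r).Adj a u) ⊆ {p 0, r 0} := by
        intro b hb
        rw [mem_filter, h0, adj_x0 D] at hb
        simpa using hb.2
      have := (card_le_card hsub).trans (card_le_two)
      omega
    · rw [if_neg h0]
      by_cases hx : ∀ i, a ≠ x i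
      · have hsub : univ.filter (fun u => (dfF G v x p r).Adj a u) ⊆
            (univ.filter (fun w => G.Adj a w)).image (dfQ p r) := by
          intro b hb
          rw [mem_filter, adj_line D hs hx] at hb
          obtain ⟨-, w, h1, h2⟩ := hb
          exact mem_image.2 ⟨w, mem_filter.2 ⟨mem_univ _, h1⟩, h2⟩
        have := (card_le_card hsub).trans card_image_le
        rw [h3] at this
        simpa using this
      · push Not at hx
        obtain ⟨i, rfl⟩ := hx
        have hi : i ≠ 0 := by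
          rintro rfl
          exact h0 rfl
        have : univ.filter (fun u => (dfF G v x p r).Adj (x i) u) = ∅ := by
          rw [filter_eq_empty_iff]
          intro b _
          exact not_adj_x D hi b
        rw [this]
        simp

/-- the number of edges of `dfF` leaving `S`, if every vertex `a` of `S` has at least `3 - e a`
neighbours in `S` -/
theorem cutF_le (S : Finset V) (e : V → ℕ) (hS : ∀ a ∈ S, 3 ≤ dg (dfF G v x p r) S a + e a) :
    cut (dfF G v x p r) S + (if x 0 ∈ S then 1 else 0) ≤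
      (if p 1 ∈ S then 1 else 0) + (if p 2 ∈ S then 1 else 0) + ∑ a ∈ S, e a := by
  classical
  have hsum : ∀ c : V, (∑ a ∈ S, if a = c then 1 else 0) = if c ∈ S then 1 else 0 := by
    intro c
    rw [Finset.sum_ite_eq']
  unfold cut ed
  rw [← hsum (x 0), ← hsum (p 1), ← hsum (p 2), ← Finset.sum_add_distrib,
    ← Finset.sum_add_distrib, ← Finset.sum_add_distrib]
  refine Finset.sum_le_sum (fun a ha => ?_)
  have h1 := hS a ha
  have h2 := deg_le D a
  have h3 : dg (dfF G v x p r) univ a = dg (dfF G v x p r) S a + dg (dfF G v x p r) Sᶜ a := by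
    have hd : Disjoint S Sᶜ := disjoint_compl_right
    have := ed_union_right (dfF G v x p r) {a} S Sᶜ hd
    rw [ed_singleton_left, ed_singleton_left, ed_singleton_left, Finset.union_compl] at this
    exact this
  omega

/-! ### cuts of `G` -/

/-- `A` is the preimage of `S` under `q`, with `x i` added if `p i ∈ S` (`i = 1, 2`), `v` arbitrary -/
structure Pre (v : V) (x p r : Fin 3 → V) (S A : Finset V) : Prop where
  mem : ∀ u, u ≠ v → u ≠ x 1 → u ≠ x 2 → (u ∈ A ↔ dfQ p r u ∈ S)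
  mem1 : x 1 ∈ A ↔ p 1 ∈ S
  mem2 : x 2 ∈ A ↔ p 2 ∈ S

/-- such sets exist -/
theorem exists_pre (S : Finset V) (c : Prop) : ∃ A, Pre v x p r S A ∧ (v ∈ A ↔ c) := by
  classical
  refine ⟨univ.filter (fun u => if u = v then c else if u = x 1 then p 1 ∈ S else
    if u = x 2 then p 2 ∈ S else dfQ p r u ∈ S), ⟨?_, ?_, ?_⟩, ?_⟩
  · intro u h1 h2 h3
    rw [mem_filter, if_neg h1, if_neg h2, if_neg h3]
    simp
  · rw [mem_filter, if_neg (v_ne_x D 1).symm, if_pos rfl]
    simp
  · rw [mem_filter, if_neg (v_ne_x D 2).symm,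
      if_neg (fun h => absurd (D.x_inj h) (by decide)), if_pos rfl]
    simp
  · rw [mem_filter, if_pos rfl]
    simp

theorem pre_x0 {S A : Finset V} (hA : Pre v x p r S A) : x 0 ∈ A ↔ x 0 ∈ S := by
  rw [hA.mem (x 0) (v_ne_x D 0).symm (fun h => absurd (D.x_inj h) (by decide))
    (fun h => absurd (D.x_inj h) (by decide)), q_x D]

theorem pre_p {S A : Finset V} (hA : Pre v x p r S A) (i : Fin 3) : p i ∈ A ↔ p i ∈ S := by
  rw [hA.mem (p i) (D.pv i) (p_ne_x D i 1) (p_ne_x D i 2), q_p D]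

theorem pre_r0 {S A : Finset V} (hA : Pre v x p r S A) : r 0 ∈ A ↔ r 0 ∈ S := by
  rw [hA.mem (r 0) (D.rv 0) (r_ne_x D 0 1) (r_ne_x D 0 2), q_r0 D]

theorem pre_r1 {S A : Finset V} (hA : Pre v x p r S A) : r 1 ∈ A ↔ p 1 ∈ S := by
  rw [hA.mem (r 1) (D.rv 1) (r_ne_x D 1 1) (r_ne_x D 1 2), q_r1 D]

theorem pre_r2 {S A : Finset V} (hA : Pre v x p r S A) : r 2 ∈ A ↔ p 2 ∈ S := by
  rw [hA.mem (r 2) (D.rv 2) (r_ne_x D 2 1) (r_ne_x D 2 2), q_r2 D]

/-- a line different from the `x i` is in `A` iff it is in `S` -/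
theorem pre_line {S A : Finset V} (hA : Pre v x p r S A) {l : V} (hl : side l ≠ side v)
    (hx : ∀ i, l ≠ x i) : l ∈ A ↔ l ∈ S := by
  rw [hA.mem l (fun h => hl (by rw [h])) (hx 1) (hx 2), q_line D hl]

/-- The number of edges of `G` leaving `A` is at most the number of edges of `dfF` leaving `S` plus
the number of edges `v x i` leaving `A`. -/
theorem cut_le {S A : Finset V} (hA : Pre v x p r S A) :
    cut G A ≤ cut (dfF G v x p r) S + ∑ i, (if (v ∈ A ↔ x i ∈ A) then 0 else 1) := by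
  classical
  rw [cut_card, cut_card]
  set C := (A ×ˢ Aᶜ).filter (fun z => G.Adj z.1 z.2) with hC
  rw [← Finset.card_filter_add_card_filter_not (s := C) (fun z => z.1 ≠ v ∧ z.2 ≠ v)]
  refine Nat.add_le_add ?_ ?_
  · -- edges away from `v`
    have hx : ∀ z ∈ C.filter (fun z => z.1 ≠ v ∧ z.2 ≠ v), z.1 ∈ A ∧ z.2 ∉ A ∧ G.Adj z.1 z.2 ∧
        z.1 ≠ v ∧ z.2 ≠ v ∧ z.1 ≠ x 1 ∧ z.1 ≠ x 2 ∧ z.2 ≠ x 1 ∧ z.2 ≠ x 2 := by
      intro z hz
      rw [mem_filter, hC, mem_filter, mem_product, mem_compl] at hz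
      obtain ⟨⟨⟨h1, h2⟩, h3⟩, h4, h5⟩ := hz
      refine ⟨h1, h2, h3, h4, h5, ?_, ?_, ?_, ?_⟩
      · intro h
        rw [h] at h1 h3
        rcases nbr_x D h3 with h6 | h6 | h6
        · exact h5 h6
        · exact h2 (by rw [h6, pre_p D hA]; exact hA.mem1.1 h1)
        · exact h2 (by rw [h6, pre_r1 D hA]; exact hA.mem1.1 h1)
      · intro h
        rw [h] at h1 h3
        rcases nbr_x D h3 with h6 | h6 | h6
        · exact h5 h6
        · exact h2 (by rw [h6, pre_p D hA]; exact hA.mem2.1 h1)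
        · exact h2 (by rw [h6, pre_r2 D hA]; exact hA.mem2.1 h1)
      · intro h
        rw [h] at h2 h3
        rcases nbr_x D h3.symm with h6 | h6 | h6
        · exact h4 h6
        · exact h2 (by rw [hA.mem1, ← pre_p D hA 1, ← h6]; exact h1)
        · exact h2 (by rw [hA.mem1, ← pre_r1 D hA, ← h6]; exact h1)
      · intro h
        rw [h] at h2 h3
        rcases nbr_x D h3.symm with h6 | h6 | h6
        · exact h4 h6
        · exact h2 (by rw [hA.mem2, ← pre_p D hA 2, ← h6]; exact h1)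
        · exact h2 (by rw [hA.mem2, ← pre_r2 D hA, ← h6]; exact h1)
    refine Finset.card_le_card_of_injOn (fun z => (dfQ p r z.1, dfQ p r z.2)) ?_ ?_
    · intro z hz
      obtain ⟨h1, h2, h3, h4, h5, h6, h7, h8, h9⟩ := hx z hz
      rw [mem_coe, mem_filter, mem_product, mem_compl]
      exact ⟨⟨(hA.mem z.1 h4 h6 h7).1 h1, fun h => h2 ((hA.mem z.2 h5 h8 h9).2 h)⟩,
        adj_q D h3 h4 h6 h7 h5 h8 h9⟩
    · intro z hz z' hz' heq
      rw [mem_coe] at hz hz'
      obtain ⟨h1, h2, h3, h4, h5, h6, h7, h8, h9⟩ := hx z hz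
      obtain ⟨h1', h2', h3', h4', h5', h6', h7', h8', h9'⟩ := hx z' hz'
      rw [Prod.mk.injEq] at heq
      obtain ⟨e1, e2⟩ := heq
      have hside1 : side z.1 = side z'.1 := by rw [← side_q D z.1, ← side_q D z'.1, e1]
      have hside2 : side z.2 = side z'.2 := by rw [← side_q D z.2, ← side_q D z'.2, e2]
      have hb := D.lev.bip _ _ h3
      by_cases hs : side z.1 = side v
      · -- `z.1` a point
        have hs2 : side z.2 ≠ side v := fun h => hb (hs.trans h.symm)
        have e3 : z.2 = z'.2 := by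
          rw [← q_line D hs2, e2, q_line D (by rw [← hside2]; exact hs2)]
        by_contra hne
        have hne1 : z.1 ≠ z'.1 := fun h => hne (Prod.ext h e3)
        obtain ⟨i, hi, a1, a2, a3, a4⟩ := q_eq_q_adj D e1 hne1
        have := two_fib D a1 a2 a3 a4 hne1 h3.symm (by rw [e3]; exact h3'.symm)
        rcases fin3_ne0 i hi with rfl | rfl
        · exact h8 this
        · exact h9 this
      · have hs2 : side z.2 = side v := bool_eq (fun h => hb h.symm) hs
        have e3 : z.1 = z'.1 := by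
          rw [← q_line D hs, e1, q_line D (by rw [← hside1]; exact hs)]
        by_contra hne
        have hne1 : z.2 ≠ z'.2 := fun h => hne (Prod.ext e3 h)
        obtain ⟨i, hi, a1, a2, a3, a4⟩ := q_eq_q_adj D e2 hne1
        have := two_fib D a1 a2 a3 a4 hne1 h3 (by rw [e3]; exact h3')
        rcases fin3_ne0 i hi with rfl | rfl
        · exact h6 this
        · exact h7 this
  · -- edges at `v`
    have hsub : C.filter (fun z => ¬ (z.1 ≠ v ∧ z.2 ≠ v)) ⊆
        (univ.filter (fun i : Fin 3 => ¬ (v ∈ A ↔ x i ∈ A))).image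
          (fun i => if v ∈ A then (v, x i) else (x i, v)) := by
      intro z hz
      rw [mem_filter, hC, mem_filter, mem_product, mem_compl] at hz
      obtain ⟨⟨⟨h1, h2⟩, h3⟩, h4⟩ := hz
      rw [mem_image]
      by_cases h5 : z.1 = v
      · rw [h5] at h1 h3
        obtain ⟨i, hi⟩ := nbr_v D h3
        refine ⟨i, ?_, ?_⟩
        · rw [mem_filter]
          exact ⟨mem_univ _, fun h => h2 (by rw [hi]; exact h.1 h1)⟩
        · rw [if_pos h1]
          exact Prod.ext h5.symm hi.symm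
      · have h6 : z.2 = v := by
          by_contra h
          exact h4 ⟨h5, h⟩
        rw [h6] at h2 h3
        obtain ⟨i, hi⟩ := nbr_v D h3.symm
        refine ⟨i, ?_, ?_⟩
        · rw [mem_filter]
          exact ⟨mem_univ _, fun h => h2 (h.2 (by rw [← hi]; exact h1))⟩
        · rw [if_neg h2]
          exact Prod.ext hi.symm h6.symm
    refine (card_le_card hsub).trans (card_image_le.trans ?_)
    rw [Finset.card_filter]
    refine Finset.sum_le_sum (fun i _ => ?_)
    by_cases h : (v ∈ A ↔ x i ∈ A) <;> simp [h]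

end

end DF

end N3
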