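import Pool.Agent.Lib_n3.DFBase

/-!
# Module DFCombA of the project MP_07e12a_co
-/

open scoped Matrix Topology
open Finset

namespace N3

namespace DF

variable {V : Type} [Fintype V] [DecidableEq V]
variable {G : SimpleGraph V} {side : V → Bool} {v : V} {x p r : Fin 3 → V}

section
variable (D : DFData G side v x p r)
include D

/-- two lines with two common points -/
theorem noC4_lines {l l' P P' : V} (hl : side l ≠ side v) (hl' : side l' ≠ side v) (hne : l ≠ l')
    (hP : P ≠ P') (h1 : (dfF G v x p r).Adj l P) (h2 : (dfF G v x p r).Adj l P')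
    (h3 : (dfF G v x p r).Adj l' P) (h4 : (dfF G v x p r).Adj l' P') : False := by
  have hx1 : ∀ i, i ≠ 0 → l ≠ x i := fun i hi e => not_adj_x D hi P (e ▸ h1)
  have hx1' : ∀ i, i ≠ 0 → l' ≠ x i := fun i hi e => not_adj_x D hi P (e ▸ h3)
  -- the case that one of the lines is `x 0`
  have key : ∀ l' P P' : V, side l' ≠ side v → x 0 ≠ l' → P ≠ P' → (∀ i, i ≠ 0 → l' ≠ x i) →
      (dfF G v x p r).Adj (x 0) P → (dfF G v x p r).Adj (x 0) P' →
      (dfF G v x p r).Adj l' P → (dfF G v x p r).Adj l' P' → False := by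
    intro l' P P' hl' hne hP hx1' h1 h2 h3 h4
    have hx' : ∀ i, l' ≠ x i := by
      intro i
      by_cases hi : i = 0
      · rw [hi]; exact hne.symm
      · exact hx1' i hi
    rw [adj_x0 D] at h1 h2
    rw [adj_line D hl' hx'] at h3 h4
    obtain ⟨w, h5, h6⟩ := h3
    obtain ⟨w', h7, h8⟩ := h4
    have hw : w = P := q_eq_other D h6
      (by rcases h1 with h1 | h1 <;> rw [h1]
          · exact p_ne_p D (by decide)
          · exact (p_ne_r D 1 0).symm)
      (by rcases h1 with h1 | h1 <;> rw [h1]
          · exact p_ne_p D (by decide)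
          · exact (p_ne_r D 2 0).symm)
    have hw' : w' = P' := q_eq_other D h8
      (by rcases h2 with h2 | h2 <;> rw [h2]
          · exact p_ne_p D (by decide)
          · exact (p_ne_r D 1 0).symm)
      (by rcases h2 with h2 | h2 <;> rw [h2]
          · exact p_ne_p D (by decide)
          · exact (p_ne_r D 2 0).symm)
    rw [hw] at h5
    rw [hw'] at h7
    have hadj : G.Adj (x 0) P := by
      rcases h1 with h1 | h1 <;> rw [h1]
      · exact D.xp 0
      · exact D.xr 0
    have hadj' : G.Adj (x 0) P' := by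
      rcases h2 with h2 | h2 <;> rw [h2]
      · exact D.xp 0
      · exact D.xr 0
    exact hne (D.lev.noC4 P P' hP (x 0) l' hadj.symm hadj'.symm h5.symm h7.symm)
  by_cases hl0 : l = x 0
  · subst hl0
    exact key l' P P' hl' hne hP hx1' h1 h2 h3 h4
  by_cases hl0' : l' = x 0
  · subst hl0'
    exact key l P P' hl (fun h => hl0 h.symm) hP hx1 h3 h4 h1 h2
  have hx : ∀ i, l ≠ x i := by
    intro i
    by_cases hi : i = 0
    · rw [hi]; exact hl0
    · exact hx1 i hi
  have hx' : ∀ i, l' ≠ x i := by
    intro i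
    by_cases hi : i = 0
    · rw [hi]; exact hl0'
    · exact hx1' i hi
  rw [adj_line D hl hx] at h1 h2
  rw [adj_line D hl' hx'] at h3 h4
  obtain ⟨w₁, a1, b1⟩ := h1
  obtain ⟨w₂, a2, b2⟩ := h2
  obtain ⟨w₃, a3, b3⟩ := h3
  obtain ⟨w₄, a4, b4⟩ := h4
  have n12 : w₁ ≠ w₂ := fun h => hP (by rw [← b1, ← b2, h])
  have n34 : w₃ ≠ w₄ := fun h => hP (by rw [← b3, ← b4, h])
  -- one of the points is not identified: a hexagon
  have key2 : ∀ w₁ w₂ w₃ : V, G.Adj l w₁ → G.Adj l w₂ → G.Adj l' w₃ → G.Adj l' w₂ → w₁ ≠ w₂ →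
      w₃ ≠ w₂ → dfQ p r w₁ = dfQ p r w₃ → w₁ ≠ w₃ → False := by
    intro w₁ w₂ w₃ a1 a2 a3 a4 n12 n32 hq n13
    obtain ⟨i, hi, c1, c2, c3, c4⟩ := q_eq_q_adj D hq n13
    exact hexF D.lev.bip D.c6 c1 a1.symm a2 a4.symm a3 c2.symm (hx i).symm (hx' i).symm hne n12
      n13 n32.symm
  by_cases h13 : w₁ = w₃
  · by_cases h24 : w₂ = w₄
    · subst h13 h24
      exact hne (D.lev.noC4 w₁ w₂ n12 l l' a1.symm a2.symm a3.symm a4.symm)
    · subst h13
      exact key2 w₂ w₁ w₄ a2 a1 a4 a3 n12.symm n34.symm (by rw [b2, b4]) h24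
  · by_cases h24 : w₂ = w₄
    · subst h24
      exact key2 w₁ w₂ w₃ a1 a2 a3 a4 n12 n34 (by rw [b1, b3]) h13
    · obtain ⟨i, hi, c1, c2, c3, c4⟩ := q_eq_q_adj D (b1.trans b3.symm) h13
      obtain ⟨j, hj, d1, d2, d3, d4⟩ := q_eq_q_adj D (b2.trans b4.symm) h24
      exact hx i (two_fib D c1 d1 c3 d3 n12 a1 a2)

theorem noC4F : NoC4 (dfF G v x p r) := by
  intro a a' hne b b' h1 h2 h3 h4
  by_contra hbb
  have hB := bipF D
  by_cases hs : side a = side v
  · have hb : side b ≠ side v := fun h => hB _ _ h1 (hs.trans h.symm)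
    have hb' : side b' ≠ side v := fun h => hB _ _ h3 (hs.trans h.symm)
    exact noC4_lines D hb hb' hbb hne h1.symm h2.symm h3.symm h4.symm
  · have hb : side b = side v := bool_eq (fun h => hB _ _ h1 h.symm) hs
    have hs' : side a' ≠ side v := fun h => hB _ _ h2 (h.trans hb.symm)
    exact noC4_lines D hs hs' hne hbb h1 h3 h2 h4

/-- In a set `S` in which every vertex has at least three neighbours in `dfF` plus a pair `y z`
(`y` a point, `z` a line other than `x 0`), there is no vertex. -/
theorem core_empty {y z : V} (hy : side y = side v) (hz : side z ≠ side v) (hz0 : z ≠ x 0)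
    {S : Finset V} (hne : S.Nonempty)
    (hS : ∀ a ∈ S, 3 ≤ dg (dfF G v x p r) S a + ((if a = y then 1 else 0) + if a = z then 1 else 0)) :
    False := by
  classical
  have hyz : y ≠ z := fun h => hz (by rw [← h, hy])
  have hcut := cutF_le D S (fun a => (if a = y then 1 else 0) + if a = z then 1 else 0) hS
  have hsum : ∀ c : V, (∑ a ∈ S, if a = c then 1 else 0) = if c ∈ S then 1 else 0 := by
    intro c
    rw [Finset.sum_ite_eq']
  rw [Finset.sum_add_distrib, hsum, hsum] at hcut
  -- degrees in `S`
  have hle : ∀ a, dg (dfF G v x p r) S a ≤ dg (dfF G v x p r) univ a := by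
    intro a
    rw [← ed_singleton_left, ← ed_singleton_left]
    exact ed_mono_right _ (subset_univ _) _
  have hx0 : x 0 ∉ S := by
    intro h
    have h1 := hS _ h
    have h2 := deg_le D (x 0)
    rw [if_pos rfl, if_neg (p_ne_x D 1 0).symm, if_neg (p_ne_x D 2 0).symm] at h2
    rw [if_neg (ne_x_of_side D hy 0).symm, if_neg hz0.symm] at h1
    have := hle (x 0)
    omega
  rw [if_neg hx0] at hcut
  -- a vertex of `S` outside the pair, different from `p 1`, `p 2`, has all its neighbours in `S`
  have hfull : ∀ a ∈ S, a ≠ y → a ≠ z → a ≠ p 1 → a ≠ p 2 → ∀ b, (dfF G v x p r).Adj a b →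
      b ∈ S := by
    intro a ha e1 e2 e3 e4 b hab
    by_contra hb
    have h1 := hS a ha
    rw [if_neg e1, if_neg e2] at h1
    have h2 := deg_le D a
    rw [if_neg e3, if_neg e4] at h2
    have h3 : dg (dfF G v x p r) univ a = dg (dfF G v x p r) S a
        + dg (dfF G v x p r) Sᶜ a := by
      have hd : Disjoint S Sᶜ := disjoint_compl_right
      have := ed_union_right (dfF G v x p r) {a} S Sᶜ hd
      rw [ed_singleton_left, ed_singleton_left, ed_singleton_left, Finset.union_compl] at this
      exact this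
    have h4 : dg (dfF G v x p r) Sᶜ a = 0 := by omega
    unfold dg at h4
    rw [card_eq_zero, filter_eq_empty_iff] at h4
    exact h4 (mem_compl.2 hb) hab
  -- removed vertices are not in `S`
  have hiso : ∀ a, (∀ b, ¬ (dfF G v x p r).Adj a b) → a ∉ S := by
    intro a ha h
    have h1 := hS a h
    have h2 : dg (dfF G v x p r) S a = 0 := by
      unfold dg
      rw [card_eq_zero, filter_eq_empty_iff]
      intro b _
      exact ha b
    by_cases e1 : a = y
    · by_cases e2 : a = z
      · exact hyz (by rw [← e1, ← e2])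
      · rw [if_pos e1, if_neg e2] at h1
        omega
    · rw [if_neg e1] at h1
      split_ifs at h1 <;> omega
  have hvS : v ∉ S := hiso v (not_adj_v D)
  have hxS : ∀ i, i ≠ 0 → x i ∉ S := fun i hi => hiso _ (not_adj_x D hi)
  have h1y : (if y ∈ S then 1 else 0) ≤ 1 := by split_ifs <;> omega
  have h1z : (if z ∈ S then 1 else 0) ≤ 1 := by split_ifs <;> omega
  obtain ⟨s, hs⟩ := hne
  have hsr : ∀ i, i ≠ 0 → r i ∉ S := fun i hi => hiso _ (not_adj_r D hi)
  -- `s` is in every admissible `A`
  have hsA : ∀ A, Pre v x p r S A → s ∈ A := by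
    intro A hA
    rw [hA.mem s (fun h => hvS (h ▸ hs)) (fun h => hxS 1 (by decide) (h ▸ hs))
      (fun h => hxS 2 (by decide) (h ▸ hs)),
      q_of_ne D (fun h => hsr 1 (by decide) (h ▸ hs)) (fun h => hsr 2 (by decide) (h ▸ hs))]
    exact hs
  have hcard3 : ∀ (B : Finset V) (a b c : V), a ∈ B → b ∈ B → c ∈ B → a ≠ b → a ≠ c → b ≠ c →
      3 ≤ B.card := by
    intro B a b c ha hb hc hab hac hbc
    have : ({a, b, c} : Finset V) ⊆ B := by
      intro u hu
      simp only [mem_insert, mem_singleton] at hu
      rcases hu with h | h | h <;> rw [h] <;> assumption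
    refine le_trans ?_ (card_le_card this)
    rw [card_eq_three.2 ⟨a, b, c, hab, hac, hbc, rfl⟩]
  have x12 : x 1 ≠ x 2 := fun h => absurd (D.x_inj h) (by decide)
  have x01 : x 0 ≠ x 1 := fun h => absurd (D.x_inj h) (by decide)
  have x02 : x 0 ≠ x 2 := fun h => absurd (D.x_inj h) (by decide)
  by_cases hM1 : p 1 ∈ S
  · by_cases hM2 : p 2 ∈ S
    · -- both
      obtain ⟨A, hA, hvA⟩ := exists_pre D S True
      have hvA' : v ∈ A := hvA.2 trivial
      have hx0A : x 0 ∉ A := fun h => hx0 ((pre_x0 D hA).1 h)
      have hx1A : x 1 ∈ A := hA.mem1.2 hM1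
      have hx2A : x 2 ∈ A := hA.mem2.2 hM2
      have hc := cut_le D hA
      rw [Fin.sum_univ_three] at hc
      simp only [hvA', hx0A, hx1A, hx2A, iff_false, not_true_eq_false, if_false, if_true] at hc
      rw [if_pos hM1, if_pos hM2] at hcut
      have hA5 : cut G A ≤ 5 := by omega
      -- the complement has at most three elements
      have hAcard : 4 ≤ A.card := by
        have : ({v, x 1, x 2, p 1} : Finset V) ⊆ A := by
          intro u hu
          simp only [mem_insert, mem_singleton] at hu
          rcases hu with h | h | h | h <;> rw [h]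
          · exact hvA'
          · exact hx1A
          · exact hx2A
          · exact (pre_p D hA 1).2 hM1
        refine le_trans ?_ (card_le_card this)
        rw [card_insert_of_notMem, card_insert_of_notMem, card_insert_of_notMem, card_singleton]
        · rw [mem_singleton]; exact (p_ne_x D 1 2).symm
        · simp only [mem_insert, mem_singleton, not_or]
          exact ⟨x12, (p_ne_x D 1 1).symm⟩
        · simp only [mem_insert, mem_singleton, not_or]
          exact ⟨v_ne_x D 1, v_ne_x D 2, (D.pv 1).symm⟩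
      have hAc : Aᶜ.card ≤ 3 := by
        by_contra hlt
        have h4 : cut G A ≠ 5 := by
          intro h5
          exact hx0A (((D.good A h5 hAcard (by omega)).1).1 hvA')
        rcases D.c5 A (by omega) with h | h <;> omega
      -- `t` and `t'` are `p 0` and `r 0` in some order, `t ∉ S`
      have hend : ∀ t t' : V, side t = side v → t ≠ v → G.Adj (x 0) t → t ∉ S →
          (∀ i : Fin 3, i ≠ 0 → t ≠ p i ∧ t ≠ r i) → side t' = side v → t' ≠ v → G.Adj (x 0) t' →
          (∀ i : Fin 3, i ≠ 0 → t' ≠ p i ∧ t' ≠ r i) → t ≠ t' →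
          (dfF G v x p r).Adj t' (x 0) → False := by
        intro t t' hts htv hxt htS htp hts' htv' hxt' htp' htt' hxtF
        obtain ⟨l, l', hxl, hxl', hll, htl, htl'⟩ := other2 (D.lev.cubic t) hxt.symm
        have htx : ∀ i, ∀ l : V, G.Adj t l → x 0 ≠ l → l ≠ x i := by
          intro i l htl hxl h
          rw [h] at htl
          exact hxl (by rw [h, x_uniq D htv hxt htl.symm])
        have hls : ∀ l : V, G.Adj t l → side l ≠ side v := fun l hl h =>
          D.lev.bip _ _ hl (hts.trans h.symm)
        have htF : ∀ l : V, G.Adj t l → x 0 ≠ l → (dfF G v x p r).Adj l t := by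
          intro l hl hx
          rw [adj_line D (hls l hl) (fun i => htx i l hl hx)]
          refine ⟨t, hl.symm, q_of_ne D (htp 1 (by decide)).2 (htp 2 (by decide)).2⟩
        -- a line of `S` adjacent to `t` is `z`
        have hlz : ∀ l : V, G.Adj t l → x 0 ≠ l → l ∈ S → l = z := by
          intro l hl hx hlS
          by_contra hlz
          exact htS (hfull l hlS (fun e => hls l hl (by rw [e, hy])) hlz
            (fun e => hls l hl (by rw [e, side_p D])) (fun e => hls l hl (by rw [e, side_p D]))
            t (htF l hl hx))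
        -- a line `m` adjacent to `t` which is not in `S`
        obtain ⟨m, htm, hxm, hmS⟩ : ∃ m, G.Adj t m ∧ x 0 ≠ m ∧ m ∉ S := by
          by_cases hl1 : l ∈ S
          · refine ⟨l', htl', hxl', fun h => hll ?_⟩
            rw [hlz l htl hxl hl1, hlz l' htl' hxl' h]
          · exact ⟨l, htl, hxl, hl1⟩
        have hmx : ∀ i, m ≠ x i := fun i => htx i m htm hxm
        have hmA : m ∉ A := fun h => hmS ((pre_line D hA (hls m htm) hmx).1 h)
        have htA : t ∉ A := by
          intro h
          rw [hA.mem t htv (ne_x_of_side D hts 1) (ne_x_of_side D hts 2),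
            q_of_ne D (htp 1 (by decide)).2 (htp 2 (by decide)).2] at h
          exact htS h
        have hcompl : Aᶜ = {x 0, t, m} := by
          symm
          refine Finset.eq_of_subset_of_card_le ?_ ?_
          · intro u hu
            simp only [mem_insert, mem_singleton] at hu
            rw [mem_compl]
            rcases hu with h | h | h <;> rw [h]
            · exact hx0A
            · exact htA
            · exact hmA
          · refine hAc.trans ?_
            rw [card_eq_three.2 ⟨x 0, t, m, (ne_x_of_side D hts 0).symm, hxm, htm.ne, rfl⟩]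
        have hmemA : ∀ w : V, side w = side v → w ≠ t → w ∈ A := by
          intro w hws hwt
          by_contra h
          have : w ∈ Aᶜ := mem_compl.2 h
          rw [hcompl] at this
          simp only [mem_insert, mem_singleton] at this
          rcases this with h | h | h
          · exact ne_x_of_side D hws 0 h
          · exact hwt h
          · exact hls m htm (by rw [← h, hws])
        -- `t' = y`
        have hty : t' = y := by
          by_contra hne
          have h1 : t' ∈ S := by
            have := (hA.mem t' htv' (ne_x_of_side D hts' 1) (ne_x_of_side D hts' 2)).1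
              (hmemA t' hts' htt'.symm)
            rwa [q_of_ne D (htp' 1 (by decide)).2 (htp' 2 (by decide)).2] at this
          exact hx0 (hfull t' h1 hne (fun e => hz (by rw [← e, hts'])) (htp' 1 (by decide)).1
            (htp' 2 (by decide)).1 (x 0) hxtF)
        -- the two other neighbours of `m`
        obtain ⟨w₁, w₂, ht1, ht2, h12, hm1, hm2⟩ := other2 (D.lev.cubic m) htm.symm
        have hw : ∀ w : V, G.Adj m w → t ≠ w → ∃ i, i ≠ 0 ∧ G.Adj (x i) w ∧ w ≠ v := by
          intro w hmw htw
          have hws : side w = side v := bool_eq (fun h => D.lev.bip _ _ hmw h.symm) (hls m htm)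
          have hwv : w ≠ v := by
            rintro rfl
            obtain ⟨i, hi⟩ := nbr_v D hmw.symm
            exact hmx i hi
          have hqS : dfQ p r w ∈ S := (hA.mem w hwv (ne_x_of_side D hws 1)
            (ne_x_of_side D hws 2)).1 (hmemA w hws htw.symm)
          have hqm : (dfF G v x p r).Adj m (dfQ p r w) := by
            rw [adj_line D (hls m htm) hmx]
            exact ⟨w, hmw, rfl⟩
          rcases q_cases D w with hq | hq | hq
          · by_cases hp1 : w = p 1
            · exact ⟨1, by decide, by rw [hp1]; exact D.xp 1, hwv⟩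
            by_cases hp2 : w = p 2
            · exact ⟨2, by decide, by rw [hp2]; exact D.xp 2, hwv⟩
            exfalso
            rw [hq.1] at hqS hqm
            have hwy : w = y := by
              by_contra hne
              exact hmS (hfull w hqS hne (fun e => hz (by rw [← e, hws])) hp1 hp2 m hqm.symm)
            have hwt : w = t' := hwy.trans hty.symm
            rw [hwt] at hmw
            exact hxm (D.lev.noC4 t t' htt' (x 0) m hxt.symm hxt'.symm htm hmw.symm)
          · exact ⟨1, by decide, by rw [hq.1]; exact D.xr 1, hwv⟩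
          · exact ⟨2, by decide, by rw [hq.1]; exact D.xr 2, hwv⟩
        obtain ⟨i, hi, c1, c2⟩ := hw w₁ hm1 ht1
        obtain ⟨j, hj, d1, d2⟩ := hw w₂ hm2 ht2
        exact hmx i (two_fib D c1 d1 c2 d2 h12 hm1 hm2)
      have hp0x : (dfF G v x p r).Adj (p 0) (x 0) := ((adj_x0 D).2 (Or.inl rfl)).symm
      have hr0x : (dfF G v x p r).Adj (r 0) (x 0) := ((adj_x0 D).2 (Or.inr rfl)).symm
      have hpp : ∀ i : Fin 3, i ≠ 0 → p 0 ≠ p i ∧ p 0 ≠ r i := fun i hi =>
        ⟨p_ne_p D hi.symm, p_ne_r D 0 i⟩
      have hrr : ∀ i : Fin 3, i ≠ 0 → r 0 ≠ p i ∧ r 0 ≠ r i := fun i hi =>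
        ⟨(p_ne_r D i 0).symm, r_ne_r D hi.symm⟩
      by_cases hp0 : p 0 ∈ S
      · by_cases hr0 : r 0 ∈ S
        · have e1 : p 0 = y := by
            by_contra hne
            exact hx0 (hfull _ hp0 hne (fun e => hz (by rw [← e, side_p D])) (hpp 1 (by decide)).1
              (hpp 2 (by decide)).1 _ hp0x)
          have e2 : r 0 = y := by
            by_contra hne
            exact hx0 (hfull _ hr0 hne (fun e => hz (by rw [← e, side_r D])) (hrr 1 (by decide)).1
              (hrr 2 (by decide)).1 _ hr0x)
          exact D.pr 0 (e1.trans e2.symm)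
        · exact hend (r 0) (p 0) (side_r D 0) (D.rv 0) (D.xr 0) hr0 hrr (side_p D 0) (D.pv 0)
            (D.xp 0) hpp (D.pr 0).symm hp0x
      · exact hend (p 0) (r 0) (side_p D 0) (D.pv 0) (D.xp 0) hp0 hpp (side_r D 0) (D.rv 0)
          (D.xr 0) hrr (D.pr 0) hr0x
    · -- only `p 1`
      obtain ⟨A, hA, hvA⟩ := exists_pre D S False
      have hvA' : v ∉ A := fun h => hvA.1 h
      have hx0A : x 0 ∉ A := fun h => hx0 ((pre_x0 D hA).1 h)
      have hx1A : x 1 ∈ A := hA.mem1.2 hM1
      have hx2A : x 2 ∉ A := fun h => hM2 (hA.mem2.1 h)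
      have hc := cut_le D hA
      rw [Fin.sum_univ_three] at hc
      simp only [hvA', hx0A, hx1A, hx2A, iff_true, if_false, if_true] at hc
      rw [if_pos hM1, if_neg hM2] at hcut
      have h1 := hcard3 A (x 1) (p 1) (r 1) hx1A ((pre_p D hA 1).2 hM1) ((pre_r1 D hA).2 hM1)
        (p_ne_x D 1 1).symm (r_ne_x D 1 1).symm (D.pr 1)
      have h2 := hcard3 Aᶜ v (x 0) (x 2) (mem_compl.2 hvA') (mem_compl.2 hx0A) (mem_compl.2 hx2A)
        (v_ne_x D 0) (v_ne_x D 2) x02
      rcases D.c5 A (by omega) with h | h <;> omega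
  · by_cases hM2 : p 2 ∈ S
    · -- only `p 2`
      obtain ⟨A, hA, hvA⟩ := exists_pre D S False
      have hvA' : v ∉ A := fun h => hvA.1 h
      have hx0A : x 0 ∉ A := fun h => hx0 ((pre_x0 D hA).1 h)
      have hx1A : x 1 ∉ A := fun h => hM1 (hA.mem1.1 h)
      have hx2A : x 2 ∈ A := hA.mem2.2 hM2
      have hc := cut_le D hA
      rw [Fin.sum_univ_three] at hc
      simp only [hvA', hx0A, hx1A, hx2A, iff_true, if_false, if_true] at hc
      rw [if_neg hM1, if_pos hM2] at hcut
      have h1 := hcard3 A (x 2) (p 2) (r 2) hx2A ((pre_p D hA 2).2 hM2) ((pre_r2 D hA).2 hM2)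
        (p_ne_x D 2 2).symm (r_ne_x D 2 2).symm (D.pr 2)
      have h2 := hcard3 Aᶜ v (x 0) (x 1) (mem_compl.2 hvA') (mem_compl.2 hx0A) (mem_compl.2 hx1A)
        (v_ne_x D 0) (v_ne_x D 1) x01
      rcases D.c5 A (by omega) with h | h <;> omega
    · -- none
      obtain ⟨A, hA, hvA⟩ := exists_pre D S False
      have hvA' : v ∉ A := fun h => hvA.1 h
      have hx0A : x 0 ∉ A := fun h => hx0 ((pre_x0 D hA).1 h)
      have hx1A : x 1 ∉ A := fun h => hM1 (hA.mem1.1 h)
      have hx2A : x 2 ∉ A := fun h => hM2 (hA.mem2.1 h)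
      have hc := cut_le D hA
      rw [Fin.sum_univ_three] at hc
      simp only [hvA', hx0A, hx1A, hx2A, if_true] at hc
      rw [if_neg hM1, if_neg hM2] at hcut
      have := D.lev.c3 A ⟨s, hsA A hA⟩ ⟨v, mem_compl.2 hvA'⟩
      omega

omit D in
theorem dg_addE_le (F : SimpleGraph V) (y z : V) (S : Finset V) (a : V) :
    dg (addE F y z) S a ≤ dg F S a + ((if a = y then 1 else 0) + if a = z then 1 else 0) := by
  classical
  have hsub : S.filter (fun u => (addE F y z).Adj a u) ⊆
      S.filter (fun u => F.Adj a u) ∪ ((if a = y then {z} else ∅) ∪ if a = z then {y} else ∅) := by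
    intro u hu
    rw [mem_filter, SimpleGraph.sup_adj, SimpleGraph.edge_adj] at hu
    rw [mem_union, mem_union, mem_filter]
    rcases hu with ⟨h0, h | ⟨⟨h1, h2⟩ | ⟨h1, h2⟩, -⟩⟩
    · exact Or.inl ⟨h0, h⟩
    · right; left
      rw [if_pos h1, mem_singleton]; exact h2
    · right; right
      rw [if_pos h1, mem_singleton]; exact h2
  have h1 := (card_le_card hsub).trans (card_union_le _ _)
  have h2 : ((if a = y then {z} else ∅) ∪ if a = z then {y} else ∅ : Finset V).card ≤
      (if a = y then 1 else 0) + if a = z then 1 else 0 := by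
    refine (card_union_le _ _).trans (Nat.add_le_add ?_ ?_)
    · split_ifs <;> simp
    · split_ifs <;> simp
  have h4 : (S.filter (fun u => (addE F y z).Adj a u)).card = dg (addE F y z) S a := by
    unfold dg; congr
  have h5 : (S.filter (fun u => F.Adj a u)).card = dg F S a := by
    unfold dg; congr
  omega

end

end DF

variable {V : Type} [Fintype V] [DecidableEq V]
variable {G : SimpleGraph V} {side : V → Bool} {v : V} {x p r : Fin 3 → V}

theorem dfComb_bip (D : DFData G side v x p r) : Bip (dfF G v x p r) side := DF.bipF D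

theorem dfComb_noC4 (D : DFData G side v x p r) : NoC4 (dfF G v x p r) := DF.noC4F D

theorem dfComb_twoDeg (D : DFData G side v x p r) : TwoDeg (dfF G v x p r) := by
  intro S hS
  by_contra h
  push Not at h
  exact DF.core_empty D (y := v) (z := x 1) rfl (DF.side_x D 1)
    (fun h => absurd (D.x_inj h) (by decide)) hS (fun a ha => by have := h a ha; omega)

theorem dfComb_pairs (D : DFData G side v x p r) (y z : V) (hyz : side y ≠ side z)
    (_ : ¬ (dfF G v x p r).Adj y z) (hy0 : y ≠ x 0) (hz0 : z ≠ x 0) :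
    TwoDeg (addE (dfF G v x p r) y z) := by
  intro S hS
  by_contra h
  push Not at h
  have key : ∀ a ∈ S, 3 ≤ dg (dfF G v x p r) S a +
      ((if a = y then 1 else 0) + if a = z then 1 else 0) := fun a ha => by
    have h1 := h a ha
    have h2 := DF.dg_addE_le (dfF G v x p r) y z S a
    omega
  by_cases hs : side y = side v
  · exact DF.core_empty D hs (fun h' => hyz (hs.trans h'.symm)) hz0 hS key
  · have hsz : side z = side v := DF.bool_eq (fun h' => hyz h'.symm) hs
    exact DF.core_empty D hsz hs hy0 hS (fun a ha => by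
      have := key a ha
      rw [add_comm (if a = y then 1 else 0)] at this
      exact this)

end N3
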