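import Pool.Agent.Lib_n3.DFBase
import Pool.Agent.Lib_n3.DFCombA

/-!
# The fields `full` and `two` of `DFComb` (MP_07e12a_co)
-/

open scoped Matrix Topology
open Finset

namespace N3

namespace DF

variable {V : Type} [Fintype V] [DecidableEq V]

omit [Fintype V] in
theorem card3 {A : Finset V} {a b c : V} (ha : a ∈ A) (hb : b ∈ A) (hc : c ∈ A) (h1 : a ≠ b)
    (h2 : a ≠ c) (h3 : b ≠ c) : 3 ≤ A.card := by
  have h : ({a, b, c} : Finset V) ⊆ A := by
    intro u hu
    simp only [mem_insert, mem_singleton] at hu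
    rcases hu with rfl | rfl | rfl <;> assumption
  have := card_le_card h
  rw [card_eq_three.2 ⟨a, b, c, h1, h2, h3, rfl⟩] at this
  exact this

omit [Fintype V] in
theorem card4 {A : Finset V} {a b c d : V} (ha : a ∈ A) (hb : b ∈ A) (hc : c ∈ A) (hd : d ∈ A)
    (h1 : a ≠ b) (h2 : a ≠ c) (h3 : a ≠ d) (h4 : b ≠ c) (h5 : b ≠ d) (h6 : c ≠ d) :
    4 ≤ A.card := by
  have h7 : 3 ≤ (A.erase a).card :=
    card3 (mem_erase.2 ⟨h1.symm, hb⟩) (mem_erase.2 ⟨h2.symm, hc⟩) (mem_erase.2 ⟨h3.symm, hd⟩)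
      h4 h5 h6
  rw [card_erase_of_mem ha] at h7
  omega

open Classical in
/-- the support of a graph -/
noncomputable def supp (T : SimpleGraph V) : Finset V := univ.filter (fun u => ∃ w, T.Adj u w)

theorem mem_supp {T : SimpleGraph V} {u : V} : u ∈ supp T ↔ ∃ w, T.Adj u w := by
  classical
  unfold supp
  rw [mem_filter]
  simp

theorem supp_of {T : SimpleGraph V} {u w : V} (h : T.Adj u w) : u ∈ supp T := mem_supp.2 ⟨w, h⟩

/-- if all neighbours of a vertex of degree at least three of `T` are among `a, b, c`, they are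
neighbours -/
theorem all3 {T : SimpleGraph V} {u a b c : V} (h3 : 3 ≤ dg T univ u)
    (h : ∀ w, T.Adj u w → w = a ∨ w = b ∨ w = c) : T.Adj u a ∧ T.Adj u b ∧ T.Adj u c := by
  classical
  unfold dg at h3
  have hsub : univ.filter (fun w => T.Adj u w) ⊆ {a, b, c} := by
    intro w hw
    rw [mem_filter] at hw
    simp only [mem_insert, mem_singleton]
    exact h w hw.2
  have he := Finset.eq_of_subset_of_card_le hsub (card_le_three.trans (by convert h3))
  have key : ∀ w ∈ ({a, b, c} : Finset V), T.Adj u w := by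
    intro w hw
    rw [← he, mem_filter] at hw
    exact hw.2
  exact ⟨key a (by simp), key b (by simp), key c (by simp)⟩

/-- the neighbours in `T` of a vertex are all vertices of a set with at most three elements -/
theorem all_of {T : SimpleGraph V} {u : V} {N : Finset V} (h3 : 3 ≤ dg T univ u)
    (hN : N.card ≤ 3) (h : ∀ w, T.Adj u w → w ∈ N) : ∀ w ∈ N, T.Adj u w := by
  classical
  unfold dg at h3
  have hsub : univ.filter (fun w => T.Adj u w) ⊆ N := by
    intro w hw
    rw [mem_filter] at hw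
    exact h w hw.2
  have he := Finset.eq_of_subset_of_card_le hsub (hN.trans (by convert h3))
  intro w hw
  rw [← he, mem_filter] at hw
  exact hw.2

variable {G : SimpleGraph V} {side : V → Bool} {v : V} {x p r : Fin 3 → V}

section
variable (D : DFData G side v x p r)
include D

/-- a graph `T` of minimum degree three contained in `dfF` plus edges from `x 0` to `Y` -/
def Sit (T : SimpleGraph V) (G : SimpleGraph V) (side : V → Bool) (v : V) (x p r : Fin 3 → V)
    (Y : Finset V) : Prop :=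
  (∀ a b, T.Adj a b → (dfF G v x p r).Adj a b ∨ (a = x 0 ∧ b ∈ Y) ∨ (b = x 0 ∧ a ∈ Y)) ∧
    Core3 T ∧ (∀ y ∈ Y, side y = side v) ∧ x 0 ∈ supp T

/-- a nontrivial `T` contains `x 0` -/
theorem x0_mem (hF : TwoDeg (dfF G v x p r)) {T : SimpleGraph V} {Y : Finset V}
    (hT : ∀ a b, T.Adj a b → (dfF G v x p r).Adj a b ∨ (a = x 0 ∧ b ∈ Y) ∨ (b = x 0 ∧ a ∈ Y))
    (hC : Core3 T) (hne : T ≠ ⊥) : x 0 ∈ supp T := by
  classical
  by_contra h0
  have hTF : ∀ a b, T.Adj a b → (dfF G v x p r).Adj a b := by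
    intro a b hab
    rcases hT a b hab with h | ⟨h, -⟩ | ⟨h, -⟩
    · exact h
    · exact absurd (supp_of (h ▸ hab)) h0
    · exact absurd (supp_of (h ▸ hab.symm)) h0
  have hSne : (supp T).Nonempty := by
    by_contra h
    rw [not_nonempty_iff_eq_empty] at h
    apply hne
    rw [eq_bot_iff]
    intro a b hab
    have := supp_of hab
    rw [h] at this
    exact absurd this (notMem_empty a)
  obtain ⟨u, hu, h2⟩ := hF (supp T) hSne
  obtain ⟨w, hw⟩ := mem_supp.1 hu
  have h3 := hC u w hw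
  unfold dg at h2 h3
  have hsub : univ.filter (fun w => T.Adj u w) ⊆
      (supp T).filter (fun w => (dfF G v x p r).Adj u w) := by
    intro b hb
    rw [mem_filter] at hb ⊢
    exact ⟨supp_of hb.2.symm, hTF _ _ hb.2⟩
  have h4 := card_le_card hsub
  have h5 : 3 ≤ (univ.filter (fun w => T.Adj u w)).card := by convert h3
  have h6 : ((supp T).filter (fun w => (dfF G v x p r).Adj u w)).card ≤ 2 := by convert h2
  omega

theorem x0_notin {Y : Finset V} (hY : ∀ y ∈ Y, side y = side v) : x 0 ∉ Y := fun h =>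
  side_x D 0 (hY _ h)

/-- degrees in `dfF` inside the support -/
theorem core_dg {T : SimpleGraph V} {Y : Finset V} (h : Sit T G side v x p r Y) :
    ∀ a ∈ supp T, 3 ≤ dg (dfF G v x p r) (supp T) a +
      ((if a = x 0 then Y.card else 0) + (if a ∈ Y then 1 else 0)) := by
  classical
  obtain ⟨hT, hC, hY, -⟩ := h
  intro a ha
  obtain ⟨w, hw⟩ := mem_supp.1 ha
  have h3 := hC a w hw
  unfold dg at h3 ⊢
  have hsub : univ.filter (fun w => T.Adj a w) ⊆
      ((supp T).filter (fun w => (dfF G v x p r).Adj a w)) ∪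
        ((if a = x 0 then Y else ∅) ∪ (if a ∈ Y then {x 0} else ∅)) := by
    intro b hb
    rw [mem_filter] at hb
    rw [mem_union, mem_union, mem_filter]
    rcases hT _ _ hb.2 with h | ⟨h, h'⟩ | ⟨h, h'⟩
    · exact Or.inl ⟨supp_of hb.2.symm, h⟩
    · right; left
      rw [if_pos h]
      exact h'
    · right; right
      rw [if_pos h', h]
      simp
  have h4 := (card_le_card hsub).trans ((card_union_le _ _).trans
    (Nat.add_le_add_left (card_union_le _ _) _))
  have h5 : 3 ≤ (univ.filter (fun w => T.Adj a w)).card := by convert h3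
  have e1 : (if a = x 0 then Y else ∅).card = if a = x 0 then Y.card else 0 := by
    split_ifs <;> simp
  have e2 : (if a ∈ Y then ({x 0} : Finset V) else ∅).card = if a ∈ Y then 1 else 0 := by
    split_ifs <;> simp
  rw [e1, e2] at h4
  refine h5.trans (h4.trans (le_of_eq ?_))
  congr 2

/-- the cut -/
theorem sit_cut {T : SimpleGraph V} {Y : Finset V} (h : Sit T G side v x p r Y) {A : Finset V}
    (hA : Pre v x p r (supp T) A) (hv : v ∈ A) : cut G A ≤ 2 * Y.card + 1 := by
  classical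
  have h1 := cutF_le D (supp T) _ (core_dg D h)
  have h2 := cut_le D hA
  have hx0 : x 0 ∈ supp T := h.2.2.2
  rw [if_pos hx0, Finset.sum_add_distrib] at h1
  have e1 : (∑ a ∈ supp T, if a = x 0 then Y.card else 0) = Y.card := by
    rw [Finset.sum_ite_eq', if_pos hx0]
  have e2 : (∑ a ∈ supp T, if a ∈ Y then 1 else 0) ≤ Y.card := by
    rw [← Finset.card_filter]
    exact card_le_card fun u hu => (mem_filter.1 hu).2
  rw [e1] at h1
  rw [Fin.sum_univ_three] at h2
  have f0 : (if (v ∈ A ↔ x 0 ∈ A) then 0 else 1) = 0 := by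
    rw [if_pos]
    rw [pre_x0 D hA]
    exact ⟨fun _ => hx0, fun _ => hv⟩
  have f1 : (if (v ∈ A ↔ x 1 ∈ A) then 0 else 1) + (if p 1 ∈ supp T then 1 else 0) = 1 := by
    have h1 := hA.mem1
    by_cases hp : p 1 ∈ supp T
    · have h1' := h1.2 hp
      simp [hp, hv, h1']
    · have h1' : x 1 ∉ A := fun h' => hp (h1.1 h')
      simp [hp, hv, h1']
  have f2 : (if (v ∈ A ↔ x 2 ∈ A) then 0 else 1) + (if p 2 ∈ supp T then 1 else 0) = 1 := by
    have h1 := hA.mem2
    by_cases hp : p 2 ∈ supp T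
    · have h1' := h1.2 hp
      simp [hp, hv, h1']
    · have h1' : x 2 ∉ A := fun h' => hp (h1.1 h')
      simp [hp, hv, h1']
  omega

/-- all neighbours in `G` of a line of the support -/
theorem sit_line {T : SimpleGraph V} {Y : Finset V} (h : Sit T G side v x p r Y) {l : V}
    (hl : l ∈ supp T) (hs : side l ≠ side v) (h0 : l ≠ x 0) :
    (∀ i, l ≠ x i) ∧ ∀ w, G.Adj l w → T.Adj l (dfQ p r w) := by
  classical
  obtain ⟨hT, hC, hY, -⟩ := h
  obtain ⟨w, hw⟩ := mem_supp.1 hl
  have hTF : ∀ b, T.Adj l b → (dfF G v x p r).Adj l b := by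
    intro b hb
    rcases hT _ _ hb with h | ⟨h, -⟩ | ⟨-, h⟩
    · exact h
    · exact absurd h h0
    · exact absurd (hY _ h) hs
  have hx : ∀ i, l ≠ x i := by
    rintro i rfl
    have hi : i ≠ 0 := by
      rintro rfl
      exact h0 rfl
    exact not_adj_x D hi _ (hTF _ hw)
  refine ⟨hx, ?_⟩
  have h3 := hC l w hw
  have hN : ((univ.filter (fun w => G.Adj l w)).image (dfQ p r)).card ≤ 3 := by
    refine card_image_le.trans (le_of_eq ?_)
    have := D.lev.cubic l
    unfold dg at this
    convert this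
  have hall := all_of h3 hN (fun b hb => by
    obtain ⟨w, h1, h2⟩ := (adj_line D hs hx).1 (hTF b hb)
    exact mem_image.2 ⟨w, mem_filter.2 ⟨mem_univ _, h1⟩, h2⟩)
  intro w hw
  exact hall _ (mem_image.2 ⟨w, mem_filter.2 ⟨mem_univ _, hw⟩, rfl⟩)

/-- all neighbours in `G` of an ordinary point of the support -/
theorem sit_point {T : SimpleGraph V} {Y : Finset V} (h : Sit T G side v x p r Y) {s : V}
    (hl : s ∈ supp T) (hs : side s = side v) (h1 : s ≠ p 1) (h2 : s ≠ p 2) (hy : s ∉ Y) :
    ∀ w, G.Adj s w → T.Adj s w := by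
  classical
  obtain ⟨hT, hC, hY, -⟩ := h
  obtain ⟨w, hw⟩ := mem_supp.1 hl
  have hTF : ∀ b, T.Adj s b → G.Adj s b := by
    intro b hb
    rcases hT _ _ hb with h | ⟨h, -⟩ | ⟨-, h⟩
    · exact adj_point D h h1 h2 hs
    · exact absurd h (ne_x_of_side D hs 0)
    · exact absurd h hy
  have h3 := hC s w hw
  have hN : (univ.filter (fun w => G.Adj s w)).card ≤ 3 := by
    have := D.lev.cubic s
    unfold dg at this
    exact le_of_eq (by convert this)
  have hall := all_of h3 hN (fun b hb => mem_filter.2 ⟨mem_univ _, hTF b hb⟩)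
  intro w hw
  exact hall _ (mem_filter.2 ⟨mem_univ _, hw⟩)

/-- all neighbours of a line of `A` other than `x 0` are in `A` -/
theorem sit_lineA {T : SimpleGraph V} {Y : Finset V} (h : Sit T G side v x p r Y) {A : Finset V}
    (hA : Pre v x p r (supp T) A) (hv : v ∈ A) {l w : V} (hl : l ∈ A) (hs : side l ≠ side v)
    (h0 : l ≠ x 0) (hw : G.Adj l w) : w ∈ A := by
  have hws : side w = side v := bool_eq (fun h => D.lev.bip _ _ hw h.symm) hs
  by_cases hv' : w = v
  · rw [hv']; exact hv
  by_cases h1 : l = x 1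
  · rw [h1] at hl hw
    rcases nbr_x D hw with h2 | h2 | h2
    · rw [h2]; exact hv
    · rw [h2, pre_p D hA]; exact hA.mem1.1 hl
    · rw [h2, pre_r1 D hA]; exact hA.mem1.1 hl
  by_cases h2 : l = x 2
  · rw [h2] at hl hw
    rcases nbr_x D hw with h2 | h2 | h2
    · rw [h2]; exact hv
    · rw [h2, pre_p D hA]; exact hA.mem2.1 hl
    · rw [h2, pre_r2 D hA]; exact hA.mem2.1 hl
  have hx : ∀ i, l ≠ x i := by
    intro i
    fin_cases i
    · exact h0
    · exact h1
    · exact h2
  rw [pre_line D hA hs hx] at hl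
  have h3 := (sit_line D h hl hs h0).2 w hw
  rw [hA.mem w hv' (ne_x_of_side D hws 1) (ne_x_of_side D hws 2)]
  exact supp_of h3.symm

/-- a point of `A` adjacent to a line not in `A` (and not an `x i`) is in `Y` or one of `p 1, r 1, p 2, r 2` -/
theorem sit_star {T : SimpleGraph V} {Y : Finset V} (h : Sit T G side v x p r Y) {A : Finset V}
    (hA : Pre v x p r (supp T) A) {l w : V} (hl : l ∉ A) (hs : side l ≠ side v)
    (hx : ∀ i, l ≠ x i) (hw : G.Adj l w) (hwA : w ∈ A) :
    w ∈ Y ∨ (w ≠ v ∧ ∃ i, G.Adj (x i) w) := by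
  have hws : side w = side v := bool_eq (fun h => D.lev.bip _ _ hw h.symm) hs
  have hv' : w ≠ v := by
    rintro rfl
    obtain ⟨i, hi⟩ := nbr_v D hw.symm
    exact hx i hi
  have hq := (hA.mem w hv' (ne_x_of_side D hws 1) (ne_x_of_side D hws 2)).1 hwA
  by_cases hY : w ∈ Y
  · exact Or.inl hY
  right
  refine ⟨hv', ?_⟩
  rcases q_cases D w with ⟨h1, h2, h3⟩ | ⟨h1, -⟩ | ⟨h1, -⟩
  · rw [h1] at hq
    by_cases hp1 : w = p 1
    · exact ⟨1, by rw [hp1]; exact D.xp 1⟩
    by_cases hp2 : w = p 2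
    · exact ⟨2, by rw [hp2]; exact D.xp 2⟩
    exfalso
    have := sit_point D h hq hws hp1 hp2 hY l hw.symm
    exact hl ((pre_line D hA hs hx).2 (supp_of this.symm))
  · exact ⟨1, by rw [h1]; exact D.xr 1⟩
  · exact ⟨2, by rw [h1]; exact D.xr 2⟩

/-- if `p i` (`i = 1, 2`) is not in the support, `p i, r i, x i` are not in `A` -/
theorem pre_out {S A : Finset V} (hA : Pre v x p r S A) {i : Fin 3} (hi : i ≠ 0)
    (h : p i ∉ S) : p i ∈ Aᶜ ∧ r i ∈ Aᶜ ∧ x i ∈ Aᶜ := by
  rw [mem_compl, mem_compl, mem_compl]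
  rcases fin3_ne0 i hi with rfl | rfl
  · exact ⟨fun h' => h ((pre_p D hA 1).1 h'), fun h' => h ((pre_r1 D hA).1 h'),
      fun h' => h (hA.mem1.1 h')⟩
  · exact ⟨fun h' => h ((pre_p D hA 2).1 h'), fun h' => h ((pre_r2 D hA).1 h'),
      fun h' => h (hA.mem2.1 h')⟩

/-- `addE` as a situation -/
theorem addE_sit {y a b : V} (F : SimpleGraph V) (h : (addE F (x 0) y).Adj a b) :
    F.Adj a b ∨ (a = x 0 ∧ b = y) ∨ (b = x 0 ∧ a = y) := by
  simp only [SimpleGraph.sup_adj, SimpleGraph.edge_adj] at h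
  rcases h with h | ⟨⟨h1, h2⟩ | ⟨h1, h2⟩, -⟩
  · exact Or.inl h
  · exact Or.inr (Or.inl ⟨h1, h2⟩)
  · exact Or.inr (Or.inr ⟨h2, h1⟩)

end

end DF

open DF

section
variable {V : Type} [Fintype V] [DecidableEq V]
variable {G : SimpleGraph V} {side : V → Bool} {v : V} {x p r : Fin 3 → V}

/-- the field `full` -/
theorem dfComb_full (D : DFData G side v x p r) (hF : TwoDeg (dfF G v x p r)) :
    ∀ y, side y ≠ side (x 0) → ¬ (dfF G v x p r).Adj (x 0) y →
    ∀ T ≤ addE (dfF G v x p r) (x 0) y, T ≠ ⊥ → Core3 T → T = addE (dfF G v x p r) (x 0) y := by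
  classical
  intro y hys hy T hTle hne hC
  have hysv : side y = side v := bool_eq hys (side_x D 0)
  have hT : ∀ a b, T.Adj a b → (dfF G v x p r).Adj a b ∨ (a = x 0 ∧ b ∈ ({y} : Finset V)) ∨
      (b = x 0 ∧ a ∈ ({y} : Finset V)) := by
    intro a b hab
    simpa using addE_sit D _ (hTle hab)
  have hx0 := x0_mem D hF hT hC hne
  have h : Sit T G side v x p r {y} := ⟨hT, hC, by simpa using hysv, hx0⟩
  obtain ⟨A, hA, hvA⟩ := exists_pre (v := v) (x := x) (p := p) (r := r) D (supp T) True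
  have hv : v ∈ A := hvA.2 trivial
  have hcut := sit_cut D h hA hv
  rw [card_singleton] at hcut
  -- the neighbours of `x 0`
  obtain ⟨w, hw⟩ := mem_supp.1 hx0
  have h3 := hC _ _ hw
  obtain ⟨t0, t1, t2⟩ := all3 (a := p 0) (b := r 0) (c := y) h3 (by
    intro b hb
    rcases hT _ _ hb with h | ⟨-, h⟩ | ⟨-, h⟩
    · rcases (adj_x0 D).1 h with h | h
      · exact Or.inl h
      · exact Or.inr (Or.inl h)
    · exact Or.inr (Or.inr (by simpa using h))
    · exact absurd (by simpa using h) (fun e : x 0 = y => hys (by rw [e])))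
  have mx0 : x 0 ∈ A := (pre_x0 D hA).2 hx0
  have mp0 : p 0 ∈ A := (pre_p D hA 0).2 (supp_of t0.symm)
  have mr0 : r 0 ∈ A := (pre_r0 D hA).2 (supp_of t1.symm)
  have hAc : Aᶜ.card ≤ 2 := by
    rcases D.c5 A (by omega) with h1 | h1
    · have := card3 hv mx0 mp0 (v_ne_x D 0) (D.pv 0).symm (p_ne_x D 0 0).symm
      omega
    · exact h1
  have mp : ∀ i : Fin 3, i ≠ 0 → p i ∈ supp T := by
    intro i hi
    by_contra hp
    obtain ⟨o1, o2, o3⟩ := pre_out D hA hi hp
    have := card3 o1 o2 o3 (D.pr i) (p_ne_x D i i) (r_ne_x D i i)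
    omega
  -- no points outside
  have hpt : ∀ u, u ∉ A → side u ≠ side v := by
    intro u hu hus
    have hnb : ∀ l, G.Adj u l → l ∈ Aᶜ := by
      intro l hl
      rw [mem_compl]
      intro hlA
      have hls : side l ≠ side v := fun h' => D.lev.bip _ _ hl (hus.trans h'.symm)
      by_cases h0 : l = x 0
      · rw [h0] at hl
        rcases nbr_x D hl.symm with h1 | h1 | h1
        · exact hu (h1 ▸ hv)
        · exact hu (h1 ▸ mp0)
        · exact hu (h1 ▸ mr0)
      · exact hu (sit_lineA D h hA hv hlA hls h0 hl.symm)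
    have h4 := D.lev.cubic u
    unfold dg at h4
    have h5 : (univ.filter (fun w => G.Adj u w)).card ≤ Aᶜ.card :=
      card_le_card fun w hw => hnb w (mem_filter.1 hw).2
    have h6 : (univ.filter (fun w => G.Adj u w)).card = 3 := by convert h4
    omega
  -- nothing outside
  have hall : ∀ u, u ∈ A := by
    intro u
    by_contra hu
    have hus := hpt u hu
    have hux : ∀ i, u ≠ x i := by
      intro i hi
      fin_cases i
      · exact hu (hi ▸ mx0)
      · exact hu (hi ▸ hA.mem1.2 (mp 1 (by decide)))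
      · exact hu (hi ▸ hA.mem2.2 (mp 2 (by decide)))
    have hst : ∀ w, G.Adj u w → w = y ∨ (w ≠ v ∧ ∃ i, G.Adj (x i) w) := by
      intro w hw
      have hwA : w ∈ A := by
        by_contra h1
        exact D.lev.bip _ _ hw (bool_eq hus (hpt w h1).symm)
      have := sit_star D h hA hu hus hux hw hwA
      simpa using this
    -- three neighbours
    have h4 := D.lev.cubic u
    unfold dg at h4
    rw [card_eq_three] at h4
    obtain ⟨a, b, c, hab, hac, hbc, he⟩ := h4
    have hm : ∀ w, w = a ∨ w = b ∨ w = c → G.Adj u w := by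
      intro w hw
      have := Finset.ext_iff.1 he w
      simp only [mem_filter, mem_univ, true_and, mem_insert, mem_singleton] at this
      exact this.2 hw
    have ha := hm a (by simp)
    have hb := hm b (by simp)
    have hc := hm c (by simp)
    have pair : ∀ w w', G.Adj u w → G.Adj u w' → w ≠ w' → (w ≠ v ∧ ∃ i, G.Adj (x i) w) →
        (w' ≠ v ∧ ∃ i, G.Adj (x i) w') → False := by
      rintro w w' h1 h2 h3 ⟨h4, i, hi⟩ ⟨h5, j, hj⟩
      exact hux i (two_fib D hi hj h4 h5 h3 h1 h2)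
    rcases hst a ha with h1 | h1
    · rcases hst b hb with h2 | h2
      · exact hab (h1.trans h2.symm)
      · rcases hst c hc with h3 | h3
        · exact hac (h1.trans h3.symm)
        · exact pair b c hb hc hbc h2 h3
    · rcases hst b hb with h2 | h2
      · rcases hst c hc with h3 | h3
        · exact hbc (h2.trans h3.symm)
        · exact pair a c ha hc hac h1 h3
      · exact pair a b ha hb hab h1 h2
  -- conclusion
  apply le_antisymm hTle
  have key : ∀ a b, (addE (dfF G v x p r) (x 0) y).Adj a b → side a ≠ side v → T.Adj a b := by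
    intro a b hab has
    rcases addE_sit D _ hab with h1 | ⟨h1, h2⟩ | ⟨h1, h2⟩
    · by_cases h0 : a = x 0
      · rw [h0] at h1 ⊢
        rcases (adj_x0 D).1 h1 with h2 | h2
        · rw [h2]; exact t0
        · rw [h2]; exact t1
      · have hax : ∀ i, a ≠ x i := by
          intro i
          by_cases hi : i = 0
          · rw [hi]; exact h0
          · rintro rfl
            exact not_adj_x D hi _ h1
        obtain ⟨w, h2, h3⟩ := (adj_line D has hax).1 h1
        have haS : a ∈ supp T := (pre_line D hA has hax).1 (hall a)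
        rw [← h3]
        exact (sit_line D h haS has h0).2 w h2
    · rw [h1, h2]; exact t2
    · exact absurd (by rw [h2, hysv]) has
  intro a b hab
  by_cases has : side a = side v
  · have hbs : side b ≠ side v := by
      intro hbs
      have hbip := bipF D
      rcases addE_sit D _ hab with h1 | ⟨h1, h2⟩ | ⟨h1, h2⟩
      · exact hbip _ _ h1 (has.trans hbs.symm)
      · exact side_x D 0 (by rw [← h1, has])
      · exact side_x D 0 (by rw [← h1, hbs])
    exact (key b a hab.symm hbs).symm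
  · exact key a b hab has

/-- the field `two` -/
theorem dfComb_two (D : DFData G side v x p r) (hF : TwoDeg (dfF G v x p r)) :
    ∀ m, (m = p 1 ∨ m = p 2) → ∀ y, side y ≠ side (x 0) → y ≠ m → y ≠ p 0 → y ≠ r 0 →
    ∀ T ≤ addE (addE (dfF G v x p r) (x 0) m) (x 0) y, ¬ T.Adj (x 0) (p 0) → Core3 T → T = ⊥ := by
  classical
  intro m hm y hys hym hyp0 hyr0 T hTle hTp0 hC
  by_contra hne
  have hysv : side y = side v := bool_eq hys (side_x D 0)
  obtain ⟨k, hk, hmk⟩ : ∃ k : Fin 3, k ≠ 0 ∧ m = p k := by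
    rcases hm with h | h
    · exact ⟨1, by decide, h⟩
    · exact ⟨2, by decide, h⟩
  have hms : side m = side v := by rw [hmk, side_p D]
  have hT : ∀ a b, T.Adj a b → (dfF G v x p r).Adj a b ∨ (a = x 0 ∧ b ∈ ({m, y} : Finset V)) ∨
      (b = x 0 ∧ a ∈ ({m, y} : Finset V)) := by
    intro a b hab
    simp only [mem_insert, mem_singleton]
    rcases addE_sit D _ (hTle hab) with h | ⟨h1, h2⟩ | ⟨h1, h2⟩
    · rcases addE_sit D _ h with h | ⟨h1, h2⟩ | ⟨h1, h2⟩
      · exact Or.inl h
      · exact Or.inr (Or.inl ⟨h1, Or.inl h2⟩)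
      · exact Or.inr (Or.inr ⟨h1, Or.inl h2⟩)
    · exact Or.inr (Or.inl ⟨h1, Or.inr h2⟩)
    · exact Or.inr (Or.inr ⟨h1, Or.inr h2⟩)
  have hx0 := x0_mem D hF hT hC hne
  have hY : ∀ u ∈ ({m, y} : Finset V), side u = side v := by
    intro u hu
    simp only [mem_insert, mem_singleton] at hu
    rcases hu with rfl | rfl <;> assumption
  have h : Sit T G side v x p r {m, y} := ⟨hT, hC, hY, hx0⟩
  obtain ⟨A, hA, hvA⟩ := exists_pre (v := v) (x := x) (p := p) (r := r) D (supp T) True
  have hv : v ∈ A := hvA.2 trivial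
  have hcut := sit_cut D h hA hv
  rw [card_pair hym.symm] at hcut
  -- the neighbours of `x 0`
  obtain ⟨w, hw⟩ := mem_supp.1 hx0
  have h3 := hC _ _ hw
  obtain ⟨t1, t2, t3⟩ := all3 (a := r 0) (b := m) (c := y) h3 (by
    intro b hb
    rcases hT _ _ hb with h | ⟨-, h⟩ | ⟨-, h⟩
    · rcases (adj_x0 D).1 h with h | h
      · exact absurd (h ▸ hb) hTp0
      · exact Or.inl h
    · simp only [mem_insert, mem_singleton] at h
      rcases h with h | h
      · exact Or.inr (Or.inl h)
      · exact Or.inr (Or.inr h)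
    · exact absurd (hY _ h) (side_x D 0))
  have mx0 : x 0 ∈ A := (pre_x0 D hA).2 hx0
  have mr0 : r 0 ∈ A := (pre_r0 D hA).2 (supp_of t1.symm)
  have mm : p k ∈ A := (pre_p D hA k).2 (hmk ▸ supp_of t2.symm)
  -- `p 0` is not in the support
  have np0 : p 0 ∉ supp T := by
    intro hp
    obtain ⟨w, hw⟩ := mem_supp.1 hp
    have h4 := hC _ _ hw
    have hY0 : p 0 ∉ ({m, y} : Finset V) := by
      simp only [mem_insert, mem_singleton, not_or]
      exact ⟨fun e => p_ne_p D (fun e' => hk e'.symm) (e.trans hmk), hyp0.symm⟩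
    have := sit_point D h hp (side_p D 0) (p_ne_p D (by decide)) (p_ne_p D (by decide)) hY0 (x 0)
      (D.xp 0).symm
    exact hTp0 this.symm
  have nA0 : p 0 ∉ A := fun h' => np0 ((pre_p D hA 0).1 h')
  have hAc : Aᶜ.card ≤ 3 := by
    by_contra hbig
    have hA4 : 4 ≤ A.card := card4 hv mx0 mr0 mm (v_ne_x D 0) (D.rv 0).symm (D.pv k).symm
      (r_ne_x D 0 0).symm (p_ne_x D k 0).symm (p_ne_r D k 0).symm
    by_cases h5 : cut G A = 5
    · have := (D.good A h5 hA4 (by omega)).2
      exact nA0 (this.1 mx0)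
    · rcases D.c5 A (by omega) with h1 | h1 <;> omega
  have mp : ∀ i : Fin 3, i ≠ 0 → p i ∈ supp T := by
    intro i hi
    by_contra hp
    obtain ⟨o1, o2, o3⟩ := pre_out D hA hi hp
    have := card4 (mem_compl.2 nA0) o1 o2 o3 (p_ne_p D hi.symm) (p_ne_r D 0 i)
      (p_ne_x D 0 i) (D.pr i) (p_ne_x D i i) (r_ne_x D i i)
    omega
  obtain ⟨l, l', d1, d2, d3, hl, hl'⟩ := other2 (D.lev.cubic (p 0)) (D.xp 0).symm
  -- facts about a neighbour `l` of `p 0` different from `x 0`
  have fact : ∀ l, G.Adj (p 0) l → x 0 ≠ l → l ∉ A ∧ side l ≠ side v ∧ ∀ i, l ≠ x i := by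
    intro l hl hne
    have hls : side l ≠ side v := fun h' => D.lev.bip _ _ hl (by rw [side_p D, h'])
    refine ⟨?_, hls, ?_⟩
    · intro hlA
      exact nA0 (sit_lineA D h hA hv hlA hls hne.symm hl.symm)
    · rintro i rfl
      have := x_uniq D (D.pv 0) (D.xp 0) hl.symm
      rw [← this] at hne
      exact hne rfl
  obtain ⟨nl, sl, xl⟩ := fact l hl d1
  obtain ⟨nl', sl', xl'⟩ := fact l' hl' d2
  -- the points outside `A`
  have hpt : ∀ u, u ∉ A → side u = side v → u = p 0 := by
    intro u hu hus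
    by_contra hup
    have n1 : u ≠ l := fun e => sl (e ▸ hus)
    have n2 : u ≠ l' := fun e => sl' (e ▸ hus)
    have := card4 (mem_compl.2 nA0) (mem_compl.2 nl) (mem_compl.2 nl') (mem_compl.2 hu)
      hl.ne hl'.ne (fun e => hup e.symm) d3 n1.symm n2.symm
    omega
  -- such a line is adjacent to `y`
  have adjy : ∀ l, l ∉ A → side l ≠ side v → (∀ i, l ≠ x i) → G.Adj l (p 0) → G.Adj l y := by
    intro l nl sl xl hl
    obtain ⟨e, f, e1, e2, e3, he, hf⟩ := other2 (D.lev.cubic l) hl
    have hst : ∀ w, G.Adj l w → p 0 ≠ w → w = y ∨ (w ≠ v ∧ ∃ i, G.Adj (x i) w) := by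
      intro w hw hwp
      have hws : side w = side v := bool_eq (fun h => D.lev.bip _ _ hw h.symm) sl
      have hwA : w ∈ A := by
        by_contra h1
        exact hwp (hpt w h1 hws).symm
      rcases sit_star D h hA nl sl xl hw hwA with h1 | h1
      · simp only [mem_insert, mem_singleton] at h1
        rcases h1 with h1 | h1
        · right
          rw [h1, hmk]
          exact ⟨D.pv k, k, D.xp k⟩
        · exact Or.inl h1
      · exact Or.inr h1
    rcases hst e he e1 with h1 | ⟨h1, i, hi⟩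
    · rw [← h1]; exact he
    · rcases hst f hf e2 with h2 | ⟨h2, j, hj⟩
      · rw [← h2]; exact hf
      · exact absurd (two_fib D hi hj h1 h2 e3 he hf) (xl i)
  have y1 := adjy l nl sl xl hl.symm
  have y2 := adjy l' nl' sl' xl' hl'.symm
  exact d3 (D.lev.noC4 (p 0) y (fun e => hyp0 e.symm) l l' hl y1.symm hl' y2.symm)

/-- **DFComb** -/
theorem dfComb : DFCombStmt := by
  intro V _ _ G side v x p r D
  have hF := dfComb_twoDeg D
  exact ⟨dfComb_bip D, dfComb_noC4 D, hF, fun y z => dfComb_pairs D y z, dfComb_full D hF,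
    dfComb_two D hF⟩

end

end N3
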