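import Pool.Agent.Lib_n3.StmtsGlue

/-!
# Module GlueLA3: linear algebra in `ℝ³` for gluing along three edges
-/

open scoped Matrix Topology
open Finset

namespace N3

/-! ### Elementary vector algebra -/

theorem dot3 (u v : E) : u ⬝ᵥ v = u 0 * v 0 + u 1 * v 1 + u 2 * v 2 := by
  rw [dotProduct, Fin.sum_univ_three]

theorem cr0 (u v : E) : crossProduct u v 0 = u 1 * v 2 - u 2 * v 1 := by
  rw [cross_apply]; rfl

theorem cr1 (u v : E) : crossProduct u v 1 = u 2 * v 0 - u 0 * v 2 := by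
  rw [cross_apply]; rfl

theorem cr2 (u v : E) : crossProduct u v 2 = u 0 * v 1 - u 1 * v 0 := by
  rw [cross_apply]; rfl

theorem ext3 {u v : E} (h0 : u 0 = v 0) (h1 : u 1 = v 1) (h2 : u 2 = v 2) : u = v := by
  funext i
  fin_cases i
  · exact h0
  · exact h1
  · exact h2

theorem dot_self_pos {u : E} (h : u ≠ 0) : 0 < u ⬝ᵥ u := by
  rw [dot3]
  by_contra hn
  have h0 : u 0 * u 0 = 0 := by nlinarith [mul_self_nonneg (u 0), mul_self_nonneg (u 1), mul_self_nonneg (u 2)]
  have h1 : u 1 * u 1 = 0 := by nlinarith [mul_self_nonneg (u 0), mul_self_nonneg (u 1), mul_self_nonneg (u 2)]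
  have h2 : u 2 * u 2 = 0 := by nlinarith [mul_self_nonneg (u 0), mul_self_nonneg (u 1), mul_self_nonneg (u 2)]
  exact h (ext3 (by simpa using h0) (by simpa using h1) (by simpa using h2))

theorem dot_self_ne {u : E} (h : u ≠ 0) : u ⬝ᵥ u ≠ 0 := (dot_self_pos h).ne'

/-- decomposition of a vector in the basis `u, v, u × v` -/
theorem decomp (u v w : E) : (crossProduct u v ⬝ᵥ crossProduct u v) • w =
    (crossProduct w v ⬝ᵥ crossProduct u v) • u + (crossProduct u w ⬝ᵥ crossProduct u v) • v +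
      (crossProduct u v ⬝ᵥ w) • crossProduct u v := by
  apply ext3 <;>
  simp only [dot3, cr0, cr1, cr2, Pi.add_apply, Pi.smul_apply, smul_eq_mul] <;> ring

/-- Cramer -/
theorem cramer3 (a b c w : E) : det3 a b c • w = (crossProduct b c ⬝ᵥ w) • a +
    (crossProduct c a ⬝ᵥ w) • b + (crossProduct a b ⬝ᵥ w) • c := by
  unfold det3
  apply ext3 <;>
  simp only [dot3, cr0, cr1, cr2, Pi.add_apply, Pi.smul_apply, smul_eq_mul] <;> ring

theorem det3_eq (a b c : E) : det3 a b c = crossProduct a b ⬝ᵥ c := by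
  unfold det3
  simp only [dot3, cr0, cr1, cr2]
  ring

theorem det3_cyc (a b c : E) : det3 a b c = det3 b c a := by
  unfold det3
  simp only [dot3, cr0, cr1, cr2]
  ring

theorem det3_eq_det (a b c : E) : det3 a b c = Matrix.det ![a, b, c] := triple_product_eq_det a b c

theorem lagrange (u v : E) : crossProduct u v ⬝ᵥ crossProduct u v =
    (u ⬝ᵥ u) * (v ⬝ᵥ v) - (u ⬝ᵥ v) * (u ⬝ᵥ v) := by
  simp only [dot3, cr0, cr1, cr2]
  ring

theorem Np.left_ne {a b : E} (h : Np a b) : a ≠ 0 := by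
  rintro rfl
  exact h (by simp)

theorem Np.right_ne {a b : E} (h : Np a b) : b ≠ 0 := by
  rintro rfl
  exact h (by simp)

theorem Np.symm {a b : E} (h : Np a b) : Np b a := by
  intro h'
  apply h
  rw [← cross_anticomm, h', neg_zero]

theorem np_comm {a b : E} : Np a b ↔ Np b a := ⟨Np.symm, Np.symm⟩

/-- parallel vectors are proportional -/
theorem exists_smul_of_not_np {a b : E} (ha : a ≠ 0) (h : ¬ Np a b) : ∃ c : ℝ, b = c • a := by
  unfold Np at h
  rw [not_not] at h
  refine ⟨(a ⬝ᵥ b) / (a ⬝ᵥ a), ?_⟩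
  have h0 := congrFun h 0
  have h1 := congrFun h 1
  have h2 := congrFun h 2
  rw [cr0] at h0
  rw [cr1] at h1
  rw [cr2] at h2
  simp only [Pi.zero_apply] at h0 h1 h2
  have haa := dot_self_ne ha
  have key : (a ⬝ᵥ a) • b = (a ⬝ᵥ b) • a := by
    apply ext3
    · simp only [dot3, Pi.smul_apply, smul_eq_mul]
      linear_combination (-(a 1)) * h2 + (a 2) * h1
    · simp only [dot3, Pi.smul_apply, smul_eq_mul]
      linear_combination (a 0) * h2 - (a 2) * h0
    · simp only [dot3, Pi.smul_apply, smul_eq_mul]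
      linear_combination (-(a 0)) * h1 + (a 1) * h0
  rw [div_eq_inv_mul, mul_smul, ← key, smul_smul, inv_mul_cancel₀ haa, one_smul]

theorem not_np_smul (a : E) (c : ℝ) : ¬ Np a (c • a) := by
  unfold Np
  rw [not_not, map_smul, cross_self, smul_zero]

theorem not_np_smul' (a : E) (c : ℝ) : ¬ Np (c • a) a := by
  unfold Np
  rw [not_not, map_smul, LinearMap.smul_apply, cross_self, smul_zero]

theorem not_np_iff {a b : E} (ha : a ≠ 0) : ¬ Np a b ↔ ∃ c : ℝ, b = c • a :=
  ⟨exists_smul_of_not_np ha, by rintro ⟨c, rfl⟩; exact not_np_smul a c⟩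

/-- being parallel is transitive -/
theorem not_np_trans {a b c : E} (hb : b ≠ 0) (h1 : ¬ Np a b) (h2 : ¬ Np b c) : ¬ Np a c := by
  rw [np_comm] at h1
  obtain ⟨x, rfl⟩ := exists_smul_of_not_np hb h1
  obtain ⟨y, rfl⟩ := exists_smul_of_not_np hb h2
  unfold Np
  rw [not_not, map_smul, map_smul, LinearMap.smul_apply, cross_self, smul_zero, smul_zero]

theorem Np.smul_left {a b : E} {c : ℝ} (hc : c ≠ 0) (h : Np a b) : Np (c • a) b := by
  unfold Np at *
  rw [map_smul, LinearMap.smul_apply]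
  exact smul_ne_zero hc h

theorem Np.smul_right {a b : E} {c : ℝ} (hc : c ≠ 0) (h : Np a b) : Np a (c • b) := by
  unfold Np at *
  rw [map_smul]
  exact smul_ne_zero hc h

/-- orthogonal nonzero vectors are not parallel -/
theorem np_of_orth {a b : E} (ha : a ≠ 0) (hb : b ≠ 0) (h : a ⬝ᵥ b = 0) : Np a b := by
  intro h'
  have := lagrange a b
  rw [h', h] at this
  have h1 := dot_self_pos ha
  have h2 := dot_self_pos hb
  simp only [mul_zero, sub_zero, zero_dotProduct] at this
  nlinarith [mul_pos h1 h2]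

/-- a vector that separates `a` from `b` -/
theorem np_of_dot {a b o : E} (ha : a ≠ 0) (h1 : o ⬝ᵥ a = 0) (h2 : o ⬝ᵥ b ≠ 0) : Np a b := by
  by_contra h
  obtain ⟨c, rfl⟩ := exists_smul_of_not_np ha h
  rw [dotProduct_smul, h1, smul_zero] at h2
  exact h2 rfl

/-- coplanar: `w = x u + y v` -/
theorem exists_comb {u v w : E} (h : Np u v) (hw : det3 u v w = 0) :
    ∃ x y : ℝ, w = x • u + y • v := by
  have hn := dot_self_ne h
  have hd := decomp u v w
  rw [← det3_eq u v w, hw, zero_smul, add_zero] at hd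
  refine ⟨(crossProduct w v ⬝ᵥ crossProduct u v) / (crossProduct u v ⬝ᵥ crossProduct u v),
    (crossProduct u w ⬝ᵥ crossProduct u v) / (crossProduct u v ⬝ᵥ crossProduct u v), ?_⟩
  rw [div_eq_inv_mul, div_eq_inv_mul, mul_smul, mul_smul, ← smul_add, ← hd, smul_smul,
    inv_mul_cancel₀ hn, one_smul]

/-- coplanar and pairwise independent: `w = x u + y v` with nonzero coefficients -/
theorem exists_comb_ne {u v w : E} (h : Np u v) (huw : Np u w) (hvw : Np v w)
    (hw : det3 u v w = 0) : ∃ x y : ℝ, x ≠ 0 ∧ y ≠ 0 ∧ w = x • u + y • v := by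
  obtain ⟨x, y, rfl⟩ := exists_comb h hw
  refine ⟨x, y, ?_, ?_, rfl⟩
  · rintro rfl
    apply not_np_smul v y
    simpa using hvw
  · rintro rfl
    apply not_np_smul u x
    simpa using huw

theorem linInd_iff_det3 (a : Fin 3 → E) : LinearIndependent ℝ a ↔ det3 (a 0) (a 1) (a 2) ≠ 0 := by
  have h1 : LinearIndependent ℝ (Matrix.of a).row ↔ IsUnit (Matrix.of a) :=
    Matrix.linearIndependent_rows_iff_isUnit
  have h2 : (Matrix.of a).row = a := rfl
  rw [h2] at h1
  rw [h1, Matrix.isUnit_iff_isUnit_det, isUnit_iff_ne_zero, det3_eq_det]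
  have h3 : (![a 0, a 1, a 2] : Fin 3 → E) = a := by
    funext i
    fin_cases i <;> rfl
  rw [h3]
  rfl

theorem dualPair_comm {g h : E →ₗ[ℝ] E} (H : DualPair g h) : DualPair h g := by
  intro p l
  rw [dotProduct_comm, H, dotProduct_comm]

theorem DualPair.ne_zero {g h : E →ₗ[ℝ] E} (H : DualPair g h) {l : E} (hl : l ≠ 0) : h l ≠ 0 := by
  intro h0
  have := H l l
  rw [h0, dotProduct_zero] at this
  exact dot_self_ne hl this.symm

theorem DualPair.ne_zero' {g h : E →ₗ[ℝ] E} (H : DualPair g h) {p : E} (hp : p ≠ 0) : g p ≠ 0 :=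
  (dualPair_comm H).ne_zero hp

/-- dual maps preserve independence of pairs -/
theorem DualPair.np {g h : E →ₗ[ℝ] E} (H : DualPair g h) {p q : E} (hpq : Np p q) :
    Np (g p) (g q) := by
  intro h0
  have hg0 : g p ≠ 0 := H.ne_zero' hpq.left_ne
  have h1 : ¬ Np (g p) (g q) := by unfold Np; rw [not_not]; exact h0
  obtain ⟨c, hc⟩ := exists_smul_of_not_np hg0 h1
  have h2 : g (q - c • p) = 0 := by rw [map_sub, map_smul, hc, sub_self]
  have h3 : q - c • p = 0 := by
    by_contra h4
    exact H.ne_zero' h4 h2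
  rw [sub_eq_zero] at h3
  rw [h3] at hpq
  exact not_np_smul p c hpq

/-! ### Avoiding finitely many conditions -/

/-- the linear form `z ↦ w ⬝ᵥ z`, in `w` -/
def dotL (z : E) : Module.Dual ℝ E where
  toFun w := w ⬝ᵥ z
  map_add' u v := add_dotProduct u v z
  map_smul' c u := by simp

theorem avoid_dot (W : Submodule ℝ E) (Z : Finset E) (hZ : ∀ z ∈ Z, ∃ w ∈ W, w ⬝ᵥ z ≠ 0) :
    ∃ w ∈ W, ∀ z ∈ Z, w ⬝ᵥ z ≠ 0 := by
  obtain ⟨w, hw, h⟩ := Module.Dual.exists_forall_mem_ne_zero_of_forall_exists (K := ℝ) W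
    (fun z : Z => dotL (z : E)) (fun z => hZ z z.2)
  exact ⟨w, hw, fun z hz => h ⟨z, hz⟩⟩

/-- AVOID: a vector of `W` that is orthogonal to no element of `Z` and parallel to no element of
`L` -/
theorem avoid (W : Submodule ℝ E) (Z L : Finset E) (hZ : ∀ z ∈ Z, ∃ w ∈ W, w ⬝ᵥ z ≠ 0)
    (hL : ∀ l ∈ L, ∃ w ∈ W, Np w l) :
    ∃ w ∈ W, (∀ z ∈ Z, w ⬝ᵥ z ≠ 0) ∧ ∀ l ∈ L, Np w l := by
  classical
  have hL' : ∀ l : L, ∃ z : E, (∃ w ∈ W, w ⬝ᵥ z ≠ 0) ∧ z ⬝ᵥ (l : E) = 0 := by
    intro l
    obtain ⟨w, hw, hwl⟩ := hL l l.2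
    refine ⟨crossProduct (l : E) (crossProduct w l), ⟨w, hw, ?_⟩, ?_⟩
    · have h1 : w ⬝ᵥ crossProduct (l : E) (crossProduct w l) =
          crossProduct w l ⬝ᵥ crossProduct w l := by
        simp only [dot3, cr0, cr1, cr2]
        ring
      rw [h1]
      exact dot_self_ne hwl
    · rw [dotProduct_comm]
      exact dot_self_cross _ _
  choose z hz1 hz2 using hL'
  obtain ⟨w, hw, h⟩ := avoid_dot W (Z ∪ Finset.univ.image z) (by
    intro y hy
    rw [Finset.mem_union, Finset.mem_image] at hy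
    rcases hy with hy | ⟨l, _, rfl⟩
    · exact hZ y hy
    · exact hz1 l)
  refine ⟨w, hw, fun y hy => h y (Finset.mem_union_left _ hy), fun l hl => ?_⟩
  have h1 := h (z ⟨l, hl⟩) (Finset.mem_union_right _ (Finset.mem_image_of_mem _ (Finset.mem_univ _)))
  have h2 := hz2 ⟨l, hl⟩
  simp only at h2
  obtain ⟨w', _, hwl⟩ := hL l hl
  have hl0 : l ≠ 0 := hwl.right_ne
  refine (np_of_dot hl0 h2 ?_).symm
  rw [dotProduct_comm]
  exact h1

/-- the orthogonal complement of `a` -/
def perp (a : E) : Submodule ℝ E where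
  carrier := {w | a ⬝ᵥ w = 0}
  add_mem' := by
    intro u v hu hv
    simp only [Set.mem_setOf_eq] at *
    rw [dotProduct_add, hu, hv, add_zero]
  zero_mem' := by simp
  smul_mem' := by
    intro c u hu
    simp only [Set.mem_setOf_eq] at *
    rw [dotProduct_smul, hu, smul_zero]

theorem mem_perp {a w : E} : w ∈ perp a ↔ a ⬝ᵥ w = 0 := Iff.rfl

theorem exists_perp_dot {a z : E} (h : Np a z) : ∃ w ∈ perp a, w ⬝ᵥ z ≠ 0 := by
  refine ⟨crossProduct (crossProduct a z) a, ?_, ?_⟩
  · rw [mem_perp]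
    exact dot_cross_self _ _
  · have h1 : crossProduct (crossProduct a z) a ⬝ᵥ z = crossProduct a z ⬝ᵥ crossProduct a z := by
      simp only [dot3, cr0, cr1, cr2]
      ring
    rw [h1]
    exact dot_self_ne h

theorem exists_np {l : E} (hl : l ≠ 0) : ∃ e : E, Np l e := by
  by_contra hn
  push Not at hn
  have h0 := hn ![1, 0, 0]
  have h1 := hn ![0, 1, 0]
  unfold Np at h0 h1
  rw [not_not] at h0 h1
  apply hl
  have a1 := congrFun h0 1
  have a2 := congrFun h0 2
  have b2 := congrFun h1 2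
  rw [cr1] at a1
  rw [cr2] at a2 b2
  simp at a1 a2 b2
  exact ext3 b2 a2 a1

theorem exists_perp_np (a : E) {l : E} (hl : l ≠ 0) : ∃ w ∈ perp a, Np w l := by
  by_cases h : Np a l
  · refine ⟨crossProduct a l, dot_self_cross _ _, ?_⟩
    refine np_of_orth h hl ?_
    rw [dotProduct_comm]
    exact dot_cross_self _ _
  · rw [np_comm] at h
    obtain ⟨c, rfl⟩ := exists_smul_of_not_np hl h
    obtain ⟨e, he⟩ := exists_np hl
    refine ⟨crossProduct l e, ?_, ?_⟩
    · rw [mem_perp, smul_dotProduct, dot_self_cross, smul_zero]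
    · refine np_of_orth he hl ?_
      rw [dotProduct_comm]
      exact dot_self_cross _ _

/-- AVOID in `a^⊥` -/
theorem avoid_perp (a : E) (Z L : Finset E) (hZ : ∀ z ∈ Z, Np a z) (hL : ∀ l ∈ L, l ≠ 0) :
    ∃ w : E, a ⬝ᵥ w = 0 ∧ (∀ z ∈ Z, w ⬝ᵥ z ≠ 0) ∧ ∀ l ∈ L, Np w l := by
  obtain ⟨w, hw, h1, h2⟩ := avoid (perp a) Z L (fun z hz => exists_perp_dot (hZ z hz))
    (fun l hl => exists_perp_np a (hL l hl))
  exact ⟨w, hw, h1, h2⟩

/-- AVOID in `ℝ³` -/
theorem avoid_top (Z L : Finset E) (hZ : ∀ z ∈ Z, z ≠ 0) (hL : ∀ l ∈ L, l ≠ 0) :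
    ∃ w : E, (∀ z ∈ Z, w ⬝ᵥ z ≠ 0) ∧ ∀ l ∈ L, Np w l := by
  obtain ⟨w, _, h1, h2⟩ := avoid ⊤ Z L
    (fun z hz => ⟨z, Submodule.mem_top, dot_self_ne (hZ z hz)⟩)
    (fun l hl => by
      obtain ⟨e, he⟩ := exists_np (hL l hl)
      exact ⟨e, Submodule.mem_top, he.symm⟩)
  exact ⟨w, h1, h2⟩

/-! ### The modules -/

theorem exDual : ExDualStmt := by
  intro B T hB hT
  set MB : Matrix (Fin 3) (Fin 3) ℝ := Matrix.of B with hMB
  set MT : Matrix (Fin 3) (Fin 3) ℝ := Matrix.of T with hMT
  have uB : IsUnit MB := Matrix.linearIndependent_rows_iff_isUnit.1 hB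
  have uT : IsUnit MT := Matrix.linearIndependent_rows_iff_isUnit.1 hT
  have dB : IsUnit MB.det := (Matrix.isUnit_iff_isUnit_det _).1 uB
  have dT : IsUnit MT.det := (Matrix.isUnit_iff_isUnit_det _).1 uT
  refine ⟨Matrix.vecMulLinear (MB⁻¹ * MT), Matrix.mulVecLin (MT⁻¹ * MB), ?_, ?_⟩
  · intro p l
    rw [Matrix.vecMulLinear_apply, Matrix.mulVecLin_apply, Matrix.dotProduct_mulVec,
      Matrix.vecMul_vecMul]
    have h1 : MB⁻¹ * MT * (MT⁻¹ * MB) = 1 := by
      rw [Matrix.mul_assoc, ← Matrix.mul_assoc MT, Matrix.mul_nonsing_inv _ dT, Matrix.one_mul,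
        Matrix.nonsing_inv_mul _ dB]
    rw [h1, Matrix.vecMul_one]
  · intro i
    rw [Matrix.vecMulLinear_apply]
    have h2 : B i = Pi.single i 1 ᵥ* MB := by
      rw [Matrix.single_one_vecMul]
      rfl
    rw [h2, Matrix.vecMul_vecMul, ← Matrix.mul_assoc, Matrix.mul_nonsing_inv _ dB, Matrix.one_mul,
      Matrix.single_one_vecMul]
    rfl

theorem exDual' (B T : Fin 3 → E) (hB : LinearIndependent ℝ B) (hT : LinearIndependent ℝ T) :
    ∃ g h : E →ₗ[ℝ] E, DualPair g h ∧ ∀ i, h (B i) = T i := by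
  obtain ⟨h, g, H, h1⟩ := exDual B T hB hT
  exact ⟨g, h, dualPair_comm H, h1⟩

/-- `(a × o) × (b × o)` is a multiple of `o` -/
theorem cross_cross_o (a b o : E) :
    crossProduct (crossProduct a o) (crossProduct b o) = det3 a b o • o := by
  unfold det3
  apply ext3 <;>
  simp only [dot3, cr0, cr1, cr2, Pi.smul_apply, smul_eq_mul] <;> ring

theorem laDep : LAdepStmt := by
  intro a b ha hb hbd L hL
  classical
  have a01 := ha 0 1 (by decide)
  have a02 := ha 0 2 (by decide)
  have a12 := ha 1 2 (by decide)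
  have b01 := hb 0 1 (by decide)
  have b02 := hb 0 2 (by decide)
  have b12 := hb 1 2 (by decide)
  obtain ⟨O, hO, -⟩ := avoid_top
    (L ∪ {crossProduct (a 0) (a 1), crossProduct (a 0) (a 2), crossProduct (a 1) (a 2)}) ∅
    (by
      intro z hz
      rw [Finset.mem_union, Finset.mem_insert, Finset.mem_insert, Finset.mem_singleton] at hz
      rcases hz with hz | rfl | rfl | rfl
      · exact hL z hz
      · exact a01
      · exact a02
      · exact a12) (by simp)
  have hOL : ∀ l ∈ L, O ⬝ᵥ l ≠ 0 := fun l hl => hO l (Finset.mem_union_left _ hl)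
  have o01 : det3 (a 0) (a 1) O ≠ 0 := by
    rw [det3_eq, dotProduct_comm]
    exact hO _ (by simp)
  have o02 : det3 (a 0) (a 2) O ≠ 0 := by
    rw [det3_eq, dotProduct_comm]
    exact hO _ (by simp)
  have o12 : det3 (a 1) (a 2) O ≠ 0 := by
    rw [det3_eq, dotProduct_comm]
    exact hO _ (by simp)
  have hO0 : O ≠ 0 := by
    rintro rfl
    rw [det3_eq, dotProduct_zero] at o01
    exact o01 rfl
  -- the lines `m i = a i × O`
  have m01 : Np (crossProduct (a 0) O) (crossProduct (a 1) O) := by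
    unfold Np
    rw [cross_cross_o]
    exact smul_ne_zero o01 hO0
  have m02 : Np (crossProduct (a 0) O) (crossProduct (a 2) O) := by
    unfold Np
    rw [cross_cross_o]
    exact smul_ne_zero o02 hO0
  have m12 : Np (crossProduct (a 1) O) (crossProduct (a 2) O) := by
    unfold Np
    rw [cross_cross_o]
    exact smul_ne_zero o12 hO0
  have md : det3 (crossProduct (a 0) O) (crossProduct (a 1) O) (crossProduct (a 2) O) = 0 := by
    rw [det3_eq, cross_cross_o, smul_dotProduct, dot_cross_self, smul_zero]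
  obtain ⟨x', y', hx', hy', hm2⟩ := exists_comb_ne m01 m02 m12 md
  have bd : det3 (b 0) (b 1) (b 2) = 0 := by
    by_contra h
    exact hbd ((linInd_iff_det3 b).2 h)
  obtain ⟨x, y, hx, hy, hb2⟩ := exists_comb_ne b01 b02 b12 bd
  obtain ⟨g, h, H, hh⟩ := exDual' ![b 0, b 1, crossProduct (b 0) (b 1)]
    ![(x' / x) • crossProduct (a 0) O, (y' / y) • crossProduct (a 1) O, O]
    (by
      rw [linInd_iff_det3, det3_eq]
      simp only [Matrix.cons_val_zero, Matrix.cons_val_one, Matrix.cons_val]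
      exact dot_self_ne b01)
    (by
      rw [linInd_iff_det3, det3_eq]
      simp only [Matrix.cons_val_zero, Matrix.cons_val_one, Matrix.cons_val]
      rw [map_smul, map_smul, LinearMap.smul_apply, cross_cross_o, smul_dotProduct,
        smul_dotProduct, smul_dotProduct]
      simp only [smul_eq_mul]
      exact mul_ne_zero (div_ne_zero hy' hy) (mul_ne_zero (div_ne_zero hx' hx)
        (mul_ne_zero o01 (dot_self_ne hO0))))
  have h0 : h (b 0) = (x' / x) • crossProduct (a 0) O := hh 0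
  have h1 : h (b 1) = (y' / y) • crossProduct (a 1) O := hh 1
  have h2 : h (b 2) = crossProduct (a 2) O := by
    rw [hb2, map_add, map_smul, map_smul, h0, h1, hm2, smul_smul, smul_smul,
      mul_div_cancel₀ _ hx, mul_div_cancel₀ _ hy]
  refine ⟨g, h, O, H, ?_, hOL, o01⟩
  intro i
  fin_cases i
  · change a 0 ⬝ᵥ h (b 0) = 0 ∧ O ⬝ᵥ h (b 0) = 0
    rw [h0, dotProduct_smul, dotProduct_smul, dot_self_cross, dot_cross_self, smul_zero]
    exact ⟨rfl, rfl⟩
  · change a 1 ⬝ᵥ h (b 1) = 0 ∧ O ⬝ᵥ h (b 1) = 0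
    rw [h1, dotProduct_smul, dotProduct_smul, dot_self_cross, dot_cross_self, smul_zero]
    exact ⟨rfl, rfl⟩
  · change a 2 ⬝ᵥ h (b 2) = 0 ∧ O ⬝ᵥ h (b 2) = 0
    rw [h2, dot_self_cross, dot_cross_self]
    exact ⟨rfl, rfl⟩

theorem laInd : LAindStmt := by
  intro a b ha hb L hL
  classical
  have hda : det3 (a 0) (a 1) (a 2) ≠ 0 := (linInd_iff_det3 a).1 ha
  have a01 : Np (a 0) (a 1) := by
    intro h
    rw [det3_eq, h, zero_dotProduct] at hda
    exact hda rfl
  have a12 : Np (a 1) (a 2) := by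
    intro h
    unfold det3 at hda
    rw [h, dotProduct_zero] at hda
    exact hda rfl
  have a20 : Np (a 2) (a 0) := by
    intro h
    rw [det3_cyc] at hda
    unfold det3 at hda
    rw [h, dotProduct_zero] at hda
    exact hda rfl
  by_cases hbi : LinearIndependent ℝ b
  · -- `m 0`
    obtain ⟨m0, p0, z0, l0⟩ := avoid_perp (a 0) {a 2} L
      (by simpa using a20.symm) hL
    have z0' : m0 ⬝ᵥ a 2 ≠ 0 := z0 _ (by simp)
    have m0ne : m0 ≠ 0 := by
      rintro rfl
      rw [zero_dotProduct] at z0'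
      exact z0' rfl
    obtain ⟨m1, p1, -, l1⟩ := avoid_perp (a 1) ∅ (insert m0 L) (by simp)
      (by
        intro l hl
        rw [Finset.mem_insert] at hl
        rcases hl with rfl | hl
        · exact m0ne
        · exact hL l hl)
    have m01 : Np m0 m1 := (l1 m0 (Finset.mem_insert_self _ _)).symm
    have hnp : Np (a 2) (crossProduct m0 m1) := by
      refine (np_of_dot (o := m0) m01 (dot_self_cross _ _) z0').symm
    obtain ⟨m2, p2, z2, l2⟩ := avoid_perp (a 2) {crossProduct m0 m1} L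
      (by simpa using hnp) hL
    have z2' : m2 ⬝ᵥ crossProduct m0 m1 ≠ 0 := z2 _ (by simp)
    obtain ⟨g, h, H, hh⟩ := exDual' b ![m0, m1, m2] hbi
      (by
        rw [linInd_iff_det3, det3_eq]
        simp only [Matrix.cons_val_zero, Matrix.cons_val_one, Matrix.cons_val]
        rw [dotProduct_comm]
        exact z2')
    have h0 : h (b 0) = m0 := hh 0
    have h1 : h (b 1) = m1 := hh 1
    have h2 : h (b 2) = m2 := hh 2
    refine ⟨g, h, H, ?_⟩
    intro i
    fin_cases i
    · change a 0 ⬝ᵥ h (b 0) = 0 ∧ ∀ l ∈ L, Np (h (b 0)) l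
      rw [h0]
      exact ⟨p0, l0⟩
    · change a 1 ⬝ᵥ h (b 1) = 0 ∧ ∀ l ∈ L, Np (h (b 1)) l
      rw [h1]
      exact ⟨p1, fun l hl => l1 l (Finset.mem_insert_of_mem hl)⟩
    · change a 2 ⬝ᵥ h (b 2) = 0 ∧ ∀ l ∈ L, Np (h (b 2)) l
      rw [h2]
      exact ⟨p2, l2⟩
  · have hanp : ∀ i j, i ≠ j → Np (a i) (a j) := by
      intro i j hij
      fin_cases i <;> fin_cases j
      · exact absurd rfl hij
      · exact a01
      · exact a20.symm
      · exact a01.symm
      · exact absurd rfl hij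
      · exact a12
      · exact a20
      · exact a12.symm
      · exact absurd rfl hij
    obtain ⟨g, h, O, H, h1, h2, -⟩ := laDep a b hanp hb hbi L hL
    refine ⟨g, h, H, fun i => ⟨(h1 i).1, fun l hl => ?_⟩⟩
    have hbi0 : b i ≠ 0 := by
      by_cases hi : i = 0
      · rw [hi]
        exact (hb 0 1 (by decide)).left_ne
      · exact (hb i 0 hi).left_ne
    exact np_of_dot (H.ne_zero hbi0) (h1 i).2 (h2 l hl)

/-- a vector whose dot products all vanish is zero -/
theorem eq_zero_of_dot {u : E} (h : ∀ t : E, t ⬝ᵥ u = 0) : u = 0 := by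
  by_contra hu
  exact dot_self_ne hu (h u)

theorem np_ne_zero {m : Fin 3 → E} (hm : ∀ i j, i ≠ j → Np (m i) (m j)) (i : Fin 3) : m i ≠ 0 := by
  by_cases hi : i = 0
  · rw [hi]
    exact (hm 0 1 (by decide)).left_ne
  · exact (hm i 0 hi).left_ne

theorem rankInd : RankIndStmt := by
  intro a m ha hm c r p l hp hl H
  have hD : det3 (a 0) (a 1) (a 2) ≠ 0 := (linInd_iff_det3 a).1 ha
  set D := det3 (a 0) (a 1) (a 2) with hDdef
  -- the (scaled) dual basis
  have key0 : (D * c 0) • m 0 + (r * (crossProduct (a 1) (a 2) ⬝ᵥ p)) • l = 0 := by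
    apply eq_zero_of_dot
    intro t
    have h := H (crossProduct (a 1) (a 2)) t
    rw [Fin.sum_univ_three] at h
    have e0 : crossProduct (a 1) (a 2) ⬝ᵥ a 0 = D := by
      rw [hDdef, det3, dotProduct_comm]
    have e1 : crossProduct (a 1) (a 2) ⬝ᵥ a 1 = 0 := by
      rw [dotProduct_comm, dot_self_cross]
    have e2 : crossProduct (a 1) (a 2) ⬝ᵥ a 2 = 0 := by
      rw [dotProduct_comm, dot_cross_self]
    rw [e0, e1, e2] at h
    rw [dotProduct_add, dotProduct_smul, dotProduct_smul, smul_eq_mul, smul_eq_mul]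
    linear_combination h
  have key1 : (D * c 1) • m 1 + (r * (crossProduct (a 2) (a 0) ⬝ᵥ p)) • l = 0 := by
    apply eq_zero_of_dot
    intro t
    have h := H (crossProduct (a 2) (a 0)) t
    rw [Fin.sum_univ_three] at h
    have e0 : crossProduct (a 2) (a 0) ⬝ᵥ a 0 = 0 := by
      rw [dotProduct_comm, dot_cross_self]
    have e1 : crossProduct (a 2) (a 0) ⬝ᵥ a 1 = D := by
      rw [hDdef, det3_cyc, det3, dotProduct_comm]
    have e2 : crossProduct (a 2) (a 0) ⬝ᵥ a 2 = 0 := by
      rw [dotProduct_comm, dot_self_cross]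
    rw [e0, e1, e2] at h
    rw [dotProduct_add, dotProduct_smul, dotProduct_smul, smul_eq_mul, smul_eq_mul]
    linear_combination h
  have key2 : (D * c 2) • m 2 + (r * (crossProduct (a 0) (a 1) ⬝ᵥ p)) • l = 0 := by
    apply eq_zero_of_dot
    intro t
    have h := H (crossProduct (a 0) (a 1)) t
    rw [Fin.sum_univ_three] at h
    have e0 : crossProduct (a 0) (a 1) ⬝ᵥ a 0 = 0 := by
      rw [dotProduct_comm, dot_self_cross]
    have e1 : crossProduct (a 0) (a 1) ⬝ᵥ a 1 = 0 := by
      rw [dotProduct_comm, dot_cross_self]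
    have e2 : crossProduct (a 0) (a 1) ⬝ᵥ a 2 = D := by
      rw [hDdef, det3_eq]
    rw [e0, e1, e2] at h
    rw [dotProduct_add, dotProduct_smul, dotProduct_smul, smul_eq_mul, smul_eq_mul]
    linear_combination h
  have hm0 := np_ne_zero hm
  by_cases hr : r = 0
  · left
    refine ⟨hr, ?_⟩
    rw [hr, zero_mul, zero_smul, add_zero] at key0 key1 key2
    have f0 : c 0 = 0 := by
      rcases smul_eq_zero.1 key0 with h | h
      · exact (mul_eq_zero.1 h).resolve_left hD
      · exact absurd h (hm0 0)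
    have f1 : c 1 = 0 := by
      rcases smul_eq_zero.1 key1 with h | h
      · exact (mul_eq_zero.1 h).resolve_left hD
      · exact absurd h (hm0 1)
    have f2 : c 2 = 0 := by
      rcases smul_eq_zero.1 key2 with h | h
      · exact (mul_eq_zero.1 h).resolve_left hD
      · exact absurd h (hm0 2)
    intro i
    fin_cases i
    · exact f0
    · exact f1
    · exact f2
  · right
    -- if the `i`-th coordinate of `p` does not vanish then `l` is parallel to `m i`
    have par : ∀ (i : Fin 3) (x : ℝ), (D * c i) • m i + (r * x) • l = 0 → x ≠ 0 →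
        ¬ Np l (m i) := by
      intro i x h hx
      rw [np_comm, not_np_iff (hm0 i)]
      refine ⟨-((r * x)⁻¹ * (D * c i)), ?_⟩
      have h1 : (r * x) • l = -((D * c i) • m i) := by
        rw [eq_neg_iff_add_eq_zero, add_comm]
        exact h
      have h2 : l = (r * x)⁻¹ • ((r * x) • l) := by
        rw [smul_smul, inv_mul_cancel₀ (mul_ne_zero hr hx), one_smul]
      rw [h2, h1, smul_neg, smul_smul, neg_smul]
    have hc := cramer3 (a 0) (a 1) (a 2) p
    rw [← hDdef] at hc
    have excl : ∀ i j : Fin 3, i ≠ j → ¬ Np l (m i) → ¬ Np l (m j) → False := by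
      intro i j hij hi hj
      rw [np_comm] at hi
      exact not_np_trans hl hi hj (hm i j hij)
    have fin : ∀ (i : Fin 3) (x : ℝ), D • p = x • a i → ¬ Np p (a i) := by
      intro i x h
      rw [np_comm]
      by_contra h'
      have : p = (D⁻¹ * x) • a i := by
        rw [mul_smul, ← h, smul_smul, inv_mul_cancel₀ hD, one_smul]
      rw [this] at h'
      exact not_np_smul _ _ h'
    by_cases x0 : crossProduct (a 1) (a 2) ⬝ᵥ p = 0
    · by_cases x1 : crossProduct (a 2) (a 0) ⬝ᵥ p = 0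
      · rw [x0, x1, zero_smul, zero_smul, zero_add, zero_add] at hc
        refine ⟨2, fin 2 _ hc, par 2 _ key2 ?_⟩
        intro x2
        rw [x2, zero_smul] at hc
        rcases smul_eq_zero.1 hc with h | h
        · exact hD h
        · exact hp h
      · have q1 := par 1 _ key1 x1
        have x2 : crossProduct (a 0) (a 1) ⬝ᵥ p = 0 := by
          by_contra x2
          exact excl 1 2 (by decide) q1 (par 2 _ key2 x2)
        rw [x0, x2, zero_smul, zero_smul, zero_add, add_zero] at hc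
        exact ⟨1, fin 1 _ hc, q1⟩
    · have q0 := par 0 _ key0 x0
      have x1 : crossProduct (a 2) (a 0) ⬝ᵥ p = 0 := by
        by_contra x1
        exact excl 0 1 (by decide) q0 (par 1 _ key1 x1)
      have x2 : crossProduct (a 0) (a 1) ⬝ᵥ p = 0 := by
        by_contra x2
        exact excl 0 2 (by decide) q0 (par 2 _ key2 x2)
      rw [x1, x2, zero_smul, zero_smul, add_zero, add_zero] at hc
      exact ⟨0, fin 0 _ hc, q0⟩

/-- two independent vectors have only the trivial relation -/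
theorem Np.rel {u v : E} (h : Np u v) {x y : ℝ} (hxy : x • u + y • v = 0) : x = 0 ∧ y = 0 := by
  have h1 : x • crossProduct u v = 0 := by
    have := congrArg (fun w => crossProduct w v) hxy
    simpa using this
  have h2 : y • crossProduct u v = 0 := by
    have := congrArg (fun w => crossProduct u w) hxy
    simpa using this
  refine ⟨?_, ?_⟩
  · rcases smul_eq_zero.1 h1 with h' | h'
    · exact h'
    · exact absurd h' h
  · rcases smul_eq_zero.1 h2 with h' | h'
    · exact h'
    · exact absurd h' h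

theorem rankDep : RankDepStmt := by
  intro a m ha had hm O hO hOm c r p l hp hl H
  have a01 := ha 0 1 (by decide)
  have a02 := ha 0 2 (by decide)
  have a12 := ha 1 2 (by decide)
  have hm0 := np_ne_zero hm
  have ad : det3 (a 0) (a 1) (a 2) = 0 := by
    by_contra h
    exact had ((linInd_iff_det3 a).2 h)
  have ad' : crossProduct (a 0) (a 1) ⬝ᵥ a 2 = 0 := by
    rw [← det3_eq]
    exact ad
  by_cases hr : r = 0
  · left
    refine ⟨hr, ?_⟩
    obtain ⟨x, y, hx, hy, h2⟩ := exists_comb_ne a01 a02 a12 ad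
    -- `s ⟂ a 0`
    have key1 : (c 1 * (crossProduct (a 0) (a 1) ⬝ᵥ crossProduct (a 0) (a 1))) • m 1 +
        (c 2 * (y * (crossProduct (a 0) (a 1) ⬝ᵥ crossProduct (a 0) (a 1)))) • m 2 = 0 := by
      apply eq_zero_of_dot
      intro t
      have h := H (crossProduct (crossProduct (a 0) (a 1)) (a 0)) t
      rw [Fin.sum_univ_three, hr, zero_mul, add_zero] at h
      have e0 : crossProduct (crossProduct (a 0) (a 1)) (a 0) ⬝ᵥ a 0 = 0 := by
        rw [dotProduct_comm, dot_cross_self]
      have e1 : crossProduct (crossProduct (a 0) (a 1)) (a 0) ⬝ᵥ a 1 =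
          crossProduct (a 0) (a 1) ⬝ᵥ crossProduct (a 0) (a 1) := by
        simp only [dot3, cr0, cr1, cr2]
        ring
      have e2 : crossProduct (crossProduct (a 0) (a 1)) (a 0) ⬝ᵥ a 2 =
          y * (crossProduct (a 0) (a 1) ⬝ᵥ crossProduct (a 0) (a 1)) := by
        rw [h2, dotProduct_add, dotProduct_smul, dotProduct_smul, e0, e1, smul_zero, zero_add,
          smul_eq_mul]
      rw [e0, e1, e2] at h
      rw [dotProduct_add, dotProduct_smul, dotProduct_smul, smul_eq_mul, smul_eq_mul]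
      linear_combination h
    -- `s ⟂ a 1`
    have key0 : (c 0 * -(crossProduct (a 0) (a 1) ⬝ᵥ crossProduct (a 0) (a 1))) • m 0 +
        (c 2 * (x * -(crossProduct (a 0) (a 1) ⬝ᵥ crossProduct (a 0) (a 1)))) • m 2 = 0 := by
      apply eq_zero_of_dot
      intro t
      have h := H (crossProduct (crossProduct (a 0) (a 1)) (a 1)) t
      rw [Fin.sum_univ_three, hr, zero_mul, add_zero] at h
      have e1 : crossProduct (crossProduct (a 0) (a 1)) (a 1) ⬝ᵥ a 1 = 0 := by
        rw [dotProduct_comm, dot_cross_self]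
      have e0 : crossProduct (crossProduct (a 0) (a 1)) (a 1) ⬝ᵥ a 0 =
          -(crossProduct (a 0) (a 1) ⬝ᵥ crossProduct (a 0) (a 1)) := by
        simp only [dot3, cr0, cr1, cr2]
        ring
      have e2 : crossProduct (crossProduct (a 0) (a 1)) (a 1) ⬝ᵥ a 2 =
          x * -(crossProduct (a 0) (a 1) ⬝ᵥ crossProduct (a 0) (a 1)) := by
        rw [h2, dotProduct_add, dotProduct_smul, dotProduct_smul, e0, e1, smul_zero, add_zero,
          smul_eq_mul]
      rw [e0, e1, e2] at h
      rw [dotProduct_add, dotProduct_smul, dotProduct_smul, smul_eq_mul, smul_eq_mul]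
      linear_combination h
    have hn := dot_self_ne a01
    obtain ⟨r1, r2⟩ := (hm 1 2 (by decide)).rel key1
    obtain ⟨r0, -⟩ := (hm 0 2 (by decide)).rel key0
    have c1 : c 1 = 0 := (mul_eq_zero.1 r1).resolve_right hn
    have c2 : c 2 = 0 := (mul_eq_zero.1 r2).resolve_right (mul_ne_zero hy hn)
    have c0 : c 0 = 0 := (mul_eq_zero.1 r0).resolve_right (neg_ne_zero.2 hn)
    intro i
    fin_cases i
    · exact c0
    · exact c1
    · exact c2
  · right
    constructor
    · have h := H (crossProduct (a 0) (a 1)) l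
      have e0 : crossProduct (a 0) (a 1) ⬝ᵥ a 0 = 0 := by
        rw [dotProduct_comm, dot_self_cross]
      have e1 : crossProduct (a 0) (a 1) ⬝ᵥ a 1 = 0 := by
        rw [dotProduct_comm, dot_cross_self]
      rw [Fin.sum_univ_three, e0, e1, ad'] at h
      simp only [zero_mul, mul_zero, zero_add] at h
      rcases mul_eq_zero.1 h with h' | h'
      · exact absurd h' hr
      · rw [det3_eq]
        exact (mul_eq_zero.1 h').resolve_right (dot_self_ne hl)
    · have h := H p O
      rw [Fin.sum_univ_three, hOm, hOm, hOm] at h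
      simp only [mul_zero, zero_add] at h
      rcases mul_eq_zero.1 h with h' | h'
      · exact absurd h' hr
      · exact (mul_eq_zero.1 h').resolve_left (dot_self_ne hp)

end N3
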