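import Pool.Agent.Lib_n3.StmtsDF
import Pool.Agent.Lib_n3.Core
import Pool.Agent.Lib_n3.GlueLA3

/-!
# Module DFKill of the project MP_07e12a_co: girth at least 8, killing the zero pairs
-/

open scoped Matrix Topology
open Finset

namespace N3

namespace DFK

set_option linter.unusedSectionVars false

variable {V : Type} [Fintype V] [DecidableEq V]

/-! ### Structure of the configuration -/

theorem nb3 {G : SimpleGraph V} {u a b c : V} (h3 : dg G univ u = 3) (hab : a ≠ b) (hac : a ≠ c)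
    (hbc : b ≠ c) (ha : G.Adj u a) (hb : G.Adj u b) (hc : G.Adj u c) {w : V} (hw : G.Adj u w) :
    w = a ∨ w = b ∨ w = c := by
  classical
  by_contra h
  push Not at h
  have h1 : ({w, a, b, c} : Finset V) ⊆ univ.filter (fun y => G.Adj u y) := by
    intro y hy
    simp only [mem_insert, mem_singleton] at hy
    simp only [mem_filter, mem_univ, true_and]
    rcases hy with rfl | rfl | rfl | rfl <;> assumption
  have h4 := Finset.card_le_card h1
  have h5 : ({w, a, b, c} : Finset V).card = 4 := by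
    rw [Finset.card_insert_of_notMem, Finset.card_insert_of_notMem, Finset.card_insert_of_notMem,
      Finset.card_singleton]
    · simpa using hbc
    · simp [hab, hac]
    · simp [h.1, h.2.1, h.2.2]
  unfold dg at h3
  rw [h5] at h4
  have h6 : (univ.filter (fun y => G.Adj u y)).card = 3 := by
    convert h3
  omega

/-- `a` is one of `p i`, `r i` -/
def PR (p r : Fin 3 → V) (i : Fin 3) (a : V) : Prop := a = p i ∨ a = r i

variable {G : SimpleGraph V} {side : V → Bool} {v : V} {x p r : Fin 3 → V}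

theorem side_x (D : DFData G side v x p r) (i : Fin 3) : side (x i) ≠ side v :=
  (D.lev.bip v (x i) (D.vx i)).symm

theorem PR.adj (D : DFData G side v x p r) {i : Fin 3} {a : V} (h : PR p r i a) :
    G.Adj (x i) a := by
  rcases h with rfl | rfl
  · exact D.xp i
  · exact D.xr i

theorem PR.ne_v (D : DFData G side v x p r) {i : Fin 3} {a : V} (h : PR p r i a) : a ≠ v := by
  rcases h with rfl | rfl
  · exact D.pv i
  · exact D.rv i

theorem PR.sd (D : DFData G side v x p r) {i : Fin 3} {a : V} (h : PR p r i a) :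
    side a = side v :=
  D.lev.bip.side_eq (h.adj D) (D.vx i).symm

theorem PR.inj (D : DFData G side v x p r) {i j : Fin 3} {a : V} (h : PR p r i a)
    (h' : PR p r j a) : i = j := by
  by_contra hij
  exact h.ne_v D (D.lev.noC4 (x i) (x j) (fun e => hij (D.x_inj e)) a v (h.adj D) (h'.adj D)
    (D.vx i).symm (D.vx j).symm)

theorem nb_v (D : DFData G side v x p r) {l : V} (h : G.Adj v l) : ∃ i, l = x i := by
  rcases nb3 (D.lev.cubic v) (D.x_inj.ne (by decide : (0 : Fin 3) ≠ 1))
    (D.x_inj.ne (by decide : (0 : Fin 3) ≠ 2)) (D.x_inj.ne (by decide : (1 : Fin 3) ≠ 2))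
    (D.vx 0) (D.vx 1) (D.vx 2) h with h | h | h
  · exact ⟨0, h⟩
  · exact ⟨1, h⟩
  · exact ⟨2, h⟩

theorem nb_x (D : DFData G side v x p r) {i : Fin 3} {u : V} (h : G.Adj (x i) u) :
    u = v ∨ PR p r i u := by
  rcases nb3 (D.lev.cubic (x i)) (D.pv i).symm (D.rv i).symm (D.pr i) (D.vx i).symm (D.xp i)
    (D.xr i) h with h | h | h
  · exact Or.inl h
  · exact Or.inr (Or.inl h)
  · exact Or.inr (Or.inr h)

/-- vertices `p i, r i, p j, r j` have no common neighbours other than `x i` -/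
theorem no_common (D : DFData G side v x p r) {i j : Fin 3} {a b u : V} (ha : PR p r i a)
    (hb : PR p r j b) (hab : a ≠ b) (hau : G.Adj a u) (hbu : G.Adj b u) : i = j ∧ u = x i := by
  by_cases hij : i = j
  · subst hij
    exact ⟨rfl, D.lev.noC4 a b hab u (x i) hau hbu (ha.adj D).symm (hb.adj D).symm⟩
  · exfalso
    have hxx : x i ≠ x j := fun e => hij (D.x_inj e)
    have hui : u ≠ x i := by
      rintro rfl
      rcases nb_x D hbu.symm with h | h
      · exact hb.ne_v D h
      · exact hij (h.inj D hb)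
    have huj : u ≠ x j := by
      rintro rfl
      rcases nb_x D hau.symm with h | h
      · exact ha.ne_v D h
      · exact hij (ha.inj D h)
    have hsu : side u ≠ side v := by
      rw [← ha.sd D]
      exact (D.lev.bip a u hau).symm
    have ne1 : ∀ {s t : V}, side s = side v → side t ≠ side v → s ≠ t := fun hs ht e =>
      ht (e ▸ hs)
    have hv : side v = side v := rfl
    refine D.c6 ![v, x i, a, u, b, x j] ?_ ?_
    · rw [← List.nodup_ofFn]
      simp only [List.ofFn_succ, List.ofFn_zero, List.nodup_cons, List.mem_cons, List.not_mem_nil,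
        Matrix.cons_val_zero, Matrix.cons_val_succ, or_false, not_or, not_false_eq_true,
        List.nodup_nil, and_true]
      refine ⟨⟨ne1 hv (side_x D i), (ha.ne_v D).symm, ne1 hv hsu, (hb.ne_v D).symm,
        ne1 hv (side_x D j)⟩, ⟨(ne1 (ha.sd D) (side_x D i)).symm, hui.symm,
        (ne1 (hb.sd D) (side_x D i)).symm, hxx⟩, ⟨ne1 (ha.sd D) hsu, hab,
        ne1 (ha.sd D) (side_x D j)⟩, ⟨(ne1 (hb.sd D) hsu).symm, huj⟩,
        ne1 (hb.sd D) (side_x D j)⟩
    · intro k
      fin_cases k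
      · exact D.vx i
      · exact ha.adj D
      · exact hau
      · exact hbu.symm
      · exact (hb.adj D).symm
      · exact (D.vx j).symm

theorem q_fix {u : V} (h1 : u ≠ r 1) (h2 : u ≠ r 2) : dfQ p r u = u := by
  unfold dfQ
  rw [if_neg h1, if_neg h2]

theorem q_line (D : DFData G side v x p r) {u : V} (h : side u ≠ side v) : dfQ p r u = u := by
  refine q_fix ?_ ?_
  · rintro rfl
    exact h (PR.sd D (Or.inr rfl))
  · rintro rfl
    exact h (PR.sd D (Or.inr rfl))

theorem q_v (D : DFData G side v x p r) : dfQ p r v = v :=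
  q_fix (D.rv 1).symm (D.rv 2).symm

theorem q_x (D : DFData G side v x p r) (i : Fin 3) : dfQ p r (x i) = x i :=
  q_line D (side_x D i)

theorem q_PR0 (D : DFData G side v x p r) {a : V} (h : PR p r 0 a) : dfQ p r a = a := by
  refine q_fix ?_ ?_
  · rintro rfl
    exact absurd (h.inj D (Or.inr rfl)) (by decide)
  · rintro rfl
    exact absurd (h.inj D (Or.inr rfl)) (by decide)

theorem q_PR (D : DFData G side v x p r) {j : Fin 3} (hj : j ≠ 0) {a : V} (h : PR p r j a) :
    dfQ p r a = p j := by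
  rcases h with rfl | rfl
  · refine q_fix ?_ ?_
    · intro e
      have : j = 1 := PR.inj D (Or.inl rfl) (Or.inr e)
      subst this
      exact D.pr _ e
    · intro e
      have : j = 2 := PR.inj D (Or.inl rfl) (Or.inr e)
      subst this
      exact D.pr _ e
  · fin_cases j
    · exact absurd rfl hj
    · unfold dfQ
      exact if_pos rfl
    · unfold dfQ
      have h21 : r 2 ≠ r 1 := fun e =>
        absurd (PR.inj D (i := 2) (j := 1) (Or.inr rfl) (Or.inr e)) (by decide)
      exact (if_neg h21).trans (if_pos rfl)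

theorem q_cases (D : DFData G side v x p r) (u : V) :
    dfQ p r u = u ∨ ∃ j, j ≠ 0 ∧ u = r j ∧ dfQ p r u = p j := by
  by_cases h1 : u = r 1
  · exact Or.inr ⟨1, by decide, h1, q_PR D (by decide) (Or.inr h1)⟩
  · by_cases h2 : u = r 2
    · exact Or.inr ⟨2, by decide, h2, q_PR D (by decide) (Or.inr h2)⟩
    · exact Or.inl (q_fix h1 h2)

theorem q_side (D : DFData G side v x p r) (u : V) : side (dfQ p r u) = side u := by
  rcases q_cases D u with h | ⟨j, _, h1, h2⟩
  · rw [h]
  · rw [h2, h1, PR.sd D (Or.inl rfl), PR.sd D (Or.inr rfl)]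

theorem q_eq_p (D : DFData G side v x p r) {j : Fin 3} {u : V} (h : dfQ p r u = p j) :
    PR p r j u := by
  rcases q_cases D u with h1 | ⟨k, _, h1, h2⟩
  · exact Or.inl (h1 ▸ h)
  · rw [h2] at h
    have : k = j := PR.inj D (Or.inl rfl) (Or.inl h)
    subst this
    exact Or.inr h1

theorem q_eq (D : DFData G side v x p r) {u u' : V} (h : dfQ p r u = dfQ p r u') (hne : u ≠ u') :
    ∃ j, j ≠ 0 ∧ PR p r j u ∧ PR p r j u' := by
  rcases q_cases D u with h1 | ⟨j, hj, h1, h2⟩
  · rcases q_cases D u' with h1' | ⟨j, hj, h1', h2'⟩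
    · rw [h1, h1'] at h
      exact absurd h hne
    · refine ⟨j, hj, ?_, Or.inr h1'⟩
      rw [h2'] at h
      exact q_eq_p D h
  · refine ⟨j, hj, Or.inr h1, ?_⟩
    rw [h2] at h
    exact q_eq_p D h.symm

theorem q_eq_line (D : DFData G side v x p r) {u l : V} (hl : side l ≠ side v)
    (h : dfQ p r u = l) : u = l := by
  have : side u ≠ side v := by rw [← q_side D u, h]; exact hl
  rwa [q_line D this] at h

theorem q_eq_v (D : DFData G side v x p r) {u : V} (h : dfQ p r u = v) : u = v := by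
  rcases q_cases D u with h1 | ⟨j, hj, h1, h2⟩
  · rwa [h1] at h
  · rw [h2] at h
    exact absurd h (D.pv j)

/-- `dfF` is the quotient of `G` without `v, x 1, x 2` -/
theorem adjF (D : DFData G side v x p r) (a b : V) : (dfF G v x p r).Adj a b ↔
    ∃ u w, G.Adj u w ∧ dfQ p r u = a ∧ dfQ p r w = b ∧ (u ≠ v ∧ u ≠ x 1 ∧ u ≠ x 2) ∧
      (w ≠ v ∧ w ≠ x 1 ∧ w ≠ x 2) := by
  have hx0 : x 0 ≠ v ∧ x 0 ≠ x 1 ∧ x 0 ≠ x 2 :=
    ⟨(D.vx 0).ne.symm, D.x_inj.ne (by decide), D.x_inj.ne (by decide)⟩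
  have hPR : ∀ {a : V}, PR p r 0 a → a ≠ v ∧ a ≠ x 1 ∧ a ≠ x 2 := fun {a} h =>
    ⟨h.ne_v D, fun e => side_x D 1 (e ▸ h.sd D), fun e => side_x D 2 (e ▸ h.sd D)⟩
  have aux : ∀ {a u : V}, dfQ p r u = a → a ∈ univ \ ({v, x 0, x 1, x 2} : Finset V) →
      (u ≠ v ∧ u ≠ x 1 ∧ u ≠ x 2) := by
    intro a u h ha
    simp only [mem_sdiff, mem_univ, mem_insert, mem_singleton, true_and, not_or] at ha
    refine ⟨?_, ?_, ?_⟩
    · rintro rfl; rw [q_v D] at h; exact ha.1 h.symm
    · rintro rfl; rw [q_x D] at h; exact ha.2.2.1 h.symm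
    · rintro rfl; rw [q_x D] at h; exact ha.2.2.2 h.symm
  unfold dfF
  rw [addE_adj, addE_adj]
  constructor
  · rintro ((h | ⟨⟨rfl, rfl⟩ | ⟨rfl, rfl⟩, _⟩) | ⟨⟨rfl, rfl⟩ | ⟨rfl, rfl⟩, _⟩)
    · obtain ⟨hq, ha, hb⟩ := h
      unfold quot at hq
      rw [SimpleGraph.fromRel_adj] at hq
      rcases hq.2 with ⟨u, w, h1, h2, h3⟩ | ⟨u, w, h1, h2, h3⟩
      · exact ⟨u, w, h1, h2, h3, aux h2 ha, aux h3 hb⟩
      · exact ⟨w, u, h1.symm, h3, h2, aux h3 ha, aux h2 hb⟩
    · exact ⟨x 0, p 0, D.xp 0, q_x D 0, q_PR0 D (Or.inl rfl), hx0, hPR (Or.inl rfl)⟩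
    · exact ⟨p 0, x 0, (D.xp 0).symm, q_PR0 D (Or.inl rfl), q_x D 0, hPR (Or.inl rfl), hx0⟩
    · exact ⟨x 0, r 0, D.xr 0, q_x D 0, q_PR0 D (Or.inr rfl), hx0, hPR (Or.inr rfl)⟩
    · exact ⟨r 0, x 0, (D.xr 0).symm, q_PR0 D (Or.inr rfl), q_x D 0, hPR (Or.inr rfl), hx0⟩
  · rintro ⟨u, w, huw, rfl, rfl, ⟨hu1, hu2, hu3⟩, hw1, hw2, hw3⟩
    have hxp : x 0 ≠ p 0 := (D.xp 0).ne
    have hxr : x 0 ≠ r 0 := (D.xr 0).ne
    by_cases hu0 : u = x 0
    · subst hu0
      rcases nb_x D huw with h | h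
      · exact absurd h hw1
      · rw [q_x D, q_PR0 D h]
        rcases h with rfl | rfl
        · exact Or.inl (Or.inr ⟨Or.inl ⟨rfl, rfl⟩, hxp⟩)
        · exact Or.inr ⟨Or.inl ⟨rfl, rfl⟩, hxr⟩
    by_cases hw0 : w = x 0
    · subst hw0
      rcases nb_x D huw.symm with h | h
      · exact absurd h hu1
      · rw [q_x D, q_PR0 D h]
        rcases h with rfl | rfl
        · exact Or.inl (Or.inr ⟨Or.inr ⟨rfl, rfl⟩, hxp⟩)
        · exact Or.inr ⟨Or.inr ⟨rfl, rfl⟩, hxr⟩
    refine Or.inl (Or.inl ⟨?_, ?_, ?_⟩)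
    · unfold quot
      rw [SimpleGraph.fromRel_adj]
      refine ⟨fun e => ?_, Or.inl ⟨u, w, huw, rfl, rfl⟩⟩
      have := D.lev.bip u w huw
      rw [← q_side D u, ← q_side D w, e] at this
      exact this rfl
    · simp only [mem_sdiff, mem_univ, mem_insert, mem_singleton, true_and, not_or]
      exact ⟨fun h => hu1 (q_eq_v D h), fun h => hu0 (q_eq_line D (side_x D 0) h),
        fun h => hu2 (q_eq_line D (side_x D 1) h), fun h => hu3 (q_eq_line D (side_x D 2) h)⟩
    · simp only [mem_sdiff, mem_univ, mem_insert, mem_singleton, true_and, not_or]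
      exact ⟨fun h => hw1 (q_eq_v D h), fun h => hw0 (q_eq_line D (side_x D 0) h),
        fun h => hw2 (q_eq_line D (side_x D 1) h), fun h => hw3 (q_eq_line D (side_x D 2) h)⟩

theorem dfF_of (D : DFData G side v x p r) {u w : V} (h : G.Adj u w) (hu1 : u ≠ v)
    (hu2 : u ≠ x 1) (hu3 : u ≠ x 2) (hw1 : w ≠ v) (hw2 : w ≠ x 1) (hw3 : w ≠ x 2) :
    (dfF G v x p r).Adj (dfQ p r u) (dfQ p r w) :=
  (adjF D _ _).2 ⟨u, w, h, rfl, rfl, ⟨hu1, hu2, hu3⟩, hw1, hw2, hw3⟩

theorem ij_cases {i j : Fin 3} (hi : i ≠ 0) (hj : j ≠ 0) (hij : i ≠ j) :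
    (i = 1 ∧ j = 2) ∨ (i = 2 ∧ j = 1) := by
  revert i j
  decide

/-! ### Sums -/

theorem sum3 {M : Type} [AddCommMonoid M] (f : V → M) {a b c : V} (hab : a ≠ b) (hac : a ≠ c)
    (hbc : b ≠ c) (h : ∀ u, u ≠ a → u ≠ b → u ≠ c → f u = 0) :
    ∑ u, f u = f a + f b + f c := by
  have h1 : ∑ u ∈ ({a, b, c} : Finset V), f u = ∑ u, f u :=
    Finset.sum_subset (Finset.subset_univ _) (by
      intro u _ hu
      simp only [mem_insert, mem_singleton, not_or] at hu
      exact h u hu.1 hu.2.1 hu.2.2)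
  rw [← h1, Finset.sum_insert (by simp [hab, hac]), Finset.sum_insert (by simp [hbc]),
    Finset.sum_singleton, add_assoc]

theorem sum2 {M : Type} [AddCommMonoid M] (f : V → M) {a b : V} (hab : a ≠ b)
    (h : ∀ u, u ≠ a → u ≠ b → f u = 0) : ∑ u, f u = f a + f b := by
  have h1 : ∑ u ∈ ({a, b} : Finset V), f u = ∑ u, f u :=
    Finset.sum_subset (Finset.subset_univ _) (by
      intro u _ hu
      simp only [mem_insert, mem_singleton, not_or] at hu
      exact h u hu.1 hu.2)
  rw [← h1, Finset.sum_pair hab]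

theorem sum1 {M : Type} [AddCommMonoid M] (f : V → M) {a : V}
    (h : ∀ u, u ≠ a → f u = 0) : ∑ u, f u = f a :=
  Finset.sum_eq_single a (fun u _ hu => h u hu) (fun h => absurd (Finset.mem_univ _) h)

/-! ### The weighted push-forward -/

/-- weighted push-forward of edge weights -/
def psh (q : V → V) (c : V → ℝ) (ω : V → V → ℝ) (a b : V) : ℝ :=
  ∑ u, if q u = a then c u * (∑ w, if q w = b then c w * ω u w else 0) else 0

theorem psh_eq (q : V → V) (c : V → ℝ) (ω : V → V → ℝ) (a b : V) :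
    psh q c ω a b = ∑ u, ∑ w, if q u = a ∧ q w = b then c u * c w * ω u w else 0 := by
  unfold psh
  refine Finset.sum_congr rfl fun u _ => ?_
  by_cases h : q u = a
  · simp only [h, if_true, true_and, Finset.mul_sum]
    refine Finset.sum_congr rfl fun w _ => ?_
    split_ifs <;> ring
  · simp [h]

theorem psh_symm {q : V → V} {c : V → ℝ} {ω : V → V → ℝ} (hs : ∀ u w, ω u w = ω w u) (a b : V) :
    psh q c ω a b = psh q c ω b a := by
  rw [psh_eq, psh_eq, Finset.sum_comm]
  refine Finset.sum_congr rfl fun w _ => Finset.sum_congr rfl fun u _ => ?_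
  rw [hs u w, mul_comm (c u) (c w)]
  by_cases h : q u = a ∧ q w = b
  · rw [if_pos h, if_pos h.symm]
  · rw [if_neg h, if_neg (fun h' => h h'.symm)]

theorem psh_ne {q : V → V} {c : V → ℝ} {ω : V → V → ℝ} {a b : V} (h : psh q c ω a b ≠ 0) :
    ∃ u w, q u = a ∧ q w = b ∧ c u ≠ 0 ∧ c w ≠ 0 ∧ ω u w ≠ 0 := by
  rw [psh_eq] at h
  obtain ⟨u, -, hu⟩ := Finset.exists_ne_zero_of_sum_ne_zero h
  obtain ⟨w, -, hw⟩ := Finset.exists_ne_zero_of_sum_ne_zero hu
  by_cases hq : q u = a ∧ q w = b
  · rw [if_pos hq] at hw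
    exact ⟨u, w, hq.1, hq.2, left_ne_zero_of_mul (left_ne_zero_of_mul hw),
      right_ne_zero_of_mul (left_ne_zero_of_mul hw), right_ne_zero_of_mul hw⟩
  · rw [if_neg hq] at hw
    exact absurd rfl hw

theorem psh_sum (q : V → V) (c : V → ℝ) (ω : V → V → ℝ) (ρ : V → E) (a : V) :
    ∑ b, psh q c ω a b • ρ b =
      ∑ u, if q u = a then c u • ∑ w, ω u w • (c w • ρ (q w)) else 0 := by
  unfold psh
  simp only [Finset.sum_smul]
  rw [Finset.sum_comm]
  refine Finset.sum_congr rfl fun u _ => ?_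
  by_cases h : q u = a
  · simp only [if_pos h, mul_smul, ← Finset.smul_sum]
    congr 1
    simp only [Finset.sum_smul]
    rw [Finset.sum_comm]
    refine Finset.sum_congr rfl fun w _ => ?_
    rw [sum1 _ (a := q w) (fun b hb => by rw [if_neg hb.symm, zero_smul]), if_pos rfl, mul_comm,
      mul_smul]
  · simp [if_neg h]

theorem psh_equil {q : V → V} {c : V → ℝ} {ω : V → V → ℝ} {ρ κ : V → E}
    (hκ : ∀ u, ∑ w, ω u w • κ w = 0) (a : V)
    (h : ∑ u, (if q u = a then c u • ∑ w, ω u w • (c w • ρ (q w) - κ w) else 0) = 0) :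
    ∑ b, psh q c ω a b • ρ b = 0 := by
  refine (psh_sum q c ω ρ a).trans (Eq.trans ?_ h)
  refine Finset.sum_congr rfl fun u _ => ?_
  by_cases hu : q u = a
  · rw [if_pos hu, if_pos hu]
    congr 1
    simp only [smul_sub, Finset.sum_sub_distrib, hκ, sub_zero]
  · rw [if_neg hu, if_neg hu]

/-! ### The realization `κ` -/

/-- the realization `κ` of `G` -/
def kap (v : V) (x p r : Fin 3 → V) (ρ : V → E) (w : E) (u : V) : E :=
  if u = v then w else if u = x 1 then crossProduct w (ρ (p 1)) else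
    if u = x 2 then crossProduct w (ρ (p 2)) else ρ (dfQ p r u)

theorem kap_v (v : V) (x p r : Fin 3 → V) (ρ : V → E) (w : E) : kap v x p r ρ w v = w :=
  if_pos rfl

theorem kap_x (D : DFData G side v x p r) (ρ : V → E) (w : E) {j : Fin 3} (hj : j ≠ 0) :
    kap v x p r ρ w (x j) = crossProduct w (ρ (p j)) := by
  have hv : ∀ k, x k ≠ v := fun k => (D.vx k).ne.symm
  fin_cases j
  · exact absurd rfl hj
  · exact (if_neg (hv 1)).trans (if_pos rfl)
  · have h21 : x 2 ≠ x 1 := D.x_inj.ne (by decide)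
    exact (if_neg (hv 2)).trans ((if_neg h21).trans (if_pos rfl))

theorem kap_else (v : V) (x p r : Fin 3 → V) (ρ : V → E) (w : E) {u : V} (h1 : u ≠ v)
    (h2 : u ≠ x 1) (h3 : u ≠ x 2) : kap v x p r ρ w u = ρ (dfQ p r u) := by
  unfold kap
  rw [if_neg h1, if_neg h2, if_neg h3]

/-- the map of the push-forward -/
def qq (x p r : Fin 3 → V) (j : Fin 3) (u : V) : V := if u = x j then x 0 else dfQ p r u

/-- the coefficients of the push-forward -/
noncomputable def cc (v : V) (x : Fin 3 → V) (i j : Fin 3) (lam : ℝ) (u : V) : ℝ :=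
  if u = v ∨ u = x i then 0 else if u = x j then lam else 1

theorem cc_v (v : V) (x : Fin 3 → V) (i j : Fin 3) (lam : ℝ) : cc v x i j lam v = 0 :=
  if_pos (Or.inl rfl)

theorem cc_i (v : V) (x : Fin 3 → V) (i j : Fin 3) (lam : ℝ) : cc v x i j lam (x i) = 0 :=
  if_pos (Or.inr rfl)

theorem cc_j (D : DFData G side v x p r) {i j : Fin 3} (hij : i ≠ j) (lam : ℝ) :
    cc v x i j lam (x j) = lam := by
  unfold cc
  rw [if_neg, if_pos rfl]
  rintro (h | h)
  · exact (D.vx j).ne.symm h
  · exact hij (D.x_inj h).symm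

theorem cc_else {v : V} {x : Fin 3 → V} {i j : Fin 3} (lam : ℝ) {u : V} (h1 : u ≠ v)
    (h2 : u ≠ x i) (h3 : u ≠ x j) : cc v x i j lam u = 1 := by
  unfold cc
  rw [if_neg (by simp [h1, h2]), if_neg h3]

theorem qq_j (x p r : Fin 3 → V) (j : Fin 3) : qq x p r j (x j) = x 0 := if_pos rfl

theorem qq_else {x p r : Fin 3 → V} {j : Fin 3} {u : V} (h : u ≠ x j) :
    qq x p r j u = dfQ p r u := if_neg h

theorem x_ne (D : DFData G side v x p r) {j k : Fin 3} (h : j ≠ k) : x j ≠ x k :=
  D.x_inj.ne h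

theorem x_ne_v (D : DFData G side v x p r) (j : Fin 3) : x j ≠ v := (D.vx j).ne.symm

theorem ne_x (D : DFData G side v x p r) {u : V} (h : side u = side v) (j : Fin 3) : u ≠ x j :=
  fun e => side_x D j (e ▸ h)

/-- a pair of `addE G y z` with a line is an edge of `G` or the pair `y z` -/
theorem supp {y z : V} {κ : V → E} {ω : V → V → ℝ} (hω : Stress (addE G y z) κ ω) {u w : V}
    (h : ω u w ≠ 0) : G.Adj u w ∨ (u = y ∧ w = z) ∨ (u = z ∧ w = y) := by
  by_contra hn
  push Not at hn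
  refine h (hω.2.1 u w ?_)
  rw [addE_adj]
  rintro (h' | ⟨⟨rfl, rfl⟩ | ⟨rfl, rfl⟩, _⟩)
  · exact hn.1 h'
  · exact hn.2.1 rfl rfl
  · exact hn.2.2 rfl rfl

theorem ite_sum_zero {M : Type} [AddCommMonoid M] (P : V → Prop) [DecidablePred P] (f : V → M)
    (h : ∀ u, P u → f u = 0) : ∑ u, (if P u then f u else 0) = 0 := by
  refine Finset.sum_eq_zero fun u _ => ?_
  split_ifs with hu
  · exact h u hu
  · rfl

/-- PUSH: the push-forward of a stress is a stress -/
theorem push_stress (D : DFData G side v x p r) {ρ : V → E} {w : E} {ω : V → V → ℝ} {y z : V}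
    (hy : side y = side v) (hyv : y ≠ v) (hz : side z ≠ side v)
    (hω : Stress (addE G y z) (kap v x p r ρ w) ω) {i j : Fin 3} (hi : i ≠ 0) (hj : j ≠ 0)
    (hij : i ≠ j) (hzi : z ≠ x i) {lam : ℝ}
    (H1 : ω (x 0) v + lam * ω (x j) v = 0)
    (H2 : ω (p i) (x i) + ω (r i) (x i) = 0)
    (H3 : kap v x p r ρ w (x j) = lam • ρ (x 0) ∨
      (lam = 0 ∧ z ≠ x j ∧ ω (p j) (x j) + ω (r j) (x j) = 0))
    {K : SimpleGraph V} (hK1 : dfF G v x p r ≤ K) (hK2 : lam ≠ 0 → K.Adj (x 0) (p j))
    (hK3 : z ≠ x j → K.Adj (dfQ p r y) z) (hK4 : lam ≠ 0 → z = x j → K.Adj (dfQ p r y) (x 0)) :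
    Stress K ρ (psh (qq x p r j) (cc v x i j lam) ω) := by
  have hzv : z ≠ v := fun e => hz (by rw [e])
  have h12 : ∀ {u : V}, u ≠ x i → u ≠ x j → u ≠ x 1 ∧ u ≠ x 2 := by
    intro u h1 h2
    rcases ij_cases hi hj hij with ⟨rfl, rfl⟩ | ⟨rfl, rfl⟩
    · exact ⟨h1, h2⟩
    · exact ⟨h2, h1⟩
  -- the coefficient is nonzero
  have hc : ∀ {u : V}, cc v x i j lam u ≠ 0 → u ≠ v ∧ u ≠ x i ∧ (u = x j → lam ≠ 0) := by
    intro u h
    refine ⟨?_, ?_, ?_⟩
    · rintro rfl; exact h (cc_v _ _ _ _ _)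
    · rintro rfl; exact h (cc_i _ _ _ _ _)
    · rintro rfl; rwa [cc_j D hij] at h
  -- support, point first
  have hsupp : ∀ u w' : V, side u = side v → cc v x i j lam u ≠ 0 → cc v x i j lam w' ≠ 0 →
      ω u w' ≠ 0 → K.Adj (qq x p r j u) (qq x p r j w') := by
    intro u w' hu hcu hcw h0
    obtain ⟨hu1, hu2, hu3⟩ := hc hcu
    obtain ⟨hw1, hw2, hw3⟩ := hc hcw
    have huj := ne_x D hu j
    rw [qq_else huj]
    rcases supp hω h0 with h | ⟨rfl, rfl⟩ | ⟨rfl, rfl⟩
    · by_cases hwj : w' = x j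
      · subst hwj
        have hl := hw3 rfl
        rcases nb_x D h.symm with h' | h'
        · exact absurd h' hu1
        · rw [q_PR D hj h', qq_j]
          exact (hK2 hl).symm
      · rw [qq_else hwj]
        exact hK1 (dfF_of D h hu1 (h12 hu2 huj).1 (h12 hu2 huj).2 hw1 (h12 hw2 hwj).1
          (h12 hw2 hwj).2)
    · by_cases hwj : w' = x j
      · subst hwj
        rw [qq_j]
        exact hK4 (hw3 rfl) rfl
      · rw [qq_else hwj, q_line D hz]
        exact hK3 hwj
    · exact absurd hu hz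
  refine ⟨psh_symm hω.1, ?_, ?_⟩
  · intro a b hab
    by_contra hne
    obtain ⟨u, w', rfl, rfl, hcu, hcw, h0⟩ := psh_ne hne
    by_cases hu : side u = side v
    · exact hab (hsupp u w' hu hcu hcw h0)
    · have hne' : side u ≠ side w' := by
        rcases supp hω h0 with h | ⟨rfl, rfl⟩ | ⟨rfl, rfl⟩
        · exact D.lev.bip _ _ h
        · exact absurd hy hu
        · rw [hy]; exact hz
      have hw : side w' = side v := by
        revert hu hne'
        generalize side u = s1
        generalize side w' = s2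
        generalize side v = s3
        revert s1 s2 s3
        decide
      refine hab (hsupp w' u hw hcw hcu ?_).symm
      rwa [hω.1]
  · intro a
    refine psh_equil (κ := kap v x p r ρ w) (fun u => hω.2.2 u) a ?_
    -- the inner sums
    have hin : ∀ u, ∑ w', ω u w' • (cc v x i j lam w' • ρ (qq x p r j w') - kap v x p r ρ w w') =
        ω u v • (-w) + ω u (x i) • (- kap v x p r ρ w (x i)) +
          ω u (x j) • (lam • ρ (x 0) - kap v x p r ρ w (x j)) := by
      intro u
      rw [sum3 _ (x_ne_v D i).symm (x_ne_v D j).symm (x_ne D hij)]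
      · rw [cc_v, cc_i, cc_j D hij, qq_j, kap_v, zero_smul, zero_sub, zero_smul, zero_sub]
      · intro w' h1 h2 h3
        rw [cc_else lam h1 h2 h3, qq_else h3, kap_else _ _ _ _ _ _ h1 (h12 h2 h3).1 (h12 h2 h3).2,
          one_smul, sub_self, smul_zero]
    simp only [hin]
    -- the three coefficient sums
    have hS1 : ∑ u, (if qq x p r j u = a then cc v x i j lam u * ω u v else 0) = 0 := by
      rw [sum2 _ (x_ne D hj.symm)]
      · rw [qq_j, qq_else (x_ne D hj.symm), q_x D, cc_j D hij,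
          cc_else lam (x_ne_v D 0) (x_ne D hi.symm) (x_ne D hj.symm)]
        split_ifs
        · rw [one_mul]; exact H1
        · rw [add_zero]
      · intro u h1 h2
        by_cases hui : u = x i
        · rw [hui, cc_i, zero_mul, ite_self]
        · have : ω u v = 0 := by
            by_contra h0
            rcases supp hω h0 with h | ⟨rfl, h⟩ | ⟨rfl, h⟩
            · obtain ⟨k, rfl⟩ := nb_v D h.symm
              have : k = 0 ∨ k = i ∨ k = j := by
                revert h1 h2 hui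
                intro h1 h2 hui
                rcases ij_cases hi hj hij with ⟨rfl, rfl⟩ | ⟨rfl, rfl⟩ <;> fin_cases k <;> simp
              rcases this with rfl | rfl | rfl
              · exact h1 rfl
              · exact hui rfl
              · exact h2 rfl
            · exact hzv h.symm
            · exact hyv h.symm
          rw [this, mul_zero, ite_self]
    have hSk : ∀ k, k ≠ 0 → z ≠ x k → ω (p k) (x k) + ω (r k) (x k) = 0 →
        ∑ u, (if qq x p r j u = a then cc v x i j lam u * ω u (x k) else 0) = 0 := by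
      intro k hk hzk hH
      have hpk : PR p r k (p k) := Or.inl rfl
      have hrk : PR p r k (r k) := Or.inr rfl
      rw [sum2 _ (D.pr k)]
      · rw [qq_else (ne_x D (hpk.sd D) j), qq_else (ne_x D (hrk.sd D) j), q_PR D hk hpk,
          q_PR D hk hrk, cc_else lam (hpk.ne_v D) (ne_x D (hpk.sd D) i) (ne_x D (hpk.sd D) j),
          cc_else lam (hrk.ne_v D) (ne_x D (hrk.sd D) i) (ne_x D (hrk.sd D) j)]
        split_ifs
        · rw [one_mul, one_mul]; exact hH
        · rw [add_zero]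
      · intro u h1 h2
        by_cases huv : u = v
        · rw [huv, cc_v, zero_mul, ite_self]
        · have : ω u (x k) = 0 := by
            by_contra h0
            rcases supp hω h0 with h | ⟨rfl, h⟩ | ⟨rfl, h⟩
            · rcases nb_x D h.symm with h' | h' | h'
              · exact huv h'
              · exact h1 h'
              · exact h2 h'
            · exact hzk h.symm
            · exact ne_x D hy k h.symm
          rw [this, mul_zero, ite_self]
    have hS2 := hSk i hi hzi H2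
    -- rearrange
    have hall : ∑ u, (if qq x p r j u = a then cc v x i j lam u • (ω u v • (-w) +
        ω u (x i) • (- kap v x p r ρ w (x i)) +
          ω u (x j) • (lam • ρ (x 0) - kap v x p r ρ w (x j))) else 0) =
        (∑ u, (if qq x p r j u = a then cc v x i j lam u * ω u v else 0)) • (-w) +
        (∑ u, (if qq x p r j u = a then cc v x i j lam u * ω u (x i) else 0)) •
          (- kap v x p r ρ w (x i)) +
        (∑ u, (if qq x p r j u = a then cc v x i j lam u * ω u (x j) else 0)) •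
          (lam • ρ (x 0) - kap v x p r ρ w (x j)) := by
      rw [Finset.sum_smul, Finset.sum_smul, Finset.sum_smul, ← Finset.sum_add_distrib,
        ← Finset.sum_add_distrib]
      refine Finset.sum_congr rfl fun u _ => ?_
      split_ifs
      · rw [smul_add, smul_add, smul_smul, smul_smul, smul_smul]
      · simp
    rw [hall, hS1, hS2, zero_smul, zero_smul, zero_add, zero_add]
    rcases H3 with h | ⟨_, hzj, h⟩
    · rw [h, sub_self, smul_zero]
    · rw [hSk j hj hzj h, zero_smul]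

/-- values of the push-forward at a line other than the `x i` -/
theorem psh_line (D : DFData G side v x p r) {ω : V → V → ℝ} {i j : Fin 3} (lam : ℝ)
    {u l : V} (hu : side u = side v) (huv : u ≠ v)
    (hl : side l ≠ side v) (hlx : ∀ k, l ≠ x k)
    (h : ∀ u', u' ≠ u → dfQ p r u' = dfQ p r u → ω u' l = 0) :
    psh (qq x p r j) (cc v x i j lam) ω (dfQ p r u) l = ω u l := by
  have hlv : l ≠ v := fun e => hl (by rw [e])
  have hin : ∀ u', ∑ w', (if qq x p r j w' = l then cc v x i j lam w' * ω u' w' else 0) =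
      ω u' l := by
    intro u'
    rw [sum1 _ (a := l)]
    · rw [qq_else (hlx j), q_line D hl, if_pos rfl, cc_else lam hlv (hlx i) (hlx j), one_mul]
    · intro w' hw'
      rw [if_neg]
      intro h'
      by_cases hwj : w' = x j
      · rw [hwj, qq_j] at h'
        exact hlx 0 h'.symm
      · rw [qq_else hwj] at h'
        exact hw' (q_eq_line D hl h')
  unfold psh
  simp only [hin]
  rw [sum1 _ (a := u)]
  · rw [qq_else (ne_x D hu j), if_pos rfl, cc_else lam huv (ne_x D hu i) (ne_x D hu j), one_mul]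
  · intro u' hu'
    split_ifs with h'
    · by_cases huj : u' = x j
      · rw [huj, qq_j] at h'
        have : u = x 0 := q_eq_line D (side_x D 0) h'.symm
        exact absurd this (ne_x D hu 0)
      · rw [qq_else huj] at h'
        rw [h u' hu' h', mul_zero]
    · rfl

/-- values of the push-forward at the line `x 0` -/
theorem psh_zero (D : DFData G side v x p r) {ω : V → V → ℝ} {i j : Fin 3} (hi : i ≠ 0)
    (hj : j ≠ 0) (hij : i ≠ j) (lam : ℝ) {u : V} (hu : side u = side v) (huv : u ≠ v)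
    (h : ∀ u', u' ≠ u → dfQ p r u' = dfQ p r u → ω u' (x 0) + lam * ω u' (x j) = 0) :
    psh (qq x p r j) (cc v x i j lam) ω (dfQ p r u) (x 0) = ω u (x 0) + lam * ω u (x j) := by
  have hin : ∀ u', ∑ w', (if qq x p r j w' = x 0 then cc v x i j lam w' * ω u' w' else 0) =
      ω u' (x 0) + lam * ω u' (x j) := by
    intro u'
    rw [sum2 _ (x_ne D hj.symm)]
    · rw [qq_else (x_ne D hj.symm), q_x D, if_pos rfl, qq_j, if_pos rfl,
        cc_else lam (x_ne_v D 0) (x_ne D hi.symm) (x_ne D hj.symm), cc_j D hij, one_mul]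
    · intro w' hw1 hw2
      rw [if_neg]
      intro h'
      rw [qq_else hw2] at h'
      exact hw1 (q_eq_line D (side_x D 0) h')
  unfold psh
  simp only [hin]
  rw [sum1 _ (a := u)]
  · rw [qq_else (ne_x D hu j), if_pos rfl, cc_else lam huv (ne_x D hu i) (ne_x D hu j), one_mul]
  · intro u' hu'
    split_ifs with h'
    · by_cases huj : u' = x j
      · rw [huj, qq_j] at h'
        have : u = x 0 := q_eq_line D (side_x D 0) h'.symm
        exact absurd this (ne_x D hu 0)
      · rw [qq_else huj] at h'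
        rw [h u' hu' h', mul_zero]
    · rfl

/-- equilibrium at `x i`, no load there -/
theorem eq_x (D : DFData G side v x p r) {ρ : V → E} {w : E} {ω : V → V → ℝ} {y z : V}
    (hω : Stress (addE G y z) (kap v x p r ρ w) ω) {i : Fin 3} (hi : i ≠ 0) (hzi : z ≠ x i)
    (hyi : y ≠ x i) (hw : Np w (ρ (p i))) :
    ω (x i) v = 0 ∧ ω (p i) (x i) + ω (r i) (x i) = 0 := by
  have h := hω.2.2 (x i)
  have hpi : PR p r i (p i) := Or.inl rfl
  have hri : PR p r i (r i) := Or.inr rfl
  rw [sum3 _ (D.pv i).symm (D.rv i).symm (D.pr i)] at h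
  · rw [kap_v, kap_else _ _ _ _ _ _ (D.pv i) (ne_x D (hpi.sd D) 1) (ne_x D (hpi.sd D) 2),
      kap_else _ _ _ _ _ _ (D.rv i) (ne_x D (hri.sd D) 1) (ne_x D (hri.sd D) 2),
      q_PR D hi hpi, q_PR D hi hri, add_assoc, ← add_smul] at h
    obtain ⟨h1, h2⟩ := hw.rel h
    refine ⟨h1, ?_⟩
    rw [hω.1 (p i), hω.1 (r i)]
    exact h2
  · intro u h1 h2 h3
    have : ω (x i) u = 0 := by
      by_contra h0
      rcases supp hω h0 with h' | ⟨h', _⟩ | ⟨h', _⟩
      · rcases nb_x D h' with h' | h' | h'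
        · exact h1 h'
        · exact h2 h'
        · exact h3 h'
      · exact hyi h'.symm
      · exact hzi h'.symm
    rw [this, zero_smul]

/-- what is needed of the vector `w` -/
structure Wit (G : SimpleGraph V) (side : V → Bool) (v : V) (x p r : Fin 3 → V) (ρ : V → E)
    (w : E) : Prop where
  w0 : w ⬝ᵥ ρ (x 0) = 0
  wne : ∀ u, Np w (ρ u)
  w1 : ∀ u, side u ≠ side v → u ≠ x 0 → w ⬝ᵥ ρ u ≠ 0
  w3 : ∀ i, i ≠ 0 → ∀ y, side y = side v → y ≠ p i →
    w ⬝ᵥ crossProduct (ρ (p i)) (ρ y) = 0 →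
      ρ (x 0) ⬝ᵥ ρ (p i) = 0 ∧ ρ (x 0) ⬝ᵥ ρ y = 0
  w4 : ∀ m, side m = side v → ¬ (dfF G v x p r).Adj (x 0) m → ρ (x 0) ⬝ᵥ ρ m = 0 →
    ∃ τ, Stress (addE (dfF G v x p r) (x 0) m) ρ τ ∧ τ (x 0) m ≠ 0 ∧ ∀ i, i ≠ 0 → m ≠ p i →
      ∀ S : Finset V, (∀ u, u ∈ S ↔ G.Adj (p i) u ∧ u ≠ x i) →
        w ⬝ᵥ ∑ u ∈ S, τ (p i) u • ρ u ≠ 0

/-- a neighbour of `p i` or `r i` other than `x i` is none of the `x k` -/
theorem PR.not_x (D : DFData G side v x p r) {i : Fin 3} {a u : V} (ha : PR p r i a)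
    (h : G.Adj a u) (hu : u ≠ x i) (k : Fin 3) : u ≠ x k := by
  rintro rfl
  rcases nb_x D h.symm with h' | h'
  · exact ha.ne_v D h'
  · have := h'.inj D ha
    exact hu (by rw [this])

/-- the key step: the stress is a multiple of `τ`, the equilibrium at `p i` kills it -/
theorem key (D : DFData G side v x p r) {ρ : V → E} {w : E} (hF : StressFree (dfF G v x p r) ρ)
    (hW : Wit G side v x p r ρ w) {ω ω' : V → V → ℝ} {y z : V}
    (hz : side z ≠ side v)
    (hω : Stress (addE G y z) (kap v x p r ρ w) ω) {m : V} (hm : side m = side v)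
    (hm1 : ¬ (dfF G v x p r).Adj (x 0) m) (hm2 : ρ (x 0) ⬝ᵥ ρ m = 0) {i : Fin 3} (hi : i ≠ 0)
    (hmi : m ≠ p i) (hyi : y ≠ p i) (hω' : Stress (addE (dfF G v x p r) (x 0) m) ρ ω')
    (hval : ∀ u, G.Adj (p i) u → u ≠ x i → ω' (p i) u = ω (p i) u) : ∀ a b, ω' a b = 0 := by
  classical
  obtain ⟨τ, hτ, hτ0, hτ4⟩ := hW.w4 m hm hm1 hm2
  obtain ⟨s, hs⟩ := Stress.exists_mul hF hτ hω' hτ0
  have hpi : PR p r i (p i) := Or.inl rfl
  have hU := hτ4 i hi hmi (univ.filter (fun u => G.Adj (p i) u ∧ u ≠ x i)) (by simp)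
  have heq := hω.2.2 (p i)
  have h1 : w ⬝ᵥ ∑ u, ω (p i) u • kap v x p r ρ w u = 0 := by rw [heq, dotProduct_zero]
  have h2 : w ⬝ᵥ ∑ u, ω (p i) u • kap v x p r ρ w u =
      s * (w ⬝ᵥ ∑ u ∈ univ.filter (fun u => G.Adj (p i) u ∧ u ≠ x i), τ (p i) u • ρ u) := by
    rw [dotProduct_sum, dotProduct_sum, Finset.mul_sum, Finset.sum_filter]
    refine Finset.sum_congr rfl fun u _ => ?_
    split_ifs with hu
    · have hx := hpi.not_x D hu.1 hu.2
      have hul : side u ≠ side v := by
        rw [← hpi.sd D]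
        exact (D.lev.bip _ _ hu.1).symm
      have huv : u ≠ v := fun e => hul (by rw [e])
      rw [kap_else _ _ _ _ _ _ huv (hx 1) (hx 2), q_line D hul, ← hval u hu.1 hu.2, hs,
        dotProduct_smul, dotProduct_smul, smul_eq_mul, smul_eq_mul, mul_assoc]
    · by_cases hux : u = x i
      · rw [hux, kap_x D ρ w hi, dotProduct_smul, dot_self_cross, smul_zero]
      · have : ω (p i) u = 0 := by
          by_contra h0
          rcases supp hω h0 with h' | ⟨h', _⟩ | ⟨h', _⟩
          · exact hu ⟨h', hux⟩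
          · exact hyi h'.symm
          · exact hz (by rw [← h']; exact hpi.sd D)
        rw [this, zero_smul, dotProduct_zero]
  rw [h1] at h2
  have hs0 : s = 0 := by
    rcases mul_eq_zero.1 h2.symm with h | h
    · exact h
    · exact absurd h hU
  intro a b
  rw [hs, hs0, zero_mul]

/-- the end of all kills -/
theorem finish (D : DFData G side v x p r) {ρ : V → E} {w : E} (hκ : ∀ u, kap v x p r ρ w u ≠ 0)
    {ω : V → V → ℝ} (hω : Stress G (kap v x p r ρ w) ω) (hv : ∀ k, ω (x k) v = 0)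
    {i j : Fin 3} (hi : i ≠ 0) (hj : j ≠ 0) (hij : i ≠ j) (lam : ℝ)
    (h0 : ∀ a b, psh (qq x p r j) (cc v x i j lam) ω a b = 0) : ∀ a b, ω a b = 0 := by
  have hG : ∀ {a b : V}, ¬ G.Adj a b → ω a b = 0 := fun {a b} h => hω.2.1 a b h
  -- lines other than the `x k`
  have h1 : ∀ u l, side u = side v → u ≠ v → side l ≠ side v → (∀ k, l ≠ x k) → ω u l = 0 := by
    intro u l hu huv hl hlx
    by_cases hul : G.Adj u l
    · have hz := psh_line D (i := i) (j := j) lam hu huv hl hlx (ω := ω) (by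
        intro u' hne hq
        by_contra hc
        have hu'l : G.Adj u' l := by
          by_contra h'
          exact hc (hG h')
        obtain ⟨k, _, hk1, hk2⟩ := q_eq D hq hne
        exact hlx k (no_common D hk1 hk2 hne hu'l hul).2)
      rw [h0] at hz
      exact hz.symm
    · exact hG hul
  -- points `u`, all lines
  have h2 : ∀ u l, side u = side v → side l ≠ side v → ω u l = 0 := by
    intro u l hu hl
    by_cases hul : G.Adj u l
    swap
    · exact hG hul
    by_cases huv : u = v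
    · subst huv
      obtain ⟨k, rfl⟩ := nb_v D hul
      rw [hω.1]
      exact hv k
    by_cases hlx : ∀ k, l ≠ x k
    · exact h1 u l hu huv hl hlx
    · push Not at hlx
      obtain ⟨k, rfl⟩ := hlx
      have hPk : PR p r k u := by
        rcases nb_x D hul.symm with h | h
        · exact absurd h huv
        · exact h
      by_cases hk : k = 0
      · subst hk
        have hz := psh_zero D hi hj hij lam hu huv (ω := ω) (by
          intro u' hne hq
          obtain ⟨k', hk', h3, h4⟩ := q_eq D hq hne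
          exact absurd (h4.inj D hPk) hk')
        rw [h0] at hz
        have hzj : ω u (x j) = 0 := by
          refine hG fun h => ?_
          rcases nb_x D h.symm with h' | h'
          · exact huv h'
          · exact hj (h'.inj D hPk)
        rw [hzj, mul_zero, add_zero] at hz
        exact hz.symm
      · have he := hω.2.2 u
        rw [sum1 _ (a := x k)] at he
        · rcases smul_eq_zero.1 he with h | h
          · exact h
          · exact absurd h (hκ _)
        · intro l' hl'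
          have : ω u l' = 0 := by
            by_cases hul' : G.Adj u l'
            · exact h1 u l' hu huv (by rw [← hu]; exact (D.lev.bip _ _ hul').symm)
                (hPk.not_x D hul' hl')
            · exact hG hul'
          rw [this, zero_smul]
  intro a b
  by_cases hab : G.Adj a b
  · have hs := D.lev.bip a b hab
    by_cases ha : side a = side v
    · exact h2 a b ha (by rw [← ha]; exact hs.symm)
    · rw [hω.1]
      refine h2 b a ?_ ha
      revert hs ha
      generalize side a = s1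
      generalize side b = s2
      generalize side v = s3
      revert s1 s2 s3
      decide
  · exact hG hab

/-- values of the push-forward at `p i` -/
theorem psh_p (D : DFData G side v x p r) {κ : V → E} {ω : V → V → ℝ} {y z : V}
    (hz : side z ≠ side v) (hω : Stress (addE G y z) κ ω) {i j : Fin 3} (hi : i ≠ 0) (lam : ℝ)
    (hyi : ¬ PR p r i y) {u : V} (hu : G.Adj (p i) u) (hux : u ≠ x i) :
    psh (qq x p r j) (cc v x i j lam) ω (p i) u = ω (p i) u := by
  have hpi : PR p r i (p i) := Or.inl rfl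
  have hx := hpi.not_x D hu hux
  have hul : side u ≠ side v := by
    rw [← hpi.sd D]
    exact (D.lev.bip _ _ hu).symm
  have h := psh_line D (i := i) (j := j) lam (hpi.sd D) (hpi.ne_v D) hul hx (ω := ω) (by
    intro u' hne hq
    by_contra hc
    rw [q_PR D hi hpi] at hq
    have hu' := q_eq_p D hq
    rcases supp hω hc with h | ⟨h, _⟩ | ⟨h, _⟩
    · exact hux (no_common D hu' hpi hne h hu).2
    · exact hyi (h ▸ hu')
    · exact hz (by rw [← h]; exact hu'.sd D))
  rwa [q_PR D hi hpi] at h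

/-- equilibrium at `v` -/
theorem eq_v (D : DFData G side v x p r) {κ : V → E} {ω : V → V → ℝ} {y z : V} (hyv : y ≠ v)
    (hzv : z ≠ v) (hω : Stress (addE G y z) κ ω) :
    ω v (x 0) • κ (x 0) + ω v (x 1) • κ (x 1) + ω v (x 2) • κ (x 2) = 0 := by
  have h := hω.2.2 v
  rwa [sum3 _ (x_ne D (by decide : (0 : Fin 3) ≠ 1)) (x_ne D (by decide : (0 : Fin 3) ≠ 2))
    (x_ne D (by decide : (1 : Fin 3) ≠ 2))] at h
  intro u h1 h2 h3
  have : ω v u = 0 := by
    by_contra h0
    rcases supp hω h0 with h' | ⟨h', _⟩ | ⟨h', _⟩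
    · obtain ⟨k, rfl⟩ := nb_v D h'
      fin_cases k
      · exact h1 rfl
      · exact h2 rfl
      · exact h3 rfl
    · exact hyv h'.symm
    · exact hzv h'.symm
  rw [this, zero_smul]

theorem kill_a (D : DFData G side v x p r) {ρ : V → E} {w : E}
    (hF : StressFree (dfF G v x p r) ρ) (hW : Wit G side v x p r ρ w)
    (hκ : ∀ u, kap v x p r ρ w u ≠ 0) {y y' z : V} {k : Fin 3} (hk : k ≠ 0) (hy : PR p r k y)
    (hy' : PR p r k y') (hy'z : G.Adj y' z) (hyz : ¬ G.Adj y z) :
    StressFree (addE G y z) (kap v x p r ρ w) := by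
  intro ω hω
  have hzx : ∀ m, z ≠ x m := by
    refine hy'.not_x D hy'z ?_
    rintro rfl
    exact hyz (hy.adj D).symm
  have hz : side z ≠ side v := by
    rw [← hy'.sd D]
    exact (D.lev.bip _ _ hy'z).symm
  have hzv : z ≠ v := fun e => hz (by rw [e])
  have hyv := hy.ne_v D
  have hys := hy.sd D
  obtain ⟨e1, e1'⟩ := eq_x D hω (i := 1) (by decide) (hzx 1) (ne_x D hys 1) (hW.wne _)
  obtain ⟨e2, e2'⟩ := eq_x D hω (i := 2) (by decide) (hzx 2) (ne_x D hys 2) (hW.wne _)
  have ev := eq_v D hyv hzv hω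
  rw [hω.1 v (x 1), hω.1 v (x 2), e1, e2, zero_smul, zero_smul, add_zero, add_zero] at ev
  have e0 : ω (x 0) v = 0 := by
    rw [hω.1]
    exact (smul_eq_zero.1 ev).resolve_right (hκ _)
  have h0 := hF _ (push_stress D hys hyv hz hω (i := 1) (j := 2) (lam := 0) (by decide)
    (by decide) (by decide) (hzx 1) (by rw [e0, zero_mul, add_zero]) e1'
    (Or.inr ⟨rfl, hzx 2, e2'⟩) le_rfl (fun h => absurd rfl h) (fun _ => by
      have h := dfF_of D hy'z (hy'.ne_v D) (ne_x D (hy'.sd D) 1) (ne_x D (hy'.sd D) 2) hzv (hzx 1)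
        (hzx 2)
      rwa [q_PR D hk hy', q_line D hz, ← q_PR D hk hy] at h) (fun h => absurd rfl h))
  -- the load vanishes
  have ht : ω y z = 0 := by
    have he := hω.2.2 y
    rw [sum2 _ (hzx k).symm] at he
    · have h1 : w ⬝ᵥ (ω y (x k) • kap v x p r ρ w (x k) + ω y z • kap v x p r ρ w z) = 0 := by
        rw [he, dotProduct_zero]
      rw [dotProduct_add, dotProduct_smul, dotProduct_smul, kap_x D ρ w hk, dot_self_cross,
        smul_zero, zero_add, kap_else _ _ _ _ _ _ hzv (hzx 1) (hzx 2), q_line D hz] at h1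
      exact (smul_eq_zero.1 h1).resolve_right (hW.w1 z hz (hzx 0))
    · intro u hu1 hu2
      have : ω y u = 0 := by
        by_contra hc
        have hyu : G.Adj y u := by
          rcases supp hω hc with h | ⟨_, h⟩ | ⟨h, _⟩
          · exact h
          · exact absurd h hu2
          · exact absurd (h ▸ hys) hz
        have hus : side u ≠ side v := by
          rw [← hys]
          exact (D.lev.bip _ _ hyu).symm
        have hux := hy.not_x D hyu hu1
        have h := psh_line D (i := 1) (j := 2) 0 hys hyv hus hux (ω := ω) (by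
          intro u' hne' hq
          by_contra hc'
          rw [q_PR D hk hy] at hq
          have hu' := q_eq_p D hq
          rcases supp hω hc' with h | ⟨h, _⟩ | ⟨h, _⟩
          · exact hu1 (no_common D hu' hy hne' h hyu).2
          · exact hne' h
          · exact hz (by rw [← h]; exact hu'.sd D))
        rw [h0] at h
        exact hc h.symm
      rw [this, zero_smul]
  refine finish D hκ (hω.of_addE ht) ?_ (i := 1) (j := 2) (by decide) (by decide) (by decide) 0 h0
  intro m
  fin_cases m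
  · exact e0
  · exact e1
  · exact e2

theorem kill_b (D : DFData G side v x p r) {ρ : V → E} {w : E}
    (hF : StressFree (dfF G v x p r) ρ) (hW : Wit G side v x p r ρ w)
    (hκ : ∀ u, kap v x p r ρ w u ≠ 0) {y : V} (hys : side y = side v) (hyv : y ≠ v)
    (hyz : ¬ G.Adj y (x 0)) (hm2 : ρ (x 0) ⬝ᵥ ρ (dfQ p r y) = 0) :
    StressFree (addE G y (x 0)) (kap v x p r ρ w) := by
  intro ω hω
  have hz := side_x D 0
  have hx01 : x 0 ≠ x 1 := x_ne D (by decide)
  have hx02 : x 0 ≠ x 2 := x_ne D (by decide)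
  have hms : side (dfQ p r y) = side v := by rw [q_side D, hys]
  have hm1 : ¬ (dfF G v x p r).Adj (x 0) (dfQ p r y) := by
    rw [adjF D]
    rintro ⟨a, b, hab, ha, hb, _, hb', _⟩
    have ha := q_eq_line D hz ha
    subst ha
    have hb0 : PR p r 0 b := (nb_x D hab).resolve_left hb'
    by_cases hby : b = y
    · exact hyz (hby ▸ hab.symm)
    · obtain ⟨k, hk, h1, _⟩ := q_eq D hb hby
      exact hk (h1.inj D hb0)
  obtain ⟨i, j, hi, hj, hij, hmi⟩ : ∃ i j : Fin 3, i ≠ 0 ∧ j ≠ 0 ∧ i ≠ j ∧ dfQ p r y ≠ p i := by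
    by_cases h : dfQ p r y = p 1
    · refine ⟨2, 1, by decide, by decide, by decide, fun h' => ?_⟩
      exact absurd (PR.inj D (i := 1) (j := 2) (Or.inl rfl) (Or.inl (h.symm.trans h')))
        (by decide)
    · exact ⟨1, 2, by decide, by decide, by decide, h⟩
  have hyi : ¬ PR p r i y := fun h => hmi (q_PR D hi h)
  obtain ⟨e1, e1'⟩ := eq_x D hω hi (x_ne D hi.symm) (ne_x D hys i) (hW.wne _)
  obtain ⟨e2, e2'⟩ := eq_x D hω hj (x_ne D hj.symm) (ne_x D hys j) (hW.wne _)
  have e12 : ω (x 1) v = 0 ∧ ω (x 2) v = 0 := by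
    rcases ij_cases hi hj hij with ⟨rfl, rfl⟩ | ⟨rfl, rfl⟩
    · exact ⟨e1, e2⟩
    · exact ⟨e2, e1⟩
  have ev := eq_v D hyv (x_ne_v D 0) hω
  rw [hω.1 v (x 1), hω.1 v (x 2), e12.1, e12.2, zero_smul, zero_smul, add_zero, add_zero] at ev
  have e0 : ω (x 0) v = 0 := by
    rw [hω.1]
    exact (smul_eq_zero.1 ev).resolve_right (hκ _)
  have hP := push_stress D hys hyv hz hω (lam := 0) hi hj hij (x_ne D hi.symm)
    (by rw [e0, zero_mul, add_zero]) e1' (Or.inr ⟨rfl, x_ne D hj.symm, e2'⟩)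
    (le_addE (dfF G v x p r) (x 0) (dfQ p r y)) (fun h => absurd rfl h) (fun _ => by
      rw [addE_adj]
      refine Or.inr ⟨Or.inr ⟨rfl, rfl⟩, fun e => hz ?_⟩
      rw [e]
      exact hms) (fun h => absurd rfl h)
  have h0 := key D hF hW hz hω hms hm1 hm2 hi hmi (fun h => hyi (Or.inl h)) hP
    (fun u hu1 hu2 => psh_p D hz hω hi 0 hyi hu1 hu2)
  have ht : ω y (x 0) = 0 := by
    have h := psh_zero D hi hj hij 0 hys hyv (ω := ω) (by
      intro u' hne hq
      obtain ⟨k, hk, h1, _⟩ := q_eq D hq hne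
      rw [zero_mul, add_zero]
      by_contra hc
      rcases supp hω hc with h | ⟨h, _⟩ | ⟨h, _⟩
      · rcases nb_x D h.symm with h' | h'
        · exact h1.ne_v D h'
        · exact hk (h1.inj D h')
      · exact hne h
      · exact ne_x D (h1.sd D) 0 h)
    rw [h0, zero_mul, add_zero] at h
    exact h.symm
  refine finish D hκ (hω.of_addE ht) ?_ hi hj hij 0 h0
  intro m
  fin_cases m
  · exact e0
  · exact e12.1
  · exact e12.2

/-- vectors orthogonal to `l`: the cross product is a multiple of `l` -/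
theorem cross_mul {a b l : E} (hl : l ≠ 0) (ha : a ⬝ᵥ l = 0) (hb : b ⬝ᵥ l = 0) :
    ∃ c : ℝ, crossProduct a b = c • l := by
  refine exists_smul_of_not_np hl ?_
  unfold Np
  rw [not_not]
  rw [dot3] at ha hb
  refine ext3 ?_ ?_ ?_
  · simp only [cr0, cr1, cr2, Pi.zero_apply]
    linear_combination (a 0) * hb - (b 0) * ha
  · simp only [cr0, cr1, cr2, Pi.zero_apply]
    linear_combination (a 1) * hb - (b 1) * ha
  · simp only [cr0, cr1, cr2, Pi.zero_apply]
    linear_combination (a 2) * hb - (b 2) * ha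

theorem kill_d (D : DFData G side v x p r) {ρ : V → E} {w : E}
    (hρ0 : ρ (x 0) ≠ 0)
    (hF : StressFree (dfF G v x p r) ρ) (hW : Wit G side v x p r ρ w)
    (hκ : ∀ u, kap v x p r ρ w u ≠ 0) {y : V} (hy : PR p r 0 y) {j : Fin 3} (hj : j ≠ 0)
    (hm2 : ρ (x 0) ⬝ᵥ ρ (p j) = 0) : StressFree (addE G y (x j)) (kap v x p r ρ w) := by
  intro ω hω
  have hys := hy.sd D
  have hyv := hy.ne_v D
  have hz := side_x D j
  obtain ⟨lam, hlam⟩ := cross_mul hρ0 hW.w0 (by rw [dotProduct_comm]; exact hm2)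
  rw [← kap_x D ρ w hj] at hlam
  have hlam0 : lam ≠ 0 := by
    rintro rfl
    exact hκ (x j) (by rw [hlam, zero_smul])
  obtain ⟨i, hi, hij⟩ : ∃ i : Fin 3, i ≠ 0 ∧ i ≠ j :=
    (by decide : ∀ j : Fin 3, j ≠ 0 → ∃ i : Fin 3, i ≠ 0 ∧ i ≠ j) j hj
  have hpj : PR p r j (p j) := Or.inl rfl
  have hm1 : ¬ (dfF G v x p r).Adj (x 0) (p j) := by
    rw [adjF D]
    rintro ⟨a, b, hab, ha, hb, _, hb', _⟩
    have ha := q_eq_line D (side_x D 0) ha
    subst ha
    have hb0 : PR p r 0 b := (nb_x D hab).resolve_left hb'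
    exact hj ((q_eq_p D hb).inj D hb0)
  have hmi : p j ≠ p i := fun e => hij (PR.inj D (Or.inl e) hpj)
  have hyi : ¬ PR p r i y := fun h => hi (h.inj D hy)
  obtain ⟨e1, e1'⟩ := eq_x D hω hi (x_ne D hij.symm) (ne_x D hys i) (hW.wne _)
  have ev := eq_v D hyv (x_ne_v D j) hω
  have hκ0 : kap v x p r ρ w (x 0) = ρ (x 0) := by
    rw [kap_else _ _ _ _ _ _ (x_ne_v D 0) (x_ne D (by decide)) (x_ne D (by decide)), q_x D]
  have ev' : (ω v (x 0) + lam * ω v (x j)) • ρ (x 0) = 0 := by
    rw [add_smul, mul_comm, mul_smul, ← hlam, ← ev, hκ0]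
    rcases ij_cases hi hj hij with ⟨rfl, rfl⟩ | ⟨rfl, rfl⟩
    · rw [hω.1 v (x 1), e1, zero_smul, add_zero]
    · rw [hω.1 v (x 2), e1, zero_smul, add_zero]
  have H1 : ω (x 0) v + lam * ω (x j) v = 0 := by
    rw [hω.1 (x 0), hω.1 (x j)]
    exact (smul_eq_zero.1 ev').resolve_right hρ0
  have hxy : (dfF G v x p r).Adj y (x 0) := by
    have h := dfF_of D (hy.adj D).symm hyv (ne_x D hys 1) (ne_x D hys 2) (x_ne_v D 0)
      (x_ne D (by decide)) (x_ne D (by decide))
    rwa [q_PR0 D hy, q_x D] at h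
  have hP := push_stress D hys hyv hz hω (lam := lam) hi hj hij (x_ne D hij.symm)
    H1 e1' (Or.inl hlam) (le_addE (dfF G v x p r) (x 0) (p j)) (fun _ => by
      rw [addE_adj]
      exact Or.inr ⟨Or.inl ⟨rfl, rfl⟩, fun e => ne_x D (hpj.sd D) 0 e.symm⟩)
    (fun h => absurd rfl h) (fun _ _ => by
      rw [q_PR0 D hy]
      exact le_addE _ _ _ hxy)
  have h0 := key D hF hW hz hω (hpj.sd D) hm1 hm2 hi hmi (fun h => hyi (Or.inl h)) hP
    (fun u hu1 hu2 => psh_p D hz hω hi lam hyi hu1 hu2)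
  -- values at `x 0`
  have hval : ∀ u, PR p r 0 u → ω u (x 0) + lam * ω u (x j) = 0 := by
    intro u hu
    have h := psh_zero D hi hj hij lam (hu.sd D) (hu.ne_v D) (ω := ω) (by
      intro u' hne hq
      obtain ⟨k, hk, _, h2⟩ := q_eq D hq hne
      exact absurd (h2.inj D hu) hk)
    rw [h0] at h
    exact h.symm
  have hval' : ∀ u, PR p r 0 u → u ≠ y → ω (x 0) u = 0 := by
    intro u hu huy
    have h := hval u hu
    have : ω u (x j) = 0 := by
      by_contra hc
      rcases supp hω hc with h | ⟨h, _⟩ | ⟨h, _⟩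
      · rcases nb_x D h.symm with h' | h'
        · exact hu.ne_v D h'
        · exact hj (h'.inj D hu)
      · exact huy h
      · exact ne_x D (hu.sd D) j h
    rw [this, mul_zero, add_zero] at h
    rwa [hω.1]
  have he := hω.2.2 (x 0)
  rw [sum2 _ hyv.symm] at he
  swap
  · intro u hu1 hu2
    have : ω (x 0) u = 0 := by
      by_contra hc
      rcases supp hω hc with h | ⟨h, _⟩ | ⟨h, _⟩
      · rcases nb_x D h with h' | h'
        · exact hu1 h'
        · exact hc (hval' u h' hu2)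
      · exact ne_x D hys 0 h.symm
      · exact hj (D.x_inj h).symm
    rw [this, zero_smul]
  rw [kap_v, kap_else _ _ _ _ _ _ hyv (ne_x D hys 1) (ne_x D hys 2)] at he
  obtain ⟨h1, h2⟩ := (hW.wne (dfQ p r y)).rel he
  have ht : ω y (x j) = 0 := by
    have h := hval y hy
    rw [hω.1 y (x 0), h2, zero_add] at h
    exact (mul_eq_zero.1 h).resolve_left hlam0
  refine finish D hκ (hω.of_addE ht) ?_ hi hj hij lam h0
  have hjv : ω (x j) v = 0 := by
    rw [h1, zero_add] at H1
    exact (mul_eq_zero.1 H1).resolve_left hlam0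
  intro m
  rcases ij_cases hi hj hij with ⟨rfl, rfl⟩ | ⟨rfl, rfl⟩
  · fin_cases m
    · exact h1
    · exact e1
    · exact hjv
  · fin_cases m
    · exact h1
    · exact hjv
    · exact e1

/-- the two further neighbours -/
theorem two_nb {u a : V} (h3 : dg G univ u = 3) (ha : G.Adj u a) :
    ∃ l l', l ≠ l' ∧ l ≠ a ∧ l' ≠ a ∧ G.Adj u l ∧ G.Adj u l' ∧
      ∀ w, G.Adj u w → w = a ∨ w = l ∨ w = l' := by
  classical
  have h6 : (univ.filter (fun y => G.Adj u y)).card = 3 := by
    unfold dg at h3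
    convert h3
  have hmem : a ∈ univ.filter (fun y => G.Adj u y) := by simp [ha]
  have h2 : ((univ.filter (fun y => G.Adj u y)).erase a).card = 2 := by
    rw [Finset.card_erase_of_mem hmem, h6]
  obtain ⟨l, l', hne, hS⟩ := Finset.card_eq_two.1 h2
  have hm : ∀ w, (w ≠ a ∧ G.Adj u w) ↔ w = l ∨ w = l' := by
    intro w
    have : w ∈ (univ.filter (fun y => G.Adj u y)).erase a ↔ w ∈ ({l, l'} : Finset V) := by
      rw [hS]
    simpa using this
  have hl := (hm l).2 (Or.inl rfl)
  have hl' := (hm l').2 (Or.inr rfl)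
  refine ⟨l, l', hne, hl.1, hl'.1, hl.2, hl'.2, fun w hw => ?_⟩
  by_cases hwa : w = a
  · exact Or.inl hwa
  · exact Or.inr ((hm w).1 ⟨hwa, hw⟩)

theorem adj0 (D : DFData G side v x p r) {a : V} (ha : PR p r 0 a) :
    (dfF G v x p r).Adj (x 0) a := by
  have h := dfF_of D (ha.adj D) (x_ne_v D 0) (x_ne D (by decide)) (x_ne D (by decide))
    (ha.ne_v D) (ne_x D (ha.sd D) 1) (ne_x D (ha.sd D) 2)
  rwa [q_PR0 D ha, q_x D] at h

theorem np_U (D : DFData G side v x p r) {ρ : V → E} (hρ : DFRho G side v x p r ρ) {m : V}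
    (hm : side m = side v) (hm1 : ¬ (dfF G v x p r).Adj (x 0) m) (hm2 : ρ (x 0) ⬝ᵥ ρ m = 0)
    {τ : V → V → ℝ} (hτ : ∀ a b, (addE (dfF G v x p r) (x 0) m).Adj a b → τ a b ≠ 0)
    {i : Fin 3} (hi : i ≠ 0) (hmi : m ≠ p i) (S : Finset V)
    (hS : ∀ u, u ∈ S ↔ G.Adj (p i) u ∧ u ≠ x i) :
    Np (ρ (x 0)) (∑ u ∈ S, τ (p i) u • ρ u) := by
  have hpi : PR p r i (p i) := Or.inl rfl
  obtain ⟨l, l', hne, hl1, hl2, hl3, hl4, hl5⟩ := two_nb (D.lev.cubic (p i)) (hpi.adj D).symm
  have hSe : S = {l, l'} := by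
    ext u
    rw [hS, Finset.mem_insert, Finset.mem_singleton]
    constructor
    · rintro ⟨h1, h2⟩
      exact (hl5 u h1).resolve_left h2
    · rintro (rfl | rfl)
      · exact ⟨hl3, hl1⟩
      · exact ⟨hl4, hl2⟩
  rw [hSe, Finset.sum_pair hne]
  have hadj : ∀ {u : V}, G.Adj (p i) u → u ≠ x i → side u ≠ side v ∧
      (dfF G v x p r).Adj (p i) u := by
    intro u h1 h2
    have hx := hpi.not_x D h1 h2
    have hul : side u ≠ side v := by
      rw [← hpi.sd D]
      exact (D.lev.bip _ _ h1).symm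
    refine ⟨hul, ?_⟩
    have h := dfF_of D h1 (hpi.ne_v D) (ne_x D (hpi.sd D) 1) (ne_x D (hpi.sd D) 2)
      (fun e => hul (by rw [e])) (hx 1) (hx 2)
    rwa [q_PR D hi hpi, q_line D hul] at h
  obtain ⟨s1, a1⟩ := hadj hl3 hl1
  obtain ⟨s2, a2⟩ := hadj hl4 hl2
  have t1 := hτ _ _ (le_addE _ _ _ a1)
  have hss : side l = side l' := D.lev.bip.side_eq hl3 hl4
  have hnp := hρ.sep.2 l l' hne hss
  have hU : τ (p i) l • ρ l + τ (p i) l' • ρ l' ≠ 0 := fun h => t1 (hnp.rel h).1
  have hP : ρ (x 0) ⬝ᵥ ρ (p i) ≠ 0 := by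
    intro h0
    have hi12 : p i = p 1 ∨ p i = p 2 := by
      fin_cases i
      · exact absurd rfl hi
      · exact Or.inl rfl
      · exact Or.inr rfl
    refine hρ.two (p i) hi12 h0 m ?_ hmi ?_ ?_ hm2
    · rw [hm]; exact (side_x D 0).symm
    · rintro rfl; exact hm1 (adj0 D (Or.inl rfl))
    · rintro rfl; exact hm1 (adj0 D (Or.inr rfl))
  refine (np_of_dot (o := ρ (p i)) hU ?_ ?_).symm
  · rw [dotProduct_add, dotProduct_smul, dotProduct_smul, hρ.rlz _ _ a1, hρ.rlz _ _ a2, smul_zero,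
      smul_zero, add_zero]
  · rwa [dotProduct_comm]

theorem exists_wit (D : DFData G side v x p r) {ρ : V → E} (hρ : DFRho G side v x p r ρ) :
    ∃ w, Wit G side v x p r ρ w := by
  classical
  have hsx := side_x D 0
  have hτ : ∀ m, ∃ τ : V → V → ℝ, side m = side v → ¬ (dfF G v x p r).Adj (x 0) m →
      ρ (x 0) ⬝ᵥ ρ m = 0 → Stress (addE (dfF G v x p r) (x 0) m) ρ τ ∧
        ∀ a b, (addE (dfF G v x p r) (x 0) m).Adj a b → τ a b ≠ 0 := by
    intro m
    by_cases h1 : side m = side v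
    · by_cases h2 : ¬ (dfF G v x p r).Adj (x 0) m
      · by_cases h3 : ρ (x 0) ⬝ᵥ ρ m = 0
        · obtain ⟨τ, h⟩ := hρ.tau m (by rw [h1]; exact hsx.symm) h2 h3
          exact ⟨τ, fun _ _ _ => h⟩
        · exact ⟨fun _ _ => 0, fun _ _ h => absurd h h3⟩
      · exact ⟨fun _ _ => 0, fun _ h _ => absurd h h2⟩
    · exact ⟨fun _ _ => 0, fun h _ _ => absurd h h1⟩
  choose τ hτ using hτ
  set U : V × Fin 3 → E := fun s =>
    ∑ u ∈ univ.filter (fun u => G.Adj (p s.2) u ∧ u ≠ x s.2), τ s.1 (p s.2) u • ρ u with hU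
  set Z : Finset E := (univ.image ρ ∪
    (univ.image (fun s : Fin 3 × V => crossProduct (ρ (p s.1)) (ρ s.2)) ∪ univ.image U)).filter
      (fun z => Np (ρ (x 0)) z) with hZ
  obtain ⟨w, hw0, hwZ, hwL⟩ := avoid_perp (ρ (x 0)) Z (univ.image ρ)
    (fun z hz => (Finset.mem_filter.1 hz).2) (by
      intro l hl
      obtain ⟨u, _, rfl⟩ := Finset.mem_image.1 hl
      exact hρ.sep.1 u)
  refine ⟨w, ?_, ?_, ?_, ?_, ?_⟩
  · rw [dotProduct_comm]; exact hw0
  · exact fun u => hwL _ (Finset.mem_image_of_mem _ (Finset.mem_univ _))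
  · intro u hu hux
    refine hwZ _ ?_
    rw [hZ, Finset.mem_filter]
    refine ⟨Finset.mem_union_left _ (Finset.mem_image_of_mem _ (Finset.mem_univ _)), ?_⟩
    refine hρ.sep.2 _ _ hux.symm ?_
    revert hu hsx
    generalize side u = s1
    generalize side (x 0) = s2
    generalize side v = s3
    revert s1 s2 s3
    decide
  · intro i hi y hy hyi h0
    by_cases hnp : Np (ρ (x 0)) (crossProduct (ρ (p i)) (ρ y))
    · refine absurd h0 (hwZ _ ?_)
      rw [hZ, Finset.mem_filter]
      exact ⟨Finset.mem_union_right _ (Finset.mem_union_left _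
        (Finset.mem_image.2 ⟨(i, y), Finset.mem_univ _, rfl⟩)), hnp⟩
    · have hpi : PR p r i (p i) := Or.inl rfl
      obtain ⟨c, hc⟩ := exists_smul_of_not_np (hρ.sep.1 (x 0)) hnp
      have hne : crossProduct (ρ (p i)) (ρ y) ≠ 0 :=
        hρ.sep.2 _ _ hyi.symm (by rw [hy, hpi.sd D])
      have hc0 : c ≠ 0 := by
        rintro rfl
        exact hne (by rw [hc, zero_smul])
      have e1 : c • (ρ (x 0) ⬝ᵥ ρ (p i)) = 0 := by
        rw [← smul_dotProduct, ← hc, dotProduct_comm]
        exact dot_self_cross _ _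
      have e2 : c • (ρ (x 0) ⬝ᵥ ρ y) = 0 := by
        rw [← smul_dotProduct, ← hc, dotProduct_comm]
        exact dot_cross_self _ _
      exact ⟨(smul_eq_zero.1 e1).resolve_left hc0, (smul_eq_zero.1 e2).resolve_left hc0⟩
  · intro m hm hm1 hm2
    obtain ⟨h1, h2⟩ := hτ m hm hm1 hm2
    refine ⟨τ m, h1, h2 _ _ ?_, ?_⟩
    · rw [addE_adj]
      exact Or.inr ⟨Or.inl ⟨rfl, rfl⟩, fun e => ne_x D hm 0 e.symm⟩
    · intro i hi hmi S hS
      have hSe : S = univ.filter (fun u => G.Adj (p i) u ∧ u ≠ x i) := by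
        ext u
        rw [hS, Finset.mem_filter]
        simp
      have hnp := np_U D hρ hm hm1 hm2 h2 hi hmi S hS
      refine hwZ _ ?_
      rw [hZ, Finset.mem_filter]
      refine ⟨Finset.mem_union_right _ (Finset.mem_union_right _
        (Finset.mem_image.2 ⟨(m, i), Finset.mem_univ _, ?_⟩)), hnp⟩
      rw [hU, hSe]

/-- `κ` realizes the edges -/
theorem rlz_pt (D : DFData G side v x p r) {ρ : V → E} {w : E}
    (hR : Rlz (dfF G v x p r) ρ) (hW : Wit G side v x p r ρ w) {u l : V} (hu : side u = side v)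
    (hul : G.Adj u l) : kap v x p r ρ w u ⬝ᵥ kap v x p r ρ w l = 0 := by
  have hl : side l ≠ side v := by
    rw [← hu]
    exact (D.lev.bip _ _ hul).symm
  have hlv : l ≠ v := fun e => hl (by rw [e])
  have hx0 : kap v x p r ρ w (x 0) = ρ (x 0) := by
    rw [kap_else _ _ _ _ _ _ (x_ne_v D 0) (x_ne D (by decide)) (x_ne D (by decide)), q_x D]
  by_cases huv : u = v
  · subst huv
    rw [kap_v]
    obtain ⟨k, rfl⟩ := nb_v D hul
    by_cases hk : k = 0
    · rw [hk, hx0]
      exact hW.w0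
    · rw [kap_x D ρ w hk]
      exact dot_self_cross _ _
  have hκu : kap v x p r ρ w u = ρ (dfQ p r u) :=
    kap_else _ _ _ _ _ _ huv (ne_x D hu 1) (ne_x D hu 2)
  by_cases hlx : ∀ k, l ≠ x k
  · have h := dfF_of D hul huv (ne_x D hu 1) (ne_x D hu 2) hlv (hlx 1) (hlx 2)
    rw [hκu, kap_else _ _ _ _ _ _ hlv (hlx 1) (hlx 2)]
    exact hR _ _ h
  · push Not at hlx
    obtain ⟨k, rfl⟩ := hlx
    by_cases hk : k = 0
    · subst hk
      have h := dfF_of D hul huv (ne_x D hu 1) (ne_x D hu 2) hlv (x_ne D (by decide))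
        (x_ne D (by decide))
      rw [hκu, hx0]
      rw [q_x D] at h
      exact hR _ _ h
    · have hPR : PR p r k u := (nb_x D hul.symm).resolve_left huv
      rw [hκu, kap_x D ρ w hk, q_PR D hk hPR]
      exact dot_cross_self _ _

/-- all zero pairs are killed -/
theorem kill_pt (D : DFData G side v x p r) {ρ : V → E} {w : E} (hρ : DFRho G side v x p r ρ)
    (hW : Wit G side v x p r ρ w) (hκ : ∀ u, kap v x p r ρ w u ≠ 0) {y z : V}
    (hy : side y = side v) (hz : side z ≠ side v) (hyz : ¬ G.Adj y z)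
    (h0 : kap v x p r ρ w y ⬝ᵥ kap v x p r ρ w z = 0) :
    StressFree (addE G y z) (kap v x p r ρ w) := by
  have hzv : z ≠ v := fun e => hz (by rw [e])
  have hsx := side_x D 0
  have hx0 : kap v x p r ρ w (x 0) = ρ (x 0) := by
    rw [kap_else _ _ _ _ _ _ (x_ne_v D 0) (x_ne D (by decide)) (x_ne D (by decide)), q_x D]
  by_cases hyv : y = v
  · subst hyv
    have hzx : ∀ k, z ≠ x k := by
      rintro k rfl
      exact hyz (D.vx k)
    rw [kap_v, kap_else _ _ _ _ _ _ hzv (hzx 1) (hzx 2), q_line D hz] at h0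
    exact absurd h0 (hW.w1 z hz (hzx 0))
  have hκy : kap v x p r ρ w y = ρ (dfQ p r y) :=
    kap_else _ _ _ _ _ _ hyv (ne_x D hy 1) (ne_x D hy 2)
  have hqy : side (dfQ p r y) = side v := by rw [q_side D, hy]
  rw [hκy] at h0
  by_cases hzx : ∀ k, z ≠ x k
  · rw [kap_else _ _ _ _ _ _ hzv (hzx 1) (hzx 2), q_line D hz] at h0
    have hadj : (dfF G v x p r).Adj (dfQ p r y) z := by
      by_contra hn
      exact hρ.exact _ _ (by rw [hqy]; exact hz.symm) hn (ne_x D hqy 0) (hzx 0) h0
    rw [adjF D] at hadj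
    obtain ⟨a, b, hab, ha, hb, _, _⟩ := hadj
    have hb := q_eq_line D hz hb
    subst hb
    have hay : a ≠ y := by
      rintro rfl
      exact hyz hab
    obtain ⟨k, hk, h1, h2⟩ := q_eq D ha hay
    exact kill_a D hρ.free hW hκ hk h2 h1 hab hyz
  · push Not at hzx
    obtain ⟨k, rfl⟩ := hzx
    by_cases hk : k = 0
    · subst hk
      rw [hx0] at h0
      exact kill_b D hρ.free hW hκ hy hyv hyz (by rw [dotProduct_comm]; exact h0)
    · have hpk : PR p r k (p k) := Or.inl rfl
      have hnk : ¬ PR p r k y := fun h => hyz (h.adj D).symm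
      have hqk : dfQ p r y ≠ p k := fun h => hnk (q_eq_p D h)
      rw [kap_x D ρ w hk] at h0
      have h1 : w ⬝ᵥ crossProduct (ρ (p k)) (ρ (dfQ p r y)) = 0 := by
        rw [← h0]
        exact (triple_product_permutation _ _ _).symm
      obtain ⟨h2, h3⟩ := hW.w3 k hk _ hqy hqk h1
      have hk12 : p k = p 1 ∨ p k = p 2 := by
        fin_cases k
        · exact absurd rfl hk
        · exact Or.inl rfl
        · exact Or.inr rfl
      have hP : PR p r 0 y := by
        by_contra hn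
        have hn' : ∀ a, PR p r 0 a → dfQ p r y ≠ a := by
          intro a ha hqa
          have : y ≠ a := fun e => hn (e ▸ ha)
          rw [← q_PR0 D ha] at hqa
          obtain ⟨j, hj, _, h5⟩ := q_eq D hqa this
          exact hj (h5.inj D ha)
        exact hρ.two (p k) hk12 h2 _ (by rw [hqy]; exact hsx.symm) hqk (hn' _ (Or.inl rfl))
          (hn' _ (Or.inr rfl)) h3
      exact kill_d D (hρ.sep.1 _) hρ.free hW hκ hP hk h2

end DFK

/-- module DFKill -/
theorem dfKill : DFKillStmt := by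
  intro V _ _ G side v x p r ρ D hρ
  obtain ⟨w, hW⟩ := DFK.exists_wit D hρ
  have hκ : ∀ u, DFK.kap v x p r ρ w u ≠ 0 := by
    intro u
    unfold DFK.kap
    split_ifs
    · exact (hW.wne v).left_ne
    · exact hW.wne (p 1)
    · exact hW.wne (p 2)
    · exact hρ.sep.1 _
  have hsides : ∀ {a b : V}, side a ≠ side b → side a = side v ∨ side b = side v := by
    intro a b h
    revert h
    generalize side a = s1
    generalize side b = s2
    generalize side v = s3
    revert s1 s2 s3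
    decide
  refine ⟨DFK.kap v x p r ρ w, hκ, ?_, ?_⟩
  · intro a b hab
    rcases hsides (D.lev.bip _ _ hab) with h | h
    · exact DFK.rlz_pt D hρ.rlz hW h hab
    · rw [dotProduct_comm]
      exact DFK.rlz_pt D hρ.rlz hW h hab.symm
  · intro y z hyz hadj h0
    rcases hsides hyz with h | h
    · exact DFK.kill_pt D hρ hW hκ h (by rw [← h]; exact hyz.symm) hadj h0
    · rw [addE_comm]
      exact DFK.kill_pt D hρ hW hκ h (by rw [← h]; exact hyz) (fun h' => hadj h'.symm)
        (by rw [dotProduct_comm]; exact h0)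

end N3
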