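import Pool.Agent.Lib_n3.Stmts

/-!
# Theorem G: exact realizations of 2-degenerate graphs

`N3.thmG : MinStmt → TwoDegFreeStmt → SepOpenStmt → ThmGStmt`.
-/

open scoped Matrix Topology
open Finset

namespace N3

namespace ThmGAux

lemma np_symm {a b : E} (h : Np a b) : Np b a := by
  intro h0
  apply h
  rw [← neg_eq_zero, cross_anticomm]
  exact h0

/-- parallel vectors: `a × b = 0`, `a ≠ 0` gives `b = c • a` -/
lemma parallel_of_cross {a b : E} (ha : a ≠ 0) (h : crossProduct a b = 0) : ∃ c : ℝ, b = c • a := by
  have h0 := congrFun h 0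
  have h1 := congrFun h 1
  have h2 := congrFun h 2
  simp [cross_apply] at h0 h1 h2
  by_cases a0 : a 0 = 0
  · by_cases a1 : a 1 = 0
    · have a2 : a 2 ≠ 0 := by
        intro a2
        apply ha
        funext i
        fin_cases i
        · exact a0
        · exact a1
        · exact a2
      refine ⟨b 2 / a 2, ?_⟩
      funext i
      fin_cases i
      · simp only [Pi.smul_apply, smul_eq_mul]
        field_simp
        simp
        linarith
      · simp only [Pi.smul_apply, smul_eq_mul]
        field_simp
        simp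
        linarith
      · simp only [Pi.smul_apply, smul_eq_mul]
        field_simp
        simp
    · refine ⟨b 1 / a 1, ?_⟩
      funext i
      fin_cases i
      · simp only [Pi.smul_apply, smul_eq_mul]
        field_simp
        simp
        linarith
      · simp only [Pi.smul_apply, smul_eq_mul]
        field_simp
        simp
      · simp only [Pi.smul_apply, smul_eq_mul]
        field_simp
        simp
        linarith
  · refine ⟨b 0 / a 0, ?_⟩
    funext i
    fin_cases i
    · simp only [Pi.smul_apply, smul_eq_mul]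
      field_simp
      simp
    · simp only [Pi.smul_apply, smul_eq_mul]
      field_simp
      simp
      linarith
    · simp only [Pi.smul_apply, smul_eq_mul]
      field_simp
      simp
      linarith

/-- on a line `a + t b` not through the origin at most one vector is parallel to `r ≠ 0` -/
lemma line_subsingleton {a b r : E} (hab : Np a b) (hr : r ≠ 0) :
    {t : ℝ | crossProduct (a + t • b) r = 0}.Subsingleton := by
  intro t ht s hs
  by_contra hne
  simp only [Set.mem_ofPred_eq, map_add, map_smul, LinearMap.add_apply, LinearMap.smul_apply] at ht hs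
  have hb : crossProduct b r = 0 := by
    have h : (t - s) • crossProduct b r = 0 := by
      rw [sub_smul]
      have := ht.trans hs.symm
      rw [add_right_inj] at this
      rw [this, sub_self]
    rcases smul_eq_zero.1 h with h | h
    · exact absurd (sub_eq_zero.1 h) hne
    · exact h
  have ha : crossProduct a r = 0 := by
    rw [hb, smul_zero, add_zero] at ht
    exact ht
  have hb' : crossProduct r b = 0 := by rw [← neg_eq_zero, cross_anticomm]; exact hb
  have ha' : crossProduct r a = 0 := by rw [← neg_eq_zero, cross_anticomm]; exact ha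
  obtain ⟨c, rfl⟩ := parallel_of_cross hr ha'
  obtain ⟨d, rfl⟩ := parallel_of_cross hr hb'
  apply hab
  simp

/-- two independent vectors orthogonal to `n` -/
lemma exists_pair {n : E} (hn : n ≠ 0) : ∃ a b : E, a ⬝ᵥ n = 0 ∧ b ⬝ᵥ n = 0 ∧ Np a b := by
  obtain ⟨m, hm⟩ : ∃ m : E, crossProduct n m ≠ 0 := by
    by_contra hcon
    push Not at hcon
    have h0 := hcon ![1, 0, 0]
    have h1 := hcon ![0, 1, 0]
    apply hn
    have a1 := congrFun h0 1
    have a2 := congrFun h0 2
    have b0 := congrFun h1 2
    simp [cross_apply] at a1 a2 b0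
    funext i
    fin_cases i
    · exact b0
    · exact a2
    · exact a1
  refine ⟨crossProduct n m, crossProduct n (crossProduct n m), ?_, ?_, ?_⟩
  · rw [dotProduct_comm]
    exact dot_self_cross n m
  · rw [dotProduct_comm]
    exact dot_self_cross n _
  · intro h
    set a := crossProduct n m with ha
    have han : n ⬝ᵥ a = 0 := dot_self_cross n m
    -- `a × (n × a) = (a·a) n - (a·n) a`
    have key : crossProduct a (crossProduct n a) = (a ⬝ᵥ a) • n - (n ⬝ᵥ a) • a := by
      funext i
      fin_cases i <;> simp [cross_apply, dotProduct, Fin.sum_univ_three] <;> ring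
    rw [key, han, zero_smul, sub_zero] at h
    rcases smul_eq_zero.1 h with h | h
    · exact hm (dotProduct_self_eq_zero.1 h)
    · exact hn h

/-- a vector orthogonal to `n`, not parallel to finitely many given vectors -/
lemma exists_perp {ι : Type} (T : Finset ι) (r : ι → E) (hr : ∀ i ∈ T, r i ≠ 0) {n : E} (hn : n ≠ 0) :
    ∃ w : E, w ≠ 0 ∧ w ⬝ᵥ n = 0 ∧ ∀ i ∈ T, Np w (r i) := by
  obtain ⟨a, b, ha, hb, hab⟩ := exists_pair hn
  have hfin : (⋃ i ∈ T, {t : ℝ | crossProduct (a + t • b) (r i) = 0}).Finite :=
    Set.Finite.biUnion T.finite_toSet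
      (fun i hi => (line_subsingleton hab (hr i hi)).finite)
  obtain ⟨t, ht⟩ := hfin.infinite_compl.nonempty
  refine ⟨a + t • b, ?_, ?_, ?_⟩
  · intro h
    apply hab
    have : a = -(t • b) := eq_neg_of_add_eq_zero_left h
    rw [this]
    simp
  · simp [add_dotProduct, smul_dotProduct, ha, hb]
  · intro i hi h
    apply ht
    simp only [Set.mem_iUnion]
    exact ⟨i, hi, h⟩

/-- there is a separated family of vectors -/
lemma exists_sep (V : Type) [Fintype V] (side : V → Bool) : ∃ ρ : V → E, Sep side ρ := by
  classical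
  let e := Fintype.equivFin V
  refine ⟨fun v => ![1, ((e v : ℕ) : ℝ), ((e v : ℕ) : ℝ) ^ 2], ?_, ?_⟩
  · intro v h
    have := congrFun h 0
    simp at this
  · intro u v huv _ h
    have h2 := congrFun h 2
    simp [cross_apply] at h2
    have h3 : ((e v : ℕ) : ℝ) = ((e u : ℕ) : ℝ) := by linarith
    have h4 : (e v : ℕ) = (e u : ℕ) := by exact_mod_cast h3
    exact huv (e.injective (Fin.ext h4)).symm

set_option linter.unusedSectionVars false
variable {V : Type} [Fintype V] [DecidableEq V]

open Classical in
lemma dg_mono {F F' : SimpleGraph V} (h : F ≤ F') (S : Finset V) (v : V) : dg F S v ≤ dg F' S v := by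
  unfold dg
  apply Finset.card_le_card
  intro u hu
  simp only [Finset.mem_filter] at hu ⊢
  exact ⟨hu.1, h hu.2⟩

lemma TwoDeg.mono {F F' : SimpleGraph V} (h : F ≤ F') (hF : TwoDeg F') : TwoDeg F := by
  intro S hS
  obtain ⟨v, hv, hd⟩ := hF S hS
  exact ⟨v, hv, (dg_mono h S v).trans hd⟩

lemma bip_mono {F F' : SimpleGraph V} {side : V → Bool} (h : F ≤ F') (hF : Bip F' side) :
    Bip F side := fun u v huv => hF u v (h huv)

lemma res_le (F : SimpleGraph V) (S : Finset V) : res F S ≤ F := fun _ _ h => h.1

lemma bip_addE {F : SimpleGraph V} {side : V → Bool} (hB : Bip F side) {x y : V}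
    (hxy : side x ≠ side y) : Bip (addE F x y) side := by
  intro u v huv
  rw [SimpleGraph.sup_adj, SimpleGraph.edge_adj] at huv
  rcases huv with h | ⟨⟨rfl, rfl⟩ | ⟨rfl, rfl⟩, _⟩
  · exact hB u v h
  · exact hxy
  · exact hxy.symm

/-- from a separated realization of `res F S` to an exact one -/
lemma exact_of_sep (hMin : MinStmt) (hF : TwoDegFreeStmt) (hS : SepOpenStmt)
    (F : SimpleGraph V) (side : V → Bool) (hB : Bip F side) (hT : TwoDeg F)
    (hA : ∀ x y, side x ≠ side y → ¬ F.Adj x y → TwoDeg (addE F x y)) (S : Finset V)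
    (ρ₀ : V → E) (h0 : Sep side ρ₀) (h1 : Rlz (res F S) ρ₀) : ∃ ρ, Exact (res F S) side ρ := by
  have hBS : Bip (res F S) side := bip_mono (res_le F S) hB
  obtain ⟨ρ, hρU, hρR, hρ⟩ := hMin V (res F S) side hBS {ρ | Sep side ρ} (hS V side) ρ₀ h0 h1
  refine ⟨ρ, hρR, hρU, ?_⟩
  intro x y hxy hadj h
  refine hρ x y hxy hadj h ?_
  have hle : res F S ≤ F := res_le F S
  have hT' : TwoDeg (addE (res F S) x y) := by
    by_cases hxyF : F.Adj x y
    · refine TwoDeg.mono ?_ hT
      apply sup_le hle
      intro u v huv
      rw [SimpleGraph.edge_adj] at huv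
      rcases huv with ⟨⟨rfl, rfl⟩ | ⟨rfl, rfl⟩, _⟩
      · exact hxyF
      · exact hxyF.symm
    · exact TwoDeg.mono (sup_le_sup_right hle _) (hA x y hxy hxyF)
  exact hF V (addE (res F S) x y) side ρ (bip_addE hBS hxy) hρU hT'

end ThmGAux

open ThmGAux in
theorem thmG (hMin : N3.MinStmt) (hF : N3.TwoDegFreeStmt) (hS : N3.SepOpenStmt) : N3.ThmGStmt := by
  classical
  intro V _ _ F side hB h4 hT hA
  suffices H : ∀ n : ℕ, ∀ S : Finset V, S.card = n → ∃ ρ, Exact (res F S) side ρ by
    obtain ⟨ρ, hR, hSep, hE⟩ := H _ univ rfl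
    refine ⟨ρ, ?_, hSep, ?_⟩
    · intro u v huv
      exact hR u v ⟨huv, mem_univ _, mem_univ _⟩
    · intro u v hs huv
      exact hE u v hs (fun h => huv h.1)
  intro n
  induction n with
  | zero =>
    intro S hS0
    rw [Finset.card_eq_zero] at hS0
    subst hS0
    obtain ⟨ρ₀, h0⟩ := exists_sep V side
    refine exact_of_sep hMin hF hS F side hB hT hA ∅ ρ₀ h0 ?_
    intro u v huv
    exact absurd huv.2.1 (Finset.notMem_empty u)
  | succ n ih =>
    intro S hSn
    have hSne : S.Nonempty := Finset.card_pos.1 (by omega)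
    obtain ⟨v, hvS, hvd⟩ := hT S hSne
    obtain ⟨ρ, hR, hSep, hE⟩ := ih (S.erase v) (by rw [Finset.card_erase_of_mem hvS]; omega)
    -- the new vector at `v`
    obtain ⟨w, hw0, hwN, hwP⟩ : ∃ w : E, w ≠ 0 ∧ (∀ u ∈ S, F.Adj v u → w ⬝ᵥ ρ u = 0) ∧
        ∀ u, u ≠ v → side u = side v → Np w (ρ u) := by
      by_cases h2 : dg F S v = 2
      · unfold dg at h2
        obtain ⟨u₁, u₂, h12, hu⟩ := Finset.card_eq_two.1 h2
        have hm : ∀ u, (u ∈ S ∧ F.Adj v u) ↔ u = u₁ ∨ u = u₂ := by
          intro u
          have := Finset.ext_iff.1 hu u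
          simpa using this
        obtain ⟨hu1S, hu1⟩ := (hm u₁).2 (Or.inl rfl)
        obtain ⟨hu2S, hu2⟩ := (hm u₂).2 (Or.inr rfl)
        have hs1 : side u₁ ≠ side v := (hB _ _ hu1).symm
        have hs2 : side u₂ ≠ side v := (hB _ _ hu2).symm
        have hs12 : side u₁ = side u₂ := by
          revert hs1 hs2
          cases side u₁ <;> cases side u₂ <;> cases side v <;> simp
        have hnp : Np (ρ u₁) (ρ u₂) := hSep.2 u₁ u₂ h12 hs12
        refine ⟨crossProduct (ρ u₁) (ρ u₂), hnp, ?_, ?_⟩
        · intro u huS huv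
          rcases (hm u).1 ⟨huS, huv⟩ with rfl | rfl
          · rw [dotProduct_comm]; exact dot_self_cross _ _
          · rw [dotProduct_comm]; exact dot_cross_self _ _
        · intro u huv hsu hcr
          obtain ⟨c, hc⟩ := parallel_of_cross hnp hcr
          have d1 : ρ u ⬝ᵥ ρ u₁ = 0 := by
            rw [hc, smul_dotProduct, dotProduct_comm, dot_self_cross, smul_zero]
          have d2 : ρ u ⬝ᵥ ρ u₂ = 0 := by
            rw [hc, smul_dotProduct, dotProduct_comm, dot_cross_self, smul_zero]
          have a1 : F.Adj u u₁ := by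
            by_contra hcon
            exact hE u u₁ (by rw [hsu]; exact hs1.symm) (fun h => hcon h.1) d1
          have a2 : F.Adj u u₂ := by
            by_contra hcon
            exact hE u u₂ (by rw [hsu]; exact hs2.symm) (fun h => hcon h.1) d2
          exact h12 (h4 u v huv u₁ u₂ a1 hu1 a2 hu2)
      · have h1 : dg F S v ≤ 1 := by omega
        unfold dg at h1
        rw [Finset.card_le_one] at h1
        obtain ⟨n₀, hn0, hnN⟩ : ∃ n₀ : E, n₀ ≠ 0 ∧ ∀ u ∈ S, F.Adj v u → ρ u = n₀ := by
          by_cases hex : ∃ u ∈ S, F.Adj v u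
          · obtain ⟨u, huS, huv⟩ := hex
            refine ⟨ρ u, hSep.1 u, ?_⟩
            intro u' hu'S hu'v
            rw [h1 u (by simp [huS, huv]) u' (by simp [hu'S, hu'v])]
          · push Not at hex
            exact ⟨ρ v, hSep.1 v, fun u huS huv => absurd huv (hex u huS)⟩
        obtain ⟨w, hw0, hwn, hwT⟩ := exists_perp (univ : Finset V) ρ (fun i _ => hSep.1 i) hn0
        refine ⟨w, hw0, ?_, fun u _ _ => hwT u (mem_univ _)⟩
        intro u huS huv
        rw [hnN u huS huv]
        exact hwn
    refine exact_of_sep hMin hF hS F side hB hT hA S (Function.update ρ v w) ?_ ?_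
    · refine ⟨?_, ?_⟩
      · intro u
        by_cases huv : u = v
        · subst huv; simpa using hw0
        · rw [Function.update_of_ne huv]; exact hSep.1 u
      · intro u u' huu' hss
        by_cases huv : u = v
        · subst huv
          rw [Function.update_self, Function.update_of_ne huu'.symm]
          exact hwP u' huu'.symm hss.symm
        · by_cases hu'v : u' = v
          · subst hu'v
            rw [Function.update_self, Function.update_of_ne huv]
            exact np_symm (hwP u huv hss)
          · rw [Function.update_of_ne huv, Function.update_of_ne hu'v]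
            exact hSep.2 u u' huu' hss
    · intro a b hab
      obtain ⟨habF, haS, hbS⟩ := hab
      by_cases hav : a = v
      · subst hav
        have hba : b ≠ a := habF.ne.symm
        rw [Function.update_self, Function.update_of_ne hba]
        exact hwN b hbS habF
      · by_cases hbv : b = v
        · subst hbv
          rw [Function.update_self, Function.update_of_ne hav, dotProduct_comm]
          exact hwN a haS habF.symm
        · rw [Function.update_of_ne hav, Function.update_of_ne hbv]
          exact hR a b ⟨habF, Finset.mem_erase.2 ⟨hav, haS⟩, Finset.mem_erase.2 ⟨hbv, hbS⟩⟩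

end N3
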