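import Pool.Agent.Lib_n3.StmtsDF
import Pool.Agent.Lib_n3.ThmG

/-!
# Module DFRho
-/

open scoped Matrix Topology
open Finset

namespace N3

set_option linter.unusedSectionVars false

namespace DFRhoAux

variable {V : Type} [Fintype V] [DecidableEq V]

/-- the support of a stress -/
def supp (F : SimpleGraph V) (ω : V → V → ℝ) (hs : ∀ u v, ω u v = ω v u) : SimpleGraph V where
  Adj u v := F.Adj u v ∧ ω u v ≠ 0
  symm := ⟨fun u v h => ⟨h.1.symm, by rw [hs v u]; exact h.2⟩⟩
  loopless := ⟨fun _ h => h.1.ne rfl⟩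

theorem core3_supp (hCore : CoreStmt) {F : SimpleGraph V} {side : V → Bool} {ρ : V → E}
    (hB : Bip F side) (hS : Sep side ρ) {ω : V → V → ℝ} (hω : Stress F ρ ω) :
    Core3 (supp F ω hω.1) := by
  classical
  intro u w huw
  have h := hCore V F side ρ hB hS ω hω u w huw.2
  refine h.trans (Finset.card_le_card ?_)
  intro a ha
  simp only [Finset.mem_filter, Finset.mem_univ, true_and] at ha ⊢
  refine ⟨?_, ha⟩
  by_contra hcon
  exact ha (hω.2.1 u a hcon)

theorem stress_mono {F F' : SimpleGraph V} (h : F ≤ F') {ρ : V → E} {ω : V → V → ℝ}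
    (hω : Stress F ρ ω) : Stress F' ρ ω :=
  ⟨hω.1, fun u v huv => hω.2.1 u v (fun h' => huv (h h')), hω.2.2⟩

theorem stress_comb {F : SimpleGraph V} {ρ : V → E} {ω ω' : V → V → ℝ}
    (hω : Stress F ρ ω) (hω' : Stress F ρ ω') (c d : ℝ) :
    Stress F ρ (fun u v => c * ω u v + d * ω' u v) := by
  refine ⟨fun u v => ?_, fun u v huv => ?_, fun v => ?_⟩
  · simp only [hω.1 u v, hω'.1 u v]
  · simp only [hω.2.1 u v huv, hω'.2.1 u v huv, mul_zero, add_zero]
  · simp only [add_smul, mul_smul, Finset.sum_add_distrib, ← Finset.smul_sum, hω.2.2 v, hω'.2.2 v,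
      smul_zero, add_zero]

theorem bool_eq {a b c : Bool} (h1 : a ≠ c) (h2 : b ≠ c) : a = b := by
  revert h1 h2
  cases a <;> cases b <;> cases c <;> simp

end DFRhoAux

open DFRhoAux ThmGAux in
theorem dfRho (hG : ThmGStmt) (hMin : MinStmt) (hCore : CoreStmt) (hF : TwoDegFreeStmt)
    (hS : SepOpenStmt) : DFRhoStmt := by
  classical
  intro V _ _ G side v x p r hD hC
  set F := dfF G v x p r with hFdef
  set H := dfH G v x p r with hHdef
  have hBG := hD.lev.bip
  -- sides
  have hsx : ∀ i, side (x i) = side (x 0) := fun i =>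
    bool_eq (hBG _ _ (hD.vx i)).symm (hBG _ _ (hD.vx 0)).symm
  have hsp : ∀ i, side (p i) ≠ side (x 0) := fun i => by
    rw [← hsx i]; exact (hBG _ _ (hD.xp i)).symm
  have hsr : ∀ i, side (r i) ≠ side (x 0) := fun i => by
    rw [← hsx i]; exact (hBG _ _ (hD.xr i)).symm
  -- `x 0` is isolated in `H`
  have hiso : ∀ a, ¬ H.Adj (x 0) a := by
    intro a h
    have := h.2.1
    simp at this
  have hiso' : ∀ a, ¬ H.Adj a (x 0) := fun a h => hiso a h.symm
  have hHF : H ≤ F := le_sup_of_le_left le_sup_left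
  have hFx : ∀ a, F.Adj (x 0) a ↔ a = p 0 ∨ a = r 0 := by
    intro a
    rw [hFdef]
    unfold dfF
    rw [SimpleGraph.sup_adj, SimpleGraph.sup_adj, SimpleGraph.edge_adj, SimpleGraph.edge_adj]
    constructor
    · rintro ((h | ⟨⟨-, h⟩ | ⟨h, h'⟩, h2⟩) | ⟨⟨-, h⟩ | ⟨h, h'⟩, h2⟩)
      · exact absurd h (hiso a)
      · exact Or.inl h
      · exact absurd h'.symm h2
      · exact Or.inr h
      · exact absurd h'.symm h2
    · rintro (h | h)
      · subst h
        exact Or.inl (Or.inr ⟨Or.inl ⟨rfl, rfl⟩, (hD.xp 0).ne⟩)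
      · subst h
        exact Or.inr ⟨Or.inl ⟨rfl, rfl⟩, (hD.xr 0).ne⟩
  have hFH : ∀ a b, a ≠ x 0 → b ≠ x 0 → F.Adj a b → H.Adj a b := by
    intro a b ha hb h
    rw [hFdef] at h
    unfold dfF at h
    rw [SimpleGraph.sup_adj, SimpleGraph.sup_adj, SimpleGraph.edge_adj, SimpleGraph.edge_adj] at h
    rcases h with (h | ⟨⟨h, -⟩ | ⟨-, h⟩, -⟩) | ⟨⟨h, -⟩ | ⟨-, h⟩, -⟩
    · exact h
    · exact absurd h ha
    · exact absurd h hb
    · exact absurd h ha
    · exact absurd h hb
  -- exact realization of `H`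
  have hTH : TwoDeg H := TwoDeg.mono hHF hC.twoDeg
  have hBH : Bip H side := bip_mono hHF hC.bip
  have hx0pair : ∀ z, TwoDeg (addE H (x 0) z) := by
    intro z S hSne
    by_cases hx0 : x 0 ∈ S
    · refine ⟨x 0, hx0, ?_⟩
      unfold dg
      refine (Finset.card_le_one.2 ?_).trans (by norm_num)
      intro a ha b hb
      simp only [Finset.mem_filter] at ha hb
      have key : ∀ c, (addE H (x 0) z).Adj (x 0) c → c = z := by
        intro c hc
        rw [SimpleGraph.sup_adj, SimpleGraph.edge_adj] at hc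
        rcases hc with h | ⟨⟨-, h⟩ | ⟨-, h⟩, h2⟩
        · exact absurd h (hiso c)
        · exact h
        · exact absurd h.symm h2
      rw [key a ha.2, key b hb.2]
    · obtain ⟨w, hw, hd⟩ := hTH S hSne
      refine ⟨w, hw, le_trans (le_of_eq ?_) hd⟩
      unfold dg
      congr 1
      ext a
      simp only [Finset.mem_filter, and_congr_right_iff]
      intro haS
      rw [SimpleGraph.sup_adj, SimpleGraph.edge_adj]
      constructor
      · rintro (h | ⟨⟨h, -⟩ | ⟨-, h⟩, -⟩)
        · exact h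
        · rw [h] at hw; exact absurd hw hx0
        · rw [h] at haS; exact absurd haS hx0
      · exact Or.inl
  have hpairs : ∀ y z, side y ≠ side z → ¬ H.Adj y z → TwoDeg (addE H y z) := by
    intro y z hyz hadj
    by_cases hy : y = x 0
    · subst hy; exact hx0pair z
    · by_cases hz : z = x 0
      · subst hz
        have : addE H y (x 0) = addE H (x 0) y := by
          unfold addE
          rw [SimpleGraph.edge_comm]
        rw [this]
        exact hx0pair y
      · have h1 : ¬ F.Adj y z := fun h => hadj (hFH y z hy hz h)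
        exact TwoDeg.mono (sup_le_sup_right hHF _) (hC.pairs y z hyz h1 hy hz)
  have hNH : NoC4 H := fun u w huw a b h1 h2 h3 h4 =>
    hC.noC4 u w huw a b (hHF h1) (hHF h2) (hHF h3) (hHF h4)
  obtain ⟨ρ₁, hR₁, hS₁, hE₁⟩ := hG V H side hBH hNH hTH hpairs
  -- the vector at `x 0`
  have hspr : side (p 0) = side (r 0) := bool_eq (hsp 0) (hsr 0)
  have hnp : Np (ρ₁ (p 0)) (ρ₁ (r 0)) := hS₁.2 _ _ (hD.pr 0) hspr
  have hpx : p 0 ≠ x 0 := (hD.xp 0).ne.symm
  have hrx : r 0 ≠ x 0 := (hD.xr 0).ne.symm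
  set w : E := crossProduct (ρ₁ (p 0)) (ρ₁ (r 0)) with hw
  have hwp : w ⬝ᵥ ρ₁ (p 0) = 0 := by rw [dotProduct_comm]; exact dot_self_cross _ _
  have hwr : w ⬝ᵥ ρ₁ (r 0) = 0 := by rw [dotProduct_comm]; exact dot_cross_self _ _
  have hwN : ∀ u, u ≠ x 0 → side u = side (x 0) → Np w (ρ₁ u) := by
    intro u hu hsu hcr
    obtain ⟨c, hc⟩ := parallel_of_cross hnp hcr
    have d1 : ρ₁ u ⬝ᵥ ρ₁ (p 0) = 0 := by rw [hc, smul_dotProduct, hwp, smul_zero]
    have d2 : ρ₁ u ⬝ᵥ ρ₁ (r 0) = 0 := by rw [hc, smul_dotProduct, hwr, smul_zero]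
    have a1 : H.Adj u (p 0) := by
      by_contra hcon
      exact hE₁ u (p 0) (by rw [hsu]; exact (hsp 0).symm) hcon d1
    have a2 : H.Adj u (r 0) := by
      by_contra hcon
      exact hE₁ u (r 0) (by rw [hsu]; exact (hsr 0).symm) hcon d2
    exact hD.pr 0 (hC.noC4 u (x 0) hu (p 0) (r 0) (hHF a1) ((hFx _).2 (Or.inl rfl)) (hHF a2)
      ((hFx _).2 (Or.inr rfl)))
  have hS₂ : Sep side (Function.update ρ₁ (x 0) w) := by
    refine ⟨?_, ?_⟩
    · intro u
      by_cases huv : u = x 0
      · subst huv; rw [Function.update_self]; exact hnp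
      · rw [Function.update_of_ne huv]; exact hS₁.1 u
    · intro u u' huu' hss
      by_cases huv : u = x 0
      · subst huv
        rw [Function.update_self, Function.update_of_ne huu'.symm]
        exact hwN u' huu'.symm hss.symm
      · by_cases hu'v : u' = x 0
        · subst hu'v
          rw [Function.update_self, Function.update_of_ne huv]
          exact np_symm (hwN u huv hss)
        · rw [Function.update_of_ne huv, Function.update_of_ne hu'v]
          exact hS₁.2 u u' huu' hss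
  have hR₂ : Rlz F (Function.update ρ₁ (x 0) w) := by
    intro a b hab
    by_cases ha : a = x 0
    · subst ha
      have hb : b ≠ x 0 := hab.ne.symm
      rw [Function.update_self, Function.update_of_ne hb]
      rcases (hFx b).1 hab with h | h
      · subst h; exact hwp
      · subst h; exact hwr
    · by_cases hb : b = x 0
      · subst hb
        rw [Function.update_self, Function.update_of_ne ha, dotProduct_comm]
        rcases (hFx a).1 hab.symm with h | h
        · subst h; exact hwp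
        · subst h; exact hwr
      · rw [Function.update_of_ne ha, Function.update_of_ne hb]
        exact hR₁ a b (hFH a b ha hb hab)
  obtain ⟨ρ, hρS, hρR, hρ⟩ := hMin V F side hC.bip {ρ | Sep side ρ} (hS V side) _ hS₂ hR₂
  change Sep side ρ at hρS
  -- `tau`
  have htau : ∀ y, side y ≠ side (x 0) → ¬ F.Adj (x 0) y → ρ (x 0) ⬝ᵥ ρ y = 0 →
      ∃ τ, Stress (addE F (x 0) y) ρ τ ∧ ∀ a b, (addE F (x 0) y).Adj a b → τ a b ≠ 0 := by
    intro y hsy hadj h0
    have h1 := hρ (x 0) y hsy.symm hadj h0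
    unfold StressFree at h1
    push Not at h1
    obtain ⟨τ, hτ, a, b, hab⟩ := h1
    refine ⟨τ, hτ, ?_⟩
    have hB : Bip (addE F (x 0) y) side := bip_addE hC.bip hsy.symm
    have hT := hC.full y hsy hadj (supp (addE F (x 0) y) τ hτ.1) (fun _ _ h => h.1) (by
      intro hbot
      have hadj' : (addE F (x 0) y).Adj a b := by
        by_contra hcon
        exact hab (hτ.2.1 a b hcon)
      have : (supp (addE F (x 0) y) τ hτ.1).Adj a b := ⟨hadj', hab⟩
      rw [hbot] at this
      exact this) (core3_supp hCore hB hρS hτ)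
    intro a' b' hab'
    have : (supp (addE F (x 0) y) τ hτ.1).Adj a' b' := by rw [hT]; exact hab'
    exact this.2
  refine ⟨ρ, hρR, hρS, hF V F side ρ hC.bip hρS hC.twoDeg, ?_, htau, ?_⟩
  · intro y z hyz hadj hy hz h0
    exact hρ y z hyz hadj h0
      (hF V _ side ρ (bip_addE hC.bip hyz) hρS (hC.pairs y z hyz hadj hy hz))
  · intro m hm hm0 y hsy hym hyp hyr hy0
    have hne : ∀ i : Fin 3, i ≠ 0 → p i ≠ p 0 ∧ p i ≠ r 0 := by
      intro i hi
      constructor
      · intro h
        have h1 : G.Adj (p 0) (x i) := by rw [← h]; exact (hD.xp i).symm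
        exact hi (hD.x_inj (hD.lev.noC4 v (p 0) (hD.pv 0).symm (x i) (x 0) (hD.vx i) h1 (hD.vx 0)
          (hD.xp 0).symm))
      · intro h
        have h1 : G.Adj (r 0) (x i) := by rw [← h]; exact (hD.xp i).symm
        exact hi (hD.x_inj (hD.lev.noC4 v (r 0) (hD.rv 0).symm (x i) (x 0) (hD.vx i) h1 (hD.vx 0)
          (hD.xr 0).symm))
    have hsm : side m ≠ side (x 0) := by
      rcases hm with rfl | rfl
      · exact hsp 1
      · exact hsp 2
    have hmne : m ≠ p 0 ∧ m ≠ r 0 := by
      rcases hm with rfl | rfl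
      · exact hne 1 (by decide)
      · exact hne 2 (by decide)
    have hmadj : ¬ F.Adj (x 0) m := by
      rw [hFx]
      rintro (h | h)
      · exact hmne.1 h
      · exact hmne.2 h
    have hyadj : ¬ F.Adj (x 0) y := by
      rw [hFx]
      rintro (h | h)
      · exact hyp h
      · exact hyr h
    obtain ⟨τm, hτm, hm'⟩ := htau m hsm hmadj hm0
    obtain ⟨τy, hτy, hy'⟩ := htau y hsy hyadj hy0
    set K := addE (addE F (x 0) m) (x 0) y with hK
    have hmK : addE F (x 0) m ≤ K := le_sup_left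
    have hyK : addE F (x 0) y ≤ K := sup_le_sup_right le_sup_left _
    have hcomb := stress_comb (stress_mono hyK hτy) (stress_mono hmK hτm) (τm (x 0) (p 0))
      (-(τy (x 0) (p 0)))
    set ω : V → V → ℝ := fun u v => τm (x 0) (p 0) * τy u v + -(τy (x 0) (p 0)) * τm u v with hω
    have hxp : (addE F (x 0) m).Adj (x 0) (p 0) := Or.inl ((hFx _).2 (Or.inl rfl))
    have hBK : Bip K side := bip_addE (bip_addE hC.bip hsm.symm) hsy.symm
    have hT := hC.two m hm y hsy hym hyp hyr (supp K ω hcomb.1) (fun _ _ h => h.1) (by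
      intro h
      apply h.2
      simp only [hω]
      ring) (core3_supp hCore hBK hρS hcomb)
    have hyx : y ≠ x 0 := fun h => hsy (by rw [h])
    have hKy : K.Adj (x 0) y := by
      refine Or.inr ?_
      rw [SimpleGraph.edge_adj]
      exact ⟨Or.inl ⟨rfl, rfl⟩, hyx.symm⟩
    have hτm0 : τm (x 0) y = 0 := by
      refine hτm.2.1 _ _ ?_
      rw [SimpleGraph.sup_adj, SimpleGraph.edge_adj]
      rintro (h | ⟨⟨-, h⟩ | ⟨-, h⟩, h2⟩)
      · exact hyadj h
      · exact hym h
      · exact h2 h.symm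
    have hne0 : ω (x 0) y ≠ 0 := by
      simp only [hω, hτm0, mul_zero, add_zero]
      refine mul_ne_zero (hm' _ _ hxp) (hy' _ _ ?_)
      refine Or.inr ?_
      rw [SimpleGraph.edge_adj]
      exact ⟨Or.inl ⟨rfl, rfl⟩, hyx.symm⟩
    have : (supp K ω hcomb.1).Adj (x 0) y := ⟨hKy, hne0⟩
    rw [hT] at this
    exact this

end N3
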