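import Mathlib

/-!
# Realizations of cubic bipartite graphs (MP_07e12a_co, frozen S07024): base definitions

A point or a line of the real projective plane is a nonzero vector of `ℝ³` up to scaling, and a point
`p` lies on a line `l` iff `p ⬝ᵥ l = 0`.  Points and lines play symmetric roles, so a Levi graph is
just a bipartite graph on a type `V` with a map `side : V → Bool` (`false` = point, `true` = line).

All graphs of the project (subgraphs, quotients) live on the same vertex type `V`; removed vertices
and the non-representatives of identified vertices are isolated vertices.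
-/

open scoped Matrix Topology
open Finset

namespace N3

/-- vectors of `ℝ³` -/
abbrev E := Fin 3 → ℝ

/-- `a` and `b` are linearly independent (in particular both nonzero) -/
def Np (a b : E) : Prop := crossProduct a b ≠ 0

variable {V : Type}

/-- every edge joins the two sides -/
def Bip (F : SimpleGraph V) (side : V → Bool) : Prop := ∀ u v, F.Adj u v → side u ≠ side v

/-- no 4-cycle: two distinct vertices have at most one common neighbour -/
def NoC4 (F : SimpleGraph V) : Prop :=
  ∀ u v, u ≠ v → ∀ a b, F.Adj u a → F.Adj v a → F.Adj u b → F.Adj v b → a = b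

/-- no 6-cycle -/
def NoC6 (F : SimpleGraph V) : Prop :=
  ∀ f : Fin 6 → V, Function.Injective f → ¬ ∀ i, F.Adj (f i) (f (i + 1))

/-- `F` together with the edge `x y` -/
abbrev addE (F : SimpleGraph V) (x y : V) : SimpleGraph V := F ⊔ SimpleGraph.edge x y

/-- realization: adjacent vertices get orthogonal vectors (zero vectors allowed) -/
def Rlz (F : SimpleGraph V) (ρ : V → E) : Prop := ∀ u v, F.Adj u v → ρ u ⬝ᵥ ρ v = 0

/-- separated: nonzero vectors, and vectors of distinct vertices of the same side not parallel -/
def Sep (side : V → Bool) (ρ : V → E) : Prop :=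
  (∀ v, ρ v ≠ 0) ∧ ∀ u v, u ≠ v → side u = side v → Np (ρ u) (ρ v)

/-- exact realization: separated, and non-adjacent vertices of different sides are not orthogonal -/
def Exact (F : SimpleGraph V) (side : V → Bool) (ρ : V → E) : Prop :=
  Rlz F ρ ∧ Sep side ρ ∧ ∀ u v, side u ≠ side v → ¬ F.Adj u v → ρ u ⬝ᵥ ρ v ≠ 0

section fin
variable [Fintype V] [DecidableEq V]

/-- a stress of `F` at `ρ`: symmetric edge weights in equilibrium at every vertex -/
def Stress (F : SimpleGraph V) (ρ : V → E) (ω : V → V → ℝ) : Prop :=
  (∀ u v, ω u v = ω v u) ∧ (∀ u v, ¬ F.Adj u v → ω u v = 0) ∧ ∀ v, ∑ u, ω v u • ρ u = 0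

/-- the only stress is zero, i.e. the differentials of the functions `ρ u ⬝ᵥ ρ v`, `uv` an edge of
`F`, are linearly independent at `ρ` -/
def StressFree (F : SimpleGraph V) (ρ : V → E) : Prop := ∀ ω, Stress F ρ ω → ∀ u v, ω u v = 0

open Classical in
/-- number of neighbours of `v` in `S` -/
noncomputable def dg (F : SimpleGraph V) (S : Finset V) (v : V) : ℕ :=
  (S.filter (fun u => F.Adj v u)).card

/-- number of edges between `A` and `B` (ordered pairs `(a, b)` with `a ∈ A`, `b ∈ B`) -/
noncomputable def ed (F : SimpleGraph V) (A B : Finset V) : ℕ := ∑ v ∈ A, dg F B v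

/-- number of edges between `A` and its complement -/
noncomputable def cut (F : SimpleGraph V) (A : Finset V) : ℕ := ed F A Aᶜ

/-- 2-degenerate: every nonempty set of vertices contains a vertex with at most two neighbours in
it -/
def TwoDeg (F : SimpleGraph V) : Prop := ∀ S : Finset V, S.Nonempty → ∃ v ∈ S, dg F S v ≤ 2

/-- Levi graph of a 3-connected `(n_3)` configuration: bipartite, cubic, without 4-cycles,
3-edge-connected -/
structure Lev (G : SimpleGraph V) (side : V → Bool) : Prop where
  bip : Bip G side
  cubic : ∀ v, dg G univ v = 3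
  noC4 : NoC4 G
  c3 : ∀ A : Finset V, A.Nonempty → Aᶜ.Nonempty → 3 ≤ cut G A

/-- no nontrivial 3-edge-cut -/
def Cyc4 (G : SimpleGraph V) : Prop := ∀ A : Finset V, cut G A ≤ 3 → A.card ≤ 1 ∨ Aᶜ.card ≤ 1

/-- no nontrivial edge-cut with at most 4 edges -/
def Cyc5 (G : SimpleGraph V) : Prop := ∀ A : Finset V, cut G A ≤ 4 → A.card ≤ 2 ∨ Aᶜ.card ≤ 2

/-- `F` with all edges not inside `S` removed -/
def res (F : SimpleGraph V) (S : Finset V) : SimpleGraph V where
  Adj u v := F.Adj u v ∧ u ∈ S ∧ v ∈ S
  symm := ⟨fun _ _ h => ⟨h.1.symm, h.2.2, h.2.1⟩⟩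
  loopless := ⟨fun _ h => h.1.ne rfl⟩

/-- the quotient of `G` by `q : V → V`, on the vertex type `V` -/
def quot (G : SimpleGraph V) (q : V → V) : SimpleGraph V :=
  SimpleGraph.fromRel (fun a b => ∃ u v, G.Adj u v ∧ q u = a ∧ q v = b)

end fin

end N3
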