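import Pool.Agent.Lib_n3.Stmts

/-!
# From the main statement to the frozen statement S07024

The Levi graph of an `(n_3)` configuration with 3-connected Levi graph satisfies `N3.Lev`, so by
`N3.MainStmt` it has an exact realization, which gives points and straight lines in the plane.
-/

open scoped Matrix Topology
open Finset

namespace N3

/-- Exact realizations by nonzero vectors give exact realizations by points and non-vertical lines. -/
def AffineStmt : Prop := ∀ (n : ℕ) (I : Fin n → Fin n → Prop) (ρ : Fin n ⊕ Fin n → E),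
  (∀ v, ρ v ≠ 0) → (∀ p l, I p l ↔ ρ (Sum.inl p) ⬝ᵥ ρ (Sum.inr l) = 0) →
    ∃ a b : Fin n → ℝ, ∃ P : Fin n → ℝ × ℝ, ∀ i j, I i j ↔ (P i).2 = a j * (P i).1 + b j

section levi

variable {n : ℕ} (I : Fin n → Fin n → Prop)

/-- the Levi graph -/
def levi : SimpleGraph (Fin n ⊕ Fin n) :=
  SimpleGraph.fromRel (fun u v : Fin n ⊕ Fin n => ∃ p l, u = Sum.inl p ∧ v = Sum.inr l ∧ I p l)

theorem levi_lr (p l : Fin n) : (levi I).Adj (Sum.inl p) (Sum.inr l) ↔ I p l := by
  simp [levi, SimpleGraph.fromRel_adj]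

theorem levi_rl (p l : Fin n) : (levi I).Adj (Sum.inr l) (Sum.inl p) ↔ I p l := by
  rw [SimpleGraph.adj_comm, levi_lr]

theorem levi_ll (p q : Fin n) : ¬ (levi I).Adj (Sum.inl p) (Sum.inl q) := by
  simp [levi, SimpleGraph.fromRel_adj]

theorem levi_rr (p q : Fin n) : ¬ (levi I).Adj (Sum.inr p) (Sum.inr q) := by
  simp [levi, SimpleGraph.fromRel_adj]

theorem levi_bip : Bip (levi I) Sum.isRight := by
  rintro (p | l) (q | m) h
  · exact absurd h (levi_ll I p q)
  · simp
  · simp
  · exact absurd h (levi_rr I l m)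

theorem levi_cubic (h1 : ∀ p, {l | I p l}.ncard = 3) (h2 : ∀ l, {p | I p l}.ncard = 3)
    (v : Fin n ⊕ Fin n) : dg (levi I) univ v = 3 := by
  classical
  rcases v with p | l
  · have e : (univ.filter (fun u => (levi I).Adj (Sum.inl p) u)) =
        (univ.filter (fun l => I p l)).map ⟨Sum.inr, Sum.inr_injective⟩ := by
      ext u
      rcases u with q | l
      · simp [levi_ll]
      · simp [levi_lr]
    have e2 : (univ.filter (fun l => I p l)).card = 3 := by
      rw [← h1 p, Set.ncard_eq_toFinset_card']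
      congr 1
      ext l
      simp
    have e3 : (univ.filter (fun u => (levi I).Adj (Sum.inl p) u)).card = 3 := by
      rw [e, Finset.card_map, e2]
    unfold dg
    convert e3
  · have e : (univ.filter (fun u => (levi I).Adj (Sum.inr l) u)) =
        (univ.filter (fun p => I p l)).map ⟨Sum.inl, Sum.inl_injective⟩ := by
      ext u
      rcases u with q | m
      · simp [levi_rl]
      · simp [levi_rr]
    have e2 : (univ.filter (fun p => I p l)).card = 3 := by
      rw [← h2 l, Set.ncard_eq_toFinset_card']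
      congr 1
      ext l
      simp
    have e3 : (univ.filter (fun u => (levi I).Adj (Sum.inr l) u)).card = 3 := by
      rw [e, Finset.card_map, e2]
    unfold dg
    convert e3

theorem levi_noC4 (h3 : ∀ p q, p ≠ q → {l | I p l ∧ I q l}.ncard ≤ 1) : NoC4 (levi I) := by
  have key : ∀ p q, p ≠ q → ∀ l m, I p l → I q l → I p m → I q m → l = m := by
    intro p q hpq l m h1 h2 h4 h5
    exact (Set.ncard_le_one (Set.toFinite _)).1 (h3 p q hpq) l ⟨h1, h2⟩ m ⟨h4, h5⟩
  rintro (p | l) (q | m) hne (a | a) (b | b) h1 h2 h4 h5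
  · exact absurd h1 (levi_ll I _ _)
  · exact absurd h1 (levi_ll I _ _)
  · exact absurd h4 (levi_ll I _ _)
  · rw [levi_lr] at h1 h2 h4 h5
    rw [key p q (fun h => hne (by rw [h])) a b h1 h2 h4 h5]
  · exact absurd h1 (levi_ll I _ _)
  · exact absurd h1 (levi_ll I _ _)
  · exact absurd h2 (levi_rr I _ _)
  · exact absurd h2 (levi_rr I _ _)
  · exact absurd h2 (levi_ll I _ _)
  · exact absurd h2 (levi_ll I _ _)
  · exact absurd h1 (levi_rr I _ _)
  · exact absurd h1 (levi_rr I _ _)
  · rw [levi_rl] at h1 h2 h4 h5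
    by_contra hab
    have hab' : a ≠ b := fun h => hab (by rw [h])
    exact hne (by rw [key a b hab' l m h1 h4 h2 h5])
  · exact absurd h4 (levi_rr I _ _)
  · exact absurd h1 (levi_rr I _ _)
  · exact absurd h1 (levi_rr I _ _)

end levi

/-- A cubic graph which stays connected after the deletion of any two vertices is
3-edge-connected. -/
theorem c3_of_conn {V : Type} [Fintype V] [DecidableEq V] (G : SimpleGraph V)
    (hG : ∀ v, dg G univ v = 3)
    (hconn : ∀ S : Finset V, S.card ≤ 2 → (G.induce {v : V | v ∉ S}).Connected)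
    (A : Finset V) (hA : A.Nonempty) (hA' : Aᶜ.Nonempty) : 3 ≤ cut G A := by
  classical
  by_contra hlt
  push Not at hlt
  -- endpoints of the cut edges
  set T : Finset V := A.filter (fun v => ∃ u, u ∉ A ∧ G.Adj v u) with hT
  have hdg : ∀ v, v ∈ T → 1 ≤ dg G Aᶜ v := by
    intro v hv
    rw [hT, mem_filter] at hv
    obtain ⟨hvA, u, hu, hadj⟩ := hv
    unfold dg
    apply Finset.card_pos.2
    exact ⟨u, by simp [hu, hadj]⟩
  have hTmem : ∀ v ∈ A, ∀ u, u ∉ A → G.Adj v u → v ∈ T := by
    intro v hv u hu hadj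
    rw [hT, mem_filter]
    exact ⟨hv, u, hu, hadj⟩
  have hTA : T ⊆ A := filter_subset _ _
  have hTcard : T.card ≤ cut G A := by
    calc T.card = ∑ v ∈ T, 1 := by simp
      _ ≤ ∑ v ∈ T, dg G Aᶜ v := Finset.sum_le_sum hdg
      _ ≤ ∑ v ∈ A, dg G Aᶜ v := Finset.sum_le_sum_of_subset hTA
      _ = cut G A := rfl
  have hT2 : T.card ≤ 2 := by omega
  -- degrees split
  have hsplit : ∀ v, dg G A v + dg G Aᶜ v = 3 := by
    intro v
    rw [← hG v]
    unfold dg
    rw [← Finset.card_union_of_disjoint]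
    · congr 1
      ext u
      simp only [mem_union, mem_filter, mem_compl, mem_univ, true_and]
      tauto
    · rw [Finset.disjoint_left]
      intro u h1 h2
      simp only [mem_filter, mem_compl] at h1 h2
      exact h2.1 h1.1
  have hinA : ∀ v ∈ A, dg G A v + 1 ≤ A.card := by
    intro v hv
    unfold dg
    have : (A.filter (fun u => G.Adj v u)) ⊆ A.erase v := by
      intro u hu
      rw [mem_filter] at hu
      exact mem_erase.2 ⟨hu.2.ne', hu.1⟩
    have h1 := Finset.card_le_card this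
    rw [Finset.card_erase_of_mem hv] at h1
    have h2 : 0 < A.card := Finset.card_pos.2 ⟨v, hv⟩
    omega
  obtain ⟨a, haA, haT⟩ : ∃ a ∈ A, a ∉ T := by
    by_contra hno
    push Not at hno
    have hAT : A = T := Finset.Subset.antisymm hno hTA
    have hAc : A.card ≤ 2 := by rw [hAT]; exact hT2
    have hge : ∀ v ∈ A, 4 - A.card ≤ dg G Aᶜ v := by
      intro v hv
      have h1 := hsplit v
      have h2 := hinA v hv
      omega
    have hsum : A.card * (4 - A.card) ≤ cut G A := by
      calc A.card * (4 - A.card) = ∑ v ∈ A, (4 - A.card) := by simp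
        _ ≤ ∑ v ∈ A, dg G Aᶜ v := Finset.sum_le_sum hge
        _ = cut G A := rfl
    have hpos : 0 < A.card := Finset.card_pos.2 hA
    have : A.card = 1 ∨ A.card = 2 := by omega
    rcases this with h | h <;> rw [h] at hsum <;> omega
  obtain ⟨b, hb⟩ := hA'
  have hbA : b ∉ A := by simpa using hb
  have hbT : b ∉ T := fun h => hbA (hTA h)
  have hreach := (hconn T hT2).preconnected ⟨a, haT⟩ ⟨b, hbT⟩
  obtain ⟨w⟩ := hreach
  have hstep : ∀ (x y : {v : V | v ∉ T}), (G.induce {v : V | v ∉ T}).Walk x y →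
      (x : V) ∈ A → (y : V) ∈ A := by
    intro x y w
    induction w with
    | nil => exact id
    | @cons x y z hxy _ ih =>
      intro hx
      apply ih
      by_contra hy
      have hxT : (x : V) ∉ T := x.2
      exact hxT (hTmem _ hx _ hy hxy)
  exact hbA (hstep _ _ w haA)

/-- The frozen statement S07024 follows from the main statement. -/
theorem frozen (hM : MainStmt) (hA : AffineStmt) :
    ¬ (∃ n : ℕ, 10 < n ∧ ∃ I : Fin n → Fin n → Prop,
      (∀ p, {l | I p l}.ncard = 3) ∧
      (∀ l, {p | I p l}.ncard = 3) ∧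
      (∀ p q, p ≠ q → {l | I p l ∧ I q l}.ncard ≤ 1) ∧
      (∀ S : Finset (Fin n ⊕ Fin n), S.card ≤ 2 →
        ((SimpleGraph.fromRel (fun u v : Fin n ⊕ Fin n =>
            ∃ p l, u = Sum.inl p ∧ v = Sum.inr l ∧ I p l)).induce
          {v : Fin n ⊕ Fin n | v ∉ S}).Connected) ∧
      (∃ f : Fin n → ℝ → ℝ, ∃ P : Fin n → ℝ × ℝ,
        (∀ j, Continuous (f j)) ∧
        (∀ j k, j ≠ k →
          ((∃ t : ℝ, ∀ x : ℝ, (x < t → f j x < f k x) ∧ (t < x → f k x < f j x)) ∨
           (∃ t : ℝ, ∀ x : ℝ, (x < t → f k x < f j x) ∧ (t < x → f j x < f k x)))) ∧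
        (∀ i j, I i j ↔ (P i).2 = f j (P i).1)) ∧
      ¬ (∃ a b : Fin n → ℝ, ∃ P : Fin n → ℝ × ℝ,
        ∀ i j, I i j ↔ (P i).2 = a j * (P i).1 + b j)) := by
  rintro ⟨n, hn, I, h1, h2, h3, hconn, -, hno⟩
  apply hno
  have hcub := levi_cubic I h1 h2
  have hlev : Lev (levi I) Sum.isRight :=
    { bip := levi_bip I
      cubic := hcub
      noC4 := levi_noC4 I h3
      c3 := fun A hA hA' => c3_of_conn (levi I) hcub hconn A hA hA' }
  have hcard : 22 ≤ Fintype.card (Fin n ⊕ Fin n) := by
    rw [Fintype.card_sum, Fintype.card_fin]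
    omega
  obtain ⟨ρ, hR, hS, hN⟩ := hM (Fin n ⊕ Fin n) (levi I) Sum.isRight hlev hcard
  refine hA n I ρ hS.1 (fun p l => ⟨fun h => hR _ _ ((levi_lr I p l).2 h), fun h => ?_⟩)
  by_contra hI
  exact hN (Sum.inl p) (Sum.inr l) (by simp) (fun h' => hI ((levi_lr I p l).1 h')) h

end N3
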