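import Pool.Agent.Lib_n3.StmtsGlue

/-!
# Module GLUE3 of the project MP_07e12a_co: gluing along a nontrivial 3-edge-cut
-/

open scoped Matrix Topology
open Finset

namespace N3

namespace G3

/-! ### Linear algebra -/

theorem np_symm {a b : E} (h : Np a b) : Np b a := by
  intro h0
  apply h
  rw [← cross_anticomm, h0, neg_zero]

theorem np_map {f : E →ₗ[ℝ] E} (hf : Function.Injective f) {a b : E} (h : Np a b) :
    Np (f a) (f b) := by
  unfold Np at h ⊢
  rw [crossProduct_ne_zero_iff_linearIndependent] at h ⊢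
  have h2 := h.map' f (LinearMap.ker_eq_bot.2 hf)
  have e : (f ∘ ![a, b]) = ![f a, f b] := by
    funext i
    fin_cases i <;> rfl
  rwa [e] at h2

theorem dual_inj_g {g h : E →ₗ[ℝ] E} (hgh : DualPair g h) : Function.Injective g := by
  rw [← LinearMap.ker_eq_bot, LinearMap.ker_eq_bot']
  intro p hp
  refine dotProduct_eq_zero p (fun w => ?_)
  rw [← hgh p w, hp, zero_dotProduct]

theorem dual_inj_h {g h : E →ₗ[ℝ] E} (hgh : DualPair g h) : Function.Injective h := by
  rw [← LinearMap.ker_eq_bot, LinearMap.ker_eq_bot']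
  intro p hp
  refine dotProduct_eq_zero p (fun w => ?_)
  rw [dotProduct_comm, ← hgh w p, hp, dotProduct_zero]

theorem dual_surj_g {g h : E →ₗ[ℝ] E} (hgh : DualPair g h) : Function.Surjective g :=
  LinearMap.injective_iff_surjective.1 (dual_inj_g hgh)

theorem det3_smul (a b c n : E) : det3 a b c • n =
    (n ⬝ᵥ a) • crossProduct b c + (n ⬝ᵥ b) • crossProduct c a + (n ⬝ᵥ c) • crossProduct a b := by
  funext i
  fin_cases i <;>
    simp [det3, cross_apply, dotProduct, Fin.sum_univ_three] <;> ring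

theorem det3_zero_of {a b c n : E} (hn : n ≠ 0) (ha : n ⬝ᵥ a = 0) (hb : n ⬝ᵥ b = 0)
    (hc : n ⬝ᵥ c = 0) : det3 a b c = 0 := by
  have h := det3_smul a b c n
  rw [ha, hb, hc, zero_smul, zero_smul, zero_smul, add_zero, add_zero] at h
  rcases smul_eq_zero.1 h with h | h
  · exact h
  · exact absurd h hn

theorem dep_orth {a : Fin 3 → E} (hN : ∀ i j, i ≠ j → Np (a i) (a j))
    (hdep : ¬ LinearIndependent ℝ a) {n : E} {i j : Fin 3} (hij : i ≠ j) (hi : n ⬝ᵥ a i = 0)
    (hj : n ⬝ᵥ a j = 0) (k : Fin 3) : n ⬝ᵥ a k = 0 := by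
  by_cases hki : k = i
  · rw [hki]; exact hi
  by_cases hkj : k = j
  · rw [hkj]; exact hj
  obtain ⟨c, hc, m, hm⟩ := Fintype.not_linearIndependent_iff.1 hdep
  have huniv : (univ : Finset (Fin 3)) = {i, j, k} := by
    have key : ∀ i j k : Fin 3, i ≠ j → k ≠ i → k ≠ j → (univ : Finset (Fin 3)) = {i, j, k} := by
      decide
    exact key i j k hij hki hkj
  have hsum : c i • a i + (c j • a j + c k • a k) = 0 := by
    rw [huniv, Finset.sum_insert, Finset.sum_insert, Finset.sum_singleton] at hc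
    · exact hc
    · simpa using fun h => hkj h.symm
    · simp only [mem_insert, mem_singleton, not_or]
      exact ⟨hij, fun h => hki h.symm⟩
  have hck : c k ≠ 0 := by
    intro h0
    rw [h0, zero_smul, add_zero] at hsum
    have hp := hN i j hij
    unfold Np at hp
    rw [crossProduct_ne_zero_iff_linearIndependent, LinearIndependent.pair_iff] at hp
    obtain ⟨h1, h2⟩ := hp _ _ hsum
    have hm' : m ∈ ({i, j, k} : Finset (Fin 3)) := by rw [← huniv]; exact mem_univ m
    simp only [mem_insert, mem_singleton] at hm'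
    rcases hm' with h | h | h
    · exact hm (by rw [h]; exact h1)
    · exact hm (by rw [h]; exact h2)
    · exact hm (by rw [h]; exact h0)
  have h3 : n ⬝ᵥ (c i • a i + (c j • a j + c k • a k)) = 0 := by rw [hsum, dotProduct_zero]
  rw [dotProduct_add, dotProduct_add, dotProduct_smul, dotProduct_smul, dotProduct_smul, hi, hj,
    smul_zero, smul_zero, zero_add, zero_add, smul_eq_mul] at h3
  exact (mul_eq_zero.1 h3).resolve_left hck

section
variable {V : Type} [Fintype V] [DecidableEq V]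

/-! ### Sums -/

theorem sum_supp {ι : Type} [Fintype ι] [DecidableEq ι] (P Q : Finset V) (F : V → V → ℝ)
    (a b : ι → V) (hinj : Function.Injective (fun i => (a i, b i))) (hP : ∀ i, a i ∈ P)
    (hQ : ∀ i, b i ∈ Q) (hF : ∀ u ∈ P, ∀ v ∈ Q, F u v ≠ 0 → ∃ i, u = a i ∧ v = b i) :
    ∑ u ∈ P, ∑ v ∈ Q, F u v = ∑ i, F (a i) (b i) := by
  rw [← Finset.sum_product' P Q F]
  have h1 : ∑ i, F (a i) (b i) = ∑ z ∈ univ.image (fun i => (a i, b i)), F z.1 z.2 := by
    rw [Finset.sum_image (fun i _ j _ h => hinj h)]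
  rw [h1]
  symm
  refine Finset.sum_subset ?_ ?_
  · intro z hz
    rw [mem_image] at hz
    obtain ⟨i, -, rfl⟩ := hz
    exact mem_product.2 ⟨hP i, hQ i⟩
  · intro z hz hz'
    rw [mem_product] at hz
    by_contra hne
    obtain ⟨i, h1, h2⟩ := hF z.1 hz.1 z.2 hz.2 hne
    exact hz' (mem_image.2 ⟨i, mem_univ i, by rw [← h1, ← h2]⟩)

/-- data of a 3-cut -/
structure CutData (G : SimpleGraph V) (side : V → Bool) (A : Finset V) (a b : Fin 3 → V) : Prop where
  inja : Function.Injective a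
  injb : Function.Injective b
  mem : ∀ i, a i ∈ A ∧ b i ∉ A ∧ G.Adj (a i) (b i)
  cov : ∀ u ∈ A, ∀ v ∉ A, G.Adj u v → ∃ i, u = a i ∧ v = b i
  pt : ∀ i, side (a i) = false
  ln : ∀ i, side (b i) = true

theorem supp_cross {G : SimpleGraph V} {side : V → Bool} {A : Finset V} {a b : Fin 3 → V}
    (hD : CutData G side A a b) {x y : V} (hy : y ∉ A) {ω : V → V → ℝ}
    (hω : ∀ u v, ¬ (addE G x y).Adj u v → ω u v = 0) {u v : V} (hu : u ∈ A) (hv : v ∉ A)
    (hne : ω u v ≠ 0) : (∃ i, u = a i ∧ v = b i) ∨ (u = x ∧ v = y) := by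
  have h1 : (addE G x y).Adj u v := by
    by_contra h
    exact hne (hω u v h)
  rw [SimpleGraph.sup_adj, SimpleGraph.edge_adj] at h1
  rcases h1 with h1 | ⟨⟨h2, h3⟩ | ⟨h2, h3⟩, -⟩
  · exact Or.inl (hD.cov u hu v hv h1)
  · exact Or.inr ⟨h2, h3⟩
  · exact absurd (h2 ▸ hu) hy

theorem tensor_sum_point {G : SimpleGraph V} {side : V → Bool} {A : Finset V} {a b : Fin 3 → V}
    (hD : CutData G side A a b) {κ : V → E} {x y : V} (hx : x ∈ A) (hy : y ∉ A)
    (hxy : ¬ G.Adj x y) (hs : side x = false) {ω : V → V → ℝ}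
    (hω : ∀ u v, ¬ (addE G x y).Adj u v → ω u v = 0) (hT : TensorId side κ A ω) (s t : E) :
    ∑ i, ω (a i) (b i) * ((s ⬝ᵥ κ (a i)) * (t ⬝ᵥ κ (b i))) +
      ω x y * ((s ⬝ᵥ κ x) * (t ⬝ᵥ κ y)) = 0 := by
  have h0 := hT s t
  have hR : ∑ u ∈ A.filter (fun u => side u = true), ∑ v ∈ Aᶜ,
      ω u v * ((s ⬝ᵥ κ v) * (t ⬝ᵥ κ u)) = 0 := by
    refine Finset.sum_eq_zero (fun u hu => Finset.sum_eq_zero (fun v hv => ?_))
    rw [mem_filter] at hu
    rw [mem_compl] at hv
    by_cases hne : ω u v = 0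
    · rw [hne, zero_mul]
    · exfalso
      rcases supp_cross hD hy hω hu.1 hv hne with ⟨i, h1, -⟩ | ⟨h1, -⟩
      · have := hD.pt i
        rw [← h1, hu.2] at this
        exact absurd this (by decide)
      · rw [← h1, hu.2] at hs
        exact absurd hs (by decide)
  rw [hR] at h0
  have hsum := sum_supp (ι := Option (Fin 3)) (A.filter (fun u => side u = false)) Aᶜ
    (fun u v => ω u v * ((s ⬝ᵥ κ u) * (t ⬝ᵥ κ v)))
    (fun o => o.elim x a) (fun o => o.elim y b) ?_ ?_ ?_ ?_
  · rw [hsum, Fintype.sum_option] at h0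
    simp only [Option.elim] at h0
    linarith
  · intro o o' h
    rw [Prod.mk.injEq] at h
    rcases o with _ | i
    · rcases o' with _ | j
      · rfl
      · exfalso
        simp only [Option.elim] at h
        exact hxy (by rw [h.1, h.2]; exact (hD.mem j).2.2)
    · rcases o' with _ | j
      · exfalso
        simp only [Option.elim] at h
        exact hxy (by rw [← h.1, ← h.2]; exact (hD.mem i).2.2)
      · simp only [Option.elim] at h
        rw [hD.inja h.1]
  · intro o
    rcases o with _ | i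
    · exact mem_filter.2 ⟨hx, hs⟩
    · exact mem_filter.2 ⟨(hD.mem i).1, hD.pt i⟩
  · intro o
    rcases o with _ | i
    · exact mem_compl.2 hy
    · exact mem_compl.2 (hD.mem i).2.1
  · intro u hu v hv hne
    rw [mem_filter] at hu
    rw [mem_compl] at hv
    have hne' : ω u v ≠ 0 := fun h => hne (by simp only [h, zero_mul])
    rcases supp_cross hD hy hω hu.1 hv hne' with ⟨i, h1, h2⟩ | ⟨h1, h2⟩
    · exact ⟨some i, h1, h2⟩
    · exact ⟨none, h1, h2⟩

theorem tensor_sum_line {G : SimpleGraph V} {side : V → Bool} {A : Finset V} {a b : Fin 3 → V}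
    (hD : CutData G side A a b) {κ : V → E} {x y : V} (hx : x ∈ A) (hy : y ∉ A)
    (hs : side x = true) {ω : V → V → ℝ}
    (hω : ∀ u v, ¬ (addE G x y).Adj u v → ω u v = 0) (hT : TensorId side κ A ω) (s t : E) :
    ∑ i, ω (a i) (b i) * ((s ⬝ᵥ κ (a i)) * (t ⬝ᵥ κ (b i))) +
      (-ω x y) * ((s ⬝ᵥ κ y) * (t ⬝ᵥ κ x)) = 0 := by
  have h0 := hT s t
  have hR : ∑ u ∈ A.filter (fun u => side u = true), ∑ v ∈ Aᶜ,
      ω u v * ((s ⬝ᵥ κ v) * (t ⬝ᵥ κ u)) = ω x y * ((s ⬝ᵥ κ y) * (t ⬝ᵥ κ x)) := by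
    have hsum := sum_supp (ι := Unit) (A.filter (fun u => side u = true)) Aᶜ
      (fun u v => ω u v * ((s ⬝ᵥ κ v) * (t ⬝ᵥ κ u)))
      (fun _ => x) (fun _ => y) (fun _ _ _ => rfl) (fun _ => mem_filter.2 ⟨hx, hs⟩)
      (fun _ => mem_compl.2 hy) ?_
    · rw [hsum]
      simp
    · intro u hu v hv hne
      rw [mem_filter] at hu
      rw [mem_compl] at hv
      have hne' : ω u v ≠ 0 := fun h => hne (by simp only [h, zero_mul])
      rcases supp_cross hD hy hω hu.1 hv hne' with ⟨i, h1, -⟩ | ⟨h1, h2⟩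
      · exfalso
        have := hD.pt i
        rw [← h1, hu.2] at this
        exact absurd this (by decide)
      · exact ⟨(), h1, h2⟩
  have hLs : ∑ u ∈ A.filter (fun u => side u = false), ∑ v ∈ Aᶜ,
      ω u v * ((s ⬝ᵥ κ u) * (t ⬝ᵥ κ v)) =
      ∑ i, ω (a i) (b i) * ((s ⬝ᵥ κ (a i)) * (t ⬝ᵥ κ (b i))) := by
    refine sum_supp (A.filter (fun u => side u = false)) Aᶜ
      (fun u v => ω u v * ((s ⬝ᵥ κ u) * (t ⬝ᵥ κ v))) a b ?_ ?_ ?_ ?_
    · intro i j h
      rw [Prod.mk.injEq] at h
      exact hD.inja h.1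
    · exact fun i => mem_filter.2 ⟨(hD.mem i).1, hD.pt i⟩
    · exact fun i => mem_compl.2 (hD.mem i).2.1
    · intro u hu v hv hne
      rw [mem_filter] at hu
      rw [mem_compl] at hv
      have hne' : ω u v ≠ 0 := fun h => hne (by simp only [h, zero_mul])
      rcases supp_cross hD hy hω hu.1 hv hne' with h | ⟨h1, -⟩
      · exact h
      · exfalso
        rw [← h1, hu.2] at hs
        exact absurd hs (by decide)
  rw [hR, hLs] at h0
  linarith

theorem kill_of {G : SimpleGraph V} {side : V → Bool} {A : Finset V} {a b : Fin 3 → V}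
    (hD : CutData G side A a b) {x y : V} (hy : y ∉ A) {ω : V → V → ℝ}
    (hω : ∀ u v, ¬ (addE G x y).Adj u v → ω u v = 0) (h0 : ω x y = 0)
    (hc : ∀ i, ω (a i) (b i) = 0) : ∀ u ∈ A, ∀ v ∉ A, ω u v = 0 := by
  intro u hu v hv
  by_contra hne
  rcases supp_cross hD hy hω hu hv hne with ⟨i, h1, h2⟩ | ⟨h1, h2⟩
  · exact hne (by rw [h1, h2]; exact hc i)
  · exact hne (by rw [h1, h2]; exact h0)

/-! ### values of the glued realization -/

theorem glueR_in {side : V → Bool} {A : Finset V} {ρA ρB : V → E} {g h : E →ₗ[ℝ] E} {v : V}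
    (hv : v ∈ A) : glueR side A ρA ρB g h v = ρA v := by
  simp only [glueR, hv, if_true]

theorem glueR_line {side : V → Bool} {A : Finset V} {ρA ρB : V → E} {g h : E →ₗ[ℝ] E} {v : V}
    (hv : v ∉ A) (hs : side v = true) : glueR side A ρA ρB g h v = h (ρB v) := by
  simp only [glueR, hv, hs, if_true, if_false]

theorem glueR_point {side : V → Bool} {A : Finset V} {ρA ρB : V → E} {g h : E →ₗ[ℝ] E} {v : V}
    (hv : v ∉ A) (hs : side v = false) : glueR side A ρA ρB g h v = g (ρB v) := by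
  simp [glueR, hv, hs]

theorem bool_ne_cases {p q : Bool} (h : p ≠ q) : (p = false ∧ q = true) ∨ (p = true ∧ q = false) := by
  revert h
  cases p <;> cases q <;> simp

/-! ### the independent case -/

theorem glue3_ind (hGlue : GlueStmt) (hLI : LAindStmt) (hRI : RankIndStmt)
    {G : SimpleGraph V} {side : V → Bool} (hL : Lev G side) {A : Finset V} {a b : Fin 3 → V}
    (hD : CutData G side A a b) {ρA ρB : V → E} (hEA : Exact (res G A) side ρA)
    (hEB : Exact (res G Aᶜ) side ρB) (hind : LinearIndependent ℝ (fun i => ρA (a i))) :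
    ∃ ρ, Exact G side ρ := by
  classical
  have hbN : ∀ i j, i ≠ j → Np (ρB (b i)) (ρB (b j)) := fun i j hij =>
    hEB.2.1.2 (b i) (b j) (fun h => hij (hD.injb h)) (by rw [hD.ln i, hD.ln j])
  obtain ⟨g, h, hgh, hgl⟩ := hLI (fun i => ρA (a i)) (fun i => ρB (b i)) hind hbN
    ((A.filter (fun v => side v = true)).image ρA) (by
      intro l hl
      rw [mem_image] at hl
      obtain ⟨v, -, rfl⟩ := hl
      exact hEA.2.1.1 v)
  have hih := dual_inj_h hgh
  have hig := dual_inj_g hgh
  have hmN : ∀ i j, i ≠ j → Np (h (ρB (b i))) (h (ρB (b j))) := fun i j hij =>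
    np_map hih (hbN i j hij)
  refine hGlue V G side hL A ⟨a 0, (hD.mem 0).1⟩ ⟨b 0, mem_compl.2 (hD.mem 0).2.1⟩ ρA ρB g h hEA hEB
    hgh ?_ ?_
  · intro u hu v hv huv
    obtain ⟨i, h1, h2⟩ := hD.cov u hu v hv huv
    rw [h1, h2, glueR_in (hD.mem i).1, glueR_line (hD.mem i).2.1 (hD.ln i)]
    exact (hgl i).1
  · intro x hx y hy hside hxy hzero ω hsym hω hT
    rcases bool_ne_cases hside with ⟨hsx, hsy⟩ | ⟨hsx, hsy⟩
    · have hten := tensor_sum_point hD hx hy hxy hsx hω hT
      have hRank := hRI (fun i => ρA (a i)) (fun i => h (ρB (b i))) hind hmN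
        (fun i => ω (a i) (b i)) (ω x y) (ρA x) (h (ρB y)) (hEA.2.1.1 x)
        (fun h0 => hEB.2.1.1 y (hih (by rw [h0, map_zero]))) (by
          intro s t
          have := hten s t
          simp only [glueR_in hx, glueR_line hy hsy, fun i => glueR_in (side := side) (ρA := ρA)
            (ρB := ρB) (g := g) (h := h) (hD.mem i).1,
            fun i => glueR_line (ρA := ρA) (ρB := ρB) (g := g) (h := h) (hD.mem i).2.1
              (hD.ln i)] at this
          exact this)
      rcases hRank with ⟨h0, hc⟩ | ⟨i, h1, h2⟩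
      · exact kill_of hD hy hω h0 hc
      · exfalso
        have e1 : x = a i := by
          by_contra hne
          exact h1 (hEA.2.1.2 x (a i) hne (by rw [hsx, hD.pt i]))
        have e2 : y = b i := by
          by_contra hne
          exact h2 (np_map hih (hEB.2.1.2 y (b i) hne (by rw [hsy, hD.ln i])))
        exact hxy (by rw [e1, e2]; exact (hD.mem i).2.2)
    · have hten := tensor_sum_line hD hx hy hsx hω hT
      have hRank := hRI (fun i => ρA (a i)) (fun i => h (ρB (b i))) hind hmN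
        (fun i => ω (a i) (b i)) (-ω x y) (g (ρB y)) (ρA x)
        (fun h0 => hEB.2.1.1 y (hig (by rw [h0, map_zero]))) (hEA.2.1.1 x) (by
          intro s t
          have := hten s t
          simp only [glueR_in hx, glueR_point hy hsy, fun i => glueR_in (side := side) (ρA := ρA)
            (ρB := ρB) (g := g) (h := h) (hD.mem i).1,
            fun i => glueR_line (ρA := ρA) (ρB := ρB) (g := g) (h := h) (hD.mem i).2.1
              (hD.ln i)] at this
          exact this)
      rcases hRank with ⟨h0, hc⟩ | ⟨i, h1, h2⟩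
      · exact kill_of hD hy hω (neg_eq_zero.1 h0) hc
      · exact absurd (np_symm ((hgl i).2 (ρA x)
          (mem_image.2 ⟨x, mem_filter.2 ⟨hx, hsx⟩, rfl⟩))) h2

/-! ### the dependent case -/

theorem glue3_dep (hGlue : GlueStmt) (hLD : LAdepStmt) (hRD : RankDepStmt)
    {G : SimpleGraph V} {side : V → Bool} (hL : Lev G side) {A : Finset V} {a b : Fin 3 → V}
    (hD : CutData G side A a b) {ρA ρB : V → E} (hEA : Exact (res G A) side ρA)
    (hEB : Exact (res G Aᶜ) side ρB) (hda : ¬ LinearIndependent ℝ (fun i => ρA (a i)))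
    (hdb : ¬ LinearIndependent ℝ (fun i => ρB (b i)))
    (hA4 : ∀ p ∈ A, side p = side (a 0) → (∀ i, p ≠ a i) →
      det3 (ρA (a 0)) (ρA (a 1)) (ρA p) ≠ 0)
    (hB4 : ∀ p ∈ Aᶜ, side p = side (b 0) → (∀ i, p ≠ b i) →
      det3 (ρB (b 0)) (ρB (b 1)) (ρB p) ≠ 0) :
    ∃ ρ, Exact G side ρ := by
  classical
  have haN : ∀ i j, i ≠ j → Np (ρA (a i)) (ρA (a j)) := fun i j hij =>
    hEA.2.1.2 (a i) (a j) (fun h => hij (hD.inja h)) (by rw [hD.pt i, hD.pt j])
  have hbN : ∀ i j, i ≠ j → Np (ρB (b i)) (ρB (b j)) := fun i j hij =>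
    hEB.2.1.2 (b i) (b j) (fun h => hij (hD.injb h)) (by rw [hD.ln i, hD.ln j])
  obtain ⟨g, h, O, hgh, hgl, hOL, hdet⟩ := hLD (fun i => ρA (a i)) (fun i => ρB (b i)) haN hbN hdb
    ((A.filter (fun v => side v = true)).image ρA) (by
      intro l hl
      rw [mem_image] at hl
      obtain ⟨v, -, rfl⟩ := hl
      exact hEA.2.1.1 v)
  have hih := dual_inj_h hgh
  have hig := dual_inj_g hgh
  have hmN : ∀ i j, i ≠ j → Np (h (ρB (b i))) (h (ρB (b j))) := fun i j hij =>
    np_map hih (hbN i j hij)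
  have hO0 : O ≠ 0 := by
    rintro rfl
    apply hdet
    simp [det3]
  refine hGlue V G side hL A ⟨a 0, (hD.mem 0).1⟩ ⟨b 0, mem_compl.2 (hD.mem 0).2.1⟩ ρA ρB g h hEA hEB
    hgh ?_ ?_
  · intro u hu v hv huv
    obtain ⟨i, h1, h2⟩ := hD.cov u hu v hv huv
    rw [h1, h2, glueR_in (hD.mem i).1, glueR_line (hD.mem i).2.1 (hD.ln i)]
    exact (hgl i).1
  · intro x hx y hy hside hxy hzero ω hsym hω hT
    rcases bool_ne_cases hside with ⟨hsx, hsy⟩ | ⟨hsx, hsy⟩
    · have hten := tensor_sum_point hD hx hy hxy hsx hω hT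
      have hRank := hRD (fun i => ρA (a i)) (fun i => h (ρB (b i))) haN hda hmN O hO0
        (fun i => (hgl i).2) (fun i => ω (a i) (b i)) (ω x y) (ρA x) (h (ρB y)) (hEA.2.1.1 x)
        (fun h0 => hEB.2.1.1 y (hih (by rw [h0, map_zero]))) (by
          intro s t
          have := hten s t
          simp only [glueR_in hx, glueR_line hy hsy, fun i => glueR_in (side := side) (ρA := ρA)
            (ρB := ρB) (g := g) (h := h) (hD.mem i).1,
            fun i => glueR_line (ρA := ρA) (ρB := ρB) (g := g) (h := h) (hD.mem i).2.1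
              (hD.ln i)] at this
          exact this)
      rcases hRank with ⟨h0, hc⟩ | ⟨h1, h2⟩
      · exact kill_of hD hy hω h0 hc
      · exfalso
        have e1 : ∃ i, x = a i := by
          by_contra hne
          push Not at hne
          exact hA4 x hx (by rw [hsx, hD.pt 0]) hne h1
        obtain ⟨i, rfl⟩ := e1
        obtain ⟨O', rfl⟩ := dual_surj_g hgh O
        have hO'0 : O' ≠ 0 := by
          rintro rfl
          exact hO0 (map_zero g)
        have h3 : O' ⬝ᵥ ρB y = 0 := by rw [← hgh O' (ρB y)]; exact h2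
        have h4 : ∀ j, O' ⬝ᵥ ρB (b j) = 0 := fun j => by
          rw [← hgh O' (ρB (b j))]; exact (hgl j).2
        have e2 : ∃ j, y = b j := by
          by_contra hne
          push Not at hne
          exact hB4 y (mem_compl.2 hy) (by rw [hsy, hD.ln 0]) hne
            (det3_zero_of hO'0 (h4 0) (h4 1) h3)
        obtain ⟨j, rfl⟩ := e2
        by_cases hij : i = j
        · subst hij
          exact hxy (hD.mem i).2.2
        · rw [glueR_in hx, glueR_line hy hsy] at hzero
          have hn0 : h (ρB (b j)) ≠ 0 := fun h0 => hEB.2.1.1 (b j) (hih (by rw [h0, map_zero]))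
          have k1 : h (ρB (b j)) ⬝ᵥ ρA (a i) = 0 := by rw [dotProduct_comm]; exact hzero
          have k2 : h (ρB (b j)) ⬝ᵥ ρA (a j) = 0 := by rw [dotProduct_comm]; exact (hgl j).1
          have k3 : h (ρB (b j)) ⬝ᵥ g O' = 0 := by rw [dotProduct_comm]; exact (hgl j).2
          have k := dep_orth (a := fun i => ρA (a i)) haN hda hij k1 k2
          exact hdet (det3_zero_of hn0 (k 0) (k 1) k3)
    · have hten := tensor_sum_line hD hx hy hsx hω hT
      have hRank := hRD (fun i => ρA (a i)) (fun i => h (ρB (b i))) haN hda hmN O hO0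
        (fun i => (hgl i).2) (fun i => ω (a i) (b i)) (-ω x y) (g (ρB y)) (ρA x)
        (fun h0 => hEB.2.1.1 y (hig (by rw [h0, map_zero]))) (hEA.2.1.1 x) (by
          intro s t
          have := hten s t
          simp only [glueR_in hx, glueR_point hy hsy, fun i => glueR_in (side := side) (ρA := ρA)
            (ρB := ρB) (g := g) (h := h) (hD.mem i).1,
            fun i => glueR_line (ρA := ρA) (ρB := ρB) (g := g) (h := h) (hD.mem i).2.1
              (hD.ln i)] at this
          exact this)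
      rcases hRank with ⟨h0, hc⟩ | ⟨-, h2⟩
      · exact kill_of hD hy hω (neg_eq_zero.1 h0) hc
      · exact absurd h2 (hOL (ρA x) (mem_image.2 ⟨x, mem_filter.2 ⟨hx, hsx⟩, rfl⟩))

/-! ### exchanging points and lines -/

theorem lev_not {G : SimpleGraph V} {side : V → Bool} (hL : Lev G side) :
    Lev G (fun v => !side v) where
  bip u v h := by
    have := hL.bip u v h
    show (!side u) ≠ (!side v)
    simpa using this
  cubic := hL.cubic
  noC4 := hL.noC4
  c3 := hL.c3

theorem exact_not {F : SimpleGraph V} {side : V → Bool} {ρ : V → E} (h : Exact F side ρ) :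
    Exact F (fun v => !side v) ρ := by
  refine ⟨h.1, ⟨h.2.1.1, fun u v huv hs => h.2.1.2 u v huv ?_⟩, fun u v hs hadj =>
    h.2.2 u v ?_ hadj⟩
  · simpa using hs
  · simpa using hs

theorem exact_of_not {F : SimpleGraph V} {side : V → Bool} {ρ : V → E}
    (h : Exact F (fun v => !side v) ρ) : Exact F side ρ := by
  have h2 := exact_not h
  simpa using h2

/-- the gluing theorem when the ends in `A` are points -/
theorem glue3_point (hGlue : GlueStmt) (hNF : NoFourthStmt)
    (hLI : LAindStmt) (hLD : LAdepStmt) (hRI : RankIndStmt) (hRD : RankDepStmt)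
    {G : SimpleGraph V} {side : V → Bool} (hL : Lev G side) {A : Finset V} {a b : Fin 3 → V}
    (hD : CutData G side A a b) (hA : 2 ≤ A.card) (hAc : 2 ≤ Aᶜ.card) : ∃ ρ, Exact G side ρ := by
  obtain ⟨ρA, hEA, hA'⟩ := hNF V G side hL A a b hD.inja hD.injb hD.mem hD.cov ⟨false, hD.pt⟩ hAc
  have hmem' : ∀ i, b i ∈ Aᶜ ∧ a i ∉ Aᶜ ∧ G.Adj (b i) (a i) := fun i =>
    ⟨mem_compl.2 (hD.mem i).2.1, fun h => (mem_compl.1 h) (hD.mem i).1, (hD.mem i).2.2.symm⟩
  have hcov' : ∀ u ∈ Aᶜ, ∀ v ∉ Aᶜ, G.Adj u v → ∃ i, u = b i ∧ v = a i := by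
    intro u hu v hv huv
    have hv' : v ∈ A := by
      by_contra h
      exact hv (mem_compl.2 h)
    obtain ⟨i, h1, h2⟩ := hD.cov v hv' u (mem_compl.1 hu) huv.symm
    exact ⟨i, h2, h1⟩
  obtain ⟨ρB, hEB, hB'⟩ := hNF V G side hL Aᶜ b a hD.injb hD.inja hmem' hcov' ⟨true, hD.ln⟩
    (by rw [compl_compl]; exact hA)
  by_cases hia : LinearIndependent ℝ (fun i => ρA (a i))
  · exact glue3_ind hGlue hLI hRI hL hD hEA hEB hia
  by_cases hib : LinearIndependent ℝ (fun i => ρB (b i))
  · have hD' : CutData G (fun v => !side v) Aᶜ b a :=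
      { inja := hD.injb
        injb := hD.inja
        mem := hmem'
        cov := hcov'
        pt := fun i => by simp [hD.ln i]
        ln := fun i => by simp [hD.pt i] }
    have hEA' : Exact (res G (Aᶜ)ᶜ) (fun v => !side v) ρA := by
      rw [compl_compl]; exact exact_not hEA
    obtain ⟨ρ, hρ⟩ := glue3_ind hGlue hLI hRI (lev_not hL) hD' (exact_not hEB) hEA' hib
    exact ⟨ρ, exact_of_not hρ⟩
  · rcases hA' with h | hA4
    · exact absurd h hia
    rcases hB' with h | hB4
    · exact absurd h hib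
    exact glue3_dep hGlue hLD hRD hL hD hEA hEB hia hib hA4 hB4

end

end G3

/-- If `G` (3-connected) has a nontrivial 3-edge-cut, it has an exact realization. -/
theorem glue3 (hGlue : GlueStmt) (hCut : Cut3Stmt) (hNF : NoFourthStmt)
    (hLI : LAindStmt) (hLD : LAdepStmt) (hRI : RankIndStmt) (hRD : RankDepStmt) : Glue3Stmt := by
  intro V _ _ G side hL A hcut hA hAc
  obtain ⟨a, b, hia, hib, hmem, hcov, s, hs⟩ := hCut V G side hL A hcut hA hAc
  have hb : ∀ i, side (b i) = !s := fun i => by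
    have h1 := hL.bip _ _ (hmem i).2.2
    rw [hs i] at h1
    revert h1
    cases s <;> cases side (b i) <;> simp
  cases s
  · exact G3.glue3_point hGlue hNF hLI hLD hRI hRD hL
      { inja := hia, injb := hib, mem := hmem, cov := hcov, pt := hs, ln := hb } hA hAc
  · obtain ⟨ρ, hρ⟩ := G3.glue3_point hGlue hNF hLI hLD hRI hRD (G3.lev_not hL)
      { inja := hia, injb := hib, mem := hmem, cov := hcov,
        pt := fun i => by simp [hs i], ln := fun i => by simp [hb i] } hA hAc
    exact ⟨ρ, G3.exact_of_not hρ⟩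

end N3
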