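import Pool.Agent.Lib_n3.StmtsGlue

/-!
# Gluing along a 4-edge-cut (MP_07e12a_co)

`theorem N3.glue4 : Glue4Stmt` from `GlueStmt`, `Cut4Stmt`, `ResExactStmt`, `LA4Stmt`, `Rank4Stmt`,
`CutsStmt`.
-/

open scoped Matrix Topology
open Finset

namespace N3

section count

variable {V : Type} [Fintype V] [DecidableEq V]

theorem g4_dg_union (G : SimpleGraph V) {S T : Finset V} (h : Disjoint S T) (v : V) :
    dg G (S ∪ T) v = dg G S v + dg G T v := by
  classical
  unfold dg
  rw [Finset.filter_union, Finset.card_union_of_disjoint (Finset.disjoint_filter_filter h)]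

theorem g4_dg_compl (G : SimpleGraph V) (A : Finset V) (v : V) :
    dg G A v + dg G Aᶜ v = dg G univ v := by
  rw [← g4_dg_union G disjoint_compl_right, Finset.union_compl]

theorem g4_dg_sdiff (G : SimpleGraph V) {P A : Finset V} (h : P ⊆ A) (v : V) :
    dg G P v + dg G (A \ P) v = dg G A v := by
  rw [← g4_dg_union G disjoint_sdiff, Finset.union_sdiff_of_subset h]

theorem g4_dg_le (G : SimpleGraph V) {S T : Finset V} {v : V}
    (h : ∀ u ∈ S, G.Adj v u → u ∈ T) : dg G S v ≤ T.card := by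
  classical
  unfold dg
  refine Finset.card_le_card fun u hu => ?_
  rw [Finset.mem_filter] at hu
  exact h u hu.1 hu.2

theorem g4_dg_ge (G : SimpleGraph V) {S T : Finset V} {v : V}
    (h : ∀ u ∈ T, u ∈ S ∧ G.Adj v u) : T.card ≤ dg G S v := by
  classical
  unfold dg
  refine Finset.card_le_card fun u hu => ?_
  rw [Finset.mem_filter]
  exact h u hu

theorem g4_dg_one (G : SimpleGraph V) {S : Finset V} {v w : V} (hw : w ∈ S) (hvw : G.Adj v w)
    (h : ∀ u ∈ S, G.Adj v u → u = w) : dg G S v = 1 := by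
  apply le_antisymm
  · have := g4_dg_le G (S := S) (T := {w}) (v := v) (fun u hu ha => by
      rw [Finset.mem_singleton]; exact h u hu ha)
    simpa using this
  · have := g4_dg_ge G (S := S) (T := {w}) (v := v) (fun u hu => by
      rw [Finset.mem_singleton] at hu; subst hu; exact ⟨hw, hvw⟩)
    simpa using this

/-- if `v` has two neighbours in `S` and all of them are in `{x, y}`, it is adjacent to both -/
theorem g4_both (G : SimpleGraph V) {S : Finset V} {v x y : V} (h2 : 2 ≤ dg G S v)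
    (h : ∀ u ∈ S, G.Adj v u → u = x ∨ u = y) : G.Adj v x ∧ G.Adj v y := by
  classical
  unfold dg at h2
  have hsub : (S.filter (fun u => G.Adj v u)) ⊆ {x, y} := by
    intro u hu
    rw [Finset.mem_filter] at hu
    rw [Finset.mem_insert, Finset.mem_singleton]
    exact h u hu.1 hu.2
  have hcard : ({x, y} : Finset V).card ≤ 2 := Finset.card_le_two
  have heq := Finset.eq_of_subset_of_card_le hsub (by omega)
  have hx : x ∈ S.filter (fun u => G.Adj v u) := by rw [heq]; simp
  have hy : y ∈ S.filter (fun u => G.Adj v u) := by rw [heq]; simp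
  rw [Finset.mem_filter] at hx hy
  exact ⟨hx.2, hy.2⟩

/-- an end of one side of the cut is not adjacent to both ends of the other side -/
theorem g4_tri (hC : CutsStmt) (G : SimpleGraph V) (side : V → Bool) (hL : Lev G side)
    (h4 : Cyc4 G) (A : Finset V) (hcut : cut G A = 4) (hA2 : 3 ≤ Aᶜ.card) {x y z w : V}
    (hx : x ∈ A) (hy : y ∈ A) (hz : z ∈ A) (hw : w ∈ A) (hxy : x ≠ y) (hzw : z ≠ w)
    (sxy : side x = side y) (szw : side z = side w) (sxz : side x ≠ side z)
    (dx : dg G Aᶜ x = 1) (dy : dg G Aᶜ y = 1) (dz : dg G Aᶜ z = 1) (dw : dg G Aᶜ w = 1)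
    (hzx : G.Adj z x) (hzy : G.Adj z y) : False := by
  obtain ⟨-, -, -, -, -, -, hmove, -, -, -⟩ := hC V G side
  have hxz : x ≠ z := fun h => sxz (by rw [h])
  have hyz : y ≠ z := fun h => sxz (by rw [sxy, h])
  have hxw : x ≠ w := fun h => sxz (by rw [szw, h])
  have hyw : y ≠ w := fun h => sxz (by rw [sxy, szw, h])
  have hPA : ({x, y, z} : Finset V) ⊆ A := by
    intro u hu
    simp only [Finset.mem_insert, Finset.mem_singleton] at hu
    rcases hu with rfl | rfl | rfl <;> assumption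
  have hed : ∀ C : Finset V, ed G {x, y, z} C = dg G C x + dg G C y + dg G C z := by
    intro C
    unfold ed
    rw [Finset.sum_insert (by simp [hxy, hxz]), Finset.sum_insert (by simp [hyz]),
      Finset.sum_singleton]
    ring
  have hm := hmove A {x, y, z} hPA
  rw [hed, hed, hcut, dx, dy, dz] at hm
  have cub := hL.cubic
  have e1 : ∀ v, dg G Aᶜ v = 1 → dg G A v = 2 := fun v hv => by
    have := g4_dg_compl G A v
    rw [cub v, hv] at this
    omega
  have fx := g4_dg_sdiff G hPA x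
  have fy := g4_dg_sdiff G hPA y
  have fz := g4_dg_sdiff G hPA z
  rw [e1 x dx] at fx
  rw [e1 y dy] at fy
  rw [e1 z dz] at fz
  have gx : 1 ≤ dg G {x, y, z} x := by
    have := g4_dg_ge G (S := {x, y, z}) (T := {z}) (v := x) (fun u hu => by
      rw [Finset.mem_singleton] at hu; subst hu; exact ⟨by simp, hzx.symm⟩)
    simpa using this
  have gy : 1 ≤ dg G {x, y, z} y := by
    have := g4_dg_ge G (S := {x, y, z}) (T := {z}) (v := y) (fun u hu => by
      rw [Finset.mem_singleton] at hu; subst hu; exact ⟨by simp, hzy.symm⟩)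
    simpa using this
  have gz : 2 ≤ dg G {x, y, z} z := by
    have := g4_dg_ge G (S := {x, y, z}) (T := {x, y}) (v := z) (fun u hu => by
      simp only [Finset.mem_insert, Finset.mem_singleton] at hu
      rcases hu with rfl | rfl
      · exact ⟨by simp, hzx⟩
      · exact ⟨by simp, hzy⟩)
    rwa [Finset.card_pair hxy] at this
  have hc : cut G (A \ {x, y, z}) ≤ 3 := by omega
  have hwA : w ∈ A \ ({x, y, z} : Finset V) := by
    simp only [Finset.mem_sdiff, Finset.mem_insert, Finset.mem_singleton]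
    refine ⟨hw, ?_⟩
    rintro (h | h | h)
    · exact hxw h.symm
    · exact hyw h.symm
    · exact hzw h.symm
  rcases h4 _ hc with h | h
  · have hsing : ∀ u ∈ A \ ({x, y, z} : Finset V), u = w := fun u hu =>
      Finset.card_le_one.1 h u hu w hwA
    have hb := g4_both G (S := A) (v := w) (x := x) (y := y) (by rw [e1 w dw]) (by
      intro u hu ha
      by_cases hu' : u ∈ A \ ({x, y, z} : Finset V)
      · rw [hsing u hu'] at ha
        exact absurd ha (G.loopless.irrefl w)
      · simp only [Finset.mem_sdiff, hu, true_and, not_not, Finset.mem_insert,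
          Finset.mem_singleton] at hu'
        rcases hu' with rfl | rfl | rfl
        · exact Or.inl rfl
        · exact Or.inr rfl
        · exact absurd szw (hL.bip _ _ ha.symm))
    exact hxy (hL.noC4 z w hzw x y hzx hb.1 hzy hb.2)
  · have : Aᶜ ⊆ (A \ ({x, y, z} : Finset V))ᶜ := by
      intro u hu
      rw [Finset.mem_compl] at hu ⊢
      exact fun h' => hu (Finset.mem_sdiff.1 h').1
    have := Finset.card_le_card this
    omega

/-- the ends of the cut in a minimal fragment are not adjacent -/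
theorem g4_quad (hC : CutsStmt) (G : SimpleGraph V) (side : V → Bool) (hL : Lev G side)
    (B : Finset V) (hcut : cut G B = 4) (hB2 : 3 ≤ Bᶜ.card)
    (hmin : ∀ B' : Finset V, cut G B' = 4 → 3 ≤ B'.card → 3 ≤ B'ᶜ.card → B.card ≤ B'.card)
    {x y z w : V}
    (hx : x ∈ B) (hy : y ∈ B) (hz : z ∈ B) (hw : w ∈ B) (hxy : x ≠ y) (hzw : z ≠ w)
    (sxy : side x = side y) (szw : side z = side w) (sxz : side x ≠ side z)
    (dx : dg G Bᶜ x = 1) (dy : dg G Bᶜ y = 1) (dz : dg G Bᶜ z = 1)
    (hxz : G.Adj x z) : False := by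
  obtain ⟨-, -, -, -, -, -, hmove, -, -, -⟩ := hC V G side
  have hxz' : x ≠ z := fun h => sxz (by rw [h])
  have hyz : y ≠ z := fun h => sxz (by rw [sxy, h])
  have hxw : x ≠ w := fun h => sxz (by rw [szw, h])
  have hyw : y ≠ w := fun h => sxz (by rw [sxy, szw, h])
  have hPB : ({x, z} : Finset V) ⊆ B := by
    intro u hu
    simp only [Finset.mem_insert, Finset.mem_singleton] at hu
    rcases hu with rfl | rfl <;> assumption
  have hed : ∀ C : Finset V, ed G {x, z} C = dg G C x + dg G C z := by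
    intro C
    unfold ed
    rw [Finset.sum_insert (by simp [hxz']), Finset.sum_singleton]
  have hm := hmove B {x, z} hPB
  rw [hed, hed, hcut, dx, dz] at hm
  have cub := hL.cubic
  have e1 : ∀ v, dg G Bᶜ v = 1 → dg G B v = 2 := fun v hv => by
    have := g4_dg_compl G B v
    rw [cub v, hv] at this
    omega
  have fx := g4_dg_sdiff G hPB x
  have fz := g4_dg_sdiff G hPB z
  rw [e1 x dx] at fx
  rw [e1 z dz] at fz
  have gx : dg G {x, z} x = 1 := g4_dg_one G (w := z) (by simp) hxz (by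
    intro u hu ha
    simp only [Finset.mem_insert, Finset.mem_singleton] at hu
    rcases hu with rfl | rfl
    · exact absurd ha (G.loopless.irrefl _)
    · rfl)
  have gz : dg G {x, z} z = 1 := g4_dg_one G (w := x) (by simp) hxz.symm (by
    intro u hu ha
    simp only [Finset.mem_insert, Finset.mem_singleton] at hu
    rcases hu with rfl | rfl
    · rfl
    · exact absurd ha (G.loopless.irrefl _))
  have hc : cut G (B \ {x, z}) = 4 := by omega
  have hyB : y ∈ B \ ({x, z} : Finset V) := by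
    simp only [Finset.mem_sdiff, Finset.mem_insert, Finset.mem_singleton]
    refine ⟨hy, ?_⟩
    rintro (h | h)
    · exact hxy h.symm
    · exact hyz h
  have hwB : w ∈ B \ ({x, z} : Finset V) := by
    simp only [Finset.mem_sdiff, Finset.mem_insert, Finset.mem_singleton]
    refine ⟨hw, ?_⟩
    rintro (h | h)
    · exact hxw h.symm
    · exact hzw h.symm
  have hcc : 3 ≤ (B \ ({x, z} : Finset V))ᶜ.card := by
    have : Bᶜ ⊆ (B \ ({x, z} : Finset V))ᶜ := by
      intro u hu
      rw [Finset.mem_compl] at hu ⊢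
      exact fun h' => hu (Finset.mem_sdiff.1 h').1
    have := Finset.card_le_card this
    omega
  have hlt : (B \ ({x, z} : Finset V)).card < B.card := by
    apply Finset.card_lt_card
    refine ⟨Finset.sdiff_subset, fun h => ?_⟩
    have := h hx
    simp at this
  have hsm : (B \ ({x, z} : Finset V)).card ≤ 2 := by
    by_contra h3
    have := hmin _ hc (by omega) hcc
    omega
  have hyw2 : ({y, w} : Finset V) = B \ ({x, z} : Finset V) := by
    apply Finset.eq_of_subset_of_card_le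
    · intro u hu
      simp only [Finset.mem_insert, Finset.mem_singleton] at hu
      rcases hu with rfl | rfl <;> assumption
    · rw [Finset.card_pair hyw]
      exact hsm
  have hall : ∀ u ∈ B, u = x ∨ u = y ∨ u = z ∨ u = w := by
    intro u hu
    by_cases h1 : u = x
    · exact Or.inl h1
    by_cases h2 : u = z
    · exact Or.inr (Or.inr (Or.inl h2))
    have : u ∈ B \ ({x, z} : Finset V) := by
      simp only [Finset.mem_sdiff, Finset.mem_insert, Finset.mem_singleton]
      exact ⟨hu, by rintro (h | h); exacts [h1 h, h2 h]⟩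
    rw [← hyw2] at this
    simp only [Finset.mem_insert, Finset.mem_singleton] at this
    rcases this with h | h
    · exact Or.inr (Or.inl h)
    · exact Or.inr (Or.inr (Or.inr h))
  have bx := g4_both G (S := B) (v := x) (x := z) (y := w) (by rw [e1 x dx]) (by
    intro u hu ha
    have hs := hL.bip _ _ ha
    rcases hall u hu with rfl | rfl | rfl | rfl
    · exact absurd rfl hs
    · exact absurd sxy hs
    · exact Or.inl rfl
    · exact Or.inr rfl)
  have by' := g4_both G (S := B) (v := y) (x := z) (y := w) (by rw [e1 y dy]) (by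
    intro u hu ha
    have hs := hL.bip _ _ ha
    rcases hall u hu with rfl | rfl | rfl | rfl
    · exact absurd sxy.symm hs
    · exact absurd rfl hs
    · exact Or.inl rfl
    · exact Or.inr rfl)
  exact hzw (hL.noC4 x y hxy z w bx.1 by'.1 bx.2 by'.2)

end count

section la

theorem g4_np_symm {a b : E} (h : Np a b) : Np b a := by
  unfold Np at *
  intro h0
  apply h
  rw [← cross_anticomm, h0, neg_zero]

theorem g4_dual_symm {g h : E →ₗ[ℝ] E} (hd : DualPair g h) : DualPair h g := fun p l => by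
  rw [dotProduct_comm, hd l p, dotProduct_comm]

theorem g4_ne_zero {g h : E →ₗ[ℝ] E} (hd : DualPair g h) {m : E} (hm : h m = 0) : m = 0 := by
  have h1 : m ⬝ᵥ m = 0 := by rw [← hd m m, hm, dotProduct_zero]
  exact dotProduct_self_eq_zero.1 h1

theorem g4_np_map {g h : E →ₗ[ℝ] E} (hd : DualPair g h) {x y : E} (hn : Np x y) :
    Np (h x) (h y) := by
  unfold Np at *
  rw [crossProduct_ne_zero_iff_linearIndependent] at *
  rw [LinearIndependent.pair_iff] at *
  intro s t hst
  rw [← map_smul, ← map_smul, ← map_add] at hst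
  exact hn s t (g4_ne_zero hd hst)

theorem g4_cross_np {a b c : E} (hn : Np a b) (h : a ⬝ᵥ c ≠ 0 ∨ b ⬝ᵥ c ≠ 0) :
    Np (crossProduct a b) c := by
  intro h0
  unfold Np at hn
  rw [crossProduct_ne_zero_iff_linearIndependent, LinearIndependent.pair_iff] at hn
  rw [cross_cross_eq_smul_sub_smul] at h0
  have := hn (-(b ⬝ᵥ c)) (a ⬝ᵥ c) (by rw [← h0, neg_smul]; abel)
  rcases h with h | h
  · exact h this.2
  · exact h (neg_eq_zero.1 this.1)

end la

section main

variable {V : Type} [Fintype V] [DecidableEq V]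

theorem g4_sum (A : Finset V) (a b : Fin 4 → V) (ha : Function.Injective a)
    (hab : ∀ i, a i ∈ A ∧ b i ∉ A) {x y : V} (hx : x ∈ A) (hy : y ∉ A)
    (hne : ∀ i, ¬ (x = a i ∧ y = b i)) (f : V → V → ℝ)
    (hf : ∀ u ∈ A, ∀ v ∉ A, (∀ i, ¬ (u = a i ∧ v = b i)) → ¬ (u = x ∧ v = y) → f u v = 0) :
    ∑ u ∈ A, ∑ v ∈ Aᶜ, f u v =
      f (a 0) (b 0) + f (a 1) (b 1) + f (a 2) (b 2) + f (a 3) (b 3) + f x y := by
  rw [← Finset.sum_product' A Aᶜ f]
  have hinj : Function.Injective (fun i => (a i, b i)) := fun i j h => ha (Prod.ext_iff.1 h).1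
  have hdis : (x, y) ∉ (univ : Finset (Fin 4)).image (fun i => (a i, b i)) := by
    intro h
    obtain ⟨i, -, hi⟩ := Finset.mem_image.1 h
    exact hne i ⟨(Prod.ext_iff.1 hi).1.symm, (Prod.ext_iff.1 hi).2.symm⟩
  rw [← Finset.sum_subset (s₁ := insert (x, y) ((univ : Finset (Fin 4)).image (fun i => (a i, b i))))
    (s₂ := A ×ˢ Aᶜ)]
  · rw [Finset.sum_insert hdis, Finset.sum_image (fun i _ j _ h => hinj h), Fin.sum_univ_four]
    ring
  · intro p hp
    rw [Finset.mem_product, Finset.mem_compl]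
    rcases Finset.mem_insert.1 hp with rfl | hp
    · exact ⟨hx, hy⟩
    · obtain ⟨i, -, rfl⟩ := Finset.mem_image.1 hp
      exact hab i
  · intro p hp hpn
    rw [Finset.mem_product, Finset.mem_compl] at hp
    apply hf _ hp.1 _ hp.2
    · rintro i ⟨h1, h2⟩
      apply hpn
      rw [Finset.mem_insert]
      right
      exact Finset.mem_image.2 ⟨i, Finset.mem_univ _, by rw [← h1, ← h2]⟩
    · rintro ⟨h1, h2⟩
      apply hpn
      rw [Finset.mem_insert]
      left
      rw [← h1, ← h2]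

theorem g4_ends {G : SimpleGraph V} {A : Finset V} {a b : Fin 4 → V} (ha : Function.Injective a)
    (hab : ∀ i, a i ∈ A ∧ b i ∉ A ∧ G.Adj (a i) (b i))
    (hcov : ∀ u ∈ A, ∀ v ∉ A, G.Adj u v → ∃ i, u = a i ∧ v = b i) (i : Fin 4) :
    dg G Aᶜ (a i) = 1 := by
  refine g4_dg_one G (w := b i) (Finset.mem_compl.2 (hab i).2.1) (hab i).2.2 fun u hu hadj => ?_
  obtain ⟨j, h1, h2⟩ := hcov (a i) (hab i).1 u (Finset.mem_compl.1 hu) hadj
  rw [h2, ha h1]

theorem g4_ends' {G : SimpleGraph V} {A : Finset V} {a b : Fin 4 → V} (hb : Function.Injective b)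
    (hab : ∀ i, a i ∈ A ∧ b i ∉ A ∧ G.Adj (a i) (b i))
    (hcov : ∀ u ∈ A, ∀ v ∉ A, G.Adj u v → ∃ i, u = a i ∧ v = b i) (i : Fin 4) :
    dg G A (b i) = 1 := by
  refine g4_dg_one G (w := a i) (hab i).1 (hab i).2.2.symm fun u hu hadj => ?_
  obtain ⟨j, h1, h2⟩ := hcov u hu (b i) (hab i).2.1 hadj.symm
  rw [h1, hb h2]

/-- the kill of the cross pairs -/
theorem g4_kill (hR4 : Rank4Stmt) (G : SimpleGraph V) (side : V → Bool) (hB : Bip G side)
    (A : Finset V) (a b : Fin 4 → V) (ha : Function.Injective a)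
    (hab : ∀ i, a i ∈ A ∧ b i ∉ A ∧ G.Adj (a i) (b i))
    (hcov : ∀ u ∈ A, ∀ v ∉ A, G.Adj u v → ∃ i, u = a i ∧ v = b i)
    (s0 : side (a 0) = false) (s1 : side (a 1) = false) (s2 : side (a 2) = true)
    (s3 : side (a 3) = true) (κ : V → E) (hnz : ∀ v, κ v ≠ 0)
    (hP : GP (κ (a 0)) (κ (a 1)) (κ (b 2)) (κ (b 3)))
    (hL : GP (κ (b 0)) (κ (b 1)) (κ (a 2)) (κ (a 3)))
    {x y : V} (hx : x ∈ A) (hy : y ∉ A) (hs : side x ≠ side y) (hn : ¬ G.Adj x y)
    (hA : ∀ u ∈ A, ∀ v ∈ A, u ≠ v → side u = side v → Np (κ u) (κ v))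
    (hAc : ∀ u ∉ A, ∀ v ∉ A, u ≠ v → side u = side v → Np (κ u) (κ v))
    (hl0 : ∀ u ∈ A, side u = true → Np (κ (b 0)) (κ u))
    (hl1 : ∀ u ∈ A, side u = true → Np (κ (b 1)) (κ u))
    (hp2 : ∀ u ∈ A, side u = false → Np (κ (b 2)) (κ u))
    (hp3 : ∀ u ∈ A, side u = false → Np (κ (b 3)) (κ u)) :
    TensorKill G side κ A x y := by
  intro ω hsym hsupp hT
  have hne : ∀ i, ¬ (x = a i ∧ y = b i) := by
    rintro i ⟨h1, h2⟩
    exact hn (h1 ▸ h2 ▸ (hab i).2.2)
  -- the tensor identity in explicit form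
  have key : ∀ s t : E,
      ω (a 0) (b 0) * ((s ⬝ᵥ κ (a 0)) * (t ⬝ᵥ κ (b 0))) +
      ω (a 1) (b 1) * ((s ⬝ᵥ κ (a 1)) * (t ⬝ᵥ κ (b 1))) +
      (if side x = false then ω x y * ((s ⬝ᵥ κ x) * (t ⬝ᵥ κ y)) else 0) =
      ω (a 2) (b 2) * ((s ⬝ᵥ κ (b 2)) * (t ⬝ᵥ κ (a 2))) +
      ω (a 3) (b 3) * ((s ⬝ᵥ κ (b 3)) * (t ⬝ᵥ κ (a 3))) +
      (if side x = true then ω x y * ((s ⬝ᵥ κ y) * (t ⬝ᵥ κ x)) else 0) := by
    intro s t
    have h := hT s t
    rw [Finset.sum_filter, Finset.sum_filter] at h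
    have e1 : ∀ (c : Bool) (F : V → V → ℝ),
        ∑ u ∈ A, (if side u = c then ∑ v ∈ Aᶜ, ω u v * F u v else 0) =
        ∑ u ∈ A, ∑ v ∈ Aᶜ, (if side u = c then ω u v * F u v else 0) := by
      intro c F
      refine Finset.sum_congr rfl fun u _ => ?_
      split_ifs <;> simp
    have e2 : ∀ (c : Bool) (F : V → V → ℝ), ∀ u ∈ A, ∀ v ∉ A,
        (∀ i, ¬ (u = a i ∧ v = b i)) → ¬ (u = x ∧ v = y) →
        (if side u = c then ω u v * F u v else 0) = 0 := by
      intro c F u hu v hv h1 h2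
      have : ω u v = 0 := by
        apply hsupp
        rintro (hadj | hadj)
        · obtain ⟨i, hi⟩ := hcov u hu v hv hadj
          exact h1 i hi
        · rw [SimpleGraph.edge_adj] at hadj
          rcases hadj.1 with ⟨h3, h4⟩ | ⟨h3, h4⟩
          · exact h2 ⟨h3, h4⟩
          · exact hv (h4 ▸ hx)
      rw [this]
      simp
    rw [e1 false (fun u v => (s ⬝ᵥ κ u) * (t ⬝ᵥ κ v)),
      e1 true (fun u v => (s ⬝ᵥ κ v) * (t ⬝ᵥ κ u)),
      g4_sum A a b ha (fun i => ⟨(hab i).1, (hab i).2.1⟩) hx hy hne _ (e2 false _),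
      g4_sum A a b ha (fun i => ⟨(hab i).1, (hab i).2.1⟩) hx hy hne _ (e2 true _)] at h
    simp only [s0, s1, s2, s3] at h
    simpa using h
  -- conclusion from the vanishing of the coefficients
  have fin : ω x y = 0 → (∀ i, ω (a i) (b i) = 0) → ∀ u ∈ A, ∀ v ∉ A, ω u v = 0 := by
    intro h1 h2 u hu v hv
    by_cases hadj : (addE G x y).Adj u v
    · rcases hadj with hadj | hadj
      · obtain ⟨i, rfl, rfl⟩ := hcov u hu v hv hadj
        exact h2 i
      · rw [SimpleGraph.edge_adj] at hadj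
        rcases hadj.1 with ⟨rfl, rfl⟩ | ⟨h3, h4⟩
        · exact h1
        · exact absurd (h4 ▸ hx) hv
    · exact hsupp u v hadj
  have sb : ∀ i, side (b i) = !side (a i) := by
    intro i
    have := hB _ _ (hab i).2.2
    revert this
    cases side (a i) <;> cases side (b i) <;> simp
  have t0 : side (b 0) = true := by rw [sb, s0]; rfl
  have t1 : side (b 1) = true := by rw [sb, s1]; rfl
  have t2 : side (b 2) = false := by rw [sb, s2]; rfl
  have t3 : side (b 3) = false := by rw [sb, s3]; rfl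
  cases hsx : side x with
  | false =>
    have hsy : side y = true := by
      revert hs; rw [hsx]; cases side y <;> simp
    have hr := hR4 ![κ (a 0), κ (a 1), κ (b 2), κ (b 3)] ![κ (b 0), κ (b 1), κ (a 2), κ (a 3)]
      hP hL ![ω (a 0) (b 0), ω (a 1) (b 1), -ω (a 2) (b 2), -ω (a 3) (b 3)] (ω x y) (κ x) (κ y)
      (hnz x) (hnz y) (by
        intro s t
        have h := key s t
        rw [hsx] at h
        simp only [if_true, Bool.false_eq_true, if_false] at h
        rw [Fin.sum_univ_four]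
        simp only [Matrix.cons_val]
        linarith)
    rcases hr with ⟨h1, h2⟩ | ⟨i, h1, h2⟩
    · refine fin h1 fun i => ?_
      have := h2 i
      fin_cases i <;> simpa using this
    · exfalso
      fin_cases i
      · have e1 : x = a 0 := by
          by_contra hne
          exact h1 (hA x hx _ (hab 0).1 hne (by rw [hsx, s0]))
        have e2 : y = b 0 := by
          by_contra hne
          exact h2 (hAc y hy _ (hab 0).2.1 hne (by rw [hsy, t0]))
        exact hne 0 ⟨e1, e2⟩
      · have e1 : x = a 1 := by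
          by_contra hne
          exact h1 (hA x hx _ (hab 1).1 hne (by rw [hsx, s1]))
        have e2 : y = b 1 := by
          by_contra hne
          exact h2 (hAc y hy _ (hab 1).2.1 hne (by rw [hsy, t1]))
        exact hne 1 ⟨e1, e2⟩
      · exact h1 (g4_np_symm (hp2 x hx hsx))
      · exact h1 (g4_np_symm (hp3 x hx hsx))
  | true =>
    have hsy : side y = false := by
      revert hs; rw [hsx]; cases side y <;> simp
    have hr := hR4 ![κ (a 0), κ (a 1), κ (b 2), κ (b 3)] ![κ (b 0), κ (b 1), κ (a 2), κ (a 3)]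
      hP hL ![ω (a 0) (b 0), ω (a 1) (b 1), -ω (a 2) (b 2), -ω (a 3) (b 3)] (-ω x y) (κ y) (κ x)
      (hnz y) (hnz x) (by
        intro s t
        have h := key s t
        rw [hsx] at h
        simp only [if_true, Bool.true_eq_false, if_false] at h
        rw [Fin.sum_univ_four]
        simp only [Matrix.cons_val]
        linarith)
    rcases hr with ⟨h1, h2⟩ | ⟨i, h1, h2⟩
    · refine fin (neg_eq_zero.1 h1) fun i => ?_
      have := h2 i
      fin_cases i <;> simpa using this
    · exfalso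
      fin_cases i
      · exact h2 (g4_np_symm (hl0 x hx hsx))
      · exact h2 (g4_np_symm (hl1 x hx hsx))
      · have e1 : y = b 2 := by
          by_contra hne
          exact h1 (hAc y hy _ (hab 2).2.1 hne (by rw [hsy, t2]))
        have e2 : x = a 2 := by
          by_contra hne
          exact h2 (hA x hx _ (hab 2).1 hne (by rw [hsx, s2]))
        exact hne 2 ⟨e2, e1⟩
      · have e1 : y = b 3 := by
          by_contra hne
          exact h1 (hAc y hy _ (hab 3).2.1 hne (by rw [hsy, t3]))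
        have e2 : x = a 3 := by
          by_contra hne
          exact h2 (hA x hx _ (hab 3).1 hne (by rw [hsx, s3]))
        exact hne 3 ⟨e2, e1⟩

end main

/-- **GLUE4** -/
theorem glue4 (hGl : GlueStmt) (hC4 : Cut4Stmt) (hRes : ResExactStmt) (hLA : LA4Stmt)
    (hR4 : Rank4Stmt) (hC : CutsStmt) : Glue4Stmt := by
  intro V _ _ G side hL h4 A₀ hcut₀ hA₀ hA₀c
  classical
  -- a fragment with smallest complement
  obtain ⟨-, -, -, hcompl, -, -, -, -, -, -⟩ := hC V G side
  obtain ⟨B, hBmem, hBmin⟩ := Finset.exists_min_image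
    ((univ : Finset (Finset V)).filter (fun B => cut G B = 4 ∧ 3 ≤ B.card ∧ 3 ≤ Bᶜ.card))
    Finset.card ⟨A₀, by simp [hcut₀, hA₀, hA₀c]⟩
  rw [Finset.mem_filter] at hBmem
  obtain ⟨-, hBcut, hB3, hBc3⟩ := hBmem
  have hmin : ∀ B' : Finset V, cut G B' = 4 → 3 ≤ B'.card → 3 ≤ B'ᶜ.card → B.card ≤ B'.card :=
    fun B' h1 h2 h3 => hBmin B' (by simp [h1, h2, h3])
  obtain ⟨A, rfl⟩ : ∃ A : Finset V, B = Aᶜ := ⟨Bᶜ, (compl_compl B).symm⟩
  rw [compl_compl] at hBc3
  have hcut : cut G A = 4 := by rw [← hcompl]; exact hBcut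
  obtain ⟨a, b, ha, hb, hab, hcov, s0, s1, s2, s3⟩ := hC4 V G side hL h4 A hcut hBc3 hB3
  have da := g4_ends ha hab hcov
  have db := g4_ends' hb hab hcov
  have sb : ∀ i, side (b i) = !side (a i) := by
    intro i
    have := hL.bip _ _ (hab i).2.2
    revert this
    cases side (a i) <;> cases side (b i) <;> simp
  have t0 : side (b 0) = true := by rw [sb, s0]; rfl
  have t1 : side (b 1) = true := by rw [sb, s1]; rfl
  have t2 : side (b 2) = false := by rw [sb, s2]; rfl
  have t3 : side (b 3) = false := by rw [sb, s3]; rfl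
  have mA : ∀ i, a i ∈ A := fun i => (hab i).1
  have mB : ∀ i, b i ∈ Aᶜ := fun i => Finset.mem_compl.2 (hab i).2.1
  have na : ∀ i j, i ≠ j → a i ≠ a j := fun i j h h' => h (ha h')
  have nb : ∀ i j, i ≠ j → b i ≠ b j := fun i j h h' => h (hb h')
  have db' : ∀ i, dg G Aᶜᶜ (b i) = 1 := fun i => by rw [compl_compl]; exact db i
  have hAne : A.Nonempty := ⟨a 0, mA 0⟩
  have hAcne : Aᶜ.Nonempty := ⟨b 0, mB 0⟩
  -- the ends b are not adjacent
  have hBc3' : 3 ≤ Aᶜᶜ.card := by rw [compl_compl]; exact hBc3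
  have q : ∀ i i' j j', i ≠ i' → j ≠ j' → side (b i) = side (b i') → side (b j) = side (b j') →
      side (b i) ≠ side (b j) → ¬ G.Adj (b i) (b j) := fun i i' j j' h1 h2 h3 h5 h6 h7 =>
    g4_quad hC G side hL Aᶜ hBcut hBc3' hmin (mB i) (mB i') (mB j) (mB j') (nb _ _ h1)
      (nb _ _ h2) h3 h5 h6 (db' i) (db' i') (db' j) h7
  have tr : ∀ i i' j j', i ≠ i' → j ≠ j' → side (a i) = side (a i') → side (a j) = side (a j') →
      side (a i) ≠ side (a j) → ¬ (G.Adj (a j) (a i) ∧ G.Adj (a j) (a i')) :=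
    fun i i' j j' h1 h2 h3 h5 h6 h7 =>
    g4_tri hC G side hL h4 A hcut hB3 (mA i) (mA i') (mA j) (mA j') (na _ _ h1)
      (na _ _ h2) h3 h5 h6 (da i) (da i') (da j) (da j') h7.1 h7.2
  -- the two exact realizations
  obtain ⟨ρA, hρA⟩ := hRes V G side hL A (by
    intro h; rw [h] at hAcne; simp at hAcne)
  obtain ⟨ρB, hρB⟩ := hRes V G side hL Aᶜ (by
    intro h
    have : a 0 ∈ Aᶜ := by rw [h]; exact Finset.mem_univ _
    exact Finset.mem_compl.1 this (mA 0))
  have dA : ∀ i j, side (a i) ≠ side (a j) → ρA (a i) ⬝ᵥ ρA (a j) = 0 → G.Adj (a i) (a j) := by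
    intro i j h1 h2
    by_contra h3
    exact hρA.2.2 _ _ h1 (fun h => h3 h.1) h2
  have dB : ∀ i j, side (b i) ≠ side (b j) → ¬ G.Adj (b i) (b j) →
      ρB (b i) ⬝ᵥ ρB (b j) ≠ 0 := fun i j h1 h2 => hρB.2.2 _ _ h1 (fun h => h2 h.1)
  have nA : ∀ i j, i ≠ j → side (a i) = side (a j) → Np (ρA (a i)) (ρA (a j)) :=
    fun i j h1 h2 => hρA.2.1.2 _ _ (na _ _ h1) h2
  have nB : ∀ i j, i ≠ j → side (b i) = side (b j) → Np (ρB (b i)) (ρB (b j)) :=
    fun i j h1 h2 => hρB.2.1.2 _ _ (nb _ _ h1) h2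
  have cA : ∀ i i' j j', i ≠ i' → j ≠ j' → side (a i) = side (a i') →
      side (a j) = side (a j') → side (a i) ≠ side (a j) →
      Np (crossProduct (ρA (a i)) (ρA (a i'))) (ρA (a j)) := by
    intro i i' j j' h1 h2 h3 h5 h6
    refine g4_cross_np (nA _ _ h1 h3) ?_
    by_contra h7
    push Not at h7
    refine tr i i' j j' h1 h2 h3 h5 h6 ⟨(dA _ _ h6 h7.1).symm, (dA _ _ ?_ h7.2).symm⟩
    rw [← h3]; exact h6
  obtain ⟨g, h, hd, e0, e1, e2, e3, gp1, gp2, hLl, hPp⟩ := hLA (fun i => ρA (a i))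
    (fun i => ρB (b i))
    (nA 0 1 (by decide) (by rw [s0, s1])) (nA 2 3 (by decide) (by rw [s2, s3]))
    (nB 0 1 (by decide) (by rw [t0, t1])) (nB 2 3 (by decide) (by rw [t2, t3]))
    (dB 0 2 (by rw [t0, t2]; decide) (q 0 1 2 3 (by decide) (by decide) (by rw [t0, t1])
      (by rw [t2, t3]) (by rw [t0, t2]; decide)))
    (dB 0 3 (by rw [t0, t3]; decide) (q 0 1 3 2 (by decide) (by decide) (by rw [t0, t1])
      (by rw [t2, t3]) (by rw [t0, t3]; decide)))
    (dB 1 2 (by rw [t1, t2]; decide) (q 1 0 2 3 (by decide) (by decide) (by rw [t0, t1])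
      (by rw [t2, t3]) (by rw [t1, t2]; decide)))
    (dB 1 3 (by rw [t1, t3]; decide) (q 1 0 3 2 (by decide) (by decide) (by rw [t0, t1])
      (by rw [t2, t3]) (by rw [t1, t3]; decide)))
    (cA 0 1 2 3 (by decide) (by decide) (by rw [s0, s1]) (by rw [s2, s3])
      (by rw [s0, s2]; decide))
    (cA 0 1 3 2 (by decide) (by decide) (by rw [s0, s1]) (by rw [s2, s3])
      (by rw [s0, s3]; decide))
    (cA 2 3 0 1 (by decide) (by decide) (by rw [s2, s3]) (by rw [s0, s1])
      (by rw [s2, s0]; decide))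
    (cA 2 3 1 0 (by decide) (by decide) (by rw [s2, s3]) (by rw [s0, s1])
      (by rw [s2, s1]; decide))
    ((A.filter (fun u => side u = true)).image ρA) ((A.filter (fun u => side u = false)).image ρA)
    (by
      intro l hl
      obtain ⟨u, -, rfl⟩ := Finset.mem_image.1 hl
      exact hρA.2.1.1 u)
    (by
      intro l hl
      obtain ⟨u, -, rfl⟩ := Finset.mem_image.1 hl
      exact hρA.2.1.1 u)
  have κA : ∀ u ∈ A, glueR side A ρA ρB g h u = ρA u := fun u hu => by simp [glueR, hu]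
  have κBl : ∀ v ∉ A, side v = true → glueR side A ρA ρB g h v = h (ρB v) := fun v hv hs => by
    simp [glueR, hv, hs]
  have κBp : ∀ v ∉ A, side v = false → glueR side A ρA ρB g h v = g (ρB v) := fun v hv hs => by
    simp [glueR, hv, hs]
  have k0 := κA _ (mA 0)
  have k1 := κA _ (mA 1)
  have k2 := κA _ (mA 2)
  have k3 := κA _ (mA 3)
  have l0 := κBl _ (hab 0).2.1 t0
  have l1 := κBl _ (hab 1).2.1 t1
  have l2 := κBp _ (hab 2).2.1 t2
  have l3 := κBp _ (hab 3).2.1 t3
  refine hGl V G side hL A hAne hAcne ρA ρB g h hρA hρB hd ?_ ?_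
  · intro u hu v hv hadj
    obtain ⟨i, rfl, rfl⟩ := hcov u hu v hv hadj
    fin_cases i
    · show glueR side A ρA ρB g h (a 0) ⬝ᵥ glueR side A ρA ρB g h (b 0) = 0
      rw [k0, l0]; exact e0
    · show glueR side A ρA ρB g h (a 1) ⬝ᵥ glueR side A ρA ρB g h (b 1) = 0
      rw [k1, l1]; exact e1
    · show glueR side A ρA ρB g h (a 2) ⬝ᵥ glueR side A ρA ρB g h (b 2) = 0
      rw [k2, l2]; exact e2
    · show glueR side A ρA ρB g h (a 3) ⬝ᵥ glueR side A ρA ρB g h (b 3) = 0
      rw [k3, l3]; exact e3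
  · intro x hx y hy hs hn _
    have hnz : ∀ v, glueR side A ρA ρB g h v ≠ 0 := by
      intro v
      by_cases hv : v ∈ A
      · rw [κA v hv]; exact hρA.2.1.1 v
      · cases hsv : side v with
        | true =>
          rw [κBl v hv hsv]
          exact fun h0 => hρB.2.1.1 v (g4_ne_zero hd h0)
        | false =>
          rw [κBp v hv hsv]
          exact fun h0 => hρB.2.1.1 v (g4_ne_zero (g4_dual_symm hd) h0)
    refine g4_kill hR4 G side hL.bip A a b ha hab hcov s0 s1 s2 s3 _ hnz ?_ ?_ hx hy hs hn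
      ?_ ?_ ?_ ?_ ?_ ?_
    · rw [k0, k1, l2, l3]; exact gp1
    · rw [l0, l1, k2, k3]; exact gp2
    · intro u hu v hv huv hsuv
      rw [κA u hu, κA v hv]
      exact hρA.2.1.2 u v huv hsuv
    · intro u hu v hv huv hsuv
      cases hsu : side u with
      | true =>
        rw [κBl u hu hsu, κBl v hv (hsuv ▸ hsu)]
        exact g4_np_map hd (hρB.2.1.2 u v huv hsuv)
      | false =>
        rw [κBp u hu hsu, κBp v hv (hsuv ▸ hsu)]
        exact g4_np_map (g4_dual_symm hd) (hρB.2.1.2 u v huv hsuv)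
    · intro u hu hsu
      rw [l0, κA u hu]
      exact (hLl _ (Finset.mem_image.2 ⟨u, Finset.mem_filter.2 ⟨hu, hsu⟩, rfl⟩)).1
    · intro u hu hsu
      rw [l1, κA u hu]
      exact (hLl _ (Finset.mem_image.2 ⟨u, Finset.mem_filter.2 ⟨hu, hsu⟩, rfl⟩)).2
    · intro u hu hsu
      rw [l2, κA u hu]
      exact (hPp _ (Finset.mem_image.2 ⟨u, Finset.mem_filter.2 ⟨hu, hsu⟩, rfl⟩)).1
    · intro u hu hsu
      rw [l3, κA u hu]
      exact (hPp _ (Finset.mem_image.2 ⟨u, Finset.mem_filter.2 ⟨hu, hsu⟩, rfl⟩)).2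

end N3
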