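import Pool.Agent.Lib_n3.Stmts

/-!
# Exact realizations of proper induced pieces of a Levi graph (module ResExact)
-/

open scoped Matrix Topology
open Finset

namespace N3

set_option linter.unusedSectionVars false

variable {V : Type} [Fintype V] [DecidableEq V]

open Classical in
theorem dg_compl (G : SimpleGraph V) (S : Finset V) (v : V) :
    dg G S v + dg G Sᶜ v = dg G univ v := by
  unfold dg
  rw [← Finset.card_union_of_disjoint]
  · congr 1
    ext u
    by_cases h : u ∈ S <;> simp [h]
  · rw [Finset.disjoint_left]
    intro u hu hu'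
    simp only [Finset.mem_filter, Finset.mem_compl] at hu hu'
    exact hu'.1 hu.1

open Classical in
theorem dg_res_le (G : SimpleGraph V) (A S : Finset V) (v : V) :
    dg (res G A) S v ≤ dg G S v := by
  unfold dg
  apply Finset.card_le_card
  intro u hu
  simp only [Finset.mem_filter] at hu ⊢
  exact ⟨hu.1, hu.2.1⟩

open Classical in
theorem dg_res_out (G : SimpleGraph V) (A S : Finset V) (v : V) (hv : v ∉ A) :
    dg (res G A) S v = 0 := by
  unfold dg
  rw [Finset.card_eq_zero, Finset.filter_eq_empty_iff]
  intro u _ h
  exact hv h.2.1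

open Classical in
theorem dg_addE_le (F : SimpleGraph V) (x y : V) (S : Finset V) (v : V) :
    dg (addE F x y) S v ≤ dg F S v + (if v = x ∨ v = y then 1 else 0) := by
  unfold dg
  by_cases hx : v = x ∨ v = y
  · rw [if_pos hx]
    have hsub : S.filter (fun u => (addE F x y).Adj v u) ⊆
        insert (if v = x then y else x) (S.filter (fun u => F.Adj v u)) := by
      intro u hu
      simp only [Finset.mem_filter, SimpleGraph.sup_adj, SimpleGraph.edge_adj] at hu
      simp only [Finset.mem_insert, Finset.mem_filter]
      rcases hu.2 with h | ⟨h, hne⟩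
      · exact Or.inr ⟨hu.1, h⟩
      · left
        rcases h with ⟨h1, h2⟩ | ⟨h1, h2⟩
        · rw [if_pos h1]; exact h2
        · by_cases hvx : v = x
          · exact absurd (hvx.trans h2.symm) hne
          · rw [if_neg hvx]; exact h2
    have h : _ ≤ _ := (Finset.card_le_card hsub).trans (Finset.card_insert_le _ _)
    refine le_trans (le_of_eq ?_) h
    congr!
  · rw [if_neg hx, add_zero]
    apply Finset.card_le_card
    intro u hu
    simp only [Finset.mem_filter, SimpleGraph.sup_adj, SimpleGraph.edge_adj] at hu ⊢
    refine ⟨hu.1, ?_⟩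
    rcases hu.2 with h | ⟨h, hne⟩
    · exact h
    · exfalso
      rcases h with ⟨h1, h2⟩ | ⟨h1, h2⟩
      · exact hx (Or.inl h1)
      · exact hx (Or.inr h1)

/-- a set of vertices of a Levi graph, nonempty with nonempty complement, cannot have at most two
outgoing edges; counted with a defect `d` of total at most two -/
theorem no_small_cut (G : SimpleGraph V) (side : V → Bool) (hL : Lev G side) (S : Finset V)
    (hS : S.Nonempty) (hS' : Sᶜ.Nonempty) (d : V → ℕ) (hd : ∑ v ∈ S, d v ≤ 2)
    (h : ∀ v ∈ S, 3 ≤ dg G S v + d v) : False := by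
  have h1 : cut G S ≤ ∑ v ∈ S, d v := by
    unfold cut ed
    apply Finset.sum_le_sum
    intro v hv
    have h2 := dg_compl G S v
    have h3 := hL.cubic v
    have h4 := h v hv
    omega
  have h5 := hL.c3 S hS hS'
  omega

open Classical in
theorem sum_pair_le (S : Finset V) (x y : V) :
    ∑ v ∈ S, (if v = x ∨ v = y then 1 else 0) ≤ 2 := by
  rw [← Finset.card_filter]
  have hsub : S.filter (fun v => v = x ∨ v = y) ⊆ {x, y} := by
    intro u hu
    simp only [Finset.mem_filter] at hu
    simp only [Finset.mem_insert, Finset.mem_singleton]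
    exact hu.2
  exact (Finset.card_le_card hsub).trans (Finset.card_le_two)

theorem twoDeg_addE_res (G : SimpleGraph V) (side : V → Bool) (hL : Lev G side) (A : Finset V)
    (hA : A ≠ univ) (x y : V) : TwoDeg (addE (res G A) x y) := by
  classical
  intro S hS
  by_contra hcon
  push Not at hcon
  have hSA : S ⊆ A := by
    intro v hv
    by_contra hvA
    have h1 := hcon v hv
    have h2 := dg_addE_le (res G A) x y S v
    have h3 := dg_res_out G A S v hvA
    split_ifs at h2 <;> omega
  have hS' : Sᶜ.Nonempty := by
    rw [Finset.nonempty_iff_ne_empty]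
    intro h
    apply hA
    rw [Finset.compl_eq_empty_iff] at h
    exact Finset.univ_subset_iff.1 (h ▸ hSA)
  refine no_small_cut G side hL S hS hS' (fun v => if v = x ∨ v = y then 1 else 0)
    (by convert sum_pair_le S x y) ?_
  intro v hv
  have h1 := hcon v hv
  have h2 := dg_addE_le (res G A) x y S v
  have h3 := dg_res_le G A S v
  split_ifs at h2 ⊢ <;> omega

theorem twoDeg_mono {F F' : SimpleGraph V} (h : F ≤ F') (hF : TwoDeg F') : TwoDeg F := by
  classical
  intro S hS
  obtain ⟨v, hv, hd⟩ := hF S hS
  refine ⟨v, hv, le_trans ?_ hd⟩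
  unfold dg
  apply Finset.card_le_card
  intro u hu
  simp only [Finset.mem_filter] at hu ⊢
  exact ⟨hu.1, h hu.2⟩

/-- the pieces of a Levi graph are 2-degenerate -/
theorem twoDeg_res (G : SimpleGraph V) (side : V → Bool) (hL : Lev G side) (A : Finset V)
    (hA : A ≠ univ) : TwoDeg (res G A) := by
  intro S hS
  obtain ⟨x, hx⟩ := hS
  exact twoDeg_mono le_sup_left (twoDeg_addE_res G side hL A hA x x) S ⟨x, hx⟩

theorem bip_res {G : SimpleGraph V} {side : V → Bool} (h : Bip G side) (A : Finset V) :
    Bip (res G A) side := fun u v huv => h u v huv.1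

theorem noC4_res {G : SimpleGraph V} (h : NoC4 G) (A : Finset V) : NoC4 (res G A) :=
  fun u v huv a b h1 h2 h3 h4 => h u v huv a b h1.1 h2.1 h3.1 h4.1

/-- RESEXACT: a proper induced piece of a Levi graph has an exact realization -/
theorem resExact (hG : ThmGStmt) (_hC : CutsStmt) : ResExactStmt := by
  intro V _ _ G side hL A hA
  exact hG V (res G A) side (bip_res hL.bip A) (noC4_res hL.noC4 A) (twoDeg_res G side hL A hA)
    (fun x y _ _ => twoDeg_addE_res G side hL A hA x y)

end N3
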