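import Pool.Agent.Lib_n3.StmtsGlue
import Pool.Agent.Lib_n3.ResExact

/-!
# Module GlueCore: gluing across an edge cut (MP_07e12a_co)
-/

open scoped Matrix Topology
open Finset

namespace N3

/-! ### TENSOR -/

theorem tensor : TensorStmt := by
  intro V _ _ F side κ ω A hB hS s t
  have hz : ∀ u v, side u = side v → ω u v = 0 := fun u v h =>
    hS.2.1 u v fun hadj => hB u v hadj h
  -- equilibrium at points
  have e1 : ∀ u, ∑ v, ω u v * ((s ⬝ᵥ κ u) * (t ⬝ᵥ κ v)) = 0 := by
    intro u
    have h := congrArg (fun x => (s ⬝ᵥ κ u) * (t ⬝ᵥ x)) (hS.2.2 u)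
    simp only [dotProduct_zero, mul_zero] at h
    rw [← h, dotProduct_sum, Finset.mul_sum]
    apply Finset.sum_congr rfl
    intro v _
    rw [dotProduct_smul, smul_eq_mul]
    ring
  have e2 : ∀ u, ∑ v, ω u v * ((s ⬝ᵥ κ v) * (t ⬝ᵥ κ u)) = 0 := by
    intro u
    have h := congrArg (fun x => (t ⬝ᵥ κ u) * (s ⬝ᵥ x)) (hS.2.2 u)
    simp only [dotProduct_zero, mul_zero] at h
    rw [← h, dotProduct_sum, Finset.mul_sum]
    apply Finset.sum_congr rfl
    intro v _
    rw [dotProduct_smul, smul_eq_mul]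
    ring
  have p1 : ∑ u ∈ A.filter (fun u => side u = false), ∑ v ∈ A, ω u v * ((s ⬝ᵥ κ u) * (t ⬝ᵥ κ v))
      + ∑ u ∈ A.filter (fun u => side u = false), ∑ v ∈ Aᶜ,
        ω u v * ((s ⬝ᵥ κ u) * (t ⬝ᵥ κ v)) = 0 := by
    rw [← Finset.sum_add_distrib]
    apply Finset.sum_eq_zero
    intro u _
    rw [Finset.sum_add_sum_compl]
    exact e1 u
  have p2 : ∑ u ∈ A.filter (fun u => side u = true), ∑ v ∈ A, ω u v * ((s ⬝ᵥ κ v) * (t ⬝ᵥ κ u))
      + ∑ u ∈ A.filter (fun u => side u = true), ∑ v ∈ Aᶜ,
        ω u v * ((s ⬝ᵥ κ v) * (t ⬝ᵥ κ u)) = 0 := by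
    rw [← Finset.sum_add_distrib]
    apply Finset.sum_eq_zero
    intro u _
    rw [Finset.sum_add_sum_compl]
    exact e2 u
  have q1 : ∑ u ∈ A.filter (fun u => side u = false), ∑ v ∈ A, ω u v * ((s ⬝ᵥ κ u) * (t ⬝ᵥ κ v))
      = ∑ u ∈ A.filter (fun u => side u = false), ∑ v ∈ A.filter (fun u => side u = true),
        ω u v * ((s ⬝ᵥ κ u) * (t ⬝ᵥ κ v)) := by
    apply Finset.sum_congr rfl
    intro u hu
    symm
    apply Finset.sum_subset (Finset.filter_subset _ _)
    intro v hv hv'
    have h1 : side u = false := (Finset.mem_filter.1 hu).2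
    have h2 : side v = false := by
      cases h : side v
      · rfl
      · exact absurd (Finset.mem_filter.2 ⟨hv, h⟩) hv'
    rw [hz u v (h1.trans h2.symm), zero_mul]
  have q2 : ∑ u ∈ A.filter (fun u => side u = true), ∑ v ∈ A, ω u v * ((s ⬝ᵥ κ v) * (t ⬝ᵥ κ u))
      = ∑ u ∈ A.filter (fun u => side u = true), ∑ v ∈ A.filter (fun u => side u = false),
        ω u v * ((s ⬝ᵥ κ v) * (t ⬝ᵥ κ u)) := by
    apply Finset.sum_congr rfl
    intro u hu
    symm
    apply Finset.sum_subset (Finset.filter_subset _ _)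
    intro v hv hv'
    have h1 : side u = true := (Finset.mem_filter.1 hu).2
    have h2 : side v = true := by
      cases h : side v
      · exact absurd (Finset.mem_filter.2 ⟨hv, h⟩) hv'
      · rfl
    rw [hz u v (h1.trans h2.symm), zero_mul]
  have q3 : ∑ u ∈ A.filter (fun u => side u = true), ∑ v ∈ A.filter (fun u => side u = false),
        ω u v * ((s ⬝ᵥ κ v) * (t ⬝ᵥ κ u))
      = ∑ u ∈ A.filter (fun u => side u = false), ∑ v ∈ A.filter (fun u => side u = true),
        ω u v * ((s ⬝ᵥ κ u) * (t ⬝ᵥ κ v)) := by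
    rw [Finset.sum_comm]
    apply Finset.sum_congr rfl
    intro u _
    apply Finset.sum_congr rfl
    intro v _
    rw [hS.1 v u]
  rw [q1] at p1
  rw [q2, q3] at p2
  linarith

/-! ### RESFREE -/

theorem resFree (hT : TwoDegFreeStmt) : ResFreeStmt := by
  intro V _ _ G side hL A hA ρ hρ
  exact hT V (res G A) side ρ (bip_res hL.bip A) hρ (twoDeg_res G side hL A hA)

/-! ### GLUE -/

theorem DualPair.g_inj {g h : E →ₗ[ℝ] E} (hD : DualPair g h) {p : E} (hp : g p = 0) : p = 0 := by
  funext i
  have := hD p (Pi.single i 1)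
  rw [hp, zero_dotProduct, dotProduct_single, mul_one] at this
  exact this.symm

theorem DualPair.h_inj {g h : E →ₗ[ℝ] E} (hD : DualPair g h) {l : E} (hl : h l = 0) : l = 0 := by
  funext i
  have := hD (Pi.single i 1) l
  rw [hl, dotProduct_zero, single_dotProduct, one_mul] at this
  exact this.symm

section
set_option linter.unusedSectionVars false
variable {V : Type} [Fintype V] [DecidableEq V]

theorem glueR_in {side : V → Bool} {A : Finset V} {ρA ρB : V → E} {g h : E →ₗ[ℝ] E} {v : V}
    (hv : v ∈ A) : glueR side A ρA ρB g h v = ρA v := by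
  unfold glueR
  rw [if_pos hv]

theorem glueR_line {side : V → Bool} {A : Finset V} {ρA ρB : V → E} {g h : E →ₗ[ℝ] E} {v : V}
    (hv : v ∉ A) (hs : side v = true) : glueR side A ρA ρB g h v = h (ρB v) := by
  unfold glueR
  rw [if_neg hv, if_pos hs]

theorem glueR_point {side : V → Bool} {A : Finset V} {ρA ρB : V → E} {g h : E →ₗ[ℝ] E} {v : V}
    (hv : v ∉ A) (hs : side v = false) : glueR side A ρA ρB g h v = g (ρB v) := by
  unfold glueR
  rw [if_neg hv, if_neg (by rw [hs]; decide)]

/-- `⬝ᵥ` of two glued vectors outside `A` -/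
theorem glueR_out {side : V → Bool} {A : Finset V} {ρA ρB : V → E} {g h : E →ₗ[ℝ] E}
    (hD : DualPair g h) {u v : V} (hu : u ∉ A) (hv : v ∉ A) (hs : side u ≠ side v) :
    glueR side A ρA ρB g h u ⬝ᵥ glueR side A ρA ρB g h v = ρB u ⬝ᵥ ρB v := by
  cases h1 : side u
  · have h2 : side v = true := by
      cases h2 : side v
      · exact absurd (h1.trans h2.symm) hs
      · rfl
    rw [glueR_point hu h1, glueR_line hv h2, hD]
  · have h2 : side v = false := by
      cases h2 : side v
      · rfl
      · exact absurd (h1.trans h2.symm) hs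
    rw [glueR_line hu h1, glueR_point hv h2, dotProduct_comm, hD, dotProduct_comm]

/-- a stress that vanishes across `A` restricts to a stress of the piece inside `A`, provided the
weighted sums of `ρ'` vanish -/
theorem restrict_stress {G F : SimpleGraph V} {A : Finset V} {ρ' : V → E} {ω : V → V → ℝ}
    (hsym : ∀ u v, ω u v = ω v u)
    (hadj : ∀ u ∈ A, ∀ v ∈ A, ¬ G.Adj u v → ω u v = 0)
    (heq : ∀ v ∈ A, ∑ u ∈ A, ω v u • ρ' u = 0) (hF : F = res G A) :
    Stress F ρ' (fun u v => if u ∈ A ∧ v ∈ A then ω u v else 0) := by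
  subst hF
  refine ⟨?_, ?_, ?_⟩
  · intro u v
    simp only [and_comm (a := u ∈ A), hsym u v]
  · intro u v h
    by_cases hA : u ∈ A ∧ v ∈ A
    · simp only [if_pos hA]
      exact hadj u hA.1 v hA.2 fun h' => h ⟨h', hA.1, hA.2⟩
    · simp only [if_neg hA]
  · intro v
    by_cases hv : v ∈ A
    · rw [← heq v hv, ← Finset.sum_add_sum_compl A]
      have h2 : ∑ u ∈ Aᶜ, (fun u v => if u ∈ A ∧ v ∈ A then ω u v else 0) v u • ρ' u = 0 := by
        apply Finset.sum_eq_zero
        intro u hu
        have : ¬ (v ∈ A ∧ u ∈ A) := fun h => (Finset.mem_compl.1 hu) h.2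
        simp only [if_neg this, zero_smul]
      rw [h2, add_zero]
      apply Finset.sum_congr rfl
      intro u hu
      have : v ∈ A ∧ u ∈ A := ⟨hv, hu⟩
      simp only [if_pos this]
    · apply Finset.sum_eq_zero
      intro u _
      have : ¬ (v ∈ A ∧ u ∈ A) := fun h => hv h.1
      simp only [if_neg this, zero_smul]

/-- the core of GLUE: cross pairs killed by tensors are killed -/
theorem kill_cross (hF : ResFreeStmt) {G : SimpleGraph V} {side : V → Bool} (hL : Lev G side)
    {A : Finset V} (hA : A.Nonempty) (hA' : Aᶜ.Nonempty) {ρA ρB : V → E} {g h : E →ₗ[ℝ] E}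
    (hSA : Sep side ρA) (hSB : Sep side ρB) (hD : DualPair g h) {x y : V}
    (hx : x ∈ A) (hy : y ∉ A) (hxy : side x ≠ side y)
    (hT : TensorKill G side (glueR side A ρA ρB g h) A x y) :
    StressFree (addE G x y) (glueR side A ρA ρB g h) := by
  intro ω hω
  have hbip : Bip (addE G x y) side := by
    intro u v huv
    rw [SimpleGraph.sup_adj, SimpleGraph.edge_adj] at huv
    rcases huv with huv | ⟨⟨h1, h2⟩ | ⟨h1, h2⟩, _⟩
    · exact hL.bip u v huv
    · rw [h1, h2]; exact hxy
    · rw [h1, h2]; exact hxy.symm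
  have hcross := hT ω hω.1 hω.2.1 (tensor V _ side _ ω A hbip hω)
  have hcross' : ∀ u ∉ A, ∀ v ∈ A, ω u v = 0 := fun u hu v hv => by
    rw [hω.1]; exact hcross v hv u hu
  -- inside `A`
  have hinA : ∀ u v, (if u ∈ A ∧ v ∈ A then ω u v else 0) = 0 := by
    apply hF V G side hL A (fun h => by rw [h] at hA'; simp at hA') ρA hSA
      (fun u v => if u ∈ A ∧ v ∈ A then ω u v else 0)
    refine restrict_stress hω.1 ?_ ?_ rfl
    · intro u hu v hv hn
      apply hω.2.1 u v
      rw [SimpleGraph.sup_adj, SimpleGraph.edge_adj]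
      rintro (h1 | ⟨⟨h1, h2⟩ | ⟨h1, h2⟩, _⟩)
      · exact hn h1
      · exact hy (h2 ▸ hv)
      · exact hy (h1 ▸ hu)
    · intro v hv
      have h1 := hω.2.2 v
      rw [← Finset.sum_add_sum_compl A] at h1
      have h2 : ∑ u ∈ Aᶜ, ω v u • glueR side A ρA ρB g h u = 0 := by
        apply Finset.sum_eq_zero
        intro u hu
        rw [hcross v hv u (Finset.mem_compl.1 hu), zero_smul]
      rw [h2, add_zero] at h1
      rw [← h1]
      apply Finset.sum_congr rfl
      intro u hu
      rw [glueR_in hu]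
  -- outside `A`
  have hout : ∀ u v, (if u ∈ Aᶜ ∧ v ∈ Aᶜ then ω u v else 0) = 0 := by
    apply hF V G side hL Aᶜ (fun h => by
      rw [Finset.compl_eq_univ_iff] at h; rw [h] at hA; simp at hA) ρB hSB
      (fun u v => if u ∈ Aᶜ ∧ v ∈ Aᶜ then ω u v else 0)
    refine restrict_stress hω.1 ?_ ?_ rfl
    · intro u hu v hv hn
      apply hω.2.1 u v
      rw [SimpleGraph.sup_adj, SimpleGraph.edge_adj]
      rintro (h1 | ⟨⟨h1, h2⟩ | ⟨h1, h2⟩, _⟩)
      · exact hn h1
      · exact (Finset.mem_compl.1 hu) (h1 ▸ hx)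
      · exact (Finset.mem_compl.1 hv) (h2 ▸ hx)
    · intro v hv
      have hvA : v ∉ A := Finset.mem_compl.1 hv
      have h1 := hω.2.2 v
      rw [← Finset.sum_add_sum_compl A] at h1
      have h2 : ∑ u ∈ A, ω v u • glueR side A ρA ρB g h u = 0 := by
        apply Finset.sum_eq_zero
        intro u hu
        rw [hcross' v hvA u hu, zero_smul]
      rw [h2, zero_add] at h1
      cases hs : side v
      · -- neighbours are lines
        apply hD.h_inj
        rw [← h1, map_sum]
        apply Finset.sum_congr rfl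
        intro u hu
        rw [map_smul]
        cases hsu : side u
        · have : ω v u = 0 := hω.2.1 v u fun hadj => hbip v u hadj (hs.trans hsu.symm)
          rw [this, zero_smul, zero_smul]
        · rw [glueR_line (Finset.mem_compl.1 hu) hsu]
      · apply hD.g_inj
        rw [← h1, map_sum]
        apply Finset.sum_congr rfl
        intro u hu
        rw [map_smul]
        cases hsu : side u
        · rw [glueR_point (Finset.mem_compl.1 hu) hsu]
        · have : ω v u = 0 := hω.2.1 v u fun hadj => hbip v u hadj (hs.trans hsu.symm)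
          rw [this, zero_smul, zero_smul]
  intro u v
  by_cases hu : u ∈ A
  · by_cases hv : v ∈ A
    · have := hinA u v
      rwa [if_pos ⟨hu, hv⟩] at this
    · exact hcross u hu v hv
  · by_cases hv : v ∈ A
    · exact hcross' u hu v hv
    · have := hout u v
      rwa [if_pos ⟨Finset.mem_compl.2 hu, Finset.mem_compl.2 hv⟩] at this

end

theorem glue (hK : KillStmt) (hF : ResFreeStmt) : GlueStmt := by
  intro V _ _ G side hL A hA hA' ρA ρB g h exA exB hD hcut hkill
  apply hK V G side hL.bip hL.noC4 (fun v => by rw [hL.cubic v]; omega)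
    (glueR side A ρA ρB g h)
  · -- nonzero
    intro v
    by_cases hv : v ∈ A
    · rw [glueR_in hv]
      exact exA.2.1.1 v
    · cases hs : side v
      · rw [glueR_point hv hs]
        exact fun h0 => exB.2.1.1 v (hD.g_inj h0)
      · rw [glueR_line hv hs]
        exact fun h0 => exB.2.1.1 v (hD.h_inj h0)
  · -- realization
    intro u v huv
    by_cases hu : u ∈ A
    · by_cases hv : v ∈ A
      · rw [glueR_in hu, glueR_in hv]
        exact exA.1 u v ⟨huv, hu, hv⟩
      · exact hcut u hu v hv huv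
    · by_cases hv : v ∈ A
      · rw [dotProduct_comm]
        exact hcut v hv u hu huv.symm
      · rw [glueR_out hD hu hv (hL.bip u v huv)]
        exact exB.1 u v ⟨huv, Finset.mem_compl.2 hu, Finset.mem_compl.2 hv⟩
  · -- kills
    intro x y hxy hn h0
    by_cases hx : x ∈ A
    · by_cases hy : y ∈ A
      · exfalso
        rw [glueR_in hx, glueR_in hy] at h0
        exact exA.2.2 x y hxy (fun h' => hn h'.1) h0
      · exact kill_cross hF hL hA hA' exA.2.1 exB.2.1 hD hx hy hxy (hkill x hx y hy hxy hn h0)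
    · by_cases hy : y ∈ A
      · have h1 : addE G x y = addE G y x := by
          unfold addE
          rw [SimpleGraph.edge_comm]
        rw [h1]
        rw [dotProduct_comm] at h0
        exact kill_cross hF hL hA hA' exA.2.1 exB.2.1 hD hy hx hxy.symm
          (hkill y hy x hx hxy.symm (fun h' => hn h'.symm) h0)
      · exfalso
        rw [glueR_out hD hx hy hxy] at h0
        exact exB.2.2 x y hxy (fun h' => hn h'.1) h0

end N3
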