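import Pool.Agent.Lib_n3.StmtsGlue
import Pool.Agent.Lib_n3.Affine
import Pool.Agent.Lib_n3.GlueLA3

/-!
# Module GlueLA4: linear algebra of the gluing along four cut edges
-/

open scoped Matrix

namespace N3

/-! ### Coordinates -/

namespace LA4

open Aff

theorem cr0_4 (a b : E) : crossProduct a b 0 = a 1 * b 2 - a 2 * b 1 := by
  simp [cross_apply]

theorem cr1_4 (a b : E) : crossProduct a b 1 = a 2 * b 0 - a 0 * b 2 := by
  simp [cross_apply]

theorem cr2_4 (a b : E) : crossProduct a b 2 = a 0 * b 1 - a 1 * b 0 := by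
  simp [cross_apply]

theorem det3_eq_4 (a b c : E) : det3 a b c = a 0 * (b 1 * c 2 - b 2 * c 1) +
    a 1 * (b 2 * c 0 - b 0 * c 2) + a 2 * (b 0 * c 1 - b 1 * c 0) := by
  rw [det3, dp3, cr0_4, cr1_4, cr2_4]

theorem crossdot (a b c : E) : crossProduct a b ⬝ᵥ c = det3 a b c := by
  rw [det3_eq_4, dp3, cr0_4, cr1_4, cr2_4]; ring

theorem dotcross (a b c : E) : c ⬝ᵥ crossProduct a b = det3 a b c := by
  rw [det3_eq_4, dp3, cr0_4, cr1_4, cr2_4]; ring

theorem det3_swap12 (a b c : E) : det3 b a c = - det3 a b c := by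
  rw [det3_eq_4, det3_eq_4]; ring

theorem det3_swap23 (a b c : E) : det3 a c b = - det3 a b c := by
  rw [det3_eq_4, det3_eq_4]; ring

theorem det3_cyc_4 (a b c : E) : det3 b c a = det3 a b c := by
  rw [det3_eq_4, det3_eq_4]; ring

theorem det3_aab (a b : E) : det3 a a b = 0 := by
  rw [det3_eq_4]; ring

theorem det3_aba (a b : E) : det3 a b a = 0 := by
  rw [det3_eq_4]; ring

theorem det3_baa (a b : E) : det3 b a a = 0 := by
  rw [det3_eq_4]; ring

theorem det3_smul1_4 (r : ℝ) (a b c : E) : det3 (r • a) b c = r * det3 a b c := by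
  rw [det3_eq_4, det3_eq_4]; simp; ring

theorem det3_smul2_4 (r : ℝ) (a b c : E) : det3 a (r • b) c = r * det3 a b c := by
  rw [det3_eq_4, det3_eq_4]; simp; ring

theorem det3_smul3_4 (r : ℝ) (a b c : E) : det3 a b (r • c) = r * det3 a b c := by
  rw [det3_eq_4, det3_eq_4]; simp; ring

theorem ext3_4 {a b : E} (h0 : a 0 = b 0) (h1 : a 1 = b 1) (h2 : a 2 = b 2) : a = b := by
  funext i
  fin_cases i
  · exact h0
  · exact h1
  · exact h2

end LA4

open LA4 Aff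

theorem Np.symmLA4 {a b : E} (h : Np a b) : Np b a := by
  intro hc
  apply h
  rw [← cross_anticomm, hc, neg_zero]

theorem Np.smulLA4 {a b : E} (h : Np a b) {r : ℝ} (hr : r ≠ 0) : Np (r • a) b := by
  intro hc
  apply h
  rw [LinearMap.map_smul, LinearMap.smul_apply] at hc
  exact (smul_eq_zero.1 hc).resolve_left hr

theorem Np.leftLA4 {a b : E} (h : Np a b) : a ≠ 0 := by
  rintro rfl
  apply h
  simp

theorem Np.rightLA4 {a b : E} (h : Np a b) : b ≠ 0 := h.symmLA4.leftLA4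

namespace LA4

/-- `x` is not parallel to `p` if some functional vanishes at `p` and not at `x` -/
theorem np_of_dot_4 {u x p : E} (hup : u ⬝ᵥ p = 0) (hux : u ⬝ᵥ x ≠ 0) (hp : p ≠ 0) : Np x p := by
  intro hc
  have h0 := congrFun hc 0
  have h1 := congrFun hc 1
  have h2 := congrFun hc 2
  rw [cr0_4] at h0
  rw [cr1_4] at h1
  rw [cr2_4] at h2
  simp only [Pi.zero_apply] at h0 h1 h2
  rw [dp3] at hup hux
  apply hp
  have e0 : (u 0 * x 0 + u 1 * x 1 + u 2 * x 2) * p 0 = 0 := by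
    linear_combination x 0 * hup - u 1 * h2 + u 2 * h1
  have e1 : (u 0 * x 0 + u 1 * x 1 + u 2 * x 2) * p 1 = 0 := by
    linear_combination x 1 * hup + u 0 * h2 - u 2 * h0
  have e2 : (u 0 * x 0 + u 1 * x 1 + u 2 * x 2) * p 2 = 0 := by
    linear_combination x 2 * hup - u 0 * h1 + u 1 * h0
  exact ext3_4 ((mul_eq_zero.1 e0).resolve_left hux) ((mul_eq_zero.1 e1).resolve_left hux)
    ((mul_eq_zero.1 e2).resolve_left hux)

/-- strict Cauchy-Schwarz -/
theorem cs_np {a n : E} (h : Np n a) : (n ⬝ᵥ n) * (a ⬝ᵥ a) - (a ⬝ᵥ n) * (a ⬝ᵥ n) ≠ 0 := by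
  have h1 := (dp_self_pos h).ne'
  have h2 : crossProduct n a ⬝ᵥ crossProduct n a =
      (n ⬝ᵥ n) * (a ⬝ᵥ a) - (a ⬝ᵥ n) * (a ⬝ᵥ n) := by
    rw [dp3, dp3, dp3, dp3, cr0_4, cr1_4, cr2_4]; ring
  rwa [h2] at h1

/-- generic vectors of the plane `a^⊥` -/
theorem pick {ι : Type} [Finite ι] (a : E) (N : ι → E) (h : ∀ i, Np (N i) a) :
    ∃ x : E, a ⬝ᵥ x = 0 ∧ ∀ i, N i ⬝ᵥ x ≠ 0 := by
  obtain ⟨x, hx, hN⟩ := Module.Dual.exists_forall_mem_ne_zero_of_forall_exists
    (LinearMap.ker (dpL a)) (fun i : ι => dpL (N i)) (by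
      intro i
      refine ⟨(a ⬝ᵥ a) • N i - (a ⬝ᵥ N i) • a, ?_, ?_⟩
      · rw [LinearMap.mem_ker, dpL_apply, dotProduct_sub, dotProduct_smul, dotProduct_smul]
        simp only [smul_eq_mul]
        ring
      · rw [dpL_apply, dotProduct_sub, dotProduct_smul, dotProduct_smul]
        have := cs_np (h i)
        simp only [smul_eq_mul]
        rw [dotProduct_comm (N i) a]
        intro hc
        apply this
        linarith)
  exact ⟨x, hx, hN⟩

/-- a functional vanishing at `p` and not parallel to `a` -/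
theorem exists_sep_4 {p a : E} (hp : p ≠ 0) (ha : a ≠ 0) : ∃ u : E, u ⬝ᵥ p = 0 ∧ Np u a := by
  by_cases hpa : p ⬝ᵥ a = 0
  · refine ⟨crossProduct p a, ?_, ?_⟩
    · rw [crossdot, det3_aba]
    · intro hc
      have h1 := congrArg (fun z => a ⬝ᵥ crossProduct z p) hc
      have haa := (dp_self_pos ha).ne'
      have hpp := (dp_self_pos hp).ne'
      have h0 := congrFun hc 0
      have h1' := congrFun hc 1
      have h2 := congrFun hc 2
      rw [cr0_4, cr1_4, cr2_4] at h0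
      rw [cr1_4, cr0_4, cr2_4] at h1'
      rw [cr2_4, cr0_4, cr1_4] at h2
      simp only [Pi.zero_apply] at h0 h1' h2
      rw [dp3] at hpa haa
      apply hp
      have e0 : (a 0 * a 0 + a 1 * a 1 + a 2 * a 2) * p 0 = 0 := by
        linear_combination a 0 * hpa - h0
      have e1 : (a 0 * a 0 + a 1 * a 1 + a 2 * a 2) * p 1 = 0 := by
        linear_combination a 1 * hpa - h1'
      have e2 : (a 0 * a 0 + a 1 * a 1 + a 2 * a 2) * p 2 = 0 := by
        linear_combination a 2 * hpa - h2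
      exact ext3_4 ((mul_eq_zero.1 e0).resolve_left haa) ((mul_eq_zero.1 e1).resolve_left haa)
        ((mul_eq_zero.1 e2).resolve_left haa)
  · obtain ⟨u, hu0, hu⟩ := exists_orth p
    refine ⟨u, hu, ?_⟩
    refine (np_of_dot_4 (u := p) ?_ ?_ hu0).symmLA4
    · rw [dotProduct_comm]; exact hu
    · exact hpa

/-! ### Generic parameters -/

theorem quad_finite {A B C : ℝ} (h : A ≠ 0 ∨ B ≠ 0 ∨ C ≠ 0) :
    {s : ℝ | A + B * s + C * s ^ 2 = 0}.Finite := by
  classical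
  let q : Polynomial ℝ := Polynomial.C A + Polynomial.C B * Polynomial.X +
    Polynomial.C C * Polynomial.X ^ 2
  have hq : q ≠ 0 := by
    intro hq
    have h0 : q.coeff 0 = A := by simp [q]
    have h1 : q.coeff 1 = B := by simp [q, Polynomial.coeff_X]
    have h2 : q.coeff 2 = C := by simp [q, Polynomial.coeff_X]
    rw [hq] at h0 h1 h2
    simp only [Polynomial.coeff_zero] at h0 h1 h2
    rcases h with h | h | h
    · exact h h0.symm
    · exact h h1.symm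
    · exact h h2.symm
  refine (q.roots.toFinset.finite_toSet).subset ?_
  intro s hs
  have hs' : A + B * s + C * s ^ 2 = 0 := hs
  simp only [Finset.mem_coe, Multiset.mem_toFinset]
  rw [Polynomial.mem_roots hq, Polynomial.IsRoot.def]
  simpa [q] using hs'

theorem np_finite {u v l : E} (huv : Np u v) (hl : l ≠ 0) :
    {s : ℝ | ¬ Np (u + s • v) l}.Finite := by
  have hcomp : ∃ k : Fin 3, crossProduct u l k ≠ 0 ∨ crossProduct v l k ≠ 0 := by
    by_contra hcon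
    push Not at hcon
    have hu : crossProduct u l = 0 := funext fun k => (hcon k).1
    have hv : crossProduct v l = 0 := funext fun k => (hcon k).2
    apply huv
    have a0 := congrFun hu 0
    have a1 := congrFun hu 1
    have a2 := congrFun hu 2
    have b0 := congrFun hv 0
    have b1 := congrFun hv 1
    have b2 := congrFun hv 2
    rw [cr0_4] at a0 b0
    rw [cr1_4] at a1 b1
    rw [cr2_4] at a2 b2
    simp only [Pi.zero_apply] at a0 a1 a2 b0 b1 b2
    have hl' : l 0 ≠ 0 ∨ l 1 ≠ 0 ∨ l 2 ≠ 0 := by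
      by_contra hc
      push Not at hc
      exact hl (ext3_4 hc.1 hc.2.1 hc.2.2)
    have key : ∀ c : ℝ, (l 0 * c = 0 ∧ l 1 * c = 0 ∧ l 2 * c = 0) → c = 0 := by
      rintro c ⟨h0, h1, h2⟩
      rcases hl' with h | h | h
      · exact (mul_eq_zero.1 h0).resolve_left h
      · exact (mul_eq_zero.1 h1).resolve_left h
      · exact (mul_eq_zero.1 h2).resolve_left h
    refine ext3_4 ?_ ?_ ?_
    · rw [cr0_4]
      simp only [Pi.zero_apply]
      refine key _ ⟨?_, ?_, ?_⟩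
      · linear_combination (- u 0) * b0 - v 2 * a2 - v 1 * a1
      · linear_combination (- u 1) * b0 + v 1 * a0
      · linear_combination v 2 * a0 - u 2 * b0
    · rw [cr1_4]
      simp only [Pi.zero_apply]
      refine key _ ⟨?_, ?_, ?_⟩
      · linear_combination v 0 * a1 - u 0 * b1
      · linear_combination (- u 1) * b1 - v 0 * a0 - v 2 * a2
      · linear_combination (- u 2) * b1 + v 2 * a1
    · rw [cr2_4]
      simp only [Pi.zero_apply]
      refine key _ ⟨?_, ?_, ?_⟩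
      · linear_combination (- u 0) * b2 + v 0 * a2
      · linear_combination v 1 * a2 - u 1 * b2
      · linear_combination (- u 2) * b2 - v 1 * a1 - v 0 * a0
  obtain ⟨k, hk⟩ := hcomp
  refine (quad_finite (A := crossProduct u l k) (B := crossProduct v l k) (C := 0) ?_).subset ?_
  · rcases hk with h | h
    · exact Or.inl h
    · exact Or.inr (Or.inl h)
  · intro s hs
    have hs' : crossProduct (u + s • v) l = 0 := by
      by_contra hc
      exact hs hc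
    have := congrFun hs' k
    rw [LinearMap.map_add, LinearMap.map_smul, LinearMap.add_apply, LinearMap.smul_apply] at this
    simp only [Pi.add_apply, Pi.smul_apply, smul_eq_mul, Pi.zero_apply] at this
    change crossProduct u l k + crossProduct v l k * s + 0 * s ^ 2 = 0
    linarith

/-- vectors with the same products with a basis are equal -/
theorem eq_of_dots_4 {t0 t1 t2 x y : E} (hd : det3 t0 t1 t2 ≠ 0) (h0 : t0 ⬝ᵥ x = t0 ⬝ᵥ y)
    (h1 : t1 ⬝ᵥ x = t1 ⬝ᵥ y) (h2 : t2 ⬝ᵥ x = t2 ⬝ᵥ y) : x = y := by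
  rw [dp3, dp3] at h0 h1 h2
  rw [det3_eq_4] at hd
  have e0 : (t0 0 * (t1 1 * t2 2 - t1 2 * t2 1) + t0 1 * (t1 2 * t2 0 - t1 0 * t2 2) +
      t0 2 * (t1 0 * t2 1 - t1 1 * t2 0)) * (x 0 - y 0) = 0 := by
    linear_combination (t1 1 * t2 2 - t1 2 * t2 1) * h0 + (t2 1 * t0 2 - t2 2 * t0 1) * h1 +
      (t0 1 * t1 2 - t0 2 * t1 1) * h2
  have e1 : (t0 0 * (t1 1 * t2 2 - t1 2 * t2 1) + t0 1 * (t1 2 * t2 0 - t1 0 * t2 2) +
      t0 2 * (t1 0 * t2 1 - t1 1 * t2 0)) * (x 1 - y 1) = 0 := by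
    linear_combination (t1 2 * t2 0 - t1 0 * t2 2) * h0 + (t2 2 * t0 0 - t2 0 * t0 2) * h1 +
      (t0 2 * t1 0 - t0 0 * t1 2) * h2
  have e2 : (t0 0 * (t1 1 * t2 2 - t1 2 * t2 1) + t0 1 * (t1 2 * t2 0 - t1 0 * t2 2) +
      t0 2 * (t1 0 * t2 1 - t1 1 * t2 0)) * (x 2 - y 2) = 0 := by
    linear_combination (t1 0 * t2 1 - t1 1 * t2 0) * h0 + (t2 0 * t0 1 - t2 1 * t0 0) * h1 +
      (t0 0 * t1 1 - t0 1 * t1 0) * h2
  exact ext3_4 (sub_eq_zero.1 ((mul_eq_zero.1 e0).resolve_left hd))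
    (sub_eq_zero.1 ((mul_eq_zero.1 e1).resolve_left hd))
    (sub_eq_zero.1 ((mul_eq_zero.1 e2).resolve_left hd))

theorem li3 {a b c : E} (h : det3 a b c ≠ 0) : LinearIndependent ℝ (![a, b, c] : Fin 3 → E) := by
  have := Matrix.linearIndependent_rows_of_det_ne_zero (A := Matrix.of ![a, b, c]) (by
    rw [Matrix.det_fin_three]
    rw [det3_eq_4] at h
    intro hc
    apply h
    simp at hc
    linarith)
  exact this

end LA4

/-! ### Four cut edges -/

theorem la4_of (hE : ExDualStmt) : LA4Stmt := by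
  classical
  intro a b ha01 ha23 hb01 hb23 h02 h03 h12 h13 hc2 hc3 hd0 hd1 L P hL hP
  -- choice of `P2`
  choose uP huP huPa using fun p : {p // p ∈ P} => exists_sep_4 (hP p.1 p.2) ha23.leftLA4
  choose uQ huQ huQa using fun p : {p // p ∈ P} => exists_sep_4 (hP p.1 p.2) ha23.rightLA4
  obtain ⟨P2, hP2a, hP2⟩ := pick (ι := Bool ⊕ {p // p ∈ P}) (a 2)
    (Sum.elim (fun t => if t then crossProduct (a 0) (a 1) else a 3) uP) (by
      rintro (t | p)
      · cases t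
        · exact ha23.symmLA4
        · exact hc2
      · exact huPa p)
  have hP2d : det3 (a 0) (a 1) P2 ≠ 0 := by
    have := hP2 (Sum.inl true)
    simp only [Sum.elim_inl, if_true] at this
    rwa [crossdot] at this
  have hP23 : a 3 ⬝ᵥ P2 ≠ 0 := by
    have := hP2 (Sum.inl false)
    simpa using this
  have hP2P : ∀ p ∈ P, Np P2 p := fun p hp =>
    np_of_dot_4 (huP ⟨p, hp⟩) (hP2 (Sum.inr ⟨p, hp⟩)) (hP p hp)
  -- choice of `P3`
  have hN : ∀ x : E, x ≠ 0 → Np x P2 → Np (crossProduct x P2) (a 3) := by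
    intro x hx hxP
    refine (np_of_dot_4 (u := P2) ?_ ?_ hxP).symmLA4
    · rw [dotcross, det3_baa]
    · rw [dotProduct_comm]; exact hP23
  have hnp0 : Np (a 0) P2 := by
    intro hc
    apply hP2d
    have : det3 (a 0) (a 1) P2 = - (a 1 ⬝ᵥ crossProduct (a 0) P2) := by
      rw [dotcross, det3_swap23]
    rw [this, hc]
    simp
  have hnp1 : Np (a 1) P2 := by
    intro hc
    apply hP2d
    rw [det3, hc]
    simp
  obtain ⟨P3, hP3a, hP3⟩ := pick (ι := Fin 4 ⊕ {p // p ∈ P}) (a 3)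
    (Sum.elim (![a 2, crossProduct (a 0) (a 1), crossProduct (a 0) P2, crossProduct (a 1) P2]) uQ) (by
      rintro (t | p)
      · fin_cases t
        · exact ha23
        · exact hc3
        · exact hN _ ha01.leftLA4 hnp0
        · exact hN _ ha01.rightLA4 hnp1
      · exact huQa p)
  have hP32 : a 2 ⬝ᵥ P3 ≠ 0 := by
    have := hP3 (Sum.inl 0)
    simpa using this
  have hP3d : det3 (a 0) (a 1) P3 ≠ 0 := by
    have := hP3 (Sum.inl 1)
    simp only [Sum.elim_inl] at this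
    rw [← crossdot]
    simpa using this
  have hD0 : det3 (a 0) P2 P3 ≠ 0 := by
    have := hP3 (Sum.inl 2)
    simp only [Sum.elim_inl] at this
    rw [← crossdot]
    simpa using this
  have hD1 : det3 (a 1) P2 P3 ≠ 0 := by
    have := hP3 (Sum.inl 3)
    simp only [Sum.elim_inl] at this
    rw [← crossdot]
    simpa using this
  have hP3P : ∀ p ∈ P, Np P3 p := fun p hp =>
    np_of_dot_4 (huQ ⟨p, hp⟩) (hP3 (Sum.inr ⟨p, hp⟩)) (hP p hp)
  -- the third point `Q`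
  have hb20 : Np (crossProduct (b 2) (b 3)) (b 0) := by
    intro hc
    have h1 := congrArg (fun z => z ⬝ᵥ crossProduct (b 2) (b 3)) hc
    simp only [zero_dotProduct] at h1
    -- `((b2 × b3) × b0) = b3 (b0 b2) - b2 (b0 b3)`; pair with `b3 × (b2 × b3)`
    have h2 := congrArg (fun z => z ⬝ᵥ crossProduct (b 3) (crossProduct (b 2) (b 3))) hc
    simp only [zero_dotProduct] at h2
    have h3 : crossProduct (crossProduct (b 2) (b 3)) (b 0) ⬝ᵥ
        crossProduct (b 3) (crossProduct (b 2) (b 3)) =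
        (b 0 ⬝ᵥ b 3) * - (crossProduct (b 2) (b 3) ⬝ᵥ crossProduct (b 2) (b 3)) := by
      simp only [dp3, cr0_4, cr1_4, cr2_4]; ring
    rw [h3] at h2
    rcases mul_eq_zero.1 h2 with h | h
    · exact h03 h
    · exact (dp_self_pos hb23).ne' (neg_eq_zero.1 h)
  obtain ⟨Q, hQ0, hQ⟩ := pick (ι := Bool) (b 0)
    (fun t => if t then crossProduct (b 2) (b 3) else b 1) (by
      intro t
      cases t
      · exact hb01.symmLA4
      · exact hb20)
  have hQd : det3 (b 2) (b 3) Q ≠ 0 := by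
    have := hQ true
    simp only [if_true] at this
    rwa [crossdot] at this
  have hQ1 : b 1 ⬝ᵥ Q ≠ 0 := by
    have := hQ false
    simpa using this
  -- the constants
  set σ0 : ℝ := - (b 0 ⬝ᵥ b 2) / (b 0 ⬝ᵥ b 3) with hσ0
  set σ1 : ℝ := - (b 1 ⬝ᵥ b 2) / (b 1 ⬝ᵥ b 3) with hσ1
  have hσ0n : σ0 ≠ 0 := div_ne_zero (neg_ne_zero.2 h02) h03
  have hσ1n : σ1 ≠ 0 := div_ne_zero (neg_ne_zero.2 h12) h13
  set c : ℝ := σ1 / σ0 with hc
  have hcn : c ≠ 0 := div_ne_zero hσ1n hσ0n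
  -- the forbidden values of `s`
  let u0 := crossProduct (a 0) P2
  let v0 := crossProduct (a 0) P3
  let u1 := crossProduct (a 1) P2
  let v1 := c • crossProduct (a 1) P3
  have huv0 : Np u0 v0 := by
    intro hc'
    have h1 : crossProduct u0 v0 = (det3 (a 0) P2 P3) • a 0 := by
      refine ext3_4 ?_ ?_ ?_ <;>
      simp only [u0, v0, cr0_4, cr1_4, cr2_4, det3_eq_4, Pi.smul_apply, smul_eq_mul] <;> ring
    rw [h1] at hc'
    exact (smul_ne_zero hD0 ha01.leftLA4) hc'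
  have huv1 : Np u1 v1 := by
    intro hc'
    have h1 : crossProduct u1 v1 = (c * det3 (a 1) P2 P3) • a 1 := by
      refine ext3_4 ?_ ?_ ?_ <;>
      simp only [u1, v1, cr0_4, cr1_4, cr2_4, det3_eq_4, Pi.smul_apply, smul_eq_mul] <;> ring
    rw [h1] at hc'
    exact (smul_ne_zero (mul_ne_zero hcn hD1) ha01.rightLA4) hc'
  have f1 : {s : ℝ | s = 0}.Finite := by simp
  have f2 : {s : ℝ | det3 (a 0) (a 1) P2 + (c * det3 (a 0) (a 1) P3) * s + 0 * s ^ 2 = 0}.Finite :=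
    quad_finite (Or.inl hP2d)
  have f3 : {s : ℝ | det3 u0 u1 (a 2) + (det3 v0 u1 (a 2) + det3 u0 v1 (a 2)) * s +
      det3 v0 v1 (a 2) * s ^ 2 = 0}.Finite := by
    refine quad_finite (Or.inr (Or.inr ?_))
    have h1 : det3 v0 v1 (a 2) = - (c * ((a 2 ⬝ᵥ P3) * det3 (a 0) (a 1) P3)) * (-1) := by
      simp only [u0, v0, u1, v1, dp3, cr0_4, cr1_4, cr2_4, det3_eq_4, Pi.smul_apply, smul_eq_mul]; ring
    rw [h1]
    exact mul_ne_zero (neg_ne_zero.2 (mul_ne_zero hcn (mul_ne_zero hP32 hP3d))) (by norm_num)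
  have f4 : {s : ℝ | det3 u0 u1 (a 3) + (det3 v0 u1 (a 3) + det3 u0 v1 (a 3)) * s +
      det3 v0 v1 (a 3) * s ^ 2 = 0}.Finite := by
    refine quad_finite (Or.inl ?_)
    have h1 : det3 u0 u1 (a 3) = - ((a 3 ⬝ᵥ P2) * det3 (a 0) (a 1) P2) * (-1) := by
      simp only [u0, v0, u1, v1, dp3, cr0_4, cr1_4, cr2_4, det3_eq_4]; ring
    rw [h1]
    exact mul_ne_zero (neg_ne_zero.2 (mul_ne_zero hP23 hP2d)) (by norm_num)
  have hor : ∀ x : E, Np (crossProduct (a 2) (a 3)) x → ¬ (a 2 ⬝ᵥ x = 0 ∧ a 3 ⬝ᵥ x = 0) := by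
    rintro x hx ⟨h2, h3⟩
    apply hx
    have h4 : crossProduct (crossProduct (a 2) (a 3)) x = (a 2 ⬝ᵥ x) • a 3 - (a 3 ⬝ᵥ x) • a 2 := by
      refine ext3_4 ?_ ?_ ?_ <;>
      simp only [cr0_4, cr1_4, cr2_4, dp3, Pi.sub_apply, Pi.smul_apply, smul_eq_mul] <;> ring
    rw [h4, h2, h3]
    simp
  have f5 : {s : ℝ | det3 u0 (a 2) (a 3) + det3 v0 (a 2) (a 3) * s + 0 * s ^ 2 = 0}.Finite := by
    refine quad_finite ?_
    by_contra hcon
    push Not at hcon
    obtain ⟨h1, h2, -⟩ := hcon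
    apply hor (a 0) hd0
    have e1 : det3 u0 (a 2) (a 3) = (a 2 ⬝ᵥ a 0) * (a 3 ⬝ᵥ P2) - (a 3 ⬝ᵥ a 0) * (a 2 ⬝ᵥ P2) := by
      simp only [u0, dp3, cr0_4, cr1_4, cr2_4, det3_eq_4]; ring
    have e2 : det3 v0 (a 2) (a 3) = (a 2 ⬝ᵥ a 0) * (a 3 ⬝ᵥ P3) - (a 3 ⬝ᵥ a 0) * (a 2 ⬝ᵥ P3) := by
      simp only [v0, dp3, cr0_4, cr1_4, cr2_4, det3_eq_4]; ring
    rw [e1, hP2a, mul_zero, sub_zero] at h1
    rw [e2, hP3a, mul_zero, zero_sub, neg_eq_zero] at h2
    exact ⟨(mul_eq_zero.1 h1).resolve_right hP23, (mul_eq_zero.1 h2).resolve_right hP32⟩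
  have f6 : {s : ℝ | det3 u1 (a 2) (a 3) + det3 v1 (a 2) (a 3) * s + 0 * s ^ 2 = 0}.Finite := by
    refine quad_finite ?_
    by_contra hcon
    push Not at hcon
    obtain ⟨h1, h2, -⟩ := hcon
    apply hor (a 1) hd1
    have e1 : det3 u1 (a 2) (a 3) = (a 2 ⬝ᵥ a 1) * (a 3 ⬝ᵥ P2) - (a 3 ⬝ᵥ a 1) * (a 2 ⬝ᵥ P2) := by
      simp only [u1, dp3, cr0_4, cr1_4, cr2_4, det3_eq_4]; ring
    have e2 : det3 v1 (a 2) (a 3) =
        c * ((a 2 ⬝ᵥ a 1) * (a 3 ⬝ᵥ P3) - (a 3 ⬝ᵥ a 1) * (a 2 ⬝ᵥ P3)) := by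
      simp only [v1, dp3, cr0_4, cr1_4, cr2_4, det3_eq_4, Pi.smul_apply, smul_eq_mul]; ring
    rw [e1, hP2a, mul_zero, sub_zero] at h1
    rw [e2, hP3a, mul_zero, zero_sub] at h2
    have h3 := (mul_eq_zero.1 h2).resolve_left hcn
    rw [neg_eq_zero] at h3
    exact ⟨(mul_eq_zero.1 h1).resolve_right hP23, (mul_eq_zero.1 h3).resolve_right hP32⟩
  have f7 : (⋃ l ∈ L, {s : ℝ | ¬ Np (u0 + s • v0) l}).Finite :=
    Set.Finite.biUnion L.finite_toSet (fun l hl => np_finite huv0 (hL l hl))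
  have f8 : (⋃ l ∈ L, {s : ℝ | ¬ Np (u1 + s • v1) l}).Finite :=
    Set.Finite.biUnion L.finite_toSet (fun l hl => np_finite huv1 (hL l hl))
  obtain ⟨s, hs⟩ := (((((((f1.union f2).union f3).union f4).union f5).union f6).union f7).union
    f8).exists_notMem
  simp only [Set.mem_union, not_or] at hs
  obtain ⟨⟨⟨⟨⟨⟨⟨g1, g2⟩, g3⟩, g4⟩, g5⟩, g6⟩, g7⟩, g8⟩ := hs
  have hs0 : s ≠ 0 := g1
  set m0 : E := u0 + s • v0 with hm0
  set m1 : E := u1 + s • v1 with hm1
  have hG2 : det3 (a 0) (a 1) (P2 + (c * s) • P3) ≠ 0 := by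
    intro h
    apply g2
    rw [det3_eq_4] at h
    change det3 (a 0) (a 1) P2 + (c * det3 (a 0) (a 1) P3) * s + 0 * s ^ 2 = 0
    rw [det3_eq_4, det3_eq_4]
    simp at h
    linarith
  have hG3 : det3 m0 m1 (a 2) ≠ 0 := by
    intro h
    apply g3
    change det3 u0 u1 (a 2) + (det3 v0 u1 (a 2) + det3 u0 v1 (a 2)) * s +
      det3 v0 v1 (a 2) * s ^ 2 = 0
    refine Eq.trans ?_ h
    simp only [m0, m1, det3_eq_4, Pi.add_apply, Pi.smul_apply, smul_eq_mul]
    ring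
  have hG4 : det3 m0 m1 (a 3) ≠ 0 := by
    intro h
    apply g4
    change det3 u0 u1 (a 3) + (det3 v0 u1 (a 3) + det3 u0 v1 (a 3)) * s +
      det3 v0 v1 (a 3) * s ^ 2 = 0
    refine Eq.trans ?_ h
    simp only [m0, m1, det3_eq_4, Pi.add_apply, Pi.smul_apply, smul_eq_mul]
    ring
  have hG5 : det3 m0 (a 2) (a 3) ≠ 0 := by
    intro h
    apply g5
    change det3 u0 (a 2) (a 3) + det3 v0 (a 2) (a 3) * s + 0 * s ^ 2 = 0
    refine Eq.trans ?_ h
    simp only [m0, det3_eq_4, Pi.add_apply, Pi.smul_apply, smul_eq_mul]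
    ring
  have hG6 : det3 m1 (a 2) (a 3) ≠ 0 := by
    intro h
    apply g6
    change det3 u1 (a 2) (a 3) + det3 v1 (a 2) (a 3) * s + 0 * s ^ 2 = 0
    refine Eq.trans ?_ h
    simp only [m1, det3_eq_4, Pi.add_apply, Pi.smul_apply, smul_eq_mul]
    ring
  have hG7 : ∀ l ∈ L, Np m0 l := by
    intro l hl
    by_contra hcon
    exact g7 (Set.mem_biUnion hl hcon)
  have hG8 : ∀ l ∈ L, Np m1 l := by
    intro l hl
    by_contra hcon
    exact g8 (Set.mem_biUnion hl hcon)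
  -- the transformation
  set μ : ℝ := s / σ0 with hμ
  have hμn : μ ≠ 0 := div_ne_zero hs0 hσ0n
  set D0 : ℝ := det3 (a 0) P2 P3 with hD0d
  set D1 : ℝ := det3 (a 1) P2 P3 with hD1d
  set l0 : ℝ := - (b 2 ⬝ᵥ b 0) / (s * D0) with hl0
  set l1 : ℝ := - (b 2 ⬝ᵥ b 1) / (c * s * D1) with hl1
  have h20 : b 2 ⬝ᵥ b 0 ≠ 0 := by rw [dotProduct_comm]; exact h02
  have h21 : b 2 ⬝ᵥ b 1 ≠ 0 := by rw [dotProduct_comm]; exact h12
  have h30 : b 3 ⬝ᵥ b 0 ≠ 0 := by rw [dotProduct_comm]; exact h03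
  have h31 : b 3 ⬝ᵥ b 1 ≠ 0 := by rw [dotProduct_comm]; exact h13
  have hl0n : l0 ≠ 0 := div_ne_zero (neg_ne_zero.2 h20) (mul_ne_zero hs0 hD0)
  have hl1n : l1 ≠ 0 := div_ne_zero (neg_ne_zero.2 h21) (mul_ne_zero (mul_ne_zero hcn hs0) hD1)
  set d : ℝ := det3 (a 0) (a 1) (P2 + (c * s) • P3) with hdd
  set τ : ℝ := (Q ⬝ᵥ b 1) / (l1 * d) with hτ
  have hQ1' : Q ⬝ᵥ b 1 ≠ 0 := by rw [dotProduct_comm]; exact hQ1
  have hτn : τ ≠ 0 := div_ne_zero hQ1' (mul_ne_zero hl1n hG2)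
  have hTd : det3 P2 (μ • P3) (τ • a 0) ≠ 0 := by
    rw [det3_smul2_4, det3_smul3_4, det3_cyc_4]
    exact mul_ne_zero hμn (mul_ne_zero hτn hD0)
  obtain ⟨g, h, hgh, hgB⟩ := hE ![b 2, b 3, Q] ![P2, μ • P3, τ • a 0] (li3 hQd) (li3 hTd)
  have hg2 : g (b 2) = P2 := hgB 0
  have hg3 : g (b 3) = μ • P3 := hgB 1
  have hgQ : g Q = τ • a 0 := hgB 2
  have e0 : h (b 0) = l0 • m0 := by
    refine eq_of_dots_4 hTd ?_ ?_ ?_
    · rw [← hg2, hgh, dotProduct_smul, hg2]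
      have h1 : P2 ⬝ᵥ m0 = - (s * D0) := by
        simp only [m0, u0, v0, D0, dp3, cr0_4, cr1_4, cr2_4, det3_eq_4, Pi.add_apply, Pi.smul_apply,
          smul_eq_mul]
        ring
      rw [h1, hl0, smul_eq_mul]
      field_simp
    · rw [← hg3, hgh, hg3, smul_dotProduct, dotProduct_smul]
      have h1 : P3 ⬝ᵥ m0 = D0 := by
        simp only [m0, u0, v0, D0, dp3, cr0_4, cr1_4, cr2_4, det3_eq_4, Pi.add_apply, Pi.smul_apply,
          smul_eq_mul]
        ring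
      rw [h1, hl0, hμ, hσ0, smul_eq_mul, smul_eq_mul, dotProduct_comm (b 3) (b 0),
        dotProduct_comm (b 2) (b 0)]
      field_simp
    · rw [← hgQ, hgh, hgQ, smul_dotProduct, dotProduct_smul]
      have h1 : a 0 ⬝ᵥ m0 = 0 := by
        simp only [m0, u0, v0, dp3, cr0_4, cr1_4, cr2_4, Pi.add_apply, Pi.smul_apply,
          smul_eq_mul]
        ring
      rw [h1, dotProduct_comm, hQ0]
      simp
  have e1 : h (b 1) = l1 • m1 := by
    refine eq_of_dots_4 hTd ?_ ?_ ?_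
    · rw [← hg2, hgh, dotProduct_smul, hg2]
      have h1 : P2 ⬝ᵥ m1 = - (c * s * D1) := by
        simp only [m1, u1, v1, D1, dp3, cr0_4, cr1_4, cr2_4, det3_eq_4, Pi.add_apply, Pi.smul_apply,
          smul_eq_mul]
        ring
      rw [h1, hl1, smul_eq_mul]
      field_simp
    · rw [← hg3, hgh, hg3, smul_dotProduct, dotProduct_smul]
      have h1 : P3 ⬝ᵥ m1 = D1 := by
        simp only [m1, u1, v1, D1, dp3, cr0_4, cr1_4, cr2_4, det3_eq_4, Pi.add_apply, Pi.smul_apply,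
          smul_eq_mul]
        ring
      rw [h1, hl1, smul_eq_mul, smul_eq_mul, hμ]
      have h2 : s / σ0 * (-(b 2 ⬝ᵥ b 1) / (c * s * D1) * D1) = - (b 2 ⬝ᵥ b 1) / (σ0 * c) := by
        field_simp
      have h3 : σ0 * c = σ1 := by rw [hc]; field_simp
      rw [h2, h3, hσ1, dotProduct_comm (b 3) (b 1), dotProduct_comm (b 2) (b 1)]
      field_simp
    · rw [← hgQ, hgh, hgQ, smul_dotProduct, dotProduct_smul]
      have h1 : a 0 ⬝ᵥ m1 = d := by
        simp only [m1, u1, v1, d, dp3, cr0_4, cr1_4, cr2_4, det3_eq_4, Pi.add_apply, Pi.smul_apply,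
          smul_eq_mul]
        ring
      rw [h1, hτ, smul_eq_mul, smul_eq_mul]
      field_simp
  refine ⟨g, h, hgh, ?_, ?_, ?_, ?_, ?_, ?_, ?_, ?_⟩
  · rw [e0, dotProduct_smul]
    have h1 : a 0 ⬝ᵥ m0 = 0 := by
      simp only [m0, u0, v0, dp3, cr0_4, cr1_4, cr2_4, Pi.add_apply, Pi.smul_apply, smul_eq_mul]
      ring
    rw [h1]; simp
  · rw [e1, dotProduct_smul]
    have h1 : a 1 ⬝ᵥ m1 = 0 := by
      simp only [m1, u1, v1, dp3, cr0_4, cr1_4, cr2_4, Pi.add_apply, Pi.smul_apply, smul_eq_mul]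
      ring
    rw [h1]; simp
  · rw [hg2]; exact hP2a
  · rw [hg3, dotProduct_smul, hP3a]; simp
  · rw [hg2, hg3]
    refine ⟨hP2d, ?_, ?_, ?_⟩
    · rw [det3_smul3_4]; exact mul_ne_zero hμn hP3d
    · rw [det3_smul3_4]; exact mul_ne_zero hμn hD0
    · rw [det3_smul3_4]; exact mul_ne_zero hμn hD1
  · rw [e0, e1]
    refine ⟨?_, ?_, ?_, ?_⟩
    · rw [det3_smul1_4, det3_smul2_4]; exact mul_ne_zero hl0n (mul_ne_zero hl1n hG3)
    · rw [det3_smul1_4, det3_smul2_4]; exact mul_ne_zero hl0n (mul_ne_zero hl1n hG4)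
    · rw [det3_smul1_4]; exact mul_ne_zero hl0n hG5
    · rw [det3_smul1_4]; exact mul_ne_zero hl1n hG6
  · intro l hl
    rw [e0, e1]
    exact ⟨(hG7 l hl).smulLA4 hl0n, (hG8 l hl).smulLA4 hl1n⟩
  · intro p hp
    rw [hg2, hg3]
    exact ⟨hP2P p hp, (hP3P p hp).smulLA4 hμn⟩

theorem la4 : LA4Stmt := la4_of exDual

/-! ### Rank one tensors -/

theorem GP.swap01LA4 {a b c d : E} (h : GP a b c d) : GP b a c d := by
  obtain ⟨h1, h2, h3, h4⟩ := h
  exact ⟨by rw [det3_swap12]; exact neg_ne_zero.2 h1, by rw [det3_swap12]; exact neg_ne_zero.2 h2,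
    h4, h3⟩

theorem GP.swap12LA4 {a b c d : E} (h : GP a b c d) : GP a c b d := by
  obtain ⟨h1, h2, h3, h4⟩ := h
  exact ⟨by rw [det3_swap23]; exact neg_ne_zero.2 h1, h3, h2,
    by rw [det3_swap12]; exact neg_ne_zero.2 h4⟩

theorem GP.swap23LA4 {a b c d : E} (h : GP a b c d) : GP a b d c := by
  obtain ⟨h1, h2, h3, h4⟩ := h
  exact ⟨h2, h1, by rw [det3_swap23]; exact neg_ne_zero.2 h3,
    by rw [det3_swap23]; exact neg_ne_zero.2 h4⟩

namespace LA4

/-- the four-term relation -/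
def Rel4 (P0 P1 P2 P3 L0 L1 L2 L3 : E) (c0 c1 c2 c3 r : ℝ) (p l : E) : Prop := ∀ s t : E,
  c0 * ((s ⬝ᵥ P0) * (t ⬝ᵥ L0)) + c1 * ((s ⬝ᵥ P1) * (t ⬝ᵥ L1)) + c2 * ((s ⬝ᵥ P2) * (t ⬝ᵥ L2)) +
    c3 * ((s ⬝ᵥ P3) * (t ⬝ᵥ L3)) + r * ((s ⬝ᵥ p) * (t ⬝ᵥ l)) = 0

theorem rel4_pair {P0 P1 P2 P3 L0 L1 L2 L3 : E} {c0 c1 c2 c3 r : ℝ} {p l : E}
    (hP : GP P0 P1 P2 P3) (hL : GP L0 L1 L2 L3)
    (h : Rel4 P0 P1 P2 P3 L0 L1 L2 L3 c0 c1 c2 c3 r p l) : c0 * c1 = 0 := by
  have h1 := h (crossProduct P2 P1) (crossProduct L3 L2)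
  have h2 := h (crossProduct P0 P2) (crossProduct L3 L0)
  have h3 := h (crossProduct P2 P1) (crossProduct L3 L0)
  simp only [crossdot, det3_aab, det3_aba, det3_baa, mul_zero, zero_mul, add_zero, zero_add]
    at h1 h2 h3
  have e1 : det3 P2 P1 P0 = - det3 P0 P1 P2 := by rw [det3_eq_4, det3_eq_4]; ring
  have e2 : det3 L3 L2 L0 = - det3 L0 L2 L3 := by rw [det3_eq_4, det3_eq_4]; ring
  have e3 : det3 P0 P2 P1 = - det3 P0 P1 P2 := by rw [det3_eq_4, det3_eq_4]; ring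
  have e4 : det3 L3 L0 L1 = det3 L0 L1 L3 := by rw [det3_eq_4, det3_eq_4]; ring
  rw [e1, e2] at h1
  rw [e3, e4] at h2
  obtain ⟨p1, -, -, -⟩ := hP
  obtain ⟨-, l2, l3, -⟩ := hL
  have h4 : (c0 * c1) * (det3 P0 P1 P2 * det3 P0 P1 P2 * (det3 L0 L2 L3 * det3 L0 L1 L3)) = 0 := by
    have h5 : c0 * (-det3 P0 P1 P2 * -det3 L0 L2 L3) = - (r * (det3 P2 P1 p * det3 L3 L2 l)) := by
      linarith
    have h6 : c1 * (-det3 P0 P1 P2 * det3 L0 L1 L3) = - (r * (det3 P0 P2 p * det3 L3 L0 l)) := by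
      linarith
    have h7 : (c0 * c1) * (det3 P0 P1 P2 * det3 P0 P1 P2 * (det3 L0 L2 L3 * det3 L0 L1 L3)) =
        - ((c0 * (-det3 P0 P1 P2 * -det3 L0 L2 L3)) * (c1 * (-det3 P0 P1 P2 * det3 L0 L1 L3))) := by
      ring
    rw [h7, h5, h6]
    have h8 : r * (det3 P2 P1 p * det3 L3 L0 l) = 0 := h3
    linear_combination (- r * (det3 L3 L2 l * det3 P0 P2 p)) * h8
  refine (mul_eq_zero.1 h4).resolve_right ?_
  exact mul_ne_zero (mul_ne_zero p1 p1) (mul_ne_zero l3 l2)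

/-- a rank one tensor determines its factors -/
theorem rank1_par {P L p l : E} {c r : ℝ} (hc : c ≠ 0) (hP : P ≠ 0) (hL : L ≠ 0) (hp : p ≠ 0)
    (hl : l ≠ 0) (h : ∀ s t : E, c * ((s ⬝ᵥ P) * (t ⬝ᵥ L)) + r * ((s ⬝ᵥ p) * (t ⬝ᵥ l)) = 0) :
    ¬ Np p P ∧ ¬ Np l L := by
  have hr : r ≠ 0 := by
    rintro rfl
    have h1 := h P L
    rw [zero_mul, add_zero] at h1
    exact mul_ne_zero hc (mul_ne_zero (dp_self_pos hP).ne' (dp_self_pos hL).ne') h1
  constructor
  · intro hn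
    have h1 := h (crossProduct (crossProduct P p) P) l
    have e1 : crossProduct (crossProduct P p) P ⬝ᵥ P = 0 := by
      simp only [dp3, cr0_4, cr1_4, cr2_4]; ring
    have e2 : crossProduct (crossProduct P p) P ⬝ᵥ p = crossProduct p P ⬝ᵥ crossProduct p P := by
      simp only [dp3, cr0_4, cr1_4, cr2_4]; ring
    rw [e1, e2, zero_mul, mul_zero, zero_add] at h1
    exact mul_ne_zero hr (mul_ne_zero (dp_self_pos hn).ne' (dp_self_pos hl).ne') h1
  · intro hn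
    have h1 := h p (crossProduct (crossProduct L l) L)
    have e1 : crossProduct (crossProduct L l) L ⬝ᵥ L = 0 := by
      simp only [dp3, cr0_4, cr1_4, cr2_4]; ring
    have e2 : crossProduct (crossProduct L l) L ⬝ᵥ l = crossProduct l L ⬝ᵥ crossProduct l L := by
      simp only [dp3, cr0_4, cr1_4, cr2_4]; ring
    rw [e1, e2, mul_zero, mul_zero, zero_add] at h1
    exact mul_ne_zero hr (mul_ne_zero (dp_self_pos hp).ne' (dp_self_pos hn).ne') h1

theorem det3_ne {a b c : E} (h : det3 a b c ≠ 0) : a ≠ 0 ∧ b ≠ 0 ∧ c ≠ 0 := by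
  refine ⟨?_, ?_, ?_⟩ <;> rintro rfl <;> apply h <;> rw [det3_eq_4] <;> simp

end LA4

theorem rank4 : Rank4Stmt := by
  intro P L hP hL c r p l hp hl h
  have hR : Rel4 (P 0) (P 1) (P 2) (P 3) (L 0) (L 1) (L 2) (L 3) (c 0) (c 1) (c 2) (c 3) r p l := by
    intro s t
    have := h s t
    rw [Fin.sum_univ_four] at this
    exact this
  have h01 : c 0 * c 1 = 0 := rel4_pair hP hL hR
  have h02 : c 0 * c 2 = 0 := by
    refine rel4_pair (P2 := P 1) (P3 := P 3) (L2 := L 1) (L3 := L 3) (c2 := c 1) (c3 := c 3)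
      hP.swap12LA4 hL.swap12LA4 ?_ (r := r) (p := p) (l := l)
    intro s t
    linarith [hR s t]
  have h03 : c 0 * c 3 = 0 := by
    refine rel4_pair (P2 := P 1) (P3 := P 2) (L2 := L 1) (L3 := L 2) (c2 := c 1) (c3 := c 2)
      hP.swap23LA4.swap12LA4 hL.swap23LA4.swap12LA4 ?_ (r := r) (p := p) (l := l)
    intro s t
    linarith [hR s t]
  have h12 : c 1 * c 2 = 0 := by
    refine rel4_pair (P2 := P 0) (P3 := P 3) (L2 := L 0) (L3 := L 3) (c2 := c 0) (c3 := c 3)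
      hP.swap01LA4.swap12LA4 hL.swap01LA4.swap12LA4 ?_ (r := r) (p := p) (l := l)
    intro s t
    linarith [hR s t]
  have h13 : c 1 * c 3 = 0 := by
    refine rel4_pair (P2 := P 0) (P3 := P 2) (L2 := L 0) (L3 := L 2) (c2 := c 0) (c3 := c 2)
      hP.swap01LA4.swap23LA4.swap12LA4 hL.swap01LA4.swap23LA4.swap12LA4 ?_ (r := r) (p := p) (l := l)
    intro s t
    linarith [hR s t]
  have h23 : c 2 * c 3 = 0 := by
    refine rel4_pair (P2 := P 0) (P3 := P 1) (L2 := L 0) (L3 := L 1) (c2 := c 0) (c3 := c 1)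
      hP.swap12LA4.swap01LA4.swap23LA4.swap12LA4 hL.swap12LA4.swap01LA4.swap23LA4.swap12LA4 ?_ (r := r) (p := p) (l := l)
    intro s t
    linarith [hR s t]
  have n0 := (det3_ne hP.1).1
  have n1 := (det3_ne hP.1).2.1
  have n2 := (det3_ne hP.1).2.2
  have n3 := (det3_ne hP.2.1).2.2
  have k0 := (det3_ne hL.1).1
  have k1 := (det3_ne hL.1).2.1
  have k2 := (det3_ne hL.1).2.2
  have k3 := (det3_ne hL.2.1).2.2
  by_cases z0 : c 0 = 0
  · by_cases z1 : c 1 = 0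
    · by_cases z2 : c 2 = 0
      · by_cases z3 : c 3 = 0
        · left
          refine ⟨?_, ?_⟩
          · have := hR p l
            rw [z0, z1, z2, z3] at this
            simp only [zero_mul, zero_add] at this
            exact (mul_eq_zero.1 this).resolve_right
              (mul_ne_zero (dp_self_pos hp).ne' (dp_self_pos hl).ne')
          · intro i
            fin_cases i
            · exact z0
            · exact z1
            · exact z2
            · exact z3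
        · right
          refine ⟨3, rank1_par z3 n3 k3 hp hl (r := r) ?_⟩
          intro s t
          have := hR s t
          rw [z0, z1, z2] at this
          linarith
      · right
        have z3 : c 3 = 0 := (mul_eq_zero.1 h23).resolve_left z2
        refine ⟨2, rank1_par z2 n2 k2 hp hl (r := r) ?_⟩
        intro s t
        have := hR s t
        rw [z0, z1, z3] at this
        linarith
    · right
      have z2 : c 2 = 0 := (mul_eq_zero.1 h12).resolve_left z1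
      have z3 : c 3 = 0 := (mul_eq_zero.1 h13).resolve_left z1
      refine ⟨1, rank1_par z1 n1 k1 hp hl (r := r) ?_⟩
      intro s t
      have := hR s t
      rw [z0, z2, z3] at this
      linarith
  · right
    have z1 : c 1 = 0 := (mul_eq_zero.1 h01).resolve_left z0
    have z2 : c 2 = 0 := (mul_eq_zero.1 h02).resolve_left z0
    have z3 : c 3 = 0 := (mul_eq_zero.1 h03).resolve_left z0
    refine ⟨0, rank1_par z0 n0 k0 hp hl (r := r) ?_⟩
    intro s t
    have := hR s t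
    rw [z1, z2, z3] at this
    linarith

end N3
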