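import Pool.Agent.Lib_n3.HexNodes

/-!
# The theorems of the tools, from the pattern theorems (MP_07e12a_co)
-/

open Finset

set_option linter.unusedSectionVars false

namespace N3

namespace HC

/-- well-formed pattern: edges in range, every vertex has degree 2 or 3 -/
def ok (P : Pat) : Bool :=
  P.es.all (fun e => Nat.blt e.1 P.m && Nat.blt e.2 P.m) &&
  (List.range P.m).all (fun i => (P.nb i).length == 2 || (P.nb i).length == 3)

theorem adj_comm (P : Pat) (i j : ℕ) : P.adj i j = P.adj j i := by
  unfold Pat.adj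
  exact Bool.or_comm _ _

theorem kadj_comm (P : Pat) (a b : ℕ) : P.kadj a b = P.kadj b a := by
  unfold Pat.kadj
  congr 1
  funext e
  exact Bool.or_comm _ _

theorem mem_nb (P : Pat) (i j : ℕ) : j ∈ P.nb i ↔ j < P.m ∧ P.adj i j = true := by
  unfold Pat.nb
  simp

theorem host_lt (P : Pat) (h : ℕ) (hh : P.host h = true) : h < P.m ∧ (P.nb h).length = 2 := by
  unfold Pat.host at hh
  simpa using hh

theorem mem_pairs (P : Pat) (i j : ℕ) (hi : P.host i = true) (hj : P.host j = true) (h : i < j) :
    (i, j) ∈ P.pairs := by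
  unfold Pat.pairs
  simp only [List.mem_flatMap, List.mem_map, List.mem_filter, List.mem_range]
  refine ⟨i, (host_lt P i hi).1, j, ⟨(host_lt P j hj).1, ?_⟩, rfl⟩
  have : Nat.blt i j = true := by rw [Nat.blt_eq]; exact h
  simp [this, hi, hj]

section
variable {V : Type} [Fintype V] [DecidableEq V] {G : SimpleGraph V} {side : V → Bool}

/-- a set of `k` neighbours of `v` in a cubic graph has `k ≤ 3`, and is everything if `k = 3` -/
theorem third (hL : Lev G side) (v : V) (S : Finset V) (hS : ∀ x ∈ S, G.Adj v x) (hc : S.card = 2) :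
    ∃ y, G.Adj v y ∧ y ∉ S ∧ ∀ z, G.Adj v z → z ∈ S ∨ z = y := by
  classical
  have h3 := hL.cubic v
  unfold dg at h3
  set N := univ.filter (fun u => G.Adj v u) with hN
  have hsub : S ⊆ N := by
    intro x hx
    simp only [hN, mem_filter, mem_univ, true_and]
    exact hS x hx
  have hd : (N \ S).card = 1 := by
    rw [Finset.card_sdiff_of_subset hsub]
    omega
  obtain ⟨y, hy⟩ := Finset.card_eq_one.1 hd
  have hy' : y ∈ N \ S := by rw [hy]; simp
  rw [Finset.mem_sdiff] at hy'
  refine ⟨y, by simpa [hN] using hy'.1, hy'.2, ?_⟩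
  intro z hz
  by_cases hzS : z ∈ S
  · exact Or.inl hzS
  · right
    have : z ∈ N \ S := by
      rw [Finset.mem_sdiff]
      exact ⟨by simpa [hN] using hz, hzS⟩
    rw [hy] at this
    simpa using this

theorem full3 (hL : Lev G side) (v : V) (S : Finset V) (hS : ∀ x ∈ S, G.Adj v x) (hc : S.card = 3)
    (z : V) (hz : G.Adj v z) : z ∈ S := by
  classical
  have h3 := hL.cubic v
  unfold dg at h3
  set N := univ.filter (fun u => G.Adj v u) with hN
  have hsub : S ⊆ N := by
    intro x hx
    simp only [hN, mem_filter, mem_univ, true_and]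
    exact hS x hx
  have : S = N := Finset.eq_of_subset_of_card_le hsub (by omega)
  rw [this]
  simpa [hN] using hz

variable {P : Pat} {f : ℕ → V}

theorem adj_of (hf : ∀ e ∈ P.es, G.Adj (f e.1) (f e.2)) {i j : ℕ} (h : P.adj i j = true) :
    G.Adj (f i) (f j) := by
  unfold Pat.adj at h
  rw [Bool.or_eq_true] at h
  rcases h with h | h
  · exact hf (i, j) (by simpa using h)
  · exact (hf (j, i) (by simpa using h)).symm

theorem img_card (hinj : ∀ i < P.m, ∀ j < P.m, f i = f j → i = j) (i : ℕ) :
    ((P.nb i).map f).toFinset.card = (P.nb i).length := by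
  have hnd : ((P.nb i).map f).Nodup := by
    rw [List.nodup_map_iff_inj_on]
    · intro x hx y hy hxy
      exact hinj x ((mem_nb P i x).1 hx).1 y ((mem_nb P i y).1 hy).1 hxy
    · unfold Pat.nb
      exact List.Nodup.filter _ List.nodup_range
  rw [List.toFinset_card_of_nodup hnd, List.length_map]

theorem exists_t (hL : Lev G side) (hinj : ∀ i < P.m, ∀ j < P.m, f i = f j → i = j)
    (hf : ∀ e ∈ P.es, G.Adj (f e.1) (f e.2)) (h : ℕ) (hh : P.host h = true) :
    ∃ y, G.Adj (f h) y ∧ (∀ a, a ∈ P.nb h → y ≠ f a) ∧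
      ∀ z, G.Adj (f h) z → (∃ a ∈ P.nb h, z = f a) ∨ z = y := by
  obtain ⟨y, h1, h2, h3⟩ := third hL (f h) ((P.nb h).map f).toFinset (by
    intro x hx
    simp only [List.mem_toFinset, List.mem_map] at hx
    obtain ⟨a, ha, rfl⟩ := hx
    exact adj_of hf ((mem_nb P h a).1 ha).2) (by rw [img_card hinj]; exact (host_lt P h hh).2)
  refine ⟨y, h1, ?_, ?_⟩
  · intro a ha hya
    apply h2
    simp only [List.mem_toFinset, List.mem_map]
    exact ⟨a, ha, hya.symm⟩
  · intro z hz
    rcases h3 z hz with h | h
    · left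
      simp only [List.mem_toFinset, List.mem_map] at h
      obtain ⟨a, ha, rfl⟩ := h
      exact ⟨a, ha, rfl⟩
    · exact Or.inr h

/-- the neighbours of a vertex of degree 3 in the pattern -/
theorem nonhost (hL : Lev G side) (hinj : ∀ i < P.m, ∀ j < P.m, f i = f j → i = j)
    (hf : ∀ e ∈ P.es, G.Adj (f e.1) (f e.2)) (hok : ok P = true) (i : ℕ) (hi : i < P.m)
    (hh : P.host i = false) (z : V) (hz : G.Adj (f i) z) : ∃ a ∈ P.nb i, z = f a := by
  have hl : (P.nb i).length = 3 := by
    unfold ok at hok
    rw [Bool.and_eq_true, List.all_eq_true] at hok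
    have := List.all_eq_true.1 hok.2 i (List.mem_range.2 hi)
    unfold Pat.host at hh
    simp only [hi, decide_true, Bool.true_and] at hh
    rw [hh] at this
    simpa using this
  have := full3 hL (f i) ((P.nb i).map f).toFinset (by
    intro x hx
    simp only [List.mem_toFinset, List.mem_map] at hx
    obtain ⟨a, ha, rfl⟩ := hx
    exact adj_of hf ((mem_nb P i a).1 ha).2) (by rw [img_card hinj]; exact hl) z hz
  simp only [List.mem_toFinset, List.mem_map] at this
  obtain ⟨a, ha, rfl⟩ := this
  exact ⟨a, ha, rfl⟩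

/-- assignment extending `f` by three further values -/
def asg3 (m : ℕ) (f : ℕ → V) (x y z : V) (i : ℕ) : V :=
  if i < m then f i else if i = m then x else if i = m + 1 then y else z

theorem asg3_lt {m : ℕ} (f : ℕ → V) (x y z : V) {i : ℕ} (h : i < m) : asg3 m f x y z i = f i := by
  simp [asg3, h]

theorem asg3_0 {m : ℕ} (f : ℕ → V) (x y z : V) : asg3 m f x y z m = x := by
  simp [asg3]

theorem asg3_1 {m : ℕ} (f : ℕ → V) (x y z : V) : asg3 m f x y z (m + 1) = y := by
  simp [asg3]

theorem asg3_2 {m : ℕ} (f : ℕ → V) (x y z : V) : asg3 m f x y z (m + 2) = z := by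
  simp [asg3]

/-- no blocker: the pattern is embedded in the sense of `Emb` -/
theorem emb_of (hL : Lev G side) (hok : ok P = true)
    (hinj : ∀ i < P.m, ∀ j < P.m, f i = f j → i = j)
    (hf : ∀ e ∈ P.es, G.Adj (f e.1) (f e.2))
    (hb : ∀ b ∈ P.bl, ¬ ∃ asg' : ℕ → V, (∀ i < P.m, asg' i = f i) ∧ FormHolds G asg' b) :
    ∃ t : ℕ → V, Emb G P f t := by
  classical
  have : Nonempty V := ⟨f 0⟩
  have hex := fun h hh => exists_t (P := P) hL hinj hf h hh
  choose! t ht1 ht2 ht3 using hex
  have out : ∀ h, P.host h = true → ∀ i < P.m, t h ≠ f i := by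
    intro h hh i hi heq
    have hadj : G.Adj (f h) (f i) := heq ▸ ht1 h hh
    have hin : i ∉ P.nb h := fun hin => ht2 h hh i hin heq
    have hnadj : P.adj h i = false := by
      by_contra hc
      rw [Bool.not_eq_false] at hc
      exact hin ((mem_nb P h i).2 ⟨hi, hc⟩)
    have hhm := (host_lt P h hh).1
    by_cases hhi : P.host i = true
    · have hne : h ≠ i := by
        rintro rfl
        exact hadj.ne rfl
      rcases lt_or_gt_of_ne hne with hlt | hlt
      · refine hb [⟨h, i, []⟩] ?_ ⟨f, fun _ _ => rfl, ?_⟩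
        · unfold Pat.bl
          refine List.mem_append_left _ (List.mem_append_left _ (List.mem_append_left _ ?_))
          refine List.mem_map.2 ⟨(h, i), ?_, rfl⟩
          refine List.mem_filter.2 ⟨mem_pairs P h i hh hhi hlt, ?_⟩
          simp [hnadj]
        · intro q hq
          simp only [List.mem_singleton] at hq
          subst hq
          exact ⟨hadj, by simp⟩
      · refine hb [⟨i, h, []⟩] ?_ ⟨f, fun _ _ => rfl, ?_⟩
        · unfold Pat.bl
          refine List.mem_append_left _ (List.mem_append_left _ (List.mem_append_left _ ?_))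
          refine List.mem_map.2 ⟨(i, h), ?_, rfl⟩
          refine List.mem_filter.2 ⟨mem_pairs P i h hhi hh hlt, ?_⟩
          simp [adj_comm P i h, hnadj]
        · intro q hq
          simp only [List.mem_singleton] at hq
          subst hq
          exact ⟨hadj.symm, by simp⟩
    · obtain ⟨a, ha, hfa⟩ := nonhost hL hinj hf hok i hi (by simpa using hhi) (f h) hadj.symm
      obtain ⟨ha1, ha2⟩ := (mem_nb P i a).1 ha
      have : h = a := hinj h hhm a ha1 hfa
      subst this
      rw [adj_comm, hnadj] at ha2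
      exact absurd ha2 (by simp)
  have dis : ∀ h h', P.host h = true → P.host h' = true → h ≠ h' → t h ≠ t h' := by
    have key : ∀ h h', P.host h = true → P.host h' = true → h < h' → t h ≠ t h' := by
      intro h h' hh hh' hlt heq
      refine hb [⟨h, P.m, List.range P.m⟩, ⟨h', P.m, []⟩] ?_
        ⟨asg3 P.m f (t h) (t h) (t h), fun i hi => asg3_lt _ _ _ _ hi, ?_⟩
      · unfold Pat.bl
        refine List.mem_append_left _ (List.mem_append_left _ (List.mem_append_right _ ?_))
        exact List.mem_map.2 ⟨(h, h'), mem_pairs P h h' hh hh' hlt, rfl⟩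
      · intro q hq
        simp only [List.mem_cons, List.not_mem_nil, or_false] at hq
        rcases hq with rfl | rfl
        · refine ⟨?_, ?_⟩
          · show G.Adj (asg3 P.m f (t h) (t h) (t h) h) (asg3 P.m f (t h) (t h) (t h) P.m)
            rw [asg3_lt _ _ _ _ (host_lt P h hh).1, asg3_0]
            exact ht1 h hh
          · intro e he
            show asg3 P.m f (t h) (t h) (t h) P.m ≠ asg3 P.m f (t h) (t h) (t h) e
            rw [asg3_lt _ _ _ _ (List.mem_range.1 he), asg3_0]
            exact out h hh e (List.mem_range.1 he)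
        · refine ⟨?_, by simp⟩
          show G.Adj (asg3 P.m f (t h) (t h) (t h) h') (asg3 P.m f (t h) (t h) (t h) P.m)
          rw [asg3_lt _ _ _ _ (host_lt P h' hh').1, asg3_0, heq]
          exact ht1 h' hh'
    intro h h' hh hh' hne
    rcases lt_or_gt_of_ne hne with hlt | hlt
    · exact key h h' hh hh' hlt
    · exact (key h' h hh' hh hlt).symm
  have nadj : ∀ h h', P.host h = true → P.host h' = true → P.kadj (P.c h) (P.c h') = true →
      ¬ G.Adj (t h) (t h') := by
    have key : ∀ h h', P.host h = true → P.host h' = true → h < h' →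
        P.kadj (P.c h) (P.c h') = true → ¬ G.Adj (t h) (t h') := by
      intro h h' hh hh' hlt hk hadj
      refine hb [⟨h, P.m, List.range P.m⟩, ⟨h', P.m + 1, List.range P.m⟩, ⟨P.m, P.m + 1, []⟩] ?_
        ⟨asg3 P.m f (t h) (t h') (t h), fun i hi => asg3_lt _ _ _ _ hi, ?_⟩
      · unfold Pat.bl
        refine List.mem_append_left _ (List.mem_append_right _ ?_)
        refine List.mem_map.2 ⟨(h, h'), ?_, rfl⟩
        exact List.mem_filter.2 ⟨mem_pairs P h h' hh hh' hlt, hk⟩
      · intro q hq
        simp only [List.mem_cons, List.not_mem_nil, or_false] at hq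
        rcases hq with rfl | rfl | rfl
        · refine ⟨?_, ?_⟩
          · show G.Adj (asg3 P.m f (t h) (t h') (t h) h) (asg3 P.m f (t h) (t h') (t h) P.m)
            rw [asg3_lt _ _ _ _ (host_lt P h hh).1, asg3_0]
            exact ht1 h hh
          · intro e he
            show asg3 P.m f (t h) (t h') (t h) P.m ≠ asg3 P.m f (t h) (t h') (t h) e
            rw [asg3_lt _ _ _ _ (List.mem_range.1 he), asg3_0]
            exact out h hh e (List.mem_range.1 he)
        · refine ⟨?_, ?_⟩
          · show G.Adj (asg3 P.m f (t h) (t h') (t h) h') (asg3 P.m f (t h) (t h') (t h) (P.m + 1))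
            rw [asg3_lt _ _ _ _ (host_lt P h' hh').1, asg3_1]
            exact ht1 h' hh'
          · intro e he
            show asg3 P.m f (t h) (t h') (t h) (P.m + 1) ≠ asg3 P.m f (t h) (t h') (t h) e
            rw [asg3_lt _ _ _ _ (List.mem_range.1 he), asg3_1]
            exact out h' hh' e (List.mem_range.1 he)
        · refine ⟨?_, by simp⟩
          show G.Adj (asg3 P.m f (t h) (t h') (t h) P.m) (asg3 P.m f (t h) (t h') (t h) (P.m + 1))
          rw [asg3_0, asg3_1]
          exact hadj
    intro h h' hh hh' hk hadj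
    rcases lt_trichotomy h h' with hlt | heq | hlt
    · exact key h h' hh hh' hlt hk hadj
    · subst heq
      exact hadj.ne rfl
    · exact key h' h hh' hh hlt (by rw [kadj_comm]; exact hk) hadj.symm
  have hostnb : ∀ e, e < P.m → ∀ h, P.host h = true → G.Adj (t h) (f e) → e = h := by
    intro e he h hh hadj
    by_cases hhe : P.host e = true
    · rcases ht3 e hhe (t h) hadj.symm with ⟨a, ha, hta⟩ | heq
      · exact absurd hta (out h hh a ((mem_nb P e a).1 ha).1)
      · by_contra hne
        exact dis h e hh hhe (fun h' => hne h'.symm) heq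
    · obtain ⟨a, ha, hta⟩ := nonhost hL hinj hf hok e he (by simpa using hhe) (t h) hadj.symm
      exact absurd hta (out h hh a ((mem_nb P e a).1 ha).1)
  have ncom : ∀ h h', P.host h = true → P.host h' = true → h ≠ h' → P.c h = P.c h' →
      ∀ z, ¬ (G.Adj (t h) z ∧ G.Adj (t h') z) := by
    have key : ∀ h h', P.host h = true → P.host h' = true → h < h' → P.c h = P.c h' →
        ∀ z, ¬ (G.Adj (t h) z ∧ G.Adj (t h') z) := by
      rintro h h' hh hh' hlt hc z ⟨hz, hz'⟩
      have hzf : ∀ e < P.m, z ≠ f e := by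
        intro e he hze
        have e1 := hostnb e he h hh (hze ▸ hz)
        have e2 := hostnb e he h' hh' (hze ▸ hz')
        omega
      refine hb [⟨h, P.m, List.range P.m⟩, ⟨h', P.m + 1, List.range P.m ++ [P.m]⟩,
        ⟨P.m, P.m + 2, List.range P.m⟩, ⟨P.m + 1, P.m + 2, []⟩] ?_
        ⟨asg3 P.m f (t h) (t h') z, fun i hi => asg3_lt _ _ _ _ hi, ?_⟩
      · unfold Pat.bl
        refine List.mem_append_right _ ?_
        refine List.mem_map.2 ⟨(h, h'), ?_, rfl⟩
        exact List.mem_filter.2 ⟨mem_pairs P h h' hh hh' hlt, by simpa using hc⟩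
      · intro q hq
        simp only [List.mem_cons, List.not_mem_nil, or_false] at hq
        rcases hq with rfl | rfl | rfl | rfl
        · refine ⟨?_, ?_⟩
          · show G.Adj (asg3 P.m f (t h) (t h') z h) (asg3 P.m f (t h) (t h') z P.m)
            rw [asg3_lt _ _ _ _ (host_lt P h hh).1, asg3_0]
            exact ht1 h hh
          · intro e he
            show asg3 P.m f (t h) (t h') z P.m ≠ asg3 P.m f (t h) (t h') z e
            rw [asg3_lt _ _ _ _ (List.mem_range.1 he), asg3_0]
            exact out h hh e (List.mem_range.1 he)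
        · refine ⟨?_, ?_⟩
          · show G.Adj (asg3 P.m f (t h) (t h') z h') (asg3 P.m f (t h) (t h') z (P.m + 1))
            rw [asg3_lt _ _ _ _ (host_lt P h' hh').1, asg3_1]
            exact ht1 h' hh'
          · intro e he
            show asg3 P.m f (t h) (t h') z (P.m + 1) ≠ asg3 P.m f (t h) (t h') z e
            rcases List.mem_append.1 he with he | he
            · rw [asg3_lt _ _ _ _ (List.mem_range.1 he), asg3_1]
              exact out h' hh' e (List.mem_range.1 he)
            · rw [List.mem_singleton.1 he, asg3_0, asg3_1]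
              exact dis h' h hh' hh (by omega)
        · refine ⟨?_, ?_⟩
          · show G.Adj (asg3 P.m f (t h) (t h') z P.m) (asg3 P.m f (t h) (t h') z (P.m + 2))
            rw [asg3_0, asg3_2]
            exact hz
          · intro e he
            show asg3 P.m f (t h) (t h') z (P.m + 2) ≠ asg3 P.m f (t h) (t h') z e
            rw [asg3_lt _ _ _ _ (List.mem_range.1 he), asg3_2]
            exact hzf e (List.mem_range.1 he)
        · refine ⟨?_, by simp⟩
          show G.Adj (asg3 P.m f (t h) (t h') z (P.m + 1)) (asg3 P.m f (t h) (t h') z (P.m + 2))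
          rw [asg3_1, asg3_2]
          exact hz'
    rintro h h' hh hh' hne hc z ⟨hz, hz'⟩
    rcases lt_or_gt_of_ne hne with hlt | hlt
    · exact key h h' hh hh' hlt hc z ⟨hz, hz'⟩
    · exact key h' h hh' hh hlt hc.symm z ⟨hz', hz⟩
  exact ⟨t, hinj, hf, ht1, out, dis, nadj, ncom⟩

end

theorem toolThm_of (P : Pat) (ex : List Form) (hok : ok P = true)
    (h : ∀ (V : Type) [Fintype V] [DecidableEq V] (G : SimpleGraph V) (side : V → Bool), Lev G side →
      Cyc5 G → ∀ f t, Emb G P f t →
      (∀ b ∈ ex, ¬ ∃ asg' : ℕ → V, (∀ i < P.m, asg' i = f i) ∧ FormHolds G asg' b) →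
        ∃ ρ, Exact G side ρ) : ToolThm (P.tool ex) := by
  intro V _ _ G side hL h5 _ asg hinj hpat hbl
  have hf : ∀ e ∈ P.es, G.Adj (asg e.1) (asg e.2) := by
    intro e he
    exact (hpat ⟨e.1, e.2, []⟩ (List.mem_map.2 ⟨e, he, rfl⟩)).1
  obtain ⟨t, ht⟩ := emb_of (P := P) hL hok hinj hf (fun b hb => hbl b (List.mem_append_left _ hb))
  exact h V G side hL h5 asg t ht (fun b hb => hbl b (List.mem_append_right _ hb))

theorem std_tool (hS : StdPatStmt) :
    ToolThm (pSTD.tool [[⟨0, 6, List.range 6⟩, ⟨3, 7, List.range 6⟩, ⟨6, 7, []⟩]]) := by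
  refine toolThm_of pSTD _ (by decide +kernel) ?_
  intro V _ _ G side hL h5 f t he hb
  refine hS V G side hL h5 f t he ?_
  intro hadj
  refine hb _ (List.mem_singleton.2 rfl) ⟨asg3 6 f (t 0) (t 3) (t 0), fun i hi => asg3_lt _ _ _ _ hi, ?_⟩
  have h0 : pSTD.host 0 = true := by decide +kernel
  have h3 : pSTD.host 3 = true := by decide +kernel
  intro q hq
  simp only [List.mem_cons, List.not_mem_nil, or_false] at hq
  rcases hq with rfl | rfl | rfl
  · refine ⟨?_, ?_⟩
    · show G.Adj (asg3 6 f (t 0) (t 3) (t 0) 0) (asg3 6 f (t 0) (t 3) (t 0) 6)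
      rw [asg3_lt _ _ _ _ (by norm_num), asg3_0]
      exact he.att 0 h0
    · intro e hem
      show asg3 6 f (t 0) (t 3) (t 0) 6 ≠ asg3 6 f (t 0) (t 3) (t 0) e
      rw [asg3_lt _ _ _ _ (List.mem_range.1 hem), asg3_0]
      exact he.out 0 h0 e (List.mem_range.1 hem)
  · refine ⟨?_, ?_⟩
    · show G.Adj (asg3 6 f (t 0) (t 3) (t 0) 3) (asg3 6 f (t 0) (t 3) (t 0) (6 + 1))
      rw [asg3_lt _ _ _ _ (by norm_num), asg3_1]
      exact he.att 3 h3
    · intro e hem
      show asg3 6 f (t 0) (t 3) (t 0) (6 + 1) ≠ asg3 6 f (t 0) (t 3) (t 0) e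
      rw [asg3_lt _ _ _ _ (List.mem_range.1 hem), asg3_1]
      exact he.out 3 h3 e (List.mem_range.1 hem)
  · refine ⟨?_, by simp⟩
    show G.Adj (asg3 6 f (t 0) (t 3) (t 0) 6) (asg3 6 f (t 0) (t 3) (t 0) (6 + 1))
    rw [asg3_0, asg3_1]
    exact hadj

theorem perf_tool (hP : PerfectStmt) (P : Pat) (hmem : P ∈ [pTHETA, pL3, pE10, pD20])
    (hok : ok P = true) : ToolThm (P.tool []) :=
  toolThm_of P [] hok (fun V _ _ G side hL h5 f t he _ => hP V G side hL h5 P hmem f t he)

/-- the third neighbour of a host is adjacent to no other pattern vertex -/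
theorem att_nb {V : Type} [Fintype V] [DecidableEq V] {G : SimpleGraph V} {side : V → Bool}
    (hL : Lev G side) {P : Pat} (hok : ok P = true) {f t : ℕ → V} (he : Emb G P f t)
    (e : ℕ) (hem : e < P.m) (h : ℕ) (hh : P.host h = true) (hadj : G.Adj (t h) (f e)) : e = h := by
  classical
  by_cases hhe : P.host e = true
  · have hmem := full3 hL (f e) (insert (t e) ((P.nb e).map f).toFinset) (by
      intro x hx
      rw [Finset.mem_insert] at hx
      rcases hx with rfl | hx
      · exact he.att e hhe
      · simp only [List.mem_toFinset, List.mem_map] at hx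
        obtain ⟨a, ha, rfl⟩ := hx
        exact adj_of he.adj ((mem_nb P e a).1 ha).2) (by
      rw [Finset.card_insert_of_notMem, img_card he.inj, (host_lt P e hhe).2]
      intro hx
      simp only [List.mem_toFinset, List.mem_map] at hx
      obtain ⟨a, ha, hta⟩ := hx
      exact he.out e hhe a ((mem_nb P e a).1 ha).1 hta.symm) (t h) hadj.symm
    rw [Finset.mem_insert] at hmem
    rcases hmem with heq | hx
    · by_contra hne
      exact he.dis h e hh hhe (fun h' => hne h'.symm) heq
    · simp only [List.mem_toFinset, List.mem_map] at hx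
      obtain ⟨a, ha, hta⟩ := hx
      exact absurd hta.symm (he.out h hh a ((mem_nb P e a).1 ha).1)
  · obtain ⟨a, ha, hta⟩ := nonhost hL he.inj he.adj hok e hem (by simpa using hhe) (t h) hadj.symm
    exact absurd hta (he.out h hh a ((mem_nb P e a).1 ha).1)

/-- the assignment for the star -/
def asg4 {V : Type} (f : ℕ → V) (x y z v : V) (i : ℕ) : V :=
  if i < 10 then f i else if i = 10 then x else if i = 11 then y else if i = 12 then z else v

theorem k4_tool (hK : K4Stmt) : ToolThm (pK4.tool [star]) := by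
  have hok : ok pK4 = true := by decide +kernel
  refine toolThm_of pK4 _ hok ?_
  intro V _ _ G side hL h5 f t he hb
  refine hK V G side hL h5 f t he ?_
  rintro v ⟨h2v, h6v, h9v⟩
  have h2 : pK4.host 2 = true := by decide +kernel
  have h6 : pK4.host 6 = true := by decide +kernel
  have h9 : pK4.host 9 = true := by decide +kernel
  have hm : pK4.m = 10 := rfl
  have hv : ∀ e < 10, v ≠ f e := by
    intro e hem hve
    have e1 := att_nb hL hok he e (by rw [hm]; exact hem) 2 h2 (hve ▸ h2v)
    have e2 := att_nb hL hok he e (by rw [hm]; exact hem) 6 h6 (hve ▸ h6v)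
    omega
  have hlt : ∀ i < 10, asg4 f (t 2) (t 6) (t 9) v i = f i := by
    intro i hi
    simp [asg4, hi]
  have a10 : asg4 f (t 2) (t 6) (t 9) v 10 = t 2 := by simp [asg4]
  have a11 : asg4 f (t 2) (t 6) (t 9) v 11 = t 6 := by simp [asg4]
  have a12 : asg4 f (t 2) (t 6) (t 9) v 12 = t 9 := by simp [asg4]
  have a13 : asg4 f (t 2) (t 6) (t 9) v 13 = v := by simp [asg4]
  refine hb _ (List.mem_singleton.2 rfl) ⟨asg4 f (t 2) (t 6) (t 9) v, fun i hi => hlt i hi, ?_⟩
  intro q hq
  simp only [star, List.mem_cons, List.not_mem_nil, or_false] at hq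
  rcases hq with rfl | rfl | rfl | rfl | rfl | rfl
  · refine ⟨?_, ?_⟩
    · show G.Adj (asg4 f (t 2) (t 6) (t 9) v 2) (asg4 f (t 2) (t 6) (t 9) v 10)
      rw [hlt 2 (by norm_num), a10]
      exact he.att 2 h2
    · intro e hem
      show asg4 f (t 2) (t 6) (t 9) v 10 ≠ asg4 f (t 2) (t 6) (t 9) v e
      rw [hlt e (List.mem_range.1 hem), a10]
      exact he.out 2 h2 e (List.mem_range.1 hem)
  · refine ⟨?_, ?_⟩
    · show G.Adj (asg4 f (t 2) (t 6) (t 9) v 6) (asg4 f (t 2) (t 6) (t 9) v 11)
      rw [hlt 6 (by norm_num), a11]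
      exact he.att 6 h6
    · intro e hem
      show asg4 f (t 2) (t 6) (t 9) v 11 ≠ asg4 f (t 2) (t 6) (t 9) v e
      rcases List.mem_append.1 hem with hem | hem
      · rw [hlt e (List.mem_range.1 hem), a11]
        exact he.out 6 h6 e (List.mem_range.1 hem)
      · rw [List.mem_singleton.1 hem, a10, a11]
        exact he.dis 6 2 h6 h2 (by norm_num)
  · refine ⟨?_, ?_⟩
    · show G.Adj (asg4 f (t 2) (t 6) (t 9) v 9) (asg4 f (t 2) (t 6) (t 9) v 12)
      rw [hlt 9 (by norm_num), a12]
      exact he.att 9 h9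
    · intro e hem
      show asg4 f (t 2) (t 6) (t 9) v 12 ≠ asg4 f (t 2) (t 6) (t 9) v e
      rcases List.mem_append.1 hem with hem | hem
      · rw [hlt e (List.mem_range.1 hem), a12]
        exact he.out 9 h9 e (List.mem_range.1 hem)
      · simp only [List.mem_cons, List.not_mem_nil, or_false] at hem
        rcases hem with rfl | rfl
        · rw [a10, a12]
          exact he.dis 9 2 h9 h2 (by norm_num)
        · rw [a11, a12]
          exact he.dis 9 6 h9 h6 (by norm_num)
  · refine ⟨?_, ?_⟩
    · show G.Adj (asg4 f (t 2) (t 6) (t 9) v 10) (asg4 f (t 2) (t 6) (t 9) v 13)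
      rw [a10, a13]
      exact h2v
    · intro e hem
      show asg4 f (t 2) (t 6) (t 9) v 13 ≠ asg4 f (t 2) (t 6) (t 9) v e
      rw [hlt e (List.mem_range.1 hem), a13]
      exact hv e (List.mem_range.1 hem)
  · refine ⟨?_, by simp⟩
    show G.Adj (asg4 f (t 2) (t 6) (t 9) v 11) (asg4 f (t 2) (t 6) (t 9) v 13)
    rw [a11, a13]
    exact h6v
  · refine ⟨?_, by simp⟩
    show G.Adj (asg4 f (t 2) (t 6) (t 9) v 12) (asg4 f (t 2) (t 6) (t 9) v 13)
    rw [a12, a13]
    exact h9v

theorem tools_thm (hS : StdPatStmt) (hP : PerfectStmt) (hK : K4Stmt) :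
    ∀ T ∈ tools, toolWf T = true ∧ ToolThm T := by
  intro T hT
  simp only [tools, List.mem_cons, List.not_mem_nil, or_false] at hT
  rcases hT with rfl | rfl | rfl | rfl | rfl | rfl
  · exact ⟨by decide +kernel, std_tool hS⟩
  · exact ⟨by decide +kernel, perf_tool hP _ (by simp) (by decide +kernel)⟩
  · exact ⟨by decide +kernel, perf_tool hP _ (by simp) (by decide +kernel)⟩
  · exact ⟨by decide +kernel, perf_tool hP _ (by simp) (by decide +kernel)⟩
  · exact ⟨by decide +kernel, perf_tool hP _ (by simp) (by decide +kernel)⟩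
  · exact ⟨by decide +kernel, k4_tool hK⟩

end HC

/-- graphs with a hexagon -/
theorem hex (hC : CertStmt) (hS : StdPatStmt) (hP : PerfectStmt) (hK : K4Stmt) : HexStmt := by
  intro V _ _ G side hL h5 h6 hV
  unfold NoC6 at h6
  push Not at h6
  obtain ⟨f, hinj, hadj⟩ := h6
  have hgood := hC tools nodes nodes_check (HC.tools_thm hS hP hK) nd0 (by simp [nodes])
  let φ : ℕ → V := fun i => f (Fin.ofNat 6 i)
  refine hgood V G side hL h5 hV φ ⟨?_, ?_, ?_⟩
  · intro i hi j hj hij
    have hi' : i < 6 := hi
    have hj' : j < 6 := hj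
    have := congrArg Fin.val (hinj hij)
    simp only [Fin.ofNat] at this
    rw [Nat.mod_eq_of_lt hi', Nat.mod_eq_of_lt hj'] at this
    exact this
  · intro i hi j hj
    have hi' : i < 6 := hi
    have e0 := hadj 0
    have e1 := hadj 1
    have e2 := hadj 2
    have e3 := hadj 3
    have e4 := hadj 4
    have e5 := hadj 5
    have key : ∀ i < 6, ∀ j ∈ nd0.st.nb i, G.Adj (φ i) (φ j) := by
      intro i hi j hj
      interval_cases i
      all_goals
        simp [nd0, Node.st, St.nb] at hj
        rcases hj with rfl | rfl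
        all_goals first
          | exact e0 | exact e1 | exact e2 | exact e3 | exact e4 | exact e5
          | exact e0.symm | exact e1.symm | exact e2.symm | exact e3.symm | exact e4.symm
          | exact e5.symm
    exact key i hi' j hj
  · have hs : ∀ i : Fin 6, side (f i) = !(side (f (i + 1))) := by
      intro i
      have := hL.bip _ _ (hadj i)
      cases h1 : side (f i) <;> cases h2 : side (f (i + 1)) <;> simp_all
    refine ⟨side (f 0), ?_⟩
    have h0 := hs 0
    have h1 := hs 1
    have h2 := hs 2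
    have h3 := hs 3
    have h4 := hs 4
    simp only [Fin.isValue, zero_add, Fin.reduceAdd] at h0 h1 h2 h3 h4
    have key : ∀ i < 6, side (φ i) = (nd0.st.ty i ^^ side (f 0)) := by
      intro i hi
      interval_cases i
      · show side (f 0) = (false ^^ side (f 0))
        simp
      · show side (f 1) = (true ^^ side (f 0))
        rw [h0]; simp
      · show side (f 2) = (false ^^ side (f 0))
        rw [h0, h1]; simp
      · show side (f 3) = (true ^^ side (f 0))
        rw [h0, h1, h2]; simp
      · show side (f 4) = (false ^^ side (f 0))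
        rw [h0, h1, h2, h3]; simp
      · show side (f 5) = (true ^^ side (f 0))
        rw [h0, h1, h2, h3, h4]; simp
    intro i hi
    exact key i hi

end N3
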