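import Pool.Agent.Lib_n3.Stmts

/-!
# Graphs with a hexagon: patterns, embeddings, statement of the graph lemma (MP_07e12a_co)

A *pattern* is a small bipartite graph `H` on `0, ..., m - 1` all of whose vertices have degree 2 or 3
in `H`, together with a partition of its vertices into classes.  A vertex of degree 2 in `H` is a *host*;
when `H` is embedded in a cubic graph a host `h` has exactly one further neighbour `t h`.
-/

open scoped Matrix Topology
open Finset

namespace N3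

/-- a pattern: number of vertices, edges `(i, j)` with `i < j < m`, and the class map
(`cl[i]` is the smallest element of the class of `i`) -/
structure Pat where
  m : ℕ
  es : List (ℕ × ℕ)
  cl : List ℕ

namespace Pat

/-- adjacency inside the pattern -/
def adj (P : Pat) (i j : ℕ) : Bool := P.es.contains (i, j) || P.es.contains (j, i)

/-- class of `i` -/
def c (P : Pat) (i : ℕ) : ℕ := P.cl.getD i i

/-- neighbours of `i` in the pattern -/
def nb (P : Pat) (i : ℕ) : List ℕ := (List.range P.m).filter (fun j => P.adj i j)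

/-- hosts: the vertices with two neighbours in the pattern -/
def host (P : Pat) (h : ℕ) : Bool := decide (h < P.m) && (P.nb h).length == 2

/-- adjacency of the classes `a`, `b` -/
def kadj (P : Pat) (a b : ℕ) : Bool :=
  P.es.any (fun e => (P.c e.1 == a && P.c e.2 == b) || (P.c e.1 == b && P.c e.2 == a))

end Pat

variable {V : Type}

/-- an embedding `f` of the pattern in `G` with third neighbours `t h` of the hosts `h`, such that the
quotient of `G` by the classes has no 4-cycle through the attachments: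
the `t h` are distinct and outside the pattern; `t h`, `t h'` are not adjacent if the classes of `h`, `h'`
are adjacent, and have no common neighbour if `h ≠ h'` are in the same class -/
structure Emb (G : SimpleGraph V) (P : Pat) (f t : ℕ → V) : Prop where
  inj : ∀ i < P.m, ∀ j < P.m, f i = f j → i = j
  adj : ∀ e ∈ P.es, G.Adj (f e.1) (f e.2)
  att : ∀ h, P.host h = true → G.Adj (f h) (t h)
  out : ∀ h, P.host h = true → ∀ i < P.m, t h ≠ f i
  dis : ∀ h h', P.host h = true → P.host h' = true → h ≠ h' → t h ≠ t h'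
  nadj : ∀ h h', P.host h = true → P.host h' = true → P.kadj (P.c h) (P.c h') = true →
    ¬ G.Adj (t h) (t h')
  ncom : ∀ h h', P.host h = true → P.host h' = true → h ≠ h' → P.c h = P.c h' →
    ∀ z, ¬ (G.Adj (t h) z ∧ G.Adj (t h') z)

/-- the hexagon -/
def pSTD : Pat := ⟨6, [(0,1),(0,5),(1,2),(2,3),(3,4),(4,5)], [0,1,2,3,2,1]⟩

/-- theta graph with three paths of length 3 -/
def pTHETA : Pat := ⟨8, [(0,1),(0,2),(0,3),(1,4),(2,5),(3,6),(4,7),(5,7),(6,7)], [0,1,2,3,0,5,0,2]⟩

def pL3 : Pat :=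
  ⟨9, [(0,1),(0,5),(1,2),(1,6),(2,3),(3,4),(4,5),(5,7),(6,8),(7,8)], [0,1,2,3,2,1,6,6,8]⟩

/-- subdivided `K₄` -/
def pK4 : Pat :=
  ⟨10, [(0,1),(0,5),(1,2),(1,6),(2,3),(3,4),(3,9),(4,5),(5,7),(6,8),(7,8),(8,9)],
    [0,1,2,3,2,1,6,6,8,9]⟩

def pE10 : Pat :=
  ⟨10, [(0,1),(0,5),(1,2),(1,6),(2,3),(3,4),(4,5),(4,7),(5,9),(6,7),(6,8),(8,9)],
    [0,1,2,1,4,1,4,7,8,4]⟩

def pD20 : Pat :=
  ⟨20, [(0,1),(0,5),(1,2),(1,6),(2,3),(3,4),(3,11),(4,5),(4,7),(5,8),(6,7),(7,9),(8,10),(8,15),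
    (9,10),(9,13),(10,11),(11,12),(12,14),(12,17),(13,14),(13,19),(14,15),(15,16),(16,18),(17,18),
    (18,19)],
    [0,1,2,1,4,1,4,7,8,9,10,8,12,13,14,12,16,17,12,14]⟩

/-- edges of the exceptional graph on 24 vertices -/
def es24 : List (ℕ × ℕ) :=
  [(0,1),(0,5),(0,11),(1,2),(1,6),(2,3),(2,18),(3,4),(3,14),
   (4,5),(4,7),(5,8),(6,7),(6,12),(7,9),(8,10),(8,15),(9,10),
   (9,16),(10,14),(11,13),(11,20),(12,13),(12,21),(13,18),(14,19),(15,17),
   (15,21),(16,17),(16,23),(17,19),(18,23),(19,20),(20,22),(21,22),(22,23)]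

/-- THE GRAPH LEMMA.  A cyclically 5-edge-connected Levi graph with a hexagon and at least 22 vertices
contains one of the patterns, or is the exceptional graph. -/
def CoverStmt : Prop := ∀ (V : Type) [Fintype V] [DecidableEq V] (G : SimpleGraph V)
  (side : V → Bool), Lev G side → Cyc5 G → ¬ NoC6 G → 22 ≤ Fintype.card V →
    (∃ f t, Emb G pSTD f t ∧ ¬ G.Adj (t 0) (t 3)) ∨
    (∃ P ∈ [pTHETA, pL3, pE10, pD20], ∃ f t, Emb G P f t) ∨
    (∃ f t, Emb G pK4 f t ∧ ∀ v, ¬ (G.Adj (t 2) v ∧ G.Adj (t 6) v ∧ G.Adj (t 9) v)) ∨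
    (∃ f : ℕ → V, (∀ i < 24, ∀ j < 24, f i = f j → i = j) ∧ ∀ e ∈ es24, G.Adj (f e.1) (f e.2))

/-- the patterns without exceptional pair -/
def PerfectStmt : Prop := ∀ (V : Type) [Fintype V] [DecidableEq V] (G : SimpleGraph V)
  (side : V → Bool), Lev G side → Cyc5 G →
    ∀ P ∈ [pTHETA, pL3, pE10, pD20], ∀ f t, Emb G P f t → ∃ ρ, Exact G side ρ

/-- the subdivided `K₄`; the third neighbours `t 2, t 6, t 9` have no common neighbour -/
def K4Stmt : Prop := ∀ (V : Type) [Fintype V] [DecidableEq V] (G : SimpleGraph V)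
  (side : V → Bool), Lev G side → Cyc5 G → ∀ f t, Emb G pK4 f t →
    (∀ v, ¬ (G.Adj (t 2) v ∧ G.Adj (t 6) v ∧ G.Adj (t 9) v)) → ∃ ρ, Exact G side ρ

/-- the standard collapse of a hexagon -/
def StdPatStmt : Prop := ∀ (V : Type) [Fintype V] [DecidableEq V] (G : SimpleGraph V)
  (side : V → Bool), Lev G side → Cyc5 G → ∀ f t, Emb G pSTD f t → ¬ G.Adj (t 0) (t 3) →
    ∃ ρ, Exact G side ρ

/-- the exceptional graph -/
def G24Stmt : Prop := ∀ (V : Type) [Fintype V] [DecidableEq V] (G : SimpleGraph V)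
  (side : V → Bool), Lev G side →
    ∀ f : ℕ → V, (∀ i < 24, ∀ j < 24, f i = f j → i = j) → (∀ e ∈ es24, G.Adj (f e.1) (f e.2)) →
      ∃ ρ, Exact G side ρ

theorem hex_of (hC : CoverStmt) (hS : StdPatStmt) (hP : PerfectStmt) (hK : K4Stmt) (h24 : G24Stmt) :
    HexStmt := by
  intro V _ _ G side hL h5 h6 hV
  rcases hC V G side hL h5 h6 hV with ⟨f, t, h, h03⟩ | ⟨P, hPm, f, t, h⟩ | ⟨f, t, h, hs⟩ | ⟨f, h1, h2⟩
  · exact hS V G side hL h5 f t h h03
  · exact hP V G side hL h5 P hPm f t h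
  · exact hK V G side hL h5 f t h hs
  · exact h24 V G side hL f h1 h2

end N3
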