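import Pool.Agent.Lib_n3.HexTools

/-! # The nodes of the search certificate (MP_07e12a_co) -/

set_option maxRecDepth 10000

namespace N3

def nd0 : Node :=
  .tool [(false, [1, 5]), (true, [0, 2]), (false, [1, 3]), (true, [2, 4]), (false, [3, 5]), (true, [4, 0])] 0 [0, 1, 2, 3, 4, 5]
    [[], [], [], [], [], [], [], [], [], [], [], [], [], [], [], [], [], [], [], [], [], [], [], [], [], [], [], [(1, [0, 1, 2, 3, 4, 5, 6, 7])], [], [(1, [1, 2, 3, 4, 5, 0, 6, 7])], [], [], [(2, [0, 1, 2, 3, 4, 5, 6, 7, 8])], [(2, [3, 2, 1, 0, 5, 4, 6, 7, 8])], [(1, [1, 0, 5, 4, 3, 2, 6, 7])]]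

def nd1 : Node :=
  .tool [(false, [1, 5]), (true, [0, 2, 6]), (false, [1, 3]), (true, [2, 4]), (false, [3, 5, 7]), (true, [4, 0]), (false, [1, 7]), (true, [4, 6])] 1 [1, 0, 2, 6, 5, 3, 7, 4]
    [[], [], [], [], [], [], [], [], [], [], [], [], [], [], [], [], [], [], [], [], [], [], [], [], [], [], [], [], [(3, [0, 1, 2, 3, 4, 5, 6, 7, 8, 9])], [(3, [5, 4, 7, 6, 1, 0, 3, 2, 9, 8])], [], [(3, [4, 7, 9, 8, 2, 3, 6, 1, 5, 0])], [(3, [5, 4, 3, 2, 1, 0, 7, 6, 9, 8])], [], [(5, [0, 1, 2, 3, 4, 5, 6, 7, 8, 9, 10])]]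

def nd2 : Node :=
  .tool [(false, [1, 5]), (true, [0, 2, 6]), (false, [1, 3]), (true, [2, 4]), (false, [3, 5]), (true, [4, 0, 7]), (false, [1, 8]), (false, [5, 8]), (true, [6, 7])] 2 [0, 1, 2, 3, 4, 5, 6, 7, 8]
    [[], [], [], [], [], [], [], [], [], [], [], [], [], [], [], [], [], [], [], [], [], [], [], [], [], [], [(3, [5, 7, 8, 6, 1, 0, 9, 2, 4, 3])], [], [], [], [], [(4, [0, 1, 2, 3, 4, 5, 6, 7, 8, 9])], [(3, [5, 4, 3, 2, 1, 0, 9, 6, 7, 8])], [], [], [], [], [], [], [], [], [], [(7, [0, 1, 2, 3, 4, 5, 6, 7, 8, 9, 10, 11])], [(7, [0, 1, 6, 8, 7, 5, 2, 4, 3, 9, 10, 11])]]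

def nd3 : Node :=
  .tool [(false, [1, 5, 8]), (true, [0, 2, 6]), (false, [1, 3]), (true, [2, 4]), (false, [3, 5, 7]), (true, [4, 0]), (false, [1, 7]), (true, [4, 6, 9]), (true, [0, 9]), (false, [7, 8])] 3 [5, 4, 3, 2, 1, 0, 7, 6, 9, 8]
    [[], [], [], [], [], [], [], [], [], [], [], [], [], [], [], [], [], [], [], [], [], [(6, [0, 1, 2, 3, 4, 5, 6, 7, 8, 9, 10])], [], [(6, [7, 4, 5, 0, 1, 6, 3, 2, 9, 10, 8])], [], [], [], [], [(8, [0, 1, 2, 3, 4, 5, 6, 7, 8, 9, 10, 11])], [], [(9, [0, 1, 2, 3, 4, 5, 6, 7, 8, 9, 10, 11])], [(8, [1, 0, 8, 9, 7, 6, 5, 4, 2, 3, 10, 11])], []]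

def nd4 : Node :=
  .tool [(false, [1, 5]), (true, [0, 2, 6]), (false, [1, 3]), (true, [2, 4, 9]), (false, [3, 5]), (true, [4, 0, 7]), (false, [1, 8]), (false, [5, 8]), (true, [6, 7, 9]), (false, [3, 8])] 5 [0, 1, 2, 3, 4, 5, 6, 7, 8, 9]
    [[], [], [], [], [], [], [], [], [], [], [], [], [], [], [], [], [], [], [], [(6, [9, 3, 2, 1, 0, 10, 4, 5, 8, 7, 6])], [], [], [(6, [7, 5, 0, 1, 2, 10, 4, 3, 8, 9, 6])], [], [(6, [6, 1, 2, 3, 4, 10, 0, 5, 8, 7, 9])], [], [], [], [], [], [(11, [0, 1, 2, 3, 4, 5, 6, 7, 8, 9, 10, 11, 12])], [(11, [0, 1, 6, 8, 7, 5, 2, 4, 3, 9, 10, 11, 12])], [(16, [0, 1, 2, 3, 4, 5, 6, 7, 8, 9, 10, 11, 12, 13])]]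

def nd5 : Node :=
  .tool [(false, [1, 5]), (true, [0, 2, 6]), (false, [1, 3]), (true, [2, 4]), (false, [3, 5, 7]), (true, [4, 0, 8]), (false, [1, 7]), (true, [4, 6, 9]), (false, [5, 10]), (false, [7, 10]), (true, [8, 9])] 1 [4, 5, 3, 7, 0, 2, 6, 1]
    [[], [], [], [], [], [], [], [], [], [], [], [], [], [], [], [], [], [], [], [], [], [], [], [], [], [], [], [], [(8, [4, 5, 8, 11, 6, 7, 0, 1, 3, 2, 9, 10])], [(10, [0, 1, 2, 3, 4, 5, 6, 7, 8, 9, 10, 11, 12])], [], [(10, [6, 1, 2, 3, 4, 7, 0, 5, 9, 8, 10, 11, 12])], [(8, [4, 7, 9, 11, 0, 5, 6, 1, 3, 2, 8, 10])], [], [(14, [0, 1, 2, 3, 4, 5, 6, 7, 8, 9, 10, 11, 12, 13])]]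

def nd6 : Node :=
  .tool [(false, [1, 5, 8]), (true, [0, 2, 6]), (false, [1, 3]), (true, [2, 4, 10]), (false, [3, 5, 7]), (true, [4, 0]), (false, [1, 7]), (true, [4, 6, 9]), (true, [0, 9, 10]), (false, [7, 8]), (false, [3, 8])] 1 [0, 1, 5, 8, 2, 4, 10, 3]
    [[], [], [], [], [], [], [], [], [], [], [], [], [], [], [], [], [], [], [], [], [], [], [], [], [], [], [], [], [], [(12, [0, 1, 2, 3, 4, 5, 6, 7, 8, 9, 10, 11, 12])], [], [(12, [4, 3, 10, 8, 0, 5, 2, 1, 7, 6, 9, 11, 12])], [], [], [(17, [0, 1, 2, 3, 4, 5, 6, 7, 8, 9, 10, 11, 12, 13])]]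

def nd7 : Node :=
  .tool [(false, [1, 5]), (true, [0, 2, 6]), (false, [1, 3, 9]), (true, [2, 4]), (false, [3, 5, 10]), (true, [4, 0, 7]), (false, [1, 8]), (false, [5, 8]), (true, [6, 7]), (true, [2, 11]), (true, [4, 11]), (false, [9, 10])] 0 [1, 0, 5, 4, 3, 2]
    [[], [], [], [], [], [], [], [], [], [], [], [], [], [], [], [], [], [], [], [], [], [], [], [], [], [], [], [(14, [1, 0, 12, 13, 3, 2, 5, 4, 9, 10, 11, 6, 7, 8])], [], [(8, [7, 5, 4, 3, 2, 9, 0, 1, 8, 6, 11, 10])], [], [], [(11, [3, 2, 1, 0, 5, 4, 9, 10, 11, 12, 6, 7, 8]), (15, [0, 1, 2, 3, 4, 5, 6, 7, 8, 9, 10, 11, 12, 13])], [(11, [0, 1, 2, 3, 4, 5, 6, 7, 8, 12, 9, 10, 11]), (15, [3, 4, 5, 0, 1, 2, 10, 9, 11, 7, 6, 8, 12, 13])], [(8, [6, 1, 2, 3, 4, 10, 0, 5, 8, 7, 11, 9])]]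

def nd8 : Node :=
  .tool [(false, [1, 5, 8]), (true, [0, 2, 6]), (false, [1, 3, 11]), (true, [2, 4]), (false, [3, 5, 7]), (true, [4, 0, 10]), (false, [1, 7]), (true, [4, 6, 9]), (true, [0, 9]), (false, [7, 8]), (false, [5, 11]), (true, [2, 10])] 1 [0, 1, 5, 8, 6, 4, 9, 7]
    [[], [], [], [], [], [], [], [], [], [], [], [], [], [], [], [], [], [], [], [], [], [], [], [], [], [], [], [], [], [(12, [5, 4, 7, 6, 1, 0, 3, 2, 10, 11, 12, 8, 9])], [], [(13, [0, 1, 2, 3, 4, 5, 6, 7, 8, 9, 10, 11, 12])], [(18, [0, 1, 2, 3, 4, 5, 6, 7, 8, 9, 10, 11, 12, 13])], [], [(23, [0, 1, 2, 3, 4, 5, 6, 7, 8, 9, 10, 11, 12, 13, 14])]]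

def nd9 : Node :=
  .tool [(false, [1, 5, 8]), (true, [0, 2, 6]), (false, [1, 3, 10]), (true, [2, 4]), (false, [3, 5, 7]), (true, [4, 0]), (false, [1, 7]), (true, [4, 6, 9]), (true, [0, 9, 11]), (false, [7, 8]), (true, [2, 11]), (false, [8, 10])] 0 [2, 1, 0, 8, 11, 10]
    [[], [], [], [], [], [], [], [], [], [], [], [], [], [], [], [], [], [], [], [], [], [], [], [], [], [], [], [(13, [6, 7, 4, 5, 0, 1, 9, 8, 12, 11, 2, 3, 10])], [], [(13, [5, 4, 7, 6, 1, 0, 3, 2, 12, 10, 8, 9, 11])], [], [], [(19, [0, 1, 2, 3, 4, 5, 6, 7, 8, 9, 10, 11, 12, 13])], [(19, [1, 0, 8, 9, 7, 6, 5, 4, 2, 3, 11, 10, 12, 13])], []]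

def nd10 : Node :=
  .tool [(false, [1, 5, 12]), (true, [0, 2, 6]), (false, [1, 3]), (true, [2, 4, 11]), (false, [3, 5, 7]), (true, [4, 0, 8]), (false, [1, 7]), (true, [4, 6, 9]), (false, [5, 10]), (false, [7, 10]), (true, [8, 9]), (false, [3, 12]), (true, [0, 11])] 3 [2, 3, 11, 12, 0, 1, 4, 5, 7, 6]
    [[], [], [], [], [], [], [], [], [], [], [], [], [], [], [], [], [], [], [], [], [], [(17, [1, 0, 5, 4, 3, 2, 12, 11, 6, 13, 7, 8, 9, 10])], [], [(12, [4, 7, 9, 12, 0, 5, 6, 1, 3, 2, 11, 8, 10])], [], [], [], [], [(23, [1, 0, 12, 11, 3, 2, 5, 4, 6, 7, 13, 14, 8, 9, 10])], [], [(24, [0, 1, 2, 3, 4, 5, 6, 7, 8, 9, 10, 11, 12, 13, 14])], [(18, [4, 5, 8, 13, 6, 7, 0, 1, 3, 2, 9, 10, 11, 12])], []]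

def nd11 : Node :=
  .tool [(false, [1, 5]), (true, [0, 2, 6]), (false, [1, 3, 10]), (true, [2, 4, 9]), (false, [3, 5, 11]), (true, [4, 0, 7]), (false, [1, 8]), (false, [5, 8]), (true, [6, 7, 9]), (false, [3, 8]), (true, [2, 12]), (true, [4, 12]), (false, [10, 11])] 5 [9, 3, 2, 1, 6, 8, 4, 7, 5, 0]
    [[], [], [], [], [], [], [], [], [], [], [], [], [], [], [], [], [], [], [], [(17, [0, 1, 2, 3, 9, 13, 6, 8, 5, 7, 4, 10, 11, 12])], [], [], [(12, [2, 3, 4, 5, 7, 10, 9, 8, 1, 6, 0, 12, 11])], [], [(12, [6, 1, 2, 3, 4, 11, 0, 5, 8, 7, 9, 12, 10])], [], [], [], [], [], [(12, [6, 1, 2, 3, 4, 11, 0, 5, 8, 7, 9, 12, 10]), (21, [0, 1, 2, 3, 4, 5, 6, 7, 8, 9, 10, 11, 12, 13]), (26, [0, 1, 2, 3, 4, 5, 6, 7, 8, 9, 10, 11, 12, 13, 14])], [(12, [2, 3, 4, 5, 7, 10, 9, 8, 1, 6, 0, 12, 11]), (21, [9, 3, 4, 5, 7, 8, 2, 6, 1, 0, 11, 13, 12, 10]), (26, [9, 3, 4, 5, 7, 8, 2, 6, 1, 0, 11, 13, 14, 10, 12])], [(16, [7, 5, 0, 1, 6, 8, 4, 9, 3,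 2, 13, 11, 10, 12])]]

def nd12 : Node :=
  .tool [(false, [1, 5, 8]), (true, [0, 2, 6]), (false, [1, 3, 12]), (true, [2, 4, 10]), (false, [3, 5, 7]), (true, [4, 0, 11]), (false, [1, 7]), (true, [4, 6, 9]), (true, [0, 9, 10]), (false, [7, 8]), (false, [3, 8]), (false, [5, 12]), (true, [2, 11])] 1 [0, 1, 5, 8, 6, 4, 9, 7]
    [[], [], [], [], [], [], [], [], [], [], [], [], [], [], [], [], [], [], [], [], [], [], [], [], [], [], [], [], [], [], [], [], [], [], [(36, [0, 1, 2, 3, 4, 5, 6, 7, 8, 9, 10, 11, 12, 13, 14, 15])]]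

def nd13 : Node :=
  .tool [(false, [1, 5, 8]), (true, [0, 2, 6]), (false, [1, 3, 11]), (true, [2, 4]), (false, [3, 5, 7]), (true, [4, 0, 10]), (false, [1, 7]), (true, [4, 6, 9]), (true, [0, 9]), (false, [7, 8, 12]), (false, [5, 11, 12]), (true, [2, 10]), (true, [9, 10])] 1 [5, 4, 0, 10, 3, 1, 11, 2]
    [[], [], [], [], [], [], [], [], [], [], [], [], [], [], [], [], [], [], [], [], [], [], [], [], [], [], [], [], [], [], [], [], [], [], [(37, [0, 1, 2, 3, 4, 5, 6, 7, 8, 9, 10, 11, 12, 13, 14, 15])]]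

def nd14 : Node :=
  .tool [(false, [1, 5, 11]), (true, [0, 2, 6]), (false, [1, 3]), (true, [2, 4]), (false, [3, 5, 7]), (true, [4, 0, 8]), (false, [1, 7, 12]), (true, [4, 6, 9]), (false, [5, 10]), (false, [7, 10]), (true, [8, 9]), (true, [0, 13]), (true, [6, 13]), (false, [11, 12])] 1 [1, 0, 6, 2, 5, 7, 3, 4]
    [[], [], [], [], [], [], [], [], [], [], [], [], [], [], [], [], [], [], [], [], [], [], [], [], [], [], [], [], [(17, [1, 0, 5, 4, 3, 2, 11, 13, 6, 12, 7, 8, 9, 10]), (24, [0, 1, 2, 3, 4, 5, 6, 7, 8, 9, 10, 14, 11, 13, 12])], [(20, [0, 1, 2, 3, 4, 5, 6, 7, 8, 9, 10, 11, 12, 13])], [], [(17, [1, 0, 5, 4, 3, 2, 11, 13, 6, 12, 7, 8, 9, 10]), (24, [6, 1, 2, 3, 4, 7, 0, 5, 9, 8, 10, 14, 12, 13, 11])], [(17, [4, 5, 0, 1, 2, 3, 8, 10, 7, 9, 6, 11, 12, 13]), (24, [5, 4, 3, 2, 1, 0, 7, 6, 11, 12, 13, 14, 8, 10, 9])], [], [(25, [0, 1, 2, 3, 4, 5, 6, 7, 8, 9, 10, 11, 12, 13, 14]), (33, [0, 1, 2, 3, 4, 5, 6, 7, 8, 9, 10, 11,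 12, 13, 14, 15])]]

def nd15 : Node :=
  .tool [(false, [1, 5, 12]), (true, [0, 2, 6]), (false, [1, 3, 9]), (true, [2, 4]), (false, [3, 5, 10]), (true, [4, 0, 7]), (false, [1, 8]), (false, [5, 8]), (true, [6, 7]), (true, [2, 11, 13]), (true, [4, 11]), (false, [9, 10]), (true, [0, 13]), (false, [12, 9])] 0 [2, 1, 0, 5, 4, 3]
    [[], [], [], [], [], [], [], [], [], [], [], [], [], [], [], [], [], [], [], [], [], [], [], [], [], [], [], [(22, [0, 1, 2, 3, 4, 5, 6, 7, 8, 9, 10, 11, 12, 13])], [], [(24, [2, 3, 14, 12, 0, 1, 4, 5, 6, 7, 8, 13, 9, 11, 10])], [], [], [(27, [0, 1, 2, 3, 4, 5, 6, 7, 8, 9, 10, 11, 12, 13, 14]), (34, [0, 1, 2, 3, 4, 5, 6, 7, 8, 9, 10, 11, 12, 13, 14, 15])], [(28, [0, 1, 2, 3, 4, 5, 6, 7, 8, 9, 10, 11, 12, 13, 14])], []]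

def nd16 : Node :=
  .tool [(false, [1, 5]), (true, [0, 2, 6]), (false, [1, 3, 10]), (true, [2, 4, 9]), (false, [3, 5]), (true, [4, 0, 7]), (false, [1, 8, 11]), (false, [5, 8]), (true, [6, 7, 9]), (false, [3, 8, 12]), (true, [2, 13]), (true, [6, 13]), (true, [9, 13]), (false, [10, 11, 12])] 5 [0, 5, 4, 3, 2, 1, 7, 6, 8, 9]
    [[], [], [], [], [], [], [], [], [], [], [], [], [], [], [], [], [], [], [], [], [], [], [], [], [], [], [], [], [], [], [(35, [0, 1, 2, 3, 4, 5, 6, 7, 8, 9, 10, 11, 12, 13, 14, 15])], [(35, [0, 1, 6, 8, 7, 5, 2, 4, 3, 9, 11, 10, 12, 13, 14, 15])], [(56, [0, 1, 2, 3, 4, 5, 6, 7, 8, 9, 10, 11, 12, 13, 14, 15, 16])]]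

def nd17 : Node :=
  .tool [(false, [1, 5, 8]), (true, [0, 2, 6]), (false, [1, 3, 11]), (true, [2, 4, 10]), (false, [3, 5, 7]), (true, [4, 0]), (false, [1, 7]), (true, [4, 6, 9]), (true, [0, 9, 10]), (false, [7, 8]), (false, [3, 8, 12]), (true, [2, 13]), (true, [10, 13]), (false, [11, 12])] 1 [0, 1, 5, 8, 6, 4, 9, 7]
    [[], [], [], [], [], [], [], [], [], [], [], [], [], [], [], [], [], [], [], [], [], [], [], [], [], [], [], [], [], [(36, [0, 1, 6, 7, 4, 5, 2, 3, 8, 10, 9, 14, 15, 11, 12, 13])], [], [(36, [0, 8, 9, 7, 4, 5, 10, 3, 1, 2, 6, 14, 15, 12, 11, 13])], [], [], [(49, [0, 1, 2, 3, 4, 5, 6, 7, 8, 9, 10, 11, 12, 13, 14, 15, 16])]]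

def nd18 : Node :=
  .tool [(false, [1, 5, 8]), (true, [0, 2, 6]), (false, [1, 3, 11]), (true, [2, 4]), (false, [3, 5, 7]), (true, [4, 0, 10]), (false, [1, 7, 13]), (true, [4, 6, 9]), (true, [0, 9, 12]), (false, [7, 8]), (false, [5, 11]), (true, [2, 10]), (false, [8, 13]), (true, [6, 12])] 1 [5, 4, 0, 10, 3, 1, 11, 2]
    [[], [], [], [], [], [], [], [], [], [], [], [], [], [], [], [], [], [], [], [], [], [], [], [], [], [], [], [], [], [], [], [], [(38, [0, 1, 2, 3, 4, 5, 6, 7, 8, 9, 10, 11, 12, 13, 14, 15])], [], [(50, [0, 1, 2, 3, 4, 5, 6, 7, 8, 9, 10, 11, 12, 13, 14, 15, 16])]]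

def nd19 : Node :=
  .tool [(false, [1, 5, 8]), (true, [0, 2, 6]), (false, [1, 3, 10]), (true, [2, 4]), (false, [3, 5, 7]), (true, [4, 0]), (false, [1, 7, 13]), (true, [4, 6, 9]), (true, [0, 9, 11]), (false, [7, 8]), (true, [2, 11, 12]), (false, [8, 10]), (false, [10, 13]), (true, [6, 12])] 2 [1, 0, 5, 4, 3, 2, 8, 10, 11]
    [[], [], [], [], [], [], [], [], [], [], [], [], [], [], [], [], [], [], [], [], [], [], [], [], [], [], [], [], [], [], [], [], [], [], [], [], [], [], [], [], [], [], [(51, [0, 1, 2, 3, 4, 5, 6, 7, 8, 9, 10, 11, 12, 13, 14, 15, 16])], [(29, [0, 1, 2, 3, 4, 5, 6, 7, 8, 9, 10, 11, 12, 13, 14])]]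

def nd20 : Node :=
  .tool [(false, [1, 5, 11]), (true, [0, 2, 6]), (false, [1, 3]), (true, [2, 4]), (false, [3, 5, 7]), (true, [4, 0, 8]), (false, [1, 7, 12]), (true, [4, 6, 9]), (false, [5, 10, 12]), (false, [7, 10]), (true, [8, 9]), (true, [0, 13]), (true, [6, 13, 8]), (false, [11, 12])] 1 [0, 5, 1, 11, 8, 6, 13, 12]
    [[], [], [], [], [], [], [], [], [], [], [], [], [], [], [], [], [], [], [], [], [], [], [], [], [], [], [], [], [], [], [], [(30, [0, 1, 2, 3, 4, 5, 6, 7, 8, 9, 10, 11, 12, 13, 14])], [(30, [12, 8, 10, 9, 7, 6, 5, 4, 1, 3, 2, 13, 0, 11, 14])], [], [(30, [8, 12, 13, 11, 0, 5, 6, 1, 4, 2, 3, 10, 7, 9, 14]), (40, [0, 1, 2, 3, 4, 5, 6, 7, 8, 9, 10, 11, 12, 13, 14, 15])]]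

def nd21 : Node :=
  .tool [(false, [1, 5]), (true, [0, 2, 6]), (false, [1, 3, 10]), (true, [2, 4, 9]), (false, [3, 5, 11]), (true, [4, 0, 7]), (false, [1, 8, 13]), (false, [5, 8]), (true, [6, 7, 9]), (false, [3, 8]), (true, [2, 12]), (true, [4, 12]), (false, [10, 11, 13]), (true, [6, 12])] 0 [2, 1, 6, 13, 12, 10]
    [[], [], [], [], [], [], [], [], [], [], [], [], [], [], [], [], [], [], [], [], [], [], [], [], [], [], [], [], [], [], [], [], [(42, [0, 1, 2, 3, 4, 5, 6, 7, 8, 9, 10, 11, 12, 13, 14, 15])], [], []]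

def nd22 : Node :=
  .tool [(false, [1, 5, 12]), (true, [0, 2, 6]), (false, [1, 3, 9]), (true, [2, 4]), (false, [3, 5, 10]), (true, [4, 0, 7]), (false, [1, 8, 10]), (false, [5, 8]), (true, [6, 7]), (true, [2, 11, 13]), (true, [4, 11, 6]), (false, [9, 10]), (true, [0, 13]), (false, [12, 9])] 0 [0, 1, 2, 9, 13, 12]
    [[], [], [], [], [], [], [], [], [], [], [], [], [], [], [], [], [], [], [], [], [], [], [], [], [], [], [], [], [], [(30, [3, 2, 9, 11, 10, 4, 1, 6, 5, 8, 7, 14, 0, 12, 13])], [], [], [(31, [0, 1, 2, 3, 4, 5, 6, 7, 8, 9, 10, 11, 12, 13, 14])], [(45, [0, 1, 2, 3, 4, 5, 6, 7, 8, 9, 10, 11, 12, 13, 14, 15])], []]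

def nd23 : Node :=
  .tool [(false, [1, 5, 8]), (true, [0, 2, 6]), (false, [1, 3, 11]), (true, [2, 4]), (false, [3, 5, 7]), (true, [4, 0, 10]), (false, [1, 7, 12]), (true, [4, 6, 9]), (true, [0, 9]), (false, [7, 8, 13]), (false, [5, 11]), (true, [2, 10]), (true, [6, 14]), (true, [9, 14]), (false, [12, 13])] 1 [5, 4, 0, 10, 3, 1, 11, 2]
    [[], [], [], [], [], [], [], [], [], [], [], [], [], [], [], [], [], [], [], [], [], [], [], [], [], [], [], [], [], [(36, [0, 1, 2, 3, 4, 5, 6, 7, 8, 9, 15, 10, 11, 12, 13, 14])], [], [(37, [5, 4, 7, 6, 1, 0, 3, 2, 10, 11, 8, 9, 15, 12, 13, 14])], [(50, [5, 4, 7, 6, 1, 0, 3, 2, 10, 11, 8, 9, 15, 16, 12, 13, 14])], [], [(66, [0, 1, 2, 3, 4, 5, 6, 7, 8, 9, 10, 11, 12, 13, 14, 15, 16, 17])]]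

def nd24 : Node :=
  .tool [(false, [1, 5, 12]), (true, [0, 2, 6]), (false, [1, 3]), (true, [2, 4, 11]), (false, [3, 5, 7]), (true, [4, 0, 8]), (false, [1, 7, 14]), (true, [4, 6, 9]), (false, [5, 10]), (false, [7, 10]), (true, [8, 9]), (false, [3, 12]), (true, [0, 11, 13]), (false, [12, 14]), (true, [6, 13])] 2 [0, 1, 2, 3, 11, 12, 6, 13, 14]
    [[], [], [], [], [], [], [], [], [], [], [], [], [], [], [], [], [], [], [], [], [], [], [], [], [], [], [(37, [2, 3, 4, 5, 0, 1, 11, 12, 15, 13, 6, 7, 14, 8, 9, 10])], [], [], [], [], [], [], [], [], [], [], [], [], [], [], [], [(67, [0, 1, 2, 3, 4, 5, 6, 7, 8, 9, 10, 11, 12, 13, 14, 15, 16, 17])], [(29, [1, 0, 12, 11, 3, 2, 5, 4, 6, 7, 13, 14, 10, 8, 9]), (39, [0, 1, 2, 3, 4, 5, 6, 7, 8, 9, 10, 11, 12, 13, 14, 15])]]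

def nd25 : Node :=
  .tool [(false, [1, 5, 11]), (true, [0, 2, 6]), (false, [1, 3]), (true, [2, 4, 14]), (false, [3, 5, 7]), (true, [4, 0, 8]), (false, [1, 7, 12]), (true, [4, 6, 9]), (false, [5, 10]), (false, [7, 10]), (true, [8, 9, 14]), (true, [0, 13]), (true, [6, 13]), (false, [11, 12]), (false, [3, 10])] 1 [4, 5, 3, 7, 8, 14, 9, 10]
    [[], [], [], [], [], [], [], [], [], [], [], [], [], [], [], [], [], [], [], [], [], [], [], [], [], [], [], [], [(30, [5, 4, 3, 2, 1, 0, 7, 6, 11, 12, 13, 8, 9, 10, 14])], [(37, [3, 2, 1, 0, 5, 4, 15, 8, 14, 10, 7, 6, 9, 11, 12, 13])], [], [(37, [3, 2, 1, 6, 7, 4, 15, 9, 14, 10, 5, 0, 8, 12, 11, 13])], [(30, [7, 4, 3, 2, 1, 6, 5, 0, 12, 11, 13, 9, 8, 10, 14])], [], [(68, [0, 1, 2, 3, 4, 5, 6, 7, 8, 9, 10, 11, 12, 13, 14, 15, 16, 17])]]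

def nd26 : Node :=
  .tool [(false, [1, 5]), (true, [0, 2, 6]), (false, [1, 3, 10]), (true, [2, 4, 9]), (false, [3, 5, 11]), (true, [4, 0, 7]), (false, [1, 8, 13]), (false, [5, 8]), (true, [6, 7, 9]), (false, [3, 8]), (true, [2, 12, 14]), (true, [4, 12]), (false, [10, 11]), (true, [6, 14]), (false, [10, 13])] 0 [2, 1, 6, 13, 14, 10]
    [[], [], [], [], [], [], [], [], [], [], [], [], [], [], [], [], [], [], [], [], [], [], [], [], [], [], [], [(43, [0, 1, 2, 3, 4, 5, 6, 7, 8, 9, 10, 11, 12, 13, 14, 15])], [], [], [], [], [(35, [9, 3, 2, 1, 6, 8, 4, 7, 5, 0, 10, 11, 15, 12, 13, 14])], [(44, [0, 1, 2, 3, 4, 5, 6, 7, 8, 9, 10, 11, 12, 13, 14, 15]), (35, [0, 1, 2, 3, 4, 5, 6, 7, 8, 9, 10, 13, 15, 14, 11, 12])], []]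

def nd27 : Node :=
  .tool [(false, [1, 5, 12]), (true, [0, 2, 6]), (false, [1, 3, 9]), (true, [2, 4, 14]), (false, [3, 5, 10]), (true, [4, 0, 7]), (false, [1, 8]), (false, [5, 8]), (true, [6, 7, 14]), (true, [2, 11, 13]), (true, [4, 11]), (false, [9, 10]), (true, [0, 13]), (false, [12, 9]), (false, [3, 8])] 5 [7, 5, 4, 3, 14, 8, 0, 6, 1, 2]
    [[], [], [], [], [], [], [], [], [], [], [], [], [], [], [], [], [], [], [], [], [], [], [(32, [0, 1, 2, 3, 4, 5, 6, 7, 8, 9, 10, 11, 12, 13, 14])], [], [(32, [4, 3, 2, 1, 0, 5, 14, 7, 8, 9, 12, 13, 10, 11, 6])], [], [], [], [], [], [(43, [4, 3, 2, 1, 0, 5, 14, 7, 8, 6, 9, 12, 13, 15, 11, 10]), (53, [0, 1, 2, 3, 4, 5, 6, 7, 8, 9, 10, 11, 12, 13, 14, 15, 16])], [(43, [0, 1, 2, 3, 4, 5, 6, 7, 8, 14, 9, 10, 11, 15, 13, 12]), (53, [4, 3, 2, 1, 0, 5, 14, 7, 8, 9, 12, 13, 10, 11, 6, 15, 16])], []]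

def nd28 : Node :=
  .tool [(false, [1, 5, 12]), (true, [0, 2, 6]), (false, [1, 3, 9]), (true, [2, 4]), (false, [3, 5, 10]), (true, [4, 0, 7]), (false, [1, 8]), (false, [5, 8]), (true, [6, 7]), (true, [2, 11, 13]), (true, [4, 11, 14]), (false, [9, 10]), (true, [0, 13, 14]), (false, [12, 9]), (false, [12, 10])] 0 [0, 1, 2, 9, 13, 12]
    [[], [], [], [], [], [], [], [], [], [], [], [], [], [], [], [], [], [], [], [], [], [], [], [], [], [], [], [(29, [1, 0, 5, 7, 8, 6, 12, 13, 2, 9, 4, 3, 10, 14, 11]), (47, [0, 1, 2, 3, 4, 5, 6, 7, 8, 9, 10, 11, 12, 13, 14, 15])], [], [], [], [], [(29, [5, 0, 1, 6, 8, 7, 12, 14, 4, 10, 2, 3, 9, 13, 11]), (48, [0, 1, 2, 3, 4, 5, 6, 7, 8, 9, 10, 11, 12, 13, 14, 15])], [(55, [0, 1, 2, 3, 4, 5, 6, 7, 8, 9, 10, 11, 12, 13, 14, 15, 16])], []]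

def nd29 : Node :=
  .tool [(false, [1, 5, 8]), (true, [0, 2, 6]), (false, [1, 3, 10]), (true, [2, 4]), (false, [3, 5, 7]), (true, [4, 0]), (false, [1, 7, 13]), (true, [4, 6, 9]), (true, [0, 9, 11]), (false, [7, 8, 14]), (true, [2, 11, 12]), (false, [8, 10]), (false, [10, 13, 14]), (true, [6, 12]), (true, [9, 12])] 0 [6, 1, 2, 10, 12, 13]
    [[], [], [], [], [], [], [], [], [], [], [], [], [], [], [], [], [], [], [], [], [], [], [], [], [], [], [], [], [], [], [], [], [], [], []]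

def nd30 : Node :=
  .tool [(false, [1, 5, 11]), (true, [0, 2, 6]), (false, [1, 3, 14]), (true, [2, 4]), (false, [3, 5, 7]), (true, [4, 0, 8]), (false, [1, 7, 12]), (true, [4, 6, 9]), (false, [5, 10, 12]), (false, [7, 10]), (true, [8, 9]), (true, [0, 13]), (true, [6, 13, 8]), (false, [11, 12, 14]), (true, [13, 2])] 1 [7, 6, 4, 9, 12, 5, 10, 8]
    [[], [], [], [], [], [], [], [], [], [], [], [], [], [], [], [], [], [], [], [], [], [], [], [], [], [], [], [], [], [], [], [], [], [], []]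

def nd31 : Node :=
  .tool [(false, [1, 5, 12]), (true, [0, 2, 6]), (false, [1, 3, 9]), (true, [2, 4]), (false, [3, 5, 10]), (true, [4, 0, 7]), (false, [1, 8, 10]), (false, [5, 8]), (true, [6, 7, 14]), (true, [2, 11, 13]), (true, [4, 11, 6]), (false, [9, 10]), (true, [0, 13, 14]), (false, [12, 9]), (false, [12, 8])] 2 [2, 1, 0, 12, 13, 9, 6, 11, 10]
    [[], [], [], [], [], [], [], [], [], [], [], [], [], [], [], [], [], [], [], [], [], [], [], [], [], [], [], [], [], [], [], [], [], [], [], [], [], [], [], [], [], [], [], []]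

def nd32 : Node :=
  .tool [(false, [1, 5, 12]), (true, [0, 2, 6]), (false, [1, 3, 9]), (true, [2, 4, 14]), (false, [3, 5, 10]), (true, [4, 0, 7]), (false, [1, 8, 10]), (false, [5, 8]), (true, [6, 7, 14]), (true, [2, 11, 13]), (true, [4, 11, 6]), (false, [9, 10]), (true, [0, 13]), (false, [12, 9]), (false, [3, 8])] 0 [0, 1, 2, 9, 13, 12]
    [[], [], [], [], [], [], [], [], [], [], [], [], [], [], [], [], [], [], [], [], [], [], [], [], [], [], [], [], [], [], [], [], [], [], []]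

def nd33 : Node :=
  .tool [(false, [1, 5, 11]), (true, [0, 2, 6]), (false, [1, 3]), (true, [2, 4, 14]), (false, [3, 5, 7]), (true, [4, 0, 8]), (false, [1, 7, 12]), (true, [4, 6, 9]), (false, [5, 10, 15]), (false, [7, 10]), (true, [8, 9]), (true, [0, 13]), (true, [6, 13]), (false, [11, 12]), (false, [3, 15]), (true, [8, 14])] 1 [4, 3, 5, 7, 2, 0, 6, 1]
    [[], [], [], [], [], [], [], [], [], [], [], [], [], [], [], [], [], [], [], [], [], [], [], [], [], [], [], [], [(41, [0, 1, 2, 3, 4, 5, 6, 7, 8, 9, 10, 11, 12, 13, 14, 15])], [(36, [4, 5, 8, 10, 2, 3, 0, 1, 7, 6, 9, 14, 15, 11, 12, 13])], [], [], [(36, [4, 5, 8, 10, 2, 3, 0, 1, 7, 6, 9, 14, 15, 11, 12, 13]), (51, [7, 4, 5, 0, 1, 6, 3, 2, 9, 16, 8, 10, 15, 14, 12, 11, 13])], [], [(52, [0, 1, 2, 3, 4, 5, 6, 7, 8, 9, 10, 11, 12, 13, 14, 15, 16]), (69, [0, 1, 2, 3, 4, 5, 6, 7, 8, 9, 10, 11, 12, 13, 14, 15, 16, 17])]]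

def nd34 : Node :=
  .tool [(false, [1, 5, 12]), (true, [0, 2, 6]), (false, [1, 3, 9]), (true, [2, 4, 14]), (false, [3, 5, 10]), (true, [4, 0, 7]), (false, [1, 8, 15]), (false, [5, 8]), (true, [6, 7]), (true, [2, 11, 13]), (true, [4, 11]), (false, [9, 10]), (true, [0, 13]), (false, [12, 9]), (false, [3, 15]), (true, [6, 14])] 2 [1, 0, 5, 4, 3, 2, 12, 9, 13]
    [[], [], [], [], [], [], [], [], [], [], [], [], [], [], [], [], [], [], [], [], [], [], [], [], [], [], [], [], [], [], [], [], [(46, [0, 1, 2, 3, 4, 5, 6, 7, 8, 9, 10, 11, 12, 13, 14, 15])], [], [], [], [], [], [], [], [], [], [(54, [0, 1, 2, 3, 4, 5, 6, 7, 8, 9, 10, 11, 12, 13, 14, 15, 16])], [(54, [5, 0, 1, 2, 3, 4, 12, 10, 16, 6, 14, 15, 7, 8, 9, 13, 11]), (70, [0, 1, 2, 3, 4, 5, 6, 7, 8, 9, 10, 11, 12, 13, 14, 15, 16, 17])]]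

def nd35 : Node :=
  .tool [(false, [1, 5]), (true, [0, 2, 6]), (false, [1, 3, 10]), (true, [2, 4, 9]), (false, [3, 5, 14]), (true, [4, 0, 7]), (false, [1, 8, 11]), (false, [5, 8]), (true, [6, 7, 9]), (false, [3, 8, 12]), (true, [2, 13, 15]), (true, [6, 13]), (true, [9, 13]), (false, [10, 11, 12]), (true, [4, 15]), (false, [14, 10])] 0 [4, 3, 2, 10, 15, 14]
    [[], [], [], [], [], [], [], [], [], [], [], [], [], [], [], [], [], [], [], [], [], [], [], [], [], [], [], [], [], [], [], [], [(56, [11, 6, 1, 2, 10, 13, 8, 12, 9, 3, 0, 7, 4, 5, 15, 16, 14])], [(56, [7, 5, 4, 3, 9, 8, 0, 6, 1, 2, 14, 16, 10, 15, 12, 11, 13])], []]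

def nd36 : Node :=
  .tool [(false, [1, 5, 8]), (true, [0, 2, 6]), (false, [1, 3, 12]), (true, [2, 4, 10]), (false, [3, 5, 7]), (true, [4, 0, 11]), (false, [1, 7, 13]), (true, [4, 6, 9]), (true, [0, 9, 10]), (false, [7, 8, 14]), (false, [3, 8]), (false, [5, 12]), (true, [2, 11]), (true, [6, 15]), (true, [9, 15]), (false, [13, 14])] 0 [9, 7, 6, 13, 15, 14]
    [[], [], [], [], [], [], [], [], [], [], [], [], [], [], [], [], [], [], [], [], [], [], [], [], [], [], [], [], [], [], [], [], [], [], []]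

def nd37 : Node :=
  .tool [(false, [1, 5, 8]), (true, [0, 2, 6]), (false, [1, 3, 11]), (true, [2, 4, 13]), (false, [3, 5, 7]), (true, [4, 0, 10]), (false, [1, 7]), (true, [4, 6, 9]), (true, [0, 9]), (false, [7, 8, 12]), (false, [5, 11, 12]), (true, [2, 10, 14]), (true, [9, 10]), (false, [3, 15]), (false, [11, 15]), (true, [13, 14])] 0 [11, 2, 3, 13, 15, 14]
    [[], [], [], [], [], [], [], [], [], [], [], [], [], [], [], [], [], [], [], [], [], [], [], [], [], [], [], [], [], [], [], [], [(59, [0, 1, 2, 3, 4, 5, 6, 7, 8, 9, 10, 11, 12, 13, 14, 15, 16])], [], []]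

def nd38 : Node :=
  .tool [(false, [1, 5, 8]), (true, [0, 2, 6]), (false, [1, 3, 11]), (true, [2, 4, 15]), (false, [3, 5, 7]), (true, [4, 0, 10]), (false, [1, 7, 13]), (true, [4, 6, 9]), (true, [0, 9, 12]), (false, [7, 8]), (false, [5, 11, 14]), (true, [2, 10]), (false, [8, 13]), (true, [6, 12]), (true, [10, 15]), (false, [3, 14])] 3 [1, 6, 13, 12, 8, 0, 7, 9, 4, 5]
    [[], [], [], [], [], [], [], [], [], [], [], [], [], [], [], [], [], [], [], [], [], [], [], [], [], [], [], [], [], [], [], [], []]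

def nd39 : Node :=
  .tool [(false, [1, 5, 12]), (true, [0, 2, 6]), (false, [1, 3]), (true, [2, 4, 11]), (false, [3, 5, 7]), (true, [4, 0, 8]), (false, [1, 7, 14]), (true, [4, 6, 9]), (false, [5, 10]), (false, [7, 10, 15]), (true, [8, 9]), (false, [3, 12]), (true, [0, 11, 13]), (false, [12, 14, 15]), (true, [6, 13]), (true, [13, 9])] 0 [7, 4, 5, 8, 10, 9]
    [[], [], [], [], [], [], [], [], [], [], [], [], [], [], [], [], [], [], [], [], [], [], [], [], [], [], [], [], [], [], [], [], [], [], []]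

def nd40 : Node :=
  .tool [(false, [1, 5, 11]), (true, [0, 2, 6]), (false, [1, 3]), (true, [2, 4]), (false, [3, 5, 7]), (true, [4, 0, 8]), (false, [1, 7, 12]), (true, [4, 6, 9]), (false, [5, 10, 12]), (false, [7, 10]), (true, [8, 9, 15]), (true, [0, 13]), (true, [6, 13, 8]), (false, [11, 12, 14]), (true, [13, 15]), (false, [10, 14])] 0 [10, 8, 12, 13, 14, 15]
    [[], [], [], [], [], [], [], [], [], [], [], [], [], [], [], [], [], [], [], [], [], [], [], [], [], [], [], [], [], [], [], [], [], [], []]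

def nd41 : Node :=
  .tool [(false, [1, 5, 11]), (true, [0, 2, 6]), (false, [1, 3]), (true, [2, 4, 14]), (false, [3, 5, 7]), (true, [4, 0, 8]), (false, [1, 7, 12]), (true, [4, 6, 9]), (false, [5, 10, 15]), (false, [7, 10]), (true, [8, 9]), (true, [0, 13]), (true, [6, 13, 14]), (false, [11, 12]), (false, [3, 15, 12]), (true, [8, 14])] 2 [5, 4, 3, 14, 15, 8, 7, 10, 9]
    [[], [], [], [], [], [], [], [], [], [], [], [], [], [], [], [], [], [], [], [], [], [], [], [], [], [], [], [], [], [], [], [], [], [], [], [], [], [], [], [], [], [], [(77, [1, 6, 7, 4, 3, 2, 12, 14, 17, 15, 16, 5, 0, 11, 13, 9, 8, 10])], []]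

def nd42 : Node :=
  .tool [(false, [1, 5, 15]), (true, [0, 2, 6]), (false, [1, 3, 10]), (true, [2, 4, 9]), (false, [3, 5, 11]), (true, [4, 0, 7]), (false, [1, 8, 13]), (false, [5, 8]), (true, [6, 7, 9]), (false, [3, 8]), (true, [2, 12, 14]), (true, [4, 12]), (false, [10, 11, 13]), (true, [6, 12]), (false, [10, 15]), (true, [0, 14])] 0 [2, 3, 4, 11, 12, 10]
    [[], [], [], [], [], [], [], [], [], [], [], [], [], [], [], [], [], [], [], [], [], [], [], [], [], [], [], [], [], [], [], [], [(61, [0, 1, 2, 3, 4, 5, 6, 7, 8, 9, 10, 11, 12, 13, 14, 15, 16])], [], []]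

def nd43 : Node :=
  .tool [(false, [1, 5, 15]), (true, [0, 2, 6]), (false, [1, 3, 10]), (true, [2, 4, 9]), (false, [3, 5, 11]), (true, [4, 0, 7]), (false, [1, 8, 13]), (false, [5, 8]), (true, [6, 7, 9]), (false, [3, 8]), (true, [2, 12, 14]), (true, [4, 12]), (false, [10, 11]), (true, [6, 14]), (false, [10, 13, 15]), (true, [14, 0])] 1 [1, 0, 2, 6, 15, 10, 13, 14]
    [[], [], [], [], [], [], [], [], [], [], [], [], [], [], [], [], [], [], [], [], [], [], [], [], [], [], [], [], [], [], [], [], [], [], [(87, [0, 1, 2, 3, 4, 5, 6, 7, 8, 9, 10, 11, 12, 13, 14, 15, 16, 17, 18])]]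

def nd44 : Node :=
  .tool [(false, [1, 5]), (true, [0, 2, 6]), (false, [1, 3, 10]), (true, [2, 4, 9]), (false, [3, 5, 11]), (true, [4, 0, 7]), (false, [1, 8, 13]), (false, [5, 8, 15]), (true, [6, 7, 9]), (false, [3, 8]), (true, [2, 12, 14]), (true, [4, 12]), (false, [10, 11]), (true, [6, 14]), (false, [10, 13, 15]), (true, [14, 7])] 0 [6, 1, 2, 10, 14, 13]
    [[], [], [], [], [], [], [], [], [], [], [], [], [], [], [], [], [], [], [], [], [], [], [], [], [], [], [], [], [], [], [], [], [(80, [0, 1, 2, 3, 4, 5, 6, 7, 8, 9, 10, 11, 12, 13, 14, 15, 16, 17])], [], []]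

def nd45 : Node :=
  .tool [(false, [1, 5, 12]), (true, [0, 2, 6]), (false, [1, 3, 9]), (true, [2, 4, 15]), (false, [3, 5, 10]), (true, [4, 0, 7]), (false, [1, 8, 10]), (false, [5, 8]), (true, [6, 7]), (true, [2, 11, 13]), (true, [4, 11, 6]), (false, [9, 10]), (true, [0, 13]), (false, [12, 9, 14]), (true, [13, 15]), (false, [3, 14])] 2 [2, 1, 0, 12, 13, 9, 6, 11, 10]
    [[], [], [], [], [], [], [], [], [], [], [], [], [], [], [], [], [], [], [], [], [], [], [], [], [], [], [], [], [], [], [], [], [], [], [], [], [], [], [], [], [], [], [], [(59, [6, 1, 2, 3, 4, 10, 0, 5, 8, 7, 11, 9, 16, 15, 13, 14, 12]), (78, [11, 10, 4, 3, 2, 9, 6, 1, 13, 0, 12, 16, 8, 17, 15, 14, 5, 7])]]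

def nd46 : Node :=
  .tool [(false, [1, 5, 12]), (true, [0, 2, 6]), (false, [1, 3, 9]), (true, [2, 4, 14]), (false, [3, 5, 10]), (true, [4, 0, 7]), (false, [1, 8, 15]), (false, [5, 8]), (true, [6, 7]), (true, [2, 11, 13]), (true, [4, 11]), (false, [9, 10]), (true, [0, 13, 14]), (false, [12, 9]), (false, [3, 15, 12]), (true, [6, 14])] 3 [0, 12, 13, 9, 2, 1, 14, 3, 15, 6]
    [[], [], [], [], [], [], [], [], [], [], [], [], [], [], [], [], [], [], [], [], [], [], [], [], [], [], [], [], [], [], [], [], []]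

def nd47 : Node :=
  .tool [(false, [1, 5, 12]), (true, [0, 2, 6]), (false, [1, 3, 9]), (true, [2, 4]), (false, [3, 5, 10]), (true, [4, 0, 7]), (false, [1, 8, 15]), (false, [5, 8]), (true, [6, 7]), (true, [2, 11, 13]), (true, [4, 11, 14]), (false, [9, 10]), (true, [0, 13, 14]), (false, [12, 9, 15]), (false, [12, 10]), (true, [13, 6])] 1 [1, 0, 2, 6, 12, 9, 15, 13]
    [[], [], [], [], [], [], [], [], [], [], [], [], [], [], [], [], [], [], [], [], [], [], [], [], [], [], [], [], [], [], [], [(60, [2, 1, 0, 12, 13, 9, 6, 15, 3, 16, 5, 4, 7, 8, 11, 14, 10])], [], [], [(82, [0, 1, 2, 3, 4, 5, 6, 7, 8, 9, 10, 11, 12, 13, 14, 15, 16, 17])]]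

def nd48 : Node :=
  .tool [(false, [1, 5, 12]), (true, [0, 2, 6]), (false, [1, 3, 9]), (true, [2, 4]), (false, [3, 5, 10]), (true, [4, 0, 7]), (false, [1, 8, 15]), (false, [5, 8]), (true, [6, 7]), (true, [2, 11, 13]), (true, [4, 11, 14]), (false, [9, 10]), (true, [0, 13, 14]), (false, [12, 9]), (false, [12, 10, 15]), (true, [6, 14])] 0 [2, 1, 0, 12, 13, 9]
    [[], [], [], [], [], [], [], [], [], [], [], [], [], [], [], [], [], [], [], [], [], [], [], [], [], [], [], [], [], [], [], [], [], [(65, [0, 1, 2, 3, 4, 5, 6, 7, 8, 9, 10, 11, 12, 13, 14, 15, 16])], []]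

def nd49 : Node :=
  .tool [(false, [1, 5, 8]), (true, [0, 2, 6]), (false, [1, 3, 11]), (true, [2, 4, 10]), (false, [3, 5, 7]), (true, [4, 0]), (false, [1, 7, 14]), (true, [4, 6, 9]), (true, [0, 9, 10]), (false, [7, 8, 15]), (false, [3, 8, 12]), (true, [2, 13]), (true, [10, 13]), (false, [11, 12]), (true, [6, 16]), (true, [9, 16]), (false, [14, 15])] 0 [2, 3, 10, 12, 13, 11]
    [[], [], [], [], [], [], [], [], [], [], [], [], [], [], [], [], [], [], [], [], [], [], [], [], [], [], [], [(57, [0, 1, 2, 3, 4, 5, 6, 7, 8, 9, 10, 11, 12, 13, 14, 15, 16])], [], [], [], [], [(71, [0, 1, 2, 3, 4, 5, 6, 7, 8, 9, 10, 11, 12, 13, 14, 15, 16, 17])], [(57, [0, 1, 2, 3, 4, 5, 6, 7, 8, 9, 10, 11, 12, 13, 14, 15, 16]), (58, [0, 1, 2, 3, 4, 5, 6, 7, 8, 9, 10, 11, 12, 13, 14, 15, 16])], []]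

def nd50 : Node :=
  .tool [(false, [1, 5, 8]), (true, [0, 2, 6]), (false, [1, 3, 11]), (true, [2, 4, 14]), (false, [3, 5, 7]), (true, [4, 0, 10]), (false, [1, 7, 13]), (true, [4, 6, 9]), (true, [0, 9, 12]), (false, [7, 8]), (false, [5, 11]), (true, [2, 10, 15]), (false, [8, 13]), (true, [6, 12]), (false, [3, 16]), (false, [11, 16]), (true, [14, 15])] 1 [6, 7, 1, 13, 9, 0, 12, 8]
    [[], [], [], [], [], [], [], [], [], [], [], [], [], [], [], [], [], [], [], [], [], [], [], [], [], [], [], [], [], [], [], [], [(84, [0, 1, 2, 3, 4, 5, 6, 7, 8, 9, 10, 11, 12, 13, 14, 15, 16, 17, 18])], [], [(94, [0, 1, 2, 3, 4, 5, 6, 7, 8, 9, 10, 11, 12, 13, 14, 15, 16, 17, 18, 19])]]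

def nd51 : Node :=
  .tool [(false, [1, 5, 8]), (true, [0, 2, 6]), (false, [1, 3, 10]), (true, [2, 4, 15]), (false, [3, 5, 7]), (true, [4, 0, 14]), (false, [1, 7, 13]), (true, [4, 6, 9]), (true, [0, 9, 11]), (false, [7, 8]), (true, [2, 11, 12]), (false, [8, 10]), (false, [10, 13]), (true, [6, 12]), (false, [5, 16]), (false, [3, 16]), (true, [14, 15])] 2 [2, 1, 0, 8, 11, 10, 6, 12, 13]
    [[], [], [], [], [], [], [], [], [], [], [], [], [], [], [], [], [], [], [], [], [], [], [], [], [], [], [], [], [], [], [], [], [], [], [], [], [], [], [], [], [], [], [(60, [0, 1, 2, 3, 4, 5, 6, 7, 8, 9, 10, 11, 12, 13, 14, 15, 16]), (74, [0, 1, 2, 3, 4, 5, 6, 7, 8, 9, 10, 11, 12, 13, 14, 15, 16, 17])], [(75, [0, 1, 2, 3, 4, 5, 6, 7, 8, 9, 10, 11, 12, 13, 14, 15, 16, 17])]]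

def nd52 : Node :=
  .tool [(false, [1, 5, 11]), (true, [0, 2, 6]), (false, [1, 3, 16]), (true, [2, 4, 14]), (false, [3, 5, 7]), (true, [4, 0, 8]), (false, [1, 7, 12]), (true, [4, 6, 9]), (false, [5, 10, 15]), (false, [7, 10]), (true, [8, 9]), (true, [0, 13]), (true, [6, 13]), (false, [11, 12, 16]), (false, [3, 15]), (true, [8, 14]), (true, [2, 13])] 1 [1, 2, 0, 6, 16, 11, 12, 13]
    [[], [], [], [], [], [], [], [], [], [], [], [], [], [], [], [], [], [], [], [], [], [], [], [], [], [], [], [], [(59, [2, 3, 4, 7, 6, 1, 14, 12, 16, 13, 0, 5, 11, 9, 8, 10, 15])], [], [], [], [(59, [6, 7, 4, 3, 2, 1, 9, 16, 12, 13, 0, 5, 11, 14, 8, 15, 10])], [], [(96, [0, 1, 2, 3, 4, 5, 6, 7, 8, 9, 10, 11, 12, 13, 14, 15, 16, 17, 18, 19])]]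

def nd53 : Node :=
  .tool [(false, [1, 5, 12]), (true, [0, 2, 6]), (false, [1, 3, 9]), (true, [2, 4, 14]), (false, [3, 5, 10]), (true, [4, 0, 7]), (false, [1, 8]), (false, [5, 8]), (true, [6, 7, 14]), (true, [2, 11, 13]), (true, [4, 11, 16]), (false, [9, 10]), (true, [0, 13]), (false, [12, 9]), (false, [3, 8, 15]), (true, [14, 16]), (false, [10, 15])] 0 [2, 3, 4, 10, 11, 9]
    [[], [], [], [], [], [], [], [], [], [], [], [], [], [], [], [], [], [], [], [], [], [], [], [], [], [], [], [], [], [], [], [], [(62, [0, 1, 2, 3, 4, 5, 6, 7, 8, 9, 10, 11, 12, 13, 14, 15, 16])], [(81, [0, 1, 2, 3, 4, 5, 6, 7, 8, 9, 10, 11, 12, 13, 14, 15, 16, 17])], []]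

def nd54 : Node :=
  .tool [(false, [1, 5, 12]), (true, [0, 2, 6]), (false, [1, 3, 9]), (true, [2, 4, 14]), (false, [3, 5, 10]), (true, [4, 0, 7]), (false, [1, 8, 15]), (false, [5, 8, 16]), (true, [6, 7]), (true, [2, 11, 13]), (true, [4, 11]), (false, [9, 10]), (true, [0, 13]), (false, [12, 9]), (false, [3, 15, 16]), (true, [6, 14]), (true, [7, 14])] 0 [2, 1, 0, 12, 13, 9]
    [[], [], [], [], [], [], [], [], [], [], [], [], [], [], [], [], [], [], [], [], [], [], [], [], [], [], [], [(63, [0, 1, 2, 3, 4, 5, 6, 7, 8, 9, 10, 11, 12, 13, 14, 15, 16]), (60, [1, 2, 3, 14, 15, 6, 9, 13, 0, 12, 4, 5, 10, 11, 8, 16, 7])], [], [], [], [], [(64, [0, 1, 2, 3, 4, 5, 6, 7, 8, 9, 10, 11, 12, 13, 14, 15, 16]), (60, [3, 2, 1, 6, 15, 14, 9, 11, 4, 10, 0, 5, 12, 13, 16, 8, 7])], [(63, [0, 1, 2, 3, 4, 5, 6, 7, 8, 9, 10, 11, 12, 13, 14, 15, 16]), (64, [4, 3, 2, 1, 0, 5, 14, 7, 16, 9, 12, 13, 10, 11, 6, 15, 8])], []]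

def nd55 : Node :=
  .tool [(false, [1, 5, 12]), (true, [0, 2, 6]), (false, [1, 3, 9]), (true, [2, 4, 16]), (false, [3, 5, 10]), (true, [4, 0, 7]), (false, [1, 8]), (false, [5, 8]), (true, [6, 7]), (true, [2, 11, 13]), (true, [4, 11, 14]), (false, [9, 10]), (true, [0, 13, 14]), (false, [12, 9, 15]), (false, [12, 10]), (true, [13, 16]), (false, [3, 15])] 0 [2, 1, 0, 12, 13, 9]
    [[], [], [], [], [], [], [], [], [], [], [], [], [], [], [], [], [], [], [], [], [], [], [], [], [], [], [], [(60, [2, 1, 0, 12, 13, 9, 6, 15, 3, 16, 5, 4, 7, 8, 11, 14, 10])], [], [], [], [], [(64, [3, 2, 9, 11, 10, 4, 1, 5, 0, 13, 14, 12, 16, 15, 8, 6, 7]), (83, [0, 1, 2, 3, 4, 5, 6, 7, 8, 9, 10, 11, 12, 13, 14, 15, 16, 17])], [(64, [1, 0, 5, 4, 3, 2, 12, 9, 13, 7, 16, 15, 6, 8, 10, 14, 11])], []]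

def nd56 : Node :=
  .tool [(false, [1, 5]), (true, [0, 2, 6]), (false, [1, 3, 10]), (true, [2, 4, 9]), (false, [3, 5, 14]), (true, [4, 0, 7]), (false, [1, 8, 11]), (false, [5, 8, 15]), (true, [6, 7, 9]), (false, [3, 8, 12]), (true, [2, 13]), (true, [6, 13]), (true, [9, 13, 16]), (false, [10, 11, 12]), (true, [4, 16]), (true, [7, 16]), (false, [14, 15, 12])] 5 [12, 13, 10, 2, 3, 9, 11, 8, 6, 1]
    [[], [], [], [], [], [], [], [], [], [], [], [], [], [], [], [], [], [], [], [], [], [], [], [], [], [], [], [], [], [], [], [], [(107, [0, 1, 2, 3, 4, 5, 6, 7, 8, 9, 10, 11, 12, 13, 14, 15, 16, 17, 18, 19])]]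

def nd57 : Node :=
  .tool [(false, [1, 5, 8]), (true, [0, 2, 6]), (false, [1, 3, 11]), (true, [2, 4, 10]), (false, [3, 5, 7]), (true, [4, 0, 13]), (false, [1, 7, 14]), (true, [4, 6, 9]), (true, [0, 9, 10]), (false, [7, 8, 15]), (false, [3, 8, 12]), (true, [2, 13]), (true, [10, 13]), (false, [11, 12, 5]), (true, [6, 16]), (true, [9, 16]), (false, [14, 15])] 0 [6, 7, 9, 15, 16, 14]
    [[], [], [], [], [], [], [], [], [], [], [], [], [], [], [], [], [], [], [], [], [], [], [], [], [], [], [], [], [], [], [], [], [], [], []]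

def nd58 : Node :=
  .tool [(false, [1, 5, 8]), (true, [0, 2, 6]), (false, [1, 3, 11]), (true, [2, 4, 10]), (false, [3, 5, 7]), (true, [4, 0]), (false, [1, 7, 14]), (true, [4, 6, 9]), (true, [0, 9, 10]), (false, [7, 8, 15]), (false, [3, 8, 12]), (true, [2, 13]), (true, [10, 13]), (false, [11, 12, 15]), (true, [6, 16]), (true, [9, 16, 13]), (false, [14, 15])] 0 [6, 7, 9, 15, 16, 14]
    [[], [], [], [], [], [], [], [], [], [], [], [], [], [], [], [], [], [], [], [], [], [], [], [], [], [], [], [], [], [], [], [], [], [], []]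

def nd59 : Node :=
  .tool [(false, [1, 5, 8]), (true, [0, 2, 6]), (false, [1, 3, 11]), (true, [2, 4, 13]), (false, [3, 5, 7]), (true, [4, 0, 10]), (false, [1, 7, 16]), (true, [4, 6, 9]), (true, [0, 9]), (false, [7, 8, 12]), (false, [5, 11, 12]), (true, [2, 10, 14]), (true, [9, 10]), (false, [3, 15]), (false, [11, 15, 16]), (true, [13, 14]), (true, [14, 6])] 0 [3, 2, 11, 14, 15, 13]
    [[], [], [], [], [], [], [], [], [], [], [], [], [], [], [], [], [], [], [], [], [], [], [], [], [], [], [], [], [], [], [], [], [], [], []]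

def nd60 : Node :=
  .tool [(false, [1, 5, 8]), (true, [0, 2, 6]), (false, [1, 3, 10]), (true, [2, 4, 15]), (false, [3, 5, 7]), (true, [4, 0, 14]), (false, [1, 7, 13]), (true, [4, 6, 9]), (true, [0, 9, 11]), (false, [7, 8]), (true, [2, 11, 12]), (false, [8, 10, 16]), (false, [10, 13]), (true, [6, 12]), (false, [5, 16]), (false, [3, 16]), (true, [14, 15, 11])] 0 [2, 3, 15, 16, 11, 10]
    [[], [], [], [], [], [], [], [], [], [], [], [], [], [], [], [], [], [], [], [], [], [], [], [], [], [], [], [], [], [], [], [], [], [], []]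

def nd61 : Node :=
  .tool [(false, [1, 5, 15]), (true, [0, 2, 6]), (false, [1, 3, 10]), (true, [2, 4, 9]), (false, [3, 5, 11]), (true, [4, 0, 7]), (false, [1, 8, 13]), (false, [5, 8]), (true, [6, 7, 9]), (false, [3, 8, 16]), (true, [2, 12, 14]), (true, [4, 12]), (false, [10, 11, 13]), (true, [6, 12]), (false, [10, 15, 16]), (true, [0, 14]), (true, [9, 14])] 2 [2, 1, 0, 15, 14, 10, 6, 12, 13]
    [[], [], [], [], [], [], [], [], [], [], [], [], [], [], [], [], [], [], [], [], [], [], [], [], [], [], [], [], [], [], [], [], [], [], [], [], [], [], [], [], [], [], [], []]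

def nd62 : Node :=
  .tool [(false, [1, 5, 12]), (true, [0, 2, 6]), (false, [1, 3, 9]), (true, [2, 4, 14]), (false, [3, 5, 10]), (true, [4, 0, 7]), (false, [1, 8]), (false, [5, 8]), (true, [6, 7, 14]), (true, [2, 11, 13]), (true, [4, 11, 16]), (false, [9, 10]), (true, [0, 13]), (false, [12, 9, 15]), (false, [3, 8, 15]), (true, [14, 16, 13]), (false, [10, 15])] 0 [2, 1, 0, 12, 13, 9]
    [[], [], [], [], [], [], [], [], [], [], [], [], [], [], [], [], [], [], [], [], [], [], [], [], [], [], [], [], [], [], [], [], [], [], []]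

def nd63 : Node :=
  .tool [(false, [1, 5, 12]), (true, [0, 2, 6]), (false, [1, 3, 9]), (true, [2, 4, 14]), (false, [3, 5, 10]), (true, [4, 0, 7]), (false, [1, 8, 15]), (false, [5, 8, 16]), (true, [6, 7, 13]), (true, [2, 11, 13]), (true, [4, 11]), (false, [9, 10]), (true, [0, 13]), (false, [12, 9, 8]), (false, [3, 15, 16]), (true, [6, 14]), (true, [7, 14])] 0 [2, 3, 4, 10, 11, 9]
    [[], [], [], [], [], [], [], [], [], [], [], [], [], [], [], [], [], [], [], [], [], [], [], [], [], [], [], [], [], [], [], [], [], [], []]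

def nd64 : Node :=
  .tool [(false, [1, 5, 12]), (true, [0, 2, 6]), (false, [1, 3, 9]), (true, [2, 4, 14]), (false, [3, 5, 10]), (true, [4, 0, 7]), (false, [1, 8, 15]), (false, [5, 8, 16]), (true, [6, 7, 11]), (true, [2, 11, 13]), (true, [4, 11]), (false, [9, 10, 8]), (true, [0, 13]), (false, [12, 9]), (false, [3, 15, 16]), (true, [6, 14]), (true, [7, 14])] 0 [0, 1, 2, 9, 13, 12]
    [[], [], [], [], [], [], [], [], [], [], [], [], [], [], [], [], [], [], [], [], [], [], [], [], [], [], [], [], [], [], [], [], [], [], []]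

def nd65 : Node :=
  .tool [(false, [1, 5, 12]), (true, [0, 2, 6]), (false, [1, 3, 9]), (true, [2, 4]), (false, [3, 5, 10]), (true, [4, 0, 7]), (false, [1, 8, 15]), (false, [5, 8, 16]), (true, [6, 7]), (true, [2, 11, 13]), (true, [4, 11, 14]), (false, [9, 10]), (true, [0, 13, 14]), (false, [12, 9, 16]), (false, [12, 10, 15]), (true, [6, 14]), (true, [13, 7])] 2 [0, 1, 2, 9, 13, 12, 6, 14, 15]
    [[], [], [], [], [], [], [], [], [], [], [], [], [], [], [], [], [], [], [], [], [], [], [], [], [], [], [], [], [], [], [], [], [], [], [], [], [], [], [], [], [], [], [], []]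

def nd66 : Node :=
  .tool [(false, [1, 5, 8]), (true, [0, 2, 6]), (false, [1, 3, 11]), (true, [2, 4, 15]), (false, [3, 5, 7]), (true, [4, 0, 10]), (false, [1, 7, 12]), (true, [4, 6, 9]), (true, [0, 9]), (false, [7, 8, 13]), (false, [5, 11]), (true, [2, 10, 16]), (true, [6, 14]), (true, [9, 14]), (false, [12, 13]), (false, [3, 17]), (false, [11, 17]), (true, [15, 16])] 0 [9, 7, 6, 12, 14, 13]
    [[], [], [], [], [], [], [], [], [], [], [], [], [], [], [], [], [], [], [], [], [], [], [], [], [], [], [], [], [], [], [], [], [(72, [0, 1, 2, 3, 4, 5, 6, 7, 8, 9, 10, 11, 12, 13, 14, 15, 16, 17]), (73, [0, 1, 2, 3, 4, 5, 6, 7, 8, 9, 10, 11, 12, 13, 14, 15, 16, 17])], [], [(84, [0, 1, 2, 3, 4, 5, 6, 7, 8, 9, 10, 11, 18, 12, 15, 16, 17, 14, 13])]]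

def nd67 : Node :=
  .tool [(false, [1, 5, 12]), (true, [0, 2, 6]), (false, [1, 3, 15]), (true, [2, 4, 11]), (false, [3, 5, 7]), (true, [4, 0, 8]), (false, [1, 7, 14]), (true, [4, 6, 9]), (false, [5, 10]), (false, [7, 10]), (true, [8, 9]), (false, [3, 12, 16]), (true, [0, 11, 13]), (false, [12, 14]), (true, [6, 13]), (true, [2, 17]), (true, [11, 17]), (false, [15, 16])] 3 [2, 1, 6, 7, 4, 3, 0, 5, 12, 11]
    [[], [], [], [], [], [], [], [], [], [], [], [], [], [], [], [], [], [], [], [], [], [], [], [], [], [], [], [], [(76, [0, 1, 2, 3, 4, 5, 6, 7, 8, 9, 10, 11, 12, 13, 14, 15, 16, 17])], [], [(77, [0, 1, 2, 3, 4, 5, 6, 7, 8, 9, 10, 11, 12, 13, 14, 15, 16, 17])], [(76, [1, 0, 5, 4, 3, 2, 12, 11, 15, 16, 17, 7, 6, 14, 13, 8, 9, 10])], []]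

def nd68 : Node :=
  .tool [(false, [1, 5, 11]), (true, [0, 2, 6]), (false, [1, 3]), (true, [2, 4, 14]), (false, [3, 5, 7]), (true, [4, 0, 8]), (false, [1, 7, 12]), (true, [4, 6, 9]), (false, [5, 10, 15]), (false, [7, 10, 16]), (true, [8, 9, 14]), (true, [0, 13]), (true, [6, 13]), (false, [11, 12]), (false, [3, 10]), (true, [8, 17]), (true, [9, 17]), (false, [15, 16])] 1 [4, 3, 5, 7, 2, 0, 6, 1]
    [[], [], [], [], [], [], [], [], [], [], [], [], [], [], [], [], [], [], [], [], [], [], [], [], [], [], [], [], [(72, [3, 14, 10, 9, 7, 4, 12, 6, 2, 1, 5, 8, 13, 0, 11, 16, 15, 17])], [(72, [3, 2, 1, 0, 5, 4, 15, 8, 14, 10, 7, 6, 17, 9, 16, 11, 12, 13])], [], [], [(72, [3, 2, 1, 6, 7, 4, 16, 9, 14, 10, 5, 0, 17, 8, 15, 12, 11, 13])], [], [(85, [0, 1, 2, 3, 4, 5, 6, 7, 8, 9, 10, 11, 12, 13, 14, 15, 16, 17, 18]), (95, [0, 1, 2, 3, 4, 5, 6, 7, 8, 9, 10, 11, 12, 13, 14, 15, 16, 17, 18, 19])]]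

def nd69 : Node :=
  .tool [(false, [1, 5, 11]), (true, [0, 2, 6]), (false, [1, 3, 16]), (true, [2, 4, 14]), (false, [3, 5, 7]), (true, [4, 0, 8]), (false, [1, 7, 12]), (true, [4, 6, 9]), (false, [5, 10, 15]), (false, [7, 10]), (true, [8, 9]), (true, [0, 13]), (true, [6, 13, 17]), (false, [11, 12]), (false, [3, 15]), (true, [8, 14]), (true, [2, 17]), (false, [16, 12])] 1 [1, 2, 0, 6, 3, 5, 7, 4]
    [[], [], [], [], [], [], [], [], [], [], [], [], [], [], [], [], [], [], [], [], [], [], [], [], [], [], [], [], [(78, [0, 1, 2, 3, 4, 5, 6, 7, 8, 9, 10, 11, 12, 13, 14, 15, 16, 17])], [(78, [7, 4, 3, 2, 1, 6, 5, 0, 12, 11, 13, 9, 8, 10, 16, 17, 14, 15])], [], [(79, [0, 1, 2, 3, 4, 5, 6, 7, 8, 9, 10, 11, 12, 13, 14, 15, 16, 17])], [], [], [(86, [0, 1, 2, 3, 4, 5, 6, 7, 8, 9, 10, 11, 12, 13, 14, 15, 16, 17, 18])]]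

def nd70 : Node :=
  .tool [(false, [1, 5, 12]), (true, [0, 2, 6]), (false, [1, 3, 9]), (true, [2, 4, 14]), (false, [3, 5, 10]), (true, [4, 0, 7]), (false, [1, 8, 15]), (false, [5, 8]), (true, [6, 7]), (true, [2, 11, 13]), (true, [4, 11]), (false, [9, 10, 17]), (true, [0, 13, 16]), (false, [12, 9]), (false, [3, 15]), (true, [6, 14]), (false, [12, 17]), (true, [16, 11])] 2 [2, 1, 0, 5, 4, 3, 6, 14, 15]
    [[], [], [], [], [], [], [], [], [], [], [], [], [], [], [], [], [], [], [], [], [], [], [], [], [], [], [], [], [], [], [], [], [], [], [], [], [], [], [], [], [], [], [], [(88, [0, 1, 2, 3, 4, 5, 6, 7, 8, 9, 10, 11, 12, 13, 14, 15, 16, 17, 18]), (97, [0, 1, 2, 3, 4, 5, 6, 7, 8, 9, 10, 11, 12, 13, 14, 15, 16, 17, 18, 19])]]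

def nd71 : Node :=
  .tool [(false, [1, 5, 8]), (true, [0, 2, 6]), (false, [1, 3, 11]), (true, [2, 4, 10]), (false, [3, 5, 7]), (true, [4, 0, 17]), (false, [1, 7, 14]), (true, [4, 6, 9]), (true, [0, 9, 10]), (false, [7, 8, 15]), (false, [3, 8, 12]), (true, [2, 13, 17]), (true, [10, 13]), (false, [11, 12]), (true, [6, 16]), (true, [9, 16]), (false, [14, 15]), (false, [11, 5])] 0 [6, 7, 9, 15, 16, 14]
    [[], [], [], [], [], [], [], [], [], [], [], [], [], [], [], [], [], [], [], [], [], [], [], [], [], [], [], [], [], [], [], [], [], [], []]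

def nd72 : Node :=
  .tool [(false, [1, 5, 8]), (true, [0, 2, 6]), (false, [1, 3, 11]), (true, [2, 4, 15]), (false, [3, 5, 7]), (true, [4, 0, 10]), (false, [1, 7, 12]), (true, [4, 6, 9]), (true, [0, 9]), (false, [7, 8, 13]), (false, [5, 11, 13]), (true, [2, 10, 16]), (true, [6, 14]), (true, [9, 14, 10]), (false, [12, 13]), (false, [3, 17]), (false, [11, 17]), (true, [15, 16])] 0 [3, 2, 11, 16, 17, 15]
    [[], [], [], [], [], [], [], [], [], [], [], [], [], [], [], [], [], [], [], [], [], [], [], [], [], [], [], [], [], [], [], [], [], [], []]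

def nd73 : Node :=
  .tool [(false, [1, 5, 8]), (true, [0, 2, 6]), (false, [1, 3, 11]), (true, [2, 4, 15]), (false, [3, 5, 7]), (true, [4, 0, 10]), (false, [1, 7, 12]), (true, [4, 6, 9]), (true, [0, 9]), (false, [7, 8, 13]), (false, [5, 11]), (true, [2, 10, 16]), (true, [6, 14]), (true, [9, 14, 15]), (false, [12, 13]), (false, [3, 17, 13]), (false, [11, 17]), (true, [15, 16])] 0 [11, 2, 3, 15, 17, 16]
    [[], [], [], [], [], [], [], [], [], [], [], [], [], [], [], [], [], [], [], [], [], [], [], [], [], [], [], [], [], [], [], [], [], [], []]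

def nd74 : Node :=
  .tool [(false, [1, 5, 8]), (true, [0, 2, 6]), (false, [1, 3, 10]), (true, [2, 4, 15]), (false, [3, 5, 7]), (true, [4, 0, 14]), (false, [1, 7, 13]), (true, [4, 6, 9]), (true, [0, 9, 11]), (false, [7, 8]), (true, [2, 11, 12]), (false, [8, 10, 17]), (false, [10, 13]), (true, [6, 12]), (false, [5, 16, 17]), (false, [3, 16]), (true, [14, 15]), (true, [11, 14])] 0 [5, 4, 3, 15, 16, 14]
    [[], [], [], [], [], [], [], [], [], [], [], [], [], [], [], [], [], [], [], [], [], [], [], [], [], [], [], [], [], [], [], [], [], [], []]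

def nd75 : Node :=
  .tool [(false, [1, 5, 8]), (true, [0, 2, 6]), (false, [1, 3, 10]), (true, [2, 4, 15]), (false, [3, 5, 7]), (true, [4, 0, 14]), (false, [1, 7, 13]), (true, [4, 6, 9]), (true, [0, 9, 11]), (false, [7, 8, 17]), (true, [2, 11, 12]), (false, [8, 10]), (false, [10, 13, 17]), (true, [6, 12]), (false, [5, 16]), (false, [3, 16]), (true, [14, 15]), (true, [12, 9])] 0 [3, 4, 5, 14, 16, 15]
    [[], [], [], [], [], [], [], [], [], [], [], [], [], [], [], [], [], [], [], [], [], [], [], [], [], [], [], [], [], [], [], [], [], [], []]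

def nd76 : Node :=
  .tool [(false, [1, 5, 12]), (true, [0, 2, 6]), (false, [1, 3, 15]), (true, [2, 4, 11]), (false, [3, 5, 7]), (true, [4, 0, 8]), (false, [1, 7, 14]), (true, [4, 6, 9]), (false, [5, 10]), (false, [7, 10, 15]), (true, [8, 9]), (false, [3, 12, 16]), (true, [0, 11, 13]), (false, [12, 14]), (true, [6, 13]), (true, [2, 17, 9]), (true, [11, 17]), (false, [15, 16])] 0 [11, 3, 2, 15, 17, 16]
    [[], [], [], [], [], [], [], [], [], [], [], [], [], [], [], [], [], [], [], [], [], [], [], [], [], [], [], [], [], [], [], [], [], [], []]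

def nd77 : Node :=
  .tool [(false, [1, 5, 12]), (true, [0, 2, 6]), (false, [1, 3, 15]), (true, [2, 4, 11]), (false, [3, 5, 7]), (true, [4, 0, 8]), (false, [1, 7, 14]), (true, [4, 6, 9]), (false, [5, 10]), (false, [7, 10, 16]), (true, [8, 9]), (false, [3, 12, 16]), (true, [0, 11, 13]), (false, [12, 14]), (true, [6, 13]), (true, [2, 17]), (true, [11, 17, 9]), (false, [15, 16])] 0 [2, 3, 11, 16, 17, 15]
    [[], [], [], [], [], [], [], [], [], [], [], [], [], [], [], [], [], [], [], [], [], [], [], [], [], [], [], [], [], [], [], [], [], [(89, [0, 1, 2, 3, 4, 5, 6, 7, 8, 9, 10, 11, 12, 13, 14, 15, 16, 17, 18])], []]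

def nd78 : Node :=
  .tool [(false, [1, 5, 11]), (true, [0, 2, 6]), (false, [1, 3, 16]), (true, [2, 4, 14]), (false, [3, 5, 7]), (true, [4, 0, 8]), (false, [1, 7, 12]), (true, [4, 6, 9]), (false, [5, 10, 15]), (false, [7, 10, 16]), (true, [8, 9]), (true, [0, 13]), (true, [6, 13, 17]), (false, [11, 12]), (false, [3, 15]), (true, [8, 14]), (true, [2, 17, 9]), (false, [16, 12])] 0 [0, 1, 6, 12, 13, 11]
    [[], [], [], [], [], [], [], [], [], [], [], [], [], [], [], [], [], [], [], [], [], [], [], [], [], [], [], [], [], [], [], [], [], [], []]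

def nd79 : Node :=
  .tool [(false, [1, 5, 11]), (true, [0, 2, 6]), (false, [1, 3, 16]), (true, [2, 4, 14]), (false, [3, 5, 7]), (true, [4, 0, 8]), (false, [1, 7, 12]), (true, [4, 6, 9]), (false, [5, 10, 15]), (false, [7, 10, 11]), (true, [8, 9]), (true, [0, 13, 9]), (true, [6, 13, 17]), (false, [11, 12]), (false, [3, 15]), (true, [8, 14]), (true, [2, 17]), (false, [16, 12])] 0 [2, 1, 6, 12, 17, 16]
    [[], [], [], [], [], [], [], [], [], [], [], [], [], [], [], [], [], [], [], [], [], [], [], [], [], [], [], [], [], [], [], [], [], [], []]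

def nd80 : Node :=
  .tool [(false, [1, 5, 17]), (true, [0, 2, 6]), (false, [1, 3, 10]), (true, [2, 4, 9]), (false, [3, 5, 11]), (true, [4, 0, 7]), (false, [1, 8, 13]), (false, [5, 8, 15]), (true, [6, 7, 9]), (false, [3, 8]), (true, [2, 12, 14]), (true, [4, 12]), (false, [10, 11]), (true, [6, 14, 16]), (false, [10, 13, 15]), (true, [14, 7]), (false, [13, 17]), (true, [0, 16])] 2 [6, 1, 0, 17, 16, 13, 2, 14, 10]
    [[], [], [], [], [], [], [], [], [], [], [], [], [], [], [], [], [], [], [], [], [], [], [], [], [], [], [], [], [], [], [], [], [], [], [], [], [], [], [], [], [], [], [], []]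

def nd81 : Node :=
  .tool [(false, [1, 5, 12]), (true, [0, 2, 6]), (false, [1, 3, 9]), (true, [2, 4, 14]), (false, [3, 5, 10]), (true, [4, 0, 7]), (false, [1, 8]), (false, [5, 8, 17]), (true, [6, 7, 14]), (true, [2, 11, 13]), (true, [4, 11, 16]), (false, [9, 10, 17]), (true, [0, 13]), (false, [12, 9]), (false, [3, 8, 15]), (true, [14, 16]), (false, [10, 15]), (true, [11, 7])] 0 [4, 5, 7, 17, 11, 10]
    [[], [], [], [], [], [], [], [], [], [], [], [], [], [], [], [], [], [], [], [], [], [], [], [], [], [], [], [], [], [], [], [], [], [], []]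

def nd82 : Node :=
  .tool [(false, [1, 5, 12]), (true, [0, 2, 6]), (false, [1, 3, 9]), (true, [2, 4]), (false, [3, 5, 10]), (true, [4, 0, 7]), (false, [1, 8, 15]), (false, [5, 8]), (true, [6, 7]), (true, [2, 11, 13]), (true, [4, 11, 14]), (false, [9, 10]), (true, [0, 13, 14]), (false, [12, 9, 15]), (false, [12, 10, 17]), (true, [13, 6, 16]), (false, [15, 17]), (true, [14, 16])] 0 [0, 5, 4, 10, 14, 12]
    [[], [], [], [], [], [], [], [], [], [], [], [], [], [], [], [], [], [], [], [], [], [], [], [], [], [], [], [], [], [], [], [], [], [(93, [0, 1, 2, 3, 4, 5, 6, 7, 8, 9, 10, 11, 12, 13, 14, 15, 16, 17, 18])], []]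

def nd83 : Node :=
  .tool [(false, [1, 5, 12]), (true, [0, 2, 6]), (false, [1, 3, 9]), (true, [2, 4, 16]), (false, [3, 5, 10]), (true, [4, 0, 7]), (false, [1, 8, 17]), (false, [5, 8]), (true, [6, 7]), (true, [2, 11, 13]), (true, [4, 11, 14]), (false, [9, 10, 17]), (true, [0, 13, 14]), (false, [12, 9, 15]), (false, [12, 10]), (true, [13, 16]), (false, [3, 15]), (true, [6, 11])] 0 [1, 0, 5, 7, 8, 6]
    [[], [], [], [], [], [], [], [], [], [], [], [], [], [], [], [], [], [], [], [], [], [], [], [], [], [], [], [], [], [], [], [], [], [], []]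

def nd84 : Node :=
  .tool [(false, [1, 5, 8]), (true, [0, 2, 6]), (false, [1, 3, 11]), (true, [2, 4, 14]), (false, [3, 5, 7]), (true, [4, 0, 10]), (false, [1, 7, 13]), (true, [4, 6, 9]), (true, [0, 9, 12]), (false, [7, 8, 18]), (false, [5, 11]), (true, [2, 10, 15]), (false, [8, 13]), (true, [6, 12, 17]), (false, [3, 16]), (false, [11, 16]), (true, [14, 15]), (false, [13, 18]), (true, [9, 17])] 3 [0, 5, 10, 11, 2, 1, 4, 3, 7, 6]
    [[], [], [], [], [], [], [], [], [], [], [], [], [], [], [], [], [], [], [], [], [], [], [], [], [], [], [], [], [], [], [], [], []]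

def nd85 : Node :=
  .tool [(false, [1, 5, 11]), (true, [0, 2, 6]), (false, [1, 3, 18]), (true, [2, 4, 14]), (false, [3, 5, 7]), (true, [4, 0, 8]), (false, [1, 7, 12]), (true, [4, 6, 9]), (false, [5, 10, 15]), (false, [7, 10, 16]), (true, [8, 9, 14]), (true, [0, 13]), (true, [6, 13]), (false, [11, 12, 18]), (false, [3, 10]), (true, [8, 17]), (true, [9, 17]), (false, [15, 16]), (true, [2, 13])] 0 [8, 10, 9, 16, 17, 15]
    [[], [], [], [], [], [], [], [], [], [], [], [], [], [], [], [], [], [], [], [], [], [], [], [], [], [], [], [(99, [0, 1, 2, 3, 4, 5, 6, 7, 8, 9, 10, 11, 12, 13, 14, 15, 16, 17, 18, 19])], [], [], [], [], [(114, [0, 1, 2, 3, 4, 5, 6, 7, 8, 9, 10, 11, 12, 13, 14, 15, 16, 17, 18, 19, 20])], [(90, [0, 1, 2, 3, 4, 5, 6, 7, 8, 9, 10, 11, 12, 13, 14, 15, 16, 17, 18])], []]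

def nd86 : Node :=
  .tool [(false, [1, 5, 11]), (true, [0, 2, 6]), (false, [1, 3, 16]), (true, [2, 4, 14]), (false, [3, 5, 7]), (true, [4, 0, 8]), (false, [1, 7, 12]), (true, [4, 6, 9]), (false, [5, 10, 15]), (false, [7, 10, 18]), (true, [8, 9]), (true, [0, 13]), (true, [6, 13, 17]), (false, [11, 12]), (false, [3, 15, 18]), (true, [8, 14]), (true, [2, 17]), (false, [16, 12]), (true, [14, 9])] 1 [4, 3, 7, 5, 2, 6, 0, 1]
    [[], [], [], [], [], [], [], [], [], [], [], [], [], [], [], [], [], [], [], [], [], [], [], [], [], [], [], [], [], [], [], [], [], [], [(102, [0, 1, 2, 3, 4, 5, 6, 7, 8, 9, 10, 11, 12, 13, 14, 15, 16, 17, 18, 19])]]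

def nd87 : Node :=
  .tool [(false, [1, 5, 15]), (true, [0, 2, 6]), (false, [1, 3, 10]), (true, [2, 4, 9]), (false, [3, 5, 11]), (true, [4, 0, 7]), (false, [1, 8, 13]), (false, [5, 8]), (true, [6, 7, 9]), (false, [3, 8]), (true, [2, 12, 14]), (true, [4, 12]), (false, [10, 11]), (true, [6, 14, 17]), (false, [10, 13, 15]), (true, [14, 0, 16]), (false, [15, 18]), (false, [13, 18]), (true, [16, 17])] 0 [2, 3, 4, 11, 12, 10]
    [[], [], [], [], [], [], [], [], [], [], [], [], [], [], [], [], [], [], [], [], [], [], [], [], [], [], [], [(103, [0, 1, 2, 3, 4, 5, 6, 7, 8, 9, 10, 11, 12, 13, 14, 15, 16, 17, 18, 19])], [], [], [], [], [], [(104, [0, 1, 2, 3, 4, 5, 6, 7, 8, 9, 10, 11, 12, 13, 14, 15, 16, 17, 18, 19])], []]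

def nd88 : Node :=
  .tool [(false, [1, 5, 12]), (true, [0, 2, 6]), (false, [1, 3, 9]), (true, [2, 4, 14]), (false, [3, 5, 10]), (true, [4, 0, 7]), (false, [1, 8, 15]), (false, [5, 8, 18]), (true, [6, 7]), (true, [2, 11, 13]), (true, [4, 11]), (false, [9, 10, 17]), (true, [0, 13, 16]), (false, [12, 9]), (false, [3, 15, 18]), (true, [6, 14]), (false, [12, 17]), (true, [16, 11]), (true, [14, 7])] 0 [2, 3, 4, 10, 11, 9]
    [[], [], [], [], [], [], [], [], [], [], [], [], [], [], [], [], [], [], [], [], [], [], [], [], [], [], [], [], [], [], [], [], [(91, [0, 1, 2, 3, 4, 5, 6, 7, 8, 9, 10, 11, 12, 13, 14, 15, 16, 17, 18]), (92, [0, 1, 2, 3, 4, 5, 6, 7, 8, 9, 10, 11, 12, 13, 14, 15, 16, 17, 18])], [], []]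

def nd89 : Node :=
  .tool [(false, [1, 5, 12]), (true, [0, 2, 6]), (false, [1, 3, 15]), (true, [2, 4, 11]), (false, [3, 5, 7]), (true, [4, 0, 8]), (false, [1, 7, 14]), (true, [4, 6, 9]), (false, [5, 10]), (false, [7, 10, 16]), (true, [8, 9]), (false, [3, 12, 16]), (true, [0, 11, 13]), (false, [12, 14, 18]), (true, [6, 13]), (true, [2, 17]), (true, [11, 17, 9]), (false, [15, 16, 18]), (true, [17, 13])] 1 [3, 4, 2, 11, 5, 1, 12, 0]
    [[], [], [], [], [], [], [], [], [], [], [], [], [], [], [], [], [], [], [], [], [], [], [], [], [], [], [], [], [], [], [], [], [], [], []]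

def nd90 : Node :=
  .tool [(false, [1, 5, 11]), (true, [0, 2, 6]), (false, [1, 3, 18]), (true, [2, 4, 14]), (false, [3, 5, 7]), (true, [4, 0, 8]), (false, [1, 7, 12]), (true, [4, 6, 9]), (false, [5, 10, 15]), (false, [7, 10, 16]), (true, [8, 9, 14]), (true, [0, 13]), (true, [6, 13, 17]), (false, [11, 12, 18]), (false, [3, 10]), (true, [8, 17]), (true, [9, 17]), (false, [15, 16, 12]), (true, [2, 13])] 0 [9, 7, 6, 12, 17, 16]
    [[], [], [], [], [], [], [], [], [], [], [], [], [], [], [], [], [], [], [], [], [], [], [], [], [], [], [], [], [], [], [], [], [], [], []]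

def nd91 : Node :=
  .tool [(false, [1, 5, 12]), (true, [0, 2, 6]), (false, [1, 3, 9]), (true, [2, 4, 14]), (false, [3, 5, 10]), (true, [4, 0, 7]), (false, [1, 8, 15]), (false, [5, 8, 18]), (true, [6, 7]), (true, [2, 11, 13]), (true, [4, 11]), (false, [9, 10, 17]), (true, [0, 13, 16]), (false, [12, 9, 15]), (false, [3, 15, 18]), (true, [6, 14, 13]), (false, [12, 17]), (true, [16, 11]), (true, [14, 7])] 0 [5, 0, 1, 6, 8, 7]
    [[], [], [], [], [], [], [], [], [], [], [], [], [], [], [], [], [], [], [], [], [], [], [], [], [], [], [], [], [], [], [], [], [], [], []]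

def nd92 : Node :=
  .tool [(false, [1, 5, 12]), (true, [0, 2, 6]), (false, [1, 3, 9]), (true, [2, 4, 14]), (false, [3, 5, 10]), (true, [4, 0, 7]), (false, [1, 8, 15]), (false, [5, 8, 18]), (true, [6, 7]), (true, [2, 11, 13]), (true, [4, 11]), (false, [9, 10, 17]), (true, [0, 13, 16]), (false, [12, 9, 18]), (false, [3, 15, 18]), (true, [6, 14]), (false, [12, 17]), (true, [16, 11]), (true, [14, 7, 13])] 0 [0, 5, 7, 18, 13, 12]
    [[], [], [], [], [], [], [], [], [], [], [], [], [], [], [], [], [], [], [], [], [], [], [], [], [], [], [], [], [], [], [], [], [], [], []]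

def nd93 : Node :=
  .tool [(false, [1, 5, 12]), (true, [0, 2, 6]), (false, [1, 3, 9]), (true, [2, 4, 18]), (false, [3, 5, 10]), (true, [4, 0, 7]), (false, [1, 8, 15]), (false, [5, 8]), (true, [6, 7]), (true, [2, 11, 13]), (true, [4, 11, 14]), (false, [9, 10]), (true, [0, 13, 14]), (false, [12, 9, 15]), (false, [12, 10, 17]), (true, [13, 6, 16]), (false, [15, 17]), (true, [14, 16, 18]), (false, [3, 17])] 0 [5, 0, 1, 6, 8, 7]
    [[], [], [], [], [], [], [], [], [], [], [], [], [], [], [], [], [], [], [], [], [], [], [], [], [], [], [], [], [], [], [], [], [], [], []]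

def nd94 : Node :=
  .tool [(false, [1, 5, 8]), (true, [0, 2, 6]), (false, [1, 3, 11]), (true, [2, 4, 14]), (false, [3, 5, 7]), (true, [4, 0, 10]), (false, [1, 7, 13]), (true, [4, 6, 9]), (true, [0, 9, 12]), (false, [7, 8, 17]), (false, [5, 11]), (true, [2, 10, 15]), (false, [8, 13, 18]), (true, [6, 12]), (false, [3, 16]), (false, [11, 16]), (true, [14, 15]), (true, [9, 19]), (true, [12, 19]), (false, [17, 18])] 0 [11, 2, 3, 14, 16, 15]
    [[], [], [], [], [], [], [], [], [], [], [], [], [], [], [], [], [], [], [], [], [], [], [], [], [], [], [], [], [], [], [], [], [(98, [0, 1, 2, 3, 4, 5, 6, 7, 8, 9, 10, 11, 12, 13, 14, 15, 16, 17, 18, 19])], [], [(113, [0, 1, 2, 3, 4, 5, 6, 7, 8, 9, 10, 11, 12, 13, 14, 15, 16, 17, 18, 19, 20])]]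

def nd95 : Node :=
  .tool [(false, [1, 5, 11]), (true, [0, 2, 6]), (false, [1, 3, 18]), (true, [2, 4, 14]), (false, [3, 5, 7]), (true, [4, 0, 8]), (false, [1, 7, 12]), (true, [4, 6, 9]), (false, [5, 10, 15]), (false, [7, 10, 16]), (true, [8, 9, 14]), (true, [0, 13]), (true, [6, 13, 19]), (false, [11, 12]), (false, [3, 10]), (true, [8, 17]), (true, [9, 17]), (false, [15, 16]), (true, [2, 19]), (false, [18, 12])] 0 [2, 1, 6, 12, 19, 18]
    [[], [], [], [], [], [], [], [], [], [], [], [], [], [], [], [], [], [], [], [], [], [], [], [], [], [], [], [], [], [], [], [], [(115, [0, 1, 2, 3, 4, 5, 6, 7, 8, 9, 10, 11, 12, 13, 14, 15, 16, 17, 18, 19, 20])], [(100, [0, 1, 2, 3, 4, 5, 6, 7, 8, 9, 10, 11, 12, 13, 14, 15, 16, 17, 18, 19])], []]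

def nd96 : Node :=
  .tool [(false, [1, 5, 11]), (true, [0, 2, 6]), (false, [1, 3, 16]), (true, [2, 4, 14]), (false, [3, 5, 7]), (true, [4, 0, 8]), (false, [1, 7, 12]), (true, [4, 6, 9]), (false, [5, 10, 15]), (false, [7, 10]), (true, [8, 9]), (true, [0, 13]), (true, [6, 13, 18]), (false, [11, 12, 16]), (false, [3, 15]), (true, [8, 14]), (true, [2, 13, 17]), (false, [16, 19]), (false, [12, 19]), (true, [17, 18])] 1 [1, 2, 0, 6, 3, 5, 7, 4]
    [[], [], [], [], [], [], [], [], [], [], [], [], [], [], [], [], [], [], [], [], [], [], [], [], [], [], [], [], [], [(101, [0, 1, 2, 3, 4, 5, 6, 7, 8, 9, 10, 11, 12, 13, 14, 15, 16, 17, 18, 19])], [], [(101, [0, 1, 6, 7, 4, 5, 2, 3, 8, 14, 15, 11, 16, 13, 9, 10, 12, 18, 17, 19])], [], [], [(115, [3, 4, 5, 0, 1, 2, 7, 6, 16, 12, 13, 14, 9, 20, 11, 17, 18, 19, 8, 10, 15])]]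

def nd97 : Node :=
  .tool [(false, [1, 5, 12]), (true, [0, 2, 6]), (false, [1, 3, 9]), (true, [2, 4, 14]), (false, [3, 5, 10]), (true, [4, 0, 7]), (false, [1, 8, 15]), (false, [5, 8]), (true, [6, 7, 19]), (true, [2, 11, 13]), (true, [4, 11]), (false, [9, 10, 17]), (true, [0, 13, 16]), (false, [12, 9]), (false, [3, 15, 18]), (true, [6, 14]), (false, [12, 17]), (true, [16, 11]), (true, [14, 19]), (false, [8, 18])] 0 [0, 1, 2, 9, 13, 12]
    [[], [], [], [], [], [], [], [], [], [], [], [], [], [], [], [], [], [], [], [], [], [], [], [], [], [], [], [(105, [0, 1, 2, 3, 4, 5, 6, 7, 8, 9, 10, 11, 12, 13, 14, 15, 16, 17, 18, 19])], [], [], [], [], [(106, [0, 1, 2, 3, 4, 5, 6, 7, 8, 9, 10, 11, 12, 13, 14, 15, 16, 17, 18, 19])], [(105, [0, 1, 2, 3, 4, 5, 6, 7, 8, 9, 10, 11, 12, 13, 14, 15, 16, 17, 18, 19]), (106, [3, 2, 1, 0, 5, 4, 9, 10, 11, 6, 7, 8, 14, 15, 12, 13, 18, 19, 16, 17])], []]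

def nd98 : Node :=
  .tool [(false, [1, 5, 8]), (true, [0, 2, 6]), (false, [1, 3, 11]), (true, [2, 4, 14]), (false, [3, 5, 7]), (true, [4, 0, 10]), (false, [1, 7, 13]), (true, [4, 6, 9]), (true, [0, 9, 12]), (false, [7, 8, 17]), (false, [5, 11]), (true, [2, 10, 15]), (false, [8, 13, 18]), (true, [6, 12, 15]), (false, [3, 16]), (false, [11, 16, 13]), (true, [14, 15]), (true, [9, 19]), (true, [12, 19]), (false, [17, 18])] 0 [12, 8, 9, 17, 19, 18]
    [[], [], [], [], [], [], [], [], [], [], [], [], [], [], [], [], [], [], [], [], [], [], [], [], [], [], [], [], [], [], [], [], [(108, [0, 1, 2, 3, 4, 5, 6, 7, 8, 9, 10, 11, 12, 13, 14, 15, 16, 17, 18, 19])], [], []]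

def nd99 : Node :=
  .tool [(false, [1, 5, 11]), (true, [0, 2, 6]), (false, [1, 3, 18]), (true, [2, 4, 14]), (false, [3, 5, 7]), (true, [4, 0, 8]), (false, [1, 7, 12]), (true, [4, 6, 9]), (false, [5, 10, 15]), (false, [7, 10, 16]), (true, [8, 9, 14]), (true, [0, 13]), (true, [6, 13]), (false, [11, 12, 18]), (false, [3, 10, 19]), (true, [8, 17]), (true, [9, 17]), (false, [15, 16, 19]), (true, [2, 13]), (true, [17, 14])] 1 [1, 0, 2, 6, 11, 18, 12, 13]
    [[], [], [], [], [], [], [], [], [], [], [], [], [], [], [], [], [], [], [], [], [], [], [], [], [], [], [], [], [], [], [], [], [], [], [(120, [0, 1, 2, 3, 4, 5, 6, 7, 8, 9, 10, 11, 12, 13, 14, 15, 16, 17, 18, 19, 20, 21, 22])]]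

def nd100 : Node :=
  .tool [(false, [1, 5, 11]), (true, [0, 2, 6]), (false, [1, 3, 18]), (true, [2, 4, 14]), (false, [3, 5, 7]), (true, [4, 0, 8]), (false, [1, 7, 12]), (true, [4, 6, 9]), (false, [5, 10, 15]), (false, [7, 10, 16]), (true, [8, 9, 14]), (true, [0, 13]), (true, [6, 13, 19]), (false, [11, 12]), (false, [3, 10]), (true, [8, 17]), (true, [9, 17, 19]), (false, [15, 16]), (true, [2, 19]), (false, [18, 12, 16])] 0 [6, 7, 9, 16, 19, 12]
    [[], [], [], [], [], [], [], [], [], [], [], [], [], [], [], [], [], [], [], [], [], [], [], [], [], [], [], [], [], [], [], [], [], [], []]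

def nd101 : Node :=
  .tool [(false, [1, 5, 11]), (true, [0, 2, 6]), (false, [1, 3, 16]), (true, [2, 4, 14]), (false, [3, 5, 7]), (true, [4, 0, 8]), (false, [1, 7, 12]), (true, [4, 6, 9]), (false, [5, 10, 15]), (false, [7, 10]), (true, [8, 9]), (true, [0, 13, 14]), (true, [6, 13, 18]), (false, [11, 12, 16]), (false, [3, 15, 11]), (true, [8, 14]), (true, [2, 13, 17]), (false, [16, 19]), (false, [12, 19]), (true, [17, 18])] 0 [7, 4, 5, 8, 10, 9]
    [[], [], [], [], [], [], [], [], [], [], [], [], [], [], [], [], [], [], [], [], [], [], [], [], [], [], [], [], [], [], [], [], [], [], []]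

def nd102 : Node :=
  .tool [(false, [1, 5, 11]), (true, [0, 2, 6]), (false, [1, 3, 16]), (true, [2, 4, 14]), (false, [3, 5, 7]), (true, [4, 0, 8]), (false, [1, 7, 12]), (true, [4, 6, 9]), (false, [5, 10, 15]), (false, [7, 10, 18]), (true, [8, 9]), (true, [0, 13, 19]), (true, [6, 13, 17]), (false, [11, 12]), (false, [3, 15, 18]), (true, [8, 14]), (true, [2, 17, 19]), (false, [16, 12]), (true, [14, 9]), (false, [16, 11])] 5 [0, 1, 2, 16, 19, 11, 6, 13, 12, 17]
    [[], [], [], [], [], [], [], [], [], [], [], [], [], [], [], [], [], [], [], [], [], [], [], [], [], [], [], [], [], [], [(109, [0, 1, 2, 3, 4, 5, 6, 7, 8, 9, 10, 11, 12, 13, 14, 15, 16, 17, 18, 19]), (110, [0, 1, 2, 3, 4, 5, 6, 7, 8, 9, 10, 11, 12, 13, 14, 15, 16, 17, 18, 19])], [(109, [0, 1, 6, 7, 4, 5, 2, 3, 8, 14, 15, 11, 16, 19, 9, 10, 12, 17, 18, 13]), (110, [0, 1, 6, 7, 4, 5, 2, 3, 8, 14, 15, 11, 16, 19, 9, 10, 12, 17, 18, 13])], []]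

def nd103 : Node :=
  .tool [(false, [1, 5, 15]), (true, [0, 2, 6]), (false, [1, 3, 10]), (true, [2, 4, 9]), (false, [3, 5, 11]), (true, [4, 0, 7]), (false, [1, 8, 13]), (false, [5, 8]), (true, [6, 7, 9]), (false, [3, 8, 19]), (true, [2, 12, 14]), (true, [4, 12]), (false, [10, 11, 19]), (true, [6, 14, 17]), (false, [10, 13, 15]), (true, [14, 0, 16]), (false, [15, 18]), (false, [13, 18]), (true, [16, 17]), (true, [12, 9])] 5 [2, 1, 0, 5, 4, 3, 6, 9, 8, 7]
    [[], [], [], [], [], [], [], [], [], [], [], [], [], [], [], [], [], [], [], [], [], [], [], [], [], [], [], [], [], [], [(111, [0, 1, 2, 3, 4, 5, 6, 7, 8, 9, 10, 11, 12, 13, 14, 15, 16, 17, 18, 19])], [(111, [6, 1, 2, 3, 9, 8, 0, 7, 5, 4, 10, 19, 12, 15, 14, 13, 17, 16, 18, 11])], []]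

def nd104 : Node :=
  .tool [(false, [1, 5, 15]), (true, [0, 2, 6]), (false, [1, 3, 10]), (true, [2, 4, 9]), (false, [3, 5, 11]), (true, [4, 0, 7]), (false, [1, 8, 13]), (false, [5, 8, 19]), (true, [6, 7, 9]), (false, [3, 8]), (true, [2, 12, 14]), (true, [4, 12]), (false, [10, 11, 19]), (true, [6, 14, 17]), (false, [10, 13, 15]), (true, [14, 0, 16]), (false, [15, 18]), (false, [13, 18]), (true, [16, 17]), (true, [12, 7])] 0 [4, 3, 2, 10, 12, 11]
    [[], [], [], [], [], [], [], [], [], [], [], [], [], [], [], [], [], [], [], [], [], [], [], [], [], [], [], [], [], [], [], [], [(118, [0, 1, 2, 3, 4, 5, 6, 7, 8, 9, 10, 11, 12, 13, 14, 15, 16, 17, 18, 19, 20, 21])], [], []]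

def nd105 : Node :=
  .tool [(false, [1, 5, 12]), (true, [0, 2, 6]), (false, [1, 3, 9]), (true, [2, 4, 14]), (false, [3, 5, 10]), (true, [4, 0, 7]), (false, [1, 8, 15]), (false, [5, 8]), (true, [6, 7, 19]), (true, [2, 11, 13]), (true, [4, 11]), (false, [9, 10, 17]), (true, [0, 13, 16]), (false, [12, 9, 15]), (false, [3, 15, 18]), (true, [6, 14, 13]), (false, [12, 17]), (true, [16, 11]), (true, [14, 19]), (false, [8, 18])] 0 [6, 8, 19, 18, 14, 15]
    [[], [], [], [], [], [], [], [], [], [], [], [], [], [], [], [], [], [], [], [], [], [], [], [], [], [], [], [], [], [], [], [], [], [(112, [0, 1, 2, 3, 4, 5, 6, 7, 8, 9, 10, 11, 12, 13, 14, 15, 16, 17, 18, 19])], []]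

def nd106 : Node :=
  .tool [(false, [1, 5, 12]), (true, [0, 2, 6]), (false, [1, 3, 9]), (true, [2, 4, 14]), (false, [3, 5, 10]), (true, [4, 0, 7]), (false, [1, 8, 15]), (false, [5, 8]), (true, [6, 7, 19]), (true, [2, 11, 13]), (true, [4, 11]), (false, [9, 10, 17]), (true, [0, 13, 16]), (false, [12, 9]), (false, [3, 15, 18]), (true, [6, 14, 16]), (false, [12, 17, 15]), (true, [16, 11]), (true, [14, 19]), (false, [8, 18])] 0 [1, 2, 3, 14, 15, 6]
    [[], [], [], [], [], [], [], [], [], [], [], [], [], [], [], [], [], [], [], [], [], [], [], [], [], [], [], [], [], [], [], [], [], [], []]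

def nd107 : Node :=
  .tool [(false, [1, 5, 19]), (true, [0, 2, 6]), (false, [1, 3, 10]), (true, [2, 4, 9]), (false, [3, 5, 14]), (true, [4, 0, 7]), (false, [1, 8, 11]), (false, [5, 8, 15]), (true, [6, 7, 9]), (false, [3, 8, 12]), (true, [2, 13, 17]), (true, [6, 13, 18]), (true, [9, 13, 16]), (false, [10, 11, 12]), (true, [4, 16]), (true, [7, 16]), (false, [14, 15, 12]), (false, [10, 19]), (false, [11, 19]), (true, [17, 18, 0])] 5 [0, 19, 17, 10, 2, 1, 18, 6, 11, 13]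
    [[], [], [], [], [], [], [], [], [], [], [], [], [], [], [], [], [], [], [], [], [], [], [], [], [], [], [], [], [], [], [], [], []]

def nd108 : Node :=
  .tool [(false, [1, 5, 8]), (true, [0, 2, 6]), (false, [1, 3, 11]), (true, [2, 4, 14]), (false, [3, 5, 7]), (true, [4, 0, 10]), (false, [1, 7, 13]), (true, [4, 6, 9]), (true, [0, 9, 12]), (false, [7, 8, 17]), (false, [5, 11, 18]), (true, [2, 10, 15]), (false, [8, 13, 18]), (true, [6, 12, 15]), (false, [3, 16]), (false, [11, 16, 13]), (true, [14, 15]), (true, [9, 19]), (true, [12, 19, 10]), (false, [17, 18])] 0 [3, 2, 11, 15, 16, 14]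
    [[], [], [], [], [], [], [], [], [], [], [], [], [], [], [], [], [], [], [], [], [], [], [], [], [], [], [], [], [], [], [], [], [], [], []]

def nd109 : Node :=
  .tool [(false, [1, 5, 11]), (true, [0, 2, 6]), (false, [1, 3, 16]), (true, [2, 4, 14]), (false, [3, 5, 7]), (true, [4, 0, 8]), (false, [1, 7, 12]), (true, [4, 6, 9]), (false, [5, 10, 15]), (false, [7, 10, 18]), (true, [8, 9]), (true, [0, 13, 19]), (true, [6, 13, 17]), (false, [11, 12]), (false, [3, 15, 18]), (true, [8, 14, 19]), (true, [2, 17, 19]), (false, [16, 12]), (true, [14, 9]), (false, [16, 11, 15])] 0 [0, 5, 8, 15, 19, 11]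
    [[], [], [], [], [], [], [], [], [], [], [], [], [], [], [], [], [], [], [], [], [], [], [], [], [], [], [], [], [], [], [], [], [], [], []]

def nd110 : Node :=
  .tool [(false, [1, 5, 11]), (true, [0, 2, 6]), (false, [1, 3, 16]), (true, [2, 4, 14]), (false, [3, 5, 7]), (true, [4, 0, 8]), (false, [1, 7, 12]), (true, [4, 6, 9]), (false, [5, 10, 15]), (false, [7, 10, 18]), (true, [8, 9]), (true, [0, 13, 19]), (true, [6, 13, 17]), (false, [11, 12]), (false, [3, 15, 18]), (true, [8, 14]), (true, [2, 17, 19]), (false, [16, 12]), (true, [14, 9, 19]), (false, [16, 11, 18])] 0 [2, 3, 14, 18, 19, 16]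
    [[], [], [], [], [], [], [], [], [], [], [], [], [], [], [], [], [], [], [], [], [], [], [], [], [], [], [], [], [], [], [], [], [], [], []]

def nd111 : Node :=
  .tool [(false, [1, 5, 15]), (true, [0, 2, 6]), (false, [1, 3, 10]), (true, [2, 4, 9]), (false, [3, 5, 11]), (true, [4, 0, 7]), (false, [1, 8, 13]), (false, [5, 8]), (true, [6, 7, 9]), (false, [3, 8, 19]), (true, [2, 12, 14]), (true, [4, 12, 16]), (false, [10, 11, 19]), (true, [6, 14, 17]), (false, [10, 13, 15]), (true, [14, 0, 16]), (false, [15, 18, 11]), (false, [13, 18]), (true, [16, 17]), (true, [12, 9])] 0 [0, 5, 4, 11, 16, 15]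
    [[], [], [], [], [], [], [], [], [], [], [], [], [], [], [], [], [], [], [], [], [], [], [], [], [], [], [], [], [], [], [], [], [], [], []]

def nd112 : Node :=
  .tool [(false, [1, 5, 12]), (true, [0, 2, 6]), (false, [1, 3, 9]), (true, [2, 4, 14]), (false, [3, 5, 10]), (true, [4, 0, 7]), (false, [1, 8, 15]), (false, [5, 8]), (true, [6, 7, 19]), (true, [2, 11, 13]), (true, [4, 11, 19]), (false, [9, 10, 17]), (true, [0, 13, 16]), (false, [12, 9, 15]), (false, [3, 15, 18]), (true, [6, 14, 13]), (false, [12, 17]), (true, [16, 11]), (true, [14, 19]), (false, [8, 18, 10])] 0 [5, 4, 10, 19, 8, 7]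
    [[], [], [], [], [], [], [], [], [], [], [], [], [], [], [], [], [], [], [], [], [], [], [], [], [], [], [], [], [], [], [], [], [], [], []]

def nd113 : Node :=
  .tool [(false, [1, 5, 8]), (true, [0, 2, 6]), (false, [1, 3, 11]), (true, [2, 4, 14]), (false, [3, 5, 7]), (true, [4, 0, 10]), (false, [1, 7, 13]), (true, [4, 6, 9]), (true, [0, 9, 12]), (false, [7, 8, 17]), (false, [5, 11, 20]), (true, [2, 10, 15]), (false, [8, 13, 18]), (true, [6, 12]), (false, [3, 16, 20]), (false, [11, 16]), (true, [14, 15]), (true, [9, 19]), (true, [12, 19]), (false, [17, 18]), (true, [14, 10])] 3 [1, 6, 13, 12, 8, 0, 7, 9, 4, 5]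
    [[], [], [], [], [], [], [], [], [], [], [], [], [], [], [], [], [], [], [], [], [], [], [], [], [], [], [], [], [], [], [], [], []]

def nd114 : Node :=
  .tool [(false, [1, 5, 11]), (true, [0, 2, 6]), (false, [1, 3, 18]), (true, [2, 4, 14]), (false, [3, 5, 7]), (true, [4, 0, 8]), (false, [1, 7, 12]), (true, [4, 6, 9]), (false, [5, 10, 15]), (false, [7, 10, 16]), (true, [8, 9, 14]), (true, [0, 13]), (true, [6, 13]), (false, [11, 12, 18]), (false, [3, 10, 20]), (true, [8, 17, 19]), (true, [9, 17]), (false, [15, 16]), (true, [2, 13]), (false, [15, 20]), (true, [14, 19])] 1 [4, 3, 5, 7, 14, 8, 9, 10]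
    [[], [], [], [], [], [], [], [], [], [], [], [], [], [], [], [], [], [], [], [], [], [], [], [], [], [], [], [], [], [], [], [], [], [], [(117, [0, 1, 2, 3, 4, 5, 6, 7, 8, 9, 10, 11, 12, 13, 14, 15, 16, 17, 18, 19, 20, 21])]]

def nd115 : Node :=
  .tool [(false, [1, 5, 11]), (true, [0, 2, 6]), (false, [1, 3, 18]), (true, [2, 4, 14]), (false, [3, 5, 7]), (true, [4, 0, 8]), (false, [1, 7, 12]), (true, [4, 6, 9]), (false, [5, 10, 15]), (false, [7, 10, 16]), (true, [8, 9, 14]), (true, [0, 13, 20]), (true, [6, 13, 19]), (false, [11, 12]), (false, [3, 10]), (true, [8, 17]), (true, [9, 17]), (false, [15, 16]), (true, [2, 19, 20]), (false, [18, 12]), (false, [18, 11])] 5 [2, 1, 0, 11, 20, 18, 6, 19, 12, 13]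
    [[], [], [], [], [], [], [], [], [], [], [], [], [], [], [], [], [], [], [], [], [], [], [], [], [], [], [], [], [], [], [(116, [0, 1, 2, 3, 4, 5, 6, 7, 8, 9, 10, 11, 12, 13, 14, 15, 16, 17, 18, 19, 20])], [(116, [6, 1, 2, 3, 4, 7, 0, 5, 9, 8, 10, 12, 11, 13, 14, 16, 15, 17, 18, 20, 19])], []]

def nd116 : Node :=
  .tool [(false, [1, 5, 11]), (true, [0, 2, 6]), (false, [1, 3, 18]), (true, [2, 4, 14]), (false, [3, 5, 7]), (true, [4, 0, 8]), (false, [1, 7, 12]), (true, [4, 6, 9]), (false, [5, 10, 15]), (false, [7, 10, 16]), (true, [8, 9, 14]), (true, [0, 13, 20]), (true, [6, 13, 19]), (false, [11, 12]), (false, [3, 10]), (true, [8, 17, 20]), (true, [9, 17]), (false, [15, 16]), (true, [2, 19, 20]), (false, [18, 12]), (false, [18, 11, 15])] 0 [0, 5, 8, 15, 20, 11]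
    [[], [], [], [], [], [], [], [], [], [], [], [], [], [], [], [], [], [], [], [], [], [], [], [], [], [], [], [], [], [], [], [], [], [], []]

def nd117 : Node :=
  .tool [(false, [1, 5, 11]), (true, [0, 2, 6]), (false, [1, 3, 18]), (true, [2, 4, 14]), (false, [3, 5, 7]), (true, [4, 0, 8]), (false, [1, 7, 12]), (true, [4, 6, 9]), (false, [5, 10, 15]), (false, [7, 10, 16]), (true, [8, 9, 14]), (true, [0, 13]), (true, [6, 13]), (false, [11, 12, 18]), (false, [3, 10, 20]), (true, [8, 17, 19]), (true, [9, 17, 21]), (false, [15, 16]), (true, [2, 13]), (false, [15, 20]), (true, [14, 19, 21]), (false, [20, 16])] 5 [8, 10, 9, 16, 17, 15, 14, 19, 20, 21]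
    [[], [], [], [], [], [], [], [], [], [], [], [], [], [], [], [], [], [], [], [], [], [], [], [], [], [], [], [], [], [], [(119, [0, 1, 2, 3, 4, 5, 6, 7, 8, 9, 10, 11, 12, 13, 14, 15, 16, 17, 18, 19, 20, 21])], [(119, [0, 1, 6, 7, 4, 5, 2, 3, 8, 14, 10, 11, 18, 13, 9, 15, 20, 19, 12, 17, 16, 21])], []]

def nd118 : Node :=
  .tool [(false, [1, 5, 15]), (true, [0, 2, 6]), (false, [1, 3, 10]), (true, [2, 4, 9]), (false, [3, 5, 11]), (true, [4, 0, 7]), (false, [1, 8, 13]), (false, [5, 8, 19]), (true, [6, 7, 9]), (false, [3, 8, 21]), (true, [2, 12, 14]), (true, [4, 12, 20]), (false, [10, 11, 19]), (true, [6, 14, 17]), (false, [10, 13, 15]), (true, [14, 0, 16]), (false, [15, 18]), (false, [13, 18]), (true, [16, 17]), (true, [12, 7]), (false, [11, 21]), (true, [9, 20])] 0 [4, 5, 7, 19, 12, 11]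
    [[], [], [], [], [], [], [], [], [], [], [], [], [], [], [], [], [], [], [], [], [], [], [], [], [], [], [], [], [], [], [], [], [], [], []]

def nd119 : Node :=
  .tool [(false, [1, 5, 11]), (true, [0, 2, 6]), (false, [1, 3, 18]), (true, [2, 4, 14]), (false, [3, 5, 7]), (true, [4, 0, 8]), (false, [1, 7, 12]), (true, [4, 6, 9]), (false, [5, 10, 15]), (false, [7, 10, 16]), (true, [8, 9, 14]), (true, [0, 13]), (true, [6, 13, 17]), (false, [11, 12, 18]), (false, [3, 10, 20]), (true, [8, 17, 19]), (true, [9, 17, 21]), (false, [15, 16, 12]), (true, [2, 13]), (false, [15, 20]), (true, [14, 19, 21]), (false, [20, 16])] 0 [9, 7, 6, 12, 17, 16]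
    [[], [], [], [], [], [], [], [], [], [], [], [], [], [], [], [], [], [], [], [], [], [], [], [], [], [], [], [], [], [], [], [], [], [], []]

def nd120 : Node :=
  .tool [(false, [1, 5, 11]), (true, [0, 2, 6]), (false, [1, 3, 18]), (true, [2, 4, 14]), (false, [3, 5, 7]), (true, [4, 0, 8]), (false, [1, 7, 12]), (true, [4, 6, 9]), (false, [5, 10, 15]), (false, [7, 10, 16]), (true, [8, 9, 14]), (true, [0, 13, 20]), (true, [6, 13, 21]), (false, [11, 12, 18]), (false, [3, 10, 19]), (true, [8, 17]), (true, [9, 17]), (false, [15, 16, 19]), (true, [2, 13]), (true, [17, 14]), (false, [11, 22]), (false, [12, 22]), (true, [20, 21])] 0 [11, 13, 12, 21, 22, 20]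
    [[], [], [], [], [], [], [], [], [], [], [], [], [], [], [], [], [], [], [], [], [], [], [], [], [], [], [], [(121, [0, 1, 2, 3, 4, 5, 6, 7, 8, 9, 10, 11, 12, 13, 14, 15, 16, 17, 18, 19, 20, 21, 22, 23])], [], [], [], [], [(124, [0, 1, 2, 3, 4, 5, 6, 7, 8, 9, 10, 11, 12, 13, 14, 15, 16, 17, 18, 19, 20, 21, 22, 23, 24])], [], []]

def nd121 : Node :=
  .tool [(false, [1, 5, 11]), (true, [0, 2, 6]), (false, [1, 3, 18]), (true, [2, 4, 14]), (false, [3, 5, 7]), (true, [4, 0, 8]), (false, [1, 7, 12]), (true, [4, 6, 9]), (false, [5, 10, 15]), (false, [7, 10, 16]), (true, [8, 9, 14]), (true, [0, 13, 20]), (true, [6, 13, 21]), (false, [11, 12, 18]), (false, [3, 10, 19]), (true, [8, 17]), (true, [9, 17]), (false, [15, 16, 19]), (true, [2, 13, 23]), (true, [17, 14]), (false, [11, 22]), (false, [12, 22]), (true, [20, 21, 23]), (false, [22, 18])] 4 [8, 10, 9, 7, 4, 5, 14, 3, 0, 2, 1, 6, 12, 18, 13, 11, 20, 21, 22, 23]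
    [[], [], [], [], [], [], [], [], [], [], [], [], [], [], [], [], [], [(122, [0, 1, 2, 3, 4, 5, 6, 7, 8, 9, 10, 11, 12, 13, 14, 15, 16, 17, 18, 19, 20, 21, 22, 23])], [(123, [0, 1, 2, 3, 4, 5, 6, 7, 8, 9, 10, 11, 12, 13, 14, 15, 16, 17, 18, 19, 20, 21, 22, 23])], [(123, [0, 1, 6, 7, 4, 5, 2, 3, 8, 14, 10, 11, 18, 13, 9, 15, 19, 17, 12, 16, 20, 23, 22, 21])], [], [(123, [5, 4, 3, 2, 1, 0, 7, 6, 11, 12, 13, 8, 9, 10, 18, 20, 21, 22, 14, 23, 15, 16, 17, 19])], [(122, [6, 1, 0, 5, 4, 7, 2, 3, 9, 14, 10, 12, 18, 13, 8, 16, 19, 17, 11, 15, 21, 23, 22, 20])], [(123, [3, 4, 5, 0, 1, 2, 7, 6, 18, 12, 13, 14, 9, 10, 11, 23, 21, 22, 8, 20, 19, 16, 17, 15])], [(123, [2, 1, 6, 7, 4, 3, 0, 5, 14, 8, 10, 18, 11, 13, 9, 19, 15, 17, 12, 16, 23, 20, 22, 21])], [(123, [2, 1, 0, 5, 4, 3, 6, 7, 14, 9, 10, 18, 12, 13, 8, 19, 16, 17, 11, 15, 23, 21, 22, 20])], [(122, [2, 1, 0, 5, 4, 3, 6, 7, 14, 9, 10, 18, 12, 13, 8, 19, 16, 17, 11, 15, 23, 21,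 22, 20])], [], [], []]

def nd122 : Node :=
  .tool [(false, [1, 5, 11]), (true, [0, 2, 6]), (false, [1, 3, 18]), (true, [2, 4, 14]), (false, [3, 5, 7]), (true, [4, 0, 8]), (false, [1, 7, 12]), (true, [4, 6, 9]), (false, [5, 10, 15]), (false, [7, 10, 16]), (true, [8, 9, 14]), (true, [0, 13, 20]), (true, [6, 13, 21]), (false, [11, 12, 18]), (false, [3, 10, 19]), (true, [8, 17, 20]), (true, [9, 17]), (false, [15, 16, 19]), (true, [2, 13, 23]), (true, [17, 14]), (false, [11, 22, 15]), (false, [12, 22]), (true, [20, 21, 23]), (false, [22, 18])] 0 [0, 5, 8, 15, 20, 11]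
    [[], [], [], [], [], [], [], [], [], [], [], [], [], [], [], [], [], [], [], [], [], [], [], [], [], [], [], [], [], [], [], [], [], [], []]

def nd123 : Node :=
  .tool [(false, [1, 5, 11]), (true, [0, 2, 6]), (false, [1, 3, 18]), (true, [2, 4, 14]), (false, [3, 5, 7]), (true, [4, 0, 8]), (false, [1, 7, 12]), (true, [4, 6, 9]), (false, [5, 10, 15]), (false, [7, 10, 16]), (true, [8, 9, 14]), (true, [0, 13, 20]), (true, [6, 13, 21]), (false, [11, 12, 18]), (false, [3, 10, 19]), (true, [8, 17, 21]), (true, [9, 17]), (false, [15, 16, 19]), (true, [2, 13, 23]), (true, [17, 14]), (false, [11, 22]), (false, [12, 22, 15]), (true, [20, 21, 23]), (false, [22, 18])] 1 [10, 8, 9, 14, 15, 16, 19, 17]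
    [[], [], [], [], [], [], [], [], [], [], [], [], [], [], [], [], [], [], [], [], [], [], [], [], [], [], [], [], [], [], [], [], [], [], [(125, [0, 1, 2, 3, 4, 5, 6, 7, 8, 9, 10, 11, 12, 13, 14, 15, 16, 17, 18, 19, 20, 21, 22, 23]), (126, [0, 1, 2, 3, 4, 5, 6, 7, 8, 9, 10, 11, 12, 13, 14, 15, 16, 17, 18, 19, 20, 21, 22, 23])]]

def nd124 : Node :=
  .tool [(false, [1, 5, 11]), (true, [0, 2, 6]), (false, [1, 3, 18]), (true, [2, 4, 14]), (false, [3, 5, 7]), (true, [4, 0, 8]), (false, [1, 7, 12]), (true, [4, 6, 9]), (false, [5, 10, 15]), (false, [7, 10, 16]), (true, [8, 9, 14]), (true, [0, 13, 20]), (true, [6, 13, 21]), (false, [11, 12, 18]), (false, [3, 10, 19]), (true, [8, 17]), (true, [9, 17]), (false, [15, 16, 19]), (true, [2, 13, 24]), (true, [17, 14]), (false, [11, 22, 23]), (false, [12, 22]), (true, [20, 21]), (true, [20, 24]), (false, [18, 23])] 0 [12, 13, 11, 20, 22, 21]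
    [[], [], [], [], [], [], [], [], [], [], [], [], [], [], [], [], [], [], [], [], [], [], [], [], [], [], [], [], [], [], [], [], [(128, [0, 1, 2, 3, 4, 5, 6, 7, 8, 9, 10, 11, 12, 13, 14, 15, 16, 17, 18, 19, 20, 21, 22, 23, 24, 25])], [], []]

def nd125 : Node :=
  .tool [(false, [1, 5, 11]), (true, [0, 2, 6]), (false, [1, 3, 18]), (true, [2, 4, 14]), (false, [3, 5, 7]), (true, [4, 0, 8]), (false, [1, 7, 12]), (true, [4, 6, 9]), (false, [5, 10, 15]), (false, [7, 10, 16]), (true, [8, 9, 14]), (true, [0, 13, 20]), (true, [6, 13, 21]), (false, [11, 12, 18]), (false, [3, 10, 19]), (true, [8, 17, 21]), (true, [9, 17]), (false, [15, 16, 19]), (true, [2, 13, 23]), (true, [17, 14, 20]), (false, [11, 22, 19]), (false, [12, 22, 15]), (true, [20, 21, 23]), (false, [22, 18])] 0 [15, 17, 19, 20, 22, 21]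
    [[], [], [], [], [], [], [], [], [], [], [], [], [], [], [], [], [], [], [], [], [], [], [], [], [], [], [], [(127, [0, 1, 2, 3, 4, 5, 6, 7, 8, 9, 10, 11, 12, 13, 14, 15, 16, 17, 18, 19, 20, 21, 22, 23])], [], [], [], [], [], [], []]

def nd126 : Node :=
  .tool [(false, [1, 5, 11]), (true, [0, 2, 6]), (false, [1, 3, 18]), (true, [2, 4, 14]), (false, [3, 5, 7]), (true, [4, 0, 8]), (false, [1, 7, 12]), (true, [4, 6, 9]), (false, [5, 10, 15]), (false, [7, 10, 16]), (true, [8, 9, 14]), (true, [0, 13, 20]), (true, [6, 13, 21]), (false, [11, 12, 18]), (false, [3, 10, 19]), (true, [8, 17, 21]), (true, [9, 17]), (false, [15, 16, 19]), (true, [2, 13, 23]), (true, [17, 14, 23]), (false, [11, 22]), (false, [12, 22, 15]), (true, [20, 21, 23]), (false, [22, 18, 19])] 0 [2, 3, 14, 19, 23, 18]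
    [[], [], [], [], [], [], [], [], [], [], [], [], [], [], [], [], [], [], [], [], [], [], [], [], [], [], [], [], [], [], [], [], [], [], []]

def nd127 : Node :=
  .coord [(false, [1, 5, 11]), (true, [0, 2, 6]), (false, [1, 3, 18]), (true, [2, 4, 14]), (false, [3, 5, 7]), (true, [4, 0, 8]), (false, [1, 7, 12]), (true, [4, 6, 9]), (false, [5, 10, 15]), (false, [7, 10, 16]), (true, [8, 9, 14]), (true, [0, 13, 20]), (true, [6, 13, 21]), (false, [11, 12, 18]), (false, [3, 10, 19]), (true, [8, 17, 21]), (true, [9, 17, 23]), (false, [15, 16, 19]), (true, [2, 13, 23]), (true, [17, 14, 20]), (false, [11, 22, 19]), (false, [12, 22, 15]), (true, [20, 21, 23]), (false, [22, 18, 16])]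
    [(-1, 1, 1), (-3, -4, 1), (-3, 2, -1), (-1, -2, -1), (1, 0, -1), (1, 0, 1), (-5, 4, 1), (1, 1, 1), (0, -1, 0), (2, -1, -1), (1, 0, 2), (-1, -2, 1), (3, 5, -5), (-5, 2, -1), (4, -1, -2), (-1, 0, 0), (1, 2, 0), (0, 0, 1), (0, 1, 2), (1, 4, 0), (-4, 1, -2), (0, -1, -1), (-3, -4, 4), (4, -2, 1)]

def nd128 : Node :=
  .tool [(false, [1, 5, 11]), (true, [0, 2, 6]), (false, [1, 3, 18]), (true, [2, 4, 14]), (false, [3, 5, 7]), (true, [4, 0, 8]), (false, [1, 7, 12]), (true, [4, 6, 9]), (false, [5, 10, 15]), (false, [7, 10, 16]), (true, [8, 9, 14]), (true, [0, 13, 20]), (true, [6, 13, 21]), (false, [11, 12, 18]), (false, [3, 10, 19]), (true, [8, 17]), (true, [9, 17]), (false, [15, 16, 19]), (true, [2, 13, 24]), (true, [17, 14]), (false, [11, 22, 23]), (false, [12, 22, 25]), (true, [20, 21]), (true, [20, 24]), (false, [18, 23, 25]), (true, [21, 24])] 4 [11, 13, 12, 6, 1, 0, 18, 2, 5, 3, 4, 7, 9, 14, 10, 8, 15, 16, 17, 19]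
    [[], [], [], [], [], [], [], [], [], [], [], [], [], [], [], [], [], [], [], [], [], [], [], [], [], [], [], [], [], []]

def nodes : List Node := [nd0, nd1, nd2, nd3, nd4, nd5, nd6, nd7, nd8, nd9, nd10, nd11, nd12, nd13, nd14, nd15, nd16, nd17, nd18, nd19, nd20, nd21, nd22, nd23, nd24, nd25, nd26, nd27, nd28, nd29, nd30, nd31, nd32, nd33, nd34, nd35, nd36, nd37, nd38, nd39, nd40, nd41, nd42, nd43, nd44, nd45, nd46, nd47, nd48, nd49, nd50, nd51, nd52, nd53, nd54, nd55, nd56, nd57, nd58, nd59, nd60, nd61, nd62, nd63, nd64, nd65, nd66, nd67, nd68, nd69, nd70, nd71, nd72, nd73, nd74, nd75, nd76, nd77, nd78, nd79, nd80, nd81, nd82, nd83, nd84, nd85, nd86, nd87, nd88, nd89, nd90, nd91, nd92, nd93, nd94, nd95, nd96, nd97, nd98, nd99, nd100, nd101, nd102, nd103, nd104, nd105, nd106, nd107, nd108, nd109, nd110, nd111, nd112, nd113, nd114, nd115, nd116, nd117, nd118, nd119, nd120, nd121, nd122, nd123, nd124, nd125, nd126, nd127,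 nd128]

theorem nodes_check : checkAll tools nodes 0 = true := by decide +kernel

end N3
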