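import Pool.Agent.Lib_n3.CertDefs
import Pool.Agent.Lib_n3.HexDefs

/-!
# The tools of the search certificate, from the patterns (MP_07e12a_co)
-/

open Finset

namespace N3

namespace Pat

/-- pairs of hosts `i < j` -/
def pairs (P : Pat) : List (ℕ × ℕ) :=
  (List.range P.m).flatMap (fun i =>
    ((List.range P.m).filter (fun j => Nat.blt i j && P.host i && P.host j)).map (fun j => (i, j)))

/-- blockers of a pattern: paths of length 1, 2, 3, 4 between two hosts, outside the pattern -/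
def bl (P : Pat) : List Form :=
  ((P.pairs.filter (fun p => !(P.adj p.1 p.2))).map (fun p => [⟨p.1, p.2, []⟩])) ++
  (P.pairs.map (fun p => [⟨p.1, P.m, List.range P.m⟩, ⟨p.2, P.m, []⟩])) ++
  ((P.pairs.filter (fun p => P.kadj (P.c p.1) (P.c p.2))).map (fun p =>
    [⟨p.1, P.m, List.range P.m⟩, ⟨p.2, P.m + 1, List.range P.m⟩, ⟨P.m, P.m + 1, []⟩])) ++
  ((P.pairs.filter (fun p => P.c p.1 == P.c p.2)).map (fun p =>
    [⟨p.1, P.m, List.range P.m⟩, ⟨p.2, P.m + 1, List.range P.m ++ [P.m]⟩,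
      ⟨P.m, P.m + 2, List.range P.m⟩, ⟨P.m + 1, P.m + 2, []⟩]))

/-- the tool of a pattern, with additional blockers `ex` -/
def tool (P : Pat) (ex : List Form) : Tool where
  nv := P.m
  pat := P.es.map (fun e => ⟨e.1, e.2, []⟩)
  bl := P.bl ++ ex

end Pat

/-- the third neighbours of the hosts `2, 6, 9` of the subdivided `K₄` have a common neighbour -/
def star : Form :=
  [⟨2, 10, List.range 10⟩, ⟨6, 11, List.range 10 ++ [10]⟩, ⟨9, 12, List.range 10 ++ [10, 11]⟩,
    ⟨10, 13, List.range 10⟩, ⟨11, 13, []⟩, ⟨12, 13, []⟩]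

/-- the tools -/
def tools : List Tool :=
  [pSTD.tool [[⟨0, 6, List.range 6⟩, ⟨3, 7, List.range 6⟩, ⟨6, 7, []⟩]],
    pTHETA.tool [], pL3.tool [], pE10.tool [], pD20.tool [], pK4.tool [star]]

end N3
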