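import Pool.Agent.Lib_n3.Stmts

/-!
# Module SP: perturbation at stress-free points (MP_07e12a_co)
-/

open scoped Matrix Topology
open Finset

namespace N3

section
variable {V : Type} [Fintype V] [DecidableEq V]

/-- the predicate of an edge oriented from its point to its line -/
def OEP (F : SimpleGraph V) (side : V → Bool) (p : V × V) : Prop :=
  side p.1 = false ∧ side p.2 = true ∧ F.Adj p.1 p.2

/-- oriented edges -/
abbrev OE (F : SimpleGraph V) (side : V → Bool) : Type := {p : V × V // OEP F side p}

noncomputable instance instFintypeOE (F : SimpleGraph V) (side : V → Bool) :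
    Fintype (OE F side) := by
  classical
  exact Subtype.fintype _

/-- gradient of `ρ ↦ ρ p ⬝ᵥ ρ l` -/
def grad (F : SimpleGraph V) (side : V → Bool) (ρ : V → E) (e : OE F side) : V → E :=
  fun v => (if v = e.1.1 then ρ e.1.2 else 0) + (if v = e.1.2 then ρ e.1.1 else 0)

open Classical in
/-- extension by zero of a function on oriented edges -/
noncomputable def ext0 {F : SimpleGraph V} {side : V → Bool} (c : OE F side → ℝ) (p : V × V) : ℝ :=
  if h : OEP F side p then c ⟨p, h⟩ else 0

omit [Fintype V] [DecidableEq V] in
theorem ext0_coe {F : SimpleGraph V} {side : V → Bool} (c : OE F side → ℝ) (e : OE F side) :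
    ext0 c e.1 = c e := by
  unfold ext0
  rw [dif_pos e.2]

omit [Fintype V] [DecidableEq V] in
theorem ext0_of_not {F : SimpleGraph V} {side : V → Bool} (c : OE F side → ℝ) (p : V × V)
    (h : ¬ OEP F side p) : ext0 c p = 0 := by
  unfold ext0
  rw [dif_neg h]

theorem sum_ext0 {F : SimpleGraph V} {side : V → Bool} (c : OE F side → ℝ) (f : V × V → E) :
    ∑ e : OE F side, c e • f e.1 = ∑ p : V × V, ext0 c p • f p := by
  classical
  have h1 : ∑ p : V × V, ext0 c p • f p
      = ∑ p ∈ univ.filter (fun p : V × V => OEP F side p), ext0 c p • f p := by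
    rw [Finset.sum_filter_of_ne]
    intro p _ hp
    by_contra hn
    apply hp
    rw [ext0_of_not c p hn, zero_smul]
  rw [h1, Finset.sum_subtype (univ.filter (fun p : V × V => OEP F side p))
    (p := fun p => OEP F side p) (by intro x; simp) (fun p => ext0 c p • f p)]
  apply Fintype.sum_congr
  intro e
  rw [ext0_coe]

theorem sum_grad {F : SimpleGraph V} {side : V → Bool} (ρ : V → E) (c : OE F side → ℝ) (v : V) :
    (∑ e : OE F side, c e • grad F side ρ e) v
      = ∑ u, (ext0 c (v, u) + ext0 c (u, v)) • ρ u := by
  rw [Finset.sum_apply]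
  have h := sum_ext0 c (fun p : V × V =>
    (if v = p.1 then ρ p.2 else 0) + (if v = p.2 then ρ p.1 else 0))
  have h2 : ∑ e : OE F side, (c e • grad F side ρ e) v
      = ∑ e : OE F side, c e • ((if v = e.1.1 then ρ e.1.2 else 0)
        + (if v = e.1.2 then ρ e.1.1 else 0)) := by
    apply Fintype.sum_congr
    intro e
    rfl
  rw [h2]
  refine Eq.trans h ?_
  rw [Fintype.sum_prod_type]
  simp only [smul_add, Finset.sum_add_distrib, smul_ite, smul_zero]
  have e1 : ∑ a : V, ∑ b : V, (if v = a then ext0 c (a, b) • ρ b else 0)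
      = ∑ b : V, ext0 c (v, b) • ρ b := by
    rw [Finset.sum_comm]
    apply Fintype.sum_congr
    intro b
    rw [Finset.sum_ite_eq univ v (fun a => ext0 c (a, b) • ρ b)]
    simp
  have e2 : ∑ a : V, ∑ b : V, (if v = b then ext0 c (a, b) • ρ a else 0)
      = ∑ a : V, ext0 c (a, v) • ρ a := by
    apply Fintype.sum_congr
    intro a
    rw [Finset.sum_ite_eq univ v (fun b => ext0 c (a, b) • ρ a)]
    simp
  rw [e1, e2]
  simp only [add_smul, Finset.sum_add_distrib]

theorem stressFree_iff {F : SimpleGraph V} {side : V → Bool} (hF : Bip F side) (ρ : V → E) :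
    StressFree F ρ ↔ LinearIndependent ℝ (grad F side ρ) := by
  rw [Fintype.linearIndependent_iff]
  constructor
  · intro h c hc e
    have hst : Stress F ρ (fun v u => ext0 c (v, u) + ext0 c (u, v)) := by
      refine ⟨fun u v => add_comm _ _, ?_, ?_⟩
      · intro u v huv
        have h1 : ¬ OEP F side (u, v) := fun h => huv h.2.2
        have h2 : ¬ OEP F side (v, u) := fun h => huv h.2.2.symm
        simp only [ext0_of_not c _ h1, ext0_of_not c _ h2, add_zero]
      · intro v
        have := sum_grad ρ c v
        rw [hc] at this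
        exact this.symm
    have h0 := h _ hst e.1.1 e.1.2
    have h1 : ¬ OEP F side (e.1.2, e.1.1) := by
      intro h'
      have := h'.1
      have h2 := e.2.2.1
      simp only at this
      rw [h2] at this
      exact absurd this (by decide)
    rw [ext0_of_not c _ h1, add_zero] at h0
    have h2 := ext0_coe c e
    rw [← h2]
    exact h0
  · intro h ω hω u v
    have key : ∀ e : OE F side, ω e.1.1 e.1.2 = 0 := by
      apply h (fun e => ω e.1.1 e.1.2)
      funext w
      rw [sum_grad]
      have h3 := hω.2.2 w
      rw [Pi.zero_apply, ← h3]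
      apply Fintype.sum_congr
      intro z
      congr 1
      by_cases hadj : F.Adj w z
      · have hs := hF w z hadj
        cases hw : side w
        · have hz : side z = true := by
            cases hz : side z
            · exact absurd (hw.trans hz.symm) hs
            · rfl
          have o1 : OEP F side (w, z) := ⟨hw, hz, hadj⟩
          have o2 : ¬ OEP F side (z, w) := fun h' => by
            have := h'.1
            simp only at this
            rw [hz] at this
            exact absurd this (by decide)
          rw [ext0_of_not _ _ o2, add_zero]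
          exact ext0_coe (fun e : OE F side => ω e.1.1 e.1.2) ⟨(w, z), o1⟩
        · have hz : side z = false := by
            cases hz : side z
            · rfl
            · exact absurd (hw.trans hz.symm) hs
          have o1 : OEP F side (z, w) := ⟨hz, hw, hadj.symm⟩
          have o2 : ¬ OEP F side (w, z) := fun h' => by
            have := h'.1
            simp only at this
            rw [hw] at this
            exact absurd this (by decide)
          rw [ext0_of_not _ _ o2, zero_add, hω.1 w z]
          exact ext0_coe (fun e : OE F side => ω e.1.1 e.1.2) ⟨(z, w), o1⟩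
      · have h1 : ¬ OEP F side (w, z) := fun h => hadj h.2.2
        have h2 : ¬ OEP F side (z, w) := fun h => hadj h.2.2.symm
        rw [ext0_of_not _ _ h1, ext0_of_not _ _ h2, add_zero, hω.2.1 w z hadj]
    by_cases hadj : F.Adj u v
    · have hs := hF u v hadj
      cases hu : side u
      · have hv : side v = true := by
          cases hv : side v
          · exact absurd (hu.trans hv.symm) hs
          · rfl
        exact key ⟨(u, v), hu, hv, hadj⟩
      · have hv : side v = false := by
          cases hv : side v
          · rfl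
          · exact absurd (hu.trans hv.symm) hs
        rw [hω.1 u v]
        exact key ⟨(v, u), hv, hu, hadj.symm⟩
    · exact hω.2.1 u v hadj

/-- the map of all edge values -/
def edgeMap (F : SimpleGraph V) (side : V → Bool) (ρ : V → E) : OE F side → ℝ :=
  fun e => ρ e.1.1 ⬝ᵥ ρ e.1.2

/-- coordinate projection -/
noncomputable def prj (v : V) (i : Fin 3) : (V → E) →L[ℝ] ℝ :=
  (ContinuousLinearMap.proj i : E →L[ℝ] ℝ).comp (ContinuousLinearMap.proj v)

omit [DecidableEq V] in
theorem hasStrictFDerivAt_dot (a b : V) (ρ : V → E) :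
    HasStrictFDerivAt (fun σ : V → E => σ a ⬝ᵥ σ b)
      (∑ i : Fin 3, (ρ a i • prj b i + ρ b i • prj a i)) ρ := by
  have h : ∀ i : Fin 3, HasStrictFDerivAt (fun σ : V → E => σ a i * σ b i)
      (ρ a i • prj b i + ρ b i • prj a i) ρ := by
    intro i
    exact (prj a i).hasStrictFDerivAt.mul (prj b i).hasStrictFDerivAt
  have := HasStrictFDerivAt.fun_sum (u := (univ : Finset (Fin 3))) (fun i _ => h i)
  exact this

/-- derivative of the map of all edge values -/
noncomputable def edgeD (F : SimpleGraph V) (side : V → Bool) (ρ : V → E) :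
    (V → E) →L[ℝ] (OE F side → ℝ) :=
  ContinuousLinearMap.pi (fun e : OE F side =>
    ∑ i : Fin 3, (ρ e.1.1 i • prj e.1.2 i + ρ e.1.2 i • prj e.1.1 i))

theorem hasStrictFDerivAt_edgeMap (F : SimpleGraph V) (side : V → Bool) (ρ : V → E) :
    HasStrictFDerivAt (edgeMap F side) (edgeD F side ρ) ρ := by
  rw [hasStrictFDerivAt_pi']
  intro e
  exact hasStrictFDerivAt_dot e.1.1 e.1.2 ρ

theorem edgeD_apply (F : SimpleGraph V) (side : V → Bool) (ρ δ : V → E) (e : OE F side) :
    edgeD F side ρ δ e = ρ e.1.1 ⬝ᵥ δ e.1.2 + ρ e.1.2 ⬝ᵥ δ e.1.1 := by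
  simp only [edgeD, ContinuousLinearMap.pi_apply, _root_.sum_apply,
    _root_.add_apply, _root_.smul_apply, prj,
    ContinuousLinearMap.comp_apply, ContinuousLinearMap.proj_apply, smul_eq_mul,
    Finset.sum_add_distrib, dotProduct]

theorem edgeD_single (F : SimpleGraph V) (side : V → Bool) (ρ : V → E) (e : OE F side) (v : V)
    (i : Fin 3) : edgeD F side ρ (Pi.single v (Pi.single i 1)) e = grad F side ρ e v i := by
  rw [edgeD_apply]
  have h : ∀ w : V, ∀ x : E,
      x ⬝ᵥ ((Pi.single v (Pi.single i 1) : V → E) w) = if v = w then x i else 0 := by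
    intro w x
    by_cases hw : v = w
    · subst hw
      simp
    · rw [if_neg hw, Pi.single_eq_of_ne (Ne.symm hw)]
      simp
  rw [h, h]
  unfold grad
  rw [Pi.add_apply, add_comm]
  congr 1
  · split_ifs <;> rfl
  · split_ifs <;> rfl

theorem edgeD_surj {F : SimpleGraph V} {side : V → Bool} {ρ : V → E}
    (h : LinearIndependent ℝ (grad F side ρ)) :
    (edgeD F side ρ).range = ⊤ := by
  by_contra hne
  obtain ⟨f, hf, hle⟩ := Submodule.exists_le_ker_of_lt_top _ (lt_top_iff_ne_top.2 hne)
  apply hf
  classical
  rw [Fintype.linearIndependent_iff] at h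
  have hfe : ∀ y : OE F side → ℝ, f y = ∑ e, f (Pi.single e 1) * y e := by
    intro y
    conv_lhs => rw [pi_eq_sum_univ' y]
    rw [map_sum]
    apply Fintype.sum_congr
    intro e
    rw [map_smul, smul_eq_mul, mul_comm]
  have hz : ∀ e, f (Pi.single e 1) = 0 := by
    apply h (fun e => f (Pi.single e 1))
    funext v i
    have h1 : edgeD F side ρ (Pi.single v (Pi.single i 1)) ∈ LinearMap.ker f :=
      hle (LinearMap.mem_range_self _ _)
    rw [LinearMap.mem_ker, hfe] at h1
    rw [Finset.sum_apply, Finset.sum_apply]
    simp only [Pi.smul_apply, smul_eq_mul, Pi.zero_apply]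
    rw [← h1]
    apply Fintype.sum_congr
    intro e
    rw [edgeD_single]
  refine LinearMap.ext fun y => ?_
  rw [hfe y, LinearMap.zero_apply]
  apply Finset.sum_eq_zero
  intro e _
  rw [hz e, zero_mul]

end

theorem sp : SPStmt := by
  intro V _ _ F side ρ hB hS U hU
  have hLI := (stressFree_iff hB ρ).1 hS
  have hmap := (hasStrictFDerivAt_edgeMap F side ρ).map_nhds_eq_of_surj (edgeD_surj hLI)
  have himg : edgeMap F side '' U ∈ 𝓝 (edgeMap F side ρ) := by
    rw [← hmap]
    exact Filter.image_mem_map hU
  obtain ⟨ε, hε, hball⟩ := Metric.mem_nhds_iff.1 himg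
  refine ⟨ε, hε, ?_⟩
  intro c hc hcl
  have hmem : (fun e : OE F side => c e.1.1 e.1.2) ∈ Metric.ball (edgeMap F side ρ) ε := by
    rw [Metric.mem_ball, dist_pi_lt_iff hε]
    intro e
    rw [Real.dist_eq]
    exact hcl _ _ e.2.2.2
  obtain ⟨ρ', hρU, hρ⟩ := hball hmem
  refine ⟨ρ', hρU, ?_⟩
  have hval : ∀ e : OE F side, ρ' e.1.1 ⬝ᵥ ρ' e.1.2 = c e.1.1 e.1.2 := fun e => congrFun hρ e
  intro u v hadj
  have hs := hB u v hadj
  cases hu : side u
  · have hv : side v = true := by
      cases hv : side v
      · exact absurd (hu.trans hv.symm) hs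
      · rfl
    exact hval ⟨(u, v), hu, hv, hadj⟩
  · have hv : side v = false := by
      cases hv : side v
      · rfl
      · exact absurd (hu.trans hv.symm) hs
    rw [dotProduct_comm, hc u v]
    exact hval ⟨(v, u), hv, hu, hadj.symm⟩

theorem sfOpen : SFOpenStmt := by
  intro V _ _ F side hB
  have hset : {ρ : V → E | StressFree F ρ}
      = (grad F side) ⁻¹' {g : OE F side → (V → E) | LinearIndependent ℝ g} := by
    ext ρ
    exact stressFree_iff hB ρ
  rw [hset]
  apply IsOpen.preimage _ isOpen_setOfPred_linearIndependent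
  unfold grad
  refine continuous_pi fun e => continuous_pi fun v => ?_
  apply Continuous.add
  · by_cases h : v = e.1.1
    · simp only [if_pos h]
      exact continuous_apply _
    · simp only [if_neg h]
      exact continuous_const
  · by_cases h : v = e.1.2
    · simp only [if_pos h]
      exact continuous_apply _
    · simp only [if_neg h]
      exact continuous_const

theorem continuous_cross {V : Type} (u v : V) :
    Continuous (fun ρ : V → E => crossProduct (ρ u) (ρ v)) := by
  simp only [cross_apply]
  refine continuous_pi fun i => ?_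
  have hc : ∀ (w : V) (j : Fin 3), Continuous (fun ρ : V → E => ρ w j) := fun w j =>
    (continuous_apply j).comp (continuous_apply w)
  fin_cases i
  · exact ((hc u 1).mul (hc v 2)).sub ((hc u 2).mul (hc v 1))
  · exact ((hc u 2).mul (hc v 0)).sub ((hc u 0).mul (hc v 2))
  · exact ((hc u 0).mul (hc v 1)).sub ((hc u 1).mul (hc v 0))

theorem sepOpen : SepOpenStmt := by
  intro V _ side
  have hset : {ρ : V → E | Sep side ρ}
      = (⋂ v : V, {ρ : V → E | ρ v ≠ 0}) ∩
        ⋂ u : V, ⋂ v : V, {ρ : V → E | u ≠ v → side u = side v → Np (ρ u) (ρ v)} := by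
    ext ρ
    simp only [Sep, Set.mem_ofPred_eq, Set.mem_inter_iff, Set.mem_iInter]
  rw [hset]
  apply IsOpen.inter
  · exact isOpen_iInter_of_finite fun v => isOpen_ne.preimage (continuous_apply v)
  · refine isOpen_iInter_of_finite fun u => isOpen_iInter_of_finite fun v => ?_
    by_cases h1 : u ≠ v
    · by_cases h2 : side u = side v
      · have : {ρ : V → E | u ≠ v → side u = side v → Np (ρ u) (ρ v)}
            = (fun ρ : V → E => crossProduct (ρ u) (ρ v)) ⁻¹' {x | x ≠ 0} := by
          ext ρ
          simp only [Set.mem_ofPred_eq, Set.mem_preimage, Np]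
          exact ⟨fun h => h h1 h2, fun h _ _ => h⟩
        rw [this]
        exact isOpen_ne.preimage (continuous_cross u v)
      · have : {ρ : V → E | u ≠ v → side u = side v → Np (ρ u) (ρ v)} = Set.univ := by
          ext ρ
          simp only [Set.mem_ofPred_eq, Set.mem_univ, iff_true]
          exact fun _ h => absurd h h2
        rw [this]
        exact isOpen_univ
    · have : {ρ : V → E | u ≠ v → side u = side v → Np (ρ u) (ρ v)} = Set.univ := by
        ext ρ
        simp only [Set.mem_ofPred_eq, Set.mem_univ, iff_true]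
        exact fun h => absurd h h1
      rw [this]
      exact isOpen_univ

end N3
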