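import Pool.Agent.Lib_n3.StmtsStd
import Pool.Agent.Lib_n3.SP

/-!
# Module LemmaA (MP_07e12a_co)
-/

open scoped Matrix Topology NNReal
open Finset

namespace N3

section
variable {V : Type} [Fintype V] [DecidableEq V]

theorem abs_dot_le (x y : E) : |x ⬝ᵥ y| ≤ 3 * (‖x‖ * ‖y‖) := by
  have h : ∀ i, |x i * y i| ≤ ‖x‖ * ‖y‖ := by
    intro i
    rw [abs_mul]
    exact mul_le_mul (norm_le_pi_norm x i) (norm_le_pi_norm y i) (abs_nonneg _) (norm_nonneg _)
  calc |x ⬝ᵥ y| = |∑ i, x i * y i| := rfl
    _ ≤ ∑ i, |x i * y i| := Finset.abs_sum_le_sum_abs _ _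
    _ ≤ ∑ _i : Fin 3, ‖x‖ * ‖y‖ := Finset.sum_le_sum (fun i _ => h i)
    _ = 3 * (‖x‖ * ‖y‖) := by
      rw [Finset.sum_const, Finset.card_univ, Fintype.card_fin, nsmul_eq_mul]
      norm_num

/-- quantitative solvability near a stress-free point -/
theorem solveNear (F : SimpleGraph V) (side : V → Bool) (κ : V → E) (hB : Bip F side)
    (hS : StressFree F κ) : ∃ s ∈ 𝓝 κ, ∃ C : ℝ, 0 < C ∧ ∀ (m : V → E) (δ : ℝ), 0 ≤ δ →
      Metric.closedBall m (C * δ) ⊆ s → (∀ u v, F.Adj u v → |m u ⬝ᵥ m v| ≤ δ) →
        ∃ m' ∈ Metric.closedBall m (C * δ), Rlz F m' := by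
  have hLI := (stressFree_iff hB κ).1 hS
  have hsurj := edgeD_surj hLI
  let N := (edgeD F side κ).nonlinearRightInverseOfSurjective hsurj
  have Npos : 0 < N.nnnorm := (edgeD F side κ).nonlinearRightInverseOfSurjective_nnnorm_pos hsurj
  have Npos' : (0 : ℝ) < (N.nnnorm : ℝ) := Npos
  have cpos : (0 : ℝ≥0) < N.nnnorm⁻¹ / 2 := by
    have := inv_pos.2 Npos
    positivity
  obtain ⟨s, hs, happ⟩ := (hasStrictFDerivAt_edgeMap F side κ).approximates_deriv_on_nhds
    (c := N.nnnorm⁻¹ / 2) (Or.inr cpos)
  refine ⟨s, hs, 2 * (N.nnnorm : ℝ), by positivity, ?_⟩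
  intro m δ hδ hball hm
  have hsurj2 := happ.surjOn_closedBall_of_nonlinearRightInverse N
    (ε := 2 * (N.nnnorm : ℝ) * δ) (b := m) (by positivity) hball
  have hr : (((N.nnnorm : ℝ)⁻¹ - ((N.nnnorm⁻¹ / 2 : ℝ≥0) : ℝ)) * (2 * (N.nnnorm : ℝ) * δ)) = δ := by
    push_cast
    field_simp
    ring
  rw [hr] at hsurj2
  have h0 : (0 : OE F side → ℝ) ∈ Metric.closedBall (edgeMap F side m) δ := by
    rw [Metric.mem_closedBall, dist_comm, dist_zero_right, pi_norm_le_iff_of_nonneg hδ]
    intro e
    exact hm _ _ e.2.2.2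
  obtain ⟨m', hm', hval⟩ := hsurj2 h0
  refine ⟨m', hm', ?_⟩
  have hv : ∀ e : OE F side, m' e.1.1 ⬝ᵥ m' e.1.2 = 0 := fun e => congrFun hval e
  intro u v hadj
  have hs := hB u v hadj
  cases hu : side u
  · have hv' : side v = true := by
      cases hv' : side v
      · exact absurd (hu.trans hv'.symm) hs
      · rfl
    exact hv ⟨(u, v), hu, hv', hadj⟩
  · have hv' : side v = false := by
      cases hv' : side v
      · rfl
      · exact absurd (hu.trans hv'.symm) hs
    rw [dotProduct_comm]
    exact hv ⟨(v, u), hv', hu, hadj.symm⟩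

/-- the differences of the edge values, weighted by a symmetric `ω` with `∑ ω v u • κ u = 0` -/
theorem stress_diff (κ m m' : V → E) (ω : V → V → ℝ) (hsym : ∀ u v, ω u v = ω v u)
    (heq : ∀ v, ∑ u, ω v u • κ u = 0) :
    ∑ v, ∑ u, ω v u * (m' v ⬝ᵥ m' u - m v ⬝ᵥ m u)
      = ∑ v, ∑ u, ω v u * ((m u + m' u - (2 : ℝ) • κ u) ⬝ᵥ (m' v - m v)) := by
  have h1 : ∀ v, ∑ u, ω v u * (κ u ⬝ᵥ (m' v - m v)) = 0 := by
    intro v
    have := congrArg (fun x : E => x ⬝ᵥ (m' v - m v)) (heq v)
    simp only [zero_dotProduct] at this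
    rw [← this, sum_dotProduct]
    apply Finset.sum_congr rfl
    intro u _
    rw [smul_dotProduct, smul_eq_mul]
  have h2 : ∀ v u, m' v ⬝ᵥ m' u - m v ⬝ᵥ m u
      = (1 / 2 : ℝ) * ((m u + m' u) ⬝ᵥ (m' v - m v)) + (1 / 2 : ℝ) * ((m v + m' v) ⬝ᵥ (m' u - m u)) := by
    intro v u
    simp only [dotProduct, Fin.sum_univ_three, Pi.add_apply, Pi.sub_apply]
    ring
  have h3 : ∑ v, ∑ u, ω v u * ((m v + m' v) ⬝ᵥ (m' u - m u))
      = ∑ v, ∑ u, ω v u * ((m u + m' u) ⬝ᵥ (m' v - m v)) := by
    rw [Finset.sum_comm]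
    apply Finset.sum_congr rfl
    intro u _
    apply Finset.sum_congr rfl
    intro v _
    rw [hsym v u]
  have h4 : ∑ v, ∑ u, ω v u * (m' v ⬝ᵥ m' u - m v ⬝ᵥ m u)
      = ∑ v, ∑ u, ω v u * ((m u + m' u) ⬝ᵥ (m' v - m v)) := by
    have : ∑ v, ∑ u, ω v u * (m' v ⬝ᵥ m' u - m v ⬝ᵥ m u)
        = (1 / 2 : ℝ) * ∑ v, ∑ u, ω v u * ((m u + m' u) ⬝ᵥ (m' v - m v))
          + (1 / 2 : ℝ) * ∑ v, ∑ u, ω v u * ((m v + m' v) ⬝ᵥ (m' u - m u)) := by
      simp only [Finset.mul_sum, ← Finset.sum_add_distrib]
      apply Finset.sum_congr rfl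
      intro v _
      apply Finset.sum_congr rfl
      intro u _
      rw [h2 v u]
      ring
    rw [this, h3]
    ring
  rw [h4]
  apply Finset.sum_congr rfl
  intro v _
  have h5 : ∀ u, ω v u * ((m u + m' u - (2 : ℝ) • κ u) ⬝ᵥ (m' v - m v))
      = ω v u * ((m u + m' u) ⬝ᵥ (m' v - m v)) - 2 * (ω v u * (κ u ⬝ᵥ (m' v - m v))) := by
    intro u
    rw [sub_dotProduct, smul_dotProduct, smul_eq_mul]
    ring
  simp only [h5, Finset.sum_sub_distrib, ← Finset.mul_sum, h1 v]
  ring

end

theorem lemmaA : LemmaAStmt := by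
  intro V _ _ H side κ a b c d hB hab hcd hnab hncd hne hR hκab hκcd hS1 hS2 hm U hU
  have hab' : a ≠ b := fun h => hab (by rw [h])
  have hcd' : c ≠ d := fun h => hcd (by rw [h])
  have adjE : ∀ x y u v : V, x ≠ y → ((SimpleGraph.edge x y).Adj u v ↔ s(u, v) = s(x, y)) := by
    intro x y u v hxy
    rw [SimpleGraph.edge_adj]
    constructor
    · rintro ⟨h, _⟩
      rcases h with ⟨rfl, rfl⟩ | ⟨rfl, rfl⟩
      · rfl
      · exact Sym2.eq_swap
    · intro h
      rw [Sym2.eq_iff] at h
      refine ⟨?_, ?_⟩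
      · rcases h with ⟨h1, h2⟩ | ⟨h1, h2⟩
        · left; exact ⟨h1, h2⟩
        · right; exact ⟨h1, h2⟩
      · rcases h with ⟨h1, h2⟩ | ⟨h1, h2⟩
        · rw [h1, h2]; exact hxy
        · rw [h1, h2]; exact hxy.symm
  have hBadd : ∀ (F : SimpleGraph V) (x y : V), Bip F side → side x ≠ side y → Bip (addE F x y) side := by
    intro F x y hF hxy u v huv
    have hxy' : x ≠ y := fun h => hxy (by rw [h])
    rcases huv with h | h
    · exact hF u v h
    · rw [adjE x y u v hxy', Sym2.eq_iff] at h
      rcases h with ⟨h1, h2⟩ | ⟨h1, h2⟩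
      · rw [h1, h2]; exact hxy
      · rw [h1, h2]; exact hxy.symm
  have hB1 := hBadd H a b hB hab
  have hB12 := hBadd (addE H a b) c d hB1 hcd
  by_cases hS12 : StressFree (addE (addE H a b) c d) κ
  · -- independent case
    obtain ⟨ε, hε, hsp⟩ := sp V (addE (addE H a b) c d) side κ hB12 hS12 U hU
    obtain ⟨m, hmU, hmv⟩ := hsp (fun u v => if s(u, v) = s(c, d) then ε / 2 else 0)
      (by
        intro u v
        simp only [Sym2.eq_swap (a := u) (b := v)])
      (by
        intro u v huv
        rcases huv with (h | h) | h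
        · have h1 : κ u ⬝ᵥ κ v = 0 := hR u v h
          rw [h1]
          split_ifs with h2
          · rw [sub_zero, abs_of_pos (by positivity)]
            linarith
          · simpa using hε
        · rw [adjE a b u v hab'] at h
          rw [if_neg (by rw [h]; exact hne)]
          have h1 : κ u ⬝ᵥ κ v = 0 := by
            rw [Sym2.eq_iff] at h
            rcases h with ⟨h1, h2⟩ | ⟨h1, h2⟩
            · rw [h1, h2]; exact hκab
            · rw [h1, h2, dotProduct_comm]; exact hκab
          rw [h1]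
          simpa using hε
        · rw [adjE c d u v hcd'] at h
          rw [if_pos h]
          have h1 : κ u ⬝ᵥ κ v = 0 := by
            rw [Sym2.eq_iff] at h
            rcases h with ⟨h1, h2⟩ | ⟨h1, h2⟩
            · rw [h1, h2]; exact hκcd
            · rw [h1, h2, dotProduct_comm]; exact hκcd
          rw [h1, sub_zero, abs_of_pos (by positivity)]
          linarith)
    refine ⟨m, hmU, ?_, ?_, ?_⟩
    · intro u v huv
      rw [hmv u v (Or.inl (Or.inl huv)), if_neg]
      intro h
      apply hncd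
      rw [Sym2.eq_iff] at h
      rcases h with ⟨h1, h2⟩ | ⟨h1, h2⟩
      · rw [← h1, ← h2]; exact huv
      · rw [← h1, ← h2]; exact huv.symm
    · rw [hmv a b (Or.inl (Or.inr ((adjE a b a b hab').2 rfl))), if_neg hne]
    · rw [hmv c d (Or.inr ((adjE c d c d hcd').2 rfl)), if_pos rfl]
      positivity
  · -- dependent case
    unfold StressFree at hS12
    push Not at hS12
    obtain ⟨ω, ⟨hsym, hsupp, heq⟩, u₀, v₀, hω0⟩ := hS12
    have hωab : ω a b ≠ 0 := by
      intro h0
      apply hω0
      apply hS2 ω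
      refine ⟨hsym, ?_, heq⟩
      intro u v huv
      by_cases h : (addE (addE H a b) c d).Adj u v
      · rcases h with (h | h) | h
        · exact absurd (Or.inl h) huv
        · rw [adjE a b u v hab', Sym2.eq_iff] at h
          rcases h with ⟨h1, h2⟩ | ⟨h1, h2⟩
          · rw [h1, h2]; exact h0
          · rw [h1, h2, hsym]; exact h0
        · exact absurd (Or.inr h) huv
      · exact hsupp u v h
    obtain ⟨s, hs, C, hC, hsolve⟩ := solveNear (addE H a b) side κ hB1 hS1
    obtain ⟨R, hR0, hRball⟩ := Metric.mem_nhds_iff.1 (Filter.inter_mem hs hU)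
    set W : ℝ := ∑ v, ∑ u, |ω v u| with hW
    have hW0 : 0 ≤ W := Finset.sum_nonneg fun v _ => Finset.sum_nonneg fun u _ => abs_nonneg _
    have hωpos : 0 < |ω a b| := abs_pos.2 hωab
    -- the radius
    obtain ⟨r, hr0, hrR, hrW⟩ : ∃ r : ℝ, 0 < r ∧ 2 * r ≤ R ∧ 6 * W * C * (2 * r) < |ω a b| := by
      refine ⟨min (R / 2) (|ω a b| / (2 * (12 * W * C + 1))), ?_, ?_, ?_⟩
      · apply lt_min
        · linarith
        · positivity
      · have := min_le_left (R / 2) (|ω a b| / (2 * (12 * W * C + 1)))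
        linarith
      · have h1 := min_le_right (R / 2) (|ω a b| / (2 * (12 * W * C + 1)))
        have hD : 0 < 2 * (12 * W * C + 1) := by positivity
        have hWC : 0 ≤ 12 * W * C := by positivity
        calc 6 * W * C * (2 * min (R / 2) (|ω a b| / (2 * (12 * W * C + 1))))
            = 12 * W * C * min (R / 2) (|ω a b| / (2 * (12 * W * C + 1))) := by ring
          _ ≤ 12 * W * C * (|ω a b| / (2 * (12 * W * C + 1))) :=
            mul_le_mul_of_nonneg_left h1 hWC
          _ = |ω a b| * (12 * W * C / (2 * (12 * W * C + 1))) := by ring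
          _ < |ω a b| * 1 := by
            apply mul_lt_mul_of_pos_left _ hωpos
            rw [div_lt_one hD]
            linarith
          _ = |ω a b| := mul_one _
    have hcont : Continuous (fun ρ : V → E => |ρ a ⬝ᵥ ρ b|) := by
      apply Continuous.abs
      exact (continuous_apply a).dotProduct (continuous_apply b)
    have hU' : Metric.ball κ r ∩ {ρ : V → E | |ρ a ⬝ᵥ ρ b| < r / C} ∈ 𝓝 κ := by
      apply Filter.inter_mem (Metric.ball_mem_nhds κ hr0)
      apply (isOpen_lt hcont continuous_const).mem_nhds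
      simp only [Set.mem_ofPred_eq]
      rw [hκab, abs_zero]
      positivity
    obtain ⟨m, ⟨hmr, hmδ⟩, hmR, hmcd, hmab⟩ := hm _ hU'
    have hδpos : 0 < |m a ⬝ᵥ m b| := abs_pos.2 hmab
    have hmδ' : C * |m a ⬝ᵥ m b| < r := by
      have : |m a ⬝ᵥ m b| < r / C := hmδ
      rw [lt_div_iff₀ hC] at this
      linarith
    have hballsub : Metric.closedBall m (C * |m a ⬝ᵥ m b|) ⊆ Metric.ball κ (2 * r) := by
      intro z hz
      rw [Metric.mem_closedBall] at hz
      rw [Metric.mem_ball] at hmr ⊢
      have := dist_triangle z m κ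
      linarith
    obtain ⟨m', hm', hm'R⟩ := hsolve m |m a ⬝ᵥ m b| hδpos.le
      (fun z hz => (hRball (Metric.ball_subset_ball hrR (hballsub hz))).1)
      (by
        intro u v huv
        rcases huv with h | h
        · rw [hmR u v h, abs_zero]; exact hδpos.le
        · rw [adjE a b u v hab', Sym2.eq_iff] at h
          rcases h with ⟨h1, h2⟩ | ⟨h1, h2⟩
          · rw [h1, h2]
          · rw [h1, h2, dotProduct_comm])
    have hm'κ := hballsub hm'
    refine ⟨m', (hRball (Metric.ball_subset_ball hrR hm'κ)).2, ?_, ?_, ?_⟩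
    · intro u v huv
      exact hm'R u v (Or.inl huv)
    · exact hm'R a b (Or.inr ((adjE a b a b hab').2 rfl))
    · intro hg
      have hm'ab := hm'R a b (Or.inr ((adjE a b a b hab').2 rfl))
      have hkey := stress_diff κ m m' ω hsym heq
      have hL : ∑ v, ∑ u, ω v u * (m' v ⬝ᵥ m' u - m v ⬝ᵥ m u) = - 2 * ω a b * (m a ⬝ᵥ m b) := by
        have hterm : ∀ v u, ω v u * (m' v ⬝ᵥ m' u - m v ⬝ᵥ m u)
            = (if v = a then (if u = b then - (ω a b * (m a ⬝ᵥ m b)) else 0) else 0)
              + (if v = b then (if u = a then - (ω a b * (m a ⬝ᵥ m b)) else 0) else 0) := by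
          intro v u
          by_cases h1 : v = a ∧ u = b
          · obtain ⟨rfl, rfl⟩ := h1
            rw [if_pos rfl, if_pos rfl, if_neg hab', hm'ab]
            ring
          · by_cases h2 : v = b ∧ u = a
            · obtain ⟨rfl, rfl⟩ := h2
              rw [if_neg hab'.symm, if_pos rfl, if_pos rfl, dotProduct_comm (m' v), hm'ab,
                hsym v u, dotProduct_comm (m v)]
              ring
            · have e1 : (if v = a then (if u = b then - (ω a b * (m a ⬝ᵥ m b)) else 0) else 0)
                  = (0 : ℝ) := by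
                split_ifs with h3 h4
                · exact absurd ⟨h3, h4⟩ h1
                · rfl
                · rfl
              have e2 : (if v = b then (if u = a then - (ω a b * (m a ⬝ᵥ m b)) else 0) else 0)
                  = (0 : ℝ) := by
                split_ifs with h3 h4
                · exact absurd ⟨h3, h4⟩ h2
                · rfl
                · rfl
              rw [e1, e2, add_zero]
              by_cases h : (addE (addE H a b) c d).Adj v u
              · rcases h with (h | h) | h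
                · rw [hmR v u h, hm'R v u (Or.inl h)]
                  ring
                · exfalso
                  rw [adjE a b v u hab', Sym2.eq_iff] at h
                  rcases h with h | h
                  · exact h1 h
                  · exact h2 h
                · rw [adjE c d v u hcd', Sym2.eq_iff] at h
                  rcases h with ⟨h3, h4⟩ | ⟨h3, h4⟩
                  · rw [h3, h4, hg, hmcd]
                    ring
                  · rw [h3, h4, dotProduct_comm, hg, dotProduct_comm (m d), hmcd]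
                    ring
              · rw [hsupp v u h, zero_mul]
        simp only [hterm, Finset.sum_add_distrib, Finset.sum_ite_eq', Finset.mem_univ, if_true,
          Finset.sum_ite_irrel, Finset.sum_const_zero]
        ring
      have hnorm : ∀ v, ‖m' v - m v‖ ≤ C * |m a ⬝ᵥ m b| := by
        intro v
        rw [Metric.mem_closedBall, dist_eq_norm] at hm'
        exact (norm_le_pi_norm (m' - m) v).trans hm'
      have hnorm2 : ∀ u, ‖m u + m' u - (2 : ℝ) • κ u‖ ≤ 2 * (2 * r) := by
        intro u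
        have e1 : ‖m u - κ u‖ ≤ 2 * r := by
          rw [Metric.mem_ball, dist_eq_norm] at hmr
          have := norm_le_pi_norm (m - κ) u
          rw [Pi.sub_apply] at this
          linarith
        have e2 : ‖m' u - κ u‖ ≤ 2 * r := by
          rw [Metric.mem_ball, dist_eq_norm] at hm'κ
          have := norm_le_pi_norm (m' - κ) u
          rw [Pi.sub_apply] at this
          linarith
        have e3 : m u + m' u - (2 : ℝ) • κ u = (m u - κ u) + (m' u - κ u) := by
          rw [two_smul]
          abel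
        rw [e3]
        have := norm_add_le (m u - κ u) (m' u - κ u)
        linarith
      have hRb : |∑ v, ∑ u, ω v u * ((m u + m' u - (2 : ℝ) • κ u) ⬝ᵥ (m' v - m v))|
          ≤ W * (3 * (2 * (2 * r) * (C * |m a ⬝ᵥ m b|))) := by
        rw [hW, Finset.sum_mul]
        refine (Finset.abs_sum_le_sum_abs _ _).trans (Finset.sum_le_sum fun v _ => ?_)
        rw [Finset.sum_mul]
        refine (Finset.abs_sum_le_sum_abs _ _).trans (Finset.sum_le_sum fun u _ => ?_)
        rw [abs_mul]
        apply mul_le_mul_of_nonneg_left _ (abs_nonneg _)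
        refine (abs_dot_le _ _).trans ?_
        apply mul_le_mul_of_nonneg_left _ (by norm_num)
        exact mul_le_mul (hnorm2 u) (hnorm v) (norm_nonneg _) (by positivity)
      rw [← hkey, hL, abs_mul, abs_mul] at hRb
      have h2 : |(-2 : ℝ)| = 2 := by norm_num
      rw [h2] at hRb
      have h3 : 2 * |ω a b| * |m a ⬝ᵥ m b| ≤ (2 * (6 * W * C * (2 * r)) / 2) * |m a ⬝ᵥ m b| := by
        refine hRb.trans (le_of_eq ?_)
        ring
      have h4 := le_of_mul_le_mul_right h3 hδpos
      linarith

end N3
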