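import Pool.Agent.Lib_n3.Stmts

/-!
# MIN and KILL (MP_07e12a_co)
-/

open scoped Matrix Topology
open Finset

namespace N3

lemma MK.addE_adj {V : Type} (F : SimpleGraph V) {x y : V} (hxy : x ≠ y) (u v : V) :
    (addE F x y).Adj u v ↔ F.Adj u v ∨ (u = x ∧ v = y) ∨ (u = y ∧ v = x) := by
  simp only [addE, SimpleGraph.sup_adj, SimpleGraph.edge_adj]
  constructor
  · rintro (h | ⟨⟨h1, h2⟩ | ⟨h1, h2⟩, h3⟩)
    · exact Or.inl h
    · exact Or.inr (Or.inl ⟨h1, h2⟩)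
    · exact Or.inr (Or.inr ⟨h1, h2⟩)
  · rintro (h | ⟨h1, h2⟩ | ⟨h1, h2⟩)
    · exact Or.inl h
    · subst h1 h2
      exact Or.inr ⟨Or.inl ⟨rfl, rfl⟩, hxy⟩
    · subst h1 h2
      exact Or.inr ⟨Or.inr ⟨rfl, rfl⟩, hxy.symm⟩

lemma MK.bip_addE {V : Type} {F : SimpleGraph V} {side : V → Bool} (hB : Bip F side) {x y : V}
    (hxy : side x ≠ side y) : Bip (addE F x y) side := by
  intro u v h
  have hne : x ≠ y := fun h => hxy (by rw [h])
  rw [MK.addE_adj F hne] at h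
  rcases h with h | ⟨rfl, rfl⟩ | ⟨rfl, rfl⟩
  · exact hB u v h
  · exact hxy
  · exact hxy.symm

lemma MK.continuous_dot {V : Type} (x y : V) : Continuous (fun ρ : V → E => ρ x ⬝ᵥ ρ y) :=
  (continuous_apply x).dotProduct (continuous_apply y)

/-- pairs nonorthogonal at `κ` stay nonorthogonal nearby -/
lemma MK.isOpen_nz {V : Type} [Fintype V] (κ : V → E) :
    IsOpen {ρ : V → E | ∀ x y, κ x ⬝ᵥ κ y ≠ 0 → ρ x ⬝ᵥ ρ y ≠ 0} := by
  simp only [Set.ofPred_forall]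
  refine isOpen_iInter_of_finite fun x => isOpen_iInter_of_finite fun y =>
    isOpen_iInter_of_finite fun _ => ?_
  exact isOpen_ne_fun (MK.continuous_dot x y) continuous_const

open Classical in
/-- the zero non-adjacent pairs of different sides -/
noncomputable def MK.zp {V : Type} [Fintype V] (F : SimpleGraph V) (side : V → Bool) (ρ : V → E) :
    Finset (V × V) :=
  univ.filter (fun p => side p.1 ≠ side p.2 ∧ ¬ F.Adj p.1 p.2 ∧ ρ p.1 ⬝ᵥ ρ p.2 = 0)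

theorem min (hSP : SPStmt) : MinStmt := by
  classical
  intro V _ _ F side hB U hU ρ₀ hρ₀ hR₀
  -- a minimiser
  obtain ⟨ρ, ⟨hρU, hρR⟩, hmin⟩ : ∃ ρ ∈ {ρ : V → E | ρ ∈ U ∧ Rlz F ρ},
      ∀ ρ' ∈ {ρ : V → E | ρ ∈ U ∧ Rlz F ρ}, (MK.zp F side ρ).card ≤ (MK.zp F side ρ').card := by
    have hne : ({ρ : V → E | ρ ∈ U ∧ Rlz F ρ}).Nonempty := ⟨ρ₀, hρ₀, hR₀⟩
    obtain ⟨ρ, h1, h2⟩ := WellFounded.has_min (measure (fun ρ => (MK.zp F side ρ).card)).wf _ hne
    exact ⟨ρ, h1, fun ρ' h' => not_lt.1 (h2 ρ' h')⟩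
  refine ⟨ρ, hρU, hρR, ?_⟩
  intro x y hxy hF h0 hfree
  have hne : x ≠ y := fun h => hxy (by rw [h])
  have hU' : U ∩ {ρ' : V → E | ∀ a b, ρ a ⬝ᵥ ρ b ≠ 0 → ρ' a ⬝ᵥ ρ' b ≠ 0} ∈ 𝓝 ρ :=
    (hU.inter (MK.isOpen_nz ρ)).mem_nhds ⟨hρU, fun _ _ h => h⟩
  obtain ⟨ε, hε, H⟩ := hSP V (addE F x y) side ρ (MK.bip_addE hB hxy) hfree _ hU'
  obtain ⟨ρ', ⟨hρ'U, hρ'nz⟩, hρ'⟩ := H
    (fun u v => if (u = x ∧ v = y) ∨ (u = y ∧ v = x) then ε / 2 else 0)
    (by
      intro u v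
      by_cases h : (u = x ∧ v = y) ∨ (u = y ∧ v = x)
      · rw [if_pos h, if_pos]
        rcases h with ⟨h1, h2⟩ | ⟨h1, h2⟩
        · exact Or.inr ⟨h2, h1⟩
        · exact Or.inl ⟨h2, h1⟩
      · rw [if_neg h, if_neg]
        rintro (⟨h1, h2⟩ | ⟨h1, h2⟩)
        · exact h (Or.inr ⟨h2, h1⟩)
        · exact h (Or.inl ⟨h2, h1⟩))
    (by
      intro u v h
      rw [MK.addE_adj F hne] at h
      have hzero : ρ u ⬝ᵥ ρ v = 0 := by
        rcases h with h | ⟨rfl, rfl⟩ | ⟨rfl, rfl⟩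
        · exact hρR u v h
        · exact h0
        · rw [dotProduct_comm]; exact h0
      rw [hzero, sub_zero]
      split_ifs
      · rw [abs_of_pos (by positivity)]; linarith
      · simpa using hε)
  have hR' : Rlz F ρ' := by
    intro u v h
    rw [hρ' u v ((MK.addE_adj F hne u v).2 (Or.inl h)), if_neg]
    rintro (⟨rfl, rfl⟩ | ⟨rfl, rfl⟩)
    · exact hF h
    · exact hF h.symm
  have hxy' : ρ' x ⬝ᵥ ρ' y ≠ 0 := by
    rw [hρ' x y ((MK.addE_adj F hne x y).2 (Or.inr (Or.inl ⟨rfl, rfl⟩))), if_pos (Or.inl ⟨rfl, rfl⟩)]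
    positivity
  have hlt : (MK.zp F side ρ').card < (MK.zp F side ρ).card := by
    apply Finset.card_lt_card
    rw [Finset.ssubset_iff_of_subset]
    · refine ⟨(x, y), ?_, ?_⟩
      · simp only [MK.zp, mem_filter, mem_univ, true_and]
        exact ⟨hxy, hF, h0⟩
      · simp only [MK.zp, mem_filter, mem_univ, true_and]
        exact fun h => hxy' h.2.2
    · intro p hp
      simp only [MK.zp, mem_filter, mem_univ, true_and] at hp ⊢
      refine ⟨hp.1, hp.2.1, ?_⟩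
      by_contra hc
      exact hρ'nz p.1 p.2 hc hp.2.2
  exact absurd hlt (not_lt.2 (hmin ρ' ⟨hρ'U, hR'⟩))

/-- if `a × b = 0`, `a ≠ 0` and `a ⬝ c = 0` then `b ⬝ c = 0` -/
lemma MK.dot_of_cross {a b c : E} (h : crossProduct a b = 0) (ha : a ≠ 0) (hac : a ⬝ᵥ c = 0) :
    b ⬝ᵥ c = 0 := by
  have h1 := cross_cross_eq_smul_sub_smul a b c
  rw [h, hac] at h1
  simp only [map_zero, LinearMap.zero_apply, zero_smul, zero_sub] at h1
  have h2 : (b ⬝ᵥ c) • a = 0 := by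
    have := h1.symm
    rwa [neg_eq_zero] at this
  exact (smul_eq_zero.1 h2).resolve_right ha

theorem kill (hSP : SPStmt) (hO : SFOpenStmt) : KillStmt := by
  classical
  intro V _ _ G side hB hC4 hdeg κ hκ hR hkill
  have hopen : IsOpen ({ρ : V → E | ∀ v, ρ v ≠ 0} ∩
      ({ρ : V → E | ∀ x y, κ x ⬝ᵥ κ y ≠ 0 → ρ x ⬝ᵥ ρ y ≠ 0} ∩
      {ρ : V → E | ∀ x y, side x ≠ side y → ¬ G.Adj x y → κ x ⬝ᵥ κ y = 0 →
        StressFree (addE G x y) ρ})) := by
    refine IsOpen.inter ?_ (IsOpen.inter (MK.isOpen_nz κ) ?_)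
    · simp only [Set.ofPred_forall]
      exact isOpen_iInter_of_finite fun v => isOpen_ne_fun (continuous_apply v) continuous_const
    · simp only [Set.ofPred_forall]
      refine isOpen_iInter_of_finite fun x => isOpen_iInter_of_finite fun y =>
        isOpen_iInter_of_finite fun hxy => isOpen_iInter_of_finite fun _ =>
        isOpen_iInter_of_finite fun _ => hO V (addE G x y) side (MK.bip_addE hB hxy)
  obtain ⟨ρ, ⟨hρ0, hρnz, hρf⟩, hρR, hρmin⟩ := min hSP V G side hB _ hopen κ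
    ⟨hκ, fun _ _ h => h, hkill⟩ hR
  have h3 : ∀ u v, side u ≠ side v → ¬ G.Adj u v → ρ u ⬝ᵥ ρ v ≠ 0 := by
    intro u v huv hG h0
    by_cases hκ0 : κ u ⬝ᵥ κ v = 0
    · exact hρmin u v huv hG h0 (hρf u v huv hG hκ0)
    · exact hρnz u v hκ0 h0
  refine ⟨ρ, hρR, ⟨hρ0, ?_⟩, h3⟩
  intro u v huv hside hcross
  -- two neighbours of `u`
  have h2 : 1 < (univ.filter (fun w => G.Adj u w)).card := by
    have h := hdeg u
    unfold dg at h
    have h' : (univ.filter (fun w => G.Adj u w)).card =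
        (@Finset.filter V (fun w => G.Adj u w) (Classical.decPred _) univ).card := by
      congr 1
    rw [h']
    exact h
  obtain ⟨a, ha, b, hb, hab⟩ := Finset.one_lt_card.1 h2
  simp only [mem_filter, mem_univ, true_and] at ha hb
  obtain ⟨c, hc, hcv⟩ : ∃ c, G.Adj u c ∧ ¬ G.Adj v c := by
    by_cases hav : G.Adj v a
    · by_cases hbv : G.Adj v b
      · exact absurd (hC4 u v huv a b ha hav hb hbv) hab
      · exact ⟨b, hb, hbv⟩
    · exact ⟨a, ha, hav⟩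
  have hs : side v ≠ side c := by
    rw [← hside]; exact hB u c hc
  exact h3 v c hs hcv (MK.dot_of_cross hcross (hρ0 u) (hρR u c hc))

end N3
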