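import Pool.Agent.Lib_n3.PerfDefs

/-!
# Module PBASE of the project MP_07e12a_co: the neighbourhood of an embedded pattern
-/

open Finset

set_option linter.unusedSectionVars false

namespace N3

namespace PB

/-- the well-formedness conditions, decoded -/
structure WF (P : Pat) (ts : List Bool) : Prop where
  es : ∀ e ∈ P.es, e.1 < e.2 ∧ e.2 < P.m ∧ P.ty ts e.1 ≠ P.ty ts e.2
  deg : ∀ i < P.m, (P.nb i).length = 2 ∨ (P.nb i).length = 3
  conn : ∀ i < P.m, i = 0 ∨ ∃ j < i, P.adj i j = true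
  cle : ∀ i < P.m, P.c i ≤ i
  cc : ∀ i < P.m, P.c (P.c i) = P.c i
  tyc : ∀ i < P.m, P.ty ts (P.c i) = P.ty ts i
  kk : ∀ a ∈ P.reps, ∀ b ∈ P.reps, a ≠ b →
    ((P.kn a).filter (fun x => (P.kn b).contains x)).length ≤ 1

theorem wf_decode {P : Pat} {ts : List Bool} (h : P.wf ts = true) : WF P ts := by
  unfold Pat.wf at h
  simp only [Bool.and_eq_true, decide_eq_true_eq, List.all_eq_true, List.mem_range,
    Bool.or_eq_true, beq_iff_eq, List.any_eq_true, bne_iff_ne, ne_eq] at h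
  obtain ⟨⟨⟨⟨⟨⟨-, h1⟩, h2⟩, -⟩, -⟩, -⟩, h3⟩ := h
  refine ⟨fun e he => ?_, fun i hi => ?_, fun i hi => ?_, fun i hi => ?_, fun i hi => ?_,
    fun i hi => ?_, fun a ha b hb hab => ?_⟩
  · obtain ⟨⟨p, q⟩, r⟩ := h1 e he
    exact ⟨p, q, r⟩
  · exact (h2 i hi).1.1.1.1
  · exact (h2 i hi).1.1.1.2
  · exact (h2 i hi).1.1.2
  · exact (h2 i hi).1.2
  · exact (h2 i hi).2
  · rcases h3 a ha b hb with h | h
    · exact absurd h hab
    · exact h

section lists

variable {P : Pat} {ts : List Bool}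

theorem mem_nb {i j : ℕ} : j ∈ P.nb i ↔ j < P.m ∧ P.adj i j = true := by
  unfold Pat.nb
  simp [List.mem_filter, List.mem_range]

theorem adj_es {i j : ℕ} (h : P.adj i j = true) : (i, j) ∈ P.es ∨ (j, i) ∈ P.es := by
  unfold Pat.adj at h
  simpa [Bool.or_eq_true, List.contains_iff_mem] using h

theorem mem_nx {i j : ℕ} : j ∈ P.nx i ↔ (j < P.m ∧ P.adj i j = true) ∨ (P.host i = true ∧ j = P.m + i) := by
  unfold Pat.nx
  rw [List.mem_append, mem_nb]
  by_cases h : P.host i = true <;> simp [h]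

theorem host_lt {h : ℕ} (hh : P.host h = true) : h < P.m := by
  unfold Pat.host at hh
  simp only [Bool.and_eq_true, decide_eq_true_eq] at hh
  exact hh.1

theorem mem_reps {a : ℕ} : a ∈ P.reps ↔ a < P.m ∧ P.c a = a := by
  unfold Pat.reps
  simp [List.mem_filter, List.mem_range]

theorem mem_mem {a i : ℕ} : i ∈ P.mem a ↔ i < P.m ∧ P.c i = a := by
  unfold Pat.mem
  simp [List.mem_filter, List.mem_range]

theorem mem_kn {a b : ℕ} : b ∈ P.kn a ↔ ∃ i, (i < P.m ∧ P.c i = a) ∧ ∃ j ∈ P.nx i, P.cx j = b := by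
  unfold Pat.kn
  simp only [List.mem_dedup, List.mem_map, List.mem_flatMap, mem_mem]
  constructor
  · rintro ⟨j, ⟨i, hi, hj⟩, rfl⟩
    exact ⟨i, hi, j, hj, rfl⟩
  · rintro ⟨i, hi, j, hj, rfl⟩
    exact ⟨j, ⟨i, hi, hj⟩, rfl⟩

theorem nodup_nb (i : ℕ) : (P.nb i).Nodup := List.Nodup.filter _ List.nodup_range

theorem nx_nodup (i : ℕ) : (P.nx i).Nodup := by
  unfold Pat.nx
  rw [List.nodup_append]
  refine ⟨nodup_nb i, by split_ifs <;> simp, ?_⟩
  intro a ha b hb
  have h1 := (mem_nb.1 ha).1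
  split_ifs at hb
  · simp only [List.mem_singleton] at hb
    omega
  · simp at hb

theorem nx_length (hw : WF P ts) {i : ℕ} (hi : i < P.m) : (P.nx i).length = 3 := by
  unfold Pat.nx Pat.host
  rw [List.length_append]
  rcases hw.deg i hi with h | h <;> simp [h, hi]

theorem cx_lt {i : ℕ} (hi : i < P.m) : P.cx i = P.c i := if_pos hi

theorem cx_ge {i : ℕ} (hi : ¬ i < P.m) : P.cx i = i := if_neg hi

end lists

section graph

variable {V : Type} [Fintype V] [DecidableEq V] {G : SimpleGraph V} {side : V → Bool} {P : Pat}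
  {ts : List Bool} {f t : ℕ → V}

theorem gx_lt {i : ℕ} (hi : i < P.m) : gx P f t i = f i := if_pos hi

theorem gx_host (h : ℕ) : gx P f t (P.m + h) = t h := by
  unfold gx
  rw [if_neg (by omega)]
  congr 1
  omega

theorem adj_f (hE : Emb G P f t) {i j : ℕ} (h : P.adj i j = true) : G.Adj (f i) (f j) := by
  rcases adj_es h with h | h
  · exact hE.adj _ h
  · exact (hE.adj _ h).symm

theorem inj_gx (hE : Emb G P f t) {i j : ℕ} (hi : Vx P i) (hj : Vx P j)
    (h : gx P f t i = gx P f t j) : i = j := by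
  rcases hi with hi | ⟨k, hk, rfl⟩ <;> rcases hj with hj | ⟨l, hl, rfl⟩
  · rw [gx_lt hi, gx_lt hj] at h
    exact hE.inj i hi j hj h
  · rw [gx_lt hi, gx_host] at h
    exact absurd h.symm (hE.out l hl i hi)
  · rw [gx_lt hj, gx_host] at h
    exact absurd h (hE.out k hk j hj)
  · rw [gx_host, gx_host] at h
    by_contra hne
    exact hE.dis k l hk hl (fun e => hne (by rw [e])) h

theorem vx_nx {i j : ℕ} (hj : j ∈ P.nx i) : Vx P j := by
  rcases mem_nx.1 hj with h | ⟨h, rfl⟩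
  · exact Or.inl h.1
  · exact Or.inr ⟨i, h, rfl⟩

theorem adj_nx (hE : Emb G P f t) {i j : ℕ} (hj : j ∈ P.nx i) :
    G.Adj (f i) (gx P f t j) := by
  rcases mem_nx.1 hj with h | ⟨h, rfl⟩
  · rw [gx_lt h.1]; exact adj_f hE h.2
  · rw [gx_host]; exact hE.att i h

theorem nbr_iff (hL : Lev G side) (hw : WF P ts) (hE : Emb G P f t) {i : ℕ} (hi : i < P.m) (v : V) :
    G.Adj (f i) v ↔ ∃ j ∈ P.nx i, gx P f t j = v := by
  classical
  constructor
  · intro h
    have h3 := hL.cubic (f i)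
    unfold dg at h3
    set N := Finset.univ.filter (fun u => G.Adj (f i) u) with hN
    set A := (P.nx i).toFinset.image (gx P f t) with hA
    have hAc : A.card = 3 := by
      rw [hA, Finset.card_image_of_injOn, List.toFinset_card_of_nodup (nx_nodup i), nx_length hw hi]
      intro j hj k hk hjk
      simp only [List.coe_toFinset, Set.mem_ofPred_eq] at hj hk
      exact inj_gx hE (vx_nx hj) (vx_nx hk) hjk
    have hsub : A ⊆ N := by
      intro u hu
      rw [hA, Finset.mem_image] at hu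
      obtain ⟨j, hj, rfl⟩ := hu
      rw [List.mem_toFinset] at hj
      rw [hN, Finset.mem_filter]
      exact ⟨Finset.mem_univ _, adj_nx hE hj⟩
    have hNc : N.card = 3 := by
      rw [hN, ← h3]
    have heq : A = N := Finset.eq_of_subset_of_card_le hsub (by rw [hAc, hNc])
    have hv : v ∈ N := by rw [hN, Finset.mem_filter]; exact ⟨Finset.mem_univ _, h⟩
    rw [← heq, hA, Finset.mem_image] at hv
    obtain ⟨j, hj, hjv⟩ := hv
    exact ⟨j, List.mem_toFinset.1 hj, hjv⟩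
  · rintro ⟨j, hj, rfl⟩
    exact adj_nx hE hj

theorem side_f (hL : Lev G side) (hw : WF P ts) (hE : Emb G P f t) : ∀ i, i < P.m →
    (side (f i) = side (f 0) ↔ P.ty ts i = P.ty ts 0) := by
  intro i
  induction i using Nat.strong_induction_on with
  | _ i ih =>
    intro hi
    rcases hw.conn i hi with h | ⟨j, hj, hij⟩
    · subst h; simp
    · have h1 := ih j hj (by omega)
      have h2 : side (f i) ≠ side (f j) := hL.bip _ _ (adj_f hE hij)
      have h3 : P.ty ts i ≠ P.ty ts j := by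
        rcases adj_es hij with h | h
        · exact (hw.es _ h).2.2
        · exact Ne.symm (hw.es _ h).2.2
      revert h1 h2 h3
      cases side (f i) <;> cases side (f j) <;> cases side (f 0) <;> cases P.ty ts i <;>
        cases P.ty ts j <;> cases P.ty ts 0 <;> simp

theorem side_gx (hL : Lev G side) (hw : WF P ts) (hE : Emb G P f t) {i : ℕ} (hi : Vx P i) :
    (side (gx P f t i) = side (f 0) ↔ P.ty ts i = P.ty ts 0) := by
  rcases hi with hi | ⟨h, hh, rfl⟩
  · rw [gx_lt hi]; exact side_f hL hw hE i hi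
  · rw [gx_host]
    have hlt := host_lt hh
    have h1 := side_f hL hw hE h hlt
    have h2 : side (f h) ≠ side (t h) := hL.bip _ _ (hE.att h hh)
    have h3 : P.ty ts (P.m + h) = !(P.ty ts h) := by
      unfold Pat.ty
      rw [if_neg (by omega), if_pos hlt]
      congr 2
      omega
    rw [h3]
    revert h1 h2
    cases side (f h) <;> cases side (t h) <;> cases side (f 0) <;> cases P.ty ts h <;>
      cases P.ty ts 0 <;> simp

theorem sd' (hL : Lev G side) (hw : WF P ts) (hE : Emb G P f t) {i j : ℕ} (hi : Vx P i)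
    (hj : Vx P j) : (side (gx P f t i) = side (gx P f t j) ↔ P.ty ts i = P.ty ts j) := by
  have h1 := side_gx hL hw hE hi
  have h2 := side_gx hL hw hE hj
  revert h1 h2
  cases side (gx P f t i) <;> cases side (gx P f t j) <;> cases side (f 0) <;>
    cases P.ty ts i <;> cases P.ty ts j <;> cases P.ty ts 0 <;> simp

theorem vx_cx (hw : WF P ts) {i : ℕ} (hi : Vx P i) : Vx P (P.cx i) ∧ P.cx (P.cx i) = P.cx i := by
  by_cases h : i < P.m
  · have h1 : P.c i < P.m := lt_of_le_of_lt (hw.cle i h) h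
    rw [cx_lt h, cx_lt h1]
    exact ⟨Or.inl h1, hw.cc i h⟩
  · rw [cx_ge h, cx_ge h]
    exact ⟨hi, rfl⟩

theorem q_f (hE : Emb G P f t) {i : ℕ} (hi : i < P.m) : qmap P f (f i) = f (P.c i) := by
  have h : ∃ j, j < P.m ∧ f j = f i := ⟨i, hi, rfl⟩
  unfold qmap
  rw [dif_pos h]
  congr 2
  exact hE.inj _ h.choose_spec.1 _ hi h.choose_spec.2

theorem q_out {v : V} (hv : ∀ i < P.m, f i ≠ v) : qmap P f v = v := by
  unfold qmap
  rw [dif_neg]
  rintro ⟨i, hi, h⟩
  exact hv i hi h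

theorem q_gx (hw : WF P ts) (hE : Emb G P f t) {i : ℕ} (hi : Vx P i) :
    qmap P f (gx P f t i) = gx P f t (P.cx i) := by
  rcases hi with hi | ⟨h, hh, rfl⟩
  · rw [gx_lt hi, cx_lt hi, gx_lt (lt_of_le_of_lt (hw.cle i hi) hi), q_f hE hi]
  · rw [cx_ge (by omega), gx_host, q_out]
    intro i hi
    exact (hE.out h hh i hi).symm

theorem side_q (hL : Lev G side) (hw : WF P ts) (hE : Emb G P f t) (v : V) :
    side (qmap P f v) = side v := by
  by_cases h : ∃ i, i < P.m ∧ f i = v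
  · obtain ⟨i, hi, rfl⟩ := h
    have hc : P.c i < P.m := lt_of_le_of_lt (hw.cle i hi) hi
    rw [q_f hE hi]
    have h1 := sd' hL hw hE (i := P.c i) (j := i) (Or.inl hc) (Or.inl hi)
    rw [gx_lt hi, gx_lt hc] at h1
    exact h1.2 (hw.tyc i hi)
  · rw [q_out]
    intro i hi hv
    exact h ⟨i, hi, hv⟩

theorem quot_adj (hL : Lev G side) (hw : WF P ts) (hE : Emb G P f t) (a b : V) :
    (quot G (qmap P f)).Adj a b ↔ ∃ u v, G.Adj u v ∧ qmap P f u = a ∧ qmap P f v = b := by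
  unfold quot
  rw [SimpleGraph.fromRel_adj]
  constructor
  · rintro ⟨-, h | ⟨u, v, h, hu, hv⟩⟩
    · exact h
    · exact ⟨v, u, h.symm, hv, hu⟩
  · rintro ⟨u, v, h, hu, hv⟩
    refine ⟨?_, Or.inl ⟨u, v, h, hu, hv⟩⟩
    rintro rfl
    have h1 := side_q hL hw hE u
    have h2 := side_q hL hw hE v
    rw [hu] at h1
    rw [hv] at h2
    exact hL.bip u v h (h1.symm.trans h2)

theorem q_eq_f (hw : WF P ts) (hE : Emb G P f t) {u : V} {a : ℕ} (ha : a < P.m)
    (h : qmap P f u = f a) : ∃ i, i < P.m ∧ f i = u ∧ P.c i = a := by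
  by_cases h1 : ∃ i, i < P.m ∧ f i = u
  · obtain ⟨i, hi, rfl⟩ := h1
    rw [q_f hE hi] at h
    exact ⟨i, hi, rfl, hE.inj _ (lt_of_le_of_lt (hw.cle i hi) hi) _ ha h⟩
  · exfalso
    rw [q_out (fun i hi hv => h1 ⟨i, hi, hv⟩)] at h
    exact h1 ⟨a, ha, h.symm⟩

theorem q_eq_out (hw : WF P ts) (hE : Emb G P f t) {u v : V} (hv : ∀ i < P.m, f i ≠ v)
    (h : qmap P f u = v) : u = v := by
  by_cases h1 : ∃ i, i < P.m ∧ f i = u
  · exfalso
    obtain ⟨i, hi, rfl⟩ := h1
    rw [q_f hE hi] at h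
    exact hv _ (lt_of_le_of_lt (hw.cle i hi) hi) h
  · rw [q_out (fun i hi hv => h1 ⟨i, hi, hv⟩)] at h
    exact h

theorem kadj' (hL : Lev G side) (hw : WF P ts) (hE : Emb G P f t) {a : ℕ} (ha : a ∈ P.reps)
    (v : V) : (quot G (qmap P f)).Adj (f a) v ↔ ∃ b ∈ P.kn a, gx P f t b = v := by
  obtain ⟨ham, hca⟩ := mem_reps.1 ha
  rw [quot_adj hL hw hE]
  constructor
  · rintro ⟨u, w, huw, hu, hw'⟩
    obtain ⟨i, hi, rfl, hci⟩ := q_eq_f hw hE ham hu
    obtain ⟨j, hj, rfl⟩ := (nbr_iff hL hw hE hi w).1 huw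
    refine ⟨P.cx j, mem_kn.2 ⟨i, ⟨hi, hci⟩, j, hj, rfl⟩, ?_⟩
    rw [← hw', q_gx hw hE (vx_nx hj)]
  · rintro ⟨b, hb, rfl⟩
    obtain ⟨i, ⟨hi, hci⟩, j, hj, rfl⟩ := mem_kn.1 hb
    exact ⟨f i, gx P f t j, adj_nx hE hj, by rw [q_f hE hi, hci], q_gx hw hE (vx_nx hj)⟩

theorem kout' (hL : Lev G side) (hw : WF P ts) (hE : Emb G P f t) {v : V}
    (hv : ∀ i < P.m, f i ≠ v) (u : V) :
    (quot G (qmap P f)).Adj v u ↔ ∃ w, G.Adj v w ∧ qmap P f w = u := by
  rw [quot_adj hL hw hE]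
  constructor
  · rintro ⟨a, b, hab, ha, hb⟩
    have := q_eq_out hw hE hv ha
    subst this
    exact ⟨b, hab, hb⟩
  · rintro ⟨w, h, hw'⟩
    exact ⟨v, w, h, q_out hv, hw'⟩

theorem iso' (hL : Lev G side) (hw : WF P ts) (hE : Emb G P f t) {i : ℕ} (hi : i < P.m)
    (hc : P.c i ≠ i) (u : V) : ¬ (quot G (qmap P f)).Adj (f i) u := by
  rw [quot_adj hL hw hE]
  rintro ⟨a, b, hab, ha, hb⟩
  obtain ⟨j, hj, rfl, hcj⟩ := q_eq_f hw hE hi ha
  apply hc
  rw [← hcj, hw.cc j hj]

theorem onb' (hL : Lev G side) (hw : WF P ts) (hE : Emb G P f t) {i : ℕ} (hi : i < P.m) {v : V}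
    (h : G.Adj (f i) v) (hv : ∀ j < P.m, f j ≠ v) : P.host i = true ∧ v = t i := by
  obtain ⟨j, hj, rfl⟩ := (nbr_iff hL hw hE hi v).1 h
  rcases mem_nx.1 hj with hj | ⟨hh, rfl⟩
  · exact absurd (gx_lt hj.1).symm (hv j hj.1)
  · exact ⟨hh, gx_host i⟩

/-- a representative -/
def In (P : Pat) (f : ℕ → V) (v : V) : Prop := ∃ r, r < P.m ∧ P.c r = r ∧ f r = v

/-- a vertex outside the pattern -/
def Out (P : Pat) (f : ℕ → V) (v : V) : Prop := ∀ i < P.m, f i ≠ v

theorem in_or_out (hL : Lev G side) (hw : WF P ts) (hE : Emb G P f t) {v u : V}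
    (h : (quot G (qmap P f)).Adj v u) : In P f v ∨ Out P f v := by
  by_cases h1 : ∃ i, i < P.m ∧ f i = v
  · obtain ⟨i, hi, rfl⟩ := h1
    by_cases hc : P.c i = i
    · exact Or.inl ⟨i, hi, hc, rfl⟩
    · exact absurd h (iso' hL hw hE hi hc u)
  · exact Or.inr fun i hi hv => h1 ⟨i, hi, hv⟩

theorem out_out (hL : Lev G side) (hw : WF P ts) (hE : Emb G P f t) {v u : V} (hv : Out P f v)
    (hu : Out P f u) (h : (quot G (qmap P f)).Adj v u) : G.Adj v u := by
  obtain ⟨w, h1, h2⟩ := (kout' hL hw hE hv u).1 h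
  rw [← q_eq_out hw hE hu h2]
  exact h1

theorem out_in (hL : Lev G side) (hw : WF P ts) (hE : Emb G P f t) {v u : V} (hv : Out P f v)
    (hu : In P f u) (h : (quot G (qmap P f)).Adj v u) :
    ∃ i, P.host i = true ∧ v = t i ∧ f (P.c i) = u := by
  obtain ⟨w, h1, h2⟩ := (kout' hL hw hE hv u).1 h
  obtain ⟨r, hr, hcr, rfl⟩ := hu
  obtain ⟨i, hi, rfl, hci⟩ := q_eq_f hw hE hr h2
  obtain ⟨hh, hv'⟩ := onb' hL hw hE hi h1.symm hv
  exact ⟨i, hh, hv', by rw [hci]⟩

/-- a 4-cycle of the quotient -/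
structure Cy (K : SimpleGraph V) (u a v b : V) : Prop where
  ua : K.Adj u a
  va : K.Adj v a
  ub : K.Adj u b
  vb : K.Adj v b
  uv : u ≠ v
  ab : a ≠ b

theorem Cy.sw1 {K : SimpleGraph V} {u a v b : V} (h : Cy K u a v b) : Cy K v a u b :=
  ⟨h.va, h.ua, h.vb, h.ub, h.uv.symm, h.ab⟩

theorem Cy.sw2 {K : SimpleGraph V} {u a v b : V} (h : Cy K u a v b) : Cy K u b v a :=
  ⟨h.ub, h.vb, h.ua, h.va, h.uv, h.ab.symm⟩

theorem Cy.sw3 {K : SimpleGraph V} {u a v b : V} (h : Cy K u a v b) : Cy K a u b v :=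
  ⟨h.ua.symm, h.ub.symm, h.va.symm, h.vb.symm, h.ab, h.uv⟩

theorem lemA (hL : Lev G side) (hw : WF P ts) (hE : Emb G P f t) {u a v b : V}
    (h : Cy (quot G (qmap P f)) u a v b) (hu : Out P f u) (ha : In P f a) (hb : In P f b) :
    False := by
  obtain ⟨i, hi, hui, hia⟩ := out_in hL hw hE hu ha h.ua
  obtain ⟨j, hj, huj, hjb⟩ := out_in hL hw hE hu hb h.ub
  have : i = j := by
    by_contra hne
    exact hE.dis i j hi hj hne (hui.symm.trans huj)
  subst this
  exact h.ab (hia.symm.trans hjb)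

/-- one representative `a` -/
theorem lemOne (hL : Lev G side) (hw : WF P ts) (hE : Emb G P f t) {u a v b : V}
    (h : Cy (quot G (qmap P f)) u a v b) (hu : Out P f u) (hv : Out P f v) (ha : In P f a)
    (hb : Out P f b) : False := by
  obtain ⟨i, hi, hui, hia⟩ := out_in hL hw hE hu ha h.ua
  obtain ⟨j, hj, hvj, hja⟩ := out_in hL hw hE hv ha h.va
  have hne : i ≠ j := by
    rintro rfl
    exact h.uv (hui.trans hvj.symm)
  have hc : P.c i = P.c j := by
    have h1 := host_lt hi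
    have h2 := host_lt hj
    exact hE.inj _ (lt_of_le_of_lt (hw.cle i h1) h1) _ (lt_of_le_of_lt (hw.cle j h2) h2)
      (hia.trans hja.symm)
  refine hE.ncom i j hi hj hne hc b ⟨?_, ?_⟩
  · rw [← hui]; exact out_out hL hw hE hu hb h.ub
  · rw [← hvj]; exact out_out hL hw hE hv hb h.vb

/-- two adjacent representatives `v`, `a` -/
theorem lemTwo (hL : Lev G side) (hw : WF P ts) (hE : Emb G P f t) {u a v b : V}
    (h : Cy (quot G (qmap P f)) u a v b) (hu : Out P f u) (hv : In P f v) (ha : In P f a)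
    (hb : Out P f b) : False := by
  obtain ⟨i, hi, hui, hia⟩ := out_in hL hw hE hu ha h.ua
  obtain ⟨j, hj, hbj, hjv⟩ := out_in hL hw hE hb hv h.vb.symm
  have hub := out_out hL hw hE hu hb h.ub
  have h1 := host_lt hi
  have h2 := host_lt hj
  have hc1 := lt_of_le_of_lt (hw.cle i h1) h1
  have hc2 := lt_of_le_of_lt (hw.cle j h2) h2
  have hav : (quot G (qmap P f)).Adj (f (P.c i)) (f (P.c j)) := by
    rw [hia, hjv]; exact h.va.symm
  rw [kadj' hL hw hE (mem_reps.2 ⟨hc1, hw.cc i h1⟩)] at hav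
  obtain ⟨b', hb', hgb⟩ := hav
  obtain ⟨k, ⟨hk, hck⟩, l, hl, rfl⟩ := mem_kn.1 hb'
  have hcl : P.cx l = P.c j := by
    apply inj_gx hE (vx_cx hw (vx_nx hl)).1 (Or.inl hc2)
    rw [hgb, gx_lt hc2]
  have hlm : l < P.m := by
    by_contra hge
    rw [cx_ge hge] at hcl
    omega
  rw [cx_lt hlm] at hcl
  have hkl : P.adj k l = true := by
    rcases mem_nx.1 hl with h | ⟨-, h⟩
    · exact h.2
    · omega
  apply hE.nadj i j hi hj
  · unfold Pat.kadj
    rw [List.any_eq_true]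
    rcases adj_es hkl with h | h
    · exact ⟨(k, l), h, by simp [hck, hcl]⟩
    · exact ⟨(l, k), h, by simp [hck, hcl]⟩
  · rw [← hui, ← hbj]; exact hub

/-- all vertices are representatives -/
theorem lemAll (hL : Lev G side) (hw : WF P ts) (hE : Emb G P f t) {u a v b : V}
    (h : Cy (quot G (qmap P f)) u a v b) (hu : In P f u) (hv : In P f v) : False := by
  obtain ⟨r, hr, hcr, rfl⟩ := hu
  obtain ⟨s, hs, hcs, rfl⟩ := hv
  have hrs : r ≠ s := fun e => h.uv (by rw [e])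
  have hrr := mem_reps.2 ⟨hr, hcr⟩
  have hss := mem_reps.2 ⟨hs, hcs⟩
  obtain ⟨x1, hx1, ex1⟩ := (kadj' hL hw hE hrr a).1 h.ua
  obtain ⟨x2, hx2, ex2⟩ := (kadj' hL hw hE hss a).1 h.va
  obtain ⟨y1, hy1, ey1⟩ := (kadj' hL hw hE hrr b).1 h.ub
  obtain ⟨y2, hy2, ey2⟩ := (kadj' hL hw hE hss b).1 h.vb
  have vk : ∀ a x, x ∈ P.kn a → Vx P x := by
    intro a x hx
    obtain ⟨i, -, j, hj, rfl⟩ := mem_kn.1 hx
    exact (vx_cx hw (vx_nx hj)).1
  have hx : x1 = x2 := inj_gx hE (vk _ _ hx1) (vk _ _ hx2) (ex1.trans ex2.symm)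
  have hy : y1 = y2 := inj_gx hE (vk _ _ hy1) (vk _ _ hy2) (ey1.trans ey2.symm)
  subst hx hy
  have hxy : x1 ≠ y1 := by
    rintro rfl
    exact h.ab (ex1.symm.trans ey1)
  have hk := hw.kk r hrr s hss hrs
  have hsub : [x1, y1] ⊆ (P.kn r).filter (fun x => (P.kn s).contains x) := by
    intro z hz
    simp only [List.mem_cons, List.not_mem_nil, or_false] at hz
    rcases hz with rfl | rfl
    · simp [List.mem_filter, hx1, hx2]
    · simp [List.mem_filter, hy1, hy2]
  have hlen := (List.nodup_cons.2 ⟨by simpa using hxy, List.nodup_singleton y1⟩ :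
    [x1, y1].Nodup).subperm hsub
  have := hlen.length_le
  simp only [List.length_cons, List.length_nil] at this
  omega

theorem noCy (hL : Lev G side) (hw : WF P ts) (hE : Emb G P f t) {u a v b : V}
    (h : Cy (quot G (qmap P f)) u a v b) : False := by
  rcases in_or_out hL hw hE h.ua with hu | hu <;> rcases in_or_out hL hw hE h.va with hv | hv
  · exact lemAll hL hw hE h hu hv
  · rcases in_or_out hL hw hE h.ua.symm with ha | ha <;>
      rcases in_or_out hL hw hE h.ub.symm with hb | hb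
    · exact lemAll hL hw hE h.sw3 ha hb
    · exact lemTwo hL hw hE h.sw1 hv hu ha hb
    · exact lemTwo hL hw hE h.sw1.sw2 hv hu hb ha
    · exact lemOne hL hw hE h.sw3 ha hb hu hv
  · rcases in_or_out hL hw hE h.ua.symm with ha | ha <;>
      rcases in_or_out hL hw hE h.ub.symm with hb | hb
    · exact lemAll hL hw hE h.sw3 ha hb
    · exact lemTwo hL hw hE h hu hv ha hb
    · exact lemTwo hL hw hE h.sw2 hu hv hb ha
    · exact lemOne hL hw hE h.sw1.sw3 ha hb hv hu
  · rcases in_or_out hL hw hE h.ua.symm with ha | ha <;>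
      rcases in_or_out hL hw hE h.ub.symm with hb | hb
    · exact lemA hL hw hE h hu ha hb
    · exact lemOne hL hw hE h hu hv ha hb
    · exact lemOne hL hw hE h.sw2 hu hv hb ha
    · exact h.ab (hL.noC4 u v h.uv a b (out_out hL hw hE hu ha h.ua)
        (out_out hL hw hE hv ha h.va) (out_out hL hw hE hu hb h.ub)
        (out_out hL hw hE hv hb h.vb))

end graph

end PB

open PB

theorem pbase : PBaseStmt := by
  intro V _ _ G side P ts f t hL hwf hE
  have hw := wf_decode hwf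
  exact {
    nbr := fun i hi v => nbr_iff hL hw hE hi v
    nxv := fun i _ j hj => vx_nx hj
    nxnd := fun i hi => ⟨nx_nodup i, nx_length hw hi⟩
    inj := fun i j hi hj h => inj_gx hE hi hj h
    sd := fun i j hi hj => sd' hL hw hE hi hj
    cx := fun i hi => vx_cx hw hi
    qg := fun i hi => q_gx hw hE hi
    qo := fun v hv => q_out hv
    qs := fun v => side_q hL hw hE v
    onb := fun i hi v h hv => onb' hL hw hE hi h hv
    kadj := fun a ha v => kadj' hL hw hE ha v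
    kout := fun v hv u => kout' hL hw hE hv u
    iso := fun i hi hc u => iso' hL hw hE hi hc u
    noC4 := by
      intro u v huv a b h1 h2 h3 h4
      by_contra hab
      exact noCy hL hw hE ⟨h1, h2, h3, h4, huv, hab⟩ }

end N3
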