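import Pool.Agent.Lib_n3.PerfDefs
import Pool.Agent.Lib_n3.Core

/-!
# Module PKill of the project MP_07e12a_co: the kill certificates
-/

open scoped Matrix Topology
open Finset

namespace N3

namespace PK

theorem zpair_iff {P : Pat} {ts : List Bool} {x y : ℕ} : P.zpair ts x y = true ↔
    x < P.m ∧ (y < P.m ∨ P.host (y - P.m) = true) ∧ P.ty ts x ≠ P.ty ts y ∧ y ∉ P.nx x ∧
      P.cx y ∈ P.kn (P.c x) := by
  unfold Pat.zpair
  simp only [Bool.and_eq_true, Bool.or_eq_true, decide_eq_true_eq, bne_iff_ne, ne_eq,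
    Bool.not_eq_true', List.contains_eq_mem, decide_eq_false_iff_not]
  tauto

theorem vx_of {P : Pat} {y : ℕ} (h : y < P.m ∨ P.host (y - P.m) = true) : Vx P y := by
  by_cases hy : y < P.m
  · exact Or.inl hy
  · exact Or.inr ⟨y - P.m, h.resolve_left hy, by omega⟩

theorem host_lt {P : Pat} {h : ℕ} (hh : P.host h = true) : h < P.m := by
  unfold Pat.host at hh
  simp only [Bool.and_eq_true, decide_eq_true_eq] at hh
  exact hh.1

theorem of_vx {P : Pat} {y : ℕ} (h : Vx P y) : y < P.m ∨ P.host (y - P.m) = true := by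
  rcases h with h | ⟨k, hk, rfl⟩
  · exact Or.inl h
  · exact Or.inr (by rw [Nat.add_sub_cancel_left]; exact hk)

theorem vx_lt {P : Pat} {y : ℕ} (h : Vx P y) : y < 2 * P.m := by
  rcases h with h | ⟨k, hk, rfl⟩
  · omega
  · have := host_lt hk
    omega

theorem c_le {P : Pat} {ts : List Bool} (hwf : P.wf ts = true) {i : ℕ} (hi : i < P.m) :
    P.c i < P.m ∧ P.c (P.c i) = P.c i := by
  unfold Pat.wf at hwf
  simp only [Bool.and_eq_true, List.all_eq_true, List.mem_range, decide_eq_true_eq,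
    beq_iff_eq] at hwf
  have h := hwf.1.1.1.1.2 i hi
  have h1 := h.1.1.2
  have h2 := h.1.2
  exact ⟨lt_of_le_of_lt h1 hi, h2⟩

theorem key_cases (i j : ℕ) : key i j = (i, j) ∨ key i j = (j, i) := by
  unfold key
  split_ifs
  · exact Or.inl rfl
  · exact Or.inr rfl

variable {V : Type} [Fintype V] [DecidableEq V] {G : SimpleGraph V} {side : V → Bool} {P : Pat}
  {ts : List Bool} {f t : ℕ → V} {ρ : V → E}

theorem gx_lt {i : ℕ} (hi : i < P.m) : gx P f t i = f i := if_pos hi

theorem cx_lt {i : ℕ} (hi : i < P.m) : P.cx i = P.c i := if_pos hi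

theorem w_key {ω : V → V → ℝ} (hs : ∀ u v, ω u v = ω v u) (i j : ℕ) :
    ω (gx P f t (key i j).1) (gx P f t (key i j).2) = ω (gx P f t i) (gx P f t j) := by
  rcases key_cases i j with h | h
  · rw [h]
  · rw [h]
    exact hs _ _

/-- the image of a vertex of the pattern is in the pattern -/
theorem q_in (hwf : P.wf ts = true) (hB : PBase G side P ts f t) {i : ℕ} (hi : i < P.m) :
    qmap P f (f i) = f (P.c i) := by
  have h := hB.qg i (Or.inl hi)
  rwa [gx_lt hi, cx_lt hi, gx_lt (c_le hwf hi).1] at h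

/-- a vertex with image outside is outside -/
theorem q_out (hwf : P.wf ts = true) (hB : PBase G side P ts f t) {u v : V}
    (hu : ∀ i < P.m, f i ≠ u) (h : qmap P f v = u) : v = u := by
  by_cases hv : ∀ i < P.m, f i ≠ v
  · rwa [hB.qo v hv] at h
  · push Not at hv
    obtain ⟨i, hi, rfl⟩ := hv
    rw [q_in hwf hB hi] at h
    exact absurd h (hu _ (c_le hwf hi).1)

/-- no load -/
theorem free0 (hPr : PPropStmt) (hRe : PRelStmt) (hL : Lev G side) (hwf : P.wf ts = true)
    (hB : PBase G side P ts f t) (hR : Rlz (quot G (qmap P f)) ρ) (hS : Sep side ρ)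
    (hF : StressFree (quot G (qmap P f)) ρ) {ce : KillCert} (hk : P.killOK ts ce = true) :
    StressFree G (ρ ∘ qmap P f) := by
  intro ω hω
  obtain ⟨h1, h2⟩ := (hRe V G side P ts f t ρ hL hwf hB hR hS hF).2 ω hω
  have hval := (hPr P _ _ _ h1 h2 ce.k0 ⟨[], []⟩ ⟨by simp, by simp⟩).1
  unfold Pat.killOK at hk
  simp only [Bool.and_eq_true, List.all_eq_true, List.mem_range, List.contains_eq_mem,
    decide_eq_true_eq] at hk
  have hin : ∀ i < P.m, ∀ v, ω (f i) v = 0 := by
    intro i hi v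
    by_cases hv : G.Adj (f i) v
    · obtain ⟨j, hj, rfl⟩ := (hB.nbr i hi v).1 hv
      have h := hval _ (hk.1 i hi j hj)
      simp only at h
      rw [w_key hω.1, gx_lt hi] at h
      exact h
    · exact hω.2.1 _ _ hv
  intro u v
  by_cases hu : ∀ i < P.m, f i ≠ u
  · by_cases hv : ∀ i < P.m, f i ≠ v
    · refine kstress_single' hL.bip hB.qs hF hω ?_
      intro u' v' _ h3 h4
      rw [hB.qo u hu] at h3
      rw [hB.qo v hv] at h4
      exact ⟨q_out hwf hB hu h3, q_out hwf hB hv h4⟩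
    · push Not at hv
      obtain ⟨i, hi, rfl⟩ := hv
      rw [hω.1]
      exact hin i hi u
  · push Not at hu
    obtain ⟨i, hi, rfl⟩ := hu
    exact hin i hi v

/-- a killed pair -/
theorem free1 (hPr : PPropStmt) (hRe : PRelStmt) (hL : Lev G side) (hwf : P.wf ts = true)
    (hB : PBase G side P ts f t) (hR : Rlz (quot G (qmap P f)) ρ) (hS : Sep side ρ)
    (hF : StressFree (quot G (qmap P f)) ρ) {ce : KillCert} (hk : P.killOK ts ce = true)
    {x y : ℕ} (hxy : P.killed ts ce x y = true) :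
    side (gx P f t x) ≠ side (gx P f t y) ∧ ¬ G.Adj (gx P f t x) (gx P f t y) ∧
      StressFree (addE G (gx P f t x) (gx P f t y)) (ρ ∘ qmap P f) := by
  unfold Pat.killed at hxy
  rw [Bool.and_eq_true, zpair_iff] at hxy
  obtain ⟨⟨hx, hy, hty, hn, hkn⟩, hc⟩ := hxy
  have hvx : Vx P x := Or.inl hx
  have hvy : Vx P y := vx_of hy
  refine ⟨fun h => hty ((hB.sd x y hvx hvy).1 h), ?_, ?_⟩
  · intro h
    rw [gx_lt hx] at h
    obtain ⟨j, hj, he⟩ := (hB.nbr x hx _).1 h
    exact hn (hB.inj j y (hB.nxv x hx j hj) hvy he ▸ hj)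
  · intro ω hω
    obtain ⟨h1, h2⟩ := (hRe V G side P ts f t ρ hL hwf hB hR hS hF).1 x y hx hvy hty hn hkn ω hω
    rw [List.any_eq_true] at hc
    obtain ⟨c, _, hc⟩ := hc
    rw [Bool.and_eq_true] at hc
    have h0 : ω (gx P f t x) (gx P f t y) = 0 := by
      by_contra hne
      have hv : (⟨[], [key x y]⟩ : PSt).Valid
          (fun e => ω (gx P f t e.1) (gx P f t e.2)) := by
        refine ⟨by simp, ?_⟩
        intro e he
        rw [List.mem_singleton] at he
        rw [he]
        simp only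
        rw [w_key hω.1]
        exact hne
      have hval := hPr P _ _ _ h1 h2 c.2 _ hv
      have hcc := hc.2
      unfold Pat.contra at hcc
      rw [List.any_eq_true] at hcc
      obtain ⟨e, he1, he2⟩ := hcc
      rw [List.contains_eq_mem, decide_eq_true_eq] at he2
      exact hval.2 e he2 (hval.1 e he1)
    exact free0 hPr hRe hL hwf hB hR hS hF hk ω (hω.of_addE h0)

theorem free1' (hPr : PPropStmt) (hRe : PRelStmt) (hL : Lev G side) (hwf : P.wf ts = true)
    (hB : PBase G side P ts f t) (hR : Rlz (quot G (qmap P f)) ρ) (hS : Sep side ρ)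
    (hF : StressFree (quot G (qmap P f)) ρ) {ce : KillCert} (hk : P.killOK ts ce = true)
    {x y : ℕ} (hxy : P.killed ts ce x y = true ∨ P.killed ts ce y x = true) :
    side (gx P f t x) ≠ side (gx P f t y) ∧ ¬ G.Adj (gx P f t x) (gx P f t y) ∧
      StressFree (addE G (gx P f t x) (gx P f t y)) (ρ ∘ qmap P f) := by
  rcases hxy with h | h
  · exact free1 hPr hRe hL hwf hB hR hS hF hk h
  · obtain ⟨h1, h2, h3⟩ := free1 hPr hRe hL hwf hB hR hS hF hk h
    refine ⟨h1.symm, fun h' => h2 h'.symm, ?_⟩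
    rw [addE_comm]
    exact h3

theorem adj_of (hB : PBase G side P ts f t) {i j : ℕ} (hi : i < P.m) (hj : j ∈ P.nx i) :
    G.Adj (gx P f t i) (gx P f t j) := by
  rw [gx_lt hi]
  exact (hB.nbr i hi _).2 ⟨j, hj, rfl⟩

/-- a pair at distance 3 -/
theorem d3_of (hPr : PPropStmt) (hRe : PRelStmt) (hL : Lev G side) (hwf : P.wf ts = true)
    (hB : PBase G side P ts f t) (hR : Rlz (quot G (qmap P f)) ρ) (hS : Sep side ρ)
    (hF : StressFree (quot G (qmap P f)) ρ) {ce : KillCert} (hk : P.killOK ts ce = true)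
    {x y : ℕ} (hxy : P.dist3 ts ce x y = true) :
    D3 G side (ρ ∘ qmap P f) (gx P f t x) (gx P f t y) := by
  unfold Pat.dist3 at hxy
  rw [List.any_eq_true] at hxy
  obtain ⟨⟨⟨cx, cy⟩, s, u, z, z'⟩, _, hc⟩ := hxy
  simp only [Bool.and_eq_true, Bool.or_eq_true, beq_iff_eq, decide_eq_true_eq, bne_iff_ne, ne_eq,
    List.contains_eq_mem, and_assoc] at hc
  obtain ⟨hcx, hcy, hx, hs, hu, hy, h1, h2, h3, h4, h5, h6, h7, h8, h9⟩ := hc
  obtain ⟨a1, a2, a3⟩ := free1' hPr hRe hL hwf hB hR hS hF hk h8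
  obtain ⟨b1, b2, b3⟩ := free1' hPr hRe hL hwf hB hR hS hF hk h9
  exact ⟨gx P f t s, gx P f t u, gx P f t z, gx P f t z', adj_of hB hx h1, adj_of hB hs h2,
    adj_of hB hu h3, fun h => h4 (hB.inj _ _ (Or.inl hx) (Or.inl hu) h).symm,
    fun h => h5 (hB.inj _ _ (Or.inl hs) (Or.inl hy) h), adj_of hB hu h6, adj_of hB hy h7,
    a1, a2, a3, b1, b2, b3⟩

/-- pairs of indices -/
theorem pair_idx (hPr : PPropStmt) (hRe : PRelStmt) (hL : Lev G side) (hwf : P.wf ts = true)
    (hB : PBase G side P ts f t) (hR : Rlz (quot G (qmap P f)) ρ) (hS : Sep side ρ)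
    (hF : StressFree (quot G (qmap P f)) ρ) {ce : KillCert} (hk : P.killOK ts ce = true)
    {i j : ℕ} (hi : i < P.m) (hj : Vx P j) (hij : i ≤ j)
    (hs : side (gx P f t i) ≠ side (gx P f t j)) (hn : ¬ G.Adj (gx P f t i) (gx P f t j))
    (hK : (quot G (qmap P f)).Adj (qmap P f (gx P f t i)) (qmap P f (gx P f t j))) :
    StressFree (addE G (gx P f t i) (gx P f t j)) (ρ ∘ qmap P f) ∨
      D3 G side (ρ ∘ qmap P f) (gx P f t i) (gx P f t j) := by
  have hvi : Vx P i := Or.inl hi
  have hz : P.zpair ts i j = true := by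
    rw [zpair_iff]
    refine ⟨hi, of_vx hj, fun h => hs ((hB.sd i j hvi hj).2 h), fun h => hn (adj_of hB hi h), ?_⟩
    have hci := c_le hwf hi
    rw [hB.qg i hvi, hB.qg j hj, cx_lt hi, gx_lt hci.1] at hK
    have hrep : P.c i ∈ P.reps := by
      unfold Pat.reps
      rw [List.mem_filter, List.mem_range]
      exact ⟨hci.1, by simp [hci.2]⟩
    obtain ⟨b, hb, he⟩ := (hB.kadj _ hrep _).1 hK
    have hvb : Vx P b := by
      unfold Pat.kn at hb
      rw [List.mem_dedup, List.mem_map] at hb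
      obtain ⟨j', hj', rfl⟩ := hb
      rw [List.mem_flatMap] at hj'
      obtain ⟨i', hi', hj'⟩ := hj'
      unfold Pat.mem at hi'
      rw [List.mem_filter, List.mem_range] at hi'
      exact (hB.cx j' (hB.nxv i' hi'.1 j' hj')).1
    rwa [hB.inj b (P.cx j) hvb (hB.cx j hj).1 he] at hb
  have hk' := hk
  unfold Pat.killOK at hk'
  simp only [Bool.and_eq_true, List.all_eq_true, List.mem_range, Bool.or_eq_true,
    decide_eq_true_eq] at hk'
  rcases hk'.2 i hi j (vx_lt hj) with ((h | h) | h) | h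
  · rw [hz] at h
    exact absurd h (by decide)
  · omega
  · exact Or.inl (free1 hPr hRe hL hwf hB hR hS hF hk h).2.2
  · exact Or.inr (d3_of hPr hRe hL hwf hB hR hS hF hk h)

/-- a vertex of the pattern and another vertex, indices -/
theorem pair_in (hPr : PPropStmt) (hRe : PRelStmt) (hL : Lev G side) (hwf : P.wf ts = true)
    (hB : PBase G side P ts f t) (hR : Rlz (quot G (qmap P f)) ρ) (hS : Sep side ρ)
    (hF : StressFree (quot G (qmap P f)) ρ) {ce : KillCert} (hk : P.killOK ts ce = true)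
    {i : ℕ} (hi : i < P.m) {y : V} (hs : side (f i) ≠ side y) (hn : ¬ G.Adj (f i) y)
    (hK : (quot G (qmap P f)).Adj (qmap P f (f i)) (qmap P f y)) :
    StressFree (addE G (f i) y) (ρ ∘ qmap P f) ∨
      D3 G side (ρ ∘ qmap P f) (f i) y ∨ D3 G side (ρ ∘ qmap P f) y (f i) := by
  by_cases hy : ∀ j < P.m, f j ≠ y
  · have hci := c_le hwf hi
    have hK' := hK
    rw [q_in hwf hB hi, hB.qo y hy] at hK'
    have hrep : P.c i ∈ P.reps := by
      unfold Pat.reps
      rw [List.mem_filter, List.mem_range]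
      exact ⟨hci.1, by simp [hci.2]⟩
    obtain ⟨b, hb, rfl⟩ := (hB.kadj _ hrep _).1 hK'
    have hvb : Vx P b := by
      unfold Pat.kn at hb
      rw [List.mem_dedup, List.mem_map] at hb
      obtain ⟨j', hj', rfl⟩ := hb
      rw [List.mem_flatMap] at hj'
      obtain ⟨i', hi', hj'⟩ := hj'
      unfold Pat.mem at hi'
      rw [List.mem_filter, List.mem_range] at hi'
      exact (hB.cx j' (hB.nxv i' hi'.1 j' hj')).1
    have hbm : ¬ b < P.m := fun h => hy b h (gx_lt h).symm
    have h := pair_idx hPr hRe hL hwf hB hR hS hF hk hi hvb (by omega)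
      (by rw [gx_lt hi]; exact hs) (by rw [gx_lt hi]; exact hn) (by rw [gx_lt hi]; exact hK)
    rw [gx_lt hi] at h
    rcases h with h | h
    · exact Or.inl h
    · exact Or.inr (Or.inl h)
  · push Not at hy
    obtain ⟨j, hj, rfl⟩ := hy
    rcases le_total i j with hij | hij
    · have h := pair_idx hPr hRe hL hwf hB hR hS hF hk hi (Or.inl hj) hij
        (by rw [gx_lt hi, gx_lt hj]; exact hs) (by rw [gx_lt hi, gx_lt hj]; exact hn)
        (by rw [gx_lt hi, gx_lt hj]; exact hK)
      rw [gx_lt hi, gx_lt hj] at h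
      rcases h with h | h
      · exact Or.inl h
      · exact Or.inr (Or.inl h)
    · have h := pair_idx hPr hRe hL hwf hB hR hS hF hk hj (Or.inl hi) hij
        (by rw [gx_lt hi, gx_lt hj]; exact hs.symm)
        (by rw [gx_lt hi, gx_lt hj]; exact fun h => hn h.symm)
        (by rw [gx_lt hi, gx_lt hj]; exact hK.symm)
      rw [gx_lt hi, gx_lt hj] at h
      rcases h with h | h
      · rw [addE_comm] at h
        exact Or.inl h
      · exact Or.inr (Or.inr h)

end PK

theorem pKill (hPr : PPropStmt) (hRe : PRelStmt) : PKillStmt := by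
  intro V _ _ G side P ts ce f t ρ hL hwf hB hR hS hF hk
  refine ⟨PK.free0 hPr hRe hL hwf hB hR hS hF hk, ?_⟩
  intro x y hs hn hK
  by_cases hx : ∀ i < P.m, f i ≠ x
  · by_cases hy : ∀ i < P.m, f i ≠ y
    · exfalso
      rw [hB.qo x hx, hB.qo y hy, hB.kout x hx] at hK
      obtain ⟨w, hw, hq⟩ := hK
      rw [PK.q_out hwf hB hy hq] at hw
      exact hn hw
    · push Not at hy
      obtain ⟨i, hi, rfl⟩ := hy
      have h := PK.pair_in hPr hRe hL hwf hB hR hS hF hk hi hs.symm (fun h => hn h.symm) hK.symm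
      rw [addE_comm] at h
      tauto
  · push Not at hx
    obtain ⟨i, hi, rfl⟩ := hx
    exact PK.pair_in hPr hRe hL hwf hB hR hS hF hk hi hs hn hK

namespace PK

variable {V : Type} [Fintype V] [DecidableEq V] {G : SimpleGraph V} {side : V → Bool} {P : Pat}
  {ts : List Bool} {f t : ℕ → V} {ρ : V → E}

/-- pairs of indices, no distance 3 pairs -/
theorem pair_idx0 (hPr : PPropStmt) (hRe : PRelStmt) (hL : Lev G side) (hwf : P.wf ts = true)
    (hB : PBase G side P ts f t) (hR : Rlz (quot G (qmap P f)) ρ) (hS : Sep side ρ)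
    (hF : StressFree (quot G (qmap P f)) ρ) {ce : KillCert} (hk : P.killOK ts ce = true)
    (hd : ce.d3 = []) {i j : ℕ} (hi : i < P.m) (hj : Vx P j) (hij : i ≤ j)
    (hs : side (gx P f t i) ≠ side (gx P f t j)) (hn : ¬ G.Adj (gx P f t i) (gx P f t j))
    (hK : (quot G (qmap P f)).Adj (qmap P f (gx P f t i)) (qmap P f (gx P f t j))) :
    StressFree (addE G (gx P f t i) (gx P f t j)) (ρ ∘ qmap P f) := by
  have hvi : Vx P i := Or.inl hi
  have hz : P.zpair ts i j = true := by
    rw [zpair_iff]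
    refine ⟨hi, of_vx hj, fun h => hs ((hB.sd i j hvi hj).2 h), fun h => hn (adj_of hB hi h), ?_⟩
    have hci := c_le hwf hi
    rw [hB.qg i hvi, hB.qg j hj, cx_lt hi, gx_lt hci.1] at hK
    have hrep : P.c i ∈ P.reps := by
      unfold Pat.reps
      rw [List.mem_filter, List.mem_range]
      exact ⟨hci.1, by simp [hci.2]⟩
    obtain ⟨b, hb, he⟩ := (hB.kadj _ hrep _).1 hK
    have hvb : Vx P b := by
      unfold Pat.kn at hb
      rw [List.mem_dedup, List.mem_map] at hb
      obtain ⟨j', hj', rfl⟩ := hb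
      rw [List.mem_flatMap] at hj'
      obtain ⟨i', hi', hj'⟩ := hj'
      unfold Pat.mem at hi'
      rw [List.mem_filter, List.mem_range] at hi'
      exact (hB.cx j' (hB.nxv i' hi'.1 j' hj')).1
    rwa [hB.inj b (P.cx j) hvb (hB.cx j hj).1 he] at hb
  have hk' := hk
  unfold Pat.killOK at hk'
  simp only [Bool.and_eq_true, List.all_eq_true, List.mem_range, Bool.or_eq_true,
    decide_eq_true_eq] at hk'
  rcases hk'.2 i hi j (vx_lt hj) with ((h | h) | h) | h
  · rw [hz] at h
    exact absurd h (by decide)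
  · omega
  · exact (free1 hPr hRe hL hwf hB hR hS hF hk h).2.2
  · unfold Pat.dist3 at h
    rw [hd] at h
    simp at h

/-- a vertex of the pattern and another vertex, no distance 3 pairs -/
theorem pair_in0 (hPr : PPropStmt) (hRe : PRelStmt) (hL : Lev G side) (hwf : P.wf ts = true)
    (hB : PBase G side P ts f t) (hR : Rlz (quot G (qmap P f)) ρ) (hS : Sep side ρ)
    (hF : StressFree (quot G (qmap P f)) ρ) {ce : KillCert} (hk : P.killOK ts ce = true)
    (hd : ce.d3 = []) {i : ℕ} (hi : i < P.m) {y : V} (hs : side (f i) ≠ side y)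
    (hn : ¬ G.Adj (f i) y)
    (hK : (quot G (qmap P f)).Adj (qmap P f (f i)) (qmap P f y)) :
    StressFree (addE G (f i) y) (ρ ∘ qmap P f) := by
  by_cases hy : ∀ j < P.m, f j ≠ y
  · have hci := c_le hwf hi
    have hK' := hK
    rw [q_in hwf hB hi, hB.qo y hy] at hK'
    have hrep : P.c i ∈ P.reps := by
      unfold Pat.reps
      rw [List.mem_filter, List.mem_range]
      exact ⟨hci.1, by simp [hci.2]⟩
    obtain ⟨b, hb, rfl⟩ := (hB.kadj _ hrep _).1 hK'
    have hvb : Vx P b := by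
      unfold Pat.kn at hb
      rw [List.mem_dedup, List.mem_map] at hb
      obtain ⟨j', hj', rfl⟩ := hb
      rw [List.mem_flatMap] at hj'
      obtain ⟨i', hi', hj'⟩ := hj'
      unfold Pat.mem at hi'
      rw [List.mem_filter, List.mem_range] at hi'
      exact (hB.cx j' (hB.nxv i' hi'.1 j' hj')).1
    have hbm : ¬ b < P.m := fun h => hy b h (gx_lt h).symm
    have h := pair_idx0 hPr hRe hL hwf hB hR hS hF hk hd hi hvb (by omega)
      (by rw [gx_lt hi]; exact hs) (by rw [gx_lt hi]; exact hn) (by rw [gx_lt hi]; exact hK)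
    rwa [gx_lt hi] at h
  · push Not at hy
    obtain ⟨j, hj, rfl⟩ := hy
    rcases le_total i j with hij | hij
    · have h := pair_idx0 hPr hRe hL hwf hB hR hS hF hk hd hi (Or.inl hj) hij
        (by rw [gx_lt hi, gx_lt hj]; exact hs) (by rw [gx_lt hi, gx_lt hj]; exact hn)
        (by rw [gx_lt hi, gx_lt hj]; exact hK)
      rwa [gx_lt hi, gx_lt hj] at h
    · have h := pair_idx0 hPr hRe hL hwf hB hR hS hF hk hd hj (Or.inl hi) hij
        (by rw [gx_lt hi, gx_lt hj]; exact hs.symm)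
        (by rw [gx_lt hi, gx_lt hj]; exact fun h => hn h.symm)
        (by rw [gx_lt hi, gx_lt hj]; exact hK.symm)
      rw [gx_lt hi, gx_lt hj, addE_comm] at h
      exact h

end PK

/-- variant of `pKill` for certificates without distance 3 pairs -/
theorem pKill0 (hPr : PPropStmt) (hRe : PRelStmt) : ∀ (V : Type) [Fintype V] [DecidableEq V]
    (G : SimpleGraph V) (side : V → Bool) (P : Pat) (ts : List Bool) (ce : KillCert)
    (f t : ℕ → V) (ρ : V → E),
    Lev G side → P.wf ts = true → PBase G side P ts f t →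
    Rlz (quot G (qmap P f)) ρ → Sep side ρ → StressFree (quot G (qmap P f)) ρ →
    P.killOK ts ce = true → ce.d3 = [] →
      StressFree G (ρ ∘ qmap P f) ∧
      ∀ x y, side x ≠ side y → ¬ G.Adj x y → (quot G (qmap P f)).Adj (qmap P f x) (qmap P f y) →
        StressFree (addE G x y) (ρ ∘ qmap P f) := by
  intro V _ _ G side P ts ce f t ρ hL hwf hB hR hS hF hk hd
  refine ⟨PK.free0 hPr hRe hL hwf hB hR hS hF hk, ?_⟩
  intro x y hs hn hK
  by_cases hx : ∀ i < P.m, f i ≠ x
  · by_cases hy : ∀ i < P.m, f i ≠ y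
    · exfalso
      rw [hB.qo x hx, hB.qo y hy, hB.kout x hx] at hK
      obtain ⟨w, hw, hq⟩ := hK
      rw [PK.q_out hwf hB hy hq] at hw
      exact hn hw
    · push Not at hy
      obtain ⟨i, hi, rfl⟩ := hy
      have h := PK.pair_in0 hPr hRe hL hwf hB hR hS hF hk hd hi hs.symm (fun h => hn h.symm)
        hK.symm
      rw [addE_comm] at h
      exact h
  · push Not at hx
    obtain ⟨i, hi, rfl⟩ := hx
    exact PK.pair_in0 hPr hRe hL hwf hB hR hS hF hk hd hi hs hn hK

end N3
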