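import Pool.Agent.Lib_n3.PerfDefs

/-!
# Correctness of the propagation (MP_07e12a_co, module PProp)
-/

namespace N3

theorem PProp_sum_filter (w : ℕ × ℕ → ℝ) (s : PSt) (hs : s.Valid w) (U : List (ℕ × ℕ)) :
    ((U.filter (fun e => !(s.Z.contains e))).map w).sum = (U.map w).sum := by
  induction U with
  | nil => simp
  | cons e U ih =>
    by_cases h : s.Z.contains e = true
    · rw [List.filter_cons_of_neg (by simp only [h, Bool.not_true]; decide), ih, List.map_cons,
        List.sum_cons, hs.1 e (by simpa using h), zero_add]
    · rw [List.filter_cons_of_pos (by simpa using h), List.map_cons, List.sum_cons, ih,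
        List.map_cons, List.sum_cons]

theorem PProp_zrule (w : ℕ × ℕ → ℝ) (s : PSt) (hs : s.Valid w) (U : List (ℕ × ℕ))
    (hU : (U.map w).sum = 0) : (Pat.zrule s U).Valid w := by
  match U, hU with
  | [], _ => exact hs
  | [e], hU =>
    simp only [List.map_cons, List.map_nil, List.sum_cons, List.sum_nil, add_zero] at hU
    refine ⟨?_, hs.2⟩
    intro e' he'
    rcases List.mem_cons.1 he' with rfl | he'
    · exact hU
    · exact hs.1 e' he'
  | [e, e'], hU =>
    simp only [List.map_cons, List.map_nil, List.sum_cons, List.sum_nil, add_zero] at hU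
    unfold Pat.zrule
    dsimp only
    split_ifs with h1 h2
    · have h3 : w e ≠ 0 := hs.2 e (by simpa using h1)
      refine ⟨hs.1, ?_⟩
      intro e'' he''
      rcases List.mem_cons.1 he'' with rfl | he''
      · intro h4; rw [h4, add_zero] at hU; exact h3 hU
      · exact hs.2 e'' he''
    · have h3 : w e' ≠ 0 := hs.2 e' (by simpa using h2)
      refine ⟨hs.1, ?_⟩
      intro e'' he''
      rcases List.mem_cons.1 he'' with rfl | he''
      · intro h4; rw [h4, zero_add] at hU; exact h3 hU
      · exact hs.2 e'' he''
    · exact hs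
  | _ :: _ :: _ :: _, _ => exact hs

theorem PProp_nrule (w : ℕ × ℕ → ℝ) (s : PSt) (hs : s.Valid w) (U : List (ℕ × ℕ))
    (hU : (U.map w).sum ≠ 0) : (Pat.nrule s U).Valid w := by
  match U, hU with
  | [], _ => exact hs
  | [e], hU =>
    simp only [List.map_cons, List.map_nil, List.sum_cons, List.sum_nil, add_zero] at hU
    refine ⟨hs.1, ?_⟩
    intro e' he'
    rcases List.mem_cons.1 he' with rfl | he'
    · exact hU
    · exact hs.2 e' he'
  | _ :: _ :: _, _ => exact hs

theorem PProp_foldl_zrule (w : ℕ × ℕ → ℝ) (L : List (List (ℕ × ℕ)))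
    (hL : ∀ U ∈ L, (U.map w).sum = 0) : ∀ s : PSt, s.Valid w → (L.foldl Pat.zrule s).Valid w := by
  induction L with
  | nil => intro s hs; exact hs
  | cons U L ih =>
    intro s hs
    rw [List.foldl_cons]
    exact ih (fun U' hU' => hL U' (List.mem_cons_of_mem _ hU')) _
      (PProp_zrule w s hs U (hL U List.mem_cons_self))

theorem PProp_foldl_nrule (w : ℕ × ℕ → ℝ) (L : List (List (ℕ × ℕ)))
    (hL : ∀ U ∈ L, (U.map w).sum ≠ 0) : ∀ s : PSt, s.Valid w → (L.foldl Pat.nrule s).Valid w := by
  induction L with
  | nil => intro s hs; exact hs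
  | cons U L ih =>
    intro s hs
    rw [List.foldl_cons]
    exact ih (fun U' hU' => hL U' (List.mem_cons_of_mem _ hU')) _
      (PProp_nrule w s hs U (hL U List.mem_cons_self))

/-- a list with at most two elements -/
theorem PProp_two (L : List ℕ) (h : L.length ≤ 2) : ∃ b0 b1, ∀ b ∈ L, b = b0 ∨ b = b1 := by
  match L, h with
  | [], _ => exact ⟨0, 0, by simp⟩
  | [b0], _ => exact ⟨b0, b0, by simp⟩
  | [b0, b1], _ => exact ⟨b0, b1, by simp⟩
  | _ :: _ :: _ :: _, h => simp at h

/-- a list with three elements, one removed -/
theorem PProp_three (L : List ℕ) (h : L.length = 3) (c : ℕ) (hc : c ∈ L) :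
    ∃ b0 b1, ∀ b ∈ L, b = c ∨ b = b0 ∨ b = b1 := by
  match L, h, hc with
  | [c0, c1, c2], _, hc =>
    simp only [List.mem_cons, List.not_mem_nil, or_false] at hc
    rcases hc with rfl | rfl | rfl
    · exact ⟨c1, c2, by simp⟩
    · exact ⟨c0, c2, by simp⟩
    · exact ⟨c0, c1, by simp⟩

theorem PProp_sum_flatMap (w : ℕ × ℕ → ℝ) (g : ℕ → List (ℕ × ℕ)) (L : List ℕ) :
    ((L.flatMap g).map w).sum = (L.map (fun i => ((g i).map w).sum)).sum := by
  induction L with
  | nil => simp
  | cons a L ih =>
    rw [List.flatMap_cons, List.map_append, List.sum_append, ih, List.map_cons, List.sum_cons]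

theorem PProp_step (P : Pat) (x y : ℕ) (w : ℕ × ℕ → ℝ)
    (h1 : ∀ i < P.m, PlaneRel P x y w i) (h2 : ∀ a b, FibRel P x y w a b)
    (s : PSt) (hs : s.Valid w) (st : PStep) : (P.pstep x y s st).Valid w := by
  cases st with
  | f a b =>
    refine PProp_zrule w s hs _ ?_
    rw [PProp_sum_filter w s hs]
    have h3 := h2 a b
    unfold FibRel Wt at h3
    rw [PProp_sum_flatMap, h3]
  | v i =>
    unfold Pat.pstep
    dsimp only
    by_cases hi : i < P.m
    · rw [if_pos hi]
      set g : ℕ → List (ℕ × ℕ) := fun b => (P.atoms x y i b).filter (fun e => !(s.Z.contains e))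
        with hg
      have hgW : ∀ b, ((g b).map w).sum = Wt P x y w i b := by
        intro b
        rw [hg]
        exact PProp_sum_filter w s hs _
      set cl := (P.cls x y i).filter (fun b => !(g b).isEmpty) with hcl
      have hnz : ((P.cls x y i).map g).filter (fun U => !U.isEmpty) = cl.map g := by
        rw [List.filter_map]
        rfl
      rw [hnz]
      have hout : ∀ b ∈ P.cls x y i, b ∉ cl → Wt P x y w i b = 0 := by
        intro b hb hb'
        rw [← hgW b]
        have : g b = [] := by
          by_contra hne
          apply hb'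
          rw [hcl, List.mem_filter]
          refine ⟨hb, ?_⟩
          simpa using hne
        rw [this]
        simp
      have hlen : (cl.map g).length = cl.length := List.length_map _
      rw [hlen]
      split_ifs with h3 h4
      · obtain ⟨b0, b1, hb⟩ := PProp_two cl h3
        have hall := h1 i hi b0 b1 (fun b hb' h5 h6 => hout b hb' (fun h7 => by
          rcases hb b h7 with h8 | h8
          · exact h5 h8
          · exact h6 h8))
        refine PProp_foldl_zrule w _ ?_ s hs
        intro U hU
        obtain ⟨b, hb', rfl⟩ := List.mem_map.1 hU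
        rw [hgW]
        exact hall b (List.mem_filter.1 hb').1
      · rw [Bool.and_eq_true, beq_iff_eq, List.any_eq_true] at h4
        obtain ⟨h5, U, hU, h6⟩ := h4
        refine PProp_foldl_nrule w _ ?_ s hs
        intro U' hU' h7
        obtain ⟨b', hb', rfl⟩ := List.mem_map.1 hU'
        obtain ⟨c, hc, rfl⟩ := List.mem_map.1 hU
        rw [hgW] at h7
        obtain ⟨b0, b1, hb⟩ := PProp_three cl h5 b' hb'
        have hall := h1 i hi b0 b1 (fun b hb2 h8 h9 => by
          by_cases h10 : b ∈ cl
          · rcases hb b h10 with h11 | h11 | h11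
            · rw [h11]; exact h7
            · exact absurd h11 h8
            · exact absurd h11 h9
          · exact hout b hb2 h10)
        have h8 := hall c (List.mem_filter.1 hc).1
        rw [← hgW c] at h8
        clear_value g
        revert h6 h8
        rcases hgc : g c with _ | ⟨e, _ | ⟨e', l⟩⟩
        · simp
        · intro h6 h8
          simp only [List.map_cons, List.map_nil, List.sum_cons, List.sum_nil, add_zero] at h8
          exact hs.2 e (by simpa using h6) h8
        · simp
      · exact hs
    · rw [if_neg hi]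
      exact hs

/-- correctness of the propagation -/
theorem pprop : PPropStmt := by
  intro P x y w h1 h2 l
  unfold Pat.prun
  induction l with
  | nil => intro s hs; exact hs
  | cons st l ih =>
    intro s hs
    rw [List.foldl_cons]
    exact ih _ (PProp_step P x y w h1 h2 s hs st)

end N3
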