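import Pool.Agent.Lib_n3.PerfDefs

/-!
# PREL: from a stress to the list relations (MP_07e12a_co)
-/

open scoped Matrix Topology
open Finset

namespace N3

section
variable {V : Type} [Fintype V] [DecidableEq V]

/-- sums over `V` as sums over lists of valid indices -/
theorem prel_sum {M : Type*} [AddCommMonoid M] {P : Pat} {f t : ℕ → V}
    (hinj : ∀ i j, Vx P i → Vx P j → gx P f t i = gx P f t j → i = j) {A : List ℕ}
    (hA : A.Nodup) (hv : ∀ j ∈ A, Vx P j) (φ : V → M)
    (h0 : ∀ v, (∀ j ∈ A, gx P f t j ≠ v) → φ v = 0) :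
    ∑ v, φ v = (A.map (fun j => φ (gx P f t j))).sum := by
  have hnd : (A.map (gx P f t)).Nodup :=
    List.Nodup.map_on (fun i hi j hj h => hinj i j (hv i hi) (hv j hj) h) hA
  have h1 : ∑ v, φ v = ∑ v ∈ (A.map (gx P f t)).toFinset, φ v := by
    refine (Finset.sum_subset (Finset.subset_univ _) ?_).symm
    intro v _ hv'
    refine h0 v fun j hj h => hv' ?_
    rw [List.mem_toFinset, List.mem_map]
    exact ⟨j, hj, h⟩
  rw [h1, List.sum_toFinset φ hnd, List.map_map]
  rfl

/-- grouping a sum of vectors by the classes -/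
theorem prel_group {L : List ℕ} (hL : L.Nodup) (c : ℕ → ℕ) (g : ℕ → ℝ) (r : ℕ → E) :
    (L.map (fun j => g j • r (c j))).sum
      = ∑ b ∈ ((L.map c).dedup).toFinset, ((L.filter (fun j => c j == b)).map g).sum • r b := by
  rw [← List.sum_toFinset _ hL]
  rw [← Finset.sum_fiberwise_of_maps_to (s := L.toFinset) (t := ((L.map c).dedup).toFinset)
    (g := c)]
  · refine Finset.sum_congr rfl fun b _ => ?_
    rw [← List.sum_toFinset g (hL.filter _), Finset.sum_smul]
    refine Finset.sum_congr ?_ ?_
    · ext j
      simp only [Finset.mem_filter, List.mem_toFinset, List.mem_filter, beq_iff_eq]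
    · intro j hj
      simp only [List.mem_toFinset, List.mem_filter, beq_iff_eq] at hj
      rw [hj.2]
  · intro j hj
    simp only [List.mem_toFinset, List.mem_dedup, List.mem_map] at hj ⊢
    exact ⟨j, hj, rfl⟩

omit [Fintype V] [DecidableEq V] in
/-- the weights of the keys -/
theorem prel_wt {P : Pat} {f t : ℕ → V} {ω : V → V → ℝ} (hs : ∀ u v, ω u v = ω v u)
    (x y i b : ℕ) :
    Wt P x y (fun e => ω (gx P f t e.1) (gx P f t e.2)) i b
      = (((P.ax x y i).filter (fun j => P.cx j == b)).map
          (fun j => ω (gx P f t i) (gx P f t j))).sum := by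
  unfold Wt Pat.atoms
  rw [List.map_map]
  congr 1
  refine List.map_congr_left fun j _ => ?_
  simp only [Function.comp_apply, key]
  split_ifs
  · rfl
  · exact hs _ _

/-- two vectors which are not parallel -/
theorem prel_two {a b : E} {c d : ℝ} (h : Np a b) (h0 : c • a + d • b = 0) : c = 0 := by
  by_contra hc
  apply h
  have h1 : crossProduct (c • a + d • b) b = 0 := by rw [h0]; simp
  rw [map_add, LinearMap.add_apply, map_smul, map_smul, LinearMap.smul_apply,
    LinearMap.smul_apply, cross_self, smul_zero, add_zero] at h1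
  exact (smul_eq_zero.1 h1).resolve_left hc

/-- `c i < m` -/
theorem prel_c {P : Pat} {ts : List Bool} (h : P.wf ts = true) {i : ℕ} (hi : i < P.m) :
    P.c i ≤ i ∧ P.c (P.c i) = P.c i := by
  unfold Pat.wf at h
  simp only [Bool.and_eq_true, List.all_eq_true, List.mem_range, decide_eq_true_eq, beq_iff_eq] at h
  have := h.1.1.1.1.2 i hi
  exact ⟨this.1.1.2, this.1.2⟩

/-- the general form -/
theorem prel_core {G F : SimpleGraph V} {side : V → Bool} {P : Pat} {ts : List Bool}
    {f t : ℕ → V} {ρ : V → E} (hwf : P.wf ts = true)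
    (hb : PBase G side P ts f t) (hS : Sep side ρ)
    (hfree : StressFree (quot G (qmap P f)) ρ) {x y : ℕ}
    (hA1 : ∀ i < P.m, (P.ax x y i).Nodup) (hA2 : ∀ i < P.m, ∀ j ∈ P.ax x y i, Vx P j)
    (hA3 : ∀ i < P.m, ∀ v, F.Adj (f i) v → ∃ j ∈ P.ax x y i, gx P f t j = v)
    (hA4 : ∀ i < P.m, ∀ j ∈ P.ax x y i, side (gx P f t j) ≠ side (f i))
    (hFK : ∀ u v, F.Adj u v → (quot G (qmap P f)).Adj (qmap P f u) (qmap P f v))
    {ω : V → V → ℝ} (hω : Stress F (ρ ∘ qmap P f) ω) :
    (∀ i < P.m, PlaneRel P x y (fun e => ω (gx P f t e.1) (gx P f t e.2)) i) ∧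
      (∀ a b, FibRel P x y (fun e => ω (gx P f t e.1) (gx P f t e.2)) a b) := by
  have hg : ∀ i < P.m, gx P f t i = f i := fun i hi => if_pos hi
  have hcx : ∀ i < P.m, P.cx i = P.c i := fun i hi => if_pos hi
  have hvan : ∀ i < P.m, ∀ v, (∀ j ∈ P.ax x y i, gx P f t j ≠ v) → ω (f i) v = 0 := by
    intro i hi v hv
    apply hω.2.1
    intro hadj
    obtain ⟨j, hj, hj'⟩ := hA3 i hi v hadj
    exact hv j hj hj'
  constructor
  · intro i hi b0 b1 h01
    set w : ℕ × ℕ → ℝ := fun e => ω (gx P f t e.1) (gx P f t e.2) with hw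
    -- the equilibrium
    have heq : ∑ b ∈ (P.cls x y i).toFinset, Wt P x y w i b • ρ (gx P f t b) = 0 := by
      have h1 := hω.2.2 (f i)
      rw [prel_sum hb.inj (hA1 i hi) (hA2 i hi) (fun u => ω (f i) u • (ρ ∘ qmap P f) u)
        (fun v hv => by
          show ω (f i) v • (ρ ∘ qmap P f) v = 0
          rw [hvan i hi v hv, zero_smul])] at h1
      have h2 : (P.ax x y i).map (fun j => ω (f i) (gx P f t j) • (ρ ∘ qmap P f) (gx P f t j))
          = (P.ax x y i).map
            (fun j => ω (gx P f t i) (gx P f t j) • (fun b => ρ (gx P f t b)) (P.cx j)) := by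
        refine List.map_congr_left fun j hj => ?_
        show ω (f i) (gx P f t j) • ρ (qmap P f (gx P f t j)) = _
        rw [hb.qg j (hA2 i hi j hj), hg i hi]
      rw [h2, prel_group (hA1 i hi) P.cx (fun j => ω (gx P f t i) (gx P f t j))
        (fun b => ρ (gx P f t b))] at h1
      unfold Pat.cls
      rw [← h1]
      refine Finset.sum_congr rfl fun b _ => ?_
      rw [hw, prel_wt hω.1]
    -- facts about the classes
    have hcl : ∀ b ∈ P.cls x y i, Vx P b ∧ side (gx P f t b) ≠ side (f i) := by
      intro b hb'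
      unfold Pat.cls at hb'
      rw [List.mem_dedup, List.mem_map] at hb'
      obtain ⟨j, hj, rfl⟩ := hb'
      refine ⟨(hb.cx j (hA2 i hi j hj)).1, ?_⟩
      rw [← hb.qg j (hA2 i hi j hj), hb.qs]
      exact hA4 i hi j hj
    have main : ∀ c0 c1, (∀ b ∈ P.cls x y i, b ≠ c0 → b ≠ c1 → Wt P x y w i b = 0) →
        c0 ∈ P.cls x y i → Wt P x y w i c0 = 0 := by
      intro c0 c1 hc hc0
      by_cases hc1 : c1 ∈ P.cls x y i ∧ c1 ≠ c0
      · have hsum : Wt P x y w i c0 • ρ (gx P f t c0) + Wt P x y w i c1 • ρ (gx P f t c1) = 0 := by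
          rw [← Finset.sum_pair (f := fun b => Wt P x y w i b • ρ (gx P f t b)) hc1.2.symm,
            ← heq]
          refine Finset.sum_subset ?_ ?_
          · intro b hb'
            rw [Finset.mem_insert, Finset.mem_singleton] at hb'
            rw [List.mem_toFinset]
            rcases hb' with rfl | rfl
            · exact hc0
            · exact hc1.1
          · intro b hb1 hb2
            rw [Finset.mem_insert, Finset.mem_singleton, not_or] at hb2
            rw [List.mem_toFinset] at hb1
            rw [hc b hb1 hb2.1 hb2.2, zero_smul]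
        refine prel_two (hS.2 _ _ ?_ ?_) hsum
        · intro h
          exact hc1.2 (hb.inj _ _ (hcl c0 hc0).1 (hcl c1 hc1.1).1 h).symm
        · have h1 := (hcl c0 hc0).2
          have h2 := (hcl c1 hc1.1).2
          revert h1 h2
          cases side (gx P f t c0) <;> cases side (gx P f t c1) <;> cases side (f i) <;> simp
      · have hsum : Wt P x y w i c0 • ρ (gx P f t c0) = 0 := by
          rw [← heq, Finset.sum_eq_single c0]
          · intro b hb1 hb2
            rw [List.mem_toFinset] at hb1
            rw [hc b hb1 hb2 (fun h => hc1 ⟨h ▸ hb1, h ▸ hb2⟩), zero_smul]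
          · intro h
            exact absurd (List.mem_toFinset.2 hc0) h
        exact (smul_eq_zero.1 hsum).resolve_right (hS.1 _)
    intro b hb'
    by_cases h0 : b = b0
    · subst h0
      exact main b b1 h01 hb'
    · by_cases h1 : b = b1
      · subst h1
        exact main b b0 (fun b' h h2 h3 => h01 b' h h3 h2) hb'
      · exact h01 b hb' h0 h1
  · intro a b
    unfold FibRel
    by_cases hex : ∃ i ∈ P.mem a, ∃ j ∈ P.ax x y i, P.cx j = b
    · obtain ⟨i0, hi0, j0, hj0, hj0b⟩ := hex
      have hmem : ∀ i, i ∈ P.mem a ↔ i < P.m ∧ P.c i = a := by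
        intro i
        unfold Pat.mem
        rw [List.mem_filter, List.mem_range, beq_iff_eq]
      obtain ⟨hi0m, hi0a⟩ := (hmem i0).1 hi0
      have ha : a < P.m := by
        have := (prel_c hwf hi0m).1
        omega
      have hbv : Vx P b := by
        rw [← hj0b]
        exact (hb.cx j0 (hA2 i0 hi0m j0 hj0)).1
      have hfib : (∑ u, ∑ v, if qmap P f u = gx P f t a ∧ qmap P f v = gx P f t b
          then ω u v else 0) = 0 := hfree (pushW (qmap P f) ω) (pushGen hFK hω) _ _
      rw [prel_sum hb.inj (A := P.mem a) (List.Nodup.filter _ List.nodup_range)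
        (fun i hi => Or.inl ((hmem i).1 hi).1)] at hfib
      · rw [← hfib]
        congr 1
        refine List.map_congr_left fun i hi => ?_
        obtain ⟨him, hia⟩ := (hmem i).1 hi
        have hqi : qmap P f (gx P f t i) = gx P f t a := by
          rw [hb.qg i (Or.inl him), hcx i him, hia]
        rw [prel_wt hω.1]
        have h1 : ∀ v, (if qmap P f (gx P f t i) = gx P f t a ∧ qmap P f v = gx P f t b
            then ω (gx P f t i) v else 0)
            = if qmap P f v = gx P f t b then ω (gx P f t i) v else 0 := by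
          intro v
          by_cases h : qmap P f v = gx P f t b
          · rw [if_pos h, if_pos ⟨hqi, h⟩]
          · rw [if_neg h, if_neg (fun h' => h h'.2)]
        rw [Finset.sum_congr rfl (fun v _ => h1 v)]
        rw [prel_sum hb.inj (hA1 i him) (hA2 i him)]
        · have h2 : ∀ L : List ℕ, (∀ j ∈ L, Vx P j) →
              ((L.filter (fun j => P.cx j == b)).map (fun j => ω (gx P f t i) (gx P f t j))).sum
                = (L.map (fun j => if qmap P f (gx P f t j) = gx P f t b
                    then ω (gx P f t i) (gx P f t j) else 0)).sum := by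
            intro L
            induction L with
            | nil => intro _; rfl
            | cons j L ih =>
              intro hL
              have ih' := ih (fun k hk => hL k (List.mem_cons_of_mem _ hk))
              have hj := hL j List.mem_cons_self
              rw [List.map_cons, List.sum_cons, ← ih']
              by_cases hjb : P.cx j = b
              · rw [List.filter_cons_of_pos (by rw [beq_iff_eq]; exact hjb), List.map_cons,
                  List.sum_cons, if_pos (by rw [hb.qg j hj, hjb])]
              · rw [List.filter_cons_of_neg (by rw [beq_iff_eq]; exact hjb), if_neg, zero_add]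
                intro h
                apply hjb
                rw [hb.qg j hj] at h
                exact hb.inj _ _ (hb.cx j hj).1 hbv h
          exact h2 _ (hA2 i him)
        · intro v hv
          rw [hg i him, hvan i him v hv, ite_self]
      · intro u hu
        refine Finset.sum_eq_zero fun v _ => ?_
        rw [if_neg]
        rintro ⟨h1, -⟩
        rw [hg a ha] at h1
        by_cases hout : ∀ i < P.m, f i ≠ u
        · rw [hb.qo u hout] at h1
          exact hout a ha h1.symm
        · push Not at hout
          obtain ⟨i, hi, rfl⟩ := hout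
          apply hu i _ (hg i hi)
          rw [hmem]
          refine ⟨hi, ?_⟩
          have h2 := hb.qg i (Or.inl hi)
          rw [hg i hi, h1, ← hg a ha] at h2
          have h3 := hb.inj _ _ (Or.inl ha) (hb.cx i (Or.inl hi)).1 h2
          rw [hcx i hi] at h3
          exact h3.symm
    · have : ∀ i ∈ P.mem a, Wt P x y (fun e => ω (gx P f t e.1) (gx P f t e.2)) i b = 0 := by
        intro i hi
        rw [prel_wt hω.1]
        have : (P.ax x y i).filter (fun j => P.cx j == b) = [] := by
          rw [List.filter_eq_nil_iff]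
          intro j hj h
          rw [beq_iff_eq] at h
          exact hex ⟨i, hi, j, hj, h⟩
        rw [this]
        rfl
      rw [List.map_congr_left this]
      simp

end

theorem pRel : PRelStmt := by
  intro V _ _ G side P ts f t ρ hL hwf hb hR hS hfree
  have hg : ∀ i < P.m, gx P f t i = f i := fun i hi => if_pos hi
  have hcx : ∀ i < P.m, P.cx i = P.c i := fun i hi => if_pos hi
  refine ⟨?_, ?_⟩
  · intro x y hx hy hty hyx hk ω hω
    have hxy : ∀ i < P.m, i = x → i ≠ y := by
      rintro i _ rfl rfl
      exact hty rfl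
    have hsxy : side (gx P f t x) ≠ side (gx P f t y) := fun h =>
      hty ((hb.sd x y (Or.inl hx) hy).1 h)
    have hnadj : ¬ G.Adj (gx P f t x) (gx P f t y) := by
      rw [hg x hx, hb.nbr x hx]
      rintro ⟨j, hj, hj'⟩
      exact hyx (hb.inj _ _ (hb.nxv x hx j hj) hy hj' ▸ hj)
    have hxny : ∀ i < P.m, i = y → x ∉ P.nx i := by
      rintro i hi rfl hxi
      apply hnadj
      rw [hg i hi, hg x hx]
      exact ((hb.nbr i hi (f x)).2 ⟨x, hxi, hg x hx⟩).symm
    have hmem : ∀ i j, j ∈ P.ax x y i ↔ j ∈ P.nx i ∨ (i = x ∧ j = y) ∨ (i = y ∧ j = x) := by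
      intro i j
      unfold Pat.ax
      rw [List.mem_append, List.mem_append]
      by_cases h1 : i = x <;> by_cases h2 : i = y <;> simp [h1, h2] <;> tauto
    refine prel_core (F := addE G (gx P f t x) (gx P f t y)) hwf hb hS hfree ?_ ?_ ?_ ?_ ?_ hω
    · intro i hi
      unfold Pat.ax
      by_cases h1 : i = x
      · subst h1
        have h2 : i ≠ y := hxy i hi rfl
        rw [if_pos (by rw [beq_iff_eq]), if_neg (by rw [beq_iff_eq]; exact h2), List.append_nil]
        rw [List.nodup_append]
        refine ⟨(hb.nxnd i hi).1, List.nodup_singleton _, ?_⟩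
        intro a ha b hb' hab
        rw [List.mem_singleton] at hb'
        subst hb'
        subst hab
        exact hyx ha
      · rw [if_neg (by rw [beq_iff_eq]; exact h1), List.append_nil]
        by_cases h2 : i = y
        · rw [if_pos (by rw [beq_iff_eq]; exact h2), List.nodup_append]
          refine ⟨(hb.nxnd i hi).1, List.nodup_singleton _, ?_⟩
          intro a ha b hb' hab
          rw [List.mem_singleton] at hb'
          subst hb'
          subst hab
          exact hxny i hi h2 ha
        · rw [if_neg (by rw [beq_iff_eq]; exact h2), List.append_nil]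
          exact (hb.nxnd i hi).1
    · intro i hi j hj
      rcases (hmem i j).1 hj with h | ⟨_, h⟩ | ⟨_, h⟩
      · exact hb.nxv i hi j h
      · rw [h]; exact hy
      · rw [h]; exact Or.inl hx
    · intro i hi v hv
      rw [SimpleGraph.sup_adj, SimpleGraph.edge_adj] at hv
      rcases hv with hv | ⟨⟨h1, h2⟩ | ⟨h1, h2⟩, -⟩
      · obtain ⟨j, hj, hj'⟩ := (hb.nbr i hi v).1 hv
        exact ⟨j, (hmem i j).2 (Or.inl hj), hj'⟩
      · have hix : i = x := hb.inj _ _ (Or.inl hi) (Or.inl hx) (by rw [hg i hi, h1])
        exact ⟨y, (hmem i y).2 (Or.inr (Or.inl ⟨hix, rfl⟩)), h2.symm⟩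
      · have hiy : i = y := hb.inj _ _ (Or.inl hi) hy (by rw [hg i hi, h1])
        exact ⟨x, (hmem i x).2 (Or.inr (Or.inr ⟨hiy, rfl⟩)), h2.symm⟩
    · intro i hi j hj
      rcases (hmem i j).1 hj with h | ⟨h1, h⟩ | ⟨h1, h⟩
      · exact (hL.bip _ _ ((hb.nbr i hi _).2 ⟨j, h, rfl⟩)).symm
      · rw [h, ← hg i hi, h1]; exact hsxy.symm
      · rw [h, ← hg i hi, h1]; exact hsxy
    · intro u v huv
      rw [SimpleGraph.sup_adj, SimpleGraph.edge_adj] at huv
      have hload : (quot G (qmap P f)).Adj (qmap P f (gx P f t x)) (qmap P f (gx P f t y)) := by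
        have hcm : P.c x < P.m := lt_of_le_of_lt (prel_c hwf hx).1 hx
        have hrep : P.c x ∈ P.reps := by
          unfold Pat.reps
          rw [List.mem_filter, List.mem_range, beq_iff_eq]
          exact ⟨hcm, (prel_c hwf hx).2⟩
        rw [hb.qg x (Or.inl hx), hb.qg y hy, hcx x hx, hg _ hcm, hb.kadj _ hrep]
        exact ⟨P.cx y, hk, rfl⟩
      rcases huv with huv | ⟨⟨rfl, rfl⟩ | ⟨rfl, rfl⟩, -⟩
      · exact quot_adj hL.bip hb.qs huv
      · exact hload
      · exact hload.symm
  · intro ω hω
    have hax : ∀ i < P.m, P.ax (2 * P.m) (2 * P.m) i = P.nx i := by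
      intro i hi
      have h : ¬ ((i == 2 * P.m) = true) := by
        rw [beq_iff_eq]
        omega
      unfold Pat.ax
      rw [if_neg h, List.append_nil, List.append_nil]
    refine prel_core (F := G) hwf hb hS hfree ?_ ?_ ?_ ?_ ?_ hω
    · intro i hi
      rw [hax i hi]
      exact (hb.nxnd i hi).1
    · intro i hi j hj
      rw [hax i hi] at hj
      exact hb.nxv i hi j hj
    · intro i hi v hv
      rw [hax i hi]
      exact (hb.nbr i hi v).1 hv
    · intro i hi j hj
      rw [hax i hi] at hj
      exact (hL.bip _ _ ((hb.nbr i hi _).2 ⟨j, hj, rfl⟩)).symm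
    · intro u v huv
      exact quot_adj hL.bip hb.qs huv

end N3
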