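import Pool.Agent.Lib_n3.PerfDefs
import Pool.Agent.Lib_n3.Cuts

/-!
# The graph outside an embedded pattern is 2-edge-connected (module PT2, MP_07e12a_co)
-/

open scoped Matrix Topology
open Finset

namespace N3

section
variable {V : Type} [Fintype V] [DecidableEq V]

theorem pt2_dg_union (G : SimpleGraph V) {A B : Finset V} (h : Disjoint A B) (v : V) :
    dg G (A ∪ B) v = dg G A v + dg G B v := by
  have := ed_union_right G {v} A B h
  rwa [ed_singleton_left, ed_singleton_left, ed_singleton_left] at this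

theorem pt2_dg_self (G : SimpleGraph V) {A : Finset V} {v : V} (hv : v ∈ A) :
    dg G A v + 1 ≤ A.card := by
  classical
  unfold dg
  have h : (A.filter (fun u => G.Adj v u)) ⊆ A.erase v := by
    intro u hu
    rw [mem_filter] at hu
    exact mem_erase.2 ⟨hu.2.ne.symm, hu.1⟩
  have h2 := card_le_card h
  rw [card_erase_of_mem hv] at h2
  have h3 : 1 ≤ A.card := card_pos.2 ⟨v, hv⟩
  have h4 : (A.filter (fun u => G.Adj v u)).card + 1 ≤ A.card := by omega
  convert h4

theorem pt2_cut (G : SimpleGraph V) {T C : Finset V} (hC : C ⊆ T) :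
    cut G C = ed G C Tᶜ + ed G C (T \ C) := by
  have h : Cᶜ = Tᶜ ∪ (T \ C) := by
    ext v
    simp only [mem_compl, mem_union, mem_sdiff]
    constructor
    · intro h
      by_cases hT : v ∈ T
      · exact Or.inr ⟨hT, h⟩
      · exact Or.inl hT
    · rintro (h | h)
      · exact fun h' => h (hC h')
      · exact h.2
  unfold cut
  rw [h, ed_union_right]
  rw [Finset.disjoint_left]
  intro v h1 h2
  exact (mem_compl.1 h1) (mem_sdiff.1 h2).1

/-- a nonempty part of `T` with at most one edge to the rest of `T` has a large cut -/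
theorem pt2_half {G : SimpleGraph V} (h3 : ∀ v, dg G univ v = 3) (h5 : Cyc5 G) {T : Finset V}
    (hH : 3 ≤ Tᶜ.card) (h1 : ∀ v ∈ T, dg G Tᶜ v ≤ 1) {C : Finset V} (hC : C ⊆ T)
    (hne : C.Nonempty) (he : ed G C (T \ C) ≤ 1) : 5 ≤ cut G C := by
  by_contra hlt
  have hcard : C.card ≤ 2 := by
    rcases h5 C (by omega) with h | h
    · exact h
    · have : Tᶜ ⊆ Cᶜ := fun v hv => by
        rw [mem_compl] at hv ⊢
        exact fun h' => hv (hC h')
      have := card_le_card this
      omega
  have hdeg : ∀ v ∈ C, 3 ≤ dg G (T \ C) v + C.card := by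
    intro v hv
    have e1 : (univ : Finset V) = Tᶜ ∪ (C ∪ (T \ C)) := by
      rw [Finset.union_sdiff_of_subset hC, Finset.union_comm, Finset.union_compl]
    have d1 : Disjoint Tᶜ (C ∪ (T \ C)) := by
      rw [Finset.union_sdiff_of_subset hC]
      exact disjoint_compl_left
    have d2 : Disjoint C (T \ C) := disjoint_sdiff
    have e2 := h3 v
    rw [e1, pt2_dg_union G d1, pt2_dg_union G d2] at e2
    have e3 := h1 v (hC hv)
    have e4 := pt2_dg_self G hv
    omega
  have hsum : C.card * (3 - C.card) ≤ ed G C (T \ C) := by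
    unfold ed
    rw [← smul_eq_mul, ← Finset.sum_const]
    exact Finset.sum_le_sum fun v hv => by
      have := hdeg v hv
      omega
  have hpos : 1 ≤ C.card := card_pos.2 hne
  have : C.card = 1 ∨ C.card = 2 := by omega
  rcases this with h | h <;> rw [h] at hsum <;> omega

end

theorem pt2_mem_hosts (P : Pat) {h : ℕ} (hh : P.host h = true) : h ∈ P.hosts := by
  unfold Pat.hosts
  rw [List.mem_filter, List.mem_range]
  refine ⟨?_, hh⟩
  unfold Pat.host at hh
  simp only [Bool.and_eq_true, decide_eq_true_eq] at hh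
  exact hh.1

theorem pT2 : PT2Stmt := by
  classical
  intro V _ _ G side P ts f t hL h5 hwf hB ht C hC he
  by_contra hcon
  push Not at hcon
  obtain ⟨hCne, hneT⟩ := hcon
  set T := outside P f with hT
  have hmT : ∀ v, v ∈ T ↔ ∀ i < P.m, f i ≠ v := by
    intro v
    rw [hT]
    simp [outside]
  have hDne : (T \ C).Nonempty := by
    rw [sdiff_nonempty]
    intro h
    exact hneT (Subset.antisymm hC h)
  -- consequences of well-formedness
  have hm3 : 3 ≤ P.m ∧ P.hosts.length ≤ 7 := by
    unfold Pat.wf at hwf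
    simp only [Bool.and_eq_true, decide_eq_true_eq] at hwf
    obtain ⟨⟨⟨⟨-, h1⟩, -⟩, h2⟩, -⟩ := hwf
    exact ⟨h1, h2⟩
  have hinj : ∀ i < P.m, ∀ j < P.m, f i = f j → i = j := by
    intro i hi j hj hij
    refine hB.inj i j (Or.inl hi) (Or.inl hj) ?_
    unfold gx
    rw [if_pos hi, if_pos hj]
    exact hij
  have hH : 3 ≤ Tᶜ.card := by
    have h1 : (range P.m).image f ⊆ Tᶜ := by
      intro v hv
      obtain ⟨i, hi, rfl⟩ := mem_image.1 hv
      rw [mem_compl, hmT]
      intro h
      exact h i (mem_range.1 hi) rfl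
    have h2 : ((range P.m).image f).card = P.m := by
      rw [card_image_of_injOn, card_range]
      intro i hi j hj hij
      exact hinj i (mem_range.1 hi) j (mem_range.1 hj) hij
    have := card_le_card h1
    omega
  have hHmem : ∀ v, v ∈ Tᶜ → ∃ i < P.m, f i = v := by
    intro v hv
    rw [mem_compl, hmT] at hv
    push Not at hv
    obtain ⟨i, hi, h⟩ := hv
    exact ⟨i, hi, h⟩
  -- neighbours in the pattern
  have hnb : ∀ v ∈ T, ∀ i < P.m, G.Adj v (f i) → P.host i = true ∧ v = t i := by
    intro v hv i hi hadj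
    exact hB.onb i hi v hadj.symm (fun j hj => (hmT v).1 hv j hj)
  have h1 : ∀ v ∈ T, dg G Tᶜ v ≤ 1 := by
    intro v hv
    unfold dg
    rw [card_le_one]
    intro a ha b hb
    rw [mem_filter] at ha hb
    obtain ⟨i, hi, rfl⟩ := hHmem a ha.1
    obtain ⟨j, hj, rfl⟩ := hHmem b hb.1
    obtain ⟨hi1, hi2⟩ := hnb v hv i hi ha.2
    obtain ⟨hj1, hj2⟩ := hnb v hv j hj hb.2
    by_contra hne'
    exact ht i j hi1 hj1 (fun h => hne' (by rw [h])) (hi2.symm.trans hj2)
  have h7 : ed G T Tᶜ ≤ 7 := by
    have hsub : ed G T Tᶜ ≤ (T.filter (fun v => v ∈ P.hosts.toFinset.image t)).card := by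
      unfold ed
      rw [card_filter]
      refine sum_le_sum fun v hv => ?_
      split_ifs with hmem
      · exact h1 v hv
      · have : dg G Tᶜ v = 0 := by
          unfold dg
          rw [card_eq_zero, filter_eq_empty_iff]
          intro u hu hadj
          obtain ⟨i, hi, rfl⟩ := hHmem u hu
          obtain ⟨hi1, hi2⟩ := hnb v hv i hi hadj
          exact hmem (mem_image.2 ⟨i, List.mem_toFinset.2 (pt2_mem_hosts P hi1), hi2.symm⟩)
        omega
    have h2 : (T.filter (fun v => v ∈ P.hosts.toFinset.image t)).card ≤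
        (P.hosts.toFinset.image t).card :=
      card_le_card fun v hv => (mem_filter.1 hv).2
    have h3 : (P.hosts.toFinset.image t).card ≤ P.hosts.length :=
      card_image_le.trans (List.toFinset_card_le _)
    omega
  have hDT : T \ C ⊆ T := sdiff_subset
  have hTD : T \ (T \ C) = C := by
    rw [sdiff_sdiff_right_self]
    exact inter_eq_right.2 hC
  have he' : ed G (T \ C) (T \ (T \ C)) ≤ 1 := by
    rw [hTD, ed_comm]
    exact he
  have hc1 := pt2_half hL.cubic h5 hH h1 hC hCne he
  have hc2 := pt2_half hL.cubic h5 hH h1 hDT hDne he'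
  rw [pt2_cut G hC] at hc1
  rw [pt2_cut G hDT, hTD, ed_comm G (T \ C) C] at hc2
  have hsum : ed G T Tᶜ = ed G C Tᶜ + ed G (T \ C) Tᶜ := by
    rw [← ed_union_left G C (T \ C) Tᶜ disjoint_sdiff, union_sdiff_of_subset hC]
  omega

end N3
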