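import Pool.Agent.Lib_n3.PerfCert

/-!
# The patterns pass the checks (kernel computation)
-/

namespace N3

theorem pTHETA_wf : pTHETA.wf pTHETAts = true := by decide +kernel
theorem pTHETA_peel : pTHETA.peelOK pTHETAts pTHETAP [] = true := by decide +kernel
theorem pTHETA_kill : pTHETA.killOK pTHETAts pTHETAK = true := by decide +kernel

theorem pL3_wf : pL3.wf pL3ts = true := by decide +kernel
theorem pL3_peel : pL3.peelOK pL3ts pL3P [] = true := by decide +kernel
theorem pL3_kill : pL3.killOK pL3ts pL3K = true := by decide +kernel

theorem pE10_wf : pE10.wf pE10ts = true := by decide +kernel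
theorem pE10_peel : pE10.peelOK pE10ts pE10P [] = true := by decide +kernel
theorem pE10_kill : pE10.killOK pE10ts pE10K = true := by decide +kernel

theorem pK4_wf : pK4.wf pK4ts = true := by decide +kernel
theorem pK4_peel : pK4.peelOK pK4ts pK4P [(0, 19)] = true := by decide +kernel
theorem pK4_kill : pK4.killOK pK4ts pK4K = true := by decide +kernel

theorem pD20_wf : pD20.wf pD20ts = true := by decide +kernel
theorem pD20_peel : pD20.peelOK pD20ts pD20P [] = true := by decide +kernel
theorem pD20_kill : pD20.killOK pD20ts pD20K = true := by decide +kernel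

end N3
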