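import Pool.Agent.Lib_n3.StmtsK4
import Pool.Agent.Lib_n3.PerfCheck
import Pool.Agent.Lib_n3.PKill
import Pool.Agent.Lib_n3.Core
import Pool.Agent.Lib_n3.PProp
import Pool.Agent.Lib_n3.PRel
import Pool.Agent.Lib_n3.PBase
import Pool.Agent.Lib_n3.PT2
import Pool.Agent.Lib_n3.MinKill
import Pool.Agent.Lib_n3.SP
import Pool.Agent.Lib_n3.LemmaA

/-!
# The subdivided `K₄` (MP_07e12a_co): conclusion
-/

open scoped Matrix Topology
open Finset

namespace N3

namespace K4L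

/-! ### Linear algebra in `ℝ³` -/

/-- a nonzero vector orthogonal to two non-parallel vectors is a nonzero multiple of their cross
product -/
theorem cross_par {u v w : E} (h : Np u v) (hw : w ≠ 0) (hu : w ⬝ᵥ u = 0) (hv : w ⬝ᵥ v = 0) :
    ∃ μ : ℝ, μ ≠ 0 ∧ μ • (u ⨯₃ v) = w := by
  have h1 : (u ⨯₃ v) ⨯₃ w = 0 := by
    rw [cross_cross_eq_smul_sub_smul, dotProduct_comm u w, dotProduct_comm v w, hu, hv, zero_smul,
      zero_smul, sub_zero]
  have h2 : ((u ⨯₃ v) ⬝ᵥ (u ⨯₃ v)) • w = (w ⬝ᵥ (u ⨯₃ v)) • (u ⨯₃ v) := by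
    have h3 := cross_cross_eq_smul_sub_smul (u ⨯₃ v) w (u ⨯₃ v)
    rw [h1] at h3
    simp only [map_zero, LinearMap.zero_apply] at h3
    exact (sub_eq_zero.1 h3.symm)
  have h4 : (u ⨯₃ v) ⬝ᵥ (u ⨯₃ v) ≠ 0 := fun h0 => h (dotProduct_self_eq_zero.1 h0)
  refine ⟨((u ⨯₃ v) ⬝ᵥ (u ⨯₃ v))⁻¹ * (w ⬝ᵥ (u ⨯₃ v)), ?_, ?_⟩
  · intro h0
    rcases mul_eq_zero.1 h0 with h5 | h5
    · exact h4 (inv_eq_zero.1 h5)
    · rw [h5, zero_smul] at h2
      exact hw ((smul_eq_zero.1 h2).resolve_left h4)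
  · rw [mul_smul, ← h2, smul_smul, inv_mul_cancel₀ h4, one_smul]

/-! ### Polynomial functions -/

/-- polynomial function -/
def PF (g : ℝ → ℝ) : Prop := ∃ p : Polynomial ℝ, ∀ s, g s = p.eval s

/-- polynomial vector function -/
def PFv (g : ℝ → E) : Prop := ∀ i, PF (fun s => g s i)

theorem PF.const (c : ℝ) : PF (fun _ => c) := ⟨Polynomial.C c, fun s => by simp⟩

theorem PF.id : PF (fun s => s) := ⟨Polynomial.X, fun s => by simp⟩

theorem PF.add {g h : ℝ → ℝ} (hg : PF g) (hh : PF h) : PF (fun s => g s + h s) := by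
  obtain ⟨p, hp⟩ := hg
  obtain ⟨q, hq⟩ := hh
  exact ⟨p + q, fun s => by rw [Polynomial.eval_add, ← hp, ← hq]⟩

theorem PF.sub {g h : ℝ → ℝ} (hg : PF g) (hh : PF h) : PF (fun s => g s - h s) := by
  obtain ⟨p, hp⟩ := hg
  obtain ⟨q, hq⟩ := hh
  exact ⟨p - q, fun s => by rw [Polynomial.eval_sub, ← hp, ← hq]⟩

theorem PF.mul {g h : ℝ → ℝ} (hg : PF g) (hh : PF h) : PF (fun s => g s * h s) := by
  obtain ⟨p, hp⟩ := hg
  obtain ⟨q, hq⟩ := hh
  exact ⟨p * q, fun s => by rw [Polynomial.eval_mul, ← hp, ← hq]⟩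

theorem PF.cont {g : ℝ → ℝ} (hg : PF g) : Continuous g := by
  obtain ⟨p, hp⟩ := hg
  have : g = fun s => p.eval s := funext hp
  rw [this]
  exact p.continuous

theorem PFv.const (u : E) : PFv (fun _ => u) := fun i => PF.const (u i)

theorem PFv.smul {g : ℝ → E} (c : ℝ) (hg : PFv g) : PFv (fun s => c • g s) := fun i =>
  (PF.const c).mul (hg i)

theorem PFv.cross {g h : ℝ → E} (hg : PFv g) (hh : PFv h) : PFv (fun s => g s ⨯₃ h s) := by
  intro i
  fin_cases i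
  · have : (fun s => (g s ⨯₃ h s) 0) = fun s => g s 1 * h s 2 - g s 2 * h s 1 := by
      funext s
      rw [cross_apply]
      rfl
    show PF (fun s => (g s ⨯₃ h s) 0)
    rw [this]
    exact ((hg 1).mul (hh 2)).sub ((hg 2).mul (hh 1))
  · have : (fun s => (g s ⨯₃ h s) 1) = fun s => g s 2 * h s 0 - g s 0 * h s 2 := by
      funext s
      rw [cross_apply]
      rfl
    show PF (fun s => (g s ⨯₃ h s) 1)
    rw [this]
    exact ((hg 2).mul (hh 0)).sub ((hg 0).mul (hh 2))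
  · have : (fun s => (g s ⨯₃ h s) 2) = fun s => g s 0 * h s 1 - g s 1 * h s 0 := by
      funext s
      rw [cross_apply]
      rfl
    show PF (fun s => (g s ⨯₃ h s) 2)
    rw [this]
    exact ((hg 0).mul (hh 1)).sub ((hg 1).mul (hh 0))

theorem PFv.dot {g h : ℝ → E} (hg : PFv g) (hh : PFv h) : PF (fun s => g s ⬝ᵥ h s) := by
  have : (fun s => g s ⬝ᵥ h s) = fun s => g s 0 * h s 0 + g s 1 * h s 1 + g s 2 * h s 2 := by
    funext s
    simp only [dotProduct, Fin.sum_univ_three]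
  rw [this]
  exact (((hg 0).mul (hh 0)).add ((hg 1).mul (hh 1))).add ((hg 2).mul (hh 2))

theorem PFv.cont {g : ℝ → E} (hg : PFv g) : Continuous g := continuous_pi fun i => (hg i).cont

/-- the segment from `u` to `v` -/
theorem PFv.seg (u v : E) : PFv (fun s => (1 - s) • u + s • v) := fun i =>
  (((PF.const 1).sub PF.id).mul (PF.const (u i))).add (PF.id.mul (PF.const (v i)))

/-- a polynomial function which is nonzero at `1` is nonzero near `0` -/
theorem PF.near {g : ℝ → ℝ} (hg : PF g) (h1 : g 1 ≠ 0) : ∀ᶠ s in 𝓝[≠] (0 : ℝ), g s ≠ 0 := by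
  obtain ⟨p, hp⟩ := hg
  have hp0 : p ≠ 0 := by
    rintro rfl
    exact h1 (by rw [hp]; simp)
  have hfin : Set.Finite {x : ℝ | p.IsRoot x} := Polynomial.finite_setOfPred_isRoot hp0
  have hcl : IsClosed ({x : ℝ | p.IsRoot x} \ {0}) := (hfin.subset Set.sdiff_subset).isClosed
  have hmem : ({x : ℝ | p.IsRoot x} \ {0})ᶜ ∈ 𝓝 (0 : ℝ) := hcl.isOpen_compl.mem_nhds (by simp)
  rw [eventually_nhdsWithin_iff]
  filter_upwards [hmem] with s hs hs0 h
  exact hs ⟨by rw [Set.mem_ofPred_eq, Polynomial.IsRoot, ← hp]; exact h, hs0⟩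

/-! ### The deformation -/

theorem cross_ss (a b : ℝ) (u v : E) : (a • u) ⨯₃ (b • v) = (a * b) • (u ⨯₃ v) := by
  rw [map_smul, map_smul, LinearMap.smul_apply, smul_smul, mul_comm]

theorem cross_id (u v w : E) :
    (w ⨯₃ v) ⨯₃ (u ⨯₃ w) = ((u ⨯₃ v) ⬝ᵥ w) • w := by
  simp_rw [cross_apply, Matrix.vec3_dotProduct]
  ext i
  fin_cases i <;>
  · simp only [Nat.succ_eq_add_one, Nat.reduceAdd, Fin.isValue, Matrix.cons_val,
      Matrix.cons_val_one, Matrix.cons_val_zero, Fin.reduceFinMk, Pi.smul_apply, smul_eq_mul]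
    ring

theorem deform {A Q R N B Y Z T2 T4 T6 T7 T9 : E}
    (nA : A ≠ 0) (nQ : Q ≠ 0) (nR : R ≠ 0) (nN : N ≠ 0) (nB : B ≠ 0) (nY : Y ≠ 0)
    (pA2 : Np A T2) (pA6 : Np A T6) (pQN : Np Q N) (pB4 : Np B T4) (pB9 : Np B T9)
    (pRN : Np R N) (pY7 : Np Y T7) (pQR : Np Q R) (p24 : Np T2 T4) (p92 : Np T9 T2)
    (AQ : A ⬝ᵥ Q = 0) (AR : A ⬝ᵥ R = 0) (Q2 : Q ⬝ᵥ T2 = 0) (R6 : R ⬝ᵥ T6 = 0) (BQ : B ⬝ᵥ Q = 0)
    (BN : B ⬝ᵥ N = 0) (Q4 : Q ⬝ᵥ T4 = 0) (N9 : N ⬝ᵥ T9 = 0) (YR : Y ⬝ᵥ R = 0) (YN : Y ⬝ᵥ N = 0)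
    (R7 : R ⬝ᵥ T7 = 0) (ZA : Z ⬝ᵥ A = 0) (Z9 : Z ⬝ᵥ T9 = 0) (Z7 : Z ⬝ᵥ T7 ≠ 0)
    (Q9 : Q ⬝ᵥ T9 ≠ 0) (hD : (T2 ⨯₃ T6) ⬝ᵥ T9 ≠ 0) :
    ∃ w1 w2 w3 w4 w5 w6 w7 w8 w9 : ℝ → E, (Continuous w1 ∧ Continuous w2 ∧ Continuous w3 ∧
      Continuous w4 ∧ Continuous w5 ∧ Continuous w6 ∧ Continuous w7 ∧ Continuous w8 ∧
      Continuous w9) ∧
      (w1 0 = A ∧ w2 0 = Q ∧ w3 0 = B ∧ w4 0 = Q ∧ w5 0 = A ∧ w6 0 = R ∧ w7 0 = R ∧ w8 0 = Y ∧
        w9 0 = N) ∧
      (∀ s, (Z ⬝ᵥ w1 s = 0 ∧ w1 s ⬝ᵥ w2 s = 0 ∧ w1 s ⬝ᵥ w6 s = 0 ∧ w2 s ⬝ᵥ w3 s = 0 ∧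
        w3 s ⬝ᵥ w4 s = 0 ∧ w3 s ⬝ᵥ w9 s = 0 ∧ w4 s ⬝ᵥ w5 s = 0 ∧ w5 s ⬝ᵥ w7 s = 0 ∧
        w6 s ⬝ᵥ w8 s = 0 ∧ w7 s ⬝ᵥ w8 s = 0 ∧ w8 s ⬝ᵥ w9 s = 0) ∧
        w2 s ⬝ᵥ T2 = 0 ∧ w4 s ⬝ᵥ T4 = 0 ∧ w6 s ⬝ᵥ T6 = 0 ∧ w7 s ⬝ᵥ T7 = 0 ∧ w9 s ⬝ᵥ T9 = 0) ∧
      ∀ᶠ s in 𝓝[≠] (0 : ℝ), w5 s ⬝ᵥ Z ≠ 0 := by
  obtain ⟨m2, m2n, hm2⟩ := cross_par pA2 nQ (by rw [dotProduct_comm]; exact AQ) Q2
  obtain ⟨m6, m6n, hm6⟩ := cross_par pA6 nR (by rw [dotProduct_comm]; exact AR) R6
  obtain ⟨m3, m3n, hm3⟩ := cross_par pQN nB BQ BN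
  obtain ⟨m4, m4n, hm4⟩ := cross_par pB4 nQ (by rw [dotProduct_comm]; exact BQ) Q4
  obtain ⟨m9, m9n, hm9⟩ := cross_par pB9 nN (by rw [dotProduct_comm]; exact BN) N9
  obtain ⟨m8, m8n, hm8⟩ := cross_par pRN nY YR YN
  obtain ⟨m7, m7n, hm7⟩ := cross_par pY7 nR (by rw [dotProduct_comm]; exact YR) R7
  obtain ⟨m5, m5n, hm5⟩ := cross_par pQR nA AQ AR
  obtain ⟨mq, mqn, hmq⟩ := cross_par p24 nQ Q2 Q4
  -- the vector `η₁`
  obtain ⟨H, hH9, hH2⟩ : ∃ H : E, T9 ⬝ᵥ H = 1 ∧ T2 ⬝ᵥ H = 0 := by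
    have h0 : T9 ⬝ᵥ (T2 ⨯₃ (T9 ⨯₃ T2)) ≠ 0 := by
      intro h
      apply p92
      have h1 : T9 ⬝ᵥ (T2 ⨯₃ (T9 ⨯₃ T2)) = (T9 ⨯₃ T2) ⬝ᵥ (T9 ⨯₃ T2) := by
        rw [triple_product_permutation, triple_product_permutation]
      rw [h1] at h
      exact dotProduct_self_eq_zero.1 h
    refine ⟨(T9 ⬝ᵥ (T2 ⨯₃ (T9 ⨯₃ T2)))⁻¹ • (T2 ⨯₃ (T9 ⨯₃ T2)), ?_, ?_⟩
    · rw [dotProduct_smul, smul_eq_mul, inv_mul_cancel₀ h0]
    · rw [dotProduct_smul, dot_self_cross, smul_zero]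
  -- the path
  set a : ℝ → E := fun s => (1 - s) • A + s • T9 with ha
  set e : ℝ → E := fun s => (1 - s) • N + s • H with he
  set w2 : ℝ → E := fun s => m2 • (a s ⨯₃ T2) with hw2
  set w6 : ℝ → E := fun s => m6 • (a s ⨯₃ T6) with hw6
  set w3 : ℝ → E := fun s => m3 • (w2 s ⨯₃ e s) with hw3
  set w4 : ℝ → E := fun s => m4 • (w3 s ⨯₃ T4) with hw4
  set w9 : ℝ → E := fun s => m9 • (w3 s ⨯₃ T9) with hw9
  set w8 : ℝ → E := fun s => m8 • (w6 s ⨯₃ w9 s) with hw8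
  set w7 : ℝ → E := fun s => m7 • (w8 s ⨯₃ T7) with hw7
  set w5 : ℝ → E := fun s => m5 • (w4 s ⨯₃ w7 s) with hw5
  have P1 : PFv a := PFv.seg A T9
  have Pe : PFv e := PFv.seg N H
  have P2 : PFv w2 := PFv.smul m2 (P1.cross (PFv.const T2))
  have P6 : PFv w6 := PFv.smul m6 (P1.cross (PFv.const T6))
  have P3 : PFv w3 := PFv.smul m3 (P2.cross Pe)
  have P4 : PFv w4 := PFv.smul m4 (P3.cross (PFv.const T4))
  have P9 : PFv w9 := PFv.smul m9 (P3.cross (PFv.const T9))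
  have P8 : PFv w8 := PFv.smul m8 (P6.cross P9)
  have P7 : PFv w7 := PFv.smul m7 (P8.cross (PFv.const T7))
  have P5 : PFv w5 := PFv.smul m5 (P4.cross P7)
  have z1 : a 0 = A := by rw [ha]; simp
  have ze : e 0 = N := by rw [he]; simp
  have z2 : w2 0 = Q := by rw [hw2]; dsimp only; rw [z1, hm2]
  have z6 : w6 0 = R := by rw [hw6]; dsimp only; rw [z1, hm6]
  have z3 : w3 0 = B := by rw [hw3]; dsimp only; rw [z2, ze, hm3]
  have z4 : w4 0 = Q := by rw [hw4]; dsimp only; rw [z3, hm4]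
  have z9 : w9 0 = N := by rw [hw9]; dsimp only; rw [z3, hm9]
  have z8 : w8 0 = Y := by rw [hw8]; dsimp only; rw [z6, z9, hm8]
  have z7 : w7 0 = R := by rw [hw7]; dsimp only; rw [z8, hm7]
  have z5 : w5 0 = A := by rw [hw5]; dsimp only; rw [z4, z7, hm5]
  have L : ∀ (m : ℝ) (u v : E), u ⬝ᵥ (m • (u ⨯₃ v)) = 0 := fun m u v => by
    rw [dotProduct_smul, dot_self_cross, smul_zero]
  have L' : ∀ (m : ℝ) (u v : E), v ⬝ᵥ (m • (u ⨯₃ v)) = 0 := fun m u v => by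
    rw [dotProduct_smul, dot_cross_self, smul_zero]
  have M : ∀ (m : ℝ) (u v : E), (m • (u ⨯₃ v)) ⬝ᵥ u = 0 := fun m u v => by
    rw [dotProduct_comm]; exact L m u v
  have M' : ∀ (m : ℝ) (u v : E), (m • (u ⨯₃ v)) ⬝ᵥ v = 0 := fun m u v => by
    rw [dotProduct_comm]; exact L' m u v
  refine ⟨a, w2, w3, w4, w5, w6, w7, w8, w9, ⟨P1.cont, P2.cont, P3.cont, P4.cont, P5.cont, P6.cont,
    P7.cont, P8.cont, P9.cont⟩, ⟨z1, z2, z3, z4, z5, z6, z7, z8, z9⟩, ?_, ?_⟩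
  · intro s
    refine ⟨⟨?_, L _ _ _, L _ _ _, L _ _ _, L _ _ _, L _ _ _, L _ _ _, M' _ _ _, L _ _ _, M _ _ _,
      M' _ _ _⟩, M' _ _ _, M' _ _ _, M' _ _ _, M' _ _ _, M' _ _ _⟩
    rw [ha]
    dsimp only
    rw [dotProduct_add, dotProduct_smul, dotProduct_smul, ZA, Z9, smul_zero, smul_zero, add_zero]
  · refine (P5.dot (PFv.const Z)).near ?_
    -- the value at `1`
    have o1 : a 1 = T9 := by rw [ha]; simp
    have oe : e 1 = H := by rw [he]; simp
    have o2 : w2 1 = m2 • (T9 ⨯₃ T2) := by rw [hw2]; dsimp only; rw [o1]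
    have o6 : w6 1 = m6 • (T9 ⨯₃ T6) := by rw [hw6]; dsimp only; rw [o1]
    have o3 : w3 1 = (m3 * m2) • T2 := by
      rw [hw3]; dsimp only
      rw [o2, oe, map_smul, LinearMap.smul_apply, cross_cross_eq_smul_sub_smul, hH9, hH2, one_smul,
        zero_smul, sub_zero, smul_smul]
    have o4 : w4 1 = (m4 * (m3 * m2)) • (T2 ⨯₃ T4) := by
      rw [hw4]; dsimp only
      rw [o3, map_smul, LinearMap.smul_apply, smul_smul]
    have o9 : w9 1 = (m9 * (m3 * m2)) • (T2 ⨯₃ T9) := by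
      rw [hw9]; dsimp only
      rw [o3, map_smul, LinearMap.smul_apply, smul_smul]
    have o8 : w8 1 = (m8 * (m6 * (m9 * (m3 * m2))) * ((T2 ⨯₃ T6) ⬝ᵥ T9)) • T9 := by
      rw [hw8]; dsimp only
      rw [o6, o9, cross_ss, cross_id, smul_smul, smul_smul]
    have o7 : w7 1 = (m7 * (m8 * (m6 * (m9 * (m3 * m2))) * ((T2 ⨯₃ T6) ⬝ᵥ T9))) • (T9 ⨯₃ T7) := by
      rw [hw7]; dsimp only
      rw [o8, map_smul, LinearMap.smul_apply, smul_smul]
    have o5 : w5 1 ⬝ᵥ Z = (m5 * (m4 * (m3 * m2) * (m7 * (m8 * (m6 * (m9 * (m3 * m2))) *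
        ((T2 ⨯₃ T6) ⬝ᵥ T9))))) * (((T2 ⨯₃ T4) ⨯₃ (T9 ⨯₃ T7)) ⬝ᵥ Z) := by
      rw [hw5]; dsimp only
      rw [o4, o7, cross_ss, smul_smul, smul_dotProduct, smul_eq_mul]
    have hX : ((T2 ⨯₃ T4) ⨯₃ (T9 ⨯₃ T7)) ⬝ᵥ Z ≠ 0 := by
      intro h0
      have h1 : (mq • ((T2 ⨯₃ T4) ⨯₃ (T9 ⨯₃ T7))) ⬝ᵥ Z = 0 := by
        rw [smul_dotProduct, h0, smul_zero]
      rw [← LinearMap.smul_apply, ← map_smul, hmq, cross_cross_eq_smul_sub_smul',
        sub_dotProduct, smul_dotProduct, smul_dotProduct, dotProduct_comm T9 Z, Z9, smul_zero,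
        zero_sub, neg_eq_zero, smul_eq_mul] at h1
      rcases mul_eq_zero.1 h1 with h | h
      · exact Q9 (by rw [dotProduct_comm]; exact h)
      · exact Z7 (by rw [dotProduct_comm]; exact h)
    show w5 1 ⬝ᵥ Z ≠ 0
    rw [o5]
    have h32 := mul_ne_zero m3n m2n
    exact mul_ne_zero (mul_ne_zero m5n (mul_ne_zero (mul_ne_zero m4n h32) (mul_ne_zero m7n
      (mul_ne_zero (mul_ne_zero m8n (mul_ne_zero m6n (mul_ne_zero m9n h32))) hD)))) hX

/-! ### The graph -/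

section
variable {V : Type} [Fintype V] [DecidableEq V] {G : SimpleGraph V} {side : V → Bool}
  {f t : ℕ → V} {ρ : V → E}

/-- `G` without the edge `x y` -/
def cutE (G : SimpleGraph V) (x y : V) : SimpleGraph V where
  Adj u v := G.Adj u v ∧ s(u, v) ≠ s(x, y)
  symm := ⟨fun _ _ h => ⟨h.1.symm, by rw [Sym2.eq_swap]; exact h.2⟩⟩
  loopless := ⟨fun _ h => h.1.ne rfl⟩

omit [Fintype V] [DecidableEq V] in
theorem cutE_le (G : SimpleGraph V) (x y : V) : cutE G x y ≤ G := fun _ _ h => h.1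

omit [Fintype V] in
theorem addE_cutE {x y : V} (h : G.Adj x y) : addE (cutE G x y) x y = G := by
  ext u v
  rw [addE_adj]
  constructor
  · rintro (h' | ⟨⟨rfl, rfl⟩ | ⟨rfl, rfl⟩, _⟩)
    · exact h'.1
    · exact h
    · exact h.symm
  · intro h'
    by_cases hs : s(u, v) = s(x, y)
    · right
      refine ⟨?_, h.ne⟩
      rw [Sym2.eq_iff] at hs
      exact hs
    · exact Or.inl ⟨h', hs⟩

/-- equilibrium at a vertex with at most two edges of nonzero weight -/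
theorem eq2 {F : SimpleGraph V} {κ : V → E} {ω : V → V → ℝ} (hω : Stress F κ ω) {v a b : V}
    (hab : a ≠ b) (hnp : Np (κ a) (κ b)) (h : ∀ u, ω v u ≠ 0 → u = a ∨ u = b) :
    ω v a = 0 ∧ ω v b = 0 := by
  have h1 : ω v a • κ a + ω v b • κ b = 0 := by
    rw [← Finset.sum_pair (f := fun u => ω v u • κ u) hab, ← hω.2.2 v]
    refine Finset.sum_subset (Finset.subset_univ _) ?_
    intro u _ hu
    by_cases h0 : ω v u = 0
    · rw [h0, zero_smul]
    · exfalso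
      apply hu
      rw [Finset.mem_insert, Finset.mem_singleton]
      exact h u h0
  have hnp' : Np (κ b) (κ a) := by
    intro h2
    apply hnp
    rw [← cross_anticomm, h2, neg_zero]
  exact ⟨prel_two hnp h1, prel_two hnp' (by rw [add_comm]; exact h1)⟩

theorem vx4 {i : ℕ} (h : i < pK4.m ∨ pK4.host (i - pK4.m) = true) : Vx pK4 i := PK.vx_of h

/-- vectors of different classes of the same type are not parallel -/
theorem np4 (hB : PBase G side pK4 pK4ts f t) (hS : Sep side ρ) {i j : ℕ} (hi : Vx pK4 i)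
    (hj : Vx pK4 j) (hij : i ≠ j) (hty : pK4.ty pK4ts i = pK4.ty pK4ts j) :
    Np (ρ (gx pK4 f t i)) (ρ (gx pK4 f t j)) :=
  hS.2 _ _ (fun h => hij (hB.inj _ _ hi hj h)) ((hB.sd i j hi hj).2 hty)

/-- non-adjacency in the quotient -/
theorem nadj4 (hB : PBase G side pK4 pK4ts f t) {a j : ℕ} (ha : a ∈ pK4.reps) (hj : Vx pK4 j)
    (hk : ∀ b ∈ pK4.kn a, Vx pK4 b ∧ b ≠ j) :
    ¬ (quot G (qmap pK4 f)).Adj (f a) (gx pK4 f t j) := by
  rw [hB.kadj a ha]
  rintro ⟨b, hb, hb'⟩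
  exact (hk b hb).2 (hB.inj _ _ (hk b hb).1 hj hb')

/-- the vertices whose class is the class `a` of a single vertex -/
theorem q_single (hB : PBase G side pK4 pK4ts f t) {a : ℕ} (ha : a < 10)
    (hc : ∀ i < 10, pK4.c i = a → i = a) {v : V} (h : qmap pK4 f v = f a) : v = f a := by
  by_cases hv : ∀ i < pK4.m, f i ≠ v
  · rwa [hB.qo v hv] at h
  · push Not at hv
    obtain ⟨i, hi, rfl⟩ := hv
    rw [PK.q_in pK4_wf hB hi] at h
    have h2 := hB.inj (pK4.c i) a (Or.inl (PK.c_le pK4_wf hi).1) (Or.inl ha)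
      (by rw [PK.gx_lt (PK.c_le pK4_wf hi).1, PK.gx_lt ha]; exact h)
    rw [hc i hi h2]

/-- `f 4` is not in the image of the quotient map -/
theorem q_ne4 (hB : PBase G side pK4 pK4ts f t) (v : V) : qmap pK4 f v ≠ f 4 := by
  intro h
  by_cases hv : ∀ i < pK4.m, f i ≠ v
  · rw [hB.qo v hv] at h
    exact hv 4 (by decide) h.symm
  · push Not at hv
    obtain ⟨i, hi, rfl⟩ := hv
    rw [PK.q_in pK4_wf hB hi] at h
    have h2 := hB.inj (pK4.c i) 4 (Or.inl (PK.c_le pK4_wf hi).1) (Or.inl (by decide))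
      (by rw [PK.gx_lt (PK.c_le pK4_wf hi).1, PK.gx_lt (by decide)]; exact h)
    have h3 : ∀ i < 10, pK4.c i ≠ 4 := by decide
    exact h3 i hi h2

theorem q_t {k : ℕ} (hE : Emb G pK4 f t) (hB : PBase G side pK4 pK4ts f t)
    (hk : pK4.host k = true) {v : V} (h : qmap pK4 f v = t k) : v = t k :=
  PK.q_out pK4_wf hB (fun i hi => (hE.out _ hk i hi).symm) h

/-- the zero pairs: a non-adjacent pair orthogonal at `κ` has K-adjacent classes or is `f 0, t 9` -/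
theorem zero_pair (hE : Emb G pK4 f t) (hB : PBase G side pK4 pK4ts f t)
    (hρ : K4Rho G side f t ρ) {x y : V} (hxy : side x ≠ side y)
    (h0 : (ρ ∘ qmap pK4 f) x ⬝ᵥ (ρ ∘ qmap pK4 f) y = 0) :
    (quot G (qmap pK4 f)).Adj (qmap pK4 f x) (qmap pK4 f y) ∨ s(x, y) = s(f 0, t 9) := by
  by_contra hcon
  push Not at hcon
  refine hρ.exact (qmap pK4 f x) (qmap pK4 f y) (by rw [hB.qs, hB.qs]; exact hxy) hcon.1
    (q_ne4 hB x) (q_ne4 hB y) ?_ h0
  intro hs
  apply hcon.2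
  have h00 : ∀ {v : V}, qmap pK4 f v = f 0 → v = f 0 := fun {v} h =>
    q_single hB (by decide) (by decide) h
  have h99 : ∀ {v : V}, qmap pK4 f v = t 9 → v = t 9 := fun {v} h => q_t hE hB (by decide) h
  rw [Sym2.eq_iff] at hs ⊢
  rcases hs with ⟨h1, h2⟩ | ⟨h1, h2⟩
  · exact Or.inl ⟨h00 h1, h99 h2⟩
  · exact Or.inr ⟨h99 h1, h00 h2⟩

/-- the supports of the equilibria used for `addE H (f 0) (t 9)` -/
def supL : ℕ → List ℕ
  | 0 => [1, 10, 19]
  | 5 => [4, 7]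
  | i => pK4.nx i

theorem side09 (hB : PBase G side pK4 pK4ts f t) : side (f 0) ≠ side (t 9) := by
  have h := (hB.sd 0 19 (Or.inl (by decide)) (vx4 (by decide)))
  intro h'
  exact absurd (h.1 h') (by decide)

theorem supp (hB : PBase G side pK4 pK4ts f t) {κ : V → E} {ω : V → V → ℝ}
    (hω : Stress (addE (cutE G (f 5) (f 0)) (f 0) (t 9)) κ ω) {i : ℕ} (hi : i < 10) {u : V}
    (hu : ω (f i) u ≠ 0) : ∃ j ∈ supL i, gx pK4 f t j = u := by
  have hadj : (addE (cutE G (f 5) (f 0)) (f 0) (t 9)).Adj (f i) u := by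
    by_contra h
    exact hu (hω.2.1 _ _ h)
  have hf : ∀ i < 10, ∀ j < 10, f i = f j → i = j := fun i hi j hj h =>
    hB.inj i j (Or.inl hi) (Or.inl hj) (by rw [PK.gx_lt hi, PK.gx_lt hj]; exact h)
  have h9 : ∀ i < 10, f i ≠ t 9 := fun i hi h => by
    have := hB.inj i 19 (Or.inl hi) (vx4 (by decide)) (by rw [PK.gx_lt hi]; exact h)
    omega
  rw [addE_adj] at hadj
  rcases hadj with ⟨hG, hs⟩ | ⟨⟨h1, h2⟩ | ⟨h1, h2⟩, -⟩
  · obtain ⟨j, hj, rfl⟩ := (hB.nbr i hi u).1 hG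
    by_cases hi0 : i = 0
    · subst hi0
      have h3 : pK4.nx 0 = [1, 5, 10] := by decide
      rw [h3] at hj
      simp only [List.mem_cons, List.not_mem_nil, or_false] at hj
      rcases hj with rfl | rfl | rfl
      · exact ⟨1, by simp [supL], rfl⟩
      · exact absurd Sym2.eq_swap hs
      · exact ⟨10, by simp [supL], rfl⟩
    · by_cases hi5 : i = 5
      · subst hi5
        have h3 : pK4.nx 5 = [0, 4, 7] := by decide
        rw [h3] at hj
        simp only [List.mem_cons, List.not_mem_nil, or_false] at hj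
        rcases hj with rfl | rfl | rfl
        · exact absurd rfl hs
        · exact ⟨4, by simp [supL], rfl⟩
        · exact ⟨7, by simp [supL], rfl⟩
      · refine ⟨j, ?_, rfl⟩
        have h3 : supL i = pK4.nx i := by
          unfold supL
          split
          · exact absurd rfl hi0
          · exact absurd rfl hi5
          · rfl
        rw [h3]
        exact hj
  · have h3 := hf i hi 0 (by omega) h1
    subst h3
    exact ⟨19, by simp [supL], h2.symm⟩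
  · exact absurd h1 (h9 i hi)

/-- one step of the propagation -/
theorem stepE (hB : PBase G side pK4 pK4ts f t) (hS : Sep side ρ) {ω : V → V → ℝ}
    (hω : Stress (addE (cutE G (f 5) (f 0)) (f 0) (t 9)) (ρ ∘ qmap pK4 f) ω) {i a b : ℕ}
    (hi : i < 10) (ha : Vx pK4 a) (hb : Vx pK4 b) (hab : pK4.cx a ≠ pK4.cx b)
    (hty : pK4.ty pK4ts (pK4.cx a) = pK4.ty pK4ts (pK4.cx b))
    (h0 : ∀ j ∈ supL i, j = a ∨ j = b ∨ ω (f i) (gx pK4 f t j) = 0) :
    ω (f i) (gx pK4 f t a) = 0 ∧ ω (f i) (gx pK4 f t b) = 0 := by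
  refine eq2 hω ?_ ?_ ?_
  · intro h
    exact hab (by rw [hB.inj a b ha hb h])
  · show Np (ρ (qmap pK4 f (gx pK4 f t a))) (ρ (qmap pK4 f (gx pK4 f t b)))
    rw [hB.qg a ha, hB.qg b hb]
    exact np4 hB hS (hB.cx a ha).1 (hB.cx b hb).1 hab hty
  · intro u hu
    obtain ⟨j, hj, rfl⟩ := supp hB hω hi hu
    rcases h0 j hj with rfl | rfl | h
    · exact Or.inl rfl
    · exact Or.inr rfl
    · exact absurd h hu

/-- `addE H (f 0) (t 9)` is stress-free -/
theorem freeH (hB : PBase G side pK4 pK4ts f t) (hS : Sep side ρ)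
    (hG : StressFree G (ρ ∘ qmap pK4 f)) :
    StressFree (addE (cutE G (f 5) (f 0)) (f 0) (t 9)) (ρ ∘ qmap pK4 f) := by
  intro ω hω
  have s5 := stepE hB hS hω (i := 5) (a := 4) (b := 7) (by decide) (vx4 (by decide))
    (vx4 (by decide)) (by decide) (by decide) (by
      have : supL 5 = [4, 7] := by decide
      rw [this]
      simp)
  have s4 := stepE hB hS hω (i := 4) (a := 3) (b := 14) (by decide) (vx4 (by decide))
    (vx4 (by decide)) (by decide) (by decide) (by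
      have : supL 4 = [3, 5, 14] := by decide
      rw [this]
      simp only [List.mem_cons, List.not_mem_nil, or_false]
      rintro j (rfl | rfl | rfl)
      · exact Or.inl rfl
      · exact Or.inr (Or.inr (by rw [hω.1]; exact s5.1))
      · exact Or.inr (Or.inl rfl))
  have s3 := stepE hB hS hω (i := 3) (a := 2) (b := 9) (by decide) (vx4 (by decide))
    (vx4 (by decide)) (by decide) (by decide) (by
      have : supL 3 = [2, 4, 9] := by decide
      rw [this]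
      simp only [List.mem_cons, List.not_mem_nil, or_false]
      rintro j (rfl | rfl | rfl)
      · exact Or.inl rfl
      · exact Or.inr (Or.inr (by rw [hω.1]; exact s4.1))
      · exact Or.inr (Or.inl rfl))
  have s2 := stepE hB hS hω (i := 2) (a := 1) (b := 12) (by decide) (vx4 (by decide))
    (vx4 (by decide)) (by decide) (by decide) (by
      have : supL 2 = [1, 3, 12] := by decide
      rw [this]
      simp only [List.mem_cons, List.not_mem_nil, or_false]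
      rintro j (rfl | rfl | rfl)
      · exact Or.inl rfl
      · exact Or.inr (Or.inr (by rw [hω.1]; exact s3.1))
      · exact Or.inr (Or.inl rfl))
  have s1 := stepE hB hS hω (i := 1) (a := 0) (b := 6) (by decide) (vx4 (by decide))
    (vx4 (by decide)) (by decide) (by decide) (by
      have : supL 1 = [0, 2, 6] := by decide
      rw [this]
      simp only [List.mem_cons, List.not_mem_nil, or_false]
      rintro j (rfl | rfl | rfl)
      · exact Or.inl rfl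
      · exact Or.inr (Or.inr (by rw [hω.1]; exact s2.1))
      · exact Or.inr (Or.inl rfl))
  have s0 := stepE hB hS hω (i := 0) (a := 10) (b := 19) (by decide) (vx4 (by decide))
    (vx4 (by decide)) (by decide) (by decide) (by
      have : supL 0 = [1, 10, 19] := by decide
      rw [this]
      simp only [List.mem_cons, List.not_mem_nil, or_false]
      rintro j (rfl | rfl | rfl)
      · exact Or.inr (Or.inr (by rw [hω.1]; exact s1.1))
      · exact Or.inl rfl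
      · exact Or.inr (Or.inl rfl))
  exact hG ω (Stress.mono (cutE_le _ _ _) (hω.of_addE s0.2))

/-- replace the vectors on the pattern -/
noncomputable def kM (f : ℕ → V) (κ : V → E) (W : ℕ → E) (v : V) : E :=
  open Classical in if h : ∃ i, i < 10 ∧ f i = v then W h.choose else κ v

theorem kM_in (hB : PBase G side pK4 pK4ts f t) {κ : V → E} {W : ℕ → E} {i : ℕ} (hi : i < 10) :
    kM f κ W (f i) = W i := by
  have h : ∃ j, j < 10 ∧ f j = f i := ⟨i, hi, rfl⟩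
  unfold kM
  rw [dif_pos h]
  congr 1
  have h2 := h.choose_spec
  exact hB.inj _ _ (Or.inl h2.1) (Or.inl hi) (by
    rw [PK.gx_lt (show h.choose < pK4.m from h2.1), PK.gx_lt (show i < pK4.m from hi)]
    exact h2.2)

omit [Fintype V] [DecidableEq V] in
theorem kM_out {κ : V → E} {W : ℕ → E} {v : V} (hv : ∀ i < 10, f i ≠ v) : kM f κ W v = κ v := by
  unfold kM
  rw [dif_neg]
  rintro ⟨i, hi, h⟩
  exact hv i hi h

/-- the vectors along the path -/
def wW (Z : E) (w1 w2 w3 w4 w5 w6 w7 w8 w9 : ℝ → E) (s : ℝ) : ℕ → E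
  | 0 => Z
  | 1 => w1 s
  | 2 => w2 s
  | 3 => w3 s
  | 4 => w4 s
  | 5 => w5 s
  | 6 => w6 s
  | 7 => w7 s
  | 8 => w8 s
  | 9 => w9 s
  | _ => 0

/-- points of `X_H` near `κ` with `f 0, t 9` orthogonal and `f 5, f 0` not orthogonal -/
theorem path (hL : Lev G side) (hE : Emb G pK4 f t) (hB : PBase G side pK4 pK4ts f t)
    (hρ : K4Rho G side f t ρ) (h09 : ρ (f 0) ⬝ᵥ ρ (t 9) = 0) :
    ∀ U ∈ 𝓝 (ρ ∘ qmap pK4 f), ∃ m ∈ U, Rlz (cutE G (f 5) (f 0)) m ∧ m (f 0) ⬝ᵥ m (t 9) = 0 ∧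
      m (f 5) ⬝ᵥ m (f 0) ≠ 0 := by
  intro U hU
  have hR : Rlz G (ρ ∘ qmap pK4 f) := fun u v huv => hρ.rlz _ _ (quot_adj hL.bip hB.qs huv)
  -- orthogonality
  have orth : ∀ i < 10, ∀ j ∈ pK4.nx i,
      ρ (gx pK4 f t (pK4.cx i)) ⬝ᵥ ρ (gx pK4 f t (pK4.cx j)) = 0 := by
    intro i hi j hj
    have h := hR (f i) (gx pK4 f t j) ((hB.nbr i hi _).2 ⟨j, hj, rfl⟩)
    have h1 := hB.qg i (Or.inl hi)
    have h2 := hB.qg j (hB.nxv i hi j hj)
    rw [PK.gx_lt hi] at h1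
    rw [← h1, ← h2]
    exact h
  have np : ∀ i j, Vx pK4 i → Vx pK4 j → i ≠ j → pK4.ty pK4ts i = pK4.ty pK4ts j →
      Np (ρ (gx pK4 f t i)) (ρ (gx pK4 f t j)) := fun i j hi hj hij hty =>
    np4 hB hρ.sep hi hj hij hty
  have nz : ∀ v, ρ v ≠ 0 := hρ.sep.1
  have hZ7 : ρ (f 0) ⬝ᵥ ρ (t 7) ≠ 0 := by
    refine hρ.exact _ _ ?_ ?_ ?_ ?_ ?_
    · intro h
      exact absurd ((hB.sd 0 17 (vx4 (by decide)) (vx4 (by decide))).1 h) (by decide)
    · refine nadj4 hB (a := 0) (j := 17) (by decide) (vx4 (by decide)) ?_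
      have h3 : pK4.kn 0 = [1, 10] := by decide
      rw [h3]
      simp only [List.mem_cons, List.not_mem_nil, or_false]
      rintro b (rfl | rfl)
      · exact ⟨vx4 (by decide), by decide⟩
      · exact ⟨vx4 (by decide), by decide⟩
    · intro h
      exact absurd (hE.inj 0 (by decide) 4 (by decide) h) (by decide)
    · exact hE.out 7 (by decide) 4 (by decide)
    · intro h
      rw [Sym2.eq_iff] at h
      rcases h with ⟨_, h⟩ | ⟨h, _⟩
      · exact hE.dis 7 9 (by decide) (by decide) (by decide) h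
      · exact hE.out 9 (by decide) 0 (by decide) h.symm
  have hQ9 : ρ (f 2) ⬝ᵥ ρ (t 9) ≠ 0 := by
    refine hρ.exact _ _ ?_ ?_ ?_ ?_ ?_
    · intro h
      exact absurd ((hB.sd 2 19 (vx4 (by decide)) (vx4 (by decide))).1 h) (by decide)
    · refine nadj4 hB (a := 2) (j := 19) (by decide) (vx4 (by decide)) ?_
      have h4 : ∀ b ∈ pK4.kn 2, (b < pK4.m ∨ pK4.host (b - pK4.m) = true) ∧ b ≠ 19 := by decide
      exact fun b hb => ⟨vx4 (h4 b hb).1, (h4 b hb).2⟩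
    · intro h
      exact absurd (hE.inj 2 (by decide) 4 (by decide) h) (by decide)
    · exact hE.out 9 (by decide) 4 (by decide)
    · intro h
      rw [Sym2.eq_iff] at h
      rcases h with ⟨h, _⟩ | ⟨h, _⟩
      · exact absurd (hE.inj 2 (by decide) 0 (by decide) h) (by decide)
      · exact hE.out 9 (by decide) 2 (by decide) h.symm
  obtain ⟨w1, w2, w3, w4, w5, w6, w7, w8, w9, ⟨c1, c2, c3, c4, c5, c6, c7, c8, c9⟩,
    ⟨z1, z2, z3, z4, z5, z6, z7, z8, z9⟩, hor, hne⟩ := deform (A := ρ (f 1)) (Q := ρ (f 2))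
      (R := ρ (f 6)) (N := ρ (f 9)) (B := ρ (f 3)) (Y := ρ (f 8)) (Z := ρ (f 0)) (T2 := ρ (t 2))
      (T4 := ρ (t 4)) (T6 := ρ (t 6)) (T7 := ρ (t 7)) (T9 := ρ (t 9))
      (nz _) (nz _) (nz _) (nz _) (nz _) (nz _)
      (np 1 12 (vx4 (by decide)) (vx4 (by decide)) (by decide) (by decide))
      (np 1 16 (vx4 (by decide)) (vx4 (by decide)) (by decide) (by decide))
      (np 2 9 (vx4 (by decide)) (vx4 (by decide)) (by decide) (by decide))
      (np 3 14 (vx4 (by decide)) (vx4 (by decide)) (by decide) (by decide))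
      (np 3 19 (vx4 (by decide)) (vx4 (by decide)) (by decide) (by decide))
      (np 6 9 (vx4 (by decide)) (vx4 (by decide)) (by decide) (by decide))
      (np 8 17 (vx4 (by decide)) (vx4 (by decide)) (by decide) (by decide))
      (np 2 6 (vx4 (by decide)) (vx4 (by decide)) (by decide) (by decide))
      (np 12 14 (vx4 (by decide)) (vx4 (by decide)) (by decide) (by decide))
      (np 19 12 (vx4 (by decide)) (vx4 (by decide)) (by decide) (by decide))
      (orth 1 (by decide) 2 (by decide)) (orth 1 (by decide) 6 (by decide))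
      (orth 2 (by decide) 12 (by decide)) (orth 6 (by decide) 16 (by decide))
      (orth 3 (by decide) 2 (by decide)) (orth 3 (by decide) 9 (by decide))
      (orth 4 (by decide) 14 (by decide)) (orth 9 (by decide) 19 (by decide))
      (orth 8 (by decide) 6 (by decide)) (orth 8 (by decide) 9 (by decide))
      (orth 7 (by decide) 17 (by decide)) (orth 0 (by decide) 1 (by decide)) h09 hZ7 hQ9 hρ.det
  set W : ℝ → ℕ → E := wW (ρ (f 0)) w1 w2 w3 w4 w5 w6 w7 w8 w9 with hW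
  set κ : V → E := ρ ∘ qmap pK4 f with hκ
  set M : ℝ → V → E := fun s => kM f κ (W s) with hM
  have hMin : ∀ s, ∀ i < 10, M s (f i) = W s i := fun s i hi => kM_in hB hi
  have hMt : ∀ s, ∀ h, pK4.host h = true → M s (t h) = ρ (t h) := by
    intro s h hh
    have h1 : M s (t h) = κ (t h) := kM_out (fun i hi => (hE.out h hh i hi).symm)
    rw [h1, hκ]
    show ρ (qmap pK4 f (t h)) = _
    rw [hB.qo (t h) (fun i hi => (hE.out h hh i hi).symm)]
  have hWc : ∀ i < 10, Continuous fun s => W s i := by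
    intro i hi
    interval_cases i
    · exact continuous_const
    · exact c1
    · exact c2
    · exact c3
    · exact c4
    · exact c5
    · exact c6
    · exact c7
    · exact c8
    · exact c9
  have hMc : Continuous M := by
    refine continuous_pi fun v => ?_
    by_cases hv : ∀ i < 10, f i ≠ v
    · have : (fun s => M s v) = fun _ => κ v := funext fun s => kM_out hv
      rw [this]
      exact continuous_const
    · push Not at hv
      obtain ⟨i, hi, rfl⟩ := hv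
      have : (fun s => M s (f i)) = fun s => W s i := funext fun s => hMin s i hi
      rw [this]
      exact hWc i hi
  have hM0 : M 0 = κ := by
    funext v
    by_cases hv : ∀ i < 10, f i ≠ v
    · exact kM_out hv
    · push Not at hv
      obtain ⟨i, hi, rfl⟩ := hv
      rw [hMin 0 i hi, hκ]
      show _ = ρ (qmap pK4 f (f i))
      rw [PK.q_in pK4_wf hB hi]
      interval_cases i
      · rfl
      · exact z1
      · exact z2
      · exact z3
      · exact z4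
      · exact z5
      · exact z6
      · exact z7
      · exact z8
      · exact z9
  have hed : ∀ s, ∀ a b, (a, b) ∈ pK4.es → ¬ (a = 0 ∧ b = 5) → W s a ⬝ᵥ W s b = 0 := by
    intro s a b hab hn
    obtain ⟨⟨h01, h12, h16, h23, h34, h39, h45, h57, h68, h78, h89⟩, -⟩ := hor s
    have hes : pK4.es = [(0,1),(0,5),(1,2),(1,6),(2,3),(3,4),(3,9),(4,5),(5,7),(6,8),(7,8),(8,9)] :=
      rfl
    rw [hes] at hab
    simp only [List.mem_cons, Prod.mk.injEq, List.not_mem_nil, or_false] at hab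
    rcases hab with ⟨rfl, rfl⟩ | ⟨rfl, rfl⟩ | ⟨rfl, rfl⟩ | ⟨rfl, rfl⟩ | ⟨rfl, rfl⟩ | ⟨rfl, rfl⟩ |
      ⟨rfl, rfl⟩ | ⟨rfl, rfl⟩ | ⟨rfl, rfl⟩ | ⟨rfl, rfl⟩ | ⟨rfl, rfl⟩ | ⟨rfl, rfl⟩
    · exact h01
    · exact absurd ⟨rfl, rfl⟩ hn
    · exact h12
    · exact h16
    · exact h23
    · exact h34
    · exact h39
    · exact h45
    · exact h57
    · exact h68
    · exact h78
    · exact h89
  have hat : ∀ s, ∀ h, pK4.host h = true → W s h ⬝ᵥ ρ (t h) = 0 := by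
    intro s h hh
    obtain ⟨-, h2, h4, h6, h7, h9⟩ := hor s
    have hlt : h < 10 := PK.host_lt hh
    interval_cases h
    · exact orth 0 (by decide) 10 (by decide)
    · exact absurd hh (by decide)
    · exact h2
    · exact absurd hh (by decide)
    · exact h4
    · exact absurd hh (by decide)
    · exact h6
    · exact h7
    · exact absurd hh (by decide)
    · exact h9
  have hkey : ∀ s, ∀ i < 10, ∀ j ∈ pK4.nx i, s(f i, gx pK4 f t j) ≠ s(f 5, f 0) →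
      M s (f i) ⬝ᵥ M s (gx pK4 f t j) = 0 := by
    intro s i hi j hj hs
    rw [hMin s i hi]
    rcases PB.mem_nx.1 hj with ⟨hj1, hj2⟩ | ⟨hh, rfl⟩
    · rw [PK.gx_lt hj1] at hs ⊢
      rw [hMin s j hj1]
      rcases PB.adj_es hj2 with h | h
      · refine hed s i j h ?_
        rintro ⟨rfl, rfl⟩
        exact hs Sym2.eq_swap
      · rw [dotProduct_comm]
        refine hed s j i h ?_
        rintro ⟨rfl, rfl⟩
        exact hs rfl
    · rw [PB.gx_host, hMt s i hh]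
      exact hat s i hh
  have hRlz : ∀ s, Rlz (cutE G (f 5) (f 0)) (M s) := by
    intro s u v huv
    obtain ⟨hG, hs⟩ := huv
    by_cases hu : ∀ i < 10, f i ≠ u
    · by_cases hv : ∀ i < 10, f i ≠ v
      · have h1 : M s u = κ u := kM_out hu
        have h2 : M s v = κ v := kM_out hv
        rw [h1, h2]
        exact hR u v hG
      · push Not at hv
        obtain ⟨i, hi, rfl⟩ := hv
        obtain ⟨j, hj, rfl⟩ := (hB.nbr i hi u).1 hG.symm
        rw [dotProduct_comm]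
        exact hkey s i hi j hj (by rw [Sym2.eq_swap]; exact hs)
    · push Not at hu
      obtain ⟨i, hi, rfl⟩ := hu
      obtain ⟨j, hj, rfl⟩ := (hB.nbr i hi v).1 hG
      exact hkey s i hi j hj hs
  have hUs : ∀ᶠ s in 𝓝[≠] (0 : ℝ), M s ∈ U := by
    have h1 : ∀ᶠ s in 𝓝 (0 : ℝ), M s ∈ U := by
      have h2 : Filter.Tendsto M (𝓝 0) (𝓝 (M 0)) := hMc.continuousAt
      rw [hM0] at h2
      exact h2 hU
    exact h1.filter_mono nhdsWithin_le_nhds
  obtain ⟨s, hs1, hs2⟩ := (hUs.and hne).exists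
  refine ⟨M s, hs1, hRlz s, ?_, ?_⟩
  · rw [hMin s 0 (by omega), hMt s 9 (by decide)]
    exact h09
  · rw [hMin s 0 (by omega), hMin s 5 (by omega)]
    exact hs2

end

end K4L

open K4L in
theorem k4Kill : K4KillStmt := by
  intro V _ _ G side f t ρ hL hE hB hρ hfree hkill hA hO hK
  have hR : Rlz G (ρ ∘ qmap pK4 f) := fun u v huv => hρ.rlz _ _ (quot_adj hL.bip hB.qs huv)
  have hnz : ∀ v, (ρ ∘ qmap pK4 f) v ≠ 0 := fun v => hρ.sep.1 _
  have hdeg : ∀ v, 2 ≤ dg G univ v := fun v => by rw [hL.cubic]; norm_num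
  have hq0 : qmap pK4 f (f 0) = f 0 := by
    rw [PK.q_in pK4_wf hB (by decide)]
    rfl
  have hq9 : qmap pK4 f (t 9) = t 9 :=
    hB.qo (t 9) (fun i hi => (hE.out 9 (by decide) i hi).symm)
  by_cases h09 : ρ (f 0) ⬝ᵥ ρ (t 9) = 0
  · have h50 : G.Adj (f 5) (f 0) := (hE.adj (0, 5) (by decide)).symm
    have hnadj09 : ¬ G.Adj (f 0) (t 9) := by
      rw [hB.nbr 0 (by decide)]
      rintro ⟨j, hj, hj'⟩
      have h1 := hB.inj j 19 (hB.nxv 0 (by decide) j hj) (vx4 (by decide)) hj'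
      subst h1
      exact absurd hj (by decide)
    have h59 : f 5 ≠ t 9 := (hE.out 9 (by decide) 5 (by decide)).symm
    have h05 : f 0 ≠ f 5 := fun h => absurd (hE.inj 0 (by decide) 5 (by decide) h) (by decide)
    have hs : s(f 5, f 0) ≠ s(f 0, t 9) := by
      intro h
      rw [Sym2.eq_iff] at h
      rcases h with ⟨h, _⟩ | ⟨h, _⟩
      · exact h05 h.symm
      · exact h59 h
    have hdot9 : (ρ ∘ qmap pK4 f) (f 0) ⬝ᵥ (ρ ∘ qmap pK4 f) (t 9) = 0 := by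
      show ρ (qmap pK4 f (f 0)) ⬝ᵥ ρ (qmap pK4 f (t 9)) = 0
      rw [hq0, hq9]
      exact h09
    have hadd : addE (cutE G (f 5) (f 0)) (f 5) (f 0) = G := addE_cutE h50
    -- Lemma A
    have hLA := hA V (cutE G (f 5) (f 0)) side (ρ ∘ qmap pK4 f) (f 5) (f 0) (f 0) (t 9)
      (fun u v h => hL.bip u v h.1) (hL.bip _ _ h50) (side09 hB) (fun h => h.2 rfl)
      (fun h => hnadj09 h.1) hs (fun u v h => hR u v h.1) (hR _ _ h50) hdot9
      (by rw [hadd]; exact hfree) (freeH hB hρ.sep hfree) (path hL hE hB hρ h09)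
    -- the neighbourhood
    have hopen : IsOpen ({m : V → E | ∀ v, m v ≠ 0} ∩
        ({m : V → E | ∀ x y, (ρ ∘ qmap pK4 f) x ⬝ᵥ (ρ ∘ qmap pK4 f) y ≠ 0 → m x ⬝ᵥ m y ≠ 0} ∩
        {m : V → E | ∀ x y, side x ≠ side y → ¬ G.Adj x y →
          (quot G (qmap pK4 f)).Adj (qmap pK4 f x) (qmap pK4 f y) →
          StressFree (addE G x y) m})) := by
      refine IsOpen.inter ?_ (IsOpen.inter (MK.isOpen_nz _) ?_)
      · simp only [Set.ofPred_forall]
        exact isOpen_iInter_of_finite fun v => isOpen_ne_fun (continuous_apply v) continuous_const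
      · simp only [Set.ofPred_forall]
        refine isOpen_iInter_of_finite fun x => isOpen_iInter_of_finite fun y =>
          isOpen_iInter_of_finite fun hxy => isOpen_iInter_of_finite fun _ =>
          isOpen_iInter_of_finite fun _ => hO V (addE G x y) side (MK.bip_addE hL.bip hxy)
    obtain ⟨m, ⟨hm0, hmnz, hmf⟩, hmR, hm50, hm09⟩ := hLA _
      (hopen.mem_nhds ⟨hnz, fun _ _ h => h, hkill⟩)
    have hmG : Rlz G m := by
      intro u v huv
      rw [← hadd, addE_adj] at huv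
      rcases huv with h | ⟨⟨rfl, rfl⟩ | ⟨rfl, rfl⟩, _⟩
      · exact hmR u v h
      · exact hm50
      · rw [dotProduct_comm]
        exact hm50
    refine hK V G side hL.bip hL.noC4 hdeg m hm0 hmG ?_
    intro x y hxy hn h0
    have hκ0 : (ρ ∘ qmap pK4 f) x ⬝ᵥ (ρ ∘ qmap pK4 f) y = 0 := by
      by_contra h
      exact hmnz x y h h0
    rcases zero_pair hE hB hρ hxy hκ0 with h | h
    · exact hmf x y hxy hn h
    · exfalso
      rw [Sym2.eq_iff] at h
      rcases h with ⟨rfl, rfl⟩ | ⟨rfl, rfl⟩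
      · exact hm09 h0
      · exact hm09 (by rw [dotProduct_comm]; exact h0)
  · refine hK V G side hL.bip hL.noC4 hdeg (ρ ∘ qmap pK4 f) hnz hR ?_
    intro x y hxy hn h0
    rcases zero_pair hE hB hρ hxy h0 with h | h
    · exact hkill x y hxy hn h
    · exfalso
      apply h09
      have h1 : ρ (qmap pK4 f x) ⬝ᵥ ρ (qmap pK4 f y) = 0 := h0
      rw [Sym2.eq_iff] at h
      rcases h with ⟨rfl, rfl⟩ | ⟨rfl, rfl⟩
      · rw [hq0, hq9] at h1
        exact h1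
      · rw [hq0, hq9] at h1
        rw [dotProduct_comm]
        exact h1

/-- the subdivided `K₄` -/
theorem k4 (hRho : K4RhoStmt) (hPB : PBaseStmt) (hPT : PT2Stmt) (hPD : PTwoDegStmt)
    (hPP : PPropStmt) (hPR : PRelStmt) (hA : LemmaAStmt) (hO : SFOpenStmt) (hK : KillStmt) :
    K4Stmt := by
  intro V _ _ G side hL h5 f t hE hstar
  have hB := hPB V G side pK4 pK4ts f t hL pK4_wf hE
  have hT := hPT V G side pK4 pK4ts f t hL h5 pK4_wf hB hE.dis
  obtain ⟨h2, h3⟩ := hPD V G side pK4 pK4ts pK4P [(0, 19)] f t hL pK4_wf hB hT pK4_peel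
  obtain ⟨ρ, hρ⟩ := hRho V G side f t hL h5 hE hB hT h2 (fun x y hxy hadj hs => h3 x y hxy hadj (by
    intro e he
    rw [List.mem_singleton] at he
    subst he
    exact hs)) hstar
  obtain ⟨hf1, hf2⟩ := pKill0 hPP hPR V G side pK4 pK4ts pK4K f t ρ hL pK4_wf hB hρ.rlz hρ.sep
    hρ.free pK4_kill rfl
  exact k4Kill V G side f t ρ hL hE hB hρ hf1 hf2 hA hO hK

end N3
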