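import Pool.Agent.Lib_n3.StmtsGlue
import Pool.Agent.Lib_n3.Core
import Pool.Agent.Lib_n3.Cuts
import Pool.Agent.Lib_n3.ResExact

/-!
# Module NoFourth: a fourth vertex on the line of two cut ends can be avoided (MP_07e12a_co)
-/

open scoped Matrix Topology
open Finset

namespace N3

namespace NF

/-- `a × b = 0`, `a ≠ 0`, `a ⬝ c = 0` give `b ⬝ c = 0` -/
lemma dot_of_cross {a b c : E} (h : crossProduct a b = 0) (ha : a ≠ 0) (hac : a ⬝ᵥ c = 0) :
    b ⬝ᵥ c = 0 := by
  have h1 := cross_cross_eq_smul_sub_smul a b c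
  rw [h, hac] at h1
  simp only [map_zero, LinearMap.zero_apply, zero_smul, zero_sub] at h1
  have h2 : (b ⬝ᵥ c) • a = 0 := by
    have := h1.symm
    rwa [neg_eq_zero] at this
  exact (smul_eq_zero.1 h2).resolve_right ha

/-- a vector orthogonal to `x` and `y` is parallel to `x × y` -/
lemma perp_of_det {x y z q : E} (hxy : Np x y) (hxz : x ⬝ᵥ z = 0) (hyz : y ⬝ᵥ z = 0)
    (hq : crossProduct x y ⬝ᵥ q = 0) : z ⬝ᵥ q = 0 := by
  have h1 : crossProduct (crossProduct x y) z = 0 := by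
    rw [cross_cross_eq_smul_sub_smul, hxz, hyz, zero_smul, zero_smul, sub_zero]
  exact dot_of_cross h1 hxy hq

lemma det3_eq (x y q : E) : det3 x y q = crossProduct x y ⬝ᵥ q := by
  simp [det3, cross_apply, dotProduct, Fin.sum_univ_three]
  ring

/-- a vector not orthogonal to finitely many given nonzero vectors -/
lemma generic {ι : Type} [Finite ι] (t : ι → E) (ht : ∀ i, t i ≠ 0) : ∃ x : E, ∀ i, x ⬝ᵥ t i ≠ 0 := by
  obtain ⟨f, hf⟩ := Module.exists_dual_forall_apply_ne_zero (K := ℝ) t ht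
  refine ⟨fun j => f (Pi.single j 1), fun i => ?_⟩
  have : f (t i) = (fun j => f (Pi.single j 1)) ⬝ᵥ t i := by
    conv_lhs => rw [pi_eq_sum_univ' (t i)]
    simp only [map_sum, map_smul, dotProduct, smul_eq_mul]
    refine Finset.sum_congr rfl fun j _ => ?_
    rw [mul_comm]
  rw [← this]
  exact hf i

lemma exists_cross {w : E} (hw : w ≠ 0) : ∃ e : E, crossProduct w e ≠ 0 := by
  by_contra hcon
  push Not at hcon
  have h0 := hcon ![1, 0, 0]
  have h1 := hcon ![0, 1, 0]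
  apply hw
  have a1 := congrFun h0 1
  have a2 := congrFun h0 2
  have b0 := congrFun h1 2
  simp [cross_apply] at a1 a2 b0
  funext i
  fin_cases i
  · exact b0
  · exact a2
  · exact a1

/-- a vector neither orthogonal to the `t i` nor parallel to the `r j` -/
lemma generic2 {ι κ : Type} [Finite ι] [Finite κ] (t : ι → E) (ht : ∀ i, t i ≠ 0) (r : κ → E)
    (hr : ∀ i, r i ≠ 0) : ∃ x : E, (∀ i, x ⬝ᵥ t i ≠ 0) ∧ ∀ j, Np x (r j) := by
  choose e he using fun j => exists_cross (hr j)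
  obtain ⟨x, hx⟩ := generic (fun s : ι ⊕ κ => Sum.elim t (fun j => crossProduct (r j) (e j)) s) (by
    rintro (i | j)
    · exact ht i
    · exact he j)
  refine ⟨x, fun i => hx (Sum.inl i), fun j h => hx (Sum.inr j) ?_⟩
  have h1 : det3 x (r j) (e j) = 0 := by
    rw [det3_eq, h, zero_dotProduct]
  exact h1

lemma np_symm {a b : E} (h : Np a b) : Np b a := by
  intro h0
  apply h
  rw [← neg_eq_zero, cross_anticomm]
  exact h0

lemma sep_update {V : Type} [DecidableEq V] {side : V → Bool} {ρ : V → E} (h : Sep side ρ) {v : V}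
    {x : E} (hx : x ≠ 0) (hw : ∀ w, w ≠ v → side w = side v → Np x (ρ w)) :
    Sep side (Function.update ρ v x) := by
  refine ⟨?_, ?_⟩
  · intro u
    by_cases huv : u = v
    · subst huv; simpa using hx
    · rw [Function.update_of_ne huv]; exact h.1 u
  · intro u u' huu' hss
    by_cases huv : u = v
    · subst huv
      rw [Function.update_self, Function.update_of_ne huu'.symm]
      exact hw u' huu'.symm hss.symm
    · by_cases hu'v : u' = v
      · subst hu'v
        rw [Function.update_self, Function.update_of_ne huv]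
        exact np_symm (hw u huv hss)
      · rw [Function.update_of_ne huv, Function.update_of_ne hu'v]
        exact h.2 u u' huu' hss

section
variable {V : Type} [Fintype V] [DecidableEq V]

open Classical in
lemma dg_pos {G : SimpleGraph V} {T : Finset V} {v w : V} (hw : w ∈ T) (h : G.Adj v w) :
    1 ≤ dg G T v := by
  unfold dg
  exact Finset.card_pos.2 ⟨w, by simp [hw, h]⟩

open Classical in
lemma dg_zero {G : SimpleGraph V} {T : Finset V} {v : V} (h : ∀ w ∈ T, ¬ G.Adj v w) :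
    dg G T v = 0 := by
  unfold dg
  rw [Finset.card_eq_zero, Finset.filter_eq_empty_iff]
  exact fun w hw => h w hw

open Classical in
lemma dg_le_one {G : SimpleGraph V} {T : Finset V} {v w : V} (h : ∀ u ∈ T, G.Adj v u → u = w) :
    dg G T v ≤ 1 := by
  unfold dg
  refine (Finset.card_le_card (t := {w}) ?_).trans (by simp)
  intro u hu
  rw [Finset.mem_filter] at hu
  rw [Finset.mem_singleton]
  exact h u hu.1 hu.2

lemma dg_sdiff (G : SimpleGraph V) {A S : Finset V} (h : S ⊆ A) (v : V) :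
    dg G (A \ S) v + dg G S v = dg G A v := by
  rw [dg_eq, dg_eq, dg_eq]
  exact Finset.sum_sdiff h

open Classical in
lemma le_dg {G : SimpleGraph V} {T N : Finset V} {v : V} (h : ∀ u ∈ N, u ∈ T ∧ G.Adj v u) :
    N.card ≤ dg G T v := by
  unfold dg
  refine Finset.card_le_card ?_
  intro u hu
  rw [Finset.mem_filter]
  exact h u hu

lemma sum_single_le (S : Finset V) (p : V) : ∑ v ∈ S, (if v = p then 1 else 0) ≤ 1 := by
  rw [← Finset.card_filter]
  refine (Finset.card_le_card (t := {p}) ?_).trans (by simp)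
  intro u hu
  rw [Finset.mem_filter] at hu
  rw [Finset.mem_singleton]
  exact hu.2

/-- `res G A` with two edges from `b₀` -/
abbrev FF (G : SimpleGraph V) (A : Finset V) (b₀ a₀ a₁ : V) : SimpleGraph V :=
  addE (addE (res G A) b₀ a₀) b₀ a₁

lemma FF_adj (G : SimpleGraph V) (A : Finset V) {b₀ a₀ a₁ : V} {u v : V} :
    (FF G A b₀ a₀ a₁).Adj u v ↔ ((res G A).Adj u v ∨
      ((u = b₀ ∧ v = a₀ ∨ u = a₀ ∧ v = b₀) ∧ b₀ ≠ a₀)) ∨
      ((u = b₀ ∧ v = a₁ ∨ u = a₁ ∧ v = b₀) ∧ b₀ ≠ a₁) := by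
  rw [addE_adj, addE_adj]

/-- a stress that vanishes at `b₀` -/
lemma stress_res {G : SimpleGraph V} {A : Finset V} {b₀ a₀ a₁ x y : V} {ρ : V → E} {ω : V → V → ℝ}
    (hω : Stress (addE (FF G A b₀ a₀ a₁) x y) ρ ω) (h0 : ∀ u, ω b₀ u = 0) :
    Stress (addE (res G A) x y) ρ ω := by
  refine ⟨hω.1, ?_, hω.2.2⟩
  intro u v huv
  by_cases h : (addE (FF G A b₀ a₀ a₁) x y).Adj u v
  · rw [addE_adj, FF_adj] at h
    rw [addE_adj] at huv
    rcases h with ((h | ⟨⟨rfl, rfl⟩ | ⟨rfl, rfl⟩, _⟩) | ⟨⟨rfl, rfl⟩ | ⟨rfl, rfl⟩, _⟩) | h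
    · exact absurd (Or.inl h) huv
    · exact h0 _
    · rw [hω.1]; exact h0 _
    · exact h0 _
    · rw [hω.1]; exact h0 _
    · exact absurd (Or.inr h) huv
  · exact hω.2.1 u v h

/-- zero pairs not involving `b₀` are killed -/
lemma claimA (hCore : CoreStmt) (hTF : TwoDegFreeStmt) {G : SimpleGraph V} {side : V → Bool}
    (hL : Lev G side) {A : Finset V} (hA : A ≠ univ) {b₀ a₀ a₁ : V} (hb₀ : b₀ ∉ A)
    (h0 : side b₀ ≠ side a₀) (h1 : side b₀ ≠ side a₁) {ρ : V → E} (hρ : Sep side ρ) {x y : V}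
    (hxy : side x ≠ side y) (hx : x ≠ b₀) (hy : y ≠ b₀) :
    StressFree (addE (FF G A b₀ a₀ a₁) x y) ρ := by
  classical
  intro ω hω
  have hB : Bip (addE (FF G A b₀ a₀ a₁) x y) side :=
    (((bip_res hL.bip A).addE h0).addE h1).addE hxy
  have hz : ∀ u, ω b₀ u = 0 := by
    intro u
    by_contra hu
    have h3 := hCore V _ side ρ hB hρ ω hω b₀ u hu
    have hsub : (univ.filter (fun w => ω b₀ w ≠ 0)) ⊆ {a₀, a₁} := by
      intro w hw
      simp only [mem_filter, mem_univ, true_and] at hw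
      have hadj : (addE (FF G A b₀ a₀ a₁) x y).Adj b₀ w := by
        by_contra hcon
        exact hw (hω.2.1 _ _ hcon)
      rw [addE_adj, FF_adj] at hadj
      simp only [mem_insert, mem_singleton]
      rcases hadj with ((h | ⟨⟨_, h⟩ | ⟨h, h'⟩, h''⟩) | ⟨⟨_, h⟩ | ⟨h, h'⟩, h''⟩) | ⟨⟨h, _⟩ | ⟨h, _⟩, _⟩
      · exact absurd h.2.1 hb₀
      · exact Or.inl h
      · exact absurd h h''
      · exact Or.inr h
      · exact absurd h h''
      · exact absurd h.symm hx
      · exact absurd h.symm hy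
    have := (Finset.card_le_card hsub).trans Finset.card_le_two
    omega
  exact hTF V _ side ρ ((bip_res hL.bip A).addE hxy) hρ (twoDeg_addE_res G side hL A hA x y) ω
    (stress_res hω hz)

/-- zero pairs at `b₀` are killed -/
lemma claimB (hCore : CoreStmt) (hTF : TwoDegFreeStmt) {G : SimpleGraph V} {side : V → Bool}
    (hL : Lev G side) {A : Finset V} (hA : A ≠ univ) {a b : Fin 3 → V}
    (ha : Function.Injective a) (hab : ∀ i, a i ∈ A ∧ b i ∉ A ∧ G.Adj (a i) (b i))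
    (hcut : ∀ u ∈ A, ∀ v ∉ A, G.Adj u v → ∃ i, u = a i ∧ v = b i)
    (h0 : side (b 0) ≠ side (a 0)) (h1 : side (b 0) ≠ side (a 1)) {ρ : V → E} (hρ : Sep side ρ)
    {p : V} (hpA : p ∈ A) (hpa : ∀ i, p ≠ a i) (hp : side (b 0) ≠ side p) :
    StressFree (addE (FF G A (b 0) (a 0) (a 1)) (b 0) p) ρ := by
  classical
  have h01 : a 0 ≠ a 1 := fun h => by have := ha h; revert this; decide
  have h02 : a 0 ≠ a 2 := fun h => by have := ha h; revert this; decide
  have h12 : a 1 ≠ a 2 := fun h => by have := ha h; revert this; decide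
  have hb₀ : b 0 ∉ A := (hab 0).2.1
  have hbA : ∀ v ∈ A, v ≠ b 0 := fun v hv h => hb₀ (h ▸ hv)
  intro ω hω
  have hB : Bip (addE (FF G A (b 0) (a 0) (a 1)) (b 0) p) side :=
    (((bip_res hL.bip A).addE h0).addE h1).addE hp
  by_cases hz : ∀ u, ω (b 0) u = 0
  · exact hTF V _ side ρ ((bip_res hL.bip A).addE hp) hρ (twoDeg_addE_res G side hL A hA _ _) ω
      (stress_res hω hz)
  exfalso
  push Not at hz
  obtain ⟨u₀, hu₀⟩ := hz
  -- adjacency of supported pairs
  have hadj : ∀ v w, ω v w ≠ 0 → G.Adj v w ∧ v ∈ A ∧ w ∈ A ∨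
      v = b 0 ∧ (w = a 0 ∨ w = a 1 ∨ w = p) ∨ w = b 0 ∧ (v = a 0 ∨ v = a 1 ∨ v = p) := by
    intro v w hvw
    have h : (addE (FF G A (b 0) (a 0) (a 1)) (b 0) p).Adj v w := by
      by_contra hcon
      exact hvw (hω.2.1 _ _ hcon)
    rw [addE_adj, FF_adj] at h
    rcases h with ((h | ⟨⟨h, h'⟩ | ⟨h, h'⟩, _⟩) | ⟨⟨h, h'⟩ | ⟨h, h'⟩, _⟩) | ⟨⟨h, h'⟩ | ⟨h, h'⟩, _⟩
    · exact Or.inl h
    · exact Or.inr (Or.inl ⟨h, Or.inl h'⟩)
    · exact Or.inr (Or.inr ⟨h', Or.inl h⟩)
    · exact Or.inr (Or.inl ⟨h, Or.inr (Or.inl h')⟩)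
    · exact Or.inr (Or.inr ⟨h', Or.inr (Or.inl h)⟩)
    · exact Or.inr (Or.inl ⟨h, Or.inr (Or.inr h')⟩)
    · exact Or.inr (Or.inr ⟨h', Or.inr (Or.inr h)⟩)
  set N : V → Finset V := fun v => univ.filter (fun w => ω v w ≠ 0) with hN
  have memN : ∀ v w, w ∈ N v ↔ ω v w ≠ 0 := by
    intro v w
    simp [hN]
  have hN3 : ∀ v w, ω v w ≠ 0 → 3 ≤ (N v).card := fun v w h => by
    have := hCore V _ side ρ hB hρ ω hω v w h
    convert this
  set S : Finset V := (univ.filter (fun v => ∃ u, ω v u ≠ 0)).erase (b 0) with hS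
  have memS : ∀ v, v ∈ S ↔ v ≠ b 0 ∧ ∃ u, ω v u ≠ 0 := by
    intro v
    simp [hS]
  have hSA : S ⊆ A := by
    intro v hv
    obtain ⟨hvb, u, hu⟩ := (memS v).1 hv
    rcases hadj v u hu with h | ⟨h, _⟩ | ⟨_, h | h | h⟩
    · exact h.2.1
    · exact absurd h hvb
    · rw [h]; exact (hab 0).1
    · rw [h]; exact (hab 1).1
    · rw [h]; exact hpA
  -- the support contains `a 0`, `a 1`, `p`
  have hNb : ∀ w ∈ ({a 0, a 1, p} : Finset V), w ∈ N (b 0) := by
    have hsub : N (b 0) ⊆ {a 0, a 1, p} := by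
      intro w hw
      simp only [mem_insert, mem_singleton]
      rcases hadj (b 0) w ((memN _ _).1 hw) with h | ⟨_, h⟩ | ⟨h, h'⟩
      · exact absurd h.2.1 hb₀
      · exact h
      · rcases h' with h' | h' | h'
        · exact absurd h'.symm (hbA _ (hab 0).1)
        · exact absurd h'.symm (hbA _ (hab 1).1)
        · exact absurd h'.symm (hbA _ hpA)
    have hc : ({a 0, a 1, p} : Finset V).card ≤ (N (b 0)).card :=
      (Finset.card_le_three).trans (hN3 _ _ hu₀)
    have := Finset.eq_of_subset_of_card_le hsub hc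
    intro w hw
    rw [this]; exact hw
  have hωs : ∀ v w, ω v w ≠ 0 → ω w v ≠ 0 := fun v w h => by rw [hω.1]; exact h
  have hSmem : ∀ w ∈ ({a 0, a 1, p} : Finset V), w ∈ A → w ∈ S := by
    intro w hw hwA
    exact (memS w).2 ⟨hbA w hwA, b 0, hωs _ _ ((memN _ _).1 (hNb w hw))⟩
  have hS0 : a 0 ∈ S := hSmem _ (by simp) (hab 0).1
  have hS1 : a 1 ∈ S := hSmem _ (by simp) (hab 1).1
  have hSp : p ∈ S := hSmem _ (by simp) hpA
  -- degrees in `S`
  have hdeg3 : ∀ v ∈ S, v ≠ a 0 → v ≠ a 1 → v ≠ p → 3 ≤ dg G S v := by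
    intro v hv hv0 hv1 hvp
    obtain ⟨hvb, u, hu⟩ := (memS v).1 hv
    refine (hN3 v u hu).trans (le_dg ?_)
    intro w hw
    rw [memN] at hw
    rcases hadj v w hw with h | ⟨h, _⟩ | ⟨_, h | h | h⟩
    · exact ⟨(memS w).2 ⟨hbA w h.2.2, v, hωs _ _ hw⟩, h.1⟩
    · exact absurd h hvb
    · exact absurd h hv0
    · exact absurd h hv1
    · exact absurd h hvp
  have hdeg2 : ∀ v ∈ S, 2 ≤ dg G S v := by
    intro v hv
    obtain ⟨hvb, u, hu⟩ := (memS v).1 hv
    have h3 := hN3 v u hu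
    have h4 : (N v).card ≤ ((N v).erase (b 0)).card + 1 := by
      have := Finset.pred_card_le_card_erase (s := N v) (a := b 0)
      omega
    have h5 : ((N v).erase (b 0)).card ≤ dg G S v := by
      refine le_dg ?_
      intro w hw
      rw [mem_erase, memN] at hw
      rcases hadj v w hw.2 with h | ⟨h, _⟩ | ⟨h, _⟩
      · exact ⟨(memS w).2 ⟨hw.1, v, hωs _ _ hw.2⟩, h.1⟩
      · exact absurd h hvb
      · exact absurd h hw.1
    omega
  -- `a 2` is not in `S`
  have hsum : ∀ v, dg G (A \ S) v + dg G S v + dg G Aᶜ v = 3 := by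
    intro v
    rw [dg_sdiff G hSA v, dg_compl, hL.cubic v]
  have hout : ∀ i, 1 ≤ dg G Aᶜ (a i) := fun i =>
    dg_pos (Finset.mem_compl.2 (hab i).2.1) (hab i).2.2
  have hS2 : a 2 ∉ S := by
    intro h
    have h3 := hdeg3 (a 2) h h02.symm h12.symm (hpa 2).symm
    have := hsum (a 2)
    have := hout 2
    omega
  -- the cut of `A \ S`
  have hc1 : ed G (A \ S) Aᶜ ≤ 1 := by
    unfold ed
    refine (Finset.sum_le_sum (g := fun v => if v = a 2 then 1 else 0) ?_).trans
      (sum_single_le _ _)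
    intro v hv
    rw [mem_sdiff] at hv
    have key : ∀ w ∈ Aᶜ, G.Adj v w → v = a 2 ∧ w = b 2 := by
      intro w hw h
      obtain ⟨i, hi, hi'⟩ := hcut v hv.1 w (Finset.mem_compl.1 hw) h
      fin_cases i
      · exact absurd (hi ▸ hS0 : v ∈ S) hv.2
      · exact absurd (hi ▸ hS1 : v ∈ S) hv.2
      · exact ⟨hi, hi'⟩
    by_cases hv2 : v = a 2
    · simp only [hv2, if_true]
      exact dg_le_one (w := b 2) (fun w hw h => (key w hw (hv2 ▸ h)).2)
    · simp only [hv2, if_false]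
      rw [dg_zero]
      intro w hw h
      exact hv2 (key w hw h).1
  have hc2 : ed G (A \ S) S ≤ 1 := by
    rw [ed_comm]
    unfold ed
    refine (Finset.sum_le_sum (g := fun v => if v = p then 1 else 0) ?_).trans
      (sum_single_le _ _)
    intro v hv
    have h1 := hsum v
    have h2 := hdeg2 v hv
    by_cases hvp : v = p
    · simp only [hvp, if_true]
      rw [hvp] at h1 h2
      omega
    · simp only [hvp, if_false]
      by_cases hv0 : v = a 0
      · have := hout 0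
        rw [hv0] at h1 h2 ⊢
        omega
      · by_cases hv1 : v = a 1
        · have := hout 1
          rw [hv1] at h1 h2 ⊢
          omega
        · have := hdeg3 v hv hv0 hv1 hvp
          omega
  have hcompl : (A \ S)ᶜ = Aᶜ ∪ S := by
    ext v
    simp only [mem_compl, mem_sdiff, mem_union]
    tauto
  have hdisj : Disjoint Aᶜ S := by
    rw [Finset.disjoint_left]
    intro v hv hv'
    exact (Finset.mem_compl.1 hv) (hSA hv')
  have hcutle : cut G (A \ S) ≤ 2 := by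
    unfold cut
    rw [hcompl, ed_union_right _ _ _ _ hdisj]
    omega
  have := hL.c3 (A \ S) ⟨a 2, by simp [(hab 2).1, hS2]⟩ ⟨b 0, by simp [hb₀]⟩
  omega

end

/-- three vectors with a vector orthogonal to the first two only -/
lemma linInd {x : Fin 3 → E} {l : E} (h01 : Np (x 0) (x 1)) (h0 : x 0 ⬝ᵥ l = 0) (h1 : x 1 ⬝ᵥ l = 0)
    (h2 : x 2 ⬝ᵥ l ≠ 0) : LinearIndependent ℝ x := by
  rw [Fintype.linearIndependent_iff]
  intro g hg
  rw [Fin.sum_univ_three] at hg
  have e2 : g 2 = 0 := by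
    have := congrArg (fun v : E => v ⬝ᵥ l) hg
    simp only [add_dotProduct, smul_dotProduct, h0, h1, smul_eq_mul, mul_zero, zero_add,
      zero_dotProduct] at this
    exact (mul_eq_zero.1 this).resolve_right h2
  rw [e2, zero_smul, add_zero] at hg
  have e0 : g 0 = 0 := by
    have := congrArg (fun v : E => crossProduct v (x 1)) hg
    simp only [map_add, map_smul, LinearMap.add_apply, LinearMap.smul_apply, cross_self, smul_zero,
      add_zero, map_zero, LinearMap.zero_apply] at this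
    exact (smul_eq_zero.1 this).resolve_right h01
  have e1 : g 1 = 0 := by
    have := congrArg (fun v : E => crossProduct (x 0) v) hg
    simp only [map_add, map_smul, cross_self, smul_zero, zero_add, map_zero] at this
    exact (smul_eq_zero.1 this).resolve_right h01
  intro i
  fin_cases i
  · exact e0
  · exact e1
  · exact e2

end NF

open NF in
theorem noFourth (hRes : ResExactStmt) (hMin : MinStmt) (hCore : CoreStmt) (hTF : TwoDegFreeStmt)
    (hSO : SepOpenStmt) : NoFourthStmt := by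
  classical
  intro V _ _ G side hL A a b ha hb hab hcut hs _
  obtain ⟨s, hs⟩ := hs
  have h01 : a 0 ≠ a 1 := fun h => by have := ha h; revert this; decide
  have h02 : a 0 ≠ a 2 := fun h => by have := ha h; revert this; decide
  have h12 : a 1 ≠ a 2 := fun h => by have := ha h; revert this; decide
  have hb₀ : b 0 ∉ A := (hab 0).2.1
  have hbA : ∀ v ∈ A, v ≠ b 0 := fun v hv h => hb₀ (h ▸ hv)
  have hAu : A ≠ univ := fun h => hb₀ (h ▸ mem_univ _)
  have hsb : side (b 0) ≠ side (a 0) := hL.bip _ _ (hab 0).2.2.symm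
  have hsb1 : side (b 0) ≠ side (a 1) := by rw [hs 1, ← hs 0]; exact hsb
  obtain ⟨ρ₀, hR₀, hS₀, hE₀⟩ := hRes V G side hL A hAu
  have hnp : Np (ρ₀ (a 0)) (ρ₀ (a 1)) := hS₀.2 _ _ h01 (by rw [hs 0, hs 1])
  by_cases hl : ∃ l ∈ A, G.Adj l (a 0) ∧ G.Adj l (a 1)
  · obtain ⟨l, hlA, hl0, hl1⟩ := hl
    have o0 : ρ₀ (a 0) ⬝ᵥ ρ₀ l = 0 := hR₀ (a 0) l ⟨hl0.symm, (hab 0).1, hlA⟩
    have o1 : ρ₀ (a 1) ⬝ᵥ ρ₀ l = 0 := hR₀ (a 1) l ⟨hl1.symm, (hab 1).1, hlA⟩
    have hsl : side (a 0) ≠ side l := hL.bip _ _ hl0.symm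
    refine ⟨ρ₀, ⟨hR₀, hS₀, hE₀⟩, ?_⟩
    by_cases hl2 : G.Adj l (a 2)
    · right
      intro p hpA hps hpa hdet
      rw [det3_eq] at hdet
      have h1 : ρ₀ l ⬝ᵥ ρ₀ p = 0 := perp_of_det hnp o0 o1 hdet
      have h2 : G.Adj l p := by
        by_contra h
        exact hE₀ l p (by rw [hps]; exact hsl.symm) (fun h' => h h'.1) h1
      have h3 := hL.cubic l
      have h4 : ({a 0, a 1, a 2, p} : Finset V).card ≤ dg G univ l := by
        refine le_dg ?_
        intro u hu
        simp only [mem_insert, mem_singleton] at hu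
        refine ⟨mem_univ _, ?_⟩
        rcases hu with rfl | rfl | rfl | rfl
        · exact hl0
        · exact hl1
        · exact hl2
        · exact h2
      have h5 : ({a 0, a 1, a 2, p} : Finset V).card = 4 := by
        rw [Finset.card_insert_of_notMem, Finset.card_insert_of_notMem,
          Finset.card_insert_of_notMem, Finset.card_singleton]
        · simp only [mem_singleton]; exact (hpa 2).symm
        · simp only [mem_insert, mem_singleton, not_or]; exact ⟨h12, (hpa 1).symm⟩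
        · simp only [mem_insert, mem_singleton, not_or]; exact ⟨h01, h02, (hpa 0).symm⟩
      omega
    · left
      refine linInd (x := fun i => ρ₀ (a i)) (l := ρ₀ l) hnp o0 o1 ?_
      exact hE₀ (a 2) l (by rw [hs 2, ← hs 0]; exact hsl) (fun h => hl2 h.1.symm)
  -- the line `a 0, a 1` as a new vertex
  set v₁ : E := crossProduct (ρ₀ (a 0)) (ρ₀ (a 1)) with hv₁
  have q0 : v₁ ⬝ᵥ ρ₀ (a 0) = 0 := by rw [dotProduct_comm]; exact dot_self_cross _ _
  have q1 : v₁ ⬝ᵥ ρ₀ (a 1) = 0 := by rw [dotProduct_comm]; exact dot_cross_self _ _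
  have hSep₁ : Sep side (Function.update ρ₀ (b 0) v₁) := by
    refine sep_update hS₀ hnp ?_
    intro w hw hsw hcr
    have e0 : ρ₀ w ⬝ᵥ ρ₀ (a 0) = 0 := dot_of_cross hcr hnp q0
    have e1 : ρ₀ w ⬝ᵥ ρ₀ (a 1) = 0 := dot_of_cross hcr hnp q1
    have a0 : (res G A).Adj w (a 0) := by
      by_contra h
      exact hE₀ w (a 0) (by rw [hsw]; exact hsb) h e0
    have a1 : (res G A).Adj w (a 1) := by
      by_contra h
      exact hE₀ w (a 1) (by rw [hsw]; exact hsb1) h e1
    exact hl ⟨w, a0.2.1, a0.1, a1.1⟩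
  have hRlz₁ : Rlz (FF G A (b 0) (a 0) (a 1)) (Function.update ρ₀ (b 0) v₁) := by
    intro u v huv
    rw [FF_adj] at huv
    rcases huv with (h | ⟨⟨rfl, rfl⟩ | ⟨rfl, rfl⟩, _⟩) | ⟨⟨rfl, rfl⟩ | ⟨rfl, rfl⟩, _⟩
    · rw [Function.update_of_ne (hbA u h.2.1), Function.update_of_ne (hbA v h.2.2)]
      exact hR₀ u v h
    · rw [Function.update_self, Function.update_of_ne (hbA _ (hab 0).1)]
      exact q0
    · rw [Function.update_self, Function.update_of_ne (hbA _ (hab 0).1), dotProduct_comm]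
      exact q0
    · rw [Function.update_self, Function.update_of_ne (hbA _ (hab 1).1)]
      exact q1
    · rw [Function.update_self, Function.update_of_ne (hbA _ (hab 1).1), dotProduct_comm]
      exact q1
  have hBF : Bip (FF G A (b 0) (a 0) (a 1)) side := ((bip_res hL.bip A).addE hsb).addE hsb1
  obtain ⟨ρ, hρS, hρR, hρm⟩ := hMin V _ side hBF {ρ | Sep side ρ} (hSO V side) _ hSep₁ hRlz₁
  have hρS : Sep side ρ := hρS
  -- pairs without `b 0`
  have hAA : ∀ x y, side x ≠ side y → x ≠ b 0 → y ≠ b 0 → ¬ (res G A).Adj x y →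
      ρ x ⬝ᵥ ρ y ≠ 0 := by
    intro x y hxy hx hy hadj h
    refine hρm x y hxy ?_ h (claimA hCore hTF hL hAu hb₀ hsb hsb1 hρS hxy hx hy)
    rw [FF_adj]
    rintro ((h | ⟨⟨h, _⟩ | ⟨_, h⟩, _⟩) | ⟨⟨h, _⟩ | ⟨_, h⟩, _⟩)
    · exact hadj h
    · exact hx h
    · exact hy h
    · exact hx h
    · exact hy h
  -- pairs with `b 0`
  have hBB : ∀ p ∈ A, side p = side (a 0) → (∀ i, p ≠ a i) → ρ (b 0) ⬝ᵥ ρ p ≠ 0 := by
    intro p hpA hps hpa h
    have hsp : side (b 0) ≠ side p := by rw [hps]; exact hsb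
    refine hρm (b 0) p hsp ?_ h (claimB hCore hTF hL hAu ha hab hcut hsb hsb1 hρS hpA hpa hsp)
    rw [FF_adj]
    rintro ((h | ⟨⟨_, h⟩ | ⟨_, h⟩, _⟩) | ⟨⟨_, h⟩ | ⟨_, h⟩, _⟩)
    · exact hb₀ h.2.1
    · exact hpa 0 h
    · exact hbA p hpA h
    · exact hpa 1 h
    · exact hbA p hpA h
  have r0 : ρ (a 0) ⬝ᵥ ρ (b 0) = 0 := by
    refine hρR _ _ ?_
    rw [FF_adj]
    exact Or.inl (Or.inr ⟨Or.inr ⟨rfl, rfl⟩, (hbA _ (hab 0).1).symm⟩)
  have r1 : ρ (a 1) ⬝ᵥ ρ (b 0) = 0 := by
    refine hρR _ _ ?_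
    rw [FF_adj]
    exact Or.inr ⟨Or.inr ⟨rfl, rfl⟩, (hbA _ (hab 1).1).symm⟩
  have hnp' : Np (ρ (a 0)) (ρ (a 1)) := hρS.2 _ _ h01 (by rw [hs 0, hs 1])
  -- change the vector of `b 0`
  obtain ⟨x, hx1, hx2⟩ := generic2 ρ hρS.1 ρ hρS.1
  have hx0 : x ≠ 0 := by
    intro h
    exact hx1 (b 0) (by rw [h, zero_dotProduct])
  refine ⟨Function.update ρ (b 0) x, ⟨?_, sep_update hρS hx0 (fun w _ _ => hx2 w), ?_⟩, Or.inr ?_⟩
  · intro u v huv
    rw [Function.update_of_ne (hbA u huv.2.1), Function.update_of_ne (hbA v huv.2.2)]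
    refine hρR u v ?_
    rw [FF_adj]
    exact Or.inl (Or.inl huv)
  · intro u v huv hadj
    by_cases hu : u = b 0
    · have hv : v ≠ b 0 := fun h => huv (by rw [hu, h])
      rw [hu, Function.update_self, Function.update_of_ne hv]
      exact hx1 v
    · by_cases hv : v = b 0
      · rw [hv, Function.update_self, Function.update_of_ne hu, dotProduct_comm]
        exact hx1 u
      · rw [Function.update_of_ne hu, Function.update_of_ne hv]
        exact hAA u v huv hu hv hadj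
  · intro p hpA hps hpa
    rw [Function.update_of_ne (hbA _ (hab 0).1), Function.update_of_ne (hbA _ (hab 1).1),
      Function.update_of_ne (hbA p hpA), det3_eq]
    intro h
    exact hBB p hpA hps hpa (perp_of_det hnp' r0 r1 h)

end N3
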