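import Pool.Agent.Lib_n3.StmtsK4
import Pool.Agent.Lib_n3.Core
import Pool.Agent.Lib_n3.Cuts
import Pool.Agent.Lib_n3.ResExact
import Pool.Agent.Lib_n3.NoFourth
import Pool.Agent.Lib_n3.MinKill

/-!
# Module K4Rho: the realization of the quotient by the subdivided `K₄` (MP_07e12a_co, helper21)
-/

open scoped Matrix Topology
open Finset

namespace N3

namespace K4R

section
variable {V : Type} [Fintype V] [DecidableEq V]

open Classical in
theorem dg_le_of {F F' : SimpleGraph V} {S S' : Finset V} {v : V}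
    (h : ∀ u ∈ S, F.Adj v u → u ∈ S' ∧ F'.Adj v u) : dg F S v ≤ dg F' S' v := by
  unfold dg
  refine Finset.card_le_card fun u hu => ?_
  rw [Finset.mem_filter] at hu ⊢
  exact h u hu.1 hu.2

open Classical in
theorem dg_le_of_insert {F F' : SimpleGraph V} {S S' : Finset V} {v x : V}
    (h : ∀ u ∈ S, F.Adj v u → u = x ∨ (u ∈ S' ∧ F'.Adj v u)) : dg F S v ≤ dg F' S' v + 1 := by
  unfold dg
  refine (Finset.card_le_card (t := insert x (S'.filter (fun u => F'.Adj v u))) ?_).trans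
    (Finset.card_insert_le _ _)
  intro u hu
  rw [Finset.mem_filter] at hu
  rw [Finset.mem_insert, Finset.mem_filter]
  exact h u hu.1 hu.2

open Classical in
theorem three_of {F : SimpleGraph V} {S : Finset V} {v x y z : V} (h3 : 2 < dg F S v)
    (hn : ∀ u ∈ S, F.Adj v u → u = x ∨ u = y ∨ u = z) : ∀ w ∈ ({x, y, z} : Finset V), w ∈ S := by
  unfold dg at h3
  have hsub : S.filter (fun u => F.Adj v u) ⊆ {x, y, z} := by
    intro u hu
    rw [Finset.mem_filter] at hu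
    simp only [mem_insert, mem_singleton]
    exact hn u hu.1 hu.2
  have h4 := Finset.eq_of_subset_of_card_le hsub (Finset.card_le_three.trans (Nat.succ_le_of_lt h3))
  intro w hw
  rw [← h4, Finset.mem_filter] at hw
  exact hw.1

/-- a new edge at an isolated vertex -/
theorem twoDeg_iso {F : SimpleGraph V} (hT : TwoDeg F) {a : V} (hiso : ∀ v, ¬ F.Adj a v) (z : V) :
    TwoDeg (addE F a z) := by
  classical
  intro S hS
  by_cases ha : a ∈ S
  · refine ⟨a, ha, ?_⟩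
    have h1 : dg (addE F a z) S a ≤ 1 := by
      refine NF.dg_le_one (w := z) fun u _ hu => ?_
      rw [addE_adj] at hu
      rcases hu with hu | ⟨⟨_, hu⟩ | ⟨h1, h2⟩, h3⟩
      · exact absurd hu (hiso u)
      · exact hu
      · exact absurd h1 h3
    omega
  · obtain ⟨v, hv, hd⟩ := hT S hS
    refine ⟨v, hv, le_trans (dg_le_of fun u hu h => ⟨hu, ?_⟩) hd⟩
    rw [addE_adj] at h
    rcases h with h | ⟨⟨h, _⟩ | ⟨_, h⟩, _⟩
    · exact h
    · exact absurd (h ▸ hv) ha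
    · exact absurd (h ▸ hu) ha

/-! ### the quotient near the pattern -/

variable {G : SimpleGraph V} {side : V → Bool} {f t : ℕ → V}

theorem vx_f {i : ℕ} (hi : i < 10) : Vx pK4 i := Or.inl hi

theorem vx_t {h : ℕ} (hh : pK4.host h = true) : Vx pK4 (10 + h) := Or.inr ⟨h, hh, rfl⟩

theorem gx_f {i : ℕ} (hi : i < 10) : gx pK4 f t i = f i := by
  rw [gx, if_pos]; exact hi

theorem gx_t (h : ℕ) : gx pK4 f t (10 + h) = t h := by
  rw [gx, if_neg]
  · congr 1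
    show 10 + h - 10 = h
    omega
  · show ¬ 10 + h < 10
    omega

theorem sd_ne (hB : PBase G side pK4 pK4ts f t) {i j : ℕ} (hi : Vx pK4 i) (hj : Vx pK4 j)
    (h : pK4.ty pK4ts i ≠ pK4.ty pK4ts j) : side (gx pK4 f t i) ≠ side (gx pK4 f t j) := by
  rw [Ne, hB.sd i j hi hj]
  exact h

theorem kadj_out (hB : PBase G side pK4 pK4ts f t) {u v : V} (hv : ∀ i < 10, f i ≠ v)
    (hu : ∀ i < 10, f i ≠ u) : (quot G (qmap pK4 f)).Adj v u ↔ G.Adj v u := by
  rw [hB.kout v hv u]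
  constructor
  · rintro ⟨w, hw, hq⟩
    by_cases hwo : ∀ i < pK4.m, f i ≠ w
    · rw [hB.qo w hwo] at hq
      exact hq ▸ hw
    · push Not at hwo
      obtain ⟨i, hi, rfl⟩ := hwo
      exfalso
      have h1 := hB.qg i (vx_f hi)
      rw [gx_f hi, hq] at h1
      have h2 : pK4.cx i < 10 := by
        have : ∀ i < 10, pK4.cx i < 10 := by decide
        exact this i hi
      rw [gx_f h2] at h1
      exact hu _ h2 h1.symm
  · intro h
    exact ⟨u, h, hB.qo u hu⟩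

theorem adj_f_t (hB : PBase G side pK4 pK4ts f t) {a h : ℕ} (ha : a < 10)
    (hh : pK4.host h = true) (hadj : (quot G (qmap pK4 f)).Adj (f a) (t h)) :
    10 + h ∈ pK4.kn a := by
  have hc : pK4.c a = a := by
    by_contra hc
    exact hB.iso a ha hc _ hadj
  have har : a ∈ pK4.reps := by
    rw [Pat.reps, List.mem_filter, List.mem_range]
    exact ⟨ha, by simpa using hc⟩
  obtain ⟨b, hb, hbt⟩ := (hB.kadj a har _).1 hadj
  have hbv : Vx pK4 b := by
    have key : ∀ a ∈ pK4.reps, ∀ b ∈ pK4.kn a, b < 10 ∨ (pK4.host (b - 10) = true ∧ 10 ≤ b) := by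
      decide
    rcases key a har b hb with h | ⟨h1, h2⟩
    · exact Or.inl h
    · exact Or.inr ⟨b - 10, h1, by show b = 10 + (b - 10); omega⟩
  rw [← gx_t (f := f) (t := t) h] at hbt
  rw [← hB.inj b (10 + h) hbv (vx_t hh) hbt]
  exact hb

/-- `K` with three edges at `f 4` -/
abbrev K3 (K : SimpleGraph V) (a x y z : V) : SimpleGraph V := addE (addE (addE K a x) a y) a z

theorem K3_adj {K : SimpleGraph V} {a x y z : V} (hx : a ≠ x) (hy : a ≠ y) (hz : a ≠ z) {u v : V} :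
    (K3 K a x y z).Adj u v ↔ K.Adj u v ∨ (u = a ∧ (v = x ∨ v = y ∨ v = z)) ∨
      (v = a ∧ (u = x ∨ u = y ∨ u = z)) := by
  rw [addE_adj, addE_adj, addE_adj]
  constructor
  · rintro (((h | ⟨⟨h, h'⟩ | ⟨h, h'⟩, _⟩) | ⟨⟨h, h'⟩ | ⟨h, h'⟩, _⟩) | ⟨⟨h, h'⟩ | ⟨h, h'⟩, _⟩)
    · exact Or.inl h
    · exact Or.inr (Or.inl ⟨h, Or.inl h'⟩)
    · exact Or.inr (Or.inr ⟨h', Or.inl h⟩)
    · exact Or.inr (Or.inl ⟨h, Or.inr (Or.inl h')⟩)
    · exact Or.inr (Or.inr ⟨h', Or.inr (Or.inl h)⟩)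
    · exact Or.inr (Or.inl ⟨h, Or.inr (Or.inr h')⟩)
    · exact Or.inr (Or.inr ⟨h', Or.inr (Or.inr h)⟩)
  · rintro (h | ⟨h, h' | h' | h'⟩ | ⟨h, h' | h' | h'⟩)
    · exact Or.inl (Or.inl (Or.inl h))
    · exact Or.inl (Or.inl (Or.inr ⟨Or.inl ⟨h, h'⟩, hx⟩))
    · exact Or.inl (Or.inr ⟨Or.inl ⟨h, h'⟩, hy⟩)
    · exact Or.inr ⟨Or.inl ⟨h, h'⟩, hz⟩
    · exact Or.inl (Or.inl (Or.inr ⟨Or.inr ⟨h', h⟩, hx⟩))
    · exact Or.inl (Or.inr ⟨Or.inr ⟨h', h⟩, hy⟩)
    · exact Or.inr ⟨Or.inr ⟨h', h⟩, hz⟩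

theorem mem_outside {v : V} : v ∈ outside pK4 f ↔ ∀ i < 10, f i ≠ v := by
  unfold outside
  simp only [Finset.mem_filter, Finset.mem_univ, true_and]
  rfl

/-- `K` with the edges from `f 4` to `t 2`, `t 6`, `t 9` is 2-degenerate -/
theorem twoDeg_K3 (hP : PeelStmt) (hL : Lev G side) (hE : Emb G pK4 f t)
    (hB : PBase G side pK4 pK4ts f t)
    (hT2 : ∀ C ⊆ outside pK4 f, ed G C (outside pK4 f \ C) ≤ 1 → C = ∅ ∨ C = outside pK4 f)
    (hTK : TwoDeg (quot G (qmap pK4 f))) :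
    TwoDeg (K3 (quot G (qmap pK4 f)) (f 4) (t 2) (t 6) (t 9)) := by
  classical
  set K := quot G (qmap pK4 f) with hK
  have h2 : pK4.host 2 = true := by decide
  have h6 : pK4.host 6 = true := by decide
  have h9 : pK4.host 9 = true := by decide
  have h0 : pK4.host 0 = true := by decide
  have hout : ∀ {h : ℕ}, pK4.host h = true → ∀ i < 10, f i ≠ t h :=
    fun hh i hi => (hE.out _ hh i hi).symm
  have e2 : f 4 ≠ t 2 := hout h2 4 (by norm_num)
  have e6 : f 4 ≠ t 6 := hout h6 4 (by norm_num)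
  have e9 : f 4 ≠ t 9 := hout h9 4 (by norm_num)
  have hK' : ∀ {u v : V}, (K3 K (f 4) (t 2) (t 6) (t 9)).Adj u v ↔ K.Adj u v ∨
      (u = f 4 ∧ (v = t 2 ∨ v = t 6 ∨ v = t 9)) ∨ (v = f 4 ∧ (u = t 2 ∨ u = t 6 ∨ u = t 9)) :=
    K3_adj e2 e6 e9
  have hiso : ∀ u, ¬ K.Adj (f 4) u := hB.iso 4 (by decide) (by decide)
  intro S hS
  by_contra hcon
  push Not at hcon
  by_cases h4 : f 4 ∈ S
  swap
  · obtain ⟨v, hv, hd⟩ := hTK S hS
    have h1 := hcon v hv
    have h3 : dg (K3 K (f 4) (t 2) (t 6) (t 9)) S v ≤ dg K S v := by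
      refine dg_le_of fun u hu h => ⟨hu, ?_⟩
      rcases hK'.1 h with h | ⟨h, _⟩ | ⟨h, _⟩
      · exact h
      · exact absurd (h ▸ hv) h4
      · exact absurd (h ▸ hu) h4
    omega
  -- the neighbours of `f 4`
  have hN : ∀ w ∈ ({t 2, t 6, t 9} : Finset V), w ∈ S := by
    refine three_of (hcon _ h4) fun u _ hu => ?_
    rcases hK'.1 hu with h | ⟨_, h⟩ | ⟨_, h⟩
    · exact absurd h (hiso u)
    · exact h
    · rcases h with h | h | h
      · exact absurd h e2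
      · exact absurd h e6
      · exact absurd h e9
  -- no representative in `S`
  have hpeel : ∀ a ∈ pK4P.o0, f a ∉ S := by
    refine hP V (K3 K (f 4) (t 2) (t 6) (t 9)) pK4 f t pK4P.o0 S (by decide) (by decide) ?_
      (fun v hv => hcon v hv)
    intro a ha v hv
    have ha10 : a < 10 := by
      have := (List.mem_filter.1 ha).1
      exact List.mem_range.1 this
    rcases hK'.1 hv with h | ⟨h, _⟩ | ⟨_, h⟩
    · exact (hB.kadj a ha v).1 h
    · exfalso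
      have := hE.inj a ha10 4 (by decide) h
      subst this
      revert ha
      decide
    · exfalso
      rcases h with h | h | h
      · exact hout h2 a ha10 h
      · exact hout h6 a ha10 h
      · exact hout h9 a ha10 h
  have hSout : ∀ v ∈ S, v ≠ f 4 → ∀ i < 10, f i ≠ v := by
    rintro v hv hv4 i hi rfl
    by_cases hc : pK4.c i = i
    · have key : ∀ i < 10, pK4.c i = i → i ∈ pK4P.o0 := by decide
      exact hpeel i (key i hi hc) hv
    · have h1 := hcon _ hv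
      have h3 : dg (K3 K (f 4) (t 2) (t 6) (t 9)) S (f i) = 0 := by
        refine NF.dg_zero fun w _ h => ?_
        rcases hK'.1 h with h | ⟨h, _⟩ | ⟨_, h⟩
        · exact hB.iso i hi hc _ h
        · exact hv4 h
        · rcases h with h | h | h
          · exact hout h2 i hi h
          · exact hout h6 i hi h
          · exact hout h9 i hi h
      omega
  set C := S.erase (f 4) with hC
  have hCT : C ⊆ outside pK4 f := by
    intro v hv
    rw [hC, Finset.mem_erase] at hv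
    exact mem_outside.2 (hSout v hv.2 hv.1)
  have hadjK : ∀ v ∈ C, ∀ u ∈ S, K.Adj v u → u ∈ C ∧ G.Adj v u := by
    intro v hv u hu h
    have hu4 : u ≠ f 4 := by
      rintro rfl
      exact hiso v h.symm
    have huC : u ∈ C := Finset.mem_erase.2 ⟨hu4, hu⟩
    exact ⟨huC, (kadj_out hB (mem_outside.1 (hCT hv)) (mem_outside.1 (hCT huC))).1 h⟩
  have hd3 : ∀ v ∈ C, v ≠ t 2 → v ≠ t 6 → v ≠ t 9 → 3 ≤ dg G C v := by
    intro v hv n2 n6 n9
    have hvS : v ∈ S := Finset.mem_of_mem_erase hv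
    refine (hcon v hvS).trans_le (dg_le_of fun u hu h => ?_)
    rcases hK'.1 h with h | ⟨h, _⟩ | ⟨_, h | h | h⟩
    · exact hadjK v hv u hu h
    · exact absurd h (Finset.ne_of_mem_erase hv)
    · exact absurd h n2
    · exact absurd h n6
    · exact absurd h n9
  have hd2 : ∀ v ∈ C, 2 ≤ dg G C v := by
    intro v hv
    have hvS : v ∈ S := Finset.mem_of_mem_erase hv
    have h1 : dg (K3 K (f 4) (t 2) (t 6) (t 9)) S v ≤ dg G C v + 1 := by
      refine dg_le_of_insert (x := f 4) fun u hu h => ?_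
      rcases hK'.1 h with h | ⟨h, _⟩ | ⟨h, _⟩
      · exact Or.inr (hadjK v hv u hu h)
      · exact absurd h (Finset.ne_of_mem_erase hv)
      · exact Or.inl h
    have := hcon v hvS
    omega
  have hsum : ∀ v, dg G (outside pK4 f \ C) v + dg G C v + dg G (outside pK4 f)ᶜ v = 3 := by
    intro v
    rw [NF.dg_sdiff G hCT v, dg_compl, hL.cubic v]
  have hhost : ∀ {h : ℕ}, h < 10 → pK4.host h = true → 1 ≤ dg G (outside pK4 f)ᶜ (t h) := by
    intro h hh10 hh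
    refine NF.dg_pos (w := f h) ?_ (hE.att h hh).symm
    rw [Finset.mem_compl, mem_outside]
    push Not
    exact ⟨h, hh10, rfl⟩
  have hed : ed G C (outside pK4 f \ C) = 0 := by
    unfold ed
    refine Finset.sum_eq_zero fun v hv => ?_
    have h1 := hsum v
    have h3 := hd2 v hv
    by_cases n2 : v = t 2
    · have := hhost (h := 2) (by norm_num) h2
      rw [← n2] at this
      omega
    by_cases n6 : v = t 6
    · have := hhost (h := 6) (by norm_num) h6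
      rw [← n6] at this
      omega
    by_cases n9 : v = t 9
    · have := hhost (h := 9) (by norm_num) h9
      rw [← n9] at this
      omega
    have := hd3 v hv n2 n6 n9
    omega
  rcases hT2 C hCT (by omega) with h | h
  · have h1 : t 2 ∈ C := Finset.mem_erase.2 ⟨e2.symm, hN _ (by simp)⟩
    rw [h] at h1
    exact absurd h1 (Finset.notMem_empty _)
  · have h1 : t 0 ∈ C := by
      rw [h, mem_outside]
      exact hout h0
    have n2 : t 0 ≠ t 2 := hE.dis 0 2 h0 h2 (by norm_num)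
    have n6 : t 0 ≠ t 6 := hE.dis 0 6 h0 h6 (by norm_num)
    have n9 : t 0 ≠ t 9 := hE.dis 0 9 h0 h9 (by norm_num)
    have h3 := hd3 _ h1 n2 n6 n9
    have h4 := hhost (h := 0) (by norm_num) h0
    have h5 := hsum (t 0)
    omega

end

end K4R

open K4R in
theorem k4Rho (hG : ThmGStmt) (hMin : MinStmt) (hF : TwoDegFreeStmt) (hSP : SPStmt)
    (hSO : SepOpenStmt) (hP : PeelStmt) : K4RhoStmt := by
  classical
  intro V _ _ G side f t hL _ hE hB hT2 hTK hTA hnc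
  set K := quot G (qmap pK4 f) with hK
  have hBK : Bip K side := quot_bip hL.bip hB.qs
  have h2 : pK4.host 2 = true := by decide
  have h6 : pK4.host 6 = true := by decide
  have h9 : pK4.host 9 = true := by decide
  have h0 : pK4.host 0 = true := by decide
  have hout : ∀ {h : ℕ}, pK4.host h = true → ∀ i < 10, f i ≠ t h :=
    fun hh i hi => (hE.out _ hh i hi).symm
  have e2 : f 4 ≠ t 2 := hout h2 4 (by norm_num)
  have e6 : f 4 ≠ t 6 := hout h6 4 (by norm_num)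
  have e9 : f 4 ≠ t 9 := hout h9 4 (by norm_num)
  -- sides
  have s01 : side (f 0) ≠ side (f 1) :=
    sd_ne hB (i := 0) (j := 1) (vx_f (by norm_num)) (vx_f (by norm_num)) (by decide)
  have s0t : side (f 0) ≠ side (t 0) :=
    sd_ne hB (i := 0) (j := 10) (vx_f (by norm_num)) (vx_t h0) (by decide)
  have s1t : side (f 1) = side (t 0) :=
    (hB.sd 1 10 (vx_f (by norm_num)) (vx_t h0)).2 (by decide)
  have s42 : side (f 4) ≠ side (t 2) :=
    sd_ne hB (i := 4) (j := 12) (vx_f (by norm_num)) (vx_t h2) (by decide)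
  have s46 : side (f 4) ≠ side (t 6) :=
    sd_ne hB (i := 4) (j := 16) (vx_f (by norm_num)) (vx_t h6) (by decide)
  have s49 : side (f 4) ≠ side (t 9) :=
    sd_ne hB (i := 4) (j := 19) (vx_f (by norm_num)) (vx_t h9) (by decide)
  have s26 : side (t 2) = side (t 6) :=
    (hB.sd 12 16 (vx_t h2) (vx_t h6)).2 (by decide)
  have n1t : f 1 ≠ t 0 := hout h0 1 (by norm_num)
  have n26 : t 2 ≠ t 6 := hE.dis 2 6 h2 h6 (by norm_num)
  have n29 : t 2 ≠ t 9 := hE.dis 2 9 h2 h9 (by norm_num)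
  have n69 : t 6 ≠ t 9 := hE.dis 6 9 h6 h9 (by norm_num)
  -- the neighbours of `f 0`
  have hK0 : ∀ v, K.Adj (f 0) v ↔ v = f 1 ∨ v = t 0 := by
    intro v
    have h1 : pK4.kn 0 = [1, 10] := by decide
    rw [hB.kadj 0 (by decide) v, h1]
    simp only [List.mem_cons, List.not_mem_nil, or_false, exists_eq_or_imp, exists_eq_left]
    have h3 : gx pK4 f t 1 = f 1 := gx_f (by norm_num)
    have h4 : gx pK4 f t 10 = t 0 := gx_t 0
    rw [h3, h4, eq_comm, eq_comm (a := t 0)]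
  have n01 : f 1 ≠ f 0 := ((hK0 _).2 (Or.inl rfl)).ne.symm
  have n0t : t 0 ≠ f 0 := ((hK0 _).2 (Or.inr rfl)).ne.symm
  -- step 1
  set K₀ := res K (univ.erase (f 0)) with hK₀
  have hle : K₀ ≤ K := fun _ _ h => h.1
  have hiso0 : ∀ v, ¬ K₀.Adj (f 0) v := fun v h => absurd h.2.1 (Finset.notMem_erase _ _)
  have hTK₀ : TwoDeg K₀ := twoDeg_mono hle hTK
  have hB₀ : Bip K₀ side := fun u v h => hBK u v h.1
  have hpairs : ∀ x y, side x ≠ side y → ¬ K₀.Adj x y → TwoDeg (addE K₀ x y) := by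
    intro x y hxy _
    by_cases hadj : K.Adj x y
    · refine twoDeg_mono (F' := K) ?_ hTK
      intro u v huv
      rw [addE_adj] at huv
      rcases huv with h | ⟨⟨rfl, rfl⟩ | ⟨rfl, rfl⟩, _⟩
      · exact hle h
      · exact hadj
      · exact hadj.symm
    · by_cases hs : s(x, y) = s(f 0, t 9)
      · rw [Sym2.eq_iff] at hs
        rcases hs with ⟨rfl, rfl⟩ | ⟨rfl, rfl⟩
        · exact twoDeg_iso hTK₀ hiso0 _
        · rw [addE_comm]
          exact twoDeg_iso hTK₀ hiso0 _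
      · exact twoDeg_mono (addE_mono hle x y) (hTA x y hxy hadj hs)
  obtain ⟨ρ₀, hR₀, hS₀, hE₀⟩ := hG V K₀ side hB₀
    (fun u v huv a b h1 h2 h3 h4 => hB.noC4 u v huv a b (hle h1) (hle h2) (hle h3) (hle h4))
    hTK₀ hpairs
  -- step 2
  have hnp1 : Np (ρ₀ (f 1)) (ρ₀ (t 0)) := hS₀.2 _ _ n1t s1t
  set w₀ : E := crossProduct (ρ₀ (f 1)) (ρ₀ (t 0)) with hw₀
  have w1 : w₀ ⬝ᵥ ρ₀ (f 1) = 0 := by rw [dotProduct_comm]; exact dot_self_cross _ _
  have wt : w₀ ⬝ᵥ ρ₀ (t 0) = 0 := by rw [dotProduct_comm]; exact dot_cross_self _ _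
  have hS₁ : Sep side (Function.update ρ₀ (f 0) w₀) := by
    refine NF.sep_update hS₀ hnp1 ?_
    intro u hu hsu hcr
    have d1 : ρ₀ u ⬝ᵥ ρ₀ (f 1) = 0 := NF.dot_of_cross hcr hnp1 w1
    have d2 : ρ₀ u ⬝ᵥ ρ₀ (t 0) = 0 := NF.dot_of_cross hcr hnp1 wt
    have a1 : K₀.Adj u (f 1) := by
      by_contra h
      exact hE₀ u (f 1) (by rw [hsu]; exact s01) h d1
    have a2 : K₀.Adj u (t 0) := by
      by_contra h
      exact hE₀ u (t 0) (by rw [hsu]; exact s0t) h d2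
    exact n1t (hB.noC4 u (f 0) hu (f 1) (t 0) (hle a1) ((hK0 _).2 (Or.inl rfl)) (hle a2)
      ((hK0 _).2 (Or.inr rfl)))
  have hR₁ : Rlz K (Function.update ρ₀ (f 0) w₀) := by
    intro a b hab
    by_cases ha : a = f 0
    · subst ha
      have hb : b ≠ f 0 := hab.ne.symm
      rw [Function.update_self, Function.update_of_ne hb]
      rcases (hK0 b).1 hab with h | h
      · subst h; exact w1
      · subst h; exact wt
    · by_cases hb : b = f 0
      · subst hb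
        rw [Function.update_self, Function.update_of_ne ha, dotProduct_comm]
        rcases (hK0 a).1 hab.symm with h | h
        · subst h; exact w1
        · subst h; exact wt
      · rw [Function.update_of_ne ha, Function.update_of_ne hb]
        exact hR₀ a b ⟨hab, by simp [ha], by simp [hb]⟩
  -- step 3
  obtain ⟨ρ₂, hS₂, hR₂, hm⟩ := hMin V K side hBK {ρ | Sep side ρ} (hSO V side) _ hS₁ hR₁
  have hS₂ : Sep side ρ₂ := hS₂
  have hE₂ : ∀ x y, side x ≠ side y → ¬ K.Adj x y → s(x, y) ≠ s(f 0, t 9) →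
      ρ₂ x ⬝ᵥ ρ₂ y ≠ 0 := fun x y hxy hadj hs h =>
    hm x y hxy hadj h (hF V _ side ρ₂ (hBK.addE hxy) hS₂ (hTA x y hxy hadj hs))
  -- step 4
  by_cases hdet : (ρ₂ (t 2) ⨯₃ ρ₂ (t 6)) ⬝ᵥ ρ₂ (t 9) = 0
  swap
  · exact ⟨ρ₂, hR₂, hS₂, hF V K side ρ₂ hBK hS₂ hTK, fun x y hxy hadj _ _ hs => hE₂ x y hxy hadj hs,
      hdet⟩
  have hnp2 : Np (ρ₂ (t 2)) (ρ₂ (t 6)) := hS₂.2 _ _ n26 s26
  set z : E := ρ₂ (t 2) ⨯₃ ρ₂ (t 6) with hz
  have z2 : z ⬝ᵥ ρ₂ (t 2) = 0 := by rw [dotProduct_comm]; exact dot_self_cross _ _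
  have z6 : z ⬝ᵥ ρ₂ (t 6) = 0 := by rw [dotProduct_comm]; exact dot_cross_self _ _
  have hiso4 : ∀ u, ¬ K.Adj (f 4) u := hB.iso 4 (by decide) (by decide)
  -- no common neighbour of `t 2`, `t 6`
  have hncK : ∀ v, K.Adj v (t 2) → K.Adj v (t 6) → False := by
    intro v v2 v6
    by_cases hvo : ∀ i < 10, f i ≠ v
    · have g2 : G.Adj v (t 2) := (kadj_out hB hvo (hout h2)).1 v2
      have g6 : G.Adj v (t 6) := (kadj_out hB hvo (hout h6)).1 v6
      have g9 : ¬ K.Adj v (t 9) := fun h =>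
        hnc v ⟨g2.symm, g6.symm, ((kadj_out hB hvo (hout h9)).1 h).symm⟩
      have s29 : side (t 2) = side (t 9) := (hB.sd 12 19 (vx_t h2) (vx_t h9)).2 (by decide)
      have hs9 : side v ≠ side (t 9) := by
        rw [← s29]
        exact hBK _ _ v2
      refine hE₂ v (t 9) hs9 g9 ?_ ?_
      · rw [Ne, Sym2.eq_iff]
        rintro (⟨h, _⟩ | ⟨_, h⟩)
        · exact hvo 0 (by norm_num) h.symm
        · exact hout h9 0 (by norm_num) h.symm
      · refine NF.perp_of_det hnp2 ?_ ?_ hdet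
        · rw [dotProduct_comm]; exact hR₂ _ _ v2
        · rw [dotProduct_comm]; exact hR₂ _ _ v6
    · push Not at hvo
      obtain ⟨a, ha, rfl⟩ := hvo
      have k2 := adj_f_t hB ha h2 v2
      have k6 := adj_f_t hB ha h6 v6
      have key : ∀ a < 10, ¬ (10 + 2 ∈ pK4.kn a ∧ 10 + 6 ∈ pK4.kn a) := by decide
      exact key a ha ⟨k2, k6⟩
  have hS₃ : Sep side (Function.update ρ₂ (f 4) z) := by
    refine NF.sep_update hS₂ hnp2 ?_
    intro u hu hsu hcr
    have d2 : ρ₂ u ⬝ᵥ ρ₂ (t 2) = 0 := NF.dot_of_cross hcr hnp2 z2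
    have d6 : ρ₂ u ⬝ᵥ ρ₂ (t 6) = 0 := NF.dot_of_cross hcr hnp2 z6
    have hne : ∀ j : V, j ≠ t 9 → (∀ i < 10, f i ≠ j) → s(u, j) ≠ s(f 0, t 9) := by
      intro j hj hjo
      rw [Ne, Sym2.eq_iff]
      rintro (⟨_, h⟩ | ⟨_, h⟩)
      · exact hj h
      · exact hjo 0 (by norm_num) h.symm
    refine hncK u ?_ ?_
    · by_contra h
      exact hE₂ u (t 2) (by rw [hsu]; exact s42) h (hne _ n29 (hout h2)) d2
    · by_contra h
      exact hE₂ u (t 6) (by rw [hsu]; exact s46) h (hne _ n69 (hout h6)) d6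
  set ρ₃ : V → E := Function.update ρ₂ (f 4) z with hρ₃
  have u3 : ∀ v, v ≠ f 4 → ρ₃ v = ρ₂ v := fun v hv => Function.update_of_ne hv _ _
  have u4 : ρ₃ (f 4) = z := Function.update_self _ _ _
  have hR₃ : ∀ u v, K.Adj u v → ρ₃ u ⬝ᵥ ρ₃ v = 0 := by
    intro u v h
    have hu : u ≠ f 4 := by rintro rfl; exact hiso4 _ h
    have hv : v ≠ f 4 := by rintro rfl; exact hiso4 _ h.symm
    rw [u3 u hu, u3 v hv]
    exact hR₂ u v h
  have r2 : ρ₃ (f 4) ⬝ᵥ ρ₃ (t 2) = 0 := by rw [u4, u3 _ e2.symm]; exact z2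
  have r6 : ρ₃ (f 4) ⬝ᵥ ρ₃ (t 6) = 0 := by rw [u4, u3 _ e6.symm]; exact z6
  have r9 : ρ₃ (f 4) ⬝ᵥ ρ₃ (t 9) = 0 := by rw [u4, u3 _ e9.symm]; exact hdet
  have hTK' := twoDeg_K3 hP hL hE hB hT2 hTK
  rw [← hK] at hTK'
  have hBK' : Bip (K3 K (f 4) (t 2) (t 6) (t 9)) side := ((hBK.addE s42).addE s46).addE s49
  have hfree := hF V _ side ρ₃ hBK' hS₃ hTK'
  have hU : {ρ : V → E | Sep side ρ} ∩ {ρ : V → E | ∀ x y, ρ₃ x ⬝ᵥ ρ₃ y ≠ 0 → ρ x ⬝ᵥ ρ y ≠ 0} ∈
      𝓝 ρ₃ :=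
    ((hSO V side).inter (MK.isOpen_nz ρ₃)).mem_nhds ⟨hS₃, fun _ _ h => h⟩
  obtain ⟨ε, hε, hc⟩ := hSP V _ side ρ₃ hBK' hfree _ hU
  obtain ⟨ρ, ⟨hρS, hρn⟩, hρ⟩ := hc (fun u v => if s(u, v) = s(f 4, t 9) then ε / 2 else 0)
    (fun u v => by rw [Sym2.eq_swap]) (by
    intro u v huv
    rw [K3_adj e2 e6 e9] at huv
    have h0 : ρ₃ u ⬝ᵥ ρ₃ v = 0 := by
      rcases huv with h | ⟨rfl, rfl | rfl | rfl⟩ | ⟨rfl, rfl | rfl | rfl⟩
      · exact hR₃ u v h
      · exact r2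
      · exact r6
      · exact r9
      · rw [dotProduct_comm]; exact r2
      · rw [dotProduct_comm]; exact r6
      · rw [dotProduct_comm]; exact r9
    rw [h0, sub_zero]
    split_ifs
    · rw [abs_of_pos (by linarith)]; linarith
    · rw [abs_zero]; exact hε)
  have hρS : Sep side ρ := hρS
  have hρK : Rlz K ρ := by
    intro u v h
    rw [hρ u v ((K3_adj e2 e6 e9).2 (Or.inl h)), if_neg]
    rw [Sym2.eq_iff]
    rintro (⟨h1, _⟩ | ⟨_, h1⟩)
    · exact hiso4 v (h1 ▸ h)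
    · exact hiso4 u (h1 ▸ h.symm)
  have q2 : ρ (f 4) ⬝ᵥ ρ (t 2) = 0 := by
    rw [hρ _ _ ((K3_adj e2 e6 e9).2 (Or.inr (Or.inl ⟨rfl, Or.inl rfl⟩))), if_neg]
    rw [Sym2.eq_iff]
    rintro (⟨_, h1⟩ | ⟨h1, _⟩)
    · exact n29 h1
    · exact e9 h1
  have q6 : ρ (f 4) ⬝ᵥ ρ (t 6) = 0 := by
    rw [hρ _ _ ((K3_adj e2 e6 e9).2 (Or.inr (Or.inl ⟨rfl, Or.inr (Or.inl rfl)⟩))), if_neg]
    rw [Sym2.eq_iff]
    rintro (⟨_, h1⟩ | ⟨h1, _⟩)
    · exact n69 h1
    · exact e9 h1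
  have q9 : ρ (f 4) ⬝ᵥ ρ (t 9) ≠ 0 := by
    rw [hρ _ _ ((K3_adj e2 e6 e9).2 (Or.inr (Or.inl ⟨rfl, Or.inr (Or.inr rfl)⟩))), if_pos rfl]
    linarith
  refine ⟨ρ, hρK, hρS, hF V K side ρ hBK hρS hTK, ?_, ?_⟩
  · intro x y hxy hadj hx hy hs
    refine hρn x y ?_
    rw [u3 x hx, u3 y hy]
    exact hE₂ x y hxy hadj hs
  · intro h
    refine q9 (NF.perp_of_det (hρS.2 _ _ n26 s26) ?_ ?_ h)
    · rw [dotProduct_comm]; exact q2
    · rw [dotProduct_comm]; exact q6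

end N3

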