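import Pool.Agent.Lib_n3.PerfDefs
import Pool.Agent.Lib_n3.MinKill
import Pool.Agent.Lib_n3.SP

/-!
# KILL with pairs at distance 3 (MP_07e12a_co)
-/

open scoped Matrix Topology
open Finset

namespace N3

/-- `x, t ⊥ s, y`: if `s`, `y` are not parallel then `x ∥ t` -/
lemma KillD3_aux {x t s y z : E} (hxs : x ⬝ᵥ s = 0) (hxy : x ⬝ᵥ y = 0) (hts : t ⬝ᵥ s = 0)
    (hty : t ⬝ᵥ y = 0) (ht : t ≠ 0) (hsy : crossProduct s y ≠ 0) (htz : t ⬝ᵥ z = 0) :
    x ⬝ᵥ z = 0 := by
  have h1 : crossProduct t (crossProduct s y) = 0 := by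
    rw [cross_cross_eq_smul_sub_smul', hty, dotProduct_comm s t, hts]
    simp
  have h2 : crossProduct (crossProduct s y) x = 0 := by
    rw [cross_cross_eq_smul_sub_smul, dotProduct_comm s x, hxs, dotProduct_comm y x, hxy]
    simp
  exact MK.dot_of_cross h2 hsy (MK.dot_of_cross h1 ht htz)

theorem killD3 : KillD3Stmt := by
  classical
  intro V _ _ G side hB hC4 hdeg κ hκ hR hkill
  have hopen : IsOpen ({ρ : V → E | ∀ v, ρ v ≠ 0} ∩
      ({ρ : V → E | ∀ x y, κ x ⬝ᵥ κ y ≠ 0 → ρ x ⬝ᵥ ρ y ≠ 0} ∩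
      {ρ : V → E | ∀ x y, side x ≠ side y → StressFree (addE G x y) κ →
        StressFree (addE G x y) ρ})) := by
    refine IsOpen.inter ?_ (IsOpen.inter (MK.isOpen_nz κ) ?_)
    · simp only [Set.ofPred_forall]
      exact isOpen_iInter_of_finite fun v => isOpen_ne_fun (continuous_apply v) continuous_const
    · simp only [Set.ofPred_forall]
      refine isOpen_iInter_of_finite fun x => isOpen_iInter_of_finite fun y =>
        isOpen_iInter_of_finite fun hxy => isOpen_iInter_of_finite fun _ =>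
        sfOpen V (addE G x y) side (MK.bip_addE hB hxy)
  obtain ⟨ρ, ⟨hρ0, hρnz, hρf⟩, hρR, hρmin⟩ := min sp V G side hB _ hopen κ
    ⟨hκ, fun _ _ h => h, fun _ _ _ h => h⟩ hR
  -- killed pairs are nonzero
  have hk : ∀ u v, side u ≠ side v → ¬ G.Adj u v → StressFree (addE G u v) κ →
      ρ u ⬝ᵥ ρ v ≠ 0 := fun u v huv hG hf h0 => hρmin u v huv hG h0 (hρf u v huv hf)
  -- pairs at distance three
  have hd : ∀ x y, D3 G side κ x y → ρ x ⬝ᵥ ρ y ≠ 0 := by
    rintro x y ⟨s, t, z, z', hxs, hst, hty, _, _, htz, hyz', h1, h2, h3, h4, h5, h6⟩ h0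
    by_cases hsy : crossProduct (ρ s) (ρ y) = 0
    · -- `s ∥ y`
      have h7 : crossProduct (ρ y) (ρ s) = 0 := by
        rw [← cross_anticomm, hsy, neg_zero]
      exact hk s z' h4 h5 h6 (MK.dot_of_cross h7 (hρ0 y) (hρR y z' hyz'))
    · exact hk x z h1 h2 h3 (KillD3_aux (hρR x s hxs) h0 (hρR t s hst.symm) (hρR t y hty)
        (hρ0 t) hsy (hρR t z htz))
  have h3 : ∀ u v, side u ≠ side v → ¬ G.Adj u v → ρ u ⬝ᵥ ρ v ≠ 0 := by
    intro u v huv hG
    by_cases hκ0 : κ u ⬝ᵥ κ v = 0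
    · rcases hkill u v huv hG hκ0 with h | h | h
      · exact hk u v huv hG h
      · exact hd u v h
      · rw [dotProduct_comm]; exact hd v u h
    · exact hρnz u v hκ0
  refine ⟨ρ, hρR, ⟨hρ0, ?_⟩, h3⟩
  intro u v huv hside hcross
  -- two neighbours of `u`
  have h2 : 1 < (univ.filter (fun w => G.Adj u w)).card := by
    have h := hdeg u
    unfold dg at h
    have h' : (univ.filter (fun w => G.Adj u w)).card =
        (@Finset.filter V (fun w => G.Adj u w) (Classical.decPred _) univ).card := by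
      congr 1
    rw [h']
    exact h
  obtain ⟨a, ha, b, hb, hab⟩ := Finset.one_lt_card.1 h2
  simp only [mem_filter, mem_univ, true_and] at ha hb
  obtain ⟨c, hc, hcv⟩ : ∃ c, G.Adj u c ∧ ¬ G.Adj v c := by
    by_cases hav : G.Adj v a
    · by_cases hbv : G.Adj v b
      · exact absurd (hC4 u v huv a b ha hav hb hbv) hab
      · exact ⟨b, hb, hbv⟩
    · exact ⟨a, ha, hav⟩
  have hs : side v ≠ side c := by
    rw [← hside]; exact hB u c hc
  exact h3 v c hs hcv (MK.dot_of_cross hcross (hρ0 u) (hρR u c hc))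

end N3
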