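import Pool.Agent.Lib_n3.Stmts

/-!
# Module LemmaE (MP_07e12a_co)

`N3.lemmaE (hC : N3.CutsStmt) : N3.LemmaEStmt`: in a cyclically 5-edge-connected Levi graph there is a
path with two edges lying in no nontrivial 5-edge-cut.
-/

open Finset

namespace N3

section lemmaE
variable {V : Type} [Fintype V] [DecidableEq V]

theorem lemmaE_ed_mono (G : SimpleGraph V) (A : Finset V) {B C : Finset V} (h : B ⊆ C) :
    ed G A B ≤ ed G A C := by
  classical
  unfold ed dg
  exact Finset.sum_le_sum fun v _ => Finset.card_le_card (Finset.filter_subset_filter _ h)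

theorem lemmaE_dg_le (G : SimpleGraph V) (S : Finset V) (v : V) : dg G S v ≤ S.card := by
  classical
  unfold dg
  exact Finset.card_filter_le _ _

/-- two vertices on one side: at most `|T| + 1` edges to `T` -/
theorem lemmaE_two (G : SimpleGraph V) (h4 : NoC4 G) (S T : Finset V) (hS : S.card = 2) :
    ed G T S ≤ T.card + 1 := by
  classical
  obtain ⟨a, b, hab, rfl⟩ := Finset.card_eq_two.1 hS
  have key : ∀ t, 2 ≤ dg G {a, b} t → G.Adj t a ∧ G.Adj t b := by
    intro t ht
    unfold dg at ht
    have h1 : (({a, b} : Finset V).filter (fun u => G.Adj t u)).card = ({a, b} : Finset V).card :=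
      le_antisymm (Finset.card_filter_le _ _) (by rw [hS]; exact ht)
    have h2 := (Finset.card_filter_eq_iff (s := ({a, b} : Finset V)) (p := fun u => G.Adj t u)).1 h1
    exact ⟨h2 a (by simp), h2 b (by simp)⟩
  have h1 : (T.filter (fun t => 2 ≤ dg G {a, b} t)).card ≤ 1 := by
    rw [Finset.card_le_one]
    intro t ht t' ht'
    obtain ⟨p, q⟩ := key t (Finset.mem_filter.1 ht).2
    obtain ⟨p', q'⟩ := key t' (Finset.mem_filter.1 ht').2
    exact h4 a b hab t t' p.symm q.symm p'.symm q'.symm
  have h2 : ed G T {a, b} ≤ ∑ t ∈ T, (1 + if 2 ≤ dg G {a, b} t then 1 else 0) := by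
    unfold ed
    refine Finset.sum_le_sum fun t _ => ?_
    have := lemmaE_dg_le G {a, b} t
    rw [hS] at this
    split_ifs with h
    · omega
    · omega
  rw [Finset.sum_add_distrib, Finset.sum_const, smul_eq_mul, mul_one, ← Finset.card_filter] at h2
  omega

theorem lemmaE_le_mul (G : SimpleGraph V) (S T : Finset V) : ed G T S ≤ T.card * S.card := by
  unfold ed
  calc ∑ t ∈ T, dg G S t ≤ ∑ _t ∈ T, S.card := Finset.sum_le_sum fun t _ => lemmaE_dg_le G S t
    _ = T.card * S.card := by rw [Finset.sum_const, smul_eq_mul]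

/-- no edges inside a set of vertices of the same side -/
theorem lemmaE_same (G : SimpleGraph V) (side : V → Bool) (hb : Bip G side) (S : Finset V) (c : Bool)
    (hS : ∀ v ∈ S, side v = c) : ed G S S = 0 := by
  classical
  unfold ed dg
  refine Finset.sum_eq_zero fun v hv => ?_
  rw [Finset.card_eq_zero, Finset.filter_eq_empty_iff]
  intro u hu hadj
  exact hb v u hadj ((hS v hv).trans (hS u hu).symm)

/-- a nontrivial 5-cut has at least 7 vertices on each side -/
theorem lemmaE_seven (hC : CutsStmt) (G : SimpleGraph V) (side : V → Bool) (hL : Lev G side)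
    (A : Finset V) (hA : cut G A = 5) (hA4 : 4 ≤ A.card) : 7 ≤ A.card := by
  classical
  obtain ⟨hcomm, hur, hul, hcompl, hsub, hpos, hmove, hmono, hcub, hpar⟩ := hC V G side
  obtain ⟨h3, hev, hpar2⟩ := hcub hL.cubic
  have e1 := h3 A
  have e2 := hpar2 A
  rw [hA] at e1 e2
  by_contra hlt
  have hA5 : A.card = 5 := by omega
  rw [hA5] at e1
  set P := A.filter (fun v => side v = false) with hP
  set L := A.filter (fun v => ¬ side v = false) with hLdef
  have hPL : Disjoint P L := Finset.disjoint_filter_filter_not _ _ _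
  have hun : P ∪ L = A := Finset.filter_union_filter_not_eq _ _
  have hcard : P.card + L.card = A.card := by rw [← Finset.card_union_of_disjoint hPL, hun]
  have hPP : ed G P P = 0 := lemmaE_same G side hL.bip P false (fun v hv => (Finset.mem_filter.1 hv).2)
  have hLL : ed G L L = 0 := lemmaE_same G side hL.bip L true (fun v hv => by
    have := (Finset.mem_filter.1 hv).2
    simpa using this)
  have hAA : ed G A A = ed G P L + ed G L P := by
    rw [← hun, hur _ _ _ hPL, hul _ _ _ hPL, hul _ _ _ hPL, hPP, hLL]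
    omega
  have hsym := hcomm P L
  have hPL5 : ed G P L = 5 := by omega
  have hLP5 : ed G L P = 5 := by omega
  have m1 := lemmaE_le_mul G L P
  have m2 := lemmaE_le_mul G P L
  have hcases : P.card = 0 ∨ P.card = 1 ∨ P.card = 2 ∨ L.card = 2 ∨ L.card = 1 ∨ L.card = 0 := by omega
  rcases hcases with h | h | h | h | h | h
  · rw [h] at m1; omega
  · rw [h] at m1; omega
  · have := lemmaE_two G hL.noC4 P L h
    omega
  · have := lemmaE_two G hL.noC4 L P h
    omega
  · rw [h] at m2; omega
  · rw [h] at m2; omega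

end lemmaE

theorem lemmaE (hC : CutsStmt) : LemmaEStmt := by
  intro V _ _ G side hne hL h5 _
  classical
  obtain ⟨hcomm, hur, hul, hcompl, hsub, hpos, hmove, hmono, hcub, hpar⟩ := hC V G side
  obtain ⟨h3, hev, hpar2⟩ := hcub hL.cubic
  by_cases hex : ∃ A : Finset V, cut G A = 5 ∧ 4 ≤ A.card ∧ 4 ≤ Aᶜ.card
  · obtain ⟨A0, hA0⟩ := hex
    obtain ⟨B, hB, hmin⟩ := Finset.exists_min_image
      ((univ : Finset (Finset V)).filter (fun A => cut G A = 5 ∧ 4 ≤ A.card ∧ 4 ≤ Aᶜ.card))
      Finset.card ⟨A0, by simpa using hA0⟩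
    have hB' : cut G B = 5 ∧ 4 ≤ B.card ∧ 4 ≤ Bᶜ.card := by simpa using hB
    obtain ⟨hB5, hB4, hB4'⟩ := hB'
    have hB7 : 7 ≤ B.card := lemmaE_seven hC G side hL B hB5 hB4
    have hBc7 : 7 ≤ Bᶜ.card := lemmaE_seven hC G side hL Bᶜ (by rw [hcompl]; exact hB5) hB4'
    -- proper subsets of `B` with at least 4 vertices have cut at least 6
    have hsix : ∀ S : Finset V, S ⊆ B → S ≠ B → 4 ≤ S.card → 6 ≤ cut G S := by
      intro S hSB hne' hS4
      have hSc : Bᶜ.card ≤ Sᶜ.card := Finset.card_le_card (Finset.compl_subset_compl.2 hSB)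
      have hlt : S.card < B.card := Finset.card_lt_card (Finset.ssubset_iff_subset_ne.2 ⟨hSB, hne'⟩)
      by_contra hlt6
      by_cases h5' : cut G S = 5
      · have := hmin S (by simp only [Finset.mem_filter, Finset.mem_univ, true_and]
                           exact ⟨h5', hS4, by omega⟩)
        omega
      · rcases h5 S (by omega) with h | h <;> omega
    -- the main claim, for one of `A`, `Aᶜ`
    have small : ∀ A : Finset V, cut G A = 5 → 4 ≤ A.card → 4 ≤ Aᶜ.card → (A ∩ B).Nonempty →
        (A ∩ B).card ≤ 3 → False := by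
      intro A hA hA4 hA4' hnon hle
      have hA7 : 7 ≤ A.card := lemmaE_seven hC G side hL A hA hA4
      set P := A ∩ B with hP
      have hPA : P ⊆ A := Finset.inter_subset_left
      have hPB : P ⊆ B := Finset.inter_subset_right
      have hPpos : 1 ≤ P.card := Finset.card_pos.2 hnon
      have c1 : (B \ P).card = B.card - P.card := Finset.card_sdiff_of_subset hPB
      have c2 : (A \ P).card = A.card - P.card := Finset.card_sdiff_of_subset hPA
      have k1 := hmove B P hPB
      have k2 := hmove A P hPA
      have s1 : 6 ≤ cut G (B \ P) := by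
        refine hsix _ Finset.sdiff_subset ?_ (by omega)
        intro heq
        rw [heq] at c1
        omega
      have s2 : 5 ≤ cut G (A \ P) := by
        by_contra hlt
        have hc : Aᶜ.card ≤ ((A \ P)ᶜ).card :=
          Finset.card_le_card (Finset.compl_subset_compl.2 Finset.sdiff_subset)
        rcases h5 (A \ P) (by omega) with h | h <;> omega
      have t1 : ed G P (A \ P) ≤ ed G P Bᶜ := by
        refine lemmaE_ed_mono G P ?_
        intro v hv
        rw [Finset.mem_sdiff] at hv
        rw [Finset.mem_compl]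
        intro hvB
        exact hv.2 (Finset.mem_inter.2 ⟨hv.1, hvB⟩)
      have t2 : ed G P (B \ P) ≤ ed G P Aᶜ := by
        refine lemmaE_ed_mono G P ?_
        intro v hv
        rw [Finset.mem_sdiff] at hv
        rw [Finset.mem_compl]
        intro hvA
        exact hv.2 (Finset.mem_inter.2 ⟨hvA, hv.1⟩)
      omega
    have claim : ∀ A : Finset V, cut G A = 5 → 4 ≤ A.card → 4 ≤ Aᶜ.card → ∀ a ∈ B, ∀ b ∈ B,
        a ∈ A → b ∉ A → False := by
      intro A hA hA4 hA4' a haB b hbB haA hbA
      have hAc : cut G Aᶜ = 5 := by rw [hcompl]; exact hA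
      have hn1 : (A ∩ B).Nonempty := ⟨a, Finset.mem_inter.2 ⟨haA, haB⟩⟩
      have hn2 : (Aᶜ ∩ B).Nonempty := ⟨b, Finset.mem_inter.2 ⟨Finset.mem_compl.2 hbA, hbB⟩⟩
      by_cases h1 : (A ∩ B).card ≤ 3
      · exact small A hA hA4 hA4' hn1 h1
      by_cases h2 : (Aᶜ ∩ B).card ≤ 3
      · exact small Aᶜ hAc hA4' (by rw [compl_compl]; exact hA4) hn2 h2
      have hBA : B \ A = Aᶜ ∩ B := by
        ext v
        simp only [Finset.mem_sdiff, Finset.mem_inter, Finset.mem_compl]
        tauto
      have e1 : 6 ≤ cut G (A ∩ B) := by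
        refine hsix _ Finset.inter_subset_right ?_ (by omega)
        intro heq
        have : b ∈ A ∩ B := by rw [heq]; exact hbB
        exact hbA (Finset.mem_inter.1 this).1
      have e2 : 6 ≤ cut G (B \ A) := by
        refine hsix _ Finset.sdiff_subset ?_ (by rw [hBA]; omega)
        intro heq
        have : a ∈ B \ A := by rw [heq]; exact haB
        exact (Finset.mem_sdiff.1 this).2 haA
      have s1 := hsub A B
      have s2 := hpos A B
      have f1 : ((A ∪ B)ᶜ).card ≤ 2 := by
        rcases h5 (A ∪ B) (by omega) with h | h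
        · have : B.card ≤ (A ∪ B).card := Finset.card_le_card Finset.subset_union_right
          omega
        · exact h
      have f2 : (A \ B).card ≤ 2 := by
        rcases h5 (A \ B) (by omega) with h | h
        · exact h
        · have : B.card ≤ ((A \ B)ᶜ).card := by
            refine Finset.card_le_card ?_
            intro v hv
            rw [Finset.mem_compl, Finset.mem_sdiff]
            tauto
          omega
      have hsplit : Bᶜ = (A ∪ B)ᶜ ∪ (A \ B) := by
        ext v
        simp only [Finset.mem_compl, Finset.mem_union, Finset.mem_sdiff]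
        tauto
      have : Bᶜ.card ≤ ((A ∪ B)ᶜ).card + (A \ B).card := by
        conv_lhs => rw [hsplit]
        exact Finset.card_union_le _ _
      omega
    -- a vertex of `B` with two neighbours in `B`
    have hx : ∃ x ∈ B, 2 ≤ dg G B x := by
      by_contra hcon
      push Not at hcon
      have : ed G B B ≤ B.card := by
        unfold ed
        calc ∑ v ∈ B, dg G B v ≤ ∑ _v ∈ B, 1 := Finset.sum_le_sum fun v hv => by
              have := hcon v hv
              omega
          _ = B.card := by simp
      have := h3 B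
      omega
    obtain ⟨x, hxB, hx2⟩ := hx
    unfold dg at hx2
    obtain ⟨v, hv, p, hp, hvp⟩ := Finset.one_lt_card.1 (lt_of_lt_of_le one_lt_two hx2)
    rw [Finset.mem_filter] at hv hp
    refine ⟨v, x, p, hv.2.symm, hp.2, hvp, ?_⟩
    intro A hA hA4 hA4'
    have hiff : ∀ a ∈ B, ∀ b ∈ B, (a ∈ A ↔ b ∈ A) := by
      intro a ha b hb
      constructor
      · intro h
        by_contra h'
        exact claim A hA hA4 hA4' a ha b hb h h'
      · intro h
        by_contra h'
        exact claim A hA hA4 hA4' b hb a ha h h'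
    exact ⟨hiff v hv.1 x hxB, hiff x hxB p hp.1⟩
  · obtain ⟨x⟩ := hne
    have hx := hL.cubic x
    unfold dg at hx
    obtain ⟨v, hv, p, hp, hvp⟩ := Finset.one_lt_card.1 (show 1 < _ by rw [hx]; norm_num)
    rw [Finset.mem_filter] at hv hp
    exact ⟨v, x, p, hv.2.symm, hp.2, hvp, fun A hA hA4 hA4' => absurd ⟨A, hA, hA4, hA4'⟩ hex⟩

end N3
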