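import Pool.Agent.Lib_n3.PerfDefs
import Pool.Agent.Lib_n3.PerfCheck

/-!
# The final theorem on perfect designs (MP_07e12a_co)
-/

open scoped Matrix Topology
open Finset

namespace N3

namespace PF

section
variable {V : Type} [Fintype V] [DecidableEq V]

lemma quot_adj {G : SimpleGraph V} {side : V → Bool} {q : V → V} (hG : Bip G side)
    (hq : ∀ v, side (q v) = side v) {u v : V} (h : G.Adj u v) : (quot G q).Adj (q u) (q v) := by
  unfold quot
  rw [SimpleGraph.fromRel_adj]
  refine ⟨?_, Or.inl ⟨u, v, h, rfl, rfl⟩⟩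
  intro he
  apply hG u v h
  rw [← hq u, ← hq v, he]

lemma quot_bip {G : SimpleGraph V} {side : V → Bool} {q : V → V} (hG : Bip G side)
    (hq : ∀ v, side (q v) = side v) : Bip (quot G q) side := by
  intro a b hab
  unfold quot at hab
  rw [SimpleGraph.fromRel_adj] at hab
  rcases hab.2 with ⟨u, v, h, rfl, rfl⟩ | ⟨u, v, h, rfl, rfl⟩
  · rw [hq, hq]; exact hG u v h
  · rw [hq, hq]; exact (hG u v h).symm

end

end PF

theorem pfinal (hG : ThmGStmt) (hTF : TwoDegFreeStmt) (hPB : PBaseStmt) (hPT : PT2Stmt)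
    (hPD : PTwoDegStmt) (hPK : PKillStmt) (hK : KillD3Stmt) : PFinalStmt := by
  intro V _ _ G side P ts ce cf f t hL h5 hwf hpeel hkill hE
  have hB := hPB V G side P ts f t hL hwf hE
  have hT := hPT V G side P ts f t hL h5 hwf hB hE.dis
  obtain ⟨h2, h3⟩ := hPD V G side P ts ce [] f t hL hwf hB hT hpeel
  have hBipK : Bip (quot G (qmap P f)) side := PF.quot_bip hL.bip hB.qs
  obtain ⟨ρ, hρR, hρS, hρE⟩ := hG V (quot G (qmap P f)) side hBipK hB.noC4 h2
    (fun x y hxy hadj => h3 x y hxy hadj (by simp))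
  have hfree : StressFree (quot G (qmap P f)) ρ := hTF V _ side ρ hBipK hρS h2
  obtain ⟨-, hf2⟩ := hPK V G side P ts cf f t ρ hL hwf hB hρR hρS hfree hkill
  refine hK V G side hL.bip hL.noC4 (fun v => by rw [hL.cubic]; norm_num) (ρ ∘ qmap P f)
    (fun v => hρS.1 _) ?_ ?_
  · intro u v huv
    exact hρR _ _ (PF.quot_adj hL.bip hB.qs huv)
  · intro x y hxy hG0 h0
    refine hf2 x y hxy hG0 ?_
    by_contra hadj
    exact hρE (qmap P f x) (qmap P f y) (by rw [hB.qs, hB.qs]; exact hxy) hadj h0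

theorem perfect (hG : ThmGStmt) (hTF : TwoDegFreeStmt) (hPB : PBaseStmt) (hPT : PT2Stmt)
    (hPD : PTwoDegStmt) (hPK : PKillStmt) (hK : KillD3Stmt) : PerfectStmt := by
  have hF := pfinal hG hTF hPB hPT hPD hPK hK
  intro V _ _ G side hL h5 P hP f t hE
  simp only [List.mem_cons, List.not_mem_nil, or_false] at hP
  rcases hP with rfl | rfl | rfl | rfl
  · exact hF V G side _ _ _ _ f t hL h5 pTHETA_wf pTHETA_peel pTHETA_kill hE
  · exact hF V G side _ _ _ _ f t hL h5 pL3_wf pL3_peel pL3_kill hE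
  · exact hF V G side _ _ _ _ f t hL h5 pE10_wf pE10_peel pE10_kill hE
  · exact hF V G side _ _ _ _ f t hL h5 pD20_wf pD20_peel pD20_kill hE

end N3
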