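import Pool.Agent.Lib_n3.PerfDefs
import Pool.Agent.Lib_n3.Cuts
import Pool.Agent.Lib_n3.Core

/-!
# Module PTwoDeg: the quotient by a perfect pattern plus one edge is 2-degenerate
-/

open Finset

namespace N3

namespace PTwo

variable {V : Type} [Fintype V] [DecidableEq V]

/-- a core of `F` -/
def IsCore (F : SimpleGraph V) (S : Finset V) : Prop := S.Nonempty ∧ ∀ v ∈ S, 3 ≤ dg F S v

theorem twoDeg_of {F : SimpleGraph V} (h : ∀ S, ¬ IsCore F S) : TwoDeg F := by
  intro S hS
  by_contra hc
  refine h S ⟨hS, fun v hv => ?_⟩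
  by_contra h3
  exact hc ⟨v, hv, by omega⟩

theorem dg_le_card {F : SimpleGraph V} {S B : Finset V} {v : V}
    (h : ∀ u ∈ S, F.Adj v u → u ∈ B) : dg F S v ≤ B.card := by
  classical
  unfold dg
  refine Finset.card_le_card ?_
  intro u hu
  rw [Finset.mem_filter] at hu
  exact h u hu.1 hu.2

theorem dg_zero {F : SimpleGraph V} {S : Finset V} {v : V}
    (h : ∀ u ∈ S, ¬ F.Adj v u) : dg F S v = 0 := by
  have h1 : dg F S v ≤ (∅ : Finset V).card := dg_le_card (fun u hu hadj => absurd hadj (h u hu))
  simpa using h1

theorem dg_pos_of {F : SimpleGraph V} {v u : V} (h : F.Adj v u) : 1 ≤ dg F {u} v := by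
  rw [dg_eq, Finset.sum_singleton, ai_of F h]

theorem dg_addE (K : SimpleGraph V) (X Y : V) (S : Finset V) (v : V) :
    dg (addE K X Y) S v ≤ dg K S v + (if v = X then 1 else 0) + (if v = Y then 1 else 0) := by
  classical
  have h1 : dg (addE K X Y) S v ≤ (S.filter (fun u => K.Adj v u) ∪ (if v = X then {Y} else ∅) ∪
      (if v = Y then {X} else ∅)).card := by
    refine dg_le_card ?_
    intro u hu hadj
    rw [addE_adj] at hadj
    rw [Finset.mem_union, Finset.mem_union, Finset.mem_filter]
    rcases hadj with h | ⟨⟨h1, h2⟩ | ⟨h1, h2⟩, _⟩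
    · exact Or.inl (Or.inl ⟨hu, h⟩)
    · left; right
      rw [if_pos h1, Finset.mem_singleton]; exact h2
    · right
      rw [if_pos h1, Finset.mem_singleton]; exact h2
  refine h1.trans ((Finset.card_union_le _ _).trans ?_)
  refine Nat.add_le_add ((Finset.card_union_le _ _).trans ?_) ?_
  · refine Nat.add_le_add ?_ ?_
    · unfold dg
      refine le_of_eq ?_
      congr 1
    · split_ifs <;> simp
  · split_ifs <;> simp

theorem dg_addE_out {K : SimpleGraph V} {X Y : V} {S : Finset V} {v : V}
    (h : X ∉ S ∨ Y ∉ S) (hv : v ∈ S) : dg (addE K X Y) S v ≤ dg K S v := by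
  classical
  have h1 : dg (addE K X Y) S v ≤ (S.filter (fun u => K.Adj v u)).card := by
    refine dg_le_card ?_
    intro u hu hadj
    rw [addE_adj] at hadj
    rw [Finset.mem_filter]
    rcases hadj with h' | ⟨⟨h1, h2⟩ | ⟨h1, h2⟩, _⟩
    · exact ⟨hu, h'⟩
    · subst h1; subst h2
      rcases h with h | h
      · exact absurd hv h
      · exact absurd hu h
    · subst h1; subst h2
      rcases h with h | h
      · exact absurd hu h
      · exact absurd hv h
  refine h1.trans (le_of_eq ?_)
  unfold dg
  congr 1

section pat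

variable {G : SimpleGraph V} {side : V → Bool} {P : Pat} {ts : List Bool} {f t : ℕ → V}

theorem mem_outside {v : V} : v ∈ outside P f ↔ ∀ i < P.m, f i ≠ v := by
  unfold outside
  simp only [Finset.mem_filter, Finset.mem_univ, true_and]

theorem gx_lt {i : ℕ} (h : i < P.m) : gx P f t i = f i := by
  unfold gx; rw [if_pos h]

theorem gx_add (h : ℕ) : gx P f t (P.m + h) = t h := by
  unfold gx; rw [if_neg (by omega), Nat.add_sub_cancel_left]

theorem c_le (hwf : P.wf ts = true) {i : ℕ} (hi : i < P.m) : P.c i ≤ i := by
  unfold Pat.wf at hwf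
  simp only [Bool.and_eq_true] at hwf
  have h1 := hwf.1.1.1.1.2
  rw [List.all_eq_true] at h1
  have h2 := h1 i (List.mem_range.2 hi)
  simp only [Bool.and_eq_true, decide_eq_true_eq] at h2
  exact h2.1.1.2

theorem m_pos (hwf : P.wf ts = true) : 0 < P.m := by
  unfold Pat.wf at hwf
  simp only [Bool.and_eq_true, decide_eq_true_eq] at hwf
  have h1 := hwf.1.1.1.2
  omega

theorem host_lt {h : ℕ} (hh : P.host h = true) : h < P.m := by
  unfold Pat.host at hh
  simp only [Bool.and_eq_true, decide_eq_true_eq] at hh
  exact hh.1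

theorem mem_hosts {h : ℕ} : h ∈ P.hosts ↔ P.host h = true := by
  unfold Pat.hosts
  rw [List.mem_filter, List.mem_range]
  exact ⟨fun h => h.2, fun h => ⟨host_lt h, h⟩⟩

theorem mem_reps {a : ℕ} : a ∈ P.reps ↔ a < P.m ∧ P.c a = a := by
  unfold Pat.reps
  rw [List.mem_filter, List.mem_range, beq_iff_eq]

theorem kn_valid (B : PBase G side P ts f t) {a b : ℕ} (hb : b ∈ P.kn a) : Vx P b := by
  unfold Pat.kn at hb
  rw [List.mem_dedup, List.mem_map] at hb
  obtain ⟨j, hj, rfl⟩ := hb
  rw [List.mem_flatMap] at hj
  obtain ⟨i, hi, hj⟩ := hj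
  unfold Pat.mem at hi
  rw [List.mem_filter, List.mem_range] at hi
  exact (B.cx j (B.nxv i hi.1 j hj)).1

theorem gx_out (B : PBase G side P ts f t) {b : ℕ} (hb : Vx P b) (hbm : ¬ b < P.m) :
    gx P f t b ∈ outside P f := by
  rw [mem_outside]
  intro i hi he
  have h1 := B.inj i b (Or.inl hi) hb (by rw [gx_lt hi]; exact he)
  omega

theorem q_pat (B : PBase G side P ts f t) (hwf : P.wf ts = true) {i : ℕ} (hi : i < P.m) :
    qmap P f (f i) = f (P.c i) := by
  have h1 := B.qg i (Or.inl hi)
  rw [gx_lt hi] at h1
  rw [h1]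
  have h2 : P.cx i = P.c i := by unfold Pat.cx; rw [if_pos hi]
  rw [h2, gx_lt (lt_of_le_of_lt (c_le hwf hi) hi)]

/-- correctness of the peeling orders -/
theorem peel_ok (B : PBase G side P ts f t) (F : SimpleGraph V) (S : Finset V)
    (att : Bool) (x y : ℕ)
    (hF : ∀ a < P.m, dg F S (f a) ≤ dg (quot G (qmap P f)) S (f a) +
      (if a == x then 1 else 0) + (if a == y then 1 else 0))
    (hS : ∀ v ∈ S, 3 ≤ dg F S v)
    (hatt : att = true ∨ ∀ v ∈ S, v ∉ outside P f) :
    ∀ (l rem : List ℕ), (∀ a ∈ rem, a < P.m → f a ∉ S) → P.peel att x y rem l = true →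
      ∀ a ∈ l, a < P.m → f a ∉ S := by
  intro l
  induction l with
  | nil => intro rem _ _ a ha; simp at ha
  | cons a l ih =>
    intro rem hrem hp
    rw [Pat.peel, Bool.and_eq_true, decide_eq_true_eq] at hp
    obtain ⟨h1, h2⟩ := hp
    have ha : a < P.m → f a ∉ S := by
      intro ham hfa
      have h3 := hS _ hfa
      have h4 := hF a ham
      have h5 : dg (quot G (qmap P f)) S (f a) ≤
          ((P.kn a).filter (fun b => if b < P.m then !(rem.contains b) else att)).length := by
        by_cases hc : P.c a = a
        · have har : a ∈ P.reps := mem_reps.2 ⟨ham, hc⟩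
          have h6 : dg (quot G (qmap P f)) S (f a) ≤
              (((P.kn a).filter (fun b => if b < P.m then !(rem.contains b) else att)).map
                (gx P f t)).toFinset.card := by
            refine dg_le_card ?_
            intro u hu hadj
            obtain ⟨b, hb, rfl⟩ := (B.kadj a har u).1 hadj
            rw [List.mem_toFinset, List.mem_map]
            refine ⟨b, ?_, rfl⟩
            rw [List.mem_filter]
            refine ⟨hb, ?_⟩
            by_cases hbm : b < P.m
            · rw [if_pos hbm]
              have hbr : b ∉ rem := by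
                intro hbr
                rw [gx_lt hbm] at hu
                exact hrem b hbr hbm hu
              simpa using hbr
            · rw [if_neg hbm]
              rcases hatt with h | h
              · exact h
              · exact absurd (gx_out B (kn_valid B hb) hbm) (h _ hu)
          refine h6.trans ((List.toFinset_card_le _).trans ?_)
          rw [List.length_map]
        · rw [dg_zero (fun u _ => B.iso a ham hc u)]
          exact Nat.zero_le _
      omega
    intro b hb hbm
    rcases List.mem_cons.1 hb with rfl | hb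
    · exact ha hbm
    · refine ih (a :: rem) ?_ h2 b hb hbm
      intro c hc hcm
      rcases List.mem_cons.1 hc with rfl | hc
      · exact ha hcm
      · exact hrem c hc hcm

/-- degrees of the vertices outside the pattern -/
theorem outside_deg (B : PBase G side P ts f t) (L : Lev G side) {S W : Finset V} {v : V}
    (hv : v ∈ outside P f) (hW : ∀ u ∈ W, qmap P f u ∉ S) :
    dg (quot G (qmap P f)) S v + dg G W v ≤ 3 := by
  classical
  have hN : (univ.filter (fun u => G.Adj v u)).card = 3 := by
    rw [← L.cubic v]
    unfold dg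
    congr 1
  have h1 : dg (quot G (qmap P f)) S v ≤
      (((univ.filter (fun u => G.Adj v u)).filter (fun u => qmap P f u ∈ S)).image
        (qmap P f)).card := by
    refine dg_le_card ?_
    intro u hu hadj
    rw [B.kout v (mem_outside.1 hv) u] at hadj
    obtain ⟨w, hw, rfl⟩ := hadj
    refine Finset.mem_image_of_mem _ ?_
    rw [Finset.mem_filter, Finset.mem_filter]
    exact ⟨⟨Finset.mem_univ _, hw⟩, hu⟩
  have h2 : dg G W v ≤
      ((univ.filter (fun u => G.Adj v u)).filter (fun u => ¬ qmap P f u ∈ S)).card := by
    refine dg_le_card ?_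
    intro u hu hadj
    rw [Finset.mem_filter, Finset.mem_filter]
    exact ⟨⟨Finset.mem_univ _, hadj⟩, hW u hu⟩
  have h3 := h1.trans Finset.card_image_le
  have h4 := Finset.card_filter_add_card_filter_not (s := univ.filter (fun u => G.Adj v u))
    (fun u => qmap P f u ∈ S)
  omega

/-- a vertex which is not a class representative is not in a core -/
theorem S_rep (B : PBase G side P ts f t) {F : SimpleGraph V} {S : Finset V}
    (hS : ∀ v ∈ S, 3 ≤ dg F S v) {a : ℕ} (ham : a < P.m) (hc : P.c a ≠ a)
    (hF : dg F S (f a) ≤ dg (quot G (qmap P f)) S (f a) + 2) : f a ∉ S := by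
  intro h
  have h1 := hS _ h
  rw [dg_zero (fun u _ => B.iso a ham hc u)] at hF
  omega

/-- the two situations without load in the pattern -/
theorem no_core (B : PBase G side P ts f t) (L : Lev G side) (hwf : P.wf ts = true)
    {o0 : List ℕ} (h0 : P.peel true (2 * P.m) (2 * P.m) [] o0 = true)
    (h0r : ∀ a ∈ P.reps, a ∈ o0) (F : SimpleGraph V) (S : Finset V) (X Y : V)
    (hFm : ∀ a < P.m, dg F S (f a) ≤ dg (quot G (qmap P f)) S (f a))
    (hFv : ∀ v ∈ S, dg F S v ≤ dg (quot G (qmap P f)) S v + (if v = X then 1 else 0) +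
      (if v = Y then 1 else 0)) (hS : IsCore F S) : False := by
  classical
  have hpat : ∀ a < P.m, f a ∉ S := by
    intro a ham
    by_cases hc : P.c a = a
    · refine peel_ok B F S true (2 * P.m) (2 * P.m) ?_ hS.2 (Or.inl rfl) o0 [] ?_ h0 a
        (h0r a (mem_reps.2 ⟨ham, hc⟩)) ham
      · intro b hb
        have := hFm b hb
        omega
      · intro b hb; simp at hb
    · refine S_rep B hS.2 ham hc ?_
      have := hFm a ham
      omega
  have hsub : ∀ v ∈ S, v ∈ outside P f := by
    intro v hv
    rw [mem_outside]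
    intro i hi he
    subst he
    exact hpat i hi hv
  have hW : ∀ u ∈ Sᶜ, qmap P f u ∉ S := by
    intro u hu hq
    rw [Finset.mem_compl] at hu
    by_cases ho : u ∈ outside P f
    · rw [B.qo u (mem_outside.1 ho)] at hq
      exact hu hq
    · rw [mem_outside] at ho
      simp only [not_forall] at ho
      obtain ⟨i, hi, he⟩ := ho
      have he' : f i = u := not_not.1 he
      subst he'
      rw [q_pat B hwf hi] at hq
      exact hpat _ (lt_of_le_of_lt (c_le hwf hi) hi) hq
  have hcut : cut G S ≤ 2 := by
    unfold cut ed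
    have h1 : ∀ v ∈ S, dg G Sᶜ v ≤ (if v = X then 1 else 0) + (if v = Y then 1 else 0) := by
      intro v hv
      have h2 := outside_deg B L (hsub v hv) hW
      have h3 := hFv v hv
      have h4 := hS.2 v hv
      omega
    refine (Finset.sum_le_sum h1).trans ?_
    rw [Finset.sum_add_distrib, Finset.sum_ite_eq', Finset.sum_ite_eq']
    split_ifs <;> omega
  have hc3 := L.c3 S hS.1 ⟨f 0, by
    rw [Finset.mem_compl]; exact hpat 0 (m_pos hwf)⟩
  omega

/-- all of the outside is in the core as soon as at most one edge leaves -/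
theorem cut_le (B : PBase G side P ts f t) (L : Lev G side) (F : SimpleGraph V) (S : Finset V)
    (Y : V) (hFv : ∀ v ∈ S, v ∈ outside P f → dg F S v ≤ dg (quot G (qmap P f)) S v +
      (if v = Y then 1 else 0)) (hS : IsCore F S) :
    ed G (outside P f ∩ S) (outside P f \ (outside P f ∩ S)) ≤ 1 := by
  classical
  unfold ed
  have h1 : ∀ v ∈ outside P f ∩ S, dg G (outside P f \ (outside P f ∩ S)) v ≤
      (if v = Y then 1 else 0) := by
    intro v hv
    rw [Finset.mem_inter] at hv
    have h2 := outside_deg B L (S := S) (W := outside P f \ (outside P f ∩ S)) hv.1 (by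
      intro u hu hq
      rw [Finset.mem_sdiff, Finset.mem_inter] at hu
      rw [B.qo u (mem_outside.1 hu.1)] at hq
      exact hu.2 ⟨hu.1, hq⟩)
    have h3 := hFv v hv.2 hv.1
    have h4 := hS.2 v hv.2
    omega
  refine (Finset.sum_le_sum h1).trans ?_
  rw [Finset.sum_ite_eq']
  split_ifs <;> omega

/-- a host whose class is not in the core kills a core containing the outside -/
theorem host_kill (B : PBase G side P ts f t) (L : Lev G side) (hwf : P.wf ts = true)
    (F : SimpleGraph V) (S : Finset V) (hS : IsCore F S) (hT : outside P f ⊆ S) {h : ℕ}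
    (hh : P.host h = true) (hc : f (P.c h) ∉ S)
    (hF : dg F S (t h) ≤ dg (quot G (qmap P f)) S (t h)) : False := by
  have hm := host_lt hh
  have hVx : Vx P (P.m + h) := Or.inr ⟨h, hh, rfl⟩
  have hout : t h ∈ outside P f := by
    have := gx_out B hVx (by omega)
    rwa [gx_add] at this
  have hadj : G.Adj (f h) (t h) := by
    rw [B.nbr h hm]
    refine ⟨P.m + h, ?_, gx_add h⟩
    unfold Pat.nx
    rw [hh]
    simp
  have h1 := outside_deg B L (S := S) (W := {f h}) hout (by
    intro u hu
    rw [Finset.mem_singleton] at hu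
    subst hu
    rw [q_pat B hwf hm]
    exact hc)
  have h2 := dg_pos_of hadj.symm
  have h3 := hS.2 _ (hT hout)
  omega

theorem exists_idx {X : V} (h : X ∉ outside P f) : ∃ i, i < P.m ∧ f i = X := by
  rw [mem_outside] at h
  simp only [not_forall] at h
  obtain ⟨i, hi, he⟩ := h
  exact ⟨i, hi, not_not.1 he⟩

end pat

end PTwo

open PTwo

theorem pTwoDeg : PTwoDegStmt := by
  intro V _ _ G side P ts ce exc f t L hwf B hPT2 hok
  classical
  unfold Pat.peelOK at hok
  simp only [Bool.and_eq_true] at hok
  obtain ⟨⟨⟨h0, h0r'⟩, hpT⟩, hpH⟩ := hok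
  have h0r : ∀ a ∈ P.reps, a ∈ ce.o0 := by
    intro a ha
    have := (List.all_eq_true.1 h0r') a ha
    simpa using this
  rw [List.all_eq_true] at hpT hpH
  have hnoK : ∀ S, ¬ IsCore (quot G (qmap P f)) S := by
    intro S hS
    exact no_core B L hwf h0 h0r (quot G (qmap P f)) S (f 0) (f 0) (fun a _ => le_refl _)
      (fun v _ => by omega) hS
  refine ⟨twoDeg_of hnoK, ?_⟩
  -- a load joining the class `a` to a vertex outside
  have caseC : ∀ a ∈ P.reps, ∀ Y ∈ outside P f, side (f a) ≠ side Y → ¬ (quot G (qmap P f)).Adj (f a) Y →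
      (∀ e ∈ exc, s(f a, Y) ≠ s(gx P f t e.1, gx P f t e.2)) →
      ∀ S, IsCore (addE (quot G (qmap P f)) (f a) Y) S → Y ∈ S → False := by
    intro a ha Y hY hsd hnadj hexc S hS hYS
    obtain ⟨ham, hca⟩ := mem_reps.1 ha
    have h1 := hpT a ha
    rw [List.any_eq_true] at h1
    obtain ⟨c, hc, h1⟩ := h1
    simp only [Bool.and_eq_true] at h1
    obtain ⟨⟨⟨h11, h12⟩, h13⟩, h14⟩ := h1
    have hfY : ∀ b < P.m, f b ≠ Y := mem_outside.1 hY
    have hpeel : ∀ b ∈ c.2, b < P.m → f b ∉ S := by
      refine peel_ok B (addE (quot G (qmap P f)) (f a) Y) S true a (2 * P.m) ?_ hS.2 (Or.inl rfl) c.2 [] ?_ h12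
      · intro b hb
        have h2 := dg_addE (quot G (qmap P f)) (f a) Y S (f b)
        rw [if_neg (hfY b hb)] at h2
        by_cases hab : b = a
        · subst hab
          rw [if_pos rfl] at h2
          simp only [beq_self_eq_true, if_true]
          omega
        · have : f b ≠ f a := by
            intro he
            apply hab
            exact B.inj b a (Or.inl hb) (Or.inl ham) (by rw [gx_lt hb, gx_lt ham]; exact he)
          rw [if_neg this] at h2
          omega
      · intro b hb; simp at hb
    have hcut := cut_le B L (addE (quot G (qmap P f)) (f a) Y) S Y (by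
      intro v hv hvo
      have h2 := dg_addE (quot G (qmap P f)) (f a) Y S v
      rw [if_neg (fun he => (mem_outside.1 hvo) a ham he.symm)] at h2
      omega) hS
    have hT : outside P f ⊆ S := by
      rcases hPT2 _ Finset.inter_subset_left hcut with h | h
      · exfalso
        have : Y ∈ outside P f ∩ S := Finset.mem_inter.2 ⟨hY, hYS⟩
        rw [h] at this
        simp at this
      · intro v hv
        rw [← h] at hv
        exact (Finset.mem_inter.1 hv).2
    have key : ∃ h, P.host h = true ∧ P.c h ∈ c.2 ∧ t h ≠ Y := by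
      by_cases hYt : ∃ h0, P.host h0 = true ∧ t h0 = Y
      · obtain ⟨h0', hh0, hY0⟩ := hYt
        have h2 := (List.all_eq_true.1 h14) h0' (mem_hosts.2 hh0)
        simp only [Bool.or_eq_true, beq_iff_eq] at h2
        rcases h2 with ((h2 | h2) | h2) | h2
        · exfalso
          have h3 := (B.sd (P.m + h0') a (Or.inr ⟨h0', hh0, rfl⟩) (Or.inl ham)).2 h2
          rw [gx_add, gx_lt ham, hY0] at h3
          exact hsd h3.symm
        · exfalso
          apply hnadj
          rw [B.kadj a ha]
          refine ⟨P.m + h0', ?_, by rw [gx_add]; exact hY0⟩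
          unfold Pat.kn
          rw [List.mem_dedup, List.mem_map]
          refine ⟨P.m + h0', ?_, ?_⟩
          · rw [List.mem_flatMap]
            refine ⟨h0', ?_, ?_⟩
            · unfold Pat.mem
              rw [List.mem_filter, List.mem_range, beq_iff_eq]
              exact ⟨host_lt hh0, h2⟩
            · unfold Pat.nx
              rw [hh0]
              simp
          · unfold Pat.cx
            rw [if_neg (by omega)]
        · exfalso
          have h3 : (a, P.m + h0') ∈ exc := by simpa using h2
          apply hexc _ h3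
          simp only [gx_add, gx_lt ham, hY0]
        · rw [List.any_eq_true] at h2
          obtain ⟨h, hh, h3⟩ := h2
          simp only [Bool.and_eq_true, bne_iff_ne] at h3
          have hh' := mem_hosts.1 hh
          refine ⟨h, hh', by simpa using h3.2, ?_⟩
          rw [← hY0]
          intro he
          apply h3.1
          have := B.inj (P.m + h) (P.m + h0') (Or.inr ⟨h, hh', rfl⟩) (Or.inr ⟨h0', hh0, rfl⟩)
            (by rw [gx_add, gx_add]; exact he)
          omega
      · rw [List.any_eq_true] at h13
        obtain ⟨h, hh, h3⟩ := h13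
        have hh' := mem_hosts.1 hh
        exact ⟨h, hh', by simpa using h3, fun he => hYt ⟨h, hh', he⟩⟩
    obtain ⟨h, hh, hch, hne⟩ := key
    have hcm : P.c h < P.m := lt_of_le_of_lt (c_le hwf (host_lt hh)) (host_lt hh)
    refine host_kill B L hwf (addE (quot G (qmap P f)) (f a) Y) S hS hT hh (hpeel _ hch hcm) ?_
    have h2 := dg_addE (quot G (qmap P f)) (f a) Y S (t h)
    have h3 : t h ≠ f a := by
      have h4 := gx_out B (b := P.m + h) (Or.inr ⟨h, hh, rfl⟩) (by omega)
      rw [gx_add, mem_outside] at h4
      exact fun he => h4 a ham he.symm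
    rw [if_neg h3, if_neg hne] at h2
    exact h2
  -- a load joining two classes
  have caseD : ∀ a ∈ P.reps, ∀ b ∈ P.reps, a < b → side (f a) ≠ side (f b) →
      ¬ (quot G (qmap P f)).Adj (f a) (f b) → ∀ S, IsCore (addE (quot G (qmap P f)) (f a) (f b)) S → False := by
    intro a ha b hb hab hsd hnadj S hS
    obtain ⟨ham, hca⟩ := mem_reps.1 ha
    obtain ⟨hbm, hcb⟩ := mem_reps.1 hb
    have h1 := (List.all_eq_true.1 (hpH a ha)) b hb
    simp only [Bool.or_eq_true, beq_iff_eq, decide_eq_true_eq] at h1
    rcases h1 with ((h1 | h1) | h1) | h1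
    · apply hsd
      have h2 := (B.sd a b (Or.inl ham) (Or.inl hbm)).2 h1
      rwa [gx_lt ham, gx_lt hbm] at h2
    · apply hnadj
      rw [B.kadj a ha]
      exact ⟨b, by simpa using h1, gx_lt hbm⟩
    · omega
    · rw [List.any_eq_true] at h1
      obtain ⟨c, hc, h1⟩ := h1
      simp only [Bool.and_eq_true] at h1
      obtain ⟨⟨⟨⟨⟨_, _⟩, h11⟩, h12⟩, h13⟩, h14⟩ := h1
      have hne : ∀ i < P.m, ∀ j < P.m, i ≠ j → f i ≠ f j := by
        intro i hi j hj hij he
        apply hij
        exact B.inj i j (Or.inl hi) (Or.inl hj) (by rw [gx_lt hi, gx_lt hj]; exact he)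
      have hFab : ∀ i < P.m, dg (addE (quot G (qmap P f)) (f a) (f b)) S (f i) ≤ dg (quot G (qmap P f)) S (f i) +
          (if i == a then 1 else 0) + (if i == b then 1 else 0) := by
        intro i hi
        have h2 := dg_addE (quot G (qmap P f)) (f a) (f b) S (f i)
        by_cases hia : i = a
        · subst hia
          have hib : i ≠ b := by omega
          rw [if_pos rfl, if_neg (hne i hi b hbm hib)] at h2
          simp only [beq_self_eq_true, if_true]
          omega
        · rw [if_neg (hne i hi a ham hia)] at h2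
          by_cases hib : i = b
          · subst hib
            rw [if_pos rfl] at h2
            simp only [beq_self_eq_true, if_true]
            omega
          · rw [if_neg (hne i hi b hbm hib)] at h2
            omega
      have hcut := cut_le B L (addE (quot G (qmap P f)) (f a) (f b)) S (f a) (by
        intro v hv hvo
        have h2 := dg_addE (quot G (qmap P f)) (f a) (f b) S v
        rw [if_neg (fun he => (mem_outside.1 hvo) a ham he.symm),
          if_neg (fun he => (mem_outside.1 hvo) b hbm he.symm)] at h2
        omega) hS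
      rcases hPT2 _ Finset.inter_subset_left hcut with h | h
      · -- the core avoids the outside
        have hno : ∀ v ∈ S, v ∉ outside P f := by
          intro v hv hvo
          have : v ∈ outside P f ∩ S := Finset.mem_inter.2 ⟨hvo, hv⟩
          rw [h] at this
          simp at this
        obtain ⟨v, hv⟩ := hS.1
        obtain ⟨i, hi, rfl⟩ := exists_idx (hno v hv)
        by_cases hci : P.c i = i
        · have hi2 : i ∈ c.2.2 := by
            have := (List.all_eq_true.1 h14) i (mem_reps.2 ⟨hi, hci⟩)
            simpa using this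
          exact peel_ok B (addE (quot G (qmap P f)) (f a) (f b)) S false a b hFab hS.2 (Or.inr hno) c.2.2 []
            (by intro j hj; simp at hj) h13 i hi2 hi hv
        · refine S_rep B hS.2 hi hci ?_ hv
          have h2 := hFab i hi
          have h3 : (if (i == a) = true then 1 else 0) ≤ 1 := by split_ifs <;> omega
          have h4 : (if (i == b) = true then 1 else 0) ≤ 1 := by split_ifs <;> omega
          omega
      · have hT : outside P f ⊆ S := by
          intro v hv
          rw [← h] at hv
          exact (Finset.mem_inter.1 hv).2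
        rw [List.any_eq_true] at h12
        obtain ⟨g, hg, h3⟩ := h12
        have hh := mem_hosts.1 hg
        have hcm : P.c g < P.m := lt_of_le_of_lt (c_le hwf (host_lt hh)) (host_lt hh)
        have hpeel := peel_ok B (addE (quot G (qmap P f)) (f a) (f b)) S true a b hFab hS.2 (Or.inl rfl) c.2.1 []
            (by intro j hj; simp at hj) h11 (P.c g) (by simpa using h3) hcm
        refine host_kill B L hwf (addE (quot G (qmap P f)) (f a) (f b)) S hS hT hh hpeel ?_
        have h2 := dg_addE (quot G (qmap P f)) (f a) (f b) S (t g)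
        have h4 := gx_out B (b := P.m + g) (Or.inr ⟨g, hh, rfl⟩) (by omega)
        rw [gx_add, mem_outside] at h4
        rw [if_neg (fun he => h4 a ham he.symm), if_neg (fun he => h4 b hbm he.symm)] at h2
        exact h2
  intro X Y hsd hnadj hexc
  refine twoDeg_of ?_
  intro S hS
  by_cases hXY : X ∉ S ∨ Y ∉ S
  · exact hnoK S ⟨hS.1, fun v hv => (hS.2 v hv).trans (dg_addE_out hXY hv)⟩
  · have hX : X ∈ S := by by_contra h; exact hXY (Or.inl h)
    have hY : Y ∈ S := by by_contra h; exact hXY (Or.inr h)
    -- a pattern vertex in the core is a representative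
    have hrep : ∀ i < P.m, f i ∈ S → i ∈ P.reps := by
      intro i hi hiS
      rw [mem_reps]
      refine ⟨hi, ?_⟩
      by_contra hci
      have h2 := dg_addE (quot G (qmap P f)) X Y S (f i)
      have h3 : (if f i = X then 1 else 0) ≤ 1 := by split_ifs <;> omega
      have h4 : (if f i = Y then 1 else 0) ≤ 1 := by split_ifs <;> omega
      exact S_rep B hS.2 hi hci (by omega) hiS
    by_cases hXo : X ∈ outside P f
    · by_cases hYo : Y ∈ outside P f
      · refine no_core B L hwf h0 h0r (addE (quot G (qmap P f)) X Y) S X Y ?_ (fun v _ => dg_addE (quot G (qmap P f)) X Y S v) hS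
        intro a ham
        have h2 := dg_addE (quot G (qmap P f)) X Y S (f a)
        rw [if_neg (mem_outside.1 hXo a ham), if_neg (mem_outside.1 hYo a ham)] at h2
        exact h2
      · obtain ⟨a, ham, rfl⟩ := exists_idx hYo
        rw [addE_comm] at hS
        refine caseC a (hrep a ham hY) X hXo hsd.symm (fun h => hnadj h.symm) ?_ S hS hX
        intro e he
        rw [Sym2.eq_swap]
        exact hexc e he
    · obtain ⟨a, ham, rfl⟩ := exists_idx hXo
      by_cases hYo : Y ∈ outside P f
      · exact caseC a (hrep a ham hX) Y hYo hsd hnadj hexc S hS hY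
      · obtain ⟨b, hbm, rfl⟩ := exists_idx hYo
        rcases lt_trichotomy a b with hab | hab | hab
        · exact caseD a (hrep a ham hX) b (hrep b hbm hY) hab hsd hnadj S hS
        · subst hab
          exact hsd rfl
        · rw [addE_comm] at hS
          exact caseD b (hrep b hbm hY) a (hrep a ham hX) hab hsd.symm (fun h => hnadj h.symm) S hS

end N3
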