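import Pool.Agent.Lib_n3.StmtsK4

/-!
# Peeling order (MP_07e12a_co)
-/

open Finset

namespace N3

/-- the classes of a peeling order are not in a core -/
theorem peel_aux {V : Type} [Fintype V] [DecidableEq V] (F : SimpleGraph V) (P : Pat)
    (f t : ℕ → V) (S : Finset V) (x y : ℕ)
    (hkn : ∀ a ∈ P.reps, ∀ v, F.Adj (f a) v → ∃ b ∈ P.kn a, gx P f t b = v)
    (hS : ∀ v ∈ S, 3 ≤ dg F S v) :
    ∀ (o rem : List ℕ), P.peel true x y rem o = true → (∀ a ∈ o, a ∈ P.reps) →
      (∀ b ∈ rem, f b ∉ S) → ∀ a ∈ o, f a ∉ S := by
  classical
  intro o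
  induction o with
  | nil => intro rem _ _ _ a ha; exact absurd ha List.not_mem_nil
  | cons c l ih =>
    intro rem hp ho hr
    rw [Pat.peel, Bool.and_eq_true, decide_eq_true_eq] at hp
    obtain ⟨hp1, hp2⟩ := hp
    have hc : f c ∉ S := by
      intro hcS
      have h3 := hS _ hcS
      set L : List ℕ := (P.kn c).filter (fun b => if b < P.m then !(rem.contains b) else true) with hL
      have hLlen : L.length ≤ 2 := by omega
      have hsub : S.filter (fun u => F.Adj (f c) u) ⊆ L.toFinset.image (gx P f t) := by
        intro v hv
        rw [mem_filter] at hv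
        obtain ⟨b, hb, hbv⟩ := hkn c (ho c List.mem_cons_self) v hv.2
        refine mem_image.2 ⟨b, ?_, hbv⟩
        rw [List.mem_toFinset, hL, List.mem_filter]
        refine ⟨hb, ?_⟩
        by_cases hbm : b < P.m
        · rw [if_pos hbm]
          have hnr : b ∉ rem := by
            intro hbr
            have h1 := hr b hbr
            rw [gx, if_pos hbm] at hbv
            rw [hbv] at h1
            exact h1 hv.1
          simpa using hnr
        · rw [if_neg hbm]
      have hcard : dg F S (f c) ≤ 2 := by
        have h1 : dg F S (f c) = (S.filter (fun u => F.Adj (f c) u)).card := by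
          rw [dg]
        rw [h1]
        exact (card_le_card hsub).trans (card_image_le.trans ((List.toFinset_card_le L).trans hLlen))
      omega
    intro a ha
    rcases List.mem_cons.1 ha with rfl | ha
    · exact hc
    · refine ih (c :: rem) hp2 (fun a ha => ho a (List.mem_cons_of_mem _ ha)) ?_ a ha
      intro b hb
      rcases List.mem_cons.1 hb with rfl | hb
      · exact hc
      · exact hr b hb

theorem peel : PeelStmt := by
  intro V _ _ F P f t o S hp ho hkn hS
  exact peel_aux F P f t S _ _ hkn hS o [] hp ho (fun b hb => absurd hb List.not_mem_nil)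

end N3
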