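import Pool.Agent.Lib_n3.Stmts

/-!
# Statements: Lemma A and the standard collapse of a hexagon (MP_07e12a_co)
-/

open scoped Matrix Topology
open Finset

namespace N3

/-! ### Module LemmaA

Let `a b`, `c d` be two different non-edges of `H` (`f = ρ a ⬝ᵥ ρ b`, `g = ρ c ⬝ᵥ ρ d`), both zero at
`κ ∈ X_H`, and both `H + ab`, `H + cd` stress-free at `κ`.  If there are points of `X_H` near `κ` with
`g = 0 ≠ f` then there are points of `X_H` near `κ` with `f = 0 ≠ g`.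
Proof.  Let `Φ` be the vector of the functions `ρ u ⬝ᵥ ρ v`, `uv` an edge of `H`.  If the derivatives of
`(Φ, f, g)` are independent at `κ` use the open mapping theorem.  Otherwise `g' = c f' + L ∘ Φ'` with
`c ≠ 0` (since `(Φ, g)` is independent).  Take `m` near `κ` with `Φ m = 0`, `g m = 0`, `f m = δ ≠ 0`.
`(Φ, f)` has a surjective strict derivative at `κ`, so there is `m'` with `(Φ, f) m' = 0` and
`‖m' - m‖ ≤ C |δ|` (`ApproximatesLinearOn.surjOn_closedBall_of_nonlinearRightInverse`), and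
`g m' = g m' - g m = g' (m' - m) + o(‖m' - m‖) = c (f m' - f m) + o(|δ|) = - c δ + o(|δ|) ≠ 0`. -/
def LemmaAStmt : Prop := ∀ (V : Type) [Fintype V] [DecidableEq V] (H : SimpleGraph V)
  (side : V → Bool) (κ : V → E) (a b c d : V), Bip H side → side a ≠ side b → side c ≠ side d →
    ¬ H.Adj a b → ¬ H.Adj c d → s(a, b) ≠ s(c, d) → Rlz H κ → κ a ⬝ᵥ κ b = 0 → κ c ⬝ᵥ κ d = 0 →
    StressFree (addE H a b) κ → StressFree (addE H c d) κ →
    (∀ U ∈ 𝓝 κ, ∃ m ∈ U, Rlz H m ∧ m c ⬝ᵥ m d = 0 ∧ m a ⬝ᵥ m b ≠ 0) →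
    ∀ U ∈ 𝓝 κ, ∃ m ∈ U, Rlz H m ∧ m a ⬝ᵥ m b = 0 ∧ m c ⬝ᵥ m d ≠ 0

section
variable {V : Type} [Fintype V] [DecidableEq V]

/-- a hexagon `v 0, ..., v 5` with the third neighbours `w i` of its vertices -/
structure HexData (G : SimpleGraph V) (side : V → Bool) (v w : Fin 6 → V) : Prop where
  lev : Lev G side
  c5 : Cyc5 G
  inj : Function.Injective v
  vv : ∀ i, G.Adj (v i) (v (i + 1))
  vw : ∀ i, G.Adj (v i) (w i)
  wv : ∀ i j, w i ≠ v j

/-- the identification `v 5 ↦ v 1`, `v 4 ↦ v 2` -/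
def stdQ (v : Fin 6 → V) : V → V := fun u => if u = v 5 then v 1 else if u = v 4 then v 2 else u

/-- the quotient with `v 0`, `v 3` removed -/
def stdK (G : SimpleGraph V) (v : Fin 6 → V) : SimpleGraph V :=
  res (quot G (stdQ v)) (univ \ {v 0, v 3})

/-- the conditions under which the hexagon can be collapsed with axis `v 0, v 3` -/
structure StdOK (G : SimpleGraph V) (w : Fin 6 → V) : Prop where
  h03 : ¬ G.Adj (w 0) (w 3)
  h14 : ¬ G.Adj (w 1) (w 4)
  h25 : ¬ G.Adj (w 2) (w 5)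
  c15 : ∀ z, ¬ (G.Adj (w 1) z ∧ G.Adj (w 5) z)
  c24 : ∀ z, ¬ (G.Adj (w 2) z ∧ G.Adj (w 4) z)

/-- a realization of `stdK`: everything is generic except possibly `w 0, w 3` -/
structure StdRho (G : SimpleGraph V) (side : V → Bool) (v w : Fin 6 → V) (ρ : V → E) : Prop where
  rlz : Rlz (stdK G v) ρ
  sep : Sep side ρ
  free : StressFree (stdK G v) ρ
  exact : ∀ y z, side y ≠ side z → ¬ (stdK G v).Adj y z → s(y, z) ≠ s(w 0, w 3) → ρ y ⬝ᵥ ρ z ≠ 0
  core : ∀ τ, Stress (addE (stdK G v) (w 0) (w 3)) ρ τ → τ (v 1) (w 1) = 0 → ∀ a b, τ a b = 0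

end

/-! ### Module StdRho

Write `A = v 1 = v 5`, `B = v 2 = v 4` in `K' = stdK G v`: `A ~ B, w 1, w 5`, `B ~ A, w 2, w 4`; `w 0`, `w 3` have
degree 2, `v 0, v 3, v 4, v 5` are isolated, all other vertices have degree 3.  The `w i` are distinct and
not on the hexagon, `w i` is not adjacent to `w (i+1)` (`NoC4`).  `K'` has no 4-cycle by `StdOK`.
Let `T` be a graph of minimum degree at least 3 on its set `S` of non-isolated vertices,
`T ≤ addE K' y z`, `{y, z} ≠ {w 0, w 3}`.  Then `S = ∅`: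
* `A, B ∈ S`: `Â = q⁻¹(S) ∪ {v 0, v 3}`; the cut of `Â` consists of `v 0 w 0` if `w 0 ∉ S`, `v 3 w 3` if `w 3 ∉ S`, and
  at most one edge at each of `y, z`, none at `w 0`, `w 3` if in `S` (they are in `S` only if they are `y` or
  `z`, and then their two edges and `y z` are in `T`).  If neither is in `{y, z}` the cut is at most 4,
  `w 0, w 3 ∉ Â`, so by `Cyc5` `Âᶜ = {w 0, w 3}`, but `cut {w 0, w 3} = 6` as `w 0 ≁ w 3`.  If exactly one is,
  say `w 0`, the cut is at most 2 and `w 3 ∉ Â`: against `c3`.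
* `A ∈ S`, `B ∉ S`: then `A ∈ {y, z}` has degree 3 with `w 1, w 5`; `Â = q⁻¹(S) ∪ {v 0}` has cut
  `v 1 v 2, v 5 v 4, v 0 w 0` and one at the other element of the pair: at most 4, and `v 2, v 3, v 4 ∉ Â`:
  against `Cyc5`.  Symmetric for `B`.
* `A, B ∉ S`: `cut S ≤ 2` against `c3`.
So `TwoDeg (addE K' y z)` for these pairs, `TwoDeg K'`.  For the pair `w 0, w 3`: if `T` does not contain
the edge `A (w 1)`, then `A` has degree at most 2, so `A ∉ S`, `B ∉ S`, and `cut S ≤ 2`: `T = ⊥`.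
REALIZATION.  Theorem G for `res K' (univ \ {w 0})` (all pairs are good: pairs containing the isolated
vertex `w 0` since it has degree at most 1 then) gives an exact `ρ₀`; change it at `w 0` to the cross
product of its two neighbours in `K'`: separated, since a parallel vector belongs to a vertex adjacent
to both, a 4-cycle.  MIN for `K'`, `U = {Sep}`, TwoDegFree and CORE give `ρ`. -/
def StdRhoStmt : Prop := ∀ (V : Type) [Fintype V] [DecidableEq V] (G : SimpleGraph V)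
  (side : V → Bool) (v w : Fin 6 → V), HexData G side v w → StdOK G w → ∃ ρ, StdRho G side v w ρ

/-! ### Module StdKill

Given `ρ` let `A = ρ (v 1)`, `B = ρ (v 2)`, `Wi = ρ (w i)`, `κ (v 0) = A × W0`, `κ (v 3) = B × W3`, `κ (v 5) = A`,
`κ (v 4) = B`, `κ u = ρ u` otherwise.  Zero non-adjacent pairs of `G` at `κ` (with `StdRho.exact`; for `v 0`:
`κ (v 0) ⬝ᵥ ρ u = det3 A W0 u` which is nonzero for `u` not adjacent ... see below): the collapsed pairs
`(v 1, w 5), (v 5, w 1), (v 2, w 4), (v 4, w 2), (v 1, v 4), (v 5, v 2)`, possibly `(w 0, w 3)`, and pairs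
`(v 0, y)`, `(v 3, y)`, `y` not on the hexagon.
Note `κ (v 0) ⬝ᵥ κ (v 3) = (A ⬝ᵥ B) (W0 ⬝ᵥ W3) - (A ⬝ᵥ W3) (W0 ⬝ᵥ B) = - (A ⬝ᵥ W3) (W0 ⬝ᵥ B) ≠ 0`.
ALL these pairs except `(w 0, w 3)` are killed; so is `G` itself.  Let `ω` be a stress of `addE G x y`:
for the collapsed pairs the fibre sums form a stress of `quot G (stdQ v)`: at `v 0` (neighbours `A`, `W0`
independent) `ω (v 0) (w 0) = 0` and `ω (v 0) (v 1) + ω (v 0) (v 5) = 0`, same at `v 3`, so they form a stress of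
`K'`, zero by `free`.  Hence all singleton fibres have weight zero.  Load `(v 1, w 5)`: at `v 2`: the vectors
`A`, `κ (v 3)` are independent (`A ⬝ᵥ W3 ≠ 0`), so `ω (v 2) (v 1) = ω (v 2) (v 3) = 0`; at `v 1`:
`ω (v 1) (v 0) κ (v 0) + t W5 = 0`, `κ (v 0)` and `W5` independent (`W0 ⬝ᵥ W5 ≠ 0`), so `t = 0`.  Load `(v 1, v 4)`:
at `v 1`: `κ (v 0)`, `B` independent (`W0 ⬝ᵥ B ≠ 0`): `ω (v 1) (v 0) = 0`, `ω (v 1) (v 2) = - t`; at `v 2` as before
`ω (v 2) (v 1) = 0`.  The other loads by symmetry; the remaining weights vanish in the same way.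
Pairs `(v 0, y)`: see `StdPairs` below.
LEMMA A for `H = G - v 5 v 0`, `ab = v 5 v 0`, `cd = w 0 w 3` when `W0 ⬝ᵥ W3 = 0`:
`addE H (v 5) (v 0) = G` is stress-free; `addE H (w 0) (w 3)`: at `v 0` (neighbours `v 1`, `w 0`) and at `v 3` as
before, so the fibre sums form a stress `τ` of `addE K' (w 0) (w 3)`, and at `v 1` (neighbours `v 2`, `w 1` and
weight zero to `v 0`), `B` and `W1` independent: `τ A (w 1) = ω (v 1) (w 1) = 0`; so `τ = 0` by `core`, and all
weights vanish.  Points of `X_H` near `κ` with `W0 ⬝ᵥ W3 = 0` and `v 5 v 0` nonzero: keep `κ` outside the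
hexagon; for `ξ ∈ W0^⊥` let `c0 = ξ`, `c1 = c0 × W1`, `c2 = c1 × W2`, `c3 = c2 × W3`, `c4 = c3 × W4`,
`c5 = c4 × W5`, `F ξ = c5 ⬝ᵥ c0`.  For `ξ = κ (v 0)` each `ci` is a nonzero multiple `λi` of `κ (v i)`; for
`ξ = W0 × W2`: `F ξ = ± (W1 ⬝ᵥ W2) (det3 W0 W2 W4) ((W0 ⬝ᵥ W3) (W2 ⬝ᵥ W5) - (W0 ⬝ᵥ W5) (W2 ⬝ᵥ W3)) ≠ 0`
(`det3 W0 W2 W4 = W0 ⬝ᵥ (W2 × W4)`, a nonzero multiple of `W0 ⬝ᵥ B ≠ 0`).  So
`t ↦ F (κ (v 0) + t (W0 × W2))` is a polynomial of degree 2, nonzero for small `t ≠ 0`; put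
`m (v i) = ci / λi`.
CONCLUSION: take a neighbourhood of `κ` on which killed pairs stay killed, nonzero pairs and vectors stay
nonzero; a point of `X_G` in it with `W0 ⬝ᵥ W3 ≠ 0`; apply KILL there.

StdPairs: pairs `(v 0, y)` with `y` not on the hexagon and `y ≠ w 0` (so `y` is on the side of `A`) and
`κ (v 0) ⬝ᵥ ρ y = 0`: the fibre sums form a stress of `addE (quot G q) (v 0) y` at `ρ` extended by
`κ (v 0), κ (v 3)`.  Its support is a 3-core `T` (`v 3` has degree 2, so it is not in it; the realization is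
separated: `κ (v 0)` parallel to a vector `ρ z` would give `z ~ A, w 0`).  Counting: if `v 0 ∈ S` then
`A, w 0, y ∈ S` and `w 3 ∉ S` (its neighbour `v 3` is not in `S`).  `B ∈ S`: `Â = q⁻¹(S) ∪ {v 3}` has cut at most 3
(`v 3 w 3`, one at `A`, one at `y`), so `Âᶜ` is one vertex (`Cyc5`, parity), so `Âᶜ = {w 3}`; the two
neighbours of `w 3` other than `v 3` are in `S` and miss `w 3`, but only `y` can.  `B ∉ S`: cut at most 3
(`v 1 v 2, v 5 v 4`, one at `y`), and `v 2, v 3, v 4` not in it.  If `v 0 ∉ S` then `T ≤ K'`.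
So the fibre sums vanish, in particular the load. Symmetric for `v 3`. -/
def StdKillStmt : Prop := ∀ (V : Type) [Fintype V] [DecidableEq V] (G : SimpleGraph V)
  (side : V → Bool) (v w : Fin 6 → V) (ρ : V → E), HexData G side v w → StdOK G w →
    StdRho G side v w ρ → LemmaAStmt → KillStmt → ∃ ρ, Exact G side ρ

/-- the standard collapse -/
def StdStmt : Prop := ∀ (V : Type) [Fintype V] [DecidableEq V] (G : SimpleGraph V)
  (side : V → Bool) (v w : Fin 6 → V), HexData G side v w → StdOK G w → ∃ ρ, Exact G side ρ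

end N3
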