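import Pool.Agent.Lib_n3.HexDefs
import Pool.Agent.Lib_n3.StmtsStd

/-!
# The standard pattern from the standard collapse (MP_07e12a_co)
-/

open scoped Matrix Topology
open Finset

namespace N3

theorem stdPat (hStd : StdStmt) : StdPatStmt := by
  intro V _ _ G side hL h5 f t h h03
  have hh : ∀ i : Fin 6, pSTD.host i = true := by decide
  refine hStd V G side (fun i => f i) (fun i => t i) ?_ ?_
  · refine ⟨hL, h5, ?_, ?_, ?_, ?_⟩
    · intro i j hij
      exact Fin.ext (h.inj i i.2 j j.2 hij)
    · intro i
      fin_cases i
      · exact h.adj (0, 1) (by decide)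
      · exact h.adj (1, 2) (by decide)
      · exact h.adj (2, 3) (by decide)
      · exact h.adj (3, 4) (by decide)
      · exact h.adj (4, 5) (by decide)
      · exact (h.adj (0, 5) (by decide)).symm
    · intro i
      exact h.att i (hh i)
    · intro i j
      exact h.out i (hh i) j j.2
  · refine ⟨h03, ?_, ?_, ?_, ?_⟩
    · exact h.nadj 1 4 (by decide) (by decide) (by decide)
    · exact h.nadj 2 5 (by decide) (by decide) (by decide)
    · exact h.ncom 1 5 (by decide) (by decide) (by decide) (by decide)
    · exact h.ncom 2 4 (by decide) (by decide) (by decide) (by decide)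

end N3
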