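import Pool.Agent.Lib_n3.PerfDefs

/-!
# Certificates for the patterns (MP_07e12a_co), generated by gencert.py
-/

namespace N3

def pTHETAts : List Bool :=
  [false, true, true, true, false, false, false, true]

def pTHETAP : PeelCert where
  o0 := [1,3,5,2,0]
  pT := [
    (0,[1,3,5,2]), (1,[3,5,2]), (2,[1,3,5]), (3,[1,5,2]), (5,[1,3])]
  pH := [
    ((1,5),[3],[1,2,3,5,0]), ((3,5),[1],[1,2,3,5,0])]

def pTHETAK : KillCert where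
  k0 := [
    .v 1, .v 3, .v 5, .v 7, .f 0 12, .f 0 14, .f 2 10, .v 2, .v 4, .v 6, .f 0 1, .f 0 3]
  ks := [
    ((0,7), [
      .f 0 12, .f 0 14, .v 4, .v 6, .v 7]),
    ((0,12), [
      .f 0 12, .f 0 14, .v 4, .v 6, .v 7]),
    ((0,14), [
      .f 0 12, .f 0 14, .v 4, .v 6, .v 7]),
    ((1,6), [
      .f 0 12, .f 0 14, .v 4, .v 6, .v 7]),
    ((2,4), [
      .f 0 12, .f 0 14, .v 4, .v 6, .v 7]),
    ((2,6), [
      .f 0 12, .f 0 14, .v 4, .v 6, .v 7]),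
    ((3,4), [
      .f 0 12, .f 0 14, .v 4, .v 6, .v 7]),
    ((4,14), [
      .f 0 14, .f 2 10, .v 2, .v 6, .f 0 3, .v 0]),
    ((6,12), [
      .f 0 14, .f 2 10, .v 2, .v 6, .f 0 3, .v 0]),
    ((7,10), [
      .f 0 12, .f 0 14, .v 4, .v 6, .v 7])]
  d3 := []

def pL3ts : List Bool :=
  [false, true, false, true, false, true, false, false, true]

def pL3P : PeelCert where
  o0 := [0,1,3,8,2,6]
  pT := [
    (0,[3,8]), (1,[0,3,8]), (2,[0,1,3,8,6]), (3,[0,1,8,6]), (6,[0,1,3,8,2]), (8,[0,1,3,2])]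
  pH := [
    ((0,3),[8],[0,1,2,3,6,8]), ((0,8),[3],[0,1,2,3,6,8]), ((2,8),[0,1,3],[0,1,2,3,6,8]),
    ((3,6),[0,1,8],[0,1,2,3,6,8])]

def pL3K : KillCert where
  k0 := [
    .v 0, .v 8, .f 2 11, .f 6 15, .v 2, .v 3, .v 4, .v 5, .v 6, .v 7, .f 0 1]
  ks := [
    ((1,4), [
      .f 2 13, .f 6 16, .v 4, .v 5, .v 7]),
    ((1,7), [
      .f 2 13, .f 6 16, .v 4, .v 5, .v 7]),
    ((2,5), [
      .f 2 13, .f 6 16, .v 4, .v 5, .v 7]),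
    ((2,13), [
      .f 2 13, .f 6 16, .v 4, .v 5, .v 7]),
    ((4,11), [
      .f 2 13, .f 6 16, .v 4, .v 5, .v 7]),
    ((5,6), [
      .f 2 13, .f 6 16, .v 4, .v 5, .v 7]),
    ((6,16), [
      .f 2 13, .f 6 16, .v 4, .v 5, .v 7]),
    ((7,15), [
      .f 2 13, .f 6 16, .v 4, .v 5, .v 7])]
  d3 := []

def pE10ts : List Bool :=
  [false, true, false, true, false, true, false, true, true, false]

def pE10P : PeelCert where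
  o0 := [0,2,7,8,1,4]
  pT := [
    (0,[2,7,8,4,1,0]), (1,[0,2,7,8,4,1]), (2,[0,7,8,4,1,2]), (4,[0,2,7,8,1,4]),
    (7,[0,2,8,1,4,7]), (8,[0,2,7,1,4,8])]
  pH := [
    ((0,7),[2,8],[0,1,2,4,7,8]), ((0,8),[2,7],[0,1,2,4,7,8]), ((2,7),[0,8],[0,1,2,4,7,8]),
    ((2,8),[0,7],[0,1,2,4,7,8])]

def pE10K : KillCert where
  k0 := [
    .v 0, .v 5, .v 7, .f 0 1, .f 4 19, .v 1, .v 2, .v 3, .v 4, .v 5, .v 6, .v 8]
  ks := [
    ((0,3), [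
      .v 4, .v 5, .v 7, .f 0 1, .v 1, .v 6]),
    ((1,4), [
      .v 4, .v 5, .v 7, .f 0 1, .v 1, .v 6]),
    ((1,9), [
      .v 4, .v 5, .v 7, .f 0 1, .v 1, .v 6]),
    ((1,13), [
      .v 4, .v 5, .v 7, .f 0 1, .v 1, .v 6]),
    ((2,5), [
      .v 4, .v 5, .v 7, .f 0 1, .v 1, .v 6]),
    ((3,6), [
      .v 4, .v 5, .v 7, .f 0 1, .v 1, .v 6]),
    ((4,8), [
      .v 4, .v 5, .v 7, .f 0 1, .v 1, .v 6]),
    ((4,19), [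
      .v 4, .v 5, .v 7, .f 0 1, .v 1, .v 6]),
    ((5,6), [
      .v 4, .v 5, .v 7, .f 0 1, .v 1, .v 6]),
    ((5,13), [
      .v 4, .v 5, .v 7, .f 0 1, .v 1, .v 6]),
    ((6,19), [
      .v 4, .v 5, .v 7, .f 0 1, .v 1, .v 6]),
    ((7,9), [
      .v 4, .v 5, .v 7, .f 0 1, .v 1, .v 6])]
  d3 := [((3,9), (4,5,0,8))]

def pD20ts : List Bool :=
  [false, true, false, true, false, true, false, true, false, false, true, false, true, true,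
    false, true, false, false, true, false]

def pD20P : PeelCert where
  o0 := [0,2,7,9,10,13,14,16,17,1,4,8,12]
  pT := [
    (0,[2,7,9,10,13,14,16,17,4,8,12,1,0]), (1,[0,2,7,9,10,13,14,16,17,4,8,12,1]),
    (2,[0,7,9,10,13,14,16,17,4,8,12,1,2]), (4,[0,2,7,9,10,13,14,16,17,1,4,8,12]),
    (7,[0,2,10,13,14,16,17,1,4,7,8,9,12]), (8,[0,2,7,9,10,13,14,16,17,1,4,8,12]),
    (9,[0,2,7,10,13,14,16,17,1,4,8,9,12]), (10,[0,2,7,9,10,13,14,16,17,1,4,8,12]),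
    (12,[0,2,7,9,10,13,14,16,17,1,4,8,12]), (13,[0,2,7,9,10,13,14,16,17,1,4,8,12]),
    (14,[0,2,7,9,10,13,16,17,1,4,8,12,14]), (16,[0,2,7,9,10,13,14,17,1,4,8,12,16]),
    (17,[0,2,7,9,10,13,14,16,1,4,8,12,17])]
  pH := [
    ((0,7),[2,10,13,14,16,17,8,9,12,1,4,7,0],[0,2,4,7,9,10,13,14,16,17,1,8,12]),
    ((0,10),[2,7,9,10,13,14,16,17,4,8,12,1,0],[0,2,4,7,9,10,13,14,16,17,1,8,12]),
    ((0,12),[2,7,9,10,13,14,16,17,4,8,12,1,0],[0,2,4,7,9,10,13,14,16,17,1,8,12]),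
    ((0,13),[2,7,9,10,13,14,16,17,4,8,12,1,0],[0,2,4,7,9,10,13,14,16,17,1,8,12]),
    ((1,9),[0,2,7,10,13,14,16,17,4,8,9,12,1],[0,2,4,7,10,13,14,16,17,1,8,9,12]),
    ((1,14),[0,2,7,9,10,13,16,17,4,8,12,14,1],[0,2,4,7,9,10,13,14,16,17,1,8,12]),
    ((1,16),[0,2,7,9,10,13,14,17,4,8,12,16,1],[0,2,4,7,9,10,13,14,16,17,1,8,12]),
    ((1,17),[0,2,7,9,10,13,14,16,4,8,12,17,1],[0,2,4,7,9,10,13,14,16,17,1,8,12]),
    ((2,7),[0,10,13,14,16,17,8,9,12,1,2,4,7],[0,2,4,7,9,10,13,14,16,17,1,8,12]),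
    ((2,10),[0,7,9,10,13,14,16,17,4,8,12,1,2],[0,2,4,7,9,10,13,14,16,17,1,8,12]),
    ((2,12),[0,7,9,10,13,14,16,17,4,8,12,1,2],[0,2,4,7,9,10,13,14,16,17,1,8,12]),
    ((2,13),[0,7,9,10,13,14,16,17,4,8,12,1,2],[0,2,4,7,9,10,13,14,16,17,1,8,12]),
    ((4,10),[0,2,7,9,10,13,14,16,17,1,4,8,12],[0,2,7,9,10,13,14,16,17,1,4,8,12]),
    ((4,12),[0,2,7,9,10,13,14,16,17,1,4,8,12],[0,2,7,9,10,13,14,16,17,1,4,8,12]),
    ((4,13),[0,2,7,9,10,13,14,16,17,1,4,8,12],[0,2,7,9,10,13,14,16,17,1,4,8,12]),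
    ((7,8),[0,2,10,13,14,16,17,1,4,7,8,9,12],[0,2,4,7,9,10,13,14,16,17,1,8,12]),
    ((7,14),[0,2,10,13,16,17,1,4,7,8,9,12,14],[0,2,4,7,9,10,13,14,16,17,1,8,12]),
    ((7,16),[0,2,10,13,14,17,1,4,7,8,9,12,16],[0,2,4,7,9,10,13,14,16,17,1,8,12]),
    ((7,17),[0,2,10,13,14,16,1,4,7,8,9,12,17],[0,2,4,7,9,10,13,14,16,17,1,8,12]),
    ((8,13),[0,2,7,9,10,13,14,16,17,1,4,8,12],[0,2,4,7,9,10,13,14,16,17,1,8,12]),
    ((9,12),[0,2,7,10,13,14,16,17,1,4,8,9,12],[0,2,4,7,10,13,14,16,17,1,8,9,12]),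
    ((10,14),[0,2,7,9,10,13,16,17,1,4,8,12,14],[0,2,4,7,9,10,13,14,16,17,1,8,12]),
    ((10,16),[0,2,7,9,10,13,14,17,1,4,8,12,16],[0,2,4,7,9,10,13,14,16,17,1,8,12]),
    ((10,17),[0,2,7,9,10,13,14,16,1,4,8,12,17],[0,2,4,7,9,10,13,14,16,17,1,8,12]),
    ((13,16),[0,2,7,9,10,13,14,17,1,4,8,12,16],[0,2,4,7,9,10,13,14,16,17,1,8,12]),
    ((13,17),[0,2,7,9,10,13,14,16,1,4,8,12,17],[0,2,4,7,9,10,13,14,16,17,1,8,12])]

def pD20K : KillCert where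
  k0 := [
    .v 0, .v 7, .v 9, .f 4 26, .f 14 39, .v 6, .v 19, .v 1, .v 2, .v 3, .v 4, .v 5, .v 8,
    .v 11, .v 12, .v 14, .v 15, .v 16, .v 17]
  ks := [
    ((0,3), [
      .f 4 26, .f 14 39, .v 6, .v 19, .v 1, .v 2, .v 3, .v 11, .v 12, .v 17, .v 18]),
    ((1,4), [
      .f 4 26, .f 14 39, .v 6, .v 19, .v 1, .v 2, .v 3, .v 11, .v 12, .v 17, .v 18]),
    ((1,8), [
      .f 4 26, .f 14 39, .v 6, .v 19, .v 1, .v 2, .v 3, .v 11, .v 12, .v 17, .v 18]),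
    ((1,11), [
      .f 4 26, .f 14 39, .v 6, .v 19, .v 1, .v 2, .v 3, .v 4, .v 5, .v 8, .v 15, .v 16, .v 18]),
    ((2,5), [
      .f 4 26, .f 14 39, .v 6, .v 19, .v 1, .v 2, .v 3, .v 11, .v 12, .v 17, .v 18]),
    ((3,6), [
      .f 4 26, .f 14 39, .v 6, .v 19, .v 1, .v 2, .v 3, .v 11, .v 12, .v 17, .v 18]),
    ((3,8), [
      .f 4 26, .f 14 39, .v 6, .v 19, .v 1, .v 2, .v 3, .v 11, .v 12, .v 17, .v 18]),
    ((4,26), [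
      .f 4 26, .f 14 39, .v 6, .v 19, .v 1, .v 2, .v 3, .v 11, .v 12, .v 17, .v 18]),
    ((5,6), [
      .f 4 26, .f 14 39, .v 6, .v 19, .v 1, .v 2, .v 3, .v 11, .v 12, .v 17, .v 18]),
    ((5,11), [
      .f 4 26, .f 14 39, .v 6, .v 19, .v 1, .v 2, .v 3, .v 11, .v 12, .v 17, .v 18]),
    ((8,12), [
      .f 4 26, .f 14 39, .v 6, .v 19, .v 1, .v 2, .v 3, .v 11, .v 12, .v 17, .v 18]),
    ((8,18), [
      .f 4 26, .v 6, .v 1, .v 2, .v 3, .v 4, .v 5, .v 8, .v 11, .v 12, .v 14, .v 15]),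
    ((11,15), [
      .f 4 26, .f 14 39, .v 6, .v 19, .v 1, .v 2, .v 3, .v 11, .v 12, .v 17, .v 18]),
    ((11,18), [
      .f 4 26, .v 6, .v 1, .v 2, .v 3, .v 4, .v 5, .v 8, .v 11, .v 12, .v 14, .v 15]),
    ((12,16), [
      .f 4 26, .v 6, .v 1, .v 2, .v 3, .v 4, .v 5, .v 8, .v 11, .v 12, .v 14, .v 15]),
    ((12,19), [
      .f 4 26, .v 6, .v 1, .v 2, .v 3, .v 4, .v 5, .v 8, .v 11, .v 12, .v 14, .v 15]),
    ((14,18), [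
      .f 4 26, .v 6, .v 1, .v 2, .v 3, .v 4, .v 5, .v 8, .v 11, .v 12, .v 14, .v 15]),
    ((14,39), [
      .f 4 26, .v 6, .v 1, .v 2, .v 3, .v 4, .v 5, .v 8, .v 11, .v 12, .v 14, .v 15]),
    ((15,17), [
      .f 4 26, .v 6, .v 1, .v 2, .v 3, .v 4, .v 5, .v 8, .v 11, .v 12, .v 14, .v 15]),
    ((15,19), [
      .f 4 26, .v 6, .v 1, .v 2, .v 3, .v 4, .v 5, .v 8, .v 11, .v 12, .v 14, .v 15])]
  d3 := []

def pK4ts : List Bool :=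
  [false, true, false, true, false, true, false, false, true, false]

def pK4P : PeelCert where
  o0 := [0,1,3,8,9,2,6]
  pT := [
    (0,[3,8,9]), (1,[0,3,8,9]), (2,[0,1,3,8,9,6]), (3,[0,1,8,9,3,6,2]), (6,[0,1,3,8,9,2]),
    (8,[0,1,3,9,2,8,6]), (9,[0,1,3,8,9,2,6])]
  pH := [
    ((0,3),[8,9,3],[0,1,2,3,6,8,9]), ((0,8),[3,9,8],[0,1,2,3,6,8,9]),
    ((1,9),[0,3,8,9],[0,2,3,6,8,9,1]), ((2,8),[0,1,3,9,8,6],[0,1,2,3,6,8,9]),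
    ((3,6),[0,1,8,9,3,2],[0,1,2,3,6,8,9])]

def pK4K : KillCert where
  k0 := [
    .v 0, .v 8, .v 9, .f 2 12, .f 6 16, .v 2, .v 3, .v 4, .v 5, .v 6, .v 7, .f 0 1]
  ks := [
    ((1,4), [
      .f 2 14, .f 6 17, .v 4, .v 5, .v 7]),
    ((1,7), [
      .f 2 14, .f 6 17, .v 4, .v 5, .v 7]),
    ((2,5), [
      .f 2 14, .f 6 17, .v 4, .v 5, .v 7]),
    ((2,14), [
      .f 2 14, .f 6 17, .v 4, .v 5, .v 7]),
    ((4,12), [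
      .f 2 14, .f 6 17, .v 4, .v 5, .v 7]),
    ((5,6), [
      .f 2 14, .f 6 17, .v 4, .v 5, .v 7]),
    ((6,17), [
      .f 2 14, .f 6 17, .v 4, .v 5, .v 7]),
    ((7,16), [
      .f 2 14, .f 6 17, .v 4, .v 5, .v 7])]
  d3 := []

end N3
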