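import Pool.Agent.Lib_n3.PerfDefs
import Pool.Agent.Lib_n3.PerfCert
import Pool.Agent.Lib_n3.StmtsStd

/-!
# Statements: the subdivided `K₄` (MP_07e12a_co)

`pK4`: the vertices `1, 3, 5, 8` of `K₄`, subdivision vertices `0 (1,5)`, `2 (1,3)`, `4 (3,5)`, `6 (1,8)`,
`7 (5,8)`, `9 (3,8)`, which are the hosts; classes `{1, 5}`, `{2, 4}`, `{6, 7}`; `K = quot G (qmap pK4 f)`.
The only pair not covered by the peeling certificate is `(0, 19)`, i.e. `f 0, t 9`.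
-/

open scoped Matrix Topology
open Finset

namespace N3

/-- a realization of `K` which is generic except possibly for the pair `f 0, t 9`; the vertex `f 4` is
isolated in `K` and plays no role -/
structure K4Rho {V : Type} [Fintype V] [DecidableEq V] (G : SimpleGraph V) (side : V → Bool)
    (f t : ℕ → V) (ρ : V → E) : Prop where
  rlz : Rlz (quot G (qmap pK4 f)) ρ
  sep : Sep side ρ
  free : StressFree (quot G (qmap pK4 f)) ρ
  exact : ∀ x y, side x ≠ side y → ¬ (quot G (qmap pK4 f)).Adj x y → x ≠ f 4 → y ≠ f 4 →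
    s(x, y) ≠ s(f 0, t 9) → ρ x ⬝ᵥ ρ y ≠ 0
  det : (ρ (t 2) ⨯₃ ρ (t 6)) ⬝ᵥ ρ (t 9) ≠ 0

/-- PEEL.  Let `F` be a graph in which the neighbours of `f a`, `a ∈ P.reps`, are among the `gx b`,
`b ∈ P.kn a`, and let all vertices of `S` have at least 3 neighbours in `S`.  Then the classes of a peeling
order (with attachments, no load) are not in `S`. -/
def PeelStmt : Prop := ∀ (V : Type) [Fintype V] [DecidableEq V] (F : SimpleGraph V) (P : Pat)
  (f t : ℕ → V) (o : List ℕ) (S : Finset V), P.peel true (2 * P.m) (2 * P.m) [] o = true →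
    (∀ a ∈ o, a ∈ P.reps) → (∀ a ∈ P.reps, ∀ v, F.Adj (f a) v → ∃ b ∈ P.kn a, gx P f t b = v) →
    (∀ v ∈ S, 3 ≤ dg F S v) → ∀ a ∈ o, f a ∉ S

/-- EXISTENCE.
1. `K₀ = res K (univ \ {f 0})` satisfies the hypotheses of Theorem G: `NoC4`; a non-adjacent pair `x, y` of
`K₀`: if `K.Adj x y` then `addE K₀ x y ≤ K`; if `s(x, y) ≠ s(f 0, t 9)` then `addE K₀ x y ≤ addE K x y`
(`PTwoDeg` with `exc = [(0, 19)]`, `pK4_peel`); for `f 0, t 9`: `f 0` has degree 1 in `addE K₀ (f 0) (t 9)`, so a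
set `S` with all degrees at least 3 would be a core of `K₀`.  Let `ρ₀` be exact for `K₀`.
2. `ρ₁` = `ρ₀` with `ρ₁ (f 0) = ρ₀ (f 1) ⨯₃ ρ₀ (t 0)` (`kn 0 = [1, 10]`): a realization of `K`, separated, since
`ρ₀ v ∥ ρ₁ (f 0)` gives `v ~ f 1`, `v ~ t 0` in `K₀`, a 4-cycle of `K` with `f 0`.
3. `MIN` for `K`, `U = {Sep}`, and TwoDegFree: `ρ₂` nonzero on all non-adjacent pairs except possibly
`f 0, t 9`.
4. Let `z = ρ₂ (t 2) ⨯₃ ρ₂ (t 6)`; if `z ⬝ᵥ ρ₂ (t 9) ≠ 0` take `ρ₂`.  Otherwise `t 2, t 6` have no common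
neighbour in `K`: it would be a vertex `v` outside the pattern (`f 2 ≁ t 6`, `f 6 ≁ t 2` in `K`), a common
neighbour of `t 2, t 6` in `G`, so `v ≁ t 9` by hypothesis, `ρ₂ v ⬝ᵥ ρ₂ (t 9) ≠ 0`, but `ρ₂ v ∥ z`.
Let `ρ₃` = `ρ₂` with `ρ₃ (f 4) = z`: a realization of
`K' = addE (addE (addE K (f 4) (t 2)) (f 4) (t 6)) (f 4) (t 9)` (`f 4` is isolated in `K`), separated since
`ρ₂ v ∥ z` gives `v ~ t 2, t 6` in `K`.  `TwoDeg K'`: let `S ≠ ∅` with all degrees at least 3.  If `f 4 ∉ S` it is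
a core of `K`.  If `f 4 ∈ S` then `t 2, t 6, t 9 ∈ S`, and no `f a`, `a ∈ reps`, is in `S` (PEEL with `o0` of
`pK4P`); a vertex of `C = S ∩ T` (`T = outside`) has its `T`-neighbours in `C` if it is not an attachment, or
is `t 2, t 6, t 9`; the attachments `t 0, t 4, t 7` have lost their host and are not in `S`.  So
`ed G C (T \ C) = 0` and `C = ∅` or `C = T`, but `t 2 ∈ C`, `t 0 ∈ T \ C`.
So `K'` is stress-free at `ρ₃` and `SP` gives, near `ρ₃`, a realization `ρ` of `K` and of the edges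
`f 4, t 2` and `f 4, t 6`, with `ρ (f 4) ⬝ᵥ ρ (t 9) ≠ 0`, so `det ≠ 0` (`ρ (f 4)` is a multiple of
`ρ (t 2) ⨯₃ ρ (t 6)`), `Sep`, and the nonzero pairs of `ρ₂` not containing `f 4` still nonzero. -/
def K4RhoStmt : Prop := ∀ (V : Type) [Fintype V] [DecidableEq V] (G : SimpleGraph V)
  (side : V → Bool) (f t : ℕ → V), Lev G side → Cyc5 G → Emb G pK4 f t →
    PBase G side pK4 pK4ts f t →
    (∀ C ⊆ outside pK4 f, ed G C (outside pK4 f \ C) ≤ 1 → C = ∅ ∨ C = outside pK4 f) →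
    TwoDeg (quot G (qmap pK4 f)) →
    (∀ x y, side x ≠ side y → ¬ (quot G (qmap pK4 f)).Adj x y → s(x, y) ≠ s(f 0, t 9) →
      TwoDeg (addE (quot G (qmap pK4 f)) x y)) →
    (∀ v, ¬ (G.Adj (t 2) v ∧ G.Adj (t 6) v ∧ G.Adj (t 9) v)) → ∃ ρ, K4Rho G side f t ρ

/-- CONCLUSION.  Let `κ = ρ ∘ qmap pK4 f`, `A = ρ (f 1)`, `Q = ρ (f 2)`, `R = ρ (f 6)`, `Ti = ρ (t i)`; `κ` is a
realization of `G` by nonzero vectors, stress-free, and all pairs with K-adjacent classes are killed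
(hypotheses `hfree`, `hkill`).
If `ρ (f 0) ⬝ᵥ ρ (t 9) ≠ 0` apply KILL at `κ` (a zero non-adjacent pair has K-adjacent classes, by `exact`; the
classes are never `f 4`).  Otherwise LEMMA A for `H = G` without the edge `f 5, f 0`, `a b = f 5, f 0`,
`c d = f 0, t 9`:
* `addE H (f 5) (f 0) = G` is stress-free at `κ`;
* `addE H (f 0) (t 9)`: let `ω` be a stress; it is a stress of `addE G (f 0) (t 9)` with `ω (f 5) (f 0) = 0`.
  Equilibrium (the vectors at one vertex with different classes are pairwise Np by `sep`), in this order: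
  at `f 5` (vectors `ρ (f 0), Q, R`): `ω (f 5) (f 4) = ω (f 5) (f 7) = 0`; at `f 4` (`A, ρ (f 3), T4`):
  `ω (f 4) (f 3) = ω (f 4) (t 4) = 0`; at `f 3` (`Q, Q, ρ (f 9)`): `ω (f 3) (f 2) = 0`; at `f 2`
  (`A, ρ (f 3), T2`): `ω (f 2) (f 1) = 0`; at `f 1` (`ρ (f 0), Q, R`): `ω (f 1) (f 0) = 0`; at `f 0`
  (`A, A, T0, T9`): `ω (f 0) (t 9) = 0`.  So `ω` is a stress of `G`: zero.  (In the language of PerfDefs: the
  relations `PlaneRel` for `x = 0`, `y = 19` (theorem `planeRel`) and `prun` with the steps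
  `.v 5, .v 4, .v 3, .v 2, .v 1, .v 0` from `⟨[key 0 5], []⟩`.)
* points of `X_H` near `κ` with `f 0 ⬝ t 9 = 0` and `f 5 ⬝ f 0 ≠ 0`: keep `κ` outside `f 1, ..., f 9`.  For
  `a, η : E` let `c1 = a`, `c2 = c1 × T2`, `c6 = c1 × T6`, `c3 = c2 × η`, `c4 = c3 × T4`, `c9 = c3 × T9`,
  `c8 = c6 × c9`, `c7 = c8 × T7`, `c5 = c4 × c7`.  For `a = A`, `η = ρ (f 9)` every `ci` is a nonzero multiple
  `λi` of `κ (f i)` (`κ (f 5) = A`, `κ (f 4) = Q`, `κ (f 7) = R`; e.g. `A × T2 ∥ Q` since both are orthogonal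
  to the non-parallel `A, T2`).  For `a = T9` and `η` with `T9 ⬝ η = 1`, `T2 ⬝ η = 0` (exists as `T9, T2` Np):
  `c3 = T2`, `c4 = T2 × T4`, `c9 = T2 × T9`, `c8 = ± D T9`, `c5 ⬝ (T0 × T9) = ± D * det3 T2 T4 T9 * det3 T7 T0 T9`
  with `D = det3 T2 T6 T9 ≠ 0` (field `det`), `det3 T2 T4 T9 ≠ 0` (`T2 × T4 ∥ Q`, `Q ⬝ T9 ≠ 0`),
  `det3 T7 T0 T9 ≠ 0` (`T0 × T9 ∥ ρ (f 0)` as `ρ (f 0) ⬝ T9 = 0`, and `ρ (f 0) ⬝ T7 ≠ 0`).
  Take `a s = (1 - s) A + s T9`, `η s = (1 - s) ρ (f 9) + s η₁`: `a s ⬝ ρ (f 0) = 0` for all `s`, and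
  `F s = c5 ⬝ ρ (f 0)` is a polynomial in `s` (cross products over `Polynomial ℝ`) with `F 1 ≠ 0`, so
  `F s ≠ 0` for arbitrarily small `s > 0`; put `m (f i) = ci / λi` for `1 ≤ i ≤ 9`.
CONCLUSION: by Lemma A there is `m` arbitrarily near `κ` with `Rlz H m`, `m (f 5) ⬝ m (f 0) = 0`, so `Rlz G m`,
and `m (f 0) ⬝ m (t 9) ≠ 0`; take the neighbourhood so small that vectors stay nonzero, nonzero pairs
stay nonzero and killed pairs stay killed (`SFOpenStmt`); apply KILL at `m`. -/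
def K4KillStmt : Prop := ∀ (V : Type) [Fintype V] [DecidableEq V] (G : SimpleGraph V)
  (side : V → Bool) (f t : ℕ → V) (ρ : V → E), Lev G side → Emb G pK4 f t →
    PBase G side pK4 pK4ts f t → K4Rho G side f t ρ →
    StressFree G (ρ ∘ qmap pK4 f) →
    (∀ x y, side x ≠ side y → ¬ G.Adj x y →
      (quot G (qmap pK4 f)).Adj (qmap pK4 f x) (qmap pK4 f y) →
      StressFree (addE G x y) (ρ ∘ qmap pK4 f)) →
    LemmaAStmt → SFOpenStmt → KillStmt → ∃ ρ, Exact G side ρ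

end N3
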