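import Pool.Agent.Lib_n3.Frozen
import Pool.Agent.Lib_n3.SP
import Pool.Agent.Lib_n3.MinKill
import Pool.Agent.Lib_n3.Core
import Pool.Agent.Lib_n3.ThmG
import Pool.Agent.Lib_n3.Cuts
import Pool.Agent.Lib_n3.ResExact
import Pool.Agent.Lib_n3.LemmaE
import Pool.Agent.Lib_n3.Affine
import Pool.Agent.Lib_n3.GlueCore
import Pool.Agent.Lib_n3.CutEnds
import Pool.Agent.Lib_n3.GlueLA3
import Pool.Agent.Lib_n3.GlueLA4
import Pool.Agent.Lib_n3.NoFourth
import Pool.Agent.Lib_n3.Glue3
import Pool.Agent.Lib_n3.Glue4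
import Pool.Agent.Lib_n3.DF
import Pool.Agent.Lib_n3.DFCombB
import Pool.Agent.Lib_n3.DFRho
import Pool.Agent.Lib_n3.DFKill
import Pool.Agent.Lib_n3.LemmaA
import Pool.Agent.Lib_n3.StdPat
import Pool.Agent.Lib_n3.Cert
import Pool.Agent.Lib_n3.HexCert
import Pool.Agent.Lib_n3.KillD3
import Pool.Agent.Lib_n3.PBase
import Pool.Agent.Lib_n3.PProp
import Pool.Agent.Lib_n3.PRel
import Pool.Agent.Lib_n3.PT2
import Pool.Agent.Lib_n3.PKill
import Pool.Agent.Lib_n3.PFinal
import Pool.Agent.Lib_n3.PTwoDeg
import Pool.Agent.Lib_n3.StdKill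
import Pool.Agent.Lib_n3.Peel
import Pool.Agent.Lib_n3.K4Rho
import Pool.Agent.Lib_n3.K4Kill
import Pool.Agent.Lib_n3.StmtsK4

/-!
# Every 3-connected `(n_3)` configuration with `n ≥ 11` is realizable (MP_07e12a_co)
-/

open Finset

namespace N3

theorem affineS : AffineStmt := fun n I ρ h0 hI => affine n I ρ hI h0

theorem minS : MinStmt := min sp

theorem killS : KillStmt := kill sp sfOpen

theorem thmGS : ThmGStmt := thmG minS twoDegFree sepOpen

theorem resExactS : ResExactStmt := resExact thmGS cuts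

theorem glueS : GlueStmt := glue killS (resFree twoDegFree)

theorem glue3S : Glue3Stmt :=
  glue3 glueS (cut3 cuts) (noFourth resExactS minS core twoDegFree sepOpen) laInd laDep rankInd rankDep

theorem glue4S : Glue4Stmt := glue4 glueS (cut4 cuts) resExactS la4 rank4 cuts

theorem dfS : DFStmt :=
  df (lemmaE cuts) dfComb (dfRho thmGS minS core twoDegFree sepOpen) dfKill killS

/-- patterns without exceptional pair -/
theorem perfectS : PerfectStmt :=
  perfect thmGS twoDegFree pbase pT2 pTwoDeg (pKill pprop pRel) killD3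

theorem k4RhoS : K4RhoStmt := k4Rho thmGS minS twoDegFree sp sepOpen peel

/-- the subdivided `K₄` -/
theorem k4S : K4Stmt := k4 k4RhoS pbase pT2 pTwoDeg pprop pRel lemmaA sfOpen killS

/-- graphs with a hexagon -/
theorem hexS : HexStmt := hex cert (stdPat std) perfectS k4S

/-- every 3-connected `(n_3)` configuration with `n ≥ 11` has an exact real realization -/
theorem main : MainStmt := main_of glue3S glue4S dfS hexS

end N3
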