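import Pool.Agent.Lib_n3.Main


/-!
# The final statement in terms of configurations (MP_07e12a_co)
-/

open Finset

namespace N3

theorem mainFinal : MainStmt := main

/-- Every 3-connected configuration `(n_3)` with `n ≥ 11` has a geometric realization. -/
theorem realizable (n : ℕ) (hn : 11 ≤ n) (I : Fin n → Fin n → Prop)
    (h1 : ∀ p, {l | I p l}.ncard = 3)
    (h2 : ∀ l, {p | I p l}.ncard = 3)
    (h3 : ∀ p q, p ≠ q → {l | I p l ∧ I q l}.ncard ≤ 1)
    (hconn : ∀ S : Finset (Fin n ⊕ Fin n), S.card ≤ 2 →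
      ((SimpleGraph.fromRel (fun u v : Fin n ⊕ Fin n =>
          ∃ p l, u = Sum.inl p ∧ v = Sum.inr l ∧ I p l)).induce
        {v : Fin n ⊕ Fin n | v ∉ S}).Connected) :
    ∃ a b : Fin n → ℝ, ∃ P : Fin n → ℝ × ℝ,
      ∀ i j, I i j ↔ (P i).2 = a j * (P i).1 + b j := by
  have hcub := levi_cubic I h1 h2
  have hlev : Lev (levi I) Sum.isRight :=
    { bip := levi_bip I
      cubic := hcub
      noC4 := levi_noC4 I h3
      c3 := fun A hA hA' => c3_of_conn (levi I) hcub hconn A hA hA' }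
  have hcard : 22 ≤ Fintype.card (Fin n ⊕ Fin n) := by
    rw [Fintype.card_sum, Fintype.card_fin]
    omega
  obtain ⟨ρ, hR, hS, hN⟩ := mainFinal (Fin n ⊕ Fin n) (levi I) Sum.isRight hlev hcard
  refine affineS n I ρ hS.1 (fun p l => ⟨fun h => hR _ _ ((levi_lr I p l).2 h), fun h => ?_⟩)
  by_contra hI
  exact hN (Sum.inl p) (Sum.inr l) (by simp) (fun h' => hI ((levi_lr I p l).1 h')) h

end N3
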