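import Pool.Agent.Lib_n3.Stmts

/-!
# PUSH: the image of a stress under a quotient map (MP_07e12a_co)
-/

open scoped Matrix Topology
open Finset

namespace N3

section
variable {V : Type} [Fintype V] [DecidableEq V]

/-- the push-forward of edge weights under `q`: fibre sums -/
def pushW (q : V → V) (ω : V → V → ℝ) : V → V → ℝ :=
  fun a b => ∑ u, ∑ v, if q u = a ∧ q v = b then ω u v else 0

/-- general form: a stress of `F` at `ρ ∘ q` is pushed to a stress of `K` at `ρ` if `q` maps edges of
`F` to edges of `K` -/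
theorem pushGen {F K : SimpleGraph V} {q : V → V} {ρ : V → E} {ω : V → V → ℝ}
    (hFK : ∀ u v, F.Adj u v → K.Adj (q u) (q v)) (h : Stress F (ρ ∘ q) ω) :
    Stress K ρ (pushW q ω) := by
  obtain ⟨h1, h2, h3⟩ := h
  refine ⟨?_, ?_, ?_⟩
  · intro a b
    unfold pushW
    rw [Finset.sum_comm]
    refine Finset.sum_congr rfl fun u _ => Finset.sum_congr rfl fun v _ => ?_
    rw [h1 v u]
    by_cases h : q v = a ∧ q u = b
    · rw [if_pos h, if_pos ⟨h.2, h.1⟩]
    · rw [if_neg h, if_neg (fun h' => h ⟨h'.2, h'.1⟩)]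
  · intro a b hab
    unfold pushW
    refine Finset.sum_eq_zero fun u _ => Finset.sum_eq_zero fun v _ => ?_
    by_cases h : q u = a ∧ q v = b
    · rw [if_pos h]
      apply h2
      intro huv
      apply hab
      rw [← h.1, ← h.2]
      exact hFK u v huv
    · rw [if_neg h]
  · intro a
    unfold pushW
    have key : ∀ b, (∑ u, ∑ v, if q u = a ∧ q v = b then ω u v else 0) • ρ b
        = ∑ u, ∑ v, if q u = a ∧ q v = b then ω u v • ρ b else 0 := by
      intro b
      rw [Finset.sum_smul]
      refine Finset.sum_congr rfl fun u _ => ?_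
      rw [Finset.sum_smul]
      refine Finset.sum_congr rfl fun v _ => ?_
      split_ifs
      · rfl
      · exact zero_smul _ _
    rw [Finset.sum_congr rfl (fun b _ => key b), Finset.sum_comm]
    refine Finset.sum_eq_zero fun u _ => ?_
    rw [Finset.sum_comm]
    by_cases hu : q u = a
    · have : ∀ v, (∑ b, if q u = a ∧ q v = b then ω u v • ρ b else 0) = ω u v • (ρ ∘ q) v := by
        intro v
        rw [Finset.sum_eq_single (q v)]
        · rw [if_pos ⟨hu, rfl⟩]; rfl
        · intro b _ hb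
          rw [if_neg (fun h => hb h.2.symm)]
        · intro h; exact absurd (Finset.mem_univ _) h
      rw [Finset.sum_congr rfl (fun v _ => this v)]
      exact h3 u
    · refine Finset.sum_eq_zero fun v _ => Finset.sum_eq_zero fun b _ => ?_
      rw [if_neg (fun h => hu h.1)]

omit [Fintype V] [DecidableEq V] in
/-- edges of `G` are mapped to edges of the quotient -/
theorem quot_adj {G : SimpleGraph V} {side : V → Bool} {q : V → V} (hB : Bip G side)
    (hq : ∀ v, side (q v) = side v) {u v : V} (h : G.Adj u v) : (quot G q).Adj (q u) (q v) := by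
  unfold quot
  rw [SimpleGraph.fromRel_adj]
  refine ⟨?_, Or.inl ⟨u, v, h, rfl, rfl⟩⟩
  intro h'
  apply hB u v h
  rw [← hq u, ← hq v, h']

omit [Fintype V] [DecidableEq V] in
/-- description of the edges of the quotient -/
theorem quot_adj_iff {G : SimpleGraph V} {side : V → Bool} {q : V → V} (hB : Bip G side)
    (hq : ∀ v, side (q v) = side v) {a b : V} :
    (quot G q).Adj a b ↔ ∃ u v, G.Adj u v ∧ q u = a ∧ q v = b := by
  constructor
  · intro h
    unfold quot at h
    rw [SimpleGraph.fromRel_adj] at h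
    rcases h.2 with h | ⟨u, v, h1, h2, h3⟩
    · exact h
    · exact ⟨v, u, h1.symm, h3, h2⟩
  · rintro ⟨u, v, h, rfl, rfl⟩
    exact quot_adj hB hq h

omit [Fintype V] [DecidableEq V] in
/-- the quotient is bipartite -/
theorem quot_bip {G : SimpleGraph V} {side : V → Bool} {q : V → V} (hB : Bip G side)
    (hq : ∀ v, side (q v) = side v) : Bip (quot G q) side := by
  intro a b h
  obtain ⟨u, v, huv, rfl, rfl⟩ := (quot_adj_iff hB hq).1 h
  rw [hq, hq]
  exact hB u v huv

end

theorem push : PushStmt := by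
  intro V _ _ G side q ρ ω x y hB hq hxy h
  refine pushGen (F := addE G x y) (K := addE (quot G q) (q x) (q y)) ?_ h
  intro u v huv
  rw [SimpleGraph.sup_adj, SimpleGraph.edge_adj] at huv ⊢
  rcases huv with huv | ⟨⟨rfl, rfl⟩ | ⟨rfl, rfl⟩, hne⟩
  · exact Or.inl (quot_adj hB hq huv)
  · refine Or.inr ⟨Or.inl ⟨rfl, rfl⟩, fun h' => hxy ?_⟩
    rw [← hq u, ← hq v, h']
  · refine Or.inr ⟨Or.inr ⟨rfl, rfl⟩, fun h' => hxy ?_⟩
    rw [← hq u, ← hq v, h']

section
variable {V : Type} [Fintype V] [DecidableEq V]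

/-- K-STRESS, load version.  Let `K = quot G q` be stress-free and exact on the non-adjacent pairs at
`ρ`.  If `x y` is a pair of different sides with `ρ (q x) ⬝ᵥ ρ (q y) = 0`, then every stress of
`addE G x y` at `ρ ∘ q` has zero fibre sums. -/
theorem kstress {G : SimpleGraph V} {side : V → Bool} {q : V → V} {ρ : V → E} (hB : Bip G side)
    (hq : ∀ v, side (q v) = side v) (hfree : StressFree (quot G q) ρ)
    (hnz : ∀ a b, side a ≠ side b → ¬ (quot G q).Adj a b → ρ a ⬝ᵥ ρ b ≠ 0) {x y : V}
    (hxy : side x ≠ side y) (h0 : ρ (q x) ⬝ᵥ ρ (q y) = 0) {ω : V → V → ℝ}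
    (h : Stress (addE G x y) (ρ ∘ q) ω) (a b : V) :
    (∑ u, ∑ v, if q u = a ∧ q v = b then ω u v else 0) = 0 := by
  have hK : (quot G q).Adj (q x) (q y) := by
    by_contra hK
    exact hnz (q x) (q y) (by rw [hq, hq]; exact hxy) hK h0
  refine hfree (pushW q ω) (pushGen (F := addE G x y) ?_ h) a b
  intro u v huv
  rw [SimpleGraph.sup_adj, SimpleGraph.edge_adj] at huv
  rcases huv with huv | ⟨⟨rfl, rfl⟩ | ⟨rfl, rfl⟩, hne⟩
  · exact quot_adj hB hq huv
  · exact hK
  · exact hK.symm

/-- K-STRESS for `G` itself -/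
theorem kstress' {G : SimpleGraph V} {side : V → Bool} {q : V → V} {ρ : V → E} (hB : Bip G side)
    (hq : ∀ v, side (q v) = side v) (hfree : StressFree (quot G q) ρ) {ω : V → V → ℝ}
    (h : Stress G (ρ ∘ q) ω) (a b : V) :
    (∑ u, ∑ v, if q u = a ∧ q v = b then ω u v else 0) = 0 :=
  hfree (pushW q ω) (pushGen (F := G) (fun _ _ huv => quot_adj hB hq huv) h) a b

/-- if `u v` is the only edge of `F` over `(q u, q v)`, the fibre sum is `ω u v` -/
theorem fibre_single {F : SimpleGraph V} {q : V → V} {ω : V → V → ℝ}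
    (hsupp : ∀ u v, ¬ F.Adj u v → ω u v = 0) {u v : V}
    (huniq : ∀ u' v', F.Adj u' v' → q u' = q u → q v' = q v → u' = u ∧ v' = v) :
    (∑ u', ∑ v', if q u' = q u ∧ q v' = q v then ω u' v' else 0) = ω u v := by
  rw [Finset.sum_eq_single u]
  · rw [Finset.sum_eq_single v]
    · rw [if_pos ⟨rfl, rfl⟩]
    · intro v' _ hv'
      split_ifs with h
      · apply hsupp
        intro hadj
        exact hv' (huniq u v' hadj h.1 h.2).2
      · rfl
    · intro h; exact absurd (Finset.mem_univ _) h
  · intro u' _ hu'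
    refine Finset.sum_eq_zero fun v' _ => ?_
    split_ifs with h
    · apply hsupp
      intro hadj
      exact hu' (huniq u' v' hadj h.1 h.2).1
    · rfl
  · intro h; exact absurd (Finset.mem_univ _) h

/-- a stress of `addE G x y` vanishes on an edge that is the only one over its image -/
theorem kstress_single {G : SimpleGraph V} {side : V → Bool} {q : V → V} {ρ : V → E}
    (hB : Bip G side) (hq : ∀ v, side (q v) = side v) (hfree : StressFree (quot G q) ρ)
    (hnz : ∀ a b, side a ≠ side b → ¬ (quot G q).Adj a b → ρ a ⬝ᵥ ρ b ≠ 0) {x y : V}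
    (hxy : side x ≠ side y) (h0 : ρ (q x) ⬝ᵥ ρ (q y) = 0) {ω : V → V → ℝ}
    (h : Stress (addE G x y) (ρ ∘ q) ω) {u v : V}
    (huniq : ∀ u' v', (addE G x y).Adj u' v' → q u' = q u → q v' = q v → u' = u ∧ v' = v) :
    ω u v = 0 := by
  rw [← fibre_single h.2.1 huniq]
  exact kstress hB hq hfree hnz hxy h0 h _ _

/-- a stress of `G` vanishes on an edge that is the only one over its image -/
theorem kstress_single' {G : SimpleGraph V} {side : V → Bool} {q : V → V} {ρ : V → E}
    (hB : Bip G side) (hq : ∀ v, side (q v) = side v) (hfree : StressFree (quot G q) ρ)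
    {ω : V → V → ℝ} (h : Stress G (ρ ∘ q) ω) {u v : V}
    (huniq : ∀ u' v', G.Adj u' v' → q u' = q u → q v' = q v → u' = u ∧ v' = v) :
    ω u v = 0 := by
  rw [← fibre_single h.2.1 huniq]
  exact kstress' hB hq hfree h _ _

end

end N3
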