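import Pool.Agent.Lib_n3.HexDefs
import Pool.Agent.Lib_n3.Push

/-!
# Perfect designs: checker and statements of the modules (MP_07e12a_co)

`P` is a pattern embedded in `G` (`Emb G P f t`).  Extended indices: `i < P.m` stands for `f i`, and
`P.m + h` (`h` a host) for the attachment `t h`.  `K = quot G (qmap P f)` is the quotient by the classes.
-/

open scoped Matrix Topology
open Finset

namespace N3

namespace Pat

/-- class of an extended index -/
def cx (P : Pat) (i : ℕ) : ℕ := if i < P.m then P.c i else i

/-- neighbours of `i < m`, as extended indices -/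
def nx (P : Pat) (i : ℕ) : List ℕ := P.nb i ++ (if P.host i then [P.m + i] else [])

/-- the hosts -/
def hosts (P : Pat) : List ℕ := (List.range P.m).filter (fun h => P.host h)

/-- the class representatives -/
def reps (P : Pat) : List ℕ := (List.range P.m).filter (fun a => P.c a == a)

/-- members of the class `a` -/
def mem (P : Pat) (a : ℕ) : List ℕ := (List.range P.m).filter (fun i => P.c i == a)

/-- neighbours of the class `a` in the quotient, as extended indices -/
def kn (P : Pat) (a : ℕ) : List ℕ := (((P.mem a).flatMap P.nx).map P.cx).dedup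

/-- type of an extended index, given the types of the vertices of the pattern -/
def ty (P : Pat) (ts : List Bool) (i : ℕ) : Bool :=
  if i < P.m then ts.getD i false else !(ts.getD (i - P.m) false)

/-- well-formedness of the pattern; `ts` is the list of the types of its vertices -/
def wf (P : Pat) (ts : List Bool) : Bool :=
  decide (P.es.Nodup) &&
  P.es.all (fun e => decide (e.1 < e.2) && decide (e.2 < P.m) && (P.ty ts e.1 != P.ty ts e.2)) &&
  (List.range P.m).all (fun i =>
    ((P.nb i).length == 2 || (P.nb i).length == 3) &&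
    (i == 0 || (List.range i).any (fun j => P.adj i j)) &&
    decide (P.c i ≤ i) && P.c (P.c i) == P.c i && P.ty ts (P.c i) == P.ty ts i) &&
  decide (3 ≤ P.m) && decide (1 ≤ P.hosts.length) && decide (P.hosts.length ≤ 7) &&
  P.reps.all (fun a => P.reps.all (fun b => a == b ||
    decide (((P.kn a).filter (fun x => (P.kn b).contains x)).length ≤ 1)))

/-- `ord` is a peeling order: each class `a` of `ord` has at most two neighbours in the quotient which
are not in `rem` (already removed), counted with the load `x y`; attachments count iff `att` -/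
def peel (P : Pat) (att : Bool) (x y : ℕ) : List ℕ → List ℕ → Bool
  | _, [] => true
  | rem, a :: l =>
    decide (((P.kn a).filter (fun b => if b < P.m then !(rem.contains b) else att)).length
      + (if a == x then 1 else 0) + (if a == y then 1 else 0) ≤ 2) && peel P att x y (a :: rem) l

end Pat

/-- the key of an (unordered) pair of extended indices -/
def key (i j : ℕ) : ℕ × ℕ := if i ≤ j then (i, j) else (j, i)

/-- keys known to have weight zero, and keys known to have nonzero weight -/
structure PSt where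
  Z : List (ℕ × ℕ)
  N : List (ℕ × ℕ)

/-- steps of the propagation: the equilibrium at a vertex, the sum over a fibre -/
inductive PStep where
  | v (i : ℕ)
  | f (a b : ℕ)

namespace Pat

/-- neighbours of `i < m` in `G` plus the load `x y`, as extended indices
(`x = y = 2 * m` for no load) -/
def ax (P : Pat) (x y i : ℕ) : List ℕ :=
  P.nx i ++ (if i == x then [y] else []) ++ (if i == y then [x] else [])

/-- keys of the edges from `i` to the class `b` -/
def atoms (P : Pat) (x y i b : ℕ) : List (ℕ × ℕ) :=
  ((P.ax x y i).filter (fun j => P.cx j == b)).map (key i)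

/-- the classes met by the edges at `i` -/
def cls (P : Pat) (x y i : ℕ) : List ℕ := ((P.ax x y i).map P.cx).dedup

/-- the sum of the weights of the keys of `U` is zero -/
def zrule (s : PSt) (U : List (ℕ × ℕ)) : PSt :=
  match U with
  | [e] => ⟨e :: s.Z, s.N⟩
  | [e, e'] =>
    if s.N.contains e then ⟨s.Z, e' :: s.N⟩
    else if s.N.contains e' then ⟨s.Z, e :: s.N⟩ else s
  | _ => s

/-- the sum of the weights of the keys of `U` is nonzero -/
def nrule (s : PSt) (U : List (ℕ × ℕ)) : PSt :=
  match U with
  | [e] => ⟨s.Z, e :: s.N⟩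
  | _ => s

/-- one step of the propagation -/
def pstep (P : Pat) (x y : ℕ) (s : PSt) : PStep → PSt
  | .v i =>
    if i < P.m then
      let nz := ((P.cls x y i).map (fun b => (P.atoms x y i b).filter (fun e => !(s.Z.contains e)))).filter
        (fun U => !U.isEmpty)
      if nz.length ≤ 2 then nz.foldl zrule s
      else if nz.length == 3 && nz.any (fun U => match U with
        | [e] => s.N.contains e
        | _ => false) then nz.foldl nrule s
      else s
    else s
  | .f a b =>
    zrule s (((P.mem a).flatMap (fun i => P.atoms x y i b)).filter (fun e => !(s.Z.contains e)))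

/-- the propagation -/
def prun (P : Pat) (x y : ℕ) (l : List PStep) (s : PSt) : PSt := l.foldl (P.pstep x y) s

/-- contradiction -/
def contra (s : PSt) : Bool := s.Z.any (fun e => s.N.contains e)

end Pat

/-- sum of the weights of the edges from `i` to the class `b` -/
def Wt (P : Pat) (x y : ℕ) (w : ℕ × ℕ → ℝ) (i b : ℕ) : ℝ := ((P.atoms x y i b).map w).sum

/-- if the sums `Wt i b` vanish for all classes `b` but two, they all vanish -/
def PlaneRel (P : Pat) (x y : ℕ) (w : ℕ × ℕ → ℝ) (i : ℕ) : Prop :=
  ∀ b0 b1, (∀ b ∈ P.cls x y i, b ≠ b0 → b ≠ b1 → Wt P x y w i b = 0) →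
    ∀ b ∈ P.cls x y i, Wt P x y w i b = 0

/-- the fibre sum over the classes `a` (`a < m`), `b` vanishes -/
def FibRel (P : Pat) (x y : ℕ) (w : ℕ × ℕ → ℝ) (a b : ℕ) : Prop :=
  ((P.mem a).map (fun i => Wt P x y w i b)).sum = 0

/-- the state `s` is correct -/
def PSt.Valid (s : PSt) (w : ℕ × ℕ → ℝ) : Prop := (∀ e ∈ s.Z, w e = 0) ∧ ∀ e ∈ s.N, w e ≠ 0

/-! ### Module PProp (pure list arithmetic, no geometry) -/

/-- the propagation is correct -/
def PPropStmt : Prop := ∀ (P : Pat) (x y : ℕ) (w : ℕ × ℕ → ℝ),
  (∀ i < P.m, PlaneRel P x y w i) → (∀ a b, FibRel P x y w a b) →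
    ∀ (l : List PStep) (s : PSt), s.Valid w → (P.prun x y l s).Valid w

section
variable {V : Type}

/-- the vertex with extended index `i` -/
def gx (P : Pat) (f t : ℕ → V) (i : ℕ) : V := if i < P.m then f i else t (i - P.m)

/-- valid extended indices -/
def Vx (P : Pat) (i : ℕ) : Prop := i < P.m ∨ ∃ h, P.host h = true ∧ i = P.m + h

open Classical in
/-- the quotient map: `f i ↦ f (c i)`, identity outside the pattern -/
noncomputable def qmap (P : Pat) (f : ℕ → V) (v : V) : V :=
  if h : ∃ i, i < P.m ∧ f i = v then f (P.c h.choose) else v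

end

/-! ### Module PBase: the neighbourhood of the pattern -/

/-- basic facts about an embedded well-formed pattern, `K = quot G (qmap P f)`:
1. the neighbours of `f i` are the `gx j`, `j ∈ nx i`
2. `gx` is injective on valid indices
3. sides of `gx i`
4. `qmap (gx i) = gx (cx i)`, and `qmap v = v` outside the pattern
5. `qmap` preserves the sides
6. a neighbour outside the pattern of `f i` is `t i`, and `i` is a host
7. adjacency in `K` of `f a` (`a` a representative): the `gx b`, `b ∈ kn a`
8. adjacency in `K` of a vertex outside the pattern: the images of its neighbours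
9. a vertex `f i` with `c i ≠ i` is isolated in `K`
10. a vertex outside the pattern has at most one neighbour in the pattern -/
structure PBase {V : Type} [Fintype V] [DecidableEq V] (G : SimpleGraph V) (side : V → Bool)
    (P : Pat) (ts : List Bool) (f t : ℕ → V) : Prop where
  nbr : ∀ i < P.m, ∀ v, G.Adj (f i) v ↔ ∃ j ∈ P.nx i, gx P f t j = v
  nxv : ∀ i < P.m, ∀ j ∈ P.nx i, Vx P j
  nxnd : ∀ i < P.m, (P.nx i).Nodup ∧ (P.nx i).length = 3
  inj : ∀ i j, Vx P i → Vx P j → gx P f t i = gx P f t j → i = j
  sd : ∀ i j, Vx P i → Vx P j → (side (gx P f t i) = side (gx P f t j) ↔ P.ty ts i = P.ty ts j)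
  cx : ∀ i, Vx P i → Vx P (P.cx i) ∧ P.cx (P.cx i) = P.cx i
  qg : ∀ i, Vx P i → qmap P f (gx P f t i) = gx P f t (P.cx i)
  qo : ∀ v, (∀ i < P.m, f i ≠ v) → qmap P f v = v
  qs : ∀ v, side (qmap P f v) = side v
  onb : ∀ i < P.m, ∀ v, G.Adj (f i) v → (∀ j < P.m, f j ≠ v) → P.host i = true ∧ v = t i
  kadj : ∀ a ∈ P.reps, ∀ v, (quot G (qmap P f)).Adj (f a) v ↔ ∃ b ∈ P.kn a, gx P f t b = v
  kout : ∀ v, (∀ i < P.m, f i ≠ v) → ∀ u, (quot G (qmap P f)).Adj v u ↔ ∃ w, G.Adj v w ∧ qmap P f w = u
  iso : ∀ i < P.m, P.c i ≠ i → ∀ u, ¬ (quot G (qmap P f)).Adj (f i) u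
  noC4 : NoC4 (quot G (qmap P f))

def PBaseStmt : Prop := ∀ (V : Type) [Fintype V] [DecidableEq V] (G : SimpleGraph V)
  (side : V → Bool) (P : Pat) (ts : List Bool) (f t : ℕ → V),
  Lev G side → P.wf ts = true → Emb G P f t → PBase G side P ts f t

/-! ### Module PT2: the rest of the graph is 2-edge-connected -/

open Classical in
/-- the vertices outside the pattern -/
noncomputable def outside {V : Type} [Fintype V] (P : Pat) (f : ℕ → V) : Finset V :=
  univ.filter (fun v => ∀ i < P.m, f i ≠ v)

/-- For `C ⊆ T := outside P f`, `D = T \ C` with at most one edge between `C` and `D`: `C = ∅` or `D = ∅`.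
Let `H = Tᶜ`.  Every vertex of `T` has at most one neighbour in `H` and `ed G H T = #hosts ≤ 7`.
Suppose `C, D ≠ ∅`.  If `cut G C ≤ 4` then `|C| ≤ 2` by `Cyc5` (`|Cᶜ| ≥ |H| ≥ 3`); every `v ∈ C` has at most
one neighbour in `H` and at most one in `C`, so at least one in `D`; if `|C| = 1` at least two: in both
cases `ed G C D ≥ 2`.  So `cut G C ≥ 5`, and likewise `cut G D ≥ 5`; but
`cut G C + cut G D = ed G H T + 2 * ed G C D ≤ 9`. -/
def PT2Stmt : Prop := ∀ (V : Type) [Fintype V] [DecidableEq V] (G : SimpleGraph V)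
  (side : V → Bool) (P : Pat) (ts : List Bool) (f t : ℕ → V),
  Lev G side → Cyc5 G → P.wf ts = true → PBase G side P ts f t → (∀ h h', P.host h = true →
    P.host h' = true → h ≠ h' → t h ≠ t h') →
    ∀ C ⊆ outside P f, ed G C (outside P f \ C) ≤ 1 → C = ∅ ∨ C = outside P f

/-! ### Module PTwoDeg -/

/-- the peeling certificates: `o0` peels everything (no load); for every representative `x` a list
`(x, ord)`: peeling with a load at `x` from outside; for every non-adjacent pair of representatives
`x < y` of different types `(x, y, ord, ord')`, with and without attachments -/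
structure PeelCert where
  o0 : List ℕ
  pT : List (ℕ × List ℕ)
  pH : List ((ℕ × ℕ) × List ℕ × List ℕ)

/-- the check of the peeling certificates, `exc`: excepted pairs `(x, m + h)` -/
def Pat.peelOK (P : Pat) (ts : List Bool) (ce : PeelCert) (exc : List (ℕ × ℕ)) : Bool :=
  P.peel true (2 * P.m) (2 * P.m) [] ce.o0 && P.reps.all (fun a => ce.o0.contains a) &&
  P.reps.all (fun x => ce.pT.any (fun c => c.1 == x && P.peel true x (2 * P.m) [] c.2 &&
    P.hosts.any (fun h => c.2.contains (P.c h)) &&
    P.hosts.all (fun h0 => P.ty ts (P.m + h0) == P.ty ts x || P.c h0 == x ||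
      exc.contains (x, P.m + h0) ||
      P.hosts.any (fun h => h != h0 && c.2.contains (P.c h))))) &&
  P.reps.all (fun x => P.reps.all (fun y => P.ty ts x == P.ty ts y || (P.kn x).contains y ||
    decide (y < x) || ce.pH.any (fun c => c.1.1 == x && c.1.2 == y &&
      P.peel true x y [] c.2.1 && P.hosts.any (fun h => c.2.1.contains (P.c h)) &&
      P.peel false x y [] c.2.2 && P.reps.all (fun a => c.2.2.contains a))))

/-- `K` with one more edge is 2-degenerate.
Let `S ≠ ∅` with all `dg (addE K x y) S v ≥ 3`.  Put `C = S ∩ T`, `T = outside P f`.  A vertex `f i` with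
`c i ≠ i` is isolated in `K`, so not in `S`.  A vertex of `C` other than `x, y` has its three `G`-neighbours
mapped into `S`, and `x`, `y` miss at most one each.
(K itself.) `ed G C (T \ C) = 0`, so `C = ∅` or `C = T` (PT2).  By the certificate `o0` no `f a` is in `S`
(`peel`: if `S` contains none of the removed classes then it does not contain the next one either).  If
`C = T` then `t h ∈ S` has at most two neighbours in `S`; `C = ∅` gives `S = ∅`.  So `TwoDeg K`.
(One of `x, y` not in `S`, or not representative.) Then `S` is a core of `K`: impossible.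
(x, y ∈ T.) No `f a` in `S` by `o0`, so `S = C` and every vertex of `C` other than `x, y` has its three
`G`-neighbours in `S`: `cut G S ≤ 2`, against `c3`, as `S ≠ univ`.
(x = f a, y ∈ T.) `ed G C (T \ C) ≤ 1`, `y ∈ C`, so `C = T`; by `pT` there is a host `h` with `f (c h) ∉ S`
and `t h ≠ y`: `t h ∈ S` has only two neighbours in `S`.
(x = f a, y = f b.) `ed G C (T \ C) = 0`: if `C = T` as before; if `C = ∅` then `S = ∅` by the second
order. -/
def PTwoDegStmt : Prop := ∀ (V : Type) [Fintype V] [DecidableEq V] (G : SimpleGraph V)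
  (side : V → Bool) (P : Pat) (ts : List Bool) (ce : PeelCert) (exc : List (ℕ × ℕ)) (f t : ℕ → V),
  Lev G side → P.wf ts = true → PBase G side P ts f t →
  (∀ C ⊆ outside P f, ed G C (outside P f \ C) ≤ 1 → C = ∅ ∨ C = outside P f) →
  P.peelOK ts ce exc = true →
    TwoDeg (quot G (qmap P f)) ∧
    ∀ x y, side x ≠ side y → ¬ (quot G (qmap P f)).Adj x y →
      (∀ e ∈ exc, s(x, y) ≠ s(gx P f t e.1, gx P f t e.2)) →
      TwoDeg (addE (quot G (qmap P f)) x y)

/-! ### Module PRel: from a stress to the relations -/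

/-- Let `ρ` be a separated realization of `K = quot G q`, `q = qmap P f`, stress-free, nonzero on the
non-adjacent pairs except possibly some not K-adjacent ones.  Let `ω` be a stress of
`addE G (gx x) (gx y)` at `ρ ∘ q`, where `x < m`, `y` is valid, of the other type, not adjacent to `x`, and
the classes of `x`, `y` are adjacent.  Then `w (i, j) = ω (gx i) (gx j)` satisfies all relations.
Proof of `PlaneRel` at `i`: group `∑ u, ω (f i) u • ρ (q u) = 0` by the value of `q u`; the nonzero terms have
`u = gx j`, `j ∈ ax i`; this gives `∑ b ∈ cls i, Wt i b • ρ (gx b) = 0` and the `ρ (gx b)` are pairwise not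
parallel.  `FibRel`: `N3.pushGen` (see `kstress` in Push.lean): the fibre sums form a stress of `K`, so
they vanish; for `a < m`, `b` valid: `∑ u, ∑ v, [q u = gx a, q v = gx b] ω u v = ∑ i ∈ mem a, Wt i b`
(if `a` is not a representative or `b` is not a valid class all sums are empty). -/
def PRelStmt : Prop := ∀ (V : Type) [Fintype V] [DecidableEq V] (G : SimpleGraph V)
  (side : V → Bool) (P : Pat) (ts : List Bool) (f t : ℕ → V) (ρ : V → E),
  Lev G side → P.wf ts = true → PBase G side P ts f t →
  Rlz (quot G (qmap P f)) ρ → Sep side ρ → StressFree (quot G (qmap P f)) ρ →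
  (∀ x y, x < P.m → Vx P y → P.ty ts x ≠ P.ty ts y → ¬ y ∈ P.nx x → P.cx y ∈ P.kn (P.c x) →
    ∀ ω, Stress (addE G (gx P f t x) (gx P f t y)) (ρ ∘ qmap P f) ω →
      (∀ i < P.m, PlaneRel P x y (fun e => ω (gx P f t e.1) (gx P f t e.2)) i) ∧
      (∀ a b, FibRel P x y (fun e => ω (gx P f t e.1) (gx P f t e.2)) a b)) ∧
  (∀ ω, Stress G (ρ ∘ qmap P f) ω →
      (∀ i < P.m, PlaneRel P (2 * P.m) (2 * P.m) (fun e => ω (gx P f t e.1) (gx P f t e.2)) i) ∧
      (∀ a b, FibRel P (2 * P.m) (2 * P.m) (fun e => ω (gx P f t e.1) (gx P f t e.2)) a b))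

/-! ### Module PKill -/

/-- the kill certificates: `k0` (no load), for every pair `(x, y)` the steps, and the distance 3 pairs
`(x, y)` with `(s, t, z, z')` -/
structure KillCert where
  k0 : List PStep
  ks : List ((ℕ × ℕ) × List PStep)
  d3 : List ((ℕ × ℕ) × (ℕ × ℕ × ℕ × ℕ))

/-- `x < m`, `y` valid, of different types, not adjacent, with adjacent classes -/
def Pat.zpair (P : Pat) (ts : List Bool) (x y : ℕ) : Bool :=
  decide (x < P.m) && (decide (y < P.m) || P.host (y - P.m)) && (P.ty ts x != P.ty ts y) &&
  !((P.nx x).contains y) && (P.kn (P.c x)).contains (P.cx y)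

/-- a pair killed by the certificate -/
def Pat.killed (P : Pat) (ts : List Bool) (ce : KillCert) (x y : ℕ) : Bool :=
  P.zpair ts x y &&
  ce.ks.any (fun c => c.1.1 == x && c.1.2 == y && Pat.contra (P.prun x y c.2 ⟨[], [key x y]⟩))

/-- a pair `x, y` at distance 3: `x - s - t - y`, `z` is a neighbour of `t` and `z'` of `y` such that
`x, z` and `s, z'` are killed -/
def Pat.dist3 (P : Pat) (ts : List Bool) (ce : KillCert) (x y : ℕ) : Bool :=
  ce.d3.any (fun c => c.1.1 == x && c.1.2 == y &&
    decide (x < P.m) && decide (c.2.1 < P.m) && decide (c.2.2.1 < P.m) && decide (y < P.m) &&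
    (P.nx x).contains c.2.1 && (P.nx c.2.1).contains c.2.2.1 && (P.nx c.2.2.1).contains y &&
    c.2.2.1 != x && c.2.1 != y &&
    (P.nx c.2.2.1).contains c.2.2.2.1 && (P.nx y).contains c.2.2.2.2 &&
    (P.killed ts ce x c.2.2.2.1 || P.killed ts ce c.2.2.2.1 x) &&
    (P.killed ts ce c.2.1 c.2.2.2.2 || P.killed ts ce c.2.2.2.2 c.2.1))

/-- check of the kill certificates -/
def Pat.killOK (P : Pat) (ts : List Bool) (ce : KillCert) : Bool :=
  (List.range P.m).all (fun i => (P.nx i).all (fun j =>
    (P.prun (2 * P.m) (2 * P.m) ce.k0 ⟨[], []⟩).Z.contains (key i j))) &&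
  (List.range P.m).all (fun x => (List.range (2 * P.m)).all (fun y => !(P.zpair ts x y) ||
    decide (y < x) || P.killed ts ce x y || P.dist3 ts ce x y))

/-- `x, y` is a pair at distance 3 which is nonzero as soon as two killed pairs are nonzero -/
def D3 {V : Type} [Fintype V] [DecidableEq V] (G : SimpleGraph V) (side : V → Bool) (κ : V → E)
    (x y : V) : Prop :=
  ∃ s t z z', G.Adj x s ∧ G.Adj s t ∧ G.Adj t y ∧ x ≠ t ∧ s ≠ y ∧ G.Adj t z ∧ G.Adj y z' ∧
    side x ≠ side z ∧ ¬ G.Adj x z ∧ StressFree (addE G x z) κ ∧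
    side s ≠ side z' ∧ ¬ G.Adj s z' ∧ StressFree (addE G s z') κ

/-- KILL.  `κ = ρ ∘ q` is stress-free for `G`, and every non-adjacent pair of different sides with
K-adjacent classes is killed or of type `D3`.
(No load: by `PProp`, `PRel` and `k0` all `ω (gx i) (gx j)`, `i < m`, `j ∈ nx i`, vanish; for `u`, `v`
outside the pattern the fibre sum over `u, v` is `ω u v` (`kstress_single'`).
Pair `x, y`: with `P.killed`: `ω (gx x) (gx y) = 0` by `PProp`, `PRel`, so `ω` is a stress of `G`
(`Stress.of_addE`), so zero.  An arbitrary pair `u, v`: one of them is in the pattern, say `u = f x`, and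
`v = gx y` with `y` valid by `kadj`; up to exchange `x ≤ y`; then `zpair` holds.) -/
def PKillStmt : Prop := ∀ (V : Type) [Fintype V] [DecidableEq V] (G : SimpleGraph V)
  (side : V → Bool) (P : Pat) (ts : List Bool) (ce : KillCert) (f t : ℕ → V) (ρ : V → E),
  Lev G side → P.wf ts = true → PBase G side P ts f t →
  Rlz (quot G (qmap P f)) ρ → Sep side ρ → StressFree (quot G (qmap P f)) ρ →
  P.killOK ts ce = true →
    StressFree G (ρ ∘ qmap P f) ∧
    ∀ x y, side x ≠ side y → ¬ G.Adj x y → (quot G (qmap P f)).Adj (qmap P f x) (qmap P f y) →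
      StressFree (addE G x y) (ρ ∘ qmap P f) ∨ D3 G side (ρ ∘ qmap P f) x y ∨
        D3 G side (ρ ∘ qmap P f) y x

/-- variant of `KillStmt` with pairs at distance 3.  (As `N3.kill` in MinKill.lean: at the minimiser the
killed pairs are nonzero; for a pair `D3`: if `ρ x ⬝ᵥ ρ y = 0` then `ρ x, ρ t` are both orthogonal to `ρ s, ρ y`,
so `ρ x ∥ ρ t`, whence `ρ x ⬝ᵥ ρ z = 0`, or `ρ s ∥ ρ y`, whence `ρ s ⬝ᵥ ρ z' = 0`.) -/
def KillD3Stmt : Prop := ∀ (V : Type) [Fintype V] [DecidableEq V] (G : SimpleGraph V)
  (side : V → Bool), Bip G side → NoC4 G → (∀ v, 2 ≤ dg G univ v) → ∀ κ : V → E, (∀ v, κ v ≠ 0) →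
    Rlz G κ →
    (∀ x y, side x ≠ side y → ¬ G.Adj x y → κ x ⬝ᵥ κ y = 0 →
      StressFree (addE G x y) κ ∨ D3 G side κ x y ∨ D3 G side κ y x) →
      ∃ ρ, Exact G side ρ

/-! ### Final theorem on perfect designs -/

/-- a pattern passing the checks (without exceptional pair) gives an exact realization
(Theorem G for `K`, then `PKill` and `KillD3` for `κ = ρ ∘ q`) -/
def PFinalStmt : Prop := ∀ (V : Type) [Fintype V] [DecidableEq V] (G : SimpleGraph V)
  (side : V → Bool) (P : Pat) (ts : List Bool) (ce : PeelCert) (cf : KillCert) (f t : ℕ → V),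
  Lev G side → Cyc5 G → P.wf ts = true → P.peelOK ts ce [] = true → P.killOK ts cf = true →
    Emb G P f t → ∃ ρ, Exact G side ρ

end N3
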