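import Pool.Agent.Lib_n3.StmtsStd
import Pool.Agent.Lib_n3.ThmG
import Pool.Agent.Lib_n3.MinKill
import Pool.Agent.Lib_n3.Core
import Pool.Agent.Lib_n3.Cuts
import Pool.Agent.Lib_n3.ResExact
import Pool.Agent.Lib_n3.Push
import Pool.Agent.Lib_n3.SP

/-!
# Module StdRho of the project MP_07e12a_co: the realization of the collapsed hexagon
-/

open scoped Matrix Topology
open Finset

namespace N3

set_option linter.unusedSectionVars false

namespace H40S

variable {V : Type} [Fintype V] [DecidableEq V] {G : SimpleGraph V} {side : V → Bool}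
  {v w : Fin 6 → V}

/-! ### Sides -/

lemma bool_of_ne {a b c : Bool} (h1 : a ≠ b) (h2 : b ≠ c) : a = c := by
  revert h1 h2; revert a b c; decide

lemma side_step (H : HexData G side v w) (i : Fin 6) : side (v (i + 2)) = side (v i) := by
  have h1 := H.lev.bip _ _ (H.vv i)
  have h2 := H.lev.bip _ _ (H.vv (i + 1))
  have e : i + 1 + 1 = i + 2 := by
    rw [add_assoc]; rfl
  rw [e] at h2
  exact (bool_of_ne h1 h2).symm

lemma fin_aux : ∀ i j : Fin 6, j + 1 = i → i + 1 ≠ j := by decide

lemma fin_pred : ∀ j : Fin 6, ∃ k : Fin 6, k + 1 = j := by decide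

lemma vne (H : HexData G side v w) {i j : Fin 6} (h : i ≠ j) : v i ≠ v j := fun h' => h (H.inj h')

/-- the neighbours of a hexagon vertex -/
lemma nbr (H : HexData G side v w) (i j : Fin 6) (hj : j + 1 = i) (u : V) :
    G.Adj (v i) u ↔ u = v (i + 1) ∨ u = v j ∨ u = w i := by
  classical
  have h3 := H.lev.cubic (v i)
  unfold dg at h3
  have hij : i + 1 ≠ j := fin_aux i j hj
  have h1 : v (i + 1) ≠ v j := vne H hij
  have h2 : v (i + 1) ≠ w i := (H.wv i (i + 1)).symm
  have h4 : v j ≠ w i := (H.wv i j).symm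
  have hcard : ({v (i + 1), v j, w i} : Finset V).card = 3 := by
    rw [Finset.card_eq_three]
    exact ⟨_, _, _, h1, h2, h4, rfl⟩
  have hadj : G.Adj (v i) (v j) := by
    have := H.vv j
    rw [hj] at this
    exact this.symm
  have hsub : ({v (i + 1), v j, w i} : Finset V) ⊆ univ.filter (fun u => G.Adj (v i) u) := by
    intro x hx
    simp only [Finset.mem_insert, Finset.mem_singleton] at hx
    rw [Finset.mem_filter]
    refine ⟨Finset.mem_univ _, ?_⟩
    rcases hx with rfl | rfl | rfl
    · exact H.vv i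
    · exact hadj
    · exact H.vw i
  have heq := Finset.eq_of_subset_of_card_le hsub (by rw [hcard]; exact le_of_eq h3)
  have := Finset.ext_iff.1 heq u
  simp only [Finset.mem_insert, Finset.mem_singleton, Finset.mem_filter, Finset.mem_univ,
    true_and] at this
  exact this.symm

/-- degrees of the hexagon vertices -/
lemma dgHex (H : HexData G side v w) (i j : Fin 6) (hj : j + 1 = i) (T : Finset V) :
    dg G T (v i) = (if v (i + 1) ∈ T then 1 else 0) + (if v j ∈ T then 1 else 0)
      + (if w i ∈ T then 1 else 0) := by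
  classical
  have hij : i + 1 ≠ j := fin_aux i j hj
  have h1 : v (i + 1) ≠ v j := vne H hij
  have h2 : v (i + 1) ≠ w i := (H.wv i (i + 1)).symm
  have h4 : v j ≠ w i := (H.wv i j).symm
  have e : T.filter (fun u => G.Adj (v i) u) =
      ({v (i + 1), v j, w i} : Finset V).filter (fun u => u ∈ T) := by
    ext u
    simp only [Finset.mem_filter, Finset.mem_insert, Finset.mem_singleton, nbr H i j hj u]
    tauto
  unfold dg
  have e2 : (({v (i + 1), v j, w i} : Finset V).filter (fun u => u ∈ T)).card =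
      (if v (i + 1) ∈ T then 1 else 0) + (if v j ∈ T then 1 else 0)
      + (if w i ∈ T then 1 else 0) := by
    rw [Finset.card_filter, Finset.sum_insert (by simp [h1, h2]), Finset.sum_insert (by simp [h4]),
      Finset.sum_singleton, add_assoc]
  rw [← e2, ← e]

lemma dg_insert (G : SimpleGraph V) {T : Finset V} {x : V} (hx : x ∉ T) (u : V) :
    dg G (insert x T) u = ai G u x + dg G T u := by
  rw [dg_eq, dg_eq, Finset.sum_insert hx]

/-- the third neighbours are adjacent to a single hexagon vertex -/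
lemma w_adj (H : HexData G side v w) {i j : Fin 6} (h : G.Adj (w i) (v j)) : w i = w j := by
  obtain ⟨k, hk⟩ := fin_pred j
  have := (nbr H j k hk (w i)).1 h.symm
  rcases this with h' | h' | h'
  · exact absurd h' (H.wv _ _)
  · exact absurd h' (H.wv _ _)
  · exact h'

lemma adj_v_iff (H : HexData G side v w) {j : Fin 6} {u : V} (hu : ∀ i, u ≠ v i) :
    G.Adj u (v j) ↔ u = w j := by
  obtain ⟨k, hk⟩ := fin_pred j
  rw [G.adj_comm, nbr H j k hk]
  constructor
  · rintro (h | h | h)
    · exact absurd h (hu _)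
    · exact absurd h (hu _)
    · exact h
  · intro h
    exact Or.inr (Or.inr h)

/-! ### Counting, first case: one of the two identified vertices -/

lemma onlyA (H : HexData G side v w) (S : Finset V) (y z : V) (h1 : v 1 ∈ S) (h0 : v 0 ∉ S)
    (h2 : v 2 ∉ S) (h3 : v 3 ∉ S) (h4 : v 4 ∉ S) (h5 : v 5 ∉ S)
    (hA : 3 ≤ (if w 1 ∈ S then 1 else 0) + (if w 5 ∈ S then 1 else 0)
      + (if v 1 = y ∨ v 1 = z then 1 else 0))
    (hS : ∀ u ∈ S, u ≠ v 1 → 3 ≤ dg G (insert (v 5) S) u + (if u = y ∨ u = z then 1 else 0)) :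
    False := by
  classical
  have hw1 : w 1 ∈ S := by
    by_contra h
    rw [if_neg h] at hA
    split_ifs at hA <;> omega
  have hw5 : w 5 ∈ S := by
    by_contra h
    rw [if_neg h] at hA
    split_ifs at hA <;> omega
  have hyz : v 1 = y ∨ v 1 = z := by
    by_contra h
    rw [if_neg h] at hA
    split_ifs at hA <;> omega
  set T := insert (v 0) (insert (v 5) S) with hT
  have m0 : v 0 ∉ insert (v 5) S := by
    rw [Finset.mem_insert, not_or]; exact ⟨vne H (by decide), h0⟩
  have hsum2 := sum_pair_le S y z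
  have e1 : ∑ u ∈ S, (if u = y ∨ u = z then 1 else 0) =
      (if v 1 = y ∨ v 1 = z then 1 else 0) +
        ∑ u ∈ S.erase (v 1), (if u = y ∨ u = z then 1 else 0) :=
    (Finset.add_sum_erase S (fun u => if u = y ∨ u = z then 1 else 0) h1).symm
  have hb : ∀ u ∈ S.erase (v 1), dg G Tᶜ u ≤ (if u = y ∨ u = z then 1 else 0) := by
    intro u hu
    rw [Finset.mem_erase] at hu
    have a1 := hS u hu.2 hu.1
    have a2 := dg_compl G T u
    have a3 := H.lev.cubic u
    have a4 : dg G (insert (v 5) S) u ≤ dg G T u :=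
      dg_mono_set G (Finset.subset_insert _ _) u
    omega
  have hcut : cut G T ≤ 4 := by
    unfold cut ed
    rw [hT, Finset.sum_insert m0, Finset.sum_insert h5, ← hT, ← Finset.add_sum_erase S _ h1]
    have c0 : dg G Tᶜ (v 0) ≤ 1 := by
      rw [dgHex H 0 5 (by decide)]
      have b1 : v 1 ∈ T := by rw [hT]; simp [h1]
      have b5 : v 5 ∈ T := by rw [hT]; simp
      have : v (0 + 1) = v 1 := rfl
      rw [this, if_neg (by simp [b1]), if_neg (by simp [b5])]
      split_ifs <;> omega
    have c5 : dg G Tᶜ (v 5) ≤ 1 := by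
      rw [dgHex H 5 4 (by decide)]
      have b1 : v 0 ∈ T := by rw [hT]; simp
      have b5 : w 5 ∈ T := by rw [hT]; simp [hw5]
      have : v (5 + 1) = v 0 := rfl
      rw [this, if_neg (by simp [b1]), if_neg (by simp [b5] : w 5 ∉ Tᶜ)]
      split_ifs <;> omega
    have c1 : dg G Tᶜ (v 1) ≤ 1 := by
      rw [dgHex H 1 0 (by decide)]
      have b1 : v 0 ∈ T := by rw [hT]; simp
      have b5 : w 1 ∈ T := by rw [hT]; simp [hw1]
      rw [if_neg (by simp [b1] : v 0 ∉ Tᶜ), if_neg (by simp [b5] : w 1 ∉ Tᶜ)]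
      split_ifs <;> omega
    have hle := Finset.sum_le_sum hb
    rw [if_pos hyz] at e1
    omega
  rcases H.c5 T hcut with hc | hc
  · have : ({v 0, v 1, v 5} : Finset V) ⊆ T := by
      intro x hx
      simp only [Finset.mem_insert, Finset.mem_singleton] at hx
      rw [hT]
      rcases hx with rfl | rfl | rfl
      · simp
      · simp [h1]
      · simp
    have h3c : ({v 0, v 1, v 5} : Finset V).card = 3 := by
      rw [Finset.card_eq_three]
      exact ⟨_, _, _, vne H (by decide), vne H (by decide), vne H (by decide), rfl⟩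
    have := Finset.card_le_card this
    omega
  · have : ({v 2, v 3, v 4} : Finset V) ⊆ Tᶜ := by
      intro x hx
      simp only [Finset.mem_insert, Finset.mem_singleton] at hx
      rw [Finset.mem_compl, hT, Finset.mem_insert, Finset.mem_insert, not_or, not_or]
      rcases hx with rfl | rfl | rfl
      · exact ⟨vne H (by decide), vne H (by decide), h2⟩
      · exact ⟨vne H (by decide), vne H (by decide), h3⟩
      · exact ⟨vne H (by decide), vne H (by decide), h4⟩
    have h3c : ({v 2, v 3, v 4} : Finset V).card = 3 := by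
      rw [Finset.card_eq_three]
      exact ⟨_, _, _, vne H (by decide), vne H (by decide), vne H (by decide), rfl⟩
    have := Finset.card_le_card this
    omega

/-! ### Counting, second case: both identified vertices -/

lemma bothAB (H : HexData G side v w) (O : StdOK G w) (S : Finset V) (y z : V)
    (hyz : s(y, z) ≠ s(w 0, w 3)) (h1 : v 1 ∈ S) (h2 : v 2 ∈ S) (h0 : v 0 ∉ S)
    (h3 : v 3 ∉ S) (h4 : v 4 ∉ S) (h5 : v 5 ∉ S)
    (hA : 3 ≤ 1 + (if w 1 ∈ S then 1 else 0) + (if w 5 ∈ S then 1 else 0)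
      + (if v 1 = y ∨ v 1 = z then 1 else 0))
    (hB : 3 ≤ 1 + (if w 2 ∈ S then 1 else 0) + (if w 4 ∈ S then 1 else 0)
      + (if v 2 = y ∨ v 2 = z then 1 else 0))
    (hS : ∀ u ∈ S, u ≠ v 1 → u ≠ v 2 →
      3 ≤ dg G (insert (v 4) (insert (v 5) S)) u + (if u = y ∨ u = z then 1 else 0)) :
    False := by
  classical
  have hw03 : w 0 ≠ w 3 := by
    intro h
    have e0 := H.lev.bip _ _ (H.vw 0)
    have e3 := H.lev.bip _ _ (H.vw 3)
    have e01 := H.lev.bip _ _ (H.vv 0)
    have e13 : side (v 3) = side (v 1) := side_step H 1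
    rw [h] at e0
    have : side (v 0) = side (v 3) := bool_of_ne e0 e3.symm
    apply e01
    rw [this, e13]
    rfl
  set Q := insert (v 4) (insert (v 5) S) with hQ
  set T := insert (v 0) (insert (v 3) Q) with hT
  have m5 : v 5 ∉ S := h5
  have m4 : v 4 ∉ insert (v 5) S := by
    rw [Finset.mem_insert, not_or]; exact ⟨vne H (by decide), h4⟩
  have m3 : v 3 ∉ Q := by
    rw [hQ, Finset.mem_insert, not_or, Finset.mem_insert, not_or]
    exact ⟨vne H (by decide), vne H (by decide), h3⟩
  have m0 : v 0 ∉ insert (v 3) Q := by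
    rw [Finset.mem_insert, not_or, hQ, Finset.mem_insert, not_or, Finset.mem_insert, not_or]
    exact ⟨vne H (by decide), vne H (by decide), vne H (by decide), h0⟩
  have memT : ∀ i, v i ∈ T := by
    intro i
    rw [hT, hQ]
    fin_cases i <;> simp [h1, h2]
  have memTw : ∀ i, w i ∈ T ↔ w i ∈ S := by
    intro i
    rw [hT, hQ]
    simp [H.wv i]
  have h2' : v 2 ∈ S.erase (v 1) := Finset.mem_erase.2 ⟨vne H (by decide), h2⟩
  set S' := (S.erase (v 1)).erase (v 2) with hS'
  have sub' : ∀ u ∈ S', u ∈ S ∧ u ≠ v 1 ∧ u ≠ v 2 := by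
    intro u hu
    rw [hS', Finset.mem_erase, Finset.mem_erase] at hu
    exact ⟨hu.2.2, hu.2.1, hu.1⟩
  have offhex : ∀ u ∈ S', ∀ i, u ≠ v i := by
    intro u hu i
    obtain ⟨a1, a2, a3⟩ := sub' u hu
    rintro rfl
    fin_cases i
    · exact h0 a1
    · exact a2 rfl
    · exact a3 rfl
    · exact h3 a1
    · exact h4 a1
    · exact h5 a1
  have hb : ∀ u ∈ S', dg G Tᶜ u + ((if u = w 0 then 1 else 0) + (if u = w 3 then 1 else 0)) ≤
      (if u = y ∨ u = z then 1 else 0) := by
    intro u hu
    obtain ⟨a1, a2, a3⟩ := sub' u hu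
    have b1 := hS u a1 a2 a3
    have b2 := dg_compl G T u
    have b3 := H.lev.cubic u
    have b4 : dg G T u = ai G u (v 0) + (ai G u (v 3) + dg G Q u) := by
      rw [hT, dg_insert G m0, dg_insert G m3]
    have b5 : ∀ j, ai G u (v j) = if u = w j then 1 else 0 := by
      intro j
      unfold ai
      simp only [adj_v_iff H (offhex u hu)]
    rw [b5, b5] at b4
    omega
  have w0S : w 0 ∈ S → w 0 = y ∨ w 0 = z := by
    intro h
    by_contra hn
    have := hb (w 0) (by
      rw [hS', Finset.mem_erase, Finset.mem_erase]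
      exact ⟨H.wv _ _, H.wv _ _, h⟩)
    rw [if_neg hn, if_pos rfl] at this
    omega
  have w3S : w 3 ∈ S → w 3 = y ∨ w 3 = z := by
    intro h
    by_contra hn
    have := hb (w 3) (by
      rw [hS', Finset.mem_erase, Finset.mem_erase]
      exact ⟨H.wv _ _, H.wv _ _, h⟩)
    rw [if_neg hn, if_pos (rfl : w 3 = w 3)] at this
    omega
  have hnot : ¬ (w 0 ∈ S ∧ w 3 ∈ S) := by
    rintro ⟨a, b⟩
    apply hyz
    rcases w0S a with e | e <;> rcases w3S b with e' | e'
    · exact absurd (e.trans e'.symm) hw03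
    · rw [e, e']
    · rw [e, e', Sym2.eq_swap]
    · exact absurd (e.trans e'.symm) hw03
  -- the sums of the indicators
  have sumI : ∀ x : V, (∀ i, x ≠ v i) →
      ∑ u ∈ S', (if u = x then 1 else 0) = if x ∈ S then 1 else 0 := by
    intro x hx
    rw [Finset.sum_ite_eq' S' x (fun _ => 1)]
    by_cases hxS : x ∈ S
    · rw [if_pos hxS, if_pos]
      rw [hS', Finset.mem_erase, Finset.mem_erase]
      exact ⟨hx _, hx _, hxS⟩
    · rw [if_neg hxS, if_neg]
      intro h
      exact hxS (sub' x h).1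
  have hle := Finset.sum_le_sum hb
  rw [Finset.sum_add_distrib, Finset.sum_add_distrib, sumI _ (H.wv 0), sumI _ (H.wv 3)] at hle
  have hsum2 := sum_pair_le S y z
  have e1 : ∑ u ∈ S, (if u = y ∨ u = z then 1 else 0) =
      (if v 1 = y ∨ v 1 = z then 1 else 0) + ((if v 2 = y ∨ v 2 = z then 1 else 0) +
        ∑ u ∈ S', (if u = y ∨ u = z then 1 else 0)) := by
    rw [← Finset.add_sum_erase S (fun u => if u = y ∨ u = z then 1 else 0) h1,
      ← Finset.add_sum_erase _ (fun u => if u = y ∨ u = z then 1 else 0) h2']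
  have hcutT : cut G T = dg G Tᶜ (v 0) + (dg G Tᶜ (v 3) + (dg G Tᶜ (v 4) + (dg G Tᶜ (v 5) +
      (dg G Tᶜ (v 1) + (dg G Tᶜ (v 2) + ∑ u ∈ S', dg G Tᶜ u))))) := by
    unfold cut ed
    rw [show (∑ v ∈ T, dg G Tᶜ v) = ∑ v ∈ insert (v 0) (insert (v 3) Q), dg G Tᶜ v from rfl,
      Finset.sum_insert m0, Finset.sum_insert m3]
    rw [show (∑ v ∈ Q, dg G Tᶜ v) = ∑ v ∈ insert (v 4) (insert (v 5) S), dg G Tᶜ v from rfl,
      Finset.sum_insert m4, Finset.sum_insert h5, ← Finset.add_sum_erase S _ h1,
      ← Finset.add_sum_erase _ _ h2']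
  have dgv : ∀ i j : Fin 6, j + 1 = i → dg G Tᶜ (v i) = if w i ∈ S then 0 else 1 := by
    intro i j hij
    rw [dgHex H i j hij, if_neg (by simp [memT]), if_neg (by simp [memT])]
    simp only [Finset.mem_compl, memTw]
    split_ifs <;> simp_all
  rw [dgv 0 5 (by decide), dgv 3 2 (by decide), dgv 4 3 (by decide), dgv 5 4 (by decide),
    dgv 1 0 (by decide), dgv 2 1 (by decide)] at hcutT
  have hTne : T.Nonempty := ⟨v 0, memT 0⟩
  by_cases a0 : w 0 ∈ S
  · have a3 : w 3 ∉ S := fun h => hnot ⟨a0, h⟩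
    have := H.lev.c3 T hTne ⟨w 3, by rw [Finset.mem_compl, memTw]; exact a3⟩
    rw [if_pos a0, if_neg a3] at hcutT hle
    split_ifs at hcutT hle hA hB e1 <;> omega
  · by_cases a3 : w 3 ∈ S
    · have := H.lev.c3 T hTne ⟨w 0, by rw [Finset.mem_compl, memTw]; exact a0⟩
      rw [if_neg a0, if_pos a3] at hcutT hle
      split_ifs at hcutT hle hA hB e1 <;> omega
    · have hcut4 : cut G T ≤ 4 := by
        rw [if_neg a0, if_neg a3] at hcutT hle
        split_ifs at hcutT hle hA hB e1 <;> omega
      have hTc : ({w 0, w 3} : Finset V) ⊆ Tᶜ := by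
        intro x hx
        rw [Finset.mem_insert, Finset.mem_singleton] at hx
        rw [Finset.mem_compl]
        rcases hx with rfl | rfl
        · rw [memTw]; exact a0
        · rw [memTw]; exact a3
      have hc2 : ({w 0, w 3} : Finset V).card = 2 := Finset.card_pair hw03
      rcases H.c5 T hcut4 with hc | hc
      · have : ({v 0, v 1, v 5} : Finset V) ⊆ T := by
          intro x hx
          simp only [Finset.mem_insert, Finset.mem_singleton] at hx
          rcases hx with rfl | rfl | rfl <;> exact memT _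
        have h3c : ({v 0, v 1, v 5} : Finset V).card = 3 := by
          rw [Finset.card_eq_three]
          exact ⟨_, _, _, vne H (by decide), vne H (by decide), vne H (by decide), rfl⟩
        have := Finset.card_le_card this
        omega
      · have heq : ({w 0, w 3} : Finset V) = Tᶜ :=
          Finset.eq_of_subset_of_card_le hTc (by rw [hc2]; exact hc)
        have hcc : cut G Tᶜ = cut G T := cut_compl G T
        have e2 := three_card H.lev.cubic Tᶜ
        rw [hcc, ← heq, hc2] at e2
        have e3 : ed G {w 0, w 3} {w 0, w 3} = 0 := by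
          rw [ed_eq, Finset.sum_pair hw03, Finset.sum_pair hw03, Finset.sum_pair hw03, ai_self,
            ai_self, ai_comm G (w 3) (w 0), ai_of_not G O.h03, add_zero, add_zero]
        omega

/-! ### The quotient graph -/

lemma q5 (v : Fin 6 → V) : stdQ v (v 5) = v 1 := by
  unfold stdQ
  rw [if_pos rfl]

lemma q4 (H : HexData G side v w) : stdQ v (v 4) = v 2 := by
  unfold stdQ
  rw [if_neg (vne H (by decide)), if_pos rfl]

lemma qo {u : V} (h4 : u ≠ v 4) (h5 : u ≠ v 5) : stdQ v u = u := by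
  unfold stdQ
  rw [if_neg h5, if_neg h4]

lemma q_side (H : HexData G side v w) (u : V) : side (stdQ v u) = side u := by
  by_cases h5 : u = v 5
  · subst h5
    rw [q5]
    have h1 := side_step H 1
    have h3 := side_step H 3
    exact (h3.trans h1).symm
  · by_cases h4 : u = v 4
    · subst h4
      rw [q4 H]
      exact (side_step H 2).symm
    · rw [qo h4 h5]

/-- fibres of the identification -/
lemma q_eq (H : HexData G side v w) {u a : V} (h : stdQ v u = a) :
    (u = a ∧ u ≠ v 4 ∧ u ≠ v 5) ∨ (u = v 5 ∧ a = v 1) ∨ (u = v 4 ∧ a = v 2) := by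
  by_cases h5 : u = v 5
  · subst h5
    rw [q5] at h
    exact Or.inr (Or.inl ⟨rfl, h.symm⟩)
  · by_cases h4 : u = v 4
    · subst h4
      rw [q4 H] at h
      exact Or.inr (Or.inr ⟨rfl, h.symm⟩)
    · rw [qo h4 h5] at h
      exact Or.inl ⟨h, h4, h5⟩

lemma kadj (H : HexData G side v w) (a b : V) : (stdK G v).Adj a b ↔
    (∃ u x, G.Adj u x ∧ stdQ v u = a ∧ stdQ v x = b) ∧ (a ≠ v 0 ∧ a ≠ v 3) ∧ b ≠ v 0 ∧ b ≠ v 3 := by
  unfold stdK
  change (quot G (stdQ v)).Adj a b ∧ a ∈ univ \ {v 0, v 3} ∧ b ∈ univ \ {v 0, v 3} ↔ _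
  rw [quot_adj_iff H.lev.bip (q_side H)]
  simp only [Finset.mem_sdiff, Finset.mem_univ, true_and, Finset.mem_insert,
    Finset.mem_singleton, not_or]

lemma kbip (H : HexData G side v w) : Bip (stdK G v) side :=
  bip_res (quot_bip H.lev.bip (q_side H)) _

/-- edges of the quotient away from the two identified vertices -/
lemma kadj_o (H : HexData G side v w) {a b : V} (h1 : a ≠ v 1) (h2 : a ≠ v 2)
    (h : (stdK G v).Adj a b) :
    (∃ x, G.Adj a x ∧ stdQ v x = b) ∧ (∀ i, a ≠ v i) := by
  rw [kadj H] at h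
  obtain ⟨⟨u, x, hux, hu, hx⟩, ⟨h0, h3⟩, -, -⟩ := h
  rcases q_eq H hu with ⟨rfl, h4, h5⟩ | ⟨rfl, h⟩ | ⟨rfl, h⟩
  · refine ⟨⟨x, hux, hx⟩, ?_⟩
    intro i
    fin_cases i
    · exact h0
    · exact h1
    · exact h2
    · exact h3
    · exact h4
    · exact h5
  · exact absurd h h1
  · exact absurd h h2

lemma kadj_A (H : HexData G side v w) {b : V} (h : (stdK G v).Adj (v 1) b) :
    b = v 2 ∨ b = w 1 ∨ b = w 5 := by
  rw [kadj H] at h
  obtain ⟨⟨u, x, hux, hu, hx⟩, -, h0, h3⟩ := h
  have qw : ∀ i, stdQ v (w i) = w i := fun i => qo (H.wv _ _) (H.wv _ _)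
  have q0 : stdQ v (v 0) = v 0 := qo (vne H (by decide)) (vne H (by decide))
  have q2 : stdQ v (v 2) = v 2 := qo (vne H (by decide)) (vne H (by decide))
  rcases q_eq H hu with ⟨rfl, h4, h5⟩ | ⟨rfl, h⟩ | ⟨rfl, h⟩
  · rcases (nbr H 1 0 (by decide) x).1 hux with rfl | rfl | rfl
    · left
      rw [← hx]
      exact q2
    · exact absurd (hx.symm.trans q0) h0
    · right; left
      rw [← hx, qw]
  · rcases (nbr H 5 4 (by decide) x).1 hux with rfl | rfl | rfl
    · exact absurd (hx.symm.trans q0) h0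
    · left
      rw [← hx, q4 H]
    · right; right
      rw [← hx, qw]
  · exact absurd h (vne H (by decide))

lemma kadj_B (H : HexData G side v w) {b : V} (h : (stdK G v).Adj (v 2) b) :
    b = v 1 ∨ b = w 2 ∨ b = w 4 := by
  rw [kadj H] at h
  obtain ⟨⟨u, x, hux, hu, hx⟩, -, h0, h3⟩ := h
  have qw : ∀ i, stdQ v (w i) = w i := fun i => qo (H.wv _ _) (H.wv _ _)
  have q3 : stdQ v (v 3) = v 3 := qo (vne H (by decide)) (vne H (by decide))
  have q1 : stdQ v (v 1) = v 1 := qo (vne H (by decide)) (vne H (by decide))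
  rcases q_eq H hu with ⟨rfl, h4, h5⟩ | ⟨rfl, h⟩ | ⟨rfl, h⟩
  · rcases (nbr H 2 1 (by decide) x).1 hux with rfl | rfl | rfl
    · exact absurd (hx.symm.trans q3) h3
    · left
      rw [← hx]
      exact q1
    · right; left
      rw [← hx, qw]
  · exact absurd h (vne H (by decide))
  · rcases (nbr H 4 3 (by decide) x).1 hux with rfl | rfl | rfl
    · left
      rw [← hx]
      exact q5 v
    · exact absurd (hx.symm.trans q3) h3
    · right; right
      rw [← hx, qw]

/-- edges of the quotient between two ordinary vertices are edges of `G` -/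
lemma kadj_oo (H : HexData G side v w) {a b : V} (h1 : a ≠ v 1) (h2 : a ≠ v 2)
    (h1' : b ≠ v 1) (h2' : b ≠ v 2) (h : (stdK G v).Adj a b) : G.Adj a b := by
  obtain ⟨⟨x, hx, hxb⟩, -⟩ := kadj_o H h1 h2 h
  rcases q_eq H hxb with ⟨rfl, _, _⟩ | ⟨_, h⟩ | ⟨_, h⟩
  · exact hx
  · exact absurd h h1'
  · exact absurd h h2'

lemma kadj_isol (H : HexData G side v w) {i : Fin 6} (h1 : i ≠ 1) (h2 : i ≠ 2) (b : V) :
    ¬ (stdK G v).Adj (v i) b := fun h => (kadj_o H (vne H h1) (vne H h2) h).2 i rfl

lemma side_w (H : HexData G side v w) (i : Fin 6) : side (w i) = side (v (i + 1)) :=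
  (bool_of_ne (H.lev.bip _ _ (H.vv i)).symm (H.lev.bip _ _ (H.vw i))).symm

lemma side_alt (H : HexData G side v w) (i : Fin 6) : side (v i) ≠ side (v (i + 1)) :=
  H.lev.bip _ _ (H.vv i)

lemma wadj_succ (H : HexData G side v w) (i : Fin 6) : ¬ G.Adj (w i) (w (i + 1)) := by
  intro h
  -- `v i, v (i+1), w (i+1), w i` is a 4-cycle
  have hne : v i ≠ w (i + 1) := (H.wv _ _).symm
  have := H.lev.noC4 (v i) (w (i + 1)) hne (v (i + 1)) (w i) (H.vv i) (H.vw (i + 1)).symm (H.vw i)
    h.symm
  exact H.wv i (i + 1) this.symm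

lemma side4 (H : HexData G side v w) : side (v 2) = side (v 0) ∧ side (v 4) = side (v 0) ∧
    side (v 3) = side (v 1) ∧ side (v 5) = side (v 1) ∧ side (v 0) ≠ side (v 1) := by
  have h2 : side (v 2) = side (v 0) := side_step H 0
  have h4 : side (v 4) = side (v 2) := side_step H 2
  have h3 : side (v 3) = side (v 1) := side_step H 1
  have h5 : side (v 5) = side (v 3) := side_step H 3
  exact ⟨h2, h4.trans h2, h3, h5.trans h3, side_alt H 0⟩

lemma ww_ne (H : HexData G side v w) {i j : Fin 6} (h : side (v i) ≠ side (v j)) :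
    w i ≠ w j := by
  intro h'
  apply h
  have e1 := H.lev.bip _ _ (H.vw i)
  have e2 := H.lev.bip _ _ (H.vw j)
  rw [h'] at e1
  exact bool_of_ne e1 e2.symm

/-- no 4-cycle through `v 1` -/
lemma kC4A (H : HexData G side v w) (O : StdOK G w) {b c d : V} (hb : b ≠ v 1) (hcd : c ≠ d)
    (h1 : (stdK G v).Adj (v 1) c) (h2 : (stdK G v).Adj b c) (h3 : (stdK G v).Adj (v 1) d)
    (h4 : (stdK G v).Adj b d) : False := by
  obtain ⟨s2, s4, s3, s5, s01⟩ := side4 H
  -- the case `w 1`, `w 5`
  have k1 : ∀ b, b ≠ v 1 → (stdK G v).Adj b (w 1) → (stdK G v).Adj b (w 5) → False := by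
    intro b hb h2 h4
    have hb2 : b ≠ v 2 := by
      rintro rfl
      rcases kadj_B H h2 with h | h | h
      · exact H.wv _ _ h
      · exact ww_ne H (by rw [s2]; exact s01.symm) h
      · exact ww_ne H (by rw [s4]; exact s01.symm) h
    exact O.c15 b ⟨(kadj_oo H hb hb2 (H.wv _ _) (H.wv _ _) h2).symm,
      (kadj_oo H hb hb2 (H.wv _ _) (H.wv _ _) h4).symm⟩
  -- the case `v 2`, `w 1`
  have k2 : ∀ b, b ≠ v 1 → (stdK G v).Adj b (v 2) → (stdK G v).Adj b (w 1) → False := by
    intro b hb h2 h4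
    rcases kadj_B H h2.symm with h | h | h
    · exact hb h
    · subst h
      exact wadj_succ H 1 (kadj_oo H (H.wv _ _) (H.wv _ _) (H.wv _ _) (H.wv _ _) h4).symm
    · subst h
      exact O.h14 (kadj_oo H (H.wv _ _) (H.wv _ _) (H.wv _ _) (H.wv _ _) h4).symm
  have k3 : ∀ b, b ≠ v 1 → (stdK G v).Adj b (v 2) → (stdK G v).Adj b (w 5) → False := by
    intro b hb h2 h4
    rcases kadj_B H h2.symm with h | h | h
    · exact hb h
    · subst h
      exact O.h25 (kadj_oo H (H.wv _ _) (H.wv _ _) (H.wv _ _) (H.wv _ _) h4)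
    · subst h
      exact wadj_succ H 4 (kadj_oo H (H.wv _ _) (H.wv _ _) (H.wv _ _) (H.wv _ _) h4)
  rcases kadj_A H h1 with rfl | rfl | rfl <;> rcases kadj_A H h3 with rfl | rfl | rfl
  · exact hcd rfl
  · exact k2 b hb h2 h4
  · exact k3 b hb h2 h4
  · exact k2 b hb h4 h2
  · exact hcd rfl
  · exact k1 b hb h2 h4
  · exact k3 b hb h4 h2
  · exact k1 b hb h4 h2
  · exact hcd rfl

/-- no 4-cycle through `v 2` -/
lemma kC4B (H : HexData G side v w) (O : StdOK G w) {b c d : V} (hb : b ≠ v 2) (hcd : c ≠ d)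
    (h1 : (stdK G v).Adj (v 2) c) (h2 : (stdK G v).Adj b c) (h3 : (stdK G v).Adj (v 2) d)
    (h4 : (stdK G v).Adj b d) : False := by
  obtain ⟨s2, s4, s3, s5, s01⟩ := side4 H
  have k1 : ∀ b, b ≠ v 2 → (stdK G v).Adj b (w 2) → (stdK G v).Adj b (w 4) → False := by
    intro b hb h2 h4
    have hb2 : b ≠ v 1 := by
      rintro rfl
      rcases kadj_A H h2 with h | h | h
      · exact H.wv _ _ h
      · exact ww_ne H (by rw [s2]; exact s01) h
      · exact ww_ne H (by rw [s2, s5]; exact s01) h
    exact O.c24 b ⟨(kadj_oo H hb2 hb (H.wv _ _) (H.wv _ _) h2).symm,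
      (kadj_oo H hb2 hb (H.wv _ _) (H.wv _ _) h4).symm⟩
  have k2 : ∀ b, b ≠ v 2 → (stdK G v).Adj b (v 1) → (stdK G v).Adj b (w 2) → False := by
    intro b hb h2 h4
    rcases kadj_A H h2.symm with h | h | h
    · exact hb h
    · subst h
      exact wadj_succ H 1 (kadj_oo H (H.wv _ _) (H.wv _ _) (H.wv _ _) (H.wv _ _) h4)
    · subst h
      exact O.h25 (kadj_oo H (H.wv _ _) (H.wv _ _) (H.wv _ _) (H.wv _ _) h4).symm
  have k3 : ∀ b, b ≠ v 2 → (stdK G v).Adj b (v 1) → (stdK G v).Adj b (w 4) → False := by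
    intro b hb h2 h4
    rcases kadj_A H h2.symm with h | h | h
    · exact hb h
    · subst h
      exact O.h14 (kadj_oo H (H.wv _ _) (H.wv _ _) (H.wv _ _) (H.wv _ _) h4)
    · subst h
      exact wadj_succ H 4 (kadj_oo H (H.wv _ _) (H.wv _ _) (H.wv _ _) (H.wv _ _) h4).symm
  rcases kadj_B H h1 with rfl | rfl | rfl <;> rcases kadj_B H h3 with rfl | rfl | rfl
  · exact hcd rfl
  · exact k2 b hb h2 h4
  · exact k3 b hb h2 h4
  · exact k2 b hb h4 h2
  · exact hcd rfl
  · exact k1 b hb h2 h4
  · exact k3 b hb h4 h2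
  · exact k1 b hb h4 h2
  · exact hcd rfl

lemma kC4 (H : HexData G side v w) (O : StdOK G w) : NoC4 (stdK G v) := by
  intro a b hab c d h1 h2 h3 h4
  by_contra hcd
  by_cases a1 : a = v 1
  · subst a1; exact kC4A H O hab.symm hcd h1 h2 h3 h4
  by_cases b1 : b = v 1
  · subst b1; exact kC4A H O hab hcd h2 h1 h4 h3
  by_cases c1 : c = v 1
  · subst c1; exact kC4A H O (Ne.symm hcd) hab h1.symm h3.symm h2.symm h4.symm
  by_cases d1 : d = v 1
  · subst d1; exact kC4A H O hcd hab h3.symm h1.symm h4.symm h2.symm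
  by_cases a2 : a = v 2
  · subst a2; exact kC4B H O hab.symm hcd h1 h2 h3 h4
  by_cases b2 : b = v 2
  · subst b2; exact kC4B H O hab hcd h2 h1 h4 h3
  by_cases c2 : c = v 2
  · subst c2; exact kC4B H O (Ne.symm hcd) hab h1.symm h3.symm h2.symm h4.symm
  by_cases d2 : d = v 2
  · subst d2; exact kC4B H O hcd hab h3.symm h1.symm h4.symm h2.symm
  exact hcd (H.lev.noC4 a b hab c d (kadj_oo H a1 a2 c1 c2 h1) (kadj_oo H b1 b2 c1 c2 h2)
    (kadj_oo H a1 a2 d1 d2 h3) (kadj_oo H b1 b2 d1 d2 h4))

/-! ### Degrees in the quotient -/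

lemma card3 (a b c : V) (S : Finset V) : (({a, b, c} : Finset V).filter (fun x => x ∈ S)).card ≤
    (if a ∈ S then 1 else 0) + (if b ∈ S then 1 else 0) + (if c ∈ S then 1 else 0) := by
  have h1 : ∀ (x : V) (T : Finset V), ((insert x T).filter (fun x => x ∈ S)).card ≤
      (if x ∈ S then 1 else 0) + (T.filter (fun x => x ∈ S)).card := by
    intro x T
    rw [Finset.filter_insert]
    split_ifs with h
    · rw [add_comm]
      exact Finset.card_insert_le _ _
    · omega
  have a1 := h1 a {b, c}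
  have a2 := h1 b {c}
  have a3 : (({c} : Finset V).filter (fun x => x ∈ S)).card ≤ if c ∈ S then 1 else 0 := by
    rw [Finset.filter_singleton]
    split_ifs <;> simp
  omega

lemma dg_le_of {F F' : SimpleGraph V} {S : Finset V} {u : V}
    (h : ∀ b ∈ S, F.Adj u b → F'.Adj u b) : dg F S u ≤ dg F' S u := by
  classical
  unfold dg
  refine Finset.card_le_card ?_
  intro b hb
  rw [Finset.mem_filter] at hb ⊢
  exact ⟨hb.1, h b hb.1 hb.2⟩

lemma dg_le_two {F : SimpleGraph V} {S : Finset V} {u : V} (a c : V)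
    (h : ∀ b ∈ S, F.Adj u b → b = a ∨ b = c) : dg F S u ≤ 2 := by
  classical
  unfold dg
  refine le_trans (Finset.card_le_card (t := {a, c}) ?_) Finset.card_le_two
  intro b hb
  rw [Finset.mem_filter] at hb
  rw [Finset.mem_insert, Finset.mem_singleton]
  exact h b hb.1 hb.2

lemma kdg_A (H : HexData G side v w) (S : Finset V) : dg (stdK G v) S (v 1) ≤
    (if v 2 ∈ S then 1 else 0) + (if w 1 ∈ S then 1 else 0) + (if w 5 ∈ S then 1 else 0) := by
  classical
  refine le_trans ?_ (card3 (v 2) (w 1) (w 5) S)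
  unfold dg
  refine Finset.card_le_card ?_
  intro u hu
  rw [Finset.mem_filter] at hu ⊢
  refine ⟨?_, hu.1⟩
  simp only [Finset.mem_insert, Finset.mem_singleton]
  exact kadj_A H hu.2

lemma kdg_B (H : HexData G side v w) (S : Finset V) : dg (stdK G v) S (v 2) ≤
    (if v 1 ∈ S then 1 else 0) + (if w 2 ∈ S then 1 else 0) + (if w 4 ∈ S then 1 else 0) := by
  classical
  refine le_trans ?_ (card3 (v 1) (w 2) (w 4) S)
  unfold dg
  refine Finset.card_le_card ?_
  intro u hu
  rw [Finset.mem_filter] at hu ⊢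
  refine ⟨?_, hu.1⟩
  simp only [Finset.mem_insert, Finset.mem_singleton]
  exact kadj_B H hu.2

lemma kdg_o (H : HexData G side v w) (S Q : Finset V) (hQ : ∀ x, stdQ v x ∈ S → x ∈ Q) {u : V}
    (h1 : u ≠ v 1) (h2 : u ≠ v 2) : dg (stdK G v) S u ≤ dg G Q u := by
  classical
  have : S.filter (fun b => (stdK G v).Adj u b) ⊆
      (Q.filter (fun x => G.Adj u x)).image (stdQ v) := by
    intro b hb
    rw [Finset.mem_filter] at hb
    obtain ⟨⟨x, hx, hxb⟩, -⟩ := kadj_o H h1 h2 hb.2
    rw [Finset.mem_image]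
    refine ⟨x, ?_, hxb⟩
    rw [Finset.mem_filter]
    exact ⟨hQ x (by rw [hxb]; exact hb.1), hx⟩
  unfold dg
  exact (Finset.card_le_card this).trans Finset.card_image_le

lemma kdg_i (H : HexData G side v w) (S : Finset V) {i : Fin 6} (h1 : i ≠ 1) (h2 : i ≠ 2) :
    dg (stdK G v) S (v i) = 0 := by
  classical
  unfold dg
  rw [Finset.card_eq_zero, Finset.filter_eq_empty_iff]
  intro b _
  exact kadj_isol H h1 h2 b

lemma three_sub : ∀ i : Fin 6, (3 - i : Fin 6) = (3 - (i + 1)) + 1 := by decide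

/-- the reflection of the hexagon exchanging `v 1` and `v 2` -/
lemma hexRefl (H : HexData G side v w) :
    HexData G side (fun i => v (3 - i)) (fun i => w (3 - i)) where
  lev := H.lev
  c5 := H.c5
  inj := by
    intro i j hij
    have := H.inj hij
    exact sub_right_inj.1 this
  vv := by
    intro i
    have h := (H.vv (3 - (i + 1))).symm
    rw [← three_sub i] at h
    exact h
  vw := fun i => H.vw _
  wv := fun i j => H.wv _ _

/-- COMB, first part: the pairs other than `w 0, w 3` -/
lemma comb1 (H : HexData G side v w) (O : StdOK G w) (y z : V) (hyz : s(y, z) ≠ s(w 0, w 3)) :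
    TwoDeg (addE (stdK G v) y z) := by
  classical
  intro S hS
  by_contra hcon
  push Not at hcon
  have hd : ∀ u ∈ S, 3 ≤ dg (stdK G v) S u + (if u = y ∨ u = z then 1 else 0) := by
    intro u hu
    have a1 := hcon u hu
    have a2 := dg_addE_le (stdK G v) y z S u
    split_ifs at a2 ⊢ <;> omega
  have hn : ∀ i : Fin 6, i ≠ 1 → i ≠ 2 → v i ∉ S := by
    intro i h1 h2 h
    have := hd _ h
    rw [kdg_i H S h1 h2] at this
    split_ifs at this <;> omega
  have n0 := hn 0 (by decide) (by decide)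
  have n3 := hn 3 (by decide) (by decide)
  have n4 := hn 4 (by decide) (by decide)
  have n5 := hn 5 (by decide) (by decide)
  by_cases m1 : v 1 ∈ S
  · have hA := hd _ m1
    have kA := kdg_A H S
    by_cases m2 : v 2 ∈ S
    · have hB := hd _ m2
      have kB := kdg_B H S
      rw [if_pos m2] at kA
      rw [if_pos m1] at kB
      refine bothAB H O S y z hyz m1 m2 n0 n3 n4 n5 (by omega) (by omega) ?_
      intro u hu u1 u2
      have a1 := hd u hu
      have a2 := kdg_o H S (insert (v 4) (insert (v 5) S)) (by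
        intro x hx
        by_cases x4 : x = v 4
        · subst x4; simp
        · by_cases x5 : x = v 5
          · subst x5; simp
          · rw [qo x4 x5] at hx
            simp [hx]) u1 u2
      omega
    · rw [if_neg m2] at kA
      refine onlyA H S y z m1 n0 m2 n3 n4 n5 (by omega) ?_
      intro u hu u1
      have a1 := hd u hu
      have a2 := kdg_o H S (insert (v 5) S) (by
        intro x hx
        by_cases x4 : x = v 4
        · subst x4
          rw [q4 H] at hx
          exact absurd hx m2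
        · by_cases x5 : x = v 5
          · subst x5; simp
          · rw [qo x4 x5] at hx
            simp [hx]) u1 (fun h => m2 (h ▸ hu))
      omega
  · by_cases m2 : v 2 ∈ S
    · have hB := hd _ m2
      have kB := kdg_B H S
      rw [if_neg m1] at kB
      refine onlyA (hexRefl H) S y z m2 n3 m1 n0 n5 n4 ?_ ?_
      · change 3 ≤ (if w 2 ∈ S then 1 else 0) + (if w 4 ∈ S then 1 else 0)
          + (if v 2 = y ∨ v 2 = z then 1 else 0)
        omega
      · change ∀ u ∈ S, u ≠ v 2 → 3 ≤ dg G (insert (v 4) S) u + (if u = y ∨ u = z then 1 else 0)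
        intro u hu u2
        have a1 := hd u hu
        have a2 := kdg_o H S (insert (v 4) S) (by
          intro x hx
          by_cases x4 : x = v 4
          · subst x4; simp
          · by_cases x5 : x = v 5
            · subst x5
              rw [q5] at hx
              exact absurd hx m1
            · rw [qo x4 x5] at hx
              simp [hx]) (fun h => m1 (h ▸ hu)) u2
        omega
    · refine no_small_cut G side H.lev S hS ⟨v 0, by rw [Finset.mem_compl]; exact n0⟩
        (fun u => if u = y ∨ u = z then 1 else 0) (by convert sum_pair_le S y z) ?_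
      intro u hu
      have a1 := hd u hu
      have a2 := kdg_o H S S (by
          intro x hx
          by_cases x4 : x = v 4
          · subst x4
            rw [q4 H] at hx
            exact absurd hx m2
          · by_cases x5 : x = v 5
            · subst x5
              rw [q5] at hx
              exact absurd hx m1
            · rw [qo x4 x5] at hx
              exact hx) (fun h => m1 (h ▸ hu)) (fun h => m2 (h ▸ hu))
      change 3 ≤ dg G S u + (if u = y ∨ u = z then 1 else 0)
      omega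

/-- COMB, second part: the pair `w 0, w 3`, without the edge `v 1 w 1` -/
lemma comb2 (H : HexData G side v w) :
    TwoDeg ((addE (stdK G v) (w 0) (w 3)).deleteEdges {s(v 1, w 1)}) := by
  classical
  intro S hS
  by_contra hcon
  push Not at hcon
  set L := (addE (stdK G v) (w 0) (w 3)).deleteEdges {s(v 1, w 1)} with hL
  have hle : L ≤ addE (stdK G v) (w 0) (w 3) := SimpleGraph.deleteEdges_le _
  have hLadj : ∀ i b, L.Adj (v i) b → (stdK G v).Adj (v i) b ∧ s(v i, b) ≠ s(v 1, w 1) := by
    intro i b h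
    rw [hL, SimpleGraph.deleteEdges_adj] at h
    refine ⟨?_, fun h' => h.2 (by rw [h']; exact Set.mem_singleton _)⟩
    have := (addE_adj _ _ _ _ _).1 h.1
    rcases this with h | ⟨⟨h, _⟩ | ⟨h, _⟩, _⟩
    · exact h
    · exact absurd h.symm (H.wv _ _)
    · exact absurd h.symm (H.wv _ _)
  have hd : ∀ u ∈ S, 3 ≤ dg (stdK G v) S u + (if u = w 0 ∨ u = w 3 then 1 else 0) := by
    intro u hu
    have a1 := hcon u hu
    have a2 := dg_addE_le (stdK G v) (w 0) (w 3) S u
    have a3 := dg_mono_graph hle S u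
    split_ifs at a2 ⊢ <;> omega
  have hn : ∀ i : Fin 6, i ≠ 1 → i ≠ 2 → v i ∉ S := by
    intro i h1 h2 h
    have := hd _ h
    rw [kdg_i H S h1 h2] at this
    split_ifs at this <;> omega
  have m1 : v 1 ∉ S := by
    intro h
    have a1 := hcon _ h
    have a2 : dg L S (v 1) ≤ 2 := by
      refine dg_le_two (v 2) (w 5) ?_
      intro u huS hu
      obtain ⟨b1, b2⟩ := hLadj _ _ hu
      rcases kadj_A H b1 with h | h | h
      · exact Or.inl h
      · subst h
        exact absurd rfl b2
      · exact Or.inr h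
    omega
  have m2 : v 2 ∉ S := by
    intro h
    have a1 := hcon _ h
    have a2 : dg L S (v 2) ≤ 2 := by
      refine dg_le_two (w 2) (w 4) ?_
      intro u huS hu
      obtain ⟨b1, b2⟩ := hLadj _ _ hu
      rcases kadj_B H b1 with h | h | h
      · subst h
        exact absurd huS m1
      · exact Or.inl h
      · exact Or.inr h
    omega
  refine no_small_cut G side H.lev S hS
    ⟨v 0, by rw [Finset.mem_compl]; exact hn 0 (by decide) (by decide)⟩
    (fun u => if u = w 0 ∨ u = w 3 then 1 else 0) (by convert sum_pair_le S (w 0) (w 3)) ?_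
  intro u hu
  have a1 := hd u hu
  have a2 := kdg_o H S S (by
      intro x hx
      by_cases x4 : x = v 4
      · subst x4
        rw [q4 H] at hx
        exact absurd hx m2
      · by_cases x5 : x = v 5
        · subst x5
          rw [q5] at hx
          exact absurd hx m1
        · rw [qo x4 x5] at hx
          exact hx) (fun h => m1 (h ▸ hu)) (fun h => m2 (h ▸ hu))
  change 3 ≤ dg G S u + (if u = w 0 ∨ u = w 3 then 1 else 0)
  omega

end H40S

open H40S in
/-- the realization of the collapsed graph -/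
theorem stdRho : StdRhoStmt := by
  classical
  intro V _ _ G side v w H O
  have hMin : MinStmt := N3.min N3.sp
  have hF : TwoDegFreeStmt := twoDegFree
  have hSO : SepOpenStmt := sepOpen
  obtain ⟨s2, s4, s3, s5, s01⟩ := side4 H
  have hw03 : w 0 ≠ w 3 := ww_ne H (by rw [s3]; exact s01)
  have sw03 : side (w 0) ≠ side (w 3) := by
    have e0 : side (w 0) = side (v 1) := side_w H 0
    have e3 : side (w 3) = side (v 4) := side_w H 3
    rw [e0, e3, s4]
    exact s01.symm
  set K := stdK G v with hK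
  have hB : Bip K side := kbip H
  have hC : NoC4 K := kC4 H O
  -- `K` is 2-degenerate
  have hTK : TwoDeg K := by
    refine TwoDeg.mono (le_addE K (v 1) (v 2)) (comb1 H O (v 1) (v 2) ?_)
    intro h
    rw [Sym2.eq_iff] at h
    rcases h with ⟨h, _⟩ | ⟨h, _⟩
    · exact H.wv _ _ h.symm
    · exact H.wv _ _ h.symm
  -- the graph without `w 0`
  set F := res K (univ \ {w 0}) with hFdef
  have hFK : F ≤ K := fun _ _ h => h.1
  have hFadj : ∀ a b, K.Adj a b → a ≠ w 0 → b ≠ w 0 → F.Adj a b := by
    intro a b h ha hb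
    exact ⟨h, by simp [ha], by simp [hb]⟩
  have hF0 : ∀ b, ¬ F.Adj (w 0) b := by
    intro b h
    have := h.2.1
    simp at this
  have hpairs : ∀ x y, side x ≠ side y → ¬ F.Adj x y → TwoDeg (addE F x y) := by
    intro x y hxy _
    by_cases hs : s(x, y) = s(w 0, w 3)
    · have e : addE F x y = addE F (w 0) (w 3) := by
        rw [Sym2.eq_iff] at hs
        rcases hs with ⟨rfl, rfl⟩ | ⟨rfl, rfl⟩
        · rfl
        · exact addE_comm _ _ _
      rw [e]
      intro S hS
      by_contra hcon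
      push Not at hcon
      have hw0 : w 0 ∉ S := by
        intro h
        have a1 := hcon _ h
        have a2 := dg_addE_le F (w 0) (w 3) S (w 0)
        have a3 : dg F S (w 0) = 0 := by
          unfold dg
          rw [Finset.card_eq_zero, Finset.filter_eq_empty_iff]
          intro b _
          exact hF0 b
        split_ifs at a2 <;> omega
      obtain ⟨u, hu, hdu⟩ := hTK S hS
      have a1 := hcon u hu
      have a2 : dg (addE F (w 0) (w 3)) S u ≤ dg K S u := by
        refine dg_le_of ?_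
        intro b hbS hb
        rcases (addE_adj _ _ _ _ _).1 hb with h | ⟨⟨h, h'⟩ | ⟨h, h'⟩, _⟩
        · exact hFK h
        · exact absurd (h ▸ hu) hw0
        · exact absurd (h' ▸ hbS) hw0
      omega
    · exact TwoDeg.mono (addE_mono hFK x y) (comb1 H O x y hs)
  obtain ⟨ρ₀, hR0, hS0, hE0⟩ := thmG hMin hF hSO V F side (bip_res hB _) (noC4_res hC _)
    (TwoDeg.mono hFK hTK) hpairs
  -- the neighbours of `w 0`
  obtain ⟨n1, n2, hn12, hnb⟩ : ∃ n1 n2, n1 ≠ n2 ∧
      ∀ u, G.Adj (w 0) u ↔ u = v 0 ∨ u = n1 ∨ u = n2 := by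
    have h3 := H.lev.cubic (w 0)
    unfold dg at h3
    have hmem : v 0 ∈ univ.filter (fun u => G.Adj (w 0) u) :=
      Finset.mem_filter.2 ⟨Finset.mem_univ _, (H.vw 0).symm⟩
    have h2 : ((univ.filter (fun u => G.Adj (w 0) u)).erase (v 0)).card = 2 := by
      rw [Finset.card_erase_of_mem hmem]
      omega
    obtain ⟨n1, n2, hne, he⟩ := Finset.card_eq_two.1 h2
    refine ⟨n1, n2, hne, fun u => ?_⟩
    have := Finset.ext_iff.1 he u
    rw [Finset.mem_erase, Finset.mem_filter, Finset.mem_insert, Finset.mem_singleton] at this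
    constructor
    · intro h
      by_cases hu : u = v 0
      · exact Or.inl hu
      · exact Or.inr (this.1 ⟨hu, Finset.mem_univ _, h⟩)
    · rintro (rfl | h)
      · exact (H.vw 0).symm
      · exact (this.2 h).2.2
  -- they are not on the hexagon
  have w0v : ∀ j, j ≠ 0 → ¬ G.Adj (w 0) (v j) := by
    intro j hj h
    have e := w_adj H h
    fin_cases j
    · exact hj rfl
    · exact ww_ne H (i := 0) (j := 1) s01 e
    · -- the 4-cycle `v 0, v 1, v 2, w 0`
      have := H.lev.noC4 (v 0) (v 2) (vne H (by decide)) (v 1) (w 0) (H.vv 0) (H.vv 1).symm (H.vw 0)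
        h.symm
      exact H.wv _ _ this.symm
    · exact hw03 e
    · have h5 : G.Adj (v 4) (v 5) := H.vv 4
      have h50 : G.Adj (v 5) (v 0) := H.vv 5
      have := H.lev.noC4 (v 0) (v 4) (vne H (by decide)) (v 5) (w 0) h50.symm h5 (H.vw 0) h.symm
      exact H.wv _ _ this.symm
    · exact ww_ne H (i := 0) (j := 5) (by rw [s5]; exact s01) e
  have hn1 : G.Adj (w 0) n1 := (hnb n1).2 (Or.inr (Or.inl rfl))
  have hn2 : G.Adj (w 0) n2 := (hnb n2).2 (Or.inr (Or.inr rfl))
  have hn10 : n1 ≠ v 0 ∧ n2 ≠ v 0 := by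
    -- the degree of `w 0` is three
    have h3 := H.lev.cubic (w 0)
    unfold dg at h3
    constructor
    · rintro rfl
      have hle : (univ.filter (fun u => G.Adj (w 0) u)).card ≤ ({v 0, n2} : Finset V).card := by
        refine Finset.card_le_card ?_
        intro u hu
        have := (hnb u).1 (Finset.mem_filter.1 hu).2
        rw [Finset.mem_insert, Finset.mem_singleton]
        tauto
      have := Finset.card_le_two (a := v 0) (b := n2)
      omega
    · rintro rfl
      have hle : (univ.filter (fun u => G.Adj (w 0) u)).card ≤ ({v 0, n1} : Finset V).card := by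
        refine Finset.card_le_card ?_
        intro u hu
        have := (hnb u).1 (Finset.mem_filter.1 hu).2
        rw [Finset.mem_insert, Finset.mem_singleton]
        tauto
      have := Finset.card_le_two (a := v 0) (b := n1)
      omega
  have hoff : ∀ n, G.Adj (w 0) n → n ≠ v 0 → ∀ j, n ≠ v j := by
    intro n hn h0 j
    by_cases hj : j = 0
    · subst hj; exact h0
    · rintro rfl
      exact w0v j hj hn
  have o1 := hoff n1 hn1 hn10.1
  have o2 := hoff n2 hn2 hn10.2
  have kn : ∀ n, G.Adj (w 0) n → (∀ j, n ≠ v j) → K.Adj (w 0) n := by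
    intro n hn ho
    rw [hK, kadj H]
    exact ⟨⟨w 0, n, hn, qo (H.wv _ _) (H.wv _ _), qo (ho _) (ho _)⟩, ⟨H.wv _ _, H.wv _ _⟩, ho _,
      ho _⟩
  have k1 := kn n1 hn1 o1
  have k2 := kn n2 hn2 o2
  have kw0 : ∀ b, K.Adj (w 0) b → b = n1 ∨ b = n2 := by
    intro b hb
    obtain ⟨⟨x, hx, hxb⟩, -⟩ := kadj_o H (H.wv _ _) (H.wv _ _) hb
    have hb0 : b ≠ v 0 := fun h => kadj_isol H (i := 0) (by decide) (by decide) _ (h ▸ hb.symm)
    rcases (hnb x).1 hx with rfl | rfl | rfl
    · exact absurd (hxb.symm.trans (qo (vne H (by decide)) (vne H (by decide)))) hb0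
    · left; rw [← hxb]; exact qo (o1 _) (o1 _)
    · right; rw [← hxb]; exact qo (o2 _) (o2 _)
  have hss : side n1 = side n2 := hB.side_eq k1 k2
  have hnp : Np (ρ₀ n1) (ρ₀ n2) := hS0.2 n1 n2 hn12 hss
  have n1w : n1 ≠ w 0 := hn1.ne.symm
  have n2w : n2 ≠ w 0 := hn2.ne.symm
  have hwP : ∀ u, u ≠ w 0 → side u = side (w 0) → Np (crossProduct (ρ₀ n1) (ρ₀ n2)) (ρ₀ u) := by
    intro u hu hsu hcr
    obtain ⟨c, hc⟩ := ThmGAux.parallel_of_cross hnp hcr
    have d1 : ρ₀ u ⬝ᵥ ρ₀ n1 = 0 := by
      rw [hc, smul_dotProduct, dotProduct_comm, dot_self_cross, smul_zero]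
    have d2 : ρ₀ u ⬝ᵥ ρ₀ n2 = 0 := by
      rw [hc, smul_dotProduct, dotProduct_comm, dot_cross_self, smul_zero]
    have a1 : K.Adj u n1 := by
      by_contra hcon
      exact hE0 u n1 (by rw [hsu]; exact hB _ _ k1) (fun h => hcon (hFK h)) d1
    have a2 : K.Adj u n2 := by
      by_contra hcon
      exact hE0 u n2 (by rw [hsu]; exact hB _ _ k2) (fun h => hcon (hFK h)) d2
    exact hn12 (hC u (w 0) hu n1 n2 a1 k1 a2 k2)
  set ρ₁ := Function.update ρ₀ (w 0) (crossProduct (ρ₀ n1) (ρ₀ n2)) with hρ₁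
  have hS1 : Sep side ρ₁ := by
    refine ⟨?_, ?_⟩
    · intro u
      by_cases huv : u = w 0
      · subst huv
        rw [hρ₁, Function.update_self]
        exact hnp
      · rw [hρ₁, Function.update_of_ne huv]; exact hS0.1 u
    · intro u u' huu' hs
      by_cases huv : u = w 0
      · subst huv
        rw [hρ₁, Function.update_self, Function.update_of_ne huu'.symm]
        exact hwP u' huu'.symm hs.symm
      · by_cases hu'v : u' = w 0
        · subst hu'v
          rw [hρ₁, Function.update_self, Function.update_of_ne huv]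
          exact ThmGAux.np_symm (hwP u huv hs)
        · rw [hρ₁, Function.update_of_ne huv, Function.update_of_ne hu'v]
          exact hS0.2 u u' huu' hs
  have hR1 : Rlz K ρ₁ := by
    have key : ∀ b, K.Adj (w 0) b → ρ₁ (w 0) ⬝ᵥ ρ₁ b = 0 := by
      intro b hb
      rcases kw0 b hb with rfl | rfl
      · rw [hρ₁, Function.update_self, Function.update_of_ne n1w, dotProduct_comm]
        exact dot_self_cross _ _
      · rw [hρ₁, Function.update_self, Function.update_of_ne n2w, dotProduct_comm]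
        exact dot_cross_self _ _
    intro a b hab
    by_cases ha : a = w 0
    · subst ha; exact key b hab
    · by_cases hb : b = w 0
      · subst hb
        rw [dotProduct_comm]
        exact key a hab.symm
      · rw [hρ₁, Function.update_of_ne ha, Function.update_of_ne hb]
        exact hR0 a b (hFadj a b hab ha hb)
  obtain ⟨ρ, hρS, hρR, hρ⟩ := hMin V K side hB {ρ | Sep side ρ} (hSO V side) ρ₁ hS1 hR1
  refine ⟨ρ, hρR, hρS, hF V K side ρ hB hρS hTK, ?_, ?_⟩
  · intro y z hyz hadj hs h0
    exact hρ y z hyz hadj h0 (hF V _ side ρ (Bip.addE hB hyz) hρS (comb1 H O y z hs))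
  · intro τ hτ h0
    have hL : Stress ((addE K (w 0) (w 3)).deleteEdges {s(v 1, w 1)}) ρ τ := by
      refine ⟨hτ.1, ?_, hτ.2.2⟩
      intro a b hab
      by_cases h : (addE K (w 0) (w 3)).Adj a b
      · rw [SimpleGraph.deleteEdges_adj] at hab
        have : s(a, b) = s(v 1, w 1) := by
          by_contra hn
          exact hab ⟨h, fun h' => hn (Set.mem_singleton_iff.1 h')⟩
        rw [Sym2.eq_iff] at this
        rcases this with ⟨rfl, rfl⟩ | ⟨rfl, rfl⟩
        · exact h0
        · rw [hτ.1]; exact h0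
      · exact hτ.2.1 a b h
    have hBL : Bip ((addE K (w 0) (w 3)).deleteEdges {s(v 1, w 1)}) side := fun a b hab =>
      Bip.addE hB sw03 a b (SimpleGraph.deleteEdges_le _ hab)
    exact hF V _ side ρ hBL hρS (comb2 H) τ hL

end N3
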