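import Pool.Agent.Lib_n3.StdKillD
import Pool.Agent.Lib_n3.SP
import Pool.Agent.Lib_n3.MinKill
import Pool.Agent.Lib_n3.LemmaA
import Pool.Agent.Lib_n3.StdRho

/-!
# Module StdKill: the standard collapse
-/

open scoped Matrix Topology
open Finset

set_option linter.unusedSectionVars false
set_option linter.unusedVariables false

namespace N3
namespace SK

theorem fl1 : ∀ i : Fin 6, 3 - (i + 1) + 1 = 3 - i := by decide
theorem fl2 : ∀ i j : Fin 6, 3 - i = 3 - j → i = j := by decide

section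
variable {V : Type} [Fintype V] [DecidableEq V]
variable {G : SimpleGraph V} {side : V → Bool} {v w : Fin 6 → V}

/-- the flip of the hexagon -/
theorem hexFlip (h : HexData G side v w) :
    HexData G side (fun i => v (3 - i)) (fun i => w (3 - i)) where
  lev := h.lev
  c5 := h.c5
  inj := fun i j hij => fl2 i j (h.inj hij)
  vv := by
    intro i
    have := h.vv (3 - (i + 1))
    rw [fl1] at this
    exact this.symm
  vw := fun i => h.vw _
  wv := fun i j => h.wv _ _

theorem stdQ_flip (H : Hx G side v w) : stdQ (fun i => v (3 - i)) = stdQ v := by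
  funext u
  have e5 : (3 : Fin 6) - 5 = 4 := by decide
  have e1 : (3 : Fin 6) - 1 = 2 := by decide
  have e4 : (3 : Fin 6) - 4 = 5 := by decide
  have e2 : (3 : Fin 6) - 2 = 1 := by decide
  unfold stdQ
  simp only [e5, e1, e4, e2]
  by_cases h4 : u = v 4
  · subst h4
    simp [H.vi]
  · by_cases h5 : u = v 5
    · subst h5
      simp [H.vi]
    · simp [h4, h5]

theorem stdK_flip (H : Hx G side v w) : stdK G (fun i => v (3 - i)) = stdK G v := by
  unfold stdK
  rw [stdQ_flip H]
  have e0 : (3 : Fin 6) - 0 = 3 := by decide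
  have e3 : (3 : Fin 6) - 3 = 0 := by decide
  simp only [e0, e3]
  rw [Finset.pair_comm]

theorem Rh_flip {ρ : V → E} (H : Hx G side v w) (R : Rh G side v w ρ) :
    Rh G side (fun i => v (3 - i)) (fun i => w (3 - i)) ρ := by
  have e0 : (3 : Fin 6) - 0 = 3 := by decide
  have e3 : (3 : Fin 6) - 3 = 0 := by decide
  refine ⟨?_, R.sep, ?_, ?_⟩
  · rw [stdK_flip H]; exact R.rlz
  · rw [stdK_flip H]; exact R.free
  · intro y z hs hn hne
    rw [stdK_flip H] at hn
    simp only [e0, e3] at hne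
    refine R.exact y z hs hn ?_
    rw [Sym2.eq_swap (a := w 0)]
    exact hne

theorem kap_flip {ρ : V → E} (H : Hx G side v w) :
    kap (fun i => v (3 - i)) (fun i => w (3 - i)) ρ = kap v w ρ := by
  unfold kap
  rw [stdQ_flip H]
  have e0 : (3 : Fin 6) - 0 = 3 := by decide
  have e3 : (3 : Fin 6) - 3 = 0 := by decide
  have e1 : (3 : Fin 6) - 1 = 2 := by decide
  have e2 : (3 : Fin 6) - 2 = 1 := by decide
  have : rhoX (fun i => v (3 - i)) (fun i => w (3 - i)) ρ = rhoX v w ρ := by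
    funext u
    unfold rhoX
    simp only [e0, e3, e1, e2]
    by_cases h0 : u = v 0
    · subst h0
      simp [H.vi]
    · by_cases h3 : u = v 3
      · subst h3
        simp [H.vi]
      · simp [h0, h3]
  rw [this]

theorem kill3 {ρ : V → E} (hD : HexData G side v w) (R : Rh G side v w ρ)
    (h03 : ¬ G.Adj (w 0) (w 3)) {z : V} (hz : ∀ i, z ≠ v i) (hzw : z ≠ w 3)
    (hzs : side z = !side (v 3)) : StressFree (addE G (v 3) z) (kap v w ρ) := by
  have H := hx_of hD
  have H' := hx_of (hexFlip hD)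
  have h := H'.kill0 (Rh_flip H R) (z := z) (by
    have e0 : (3 : Fin 6) - 0 = 3 := by decide
    have e3 : (3 : Fin 6) - 3 = 0 := by decide
    simp only [e0, e3]
    exact fun h => h03 h.symm) (fun i => hz _) hzw hzs
  rw [kap_flip H] at h
  exact h

theorem sf_comm {x y : V} {ρ : V → E} (h : StressFree (addE G x y) ρ) :
    StressFree (addE G y x) ρ := by
  rw [addE_comm]; exact h

/-- the collapsed pairs -/
theorem Hx.col_cases {ρ : V → E} (H : Hx G side v w) (R : Rh G side v w ρ)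
    (h03 : ¬ G.Adj (w 0) (w 3)) {y z : V} (hy : ¬ Sing v y) (hz0 : z ≠ v 0) (hz3 : z ≠ v 3)
    (hadj : (quot G (stdQ v)).Adj (stdQ v y) (stdQ v z)) (hn : ¬ G.Adj y z) :
    StressFree (addE G y z) (kap v w ρ) := by
  have h4 : y = v 1 ∨ y = v 5 ∨ y = v 2 ∨ y = v 4 := by
    by_contra hc
    push Not at hc
    exact hy ⟨hc.1, hc.2.2.1, hc.2.2.2, hc.2.1⟩
  rcases h4 with rfl | rfl | rfl | rfl
  · have h := hadj
    rw [H.q1] at h
    rcases H.qn1 h with h | h | h | h
    · exact absurd ((q_sing H.sing0 z).1 h) hz0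
    · rcases (H.q_eq2 z).1 h with rfl | rfl
      · exact absurd ((H.nb1 _).2 (Or.inl rfl)) hn
      · exact H.kill_col R h03 hadj (by simp [Cs])
    · have := (q_sing (H.singw 1) z).1 h
      subst this
      exact absurd ((H.nb1 _).2 (Or.inr (Or.inr rfl))) hn
    · have := (q_sing (H.singw 5) z).1 h
      subst this
      exact H.kill_col R h03 hadj (by simp [Cs])
  · have h := hadj
    rw [q5] at h
    rcases H.qn1 h with h | h | h | h
    · exact absurd ((q_sing H.sing0 z).1 h) hz0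
    · rcases (H.q_eq2 z).1 h with rfl | rfl
      · exact H.kill_col R h03 hadj (by simp [Cs])
      · exact absurd ((H.nb5 _).2 (Or.inr (Or.inl rfl))) hn
    · have := (q_sing (H.singw 1) z).1 h
      subst this
      exact H.kill_col R h03 hadj (by simp [Cs])
    · have := (q_sing (H.singw 5) z).1 h
      subst this
      exact absurd ((H.nb5 _).2 (Or.inr (Or.inr rfl))) hn
  · have h := hadj
    rw [H.q2] at h
    rcases H.qn2 h with h | h | h | h
    · exact absurd ((q_sing H.sing3 z).1 h) hz3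
    · rcases (H.q_eq1 z).1 h with rfl | rfl
      · exact absurd ((H.nb2 _).2 (Or.inr (Or.inl rfl))) hn
      · exact sf_comm (H.kill_col R h03 hadj.symm (by simp [Cs]))
    · have := (q_sing (H.singw 2) z).1 h
      subst this
      exact absurd ((H.nb2 _).2 (Or.inr (Or.inr rfl))) hn
    · have := (q_sing (H.singw 4) z).1 h
      subst this
      exact H.kill_col R h03 hadj (by simp [Cs])
  · have h := hadj
    rw [H.q4] at h
    rcases H.qn2 h with h | h | h | h
    · exact absurd ((q_sing H.sing3 z).1 h) hz3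
    · rcases (H.q_eq1 z).1 h with rfl | rfl
      · exact sf_comm (H.kill_col R h03 hadj.symm (by simp [Cs]))
      · exact absurd ((H.nb4 _).2 (Or.inl rfl)) hn
    · have := (q_sing (H.singw 2) z).1 h
      subst this
      exact H.kill_col R h03 hadj (by simp [Cs])
    · have := (q_sing (H.singw 4) z).1 h
      subst this
      exact absurd ((H.nb4 _).2 (Or.inr (Or.inr rfl))) hn

theorem c0z {ρ : V → E} (hD : HexData G side v w) (R : Rh G side v w ρ)
    (h03 : ¬ G.Adj (w 0) (w 3)) {z : V} (hs : side (v 0) ≠ side z) (hn : ¬ G.Adj (v 0) z)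
    (h0 : kap v w ρ (v 0) ⬝ᵥ kap v w ρ z = 0) : StressFree (addE G (v 0) z) (kap v w ρ) := by
  have H := hx_of hD
  have hv2 := (H.vec R).vec2
  refine H.kill0 R h03 ?_ ?_ (flipB hs)
  · intro i hi
    subst hi
    revert hs hn h0
    have : i = 0 ∨ i = 1 ∨ i = 2 ∨ i = 3 ∨ i = 4 ∨ i = 5 := by revert i; decide
    rcases this with rfl | rfl | rfl | rfl | rfl | rfl
    · intro hs; exact absurd rfl hs
    · intro _ hn; exact absurd ((H.nb0 _).2 (Or.inl rfl)) hn
    · intro hs; exact absurd H.s2.symm hs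
    · intro _ _ h0
      rw [H.kap0, H.kap3] at h0
      exact absurd h0 hv2.z03
    · intro hs; exact absurd H.s4.symm hs
    · intro _ hn; exact absurd ((H.nb0 _).2 (Or.inr (Or.inl rfl))) hn
  · rintro rfl
    exact hn ((H.nb0 _).2 (Or.inr (Or.inr rfl)))

theorem c3z {ρ : V → E} (hD : HexData G side v w) (R : Rh G side v w ρ)
    (h03 : ¬ G.Adj (w 0) (w 3)) {z : V} (hs : side (v 3) ≠ side z) (hn : ¬ G.Adj (v 3) z)
    (h0 : kap v w ρ (v 3) ⬝ᵥ kap v w ρ z = 0) : StressFree (addE G (v 3) z) (kap v w ρ) := by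
  have H := hx_of hD
  have hv2 := (H.vec R).vec2
  refine kill3 hD R h03 ?_ ?_ (flipB hs)
  · intro i hi
    subst hi
    revert hs hn h0
    have : i = 0 ∨ i = 1 ∨ i = 2 ∨ i = 3 ∨ i = 4 ∨ i = 5 := by revert i; decide
    rcases this with rfl | rfl | rfl | rfl | rfl | rfl
    · intro _ _ h0
      rw [H.kap0, H.kap3, dotProduct_comm] at h0
      exact absurd h0 hv2.z03
    · intro hs; exact absurd (by rw [H.s3, H.s1]) hs
    · intro _ hn; exact absurd ((H.nb3 _).2 (Or.inr (Or.inl rfl))) hn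
    · intro hs; exact absurd rfl hs
    · intro _ hn; exact absurd ((H.nb3 _).2 (Or.inl rfl)) hn
    · intro hs; exact absurd (by rw [H.s3, H.s5]) hs
  · rintro rfl
    exact hn ((H.nb3 _).2 (Or.inr (Or.inr rfl)))

/-- all zero pairs but `(w 0, w 3)` are killed -/
theorem classify {ρ : V → E} (hD : HexData G side v w) (R : Rh G side v w ρ)
    (h03 : ¬ G.Adj (w 0) (w 3)) {y z : V} (hs : side y ≠ side z) (hn : ¬ G.Adj y z)
    (h0 : kap v w ρ y ⬝ᵥ kap v w ρ z = 0) (hw : s(y, z) ≠ s(w 0, w 3)) :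
    StressFree (addE G y z) (kap v w ρ) := by
  have H := hx_of hD
  by_cases y0 : y = v 0
  · subst y0; exact c0z hD R h03 hs hn h0
  by_cases y3 : y = v 3
  · subst y3; exact c3z hD R h03 hs hn h0
  by_cases z0 : z = v 0
  · subst z0
    exact sf_comm (c0z hD R h03 hs.symm (fun h => hn h.symm) (by rw [dotProduct_comm]; exact h0))
  by_cases z3 : z = v 3
  · subst z3
    exact sf_comm (c3z hD R h03 hs.symm (fun h => hn h.symm) (by rw [dotProduct_comm]; exact h0))
  rw [H.kap_q ρ y0 y3, H.kap_q ρ z0 z3] at h0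
  have hadj : (stdK G v).Adj (stdQ v y) (stdQ v z) := by
    by_contra hk
    refine R.exact _ _ (by rw [H.side_q, H.side_q]; exact hs) hk ?_ h0
    intro he
    apply hw
    rw [Sym2.eq_iff] at he ⊢
    rcases he with ⟨h1, h2⟩ | ⟨h1, h2⟩
    · exact Or.inl ⟨(q_sing (H.singw 0) y).1 h1, (q_sing (H.singw 3) z).1 h2⟩
    · exact Or.inr ⟨(q_sing (H.singw 3) y).1 h1, (q_sing (H.singw 0) z).1 h2⟩
  have hq := (kadj.1 hadj).1
  by_cases hy : Sing v y
  · by_cases hz : Sing v z
    · rw [q_self hy, q_self hz] at hq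
      obtain ⟨n, hn1, hn2⟩ := H.qn_sing hy hq
      rw [q_sing hz] at hn2
      subst hn2
      exact absurd hn1 hn
    · exact sf_comm (H.col_cases R h03 hz y0 y3 hq.symm (fun h => hn h.symm))
  · exact H.col_cases R h03 hy z0 z3 hq hn

end

end SK

open SK

theorem stdKill : StdKillStmt := by
  classical
  intro V _ _ G side v w ρ hD hO hρ hLA hKill
  have H := hx_of hD
  have R : Rh G side v w ρ := ⟨hρ.rlz, hρ.sep, hρ.free, hρ.exact⟩
  have hdeg : ∀ u, 2 ≤ dg G univ u := fun u => by rw [H.cubic u]; norm_num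
  have hclass := fun (y z : V) (hs : side y ≠ side z) (hn : ¬ G.Adj y z)
    (h0 : kap v w ρ y ⬝ᵥ kap v w ρ z = 0) (hw : s(y, z) ≠ s(w 0, w 3)) =>
    classify hD R hO.h03 hs hn h0 hw
  by_cases hW : ρ (w 0) ⬝ᵥ ρ (w 3) = 0
  · have sne : side (v 5) ≠ side (v 0) := by
      rw [H.s5]; cases side (v 0) <;> decide
    have wne : side (w 0) ≠ side (w 3) := by
      rw [H.t0, H.t3]; cases side (v 0) <;> decide
    have hL := hLA V (delE G v) side (kap v w ρ) (v 5) (v 0) (w 0) (w 3)
      (fun a b h => H.bip a b h.1) sne wne (fun h => h.2.1 ⟨rfl, rfl⟩) (fun h => hO.h03 h.1)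
      (by simp [H.vw, H.wv]) (fun a b h => H.kap_rlz R a b h.1)
      (H.kap_rlz R _ _ ((H.nb5 _).2 (Or.inl rfl))) (by rw [H.kapw, H.kapw]; exact hW)
      (by rw [H.addE_delE]; exact H.free_G R hO.h03) (H.free_w R hρ.core) (H.near R hW)
    have hopen : IsOpen ({ρ' : V → E | ∀ u, ρ' u ≠ 0} ∩
        ({ρ' : V → E | ∀ x y, kap v w ρ x ⬝ᵥ kap v w ρ y ≠ 0 → ρ' x ⬝ᵥ ρ' y ≠ 0} ∩
        {ρ' : V → E | ∀ x y, side x ≠ side y → ¬ G.Adj x y → kap v w ρ x ⬝ᵥ kap v w ρ y = 0 →
          s(x, y) ≠ s(w 0, w 3) → StressFree (addE G x y) ρ'})) := by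
      refine IsOpen.inter ?_ (IsOpen.inter (MK.isOpen_nz (kap v w ρ)) ?_)
      · simp only [Set.ofPred_forall]
        exact isOpen_iInter_of_finite fun u => isOpen_ne_fun (continuous_apply u) continuous_const
      · simp only [Set.ofPred_forall]
        refine isOpen_iInter_of_finite fun x => isOpen_iInter_of_finite fun y =>
          isOpen_iInter_of_finite fun hxy => isOpen_iInter_of_finite fun _ =>
          isOpen_iInter_of_finite fun _ => isOpen_iInter_of_finite fun _ =>
          sfOpen V (addE G x y) side (MK.bip_addE H.bip hxy)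
    obtain ⟨m, ⟨hm0, hmnz, hmf⟩, hmR, hm50, hmw⟩ := hL _
      (hopen.mem_nhds ⟨H.kap_ne R, fun _ _ h => h, fun x y h1 h2 h3 h4 => hclass x y h1 h2 h3 h4⟩)
    refine hKill V G side H.bip H.noC4 hdeg m hm0 ?_ ?_
    · intro a b hab
      by_cases h1 : a = v 5 ∧ b = v 0
      · rw [h1.1, h1.2]; exact hm50
      by_cases h2 : a = v 0 ∧ b = v 5
      · rw [h2.1, h2.2, dotProduct_comm]; exact hm50
      exact hmR a b ⟨hab, h1, h2⟩
    · intro x y hs hn h0
      by_cases hw : s(x, y) = s(w 0, w 3)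
      · exfalso
        rw [Sym2.eq_iff] at hw
        rcases hw with ⟨rfl, rfl⟩ | ⟨rfl, rfl⟩
        · exact hmw h0
        · rw [dotProduct_comm] at h0; exact hmw h0
      · by_cases hk : kap v w ρ x ⬝ᵥ kap v w ρ y = 0
        · exact hmf x y hs hn hk hw
        · exact absurd h0 (hmnz x y hk)
  · refine hKill V G side H.bip H.noC4 hdeg (kap v w ρ) (H.kap_ne R) (H.kap_rlz R) ?_
    intro x y hs hn h0
    refine hclass x y hs hn h0 ?_
    intro hw
    rw [Sym2.eq_iff] at hw
    rcases hw with ⟨rfl, rfl⟩ | ⟨rfl, rfl⟩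
    · rw [H.kapw, H.kapw] at h0; exact hW h0
    · rw [H.kapw, H.kapw, dotProduct_comm] at h0; exact hW h0

theorem std : StdStmt := by
  intro V _ _ G side v w hD hO
  obtain ⟨ρ, hρ⟩ := stdRho V G side v w hD hO
  exact stdKill V G side v w ρ hD hO hρ lemmaA (kill sp sfOpen)

end N3
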