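import Pool.Agent.Lib_n3.StmtsStd
import Pool.Agent.Lib_n3.Push
import Pool.Agent.Lib_n3.Core
import Pool.Agent.Lib_n3.GlueLA3

/-!
# Module StdKill, part A: the hexagon, the quotient and the collapsed realization
-/

open scoped Matrix Topology
open Finset

set_option linter.unusedSectionVars false
set_option linter.unusedVariables false

namespace N3
namespace SK

theorem fa1 : ∀ i : Fin 6, i + 5 + 1 = i := by decide
theorem fa2 : ∀ i : Fin 6, i + 1 + 1 = i + 2 := by decide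
theorem fa3 : ∀ i : Fin 6, ¬ i = i + 2 := by decide
theorem fa4 : ∀ i : Fin 6, i + 1 + 1 + 1 = i + 3 := by decide
theorem fa5 : ∀ i j : Fin 6, i ≠ j → j = i + 1 ∨ j = i + 2 ∨ j = i + 3 ∨ i = j + 2 ∨ i = j + 1 := by
  decide
theorem fa6 : ∀ i : Fin 6, ¬ i + 1 = i + 5 := by decide

section
variable {V : Type} [Fintype V] [DecidableEq V]

/-- the neighbours of a vertex of degree three -/
theorem nbr3 {G : SimpleGraph V} {u a b c : V} (h3 : dg G univ u = 3) (ha : G.Adj u a)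
    (hb : G.Adj u b) (hc : G.Adj u c) (hab : a ≠ b) (hac : a ≠ c) (hbc : b ≠ c) (x : V) :
    G.Adj u x ↔ x = a ∨ x = b ∨ x = c := by
  classical
  constructor
  · intro hx
    unfold dg at h3
    have h3' : (univ.filter (fun w => G.Adj u w)).card = 3 := by convert h3
    have hsub : ({a, b, c} : Finset V) ⊆ univ.filter (fun w => G.Adj u w) := by
      intro y hy
      simp only [mem_insert, mem_singleton] at hy
      simp only [mem_filter, mem_univ, true_and]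
      rcases hy with rfl | rfl | rfl
      · exact ha
      · exact hb
      · exact hc
    have hcard : ({a, b, c} : Finset V).card = 3 := by
      rw [Finset.card_eq_three]
      exact ⟨a, b, c, hab, hac, hbc, rfl⟩
    have heq := Finset.eq_of_subset_of_card_le hsub (by rw [hcard, h3'])
    have hx' : x ∈ ({a, b, c} : Finset V) := by
      rw [heq]
      simpa using hx
    simpa using hx'
  · rintro (rfl | rfl | rfl)
    · exact ha
    · exact hb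
    · exact hc

/-- facts on the hexagon -/
structure Hx (G : SimpleGraph V) (side : V → Bool) (v w : Fin 6 → V) : Prop where
  bip : Bip G side
  noC4 : NoC4 G
  c5 : Cyc5 G
  cubic : ∀ u, dg G univ u = 3
  vi : ∀ i j, v i = v j ↔ i = j
  wi : ∀ i j, w i = w j ↔ i = j
  vw : ∀ i j, ¬ v i = w j
  wv : ∀ i j, ¬ w i = v j
  nb : ∀ i u, G.Adj (v i) u ↔ u = v (i + 1) ∨ u = v (i + 5) ∨ u = w i
  s1 : side (v 1) = !side (v 0)
  s2 : side (v 2) = side (v 0)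
  s3 : side (v 3) = !side (v 0)
  s4 : side (v 4) = side (v 0)
  s5 : side (v 5) = !side (v 0)
  t0 : side (w 0) = !side (v 0)
  t1 : side (w 1) = side (v 0)
  t2 : side (w 2) = !side (v 0)
  t3 : side (w 3) = side (v 0)
  t4 : side (w 4) = !side (v 0)
  t5 : side (w 5) = side (v 0)
  wnext : ∀ i, ¬ G.Adj (w i) (w (i + 1))

theorem flipB {a b : Bool} (h : a ≠ b) : b = !a := by
  revert a b; decide

theorem hx_of {G : SimpleGraph V} {side : V → Bool} {v w : Fin 6 → V} (h : HexData G side v w) :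
    Hx G side v w := by
  have hB := h.lev.bip
  have h4 := h.lev.noC4
  have e : ∀ i, side (v (i + 1)) = !side (v i) := fun i => flipB (hB _ _ (h.vv i))
  have f : ∀ i, side (w i) = !side (v i) := fun i => flipB (hB _ _ (h.vw i))
  have e0 := e 0
  have e1 := e 1
  have e2 := e 2
  have e3 := e 3
  have e4 := e 4
  simp only [zero_add, Fin.reduceAdd] at e0 e1 e2 e3 e4
  have s2 : side (v 2) = side (v 0) := by rw [e1, e0, Bool.not_not]
  have s3 : side (v 3) = !side (v 0) := by rw [e2, s2]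
  have s4 : side (v 4) = side (v 0) := by rw [e3, s3, Bool.not_not]
  have s5 : side (v 5) = !side (v 0) := by rw [e4, s4]
  have vi : ∀ i j, v i = v j ↔ i = j := fun i j => h.inj.eq_iff
  have vback : ∀ i, G.Adj (v i) (v (i + 5)) := by
    intro i
    have := h.vv (i + 5)
    rw [fa1] at this
    exact this.symm
  have hww : ∀ i, w i ≠ w (i + 2) := by
    intro i hi
    have h1 : G.Adj (v (i + 2)) (v (i + 1)) := by
      have := (h.vv (i + 1)).symm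
      rwa [fa2] at this
    have h2 : G.Adj (v (i + 2)) (w i) := by rw [hi]; exact h.vw (i + 2)
    have hne : v i ≠ v (i + 2) := by
      rw [Ne, vi]; exact fa3 i
    have := h4 (v i) (v (i + 2)) hne (v (i + 1)) (w i) (h.vv i) h1 (h.vw i) h2
    exact h.wv _ _ this.symm
  have hws : ∀ i, side (w i) ≠ side (w (i + 1)) := by
    intro i
    rw [f, f, e]
    cases side (v i) <;> simp
  have wne : ∀ i j, i ≠ j → w i ≠ w j := by
    intro i j hij
    rcases fa5 i j hij with rfl | rfl | rfl | rfl | rfl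
    · intro hh; exact hws i (by rw [← hh])
    · exact hww i
    · intro hh
      have h1 : side (w i) = !side (w (i + 1)) := flipB (hws i).symm
      have h2 : side (w (i + 1)) = !side (w (i + 1 + 1)) := flipB (hws (i + 1)).symm
      have h3 : side (w (i + 1 + 1)) = !side (w (i + 1 + 1 + 1)) := flipB (hws (i + 1 + 1)).symm
      rw [fa4] at h3
      rw [hh, h2, h3] at h1
      revert h1
      cases side (w (i + 3)) <;> simp
    · exact (hww j).symm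
    · intro hh; exact hws j (by rw [hh])
  refine
    { bip := hB
      noC4 := h4
      c5 := h.c5
      cubic := h.lev.cubic
      vi := vi
      wi := fun i j => ⟨fun hh => by
        by_contra hij
        exact wne i j hij hh, fun hh => by rw [hh]⟩
      vw := fun i j hh => h.wv j i hh.symm
      wv := fun i j => h.wv i j
      nb := fun i u => nbr3 (h.lev.cubic _) (h.vv i) (vback i) (h.vw i)
        (by rw [Ne, vi]; exact fa6 i) (h.wv _ _).symm (h.wv _ _).symm u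
      s1 := e0
      s2 := s2
      s3 := s3
      s4 := s4
      s5 := s5
      t0 := f 0
      t1 := by rw [f, e0, Bool.not_not]
      t2 := by rw [f, s2]
      t3 := by rw [f, s3, Bool.not_not]
      t4 := by rw [f, s4]
      t5 := by rw [f, s5, Bool.not_not]
      wnext := ?_ }
  intro i hi
  have h1 : G.Adj (w (i + 1)) (v (i + 1)) := (h.vw (i + 1)).symm
  have := h4 (v i) (w (i + 1)) (h.wv _ _).symm (v (i + 1)) (w i) (h.vv i) h1 (h.vw i) hi.symm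
  exact h.wv _ _ this.symm

variable {G : SimpleGraph V} {side : V → Bool} {v w : Fin 6 → V}

theorem Hx.nb0 (H : Hx G side v w) (u : V) : G.Adj (v 0) u ↔ u = v 1 ∨ u = v 5 ∨ u = w 0 := by
  simpa using H.nb 0 u

theorem Hx.nb1 (H : Hx G side v w) (u : V) : G.Adj (v 1) u ↔ u = v 2 ∨ u = v 0 ∨ u = w 1 := by
  simpa using H.nb 1 u

theorem Hx.nb2 (H : Hx G side v w) (u : V) : G.Adj (v 2) u ↔ u = v 3 ∨ u = v 1 ∨ u = w 2 := by
  simpa using H.nb 2 u

theorem Hx.nb3 (H : Hx G side v w) (u : V) : G.Adj (v 3) u ↔ u = v 4 ∨ u = v 2 ∨ u = w 3 := by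
  simpa using H.nb 3 u

theorem Hx.nb4 (H : Hx G side v w) (u : V) : G.Adj (v 4) u ↔ u = v 5 ∨ u = v 3 ∨ u = w 4 := by
  simpa using H.nb 4 u

theorem Hx.nb5 (H : Hx G side v w) (u : V) : G.Adj (v 5) u ↔ u = v 0 ∨ u = v 4 ∨ u = w 5 := by
  simpa using H.nb 5 u

/-! ### The quotient map -/

theorem q5 : stdQ v (v 5) = v 1 := by simp [stdQ]

theorem Hx.q4 (H : Hx G side v w) : stdQ v (v 4) = v 2 := by
  simp [stdQ, H.vi]

theorem q_other {u : V} (h5 : u ≠ v 5) (h4 : u ≠ v 4) : stdQ v u = u := by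
  simp [stdQ, h5, h4]

theorem Hx.q0 (H : Hx G side v w) : stdQ v (v 0) = v 0 := by simp [stdQ, H.vi]
theorem Hx.q1 (H : Hx G side v w) : stdQ v (v 1) = v 1 := by simp [stdQ, H.vi]
theorem Hx.q2 (H : Hx G side v w) : stdQ v (v 2) = v 2 := by simp [stdQ, H.vi]
theorem Hx.q3 (H : Hx G side v w) : stdQ v (v 3) = v 3 := by simp [stdQ, H.vi]
theorem Hx.qw (H : Hx G side v w) (i : Fin 6) : stdQ v (w i) = w i := by simp [stdQ, H.wv]

theorem Hx.side_q (H : Hx G side v w) (u : V) : side (stdQ v u) = side u := by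
  unfold stdQ
  split_ifs with h1 h2
  · rw [h1, H.s1, H.s5]
  · rw [h2, H.s2, H.s4]
  · rfl

theorem Hx.q_ne5 (H : Hx G side v w) (u : V) : stdQ v u ≠ v 5 := by
  unfold stdQ
  split_ifs with h1 h2
  · rw [Ne, H.vi]; decide
  · rw [Ne, H.vi]; decide
  · exact h1

theorem Hx.q_ne4 (H : Hx G side v w) (u : V) : stdQ v u ≠ v 4 := by
  unfold stdQ
  split_ifs with h1 h2
  · rw [Ne, H.vi]; decide
  · rw [Ne, H.vi]; decide
  · exact h2

theorem Hx.q_eq1 (H : Hx G side v w) (u : V) : stdQ v u = v 1 ↔ u = v 1 ∨ u = v 5 := by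
  unfold stdQ
  split_ifs with h1 h2
  · simp [h1]
  · simp [h2, H.vi]
  · simp [h1]

theorem Hx.q_eq2 (H : Hx G side v w) (u : V) : stdQ v u = v 2 ↔ u = v 2 ∨ u = v 4 := by
  unfold stdQ
  split_ifs with h1 h2
  · simp [h1, H.vi]
  · simp [h2]
  · simp [h2]

/-- `t` is not an identified vertex -/
def Sing (v : Fin 6 → V) (t : V) : Prop := t ≠ v 1 ∧ t ≠ v 2 ∧ t ≠ v 4 ∧ t ≠ v 5

theorem q_sing {t : V} (ht : Sing v t) (u : V) : stdQ v u = t ↔ u = t := by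
  obtain ⟨h1, h2, h4, h5⟩ := ht
  unfold stdQ
  split_ifs with e1 e2
  · exact ⟨fun h => absurd h.symm h1, fun h => absurd (h.symm.trans e1) h5⟩
  · exact ⟨fun h => absurd h.symm h2, fun h => absurd (h.symm.trans e2) h4⟩
  · rfl

theorem q_self {t : V} (ht : Sing v t) : stdQ v t = t := (q_sing ht t).2 rfl

theorem Hx.sing0 (H : Hx G side v w) : Sing v (v 0) := by
  refine ⟨?_, ?_, ?_, ?_⟩ <;> rw [Ne, H.vi] <;> decide

theorem Hx.sing3 (H : Hx G side v w) : Sing v (v 3) := by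
  refine ⟨?_, ?_, ?_, ?_⟩ <;> rw [Ne, H.vi] <;> decide

theorem Hx.singw (H : Hx G side v w) (i : Fin 6) : Sing v (w i) :=
  ⟨H.wv _ _, H.wv _ _, H.wv _ _, H.wv _ _⟩

theorem Hx.qadj (H : Hx G side v w) {a b : V} :
    (quot G (stdQ v)).Adj a b ↔ ∃ u u', G.Adj u u' ∧ stdQ v u = a ∧ stdQ v u' = b :=
  quot_adj_iff H.bip H.side_q

theorem Hx.qn0 (H : Hx G side v w) {b : V} (h : (quot G (stdQ v)).Adj (v 0) b) :
    b = v 1 ∨ b = w 0 := by
  obtain ⟨u, u', hu, h1, h2⟩ := H.qadj.1 h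
  rw [q_sing H.sing0] at h1
  subst h1
  rw [H.nb0] at hu
  rcases hu with rfl | rfl | rfl
  · left; rw [← h2, H.q1]
  · left; rw [← h2, q5]
  · right; rw [← h2, H.qw]

theorem Hx.qn3 (H : Hx G side v w) {b : V} (h : (quot G (stdQ v)).Adj (v 3) b) :
    b = v 2 ∨ b = w 3 := by
  obtain ⟨u, u', hu, h1, h2⟩ := H.qadj.1 h
  rw [q_sing H.sing3] at h1
  subst h1
  rw [H.nb3] at hu
  rcases hu with rfl | rfl | rfl
  · left; rw [← h2, H.q4]
  · left; rw [← h2, H.q2]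
  · right; rw [← h2, H.qw]

theorem Hx.qn1 (H : Hx G side v w) {b : V} (h : (quot G (stdQ v)).Adj (v 1) b) :
    b = v 0 ∨ b = v 2 ∨ b = w 1 ∨ b = w 5 := by
  obtain ⟨u, u', hu, h1, h2⟩ := H.qadj.1 h
  rw [H.q_eq1] at h1
  rcases h1 with rfl | rfl
  · rw [H.nb1] at hu
    rcases hu with rfl | rfl | rfl
    · rw [H.q2] at h2; exact Or.inr (Or.inl h2.symm)
    · rw [H.q0] at h2; exact Or.inl h2.symm
    · rw [H.qw] at h2; exact Or.inr (Or.inr (Or.inl h2.symm))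
  · rw [H.nb5] at hu
    rcases hu with rfl | rfl | rfl
    · rw [H.q0] at h2; exact Or.inl h2.symm
    · rw [H.q4] at h2; exact Or.inr (Or.inl h2.symm)
    · rw [H.qw] at h2; exact Or.inr (Or.inr (Or.inr h2.symm))

theorem Hx.qn2 (H : Hx G side v w) {b : V} (h : (quot G (stdQ v)).Adj (v 2) b) :
    b = v 3 ∨ b = v 1 ∨ b = w 2 ∨ b = w 4 := by
  obtain ⟨u, u', hu, h1, h2⟩ := H.qadj.1 h
  rw [H.q_eq2] at h1
  rcases h1 with rfl | rfl
  · rw [H.nb2] at hu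
    rcases hu with rfl | rfl | rfl
    · rw [H.q3] at h2; exact Or.inl h2.symm
    · rw [H.q1] at h2; exact Or.inr (Or.inl h2.symm)
    · rw [H.qw] at h2; exact Or.inr (Or.inr (Or.inl h2.symm))
  · rw [H.nb4] at hu
    rcases hu with rfl | rfl | rfl
    · rw [q5] at h2; exact Or.inr (Or.inl h2.symm)
    · rw [H.q3] at h2; exact Or.inl h2.symm
    · rw [H.qw] at h2; exact Or.inr (Or.inr (Or.inr h2.symm))

theorem Hx.qn_sing (H : Hx G side v w) {a b : V} (ha : Sing v a)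
    (h : (quot G (stdQ v)).Adj a b) : ∃ n, G.Adj a n ∧ stdQ v n = b := by
  obtain ⟨u, u', hu, h1, h2⟩ := H.qadj.1 h
  rw [q_sing ha] at h1
  subst h1
  exact ⟨u', hu, h2⟩

theorem Hx.qn_ww (H : Hx G side v w) {i j : Fin 6} (h : (quot G (stdQ v)).Adj (w i) (w j)) :
    G.Adj (w i) (w j) := by
  obtain ⟨n, hn, hq⟩ := H.qn_sing (H.singw i) h
  rw [q_sing (H.singw j)] at hq
  rwa [hq] at hn

theorem kadj {a b : V} : (stdK G v).Adj a b ↔
    (quot G (stdQ v)).Adj a b ∧ (a ≠ v 0 ∧ a ≠ v 3) ∧ (b ≠ v 0 ∧ b ≠ v 3) := by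
  unfold stdK res
  simp

/-! ### Realizations -/

/-- what we need of `StdRho`, symmetric under the flip of the hexagon -/
structure Rh (G : SimpleGraph V) (side : V → Bool) (v w : Fin 6 → V) (ρ : V → E) : Prop where
  rlz : Rlz (stdK G v) ρ
  sep : Sep side ρ
  free : StressFree (stdK G v) ρ
  exact : ∀ y z, side y ≠ side z → ¬ (stdK G v).Adj y z → s(y, z) ≠ s(w 0, w 3) → ρ y ⬝ᵥ ρ z ≠ 0

/-- `ρ` changed at `v 0`, `v 3` -/
def rhoX (v w : Fin 6 → V) (ρ : V → E) : V → E := fun u =>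
  if u = v 0 then crossProduct (ρ (v 1)) (ρ (w 0))
  else if u = v 3 then crossProduct (ρ (v 2)) (ρ (w 3)) else ρ u

/-- the collapsed realization -/
def kap (v w : Fin 6 → V) (ρ : V → E) : V → E := rhoX v w ρ ∘ stdQ v

theorem rhoX0 (ρ : V → E) : rhoX v w ρ (v 0) = crossProduct (ρ (v 1)) (ρ (w 0)) := by
  simp [rhoX]

theorem Hx.rhoX3 (H : Hx G side v w) (ρ : V → E) :
    rhoX v w ρ (v 3) = crossProduct (ρ (v 2)) (ρ (w 3)) := by
  simp [rhoX, H.vi]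

theorem rhoX_other (ρ : V → E) {u : V} (h0 : u ≠ v 0) (h3 : u ≠ v 3) : rhoX v w ρ u = ρ u := by
  simp [rhoX, h0, h3]

theorem Hx.kap0 (H : Hx G side v w) (ρ : V → E) :
    kap v w ρ (v 0) = crossProduct (ρ (v 1)) (ρ (w 0)) := by
  rw [kap, Function.comp_apply, H.q0, rhoX0]

theorem Hx.kap3 (H : Hx G side v w) (ρ : V → E) :
    kap v w ρ (v 3) = crossProduct (ρ (v 2)) (ρ (w 3)) := by
  rw [kap, Function.comp_apply, H.q3, H.rhoX3]

theorem Hx.kap1 (H : Hx G side v w) (ρ : V → E) : kap v w ρ (v 1) = ρ (v 1) := by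
  rw [kap, Function.comp_apply, H.q1, rhoX_other] <;> rw [Ne, H.vi] <;> decide

theorem Hx.kap5 (H : Hx G side v w) (ρ : V → E) : kap v w ρ (v 5) = ρ (v 1) := by
  rw [kap, Function.comp_apply, q5, rhoX_other] <;> rw [Ne, H.vi] <;> decide

theorem Hx.kap2 (H : Hx G side v w) (ρ : V → E) : kap v w ρ (v 2) = ρ (v 2) := by
  rw [kap, Function.comp_apply, H.q2, rhoX_other] <;> rw [Ne, H.vi] <;> decide

theorem Hx.kap4 (H : Hx G side v w) (ρ : V → E) : kap v w ρ (v 4) = ρ (v 2) := by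
  rw [kap, Function.comp_apply, H.q4, rhoX_other] <;> rw [Ne, H.vi] <;> decide

theorem Hx.q_ne0 (H : Hx G side v w) {u : V} (h : u ≠ v 0) : stdQ v u ≠ v 0 := by
  rw [Ne, q_sing H.sing0]; exact h

theorem Hx.q_ne3 (H : Hx G side v w) {u : V} (h : u ≠ v 3) : stdQ v u ≠ v 3 := by
  rw [Ne, q_sing H.sing3]; exact h

theorem Hx.kap_q (H : Hx G side v w) (ρ : V → E) {u : V} (h0 : u ≠ v 0) (h3 : u ≠ v 3) :
    kap v w ρ u = ρ (stdQ v u) := by
  rw [kap, Function.comp_apply, rhoX_other _ (H.q_ne0 h0) (H.q_ne3 h3)]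

theorem Hx.kapw (H : Hx G side v w) (ρ : V → E) (i : Fin 6) : kap v w ρ (w i) = ρ (w i) := by
  rw [H.kap_q ρ (H.wv _ _) (H.wv _ _), H.qw]

theorem Hx.kap_sing (H : Hx G side v w) (ρ : V → E) {u : V} (hu : Sing v u) (h0 : u ≠ v 0)
    (h3 : u ≠ v 3) : kap v w ρ u = ρ u := by
  rw [H.kap_q ρ h0 h3, q_self hu]

theorem Rh.edge {ρ : V → E} (H : Hx G side v w) (R : Rh G side v w ρ) {a b : V} (h : G.Adj a b)
    (ha0 : a ≠ v 0) (ha3 : a ≠ v 3) (hb0 : b ≠ v 0) (hb3 : b ≠ v 3) :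
    ρ (stdQ v a) ⬝ᵥ ρ (stdQ v b) = 0 := by
  refine R.rlz _ _ (kadj.2 ⟨quot_adj H.bip H.side_q h, ⟨H.q_ne0 ha0, H.q_ne3 ha3⟩,
    ⟨H.q_ne0 hb0, H.q_ne3 hb3⟩⟩)

/-- all the facts on the ten vectors -/
structure Vec (A B W0 W1 W2 W3 W4 W5 : E) : Prop where
  AB : A ⬝ᵥ B = 0
  AW1 : A ⬝ᵥ W1 = 0
  AW5 : A ⬝ᵥ W5 = 0
  BW2 : B ⬝ᵥ W2 = 0
  BW4 : B ⬝ᵥ W4 = 0
  AW3 : A ⬝ᵥ W3 ≠ 0
  BW0 : B ⬝ᵥ W0 ≠ 0
  W01 : W0 ⬝ᵥ W1 ≠ 0
  W05 : W0 ⬝ᵥ W5 ≠ 0
  W32 : W3 ⬝ᵥ W2 ≠ 0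
  W34 : W3 ⬝ᵥ W4 ≠ 0
  W12 : W1 ⬝ᵥ W2 ≠ 0
  nA0 : Np A W0
  nA2 : Np A W2
  nA4 : Np A W4
  nB3 : Np B W3
  nB1 : Np B W1
  nB5 : Np B W5
  n24 : Np W2 W4

theorem Hx.vec {ρ : V → E} (H : Hx G side v w) (R : Rh G side v w ρ) :
    Vec (ρ (v 1)) (ρ (v 2)) (ρ (w 0)) (ρ (w 1)) (ρ (w 2)) (ρ (w 3)) (ρ (w 4)) (ρ (w 5)) := by
  have d : ∀ i j : Fin 6, i ≠ j → v i ≠ v j := fun i j h => by rw [Ne, H.vi]; exact h
  have ss : ∀ {a b : V}, side a = side (v 0) → side b = (!side (v 0)) → side a ≠ side b := by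
    intro a b h1 h2
    rw [h1, h2]
    cases side (v 0) <;> decide
  have w' := H.wnext
  have w0 : ¬ G.Adj (w 0) (w 1) := by simpa using H.wnext 0
  have w1 : ¬ G.Adj (w 1) (w 2) := by simpa using H.wnext 1
  have w2 : ¬ G.Adj (w 2) (w 3) := by simpa using H.wnext 2
  have w3 : ¬ G.Adj (w 3) (w 4) := by simpa using H.wnext 3
  have w5 : ¬ G.Adj (w 5) (w 0) := by simpa using H.wnext 5
  refine
    { AB := ?_
      AW1 := ?_
      AW5 := ?_
      BW2 := ?_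
      BW4 := ?_
      AW3 := ?_
      BW0 := ?_
      W01 := ?_
      W05 := ?_
      W32 := ?_
      W34 := ?_
      W12 := ?_
      nA0 := R.sep.2 _ _ (H.vw _ _) (by rw [H.s1, H.t0])
      nA2 := R.sep.2 _ _ (H.vw _ _) (by rw [H.s1, H.t2])
      nA4 := R.sep.2 _ _ (H.vw _ _) (by rw [H.s1, H.t4])
      nB3 := R.sep.2 _ _ (H.vw _ _) (by rw [H.s2, H.t3])
      nB1 := R.sep.2 _ _ (H.vw _ _) (by rw [H.s2, H.t1])
      nB5 := R.sep.2 _ _ (H.vw _ _) (by rw [H.s2, H.t5])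
      n24 := R.sep.2 _ _ (by rw [Ne, H.wi]; decide) (by rw [H.t2, H.t4]) }
  · have := R.edge H ((H.nb1 (v 2)).2 (Or.inl rfl)) (d _ _ (by decide)) (d _ _ (by decide))
      (d _ _ (by decide)) (d _ _ (by decide))
    rwa [H.q1, H.q2] at this
  · have := R.edge H ((H.nb1 (w 1)).2 (Or.inr (Or.inr rfl))) (d _ _ (by decide)) (d _ _ (by decide))
      (H.wv _ _) (H.wv _ _)
    rwa [H.q1, H.qw] at this
  · have := R.edge H ((H.nb5 (w 5)).2 (Or.inr (Or.inr rfl))) (d _ _ (by decide)) (d _ _ (by decide))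
      (H.wv _ _) (H.wv _ _)
    rwa [q5, H.qw] at this
  · have := R.edge H ((H.nb2 (w 2)).2 (Or.inr (Or.inr rfl))) (d _ _ (by decide)) (d _ _ (by decide))
      (H.wv _ _) (H.wv _ _)
    rwa [H.q2, H.qw] at this
  · have := R.edge H ((H.nb4 (w 4)).2 (Or.inr (Or.inr rfl))) (d _ _ (by decide)) (d _ _ (by decide))
      (H.wv _ _) (H.wv _ _)
    rwa [H.q4, H.qw] at this
  · refine R.exact _ _ (ss H.t3 H.s1).symm ?_ ?_
    · intro h
      rcases H.qn1 (kadj.1 h).1 with h | h | h | h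
      · exact H.wv _ _ h
      · exact H.wv _ _ h
      · rw [H.wi] at h; revert h; decide
      · rw [H.wi] at h; revert h; decide
    · simp [H.vw, H.wv]
  · refine R.exact _ _ (ss H.s2 H.t0) ?_ ?_
    · intro h
      rcases H.qn2 (kadj.1 h).1 with h | h | h | h
      · exact H.wv _ _ h
      · exact H.wv _ _ h
      · rw [H.wi] at h; revert h; decide
      · rw [H.wi] at h; revert h; decide
    · simp [H.vw, H.wv]
  · refine R.exact _ _ (ss H.t1 H.t0).symm (fun h => w0 (H.qn_ww (kadj.1 h).1)) ?_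
    simp [H.wi]
  · refine R.exact _ _ (ss H.t5 H.t0).symm (fun h => w5 (H.qn_ww (kadj.1 h).1).symm) ?_
    simp [H.wi]
  · refine R.exact _ _ (ss H.t3 H.t2) (fun h => w2 (H.qn_ww (kadj.1 h).1).symm) ?_
    simp [H.wi]
  · refine R.exact _ _ (ss H.t3 H.t4) (fun h => w3 (H.qn_ww (kadj.1 h).1)) ?_
    simp [H.wi]
  · refine R.exact _ _ (ss H.t1 H.t2) (fun h => w1 (H.qn_ww (kadj.1 h).1)) ?_
    simp [H.wi]

/-- nondegeneracy of the new vectors -/
structure Vec2 (A B W0 W1 W2 W3 W4 W5 : E) : Prop where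
  z0 : crossProduct A W0 ≠ 0
  z3 : crossProduct B W3 ≠ 0
  o0A : A ⬝ᵥ crossProduct A W0 = 0
  o0W : W0 ⬝ᵥ crossProduct A W0 = 0
  o3B : B ⬝ᵥ crossProduct B W3 = 0
  o3W : W3 ⬝ᵥ crossProduct B W3 = 0
  m0B : Np (crossProduct A W0) B
  m01 : Np (crossProduct A W0) W1
  m05 : Np (crossProduct A W0) W5
  m3A : Np (crossProduct B W3) A
  m32 : Np (crossProduct B W3) W2
  m34 : Np (crossProduct B W3) W4
  z03 : crossProduct A W0 ⬝ᵥ crossProduct B W3 ≠ 0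

theorem Vec.vec2 {A B W0 W1 W2 W3 W4 W5 : E} (h : Vec A B W0 W1 W2 W3 W4 W5) :
    Vec2 A B W0 W1 W2 W3 W4 W5 := by
  have o0W : W0 ⬝ᵥ crossProduct A W0 = 0 := dot_cross_self A W0
  have o3W : W3 ⬝ᵥ crossProduct B W3 = 0 := dot_cross_self B W3
  refine
    { z0 := h.nA0
      z3 := h.nB3
      o0A := dot_self_cross A W0
      o0W := o0W
      o3B := dot_self_cross B W3
      o3W := o3W
      m0B := np_of_dot h.nA0 o0W (by rw [dotProduct_comm]; exact h.BW0)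
      m01 := np_of_dot h.nA0 o0W h.W01
      m05 := np_of_dot h.nA0 o0W h.W05
      m3A := np_of_dot h.nB3 o3W (by rw [dotProduct_comm]; exact h.AW3)
      m32 := np_of_dot h.nB3 o3W h.W32
      m34 := np_of_dot h.nB3 o3W h.W34
      z03 := ?_ }
  have e : crossProduct A W0 ⬝ᵥ crossProduct B W3 =
      (A ⬝ᵥ B) * (W0 ⬝ᵥ W3) - (A ⬝ᵥ W3) * (B ⬝ᵥ W0) := by
    rw [cross_dot_cross, dotProduct_comm W0 B]
  rw [e, h.AB, zero_mul, zero_sub]
  exact neg_ne_zero.2 (mul_ne_zero h.AW3 h.BW0)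

/-- `kap` realizes `G` -/
theorem Hx.kap_rlz {ρ : V → E} (H : Hx G side v w) (R : Rh G side v w ρ) :
    Rlz G (kap v w ρ) := by
  have hv := H.vec R
  have hv2 := hv.vec2
  have c0 : ∀ b, G.Adj (v 0) b → kap v w ρ (v 0) ⬝ᵥ kap v w ρ b = 0 := by
    intro b hb
    rw [H.nb0] at hb
    rw [H.kap0, dotProduct_comm]
    rcases hb with rfl | rfl | rfl
    · rw [H.kap1]; exact hv2.o0A
    · rw [H.kap5]; exact hv2.o0A
    · rw [H.kapw]; exact hv2.o0W
  have c3 : ∀ b, G.Adj (v 3) b → kap v w ρ (v 3) ⬝ᵥ kap v w ρ b = 0 := by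
    intro b hb
    rw [H.nb3] at hb
    rw [H.kap3, dotProduct_comm]
    rcases hb with rfl | rfl | rfl
    · rw [H.kap4]; exact hv2.o3B
    · rw [H.kap2]; exact hv2.o3B
    · rw [H.kapw]; exact hv2.o3W
  intro a b hab
  by_cases ha0 : a = v 0
  · subst ha0; exact c0 b hab
  by_cases ha3 : a = v 3
  · subst ha3; exact c3 b hab
  by_cases hb0 : b = v 0
  · subst hb0; rw [dotProduct_comm]; exact c0 a hab.symm
  by_cases hb3 : b = v 3
  · subst hb3; rw [dotProduct_comm]; exact c3 a hab.symm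
  rw [H.kap_q ρ ha0 ha3, H.kap_q ρ hb0 hb3]
  exact R.edge H hab ha0 ha3 hb0 hb3

theorem Hx.kap_ne {ρ : V → E} (H : Hx G side v w) (R : Rh G side v w ρ) (u : V) :
    kap v w ρ u ≠ 0 := by
  have hv2 := (H.vec R).vec2
  by_cases h0 : u = v 0
  · subst h0; rw [H.kap0]; exact hv2.z0
  by_cases h3 : u = v 3
  · subst h3; rw [H.kap3]; exact hv2.z3
  rw [H.kap_q ρ h0 h3]
  exact R.sep.1 _

/-! ### Stresses -/

/-- RED: stresses of the quotient vanish at `v 0`, `v 3` -/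
theorem Hx.red {ρ : V → E} (H : Hx G side v w) (R : Rh G side v w ρ) {τ : V → V → ℝ}
    (hsym : ∀ a b, τ a b = τ b a)
    (hsupp : ∀ a b, τ a b ≠ 0 → (quot G (stdQ v)).Adj a b ∨ (a = w 0 ∧ b = w 3) ∨
      (a = w 3 ∧ b = w 0))
    (heq : ∀ a, ∑ b, τ a b • rhoX v w ρ b = 0) :
    (∀ b, τ (v 0) b = 0) ∧ (∀ b, τ (v 3) b = 0) ∧ Stress (addE (stdK G v) (w 0) (w 3)) ρ τ := by
  classical
  have hv := H.vec R
  have e0 : ∀ b, b ≠ v 1 → b ≠ w 0 → τ (v 0) b = 0 := by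
    intro b h1 h2
    by_contra hne
    rcases hsupp _ _ hne with h | ⟨h, -⟩ | ⟨h, -⟩
    · rcases H.qn0 h with h | h
      · exact h1 h
      · exact h2 h
    · exact H.vw _ _ h
    · exact H.vw _ _ h
  have e3 : ∀ b, b ≠ v 2 → b ≠ w 3 → τ (v 3) b = 0 := by
    intro b h1 h2
    by_contra hne
    rcases hsupp _ _ hne with h | ⟨h, -⟩ | ⟨h, -⟩
    · rcases H.qn3 h with h | h
      · exact h1 h
      · exact h2 h
    · exact H.vw _ _ h
    · exact H.vw _ _ h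
  have s0 : τ (v 0) (v 1) • ρ (v 1) + τ (v 0) (w 0) • ρ (w 0) = 0 := by
    have h := heq (v 0)
    rw [← Finset.sum_subset (Finset.subset_univ ({v 1, w 0} : Finset V))] at h
    · rw [Finset.sum_pair (H.vw _ _)] at h
      rwa [rhoX_other, rhoX_other] at h
      · exact H.wv _ _
      · exact H.wv _ _
      · rw [Ne, H.vi]; decide
      · rw [Ne, H.vi]; decide
    · intro b _ hb
      simp only [Finset.mem_insert, Finset.mem_singleton, not_or] at hb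
      rw [e0 b hb.1 hb.2, zero_smul]
  have s3 : τ (v 3) (v 2) • ρ (v 2) + τ (v 3) (w 3) • ρ (w 3) = 0 := by
    have h := heq (v 3)
    rw [← Finset.sum_subset (Finset.subset_univ ({v 2, w 3} : Finset V))] at h
    · rw [Finset.sum_pair (H.vw _ _)] at h
      rwa [rhoX_other, rhoX_other] at h
      · exact H.wv _ _
      · exact H.wv _ _
      · rw [Ne, H.vi]; decide
      · rw [Ne, H.vi]; decide
    · intro b _ hb
      simp only [Finset.mem_insert, Finset.mem_singleton, not_or] at hb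
      rw [e3 b hb.1 hb.2, zero_smul]
  have z0 : ∀ b, τ (v 0) b = 0 := by
    intro b
    by_cases h1 : b = v 1
    · subst h1; exact (hv.nA0.rel s0).1
    by_cases h2 : b = w 0
    · subst h2; exact (hv.nA0.rel s0).2
    exact e0 b h1 h2
  have z3 : ∀ b, τ (v 3) b = 0 := by
    intro b
    by_cases h1 : b = v 2
    · subst h1; exact (hv.nB3.rel s3).1
    by_cases h2 : b = w 3
    · subst h2; exact (hv.nB3.rel s3).2
    exact e3 b h1 h2
  refine ⟨z0, z3, hsym, ?_, ?_⟩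
  · intro a b hab
    by_contra hne
    apply hab
    rw [addE_adj]
    have ha0 : a ≠ v 0 := by rintro rfl; exact hne (z0 b)
    have ha3 : a ≠ v 3 := by rintro rfl; exact hne (z3 b)
    have hb0 : b ≠ v 0 := by rintro rfl; rw [hsym] at hne; exact hne (z0 a)
    have hb3 : b ≠ v 3 := by rintro rfl; rw [hsym] at hne; exact hne (z3 a)
    rcases hsupp a b hne with h | h | h
    · exact Or.inl (kadj.2 ⟨h, ⟨ha0, ha3⟩, ⟨hb0, hb3⟩⟩)
    · exact Or.inr ⟨Or.inl h, by rw [Ne, H.wi]; decide⟩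
    · exact Or.inr ⟨Or.inr h, by rw [Ne, H.wi]; decide⟩
  · intro a
    rw [← heq a]
    refine Finset.sum_congr rfl fun b _ => ?_
    by_cases hb0 : b = v 0
    · subst hb0; rw [hsym, z0]; simp
    by_cases hb3 : b = v 3
    · subst hb3; rw [hsym, z3]; simp
    rw [rhoX_other ρ hb0 hb3]

/-- fibre sums of pairs of identified vertices -/
theorem pushW_eq (q : V → V) (ω : V → V → ℝ) (a b : V) : pushW q ω a b =
    ∑ u ∈ univ.filter (fun u => q u = a), ∑ u' ∈ univ.filter (fun u => q u = b), ω u u' := by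
  unfold pushW
  rw [Finset.sum_filter]
  refine Finset.sum_congr rfl fun u _ => ?_
  split_ifs with h
  · rw [Finset.sum_filter]
    refine Finset.sum_congr rfl fun u' _ => ?_
    simp [h]
  · refine Finset.sum_eq_zero fun u' _ => ?_
    simp [h]

theorem fib_sing {t : V} (ht : Sing v t) : univ.filter (fun u => stdQ v u = t) = {t} := by
  ext u
  simp [q_sing ht u]

theorem Hx.fib1 (H : Hx G side v w) : univ.filter (fun u => stdQ v u = v 1) = {v 1, v 5} := by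
  ext u
  simp [H.q_eq1 u]

theorem Hx.fib2 (H : Hx G side v w) : univ.filter (fun u => stdQ v u = v 2) = {v 2, v 4} := by
  ext u
  simp [H.q_eq2 u]

theorem push_ss {ω : V → V → ℝ} {a b : V} (ha : Sing v a) (hb : Sing v b) :
    pushW (stdQ v) ω a b = ω a b := by
  rw [pushW_eq, fib_sing ha, fib_sing hb]; simp

theorem Hx.push_1s (H : Hx G side v w) {ω : V → V → ℝ} {b : V} (hb : Sing v b) :
    pushW (stdQ v) ω (v 1) b = ω (v 1) b + ω (v 5) b := by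
  rw [pushW_eq, H.fib1, fib_sing hb, Finset.sum_pair (by rw [Ne, H.vi]; decide)]; simp

theorem Hx.push_2s (H : Hx G side v w) {ω : V → V → ℝ} {b : V} (hb : Sing v b) :
    pushW (stdQ v) ω (v 2) b = ω (v 2) b + ω (v 4) b := by
  rw [pushW_eq, H.fib2, fib_sing hb, Finset.sum_pair (by rw [Ne, H.vi]; decide)]; simp

theorem Hx.push_12 (H : Hx G side v w) {ω : V → V → ℝ} :
    pushW (stdQ v) ω (v 1) (v 2) = ω (v 1) (v 2) + ω (v 1) (v 4) + (ω (v 5) (v 2) + ω (v 5) (v 4)) := by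
  rw [pushW_eq, H.fib1, H.fib2, Finset.sum_pair (by rw [Ne, H.vi]; decide),
    Finset.sum_pair (by rw [Ne, H.vi]; decide), Finset.sum_pair (by rw [Ne, H.vi]; decide)]

/-- scalar core of the expansion -/
theorem exp_core {κ0 κ3 A B W1 W5 W2 W4 : E}
    {a1 a5 b b' c c' d1 d5 e1 e5 f2 f4 g2 g4 h2 h4 : ℝ}
    (n1 : Np κ0 B) (n2 : Np κ3 A) (n3 : Np κ0 W1) (n4 : Np κ0 W5) (n5 : Np κ3 W2) (n6 : Np κ3 W4)
    (E1 : a1 • κ0 + (b + c) • B + d1 • W1 + e1 • W5 = 0)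
    (E2 : f2 • κ3 + (b + c') • A + g2 • W2 + h2 • W4 = 0)
    (s1 : a1 + a5 = 0) (s2 : b + c + (c' + b') = 0) (s3 : d1 + e5 = 0) (s4 : e1 + d5 = 0)
    (s5 : f2 + f4 = 0) (s6 : g2 + h4 = 0) (s7 : h2 + g4 = 0)
    (hl : (c = 0 ∧ c' = 0 ∧ e1 = 0 ∧ e5 = 0 ∧ h2 = 0) ∨ (c = 0 ∧ c' = 0 ∧ e1 = 0 ∧ e5 = 0 ∧ h4 = 0) ∨
      (c = 0 ∧ c' = 0 ∧ e1 = 0 ∧ h2 = 0 ∧ h4 = 0) ∨ (c = 0 ∧ c' = 0 ∧ e5 = 0 ∧ h2 = 0 ∧ h4 = 0) ∨
      (c = 0 ∧ e1 = 0 ∧ e5 = 0 ∧ h2 = 0 ∧ h4 = 0) ∨ (c' = 0 ∧ e1 = 0 ∧ e5 = 0 ∧ h2 = 0 ∧ h4 = 0)) :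
    (a1 = 0 ∧ a5 = 0 ∧ b = 0 ∧ b' = 0) ∧ (c = 0 ∧ c' = 0 ∧ d1 = 0 ∧ d5 = 0) ∧
      (e1 = 0 ∧ e5 = 0 ∧ f2 = 0 ∧ f4 = 0) ∧ (g2 = 0 ∧ g4 = 0 ∧ h2 = 0 ∧ h4 = 0) := by
  rcases hl with ⟨r1, r2, r3, r4, r5⟩ | ⟨r1, r2, r3, r4, r5⟩ | ⟨r1, r2, r3, r4, r5⟩ |
    ⟨r1, r2, r3, r4, r5⟩ | ⟨r1, r2, r3, r4, r5⟩ | ⟨r1, r2, r3, r4, r5⟩
  · -- h4 free
    subst r1 r2 r3 r4 r5
    have hd : d1 = 0 := by linarith
    subst hd
    have h1 := n1.rel (x := a1) (y := b + 0) (by simpa using E1)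
    have hb : b = 0 := by linarith [h1.2]
    subst hb
    have h2 := n5.rel (x := f2) (y := g2) (by simpa using E2)
    refine ⟨⟨h1.1, ?_, rfl, ?_⟩, ⟨rfl, rfl, rfl, ?_⟩, ⟨rfl, rfl, h2.1, ?_⟩, ⟨h2.2, ?_, rfl, ?_⟩⟩ <;>
      linarith [h1.1, h2.1, h2.2]
  · -- h2 free
    subst r1 r2 r3 r4 r5
    have hd : d1 = 0 := by linarith
    subst hd
    have hg : g2 = 0 := by linarith
    subst hg
    have h1 := n1.rel (x := a1) (y := b + 0) (by simpa using E1)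
    have hb : b = 0 := by linarith [h1.2]
    subst hb
    have h2' := n6.rel (x := f2) (y := h2) (by simpa using E2)
    refine ⟨⟨h1.1, ?_, rfl, ?_⟩, ⟨rfl, rfl, rfl, ?_⟩, ⟨rfl, rfl, h2'.1, ?_⟩, ⟨rfl, ?_, h2'.2, rfl⟩⟩ <;>
      linarith [h1.1, h2'.1, h2'.2]
  · -- e5 free
    subst r1 r2 r3 r4 r5
    have hg : g2 = 0 := by linarith
    subst hg
    have h2' := n2.rel (x := f2) (y := b + 0) (by simpa using E2)
    have hb : b = 0 := by linarith [h2'.2]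
    subst hb
    have h1 := n3.rel (x := a1) (y := d1) (by simpa using E1)
    refine ⟨⟨h1.1, ?_, rfl, ?_⟩, ⟨rfl, rfl, h1.2, ?_⟩, ⟨rfl, ?_, h2'.1, ?_⟩, ⟨rfl, ?_, rfl, rfl⟩⟩ <;>
      linarith [h1.1, h1.2, h2'.1, h2'.2]
  · -- e1 free
    subst r1 r2 r3 r4 r5
    have hg : g2 = 0 := by linarith
    subst hg
    have hd : d1 = 0 := by linarith
    subst hd
    have h2' := n2.rel (x := f2) (y := b + 0) (by simpa using E2)
    have hb : b = 0 := by linarith [h2'.2]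
    subst hb
    have h1 := n4.rel (x := a1) (y := e1) (by simpa using E1)
    refine ⟨⟨h1.1, ?_, rfl, ?_⟩, ⟨rfl, rfl, rfl, ?_⟩, ⟨h1.2, rfl, h2'.1, ?_⟩, ⟨rfl, ?_, rfl, rfl⟩⟩ <;>
      linarith [h1.1, h1.2, h2'.1, h2'.2]
  · -- c' free
    subst r1 r2 r3 r4 r5
    have hg : g2 = 0 := by linarith
    subst hg
    have hd : d1 = 0 := by linarith
    subst hd
    have h1 := n1.rel (x := a1) (y := b + 0) (by simpa using E1)
    have hb : b = 0 := by linarith [h1.2]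
    subst hb
    have h2' := n2.rel (x := f2) (y := 0 + c') (by simpa using E2)
    have hc : c' = 0 := by linarith [h2'.2]
    refine ⟨⟨h1.1, ?_, rfl, ?_⟩, ⟨rfl, hc, rfl, ?_⟩, ⟨rfl, rfl, h2'.1, ?_⟩, ⟨rfl, ?_, rfl, rfl⟩⟩ <;>
      linarith [h1.1, h1.2, h2'.1, h2'.2]
  · -- c free
    subst r1 r2 r3 r4 r5
    have hg : g2 = 0 := by linarith
    subst hg
    have hd : d1 = 0 := by linarith
    subst hd
    have h2' := n2.rel (x := f2) (y := b + 0) (by simpa using E2)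
    have hb : b = 0 := by linarith [h2'.2]
    subst hb
    have h1 := n1.rel (x := a1) (y := 0 + c) (by simpa using E1)
    have hc : c = 0 := by linarith [h1.2]
    refine ⟨⟨h1.1, ?_, rfl, ?_⟩, ⟨hc, rfl, rfl, ?_⟩, ⟨rfl, rfl, h2'.1, ?_⟩, ⟨rfl, ?_, rfl, rfl⟩⟩ <;>
      linarith [h1.1, h1.2, h2'.1, h2'.2]

/-- EXPAND: weights with zero fibre sums vanish -/
theorem Hx.expand {ρ : V → E} (H : Hx G side v w) (R : Rh G side v w ρ) {ω : V → V → ℝ}
    (hsym : ∀ a b, ω a b = ω b a)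
    (h1 : ∀ u, u ≠ v 0 → u ≠ v 2 → u ≠ v 4 → u ≠ w 1 → u ≠ w 5 → ω (v 1) u = 0)
    (h5 : ∀ u, u ≠ v 0 → u ≠ v 2 → u ≠ v 4 → u ≠ w 1 → u ≠ w 5 → ω (v 5) u = 0)
    (h2 : ∀ u, u ≠ v 3 → u ≠ v 1 → u ≠ v 5 → u ≠ w 2 → u ≠ w 4 → ω (v 2) u = 0)
    (h4 : ∀ u, u ≠ v 3 → u ≠ v 1 → u ≠ v 5 → u ≠ w 2 → u ≠ w 4 → ω (v 4) u = 0)
    (E1 : ∑ u, ω (v 1) u • kap v w ρ u = 0) (E2 : ∑ u, ω (v 2) u • kap v w ρ u = 0)
    (hf : ∀ a b, pushW (stdQ v) ω a b = 0)
    (hl : (ω (v 1) (v 4) = 0 ∧ ω (v 5) (v 2) = 0 ∧ ω (v 1) (w 5) = 0 ∧ ω (v 5) (w 1) = 0 ∧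
        ω (v 2) (w 4) = 0) ∨
      (ω (v 1) (v 4) = 0 ∧ ω (v 5) (v 2) = 0 ∧ ω (v 1) (w 5) = 0 ∧ ω (v 5) (w 1) = 0 ∧
        ω (v 4) (w 2) = 0) ∨
      (ω (v 1) (v 4) = 0 ∧ ω (v 5) (v 2) = 0 ∧ ω (v 1) (w 5) = 0 ∧ ω (v 2) (w 4) = 0 ∧
        ω (v 4) (w 2) = 0) ∨
      (ω (v 1) (v 4) = 0 ∧ ω (v 5) (v 2) = 0 ∧ ω (v 5) (w 1) = 0 ∧ ω (v 2) (w 4) = 0 ∧
        ω (v 4) (w 2) = 0) ∨
      (ω (v 1) (v 4) = 0 ∧ ω (v 1) (w 5) = 0 ∧ ω (v 5) (w 1) = 0 ∧ ω (v 2) (w 4) = 0 ∧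
        ω (v 4) (w 2) = 0) ∨
      (ω (v 5) (v 2) = 0 ∧ ω (v 1) (w 5) = 0 ∧ ω (v 5) (w 1) = 0 ∧ ω (v 2) (w 4) = 0 ∧
        ω (v 4) (w 2) = 0)) :
    ∀ a b, ω a b = 0 := by
  classical
  have hv := H.vec R
  have hv2 := hv.vec2
  have F1 : ω (v 1) (v 0) • crossProduct (ρ (v 1)) (ρ (w 0)) +
      (ω (v 1) (v 2) + ω (v 1) (v 4)) • ρ (v 2) + ω (v 1) (w 1) • ρ (w 1) +
      ω (v 1) (w 5) • ρ (w 5) = 0 := by
    have h := E1
    rw [← Finset.sum_subset (Finset.subset_univ ({v 0, v 2, v 4, w 1, w 5} : Finset V))] at h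
    · rw [Finset.sum_insert, Finset.sum_insert, Finset.sum_insert, Finset.sum_pair] at h
      · rw [H.kap0, H.kap2, H.kap4, H.kapw, H.kapw] at h
        rw [← h, add_smul]
        abel
      · rw [Ne, H.wi]; decide
      · simp [H.vw]
      · simp [H.vw, H.vi]
      · simp [H.vw, H.vi]
    · intro u _ hu
      simp only [Finset.mem_insert, Finset.mem_singleton, not_or] at hu
      rw [h1 u hu.1 hu.2.1 hu.2.2.1 hu.2.2.2.1 hu.2.2.2.2, zero_smul]
  have F2 : ω (v 2) (v 3) • crossProduct (ρ (v 2)) (ρ (w 3)) +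
      (ω (v 1) (v 2) + ω (v 5) (v 2)) • ρ (v 1) + ω (v 2) (w 2) • ρ (w 2) +
      ω (v 2) (w 4) • ρ (w 4) = 0 := by
    have h := E2
    rw [← Finset.sum_subset (Finset.subset_univ ({v 3, v 1, v 5, w 2, w 4} : Finset V))] at h
    · rw [Finset.sum_insert, Finset.sum_insert, Finset.sum_insert, Finset.sum_pair] at h
      · rw [H.kap3, H.kap1, H.kap5, H.kapw, H.kapw] at h
        rw [← h, add_smul, hsym (v 1) (v 2), hsym (v 5) (v 2)]
        abel
      · rw [Ne, H.wi]; decide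
      · simp [H.vw]
      · simp [H.vw, H.vi]
      · simp [H.vw, H.vi]
    · intro u _ hu
      simp only [Finset.mem_insert, Finset.mem_singleton, not_or] at hu
      rw [h2 u hu.1 hu.2.1 hu.2.2.1 hu.2.2.2.1 hu.2.2.2.2, zero_smul]
  have key := exp_core (a5 := ω (v 5) (v 0)) (b' := ω (v 5) (v 4)) (d5 := ω (v 5) (w 5))
    (e5 := ω (v 5) (w 1)) (f4 := ω (v 4) (v 3)) (g4 := ω (v 4) (w 4)) (h4 := ω (v 4) (w 2))
    hv2.m0B hv2.m3A hv2.m01 hv2.m05 hv2.m32 hv2.m34 F1 F2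
    (by rw [← H.push_1s H.sing0]; exact hf _ _)
    (by rw [← H.push_12]; exact hf _ _)
    (by rw [← H.push_1s (H.singw 1)]; exact hf _ _)
    (by rw [← H.push_1s (H.singw 5)]; exact hf _ _)
    (by rw [← H.push_2s H.sing3]; exact hf _ _)
    (by rw [← H.push_2s (H.singw 2)]; exact hf _ _)
    (by rw [← H.push_2s (H.singw 4)]; exact hf _ _) hl
  obtain ⟨⟨k1, k2, k3, k4⟩, ⟨k5, k6, k7, k8⟩, ⟨k9, k10, k11, k12⟩, ⟨k13, k14, k15, k16⟩⟩ := key
  have z1 : ∀ u, ω (v 1) u = 0 := by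
    intro u
    by_cases e0 : u = v 0
    · subst e0; exact k1
    by_cases e1 : u = v 2
    · subst e1; exact k3
    by_cases e2 : u = v 4
    · subst e2; exact k5
    by_cases e3 : u = w 1
    · subst e3; exact k7
    by_cases e4 : u = w 5
    · subst e4; exact k9
    exact h1 u e0 e1 e2 e3 e4
  have z5 : ∀ u, ω (v 5) u = 0 := by
    intro u
    by_cases e0 : u = v 0
    · subst e0; exact k2
    by_cases e1 : u = v 2
    · subst e1; exact k6
    by_cases e2 : u = v 4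
    · subst e2; exact k4
    by_cases e3 : u = w 1
    · subst e3; exact k10
    by_cases e4 : u = w 5
    · subst e4; exact k8
    exact h5 u e0 e1 e2 e3 e4
  have z2 : ∀ u, ω (v 2) u = 0 := by
    intro u
    by_cases e0 : u = v 3
    · subst e0; exact k11
    by_cases e1 : u = v 1
    · subst e1; rw [hsym]; exact k3
    by_cases e2 : u = v 5
    · subst e2; rw [hsym]; exact k6
    by_cases e3 : u = w 2
    · subst e3; exact k13
    by_cases e4 : u = w 4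
    · subst e4; exact k15
    exact h2 u e0 e1 e2 e3 e4
  have z4 : ∀ u, ω (v 4) u = 0 := by
    intro u
    by_cases e0 : u = v 3
    · subst e0; exact k12
    by_cases e1 : u = v 1
    · subst e1; rw [hsym]; exact k5
    by_cases e2 : u = v 5
    · subst e2; rw [hsym]; exact k4
    by_cases e3 : u = w 2
    · subst e3; exact k16
    by_cases e4 : u = w 4
    · subst e4; exact k14
    exact h4 u e0 e1 e2 e3 e4
  have zz : ∀ a, ¬ Sing v a → ∀ b, ω a b = 0 := by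
    intro a ha b
    unfold Sing at ha
    by_cases e1 : a = v 1
    · rw [e1]; exact z1 b
    by_cases e2 : a = v 2
    · rw [e2]; exact z2 b
    by_cases e4 : a = v 4
    · rw [e4]; exact z4 b
    by_cases e5 : a = v 5
    · rw [e5]; exact z5 b
    exact absurd ⟨e1, e2, e4, e5⟩ ha
  intro a b
  by_cases ha : Sing v a
  · by_cases hb : Sing v b
    · rw [← push_ss (ω := ω) ha hb]; exact hf a b
    · rw [hsym]; exact zz b hb a
  · exact zz a ha b

end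

end SK
end N3
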