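import Pool.Agent.Lib_n3.StdKillA

/-!
# Module StdKill, part B: the kills
-/

open scoped Matrix Topology
open Finset

set_option linter.unusedSectionVars false
set_option linter.unusedVariables false

namespace N3
namespace SK

section
variable {V : Type} [Fintype V] [DecidableEq V]
variable {G : SimpleGraph V} {side : V → Bool} {v w : Fin 6 → V}

/-- the admissible loads -/
def Cs (v w : Fin 6 → V) (x y : V) : Prop :=
  (Sing v x ∧ Sing v y) ∨ (x = v 1 ∧ y = v 4) ∨ (x = v 5 ∧ y = v 2) ∨ (x = v 1 ∧ y = w 5) ∨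
    (x = v 5 ∧ y = w 1) ∨ (x = v 2 ∧ y = w 4) ∨ (x = v 4 ∧ y = w 2)

theorem Hx.expand2 {ρ : V → E} (H : Hx G side v w) (R : Rh G side v w ρ) {ω : V → V → ℝ} {x y : V}
    (hsym : ∀ a b, ω a b = ω b a)
    (hsup : ∀ a b, ω a b ≠ 0 → G.Adj a b ∨ (a = x ∧ b = y) ∨ (a = y ∧ b = x))
    (hE : ∀ a, ∑ u, ω a u • kap v w ρ u = 0) (hf : ∀ a b, pushW (stdQ v) ω a b = 0)
    (hc : Cs v w x y) : ∀ a b, ω a b = 0 := by
  have hz : ∀ a b, ¬ G.Adj a b → ¬ (a = x ∧ b = y) → ¬ (a = y ∧ b = x) → ω a b = 0 := by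
    intro a b h1 h2 h3
    by_contra hne
    rcases hsup a b hne with h | h | h
    · exact h1 h
    · exact h2 h
    · exact h3 h
  rcases hc with ⟨hx, hy⟩ | ⟨rfl, rfl⟩ | ⟨rfl, rfl⟩ | ⟨rfl, rfl⟩ | ⟨rfl, rfl⟩ | ⟨rfl, rfl⟩ | ⟨rfl, rfl⟩
  · obtain ⟨x1, x2, x4, x5⟩ := hx
    obtain ⟨y1, y2, y4, y5⟩ := hy
    have kx : ∀ u b, (u = v 1 ∨ u = v 2 ∨ u = v 4 ∨ u = v 5) → ¬ G.Adj u b → ω u b = 0 := by
      intro u b hu hn
      refine hz u b hn ?_ ?_
      · rintro ⟨h, -⟩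
        rcases hu with hu | hu | hu | hu
        · exact x1 (h.symm.trans hu)
        · exact x2 (h.symm.trans hu)
        · exact x4 (h.symm.trans hu)
        · exact x5 (h.symm.trans hu)
      · rintro ⟨h, -⟩
        rcases hu with hu | hu | hu | hu
        · exact y1 (h.symm.trans hu)
        · exact y2 (h.symm.trans hu)
        · exact y4 (h.symm.trans hu)
        · exact y5 (h.symm.trans hu)
    refine H.expand R hsym ?_ ?_ ?_ ?_ (hE _) (hE _) hf (Or.inl ⟨?_, ?_, ?_, ?_, ?_⟩)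
    · intro u a b c d e
      exact kx _ _ (Or.inl rfl) (by rw [H.nb1]; simp [a, b, c, d, e])
    · intro u a b c d e
      exact kx _ _ (by simp) (by rw [H.nb5]; simp [a, b, c, d, e])
    · intro u a b c d e
      exact kx _ _ (by simp) (by rw [H.nb2]; simp [a, b, c, d, e])
    · intro u a b c d e
      exact kx _ _ (by simp) (by rw [H.nb4]; simp [a, b, c, d, e])
    · exact kx _ _ (by simp) (by rw [H.nb1]; simp [H.vi, H.vw, H.wv, H.wi])
    · exact kx _ _ (by simp) (by rw [H.nb5]; simp [H.vi, H.vw, H.wv, H.wi])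
    · exact kx _ _ (by simp) (by rw [H.nb1]; simp [H.vi, H.vw, H.wv, H.wi])
    · exact kx _ _ (by simp) (by rw [H.nb5]; simp [H.vi, H.vw, H.wv, H.wi])
    · exact kx _ _ (by simp) (by rw [H.nb2]; simp [H.vi, H.vw, H.wv, H.wi])
  · refine H.expand R hsym ?_ ?_ ?_ ?_ (hE _) (hE _) hf
      (Or.inr (Or.inr (Or.inr (Or.inr (Or.inr ⟨?_, ?_, ?_, ?_, ?_⟩)))))
    · intro u a b c d e
      exact hz _ _ (by rw [H.nb1]; simp [a, b, c, d, e]) (by simp [H.vi, H.vw, H.wv, H.wi, a, b, c, d, e])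
        (by simp [H.vi, H.vw, H.wv, H.wi, a, b, c, d, e])
    · intro u a b c d e
      exact hz _ _ (by rw [H.nb5]; simp [a, b, c, d, e]) (by simp [H.vi, H.vw, H.wv, H.wi, a, b, c, d, e])
        (by simp [H.vi, H.vw, H.wv, H.wi, a, b, c, d, e])
    · intro u a b c d e
      exact hz _ _ (by rw [H.nb2]; simp [a, b, c, d, e]) (by simp [H.vi, H.vw, H.wv, H.wi, a, b, c, d, e])
        (by simp [H.vi, H.vw, H.wv, H.wi, a, b, c, d, e])
    · intro u a b c d e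
      exact hz _ _ (by rw [H.nb4]; simp [a, b, c, d, e]) (by simp [H.vi, H.vw, H.wv, H.wi, a, b, c, d, e])
        (by simp [H.vi, H.vw, H.wv, H.wi, a, b, c, d, e])
    · exact hz _ _ (by rw [H.nb5]; simp [H.vi, H.vw, H.wv, H.wi]) (by simp [H.vi, H.vw, H.wv, H.wi])
        (by simp [H.vi, H.vw, H.wv, H.wi])
    · exact hz _ _ (by rw [H.nb1]; simp [H.vi, H.vw, H.wv, H.wi]) (by simp [H.vi, H.vw, H.wv, H.wi])
        (by simp [H.vi, H.vw, H.wv, H.wi])
    · exact hz _ _ (by rw [H.nb5]; simp [H.vi, H.vw, H.wv, H.wi]) (by simp [H.vi, H.vw, H.wv, H.wi])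
        (by simp [H.vi, H.vw, H.wv, H.wi])
    · exact hz _ _ (by rw [H.nb2]; simp [H.vi, H.vw, H.wv, H.wi]) (by simp [H.vi, H.vw, H.wv, H.wi])
        (by simp [H.vi, H.vw, H.wv, H.wi])
    · exact hz _ _ (by rw [H.nb4]; simp [H.vi, H.vw, H.wv, H.wi]) (by simp [H.vi, H.vw, H.wv, H.wi])
        (by simp [H.vi, H.vw, H.wv, H.wi])
  · refine H.expand R hsym ?_ ?_ ?_ ?_ (hE _) (hE _) hf
      (Or.inr (Or.inr (Or.inr (Or.inr (Or.inl ⟨?_, ?_, ?_, ?_, ?_⟩)))))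
    · intro u a b c d e
      exact hz _ _ (by rw [H.nb1]; simp [a, b, c, d, e]) (by simp [H.vi, H.vw, H.wv, H.wi, a, b, c, d, e])
        (by simp [H.vi, H.vw, H.wv, H.wi, a, b, c, d, e])
    · intro u a b c d e
      exact hz _ _ (by rw [H.nb5]; simp [a, b, c, d, e]) (by simp [H.vi, H.vw, H.wv, H.wi, a, b, c, d, e])
        (by simp [H.vi, H.vw, H.wv, H.wi, a, b, c, d, e])
    · intro u a b c d e
      exact hz _ _ (by rw [H.nb2]; simp [a, b, c, d, e]) (by simp [H.vi, H.vw, H.wv, H.wi, a, b, c, d, e])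
        (by simp [H.vi, H.vw, H.wv, H.wi, a, b, c, d, e])
    · intro u a b c d e
      exact hz _ _ (by rw [H.nb4]; simp [a, b, c, d, e]) (by simp [H.vi, H.vw, H.wv, H.wi, a, b, c, d, e])
        (by simp [H.vi, H.vw, H.wv, H.wi, a, b, c, d, e])
    · exact hz _ _ (by rw [H.nb1]; simp [H.vi, H.vw, H.wv, H.wi]) (by simp [H.vi, H.vw, H.wv, H.wi])
        (by simp [H.vi, H.vw, H.wv, H.wi])
    · exact hz _ _ (by rw [H.nb1]; simp [H.vi, H.vw, H.wv, H.wi]) (by simp [H.vi, H.vw, H.wv, H.wi])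
        (by simp [H.vi, H.vw, H.wv, H.wi])
    · exact hz _ _ (by rw [H.nb5]; simp [H.vi, H.vw, H.wv, H.wi]) (by simp [H.vi, H.vw, H.wv, H.wi])
        (by simp [H.vi, H.vw, H.wv, H.wi])
    · exact hz _ _ (by rw [H.nb2]; simp [H.vi, H.vw, H.wv, H.wi]) (by simp [H.vi, H.vw, H.wv, H.wi])
        (by simp [H.vi, H.vw, H.wv, H.wi])
    · exact hz _ _ (by rw [H.nb4]; simp [H.vi, H.vw, H.wv, H.wi]) (by simp [H.vi, H.vw, H.wv, H.wi])
        (by simp [H.vi, H.vw, H.wv, H.wi])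
  · refine H.expand R hsym ?_ ?_ ?_ ?_ (hE _) (hE _) hf
      (Or.inr (Or.inr (Or.inr (Or.inl ⟨?_, ?_, ?_, ?_, ?_⟩))))
    · intro u a b c d e
      exact hz _ _ (by rw [H.nb1]; simp [a, b, c, d, e]) (by simp [H.vi, H.vw, H.wv, H.wi, a, b, c, d, e])
        (by simp [H.vi, H.vw, H.wv, H.wi, a, b, c, d, e])
    · intro u a b c d e
      exact hz _ _ (by rw [H.nb5]; simp [a, b, c, d, e]) (by simp [H.vi, H.vw, H.wv, H.wi, a, b, c, d, e])
        (by simp [H.vi, H.vw, H.wv, H.wi, a, b, c, d, e])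
    · intro u a b c d e
      exact hz _ _ (by rw [H.nb2]; simp [a, b, c, d, e]) (by simp [H.vi, H.vw, H.wv, H.wi, a, b, c, d, e])
        (by simp [H.vi, H.vw, H.wv, H.wi, a, b, c, d, e])
    · intro u a b c d e
      exact hz _ _ (by rw [H.nb4]; simp [a, b, c, d, e]) (by simp [H.vi, H.vw, H.wv, H.wi, a, b, c, d, e])
        (by simp [H.vi, H.vw, H.wv, H.wi, a, b, c, d, e])
    · exact hz _ _ (by rw [H.nb1]; simp [H.vi, H.vw, H.wv, H.wi]) (by simp [H.vi, H.vw, H.wv, H.wi])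
        (by simp [H.vi, H.vw, H.wv, H.wi])
    · exact hz _ _ (by rw [H.nb5]; simp [H.vi, H.vw, H.wv, H.wi]) (by simp [H.vi, H.vw, H.wv, H.wi])
        (by simp [H.vi, H.vw, H.wv, H.wi])
    · exact hz _ _ (by rw [H.nb5]; simp [H.vi, H.vw, H.wv, H.wi]) (by simp [H.vi, H.vw, H.wv, H.wi])
        (by simp [H.vi, H.vw, H.wv, H.wi])
    · exact hz _ _ (by rw [H.nb2]; simp [H.vi, H.vw, H.wv, H.wi]) (by simp [H.vi, H.vw, H.wv, H.wi])
        (by simp [H.vi, H.vw, H.wv, H.wi])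
    · exact hz _ _ (by rw [H.nb4]; simp [H.vi, H.vw, H.wv, H.wi]) (by simp [H.vi, H.vw, H.wv, H.wi])
        (by simp [H.vi, H.vw, H.wv, H.wi])
  · refine H.expand R hsym ?_ ?_ ?_ ?_ (hE _) (hE _) hf
      (Or.inr (Or.inr (Or.inl ⟨?_, ?_, ?_, ?_, ?_⟩)))
    · intro u a b c d e
      exact hz _ _ (by rw [H.nb1]; simp [a, b, c, d, e]) (by simp [H.vi, H.vw, H.wv, H.wi, a, b, c, d, e])
        (by simp [H.vi, H.vw, H.wv, H.wi, a, b, c, d, e])
    · intro u a b c d e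
      exact hz _ _ (by rw [H.nb5]; simp [a, b, c, d, e]) (by simp [H.vi, H.vw, H.wv, H.wi, a, b, c, d, e])
        (by simp [H.vi, H.vw, H.wv, H.wi, a, b, c, d, e])
    · intro u a b c d e
      exact hz _ _ (by rw [H.nb2]; simp [a, b, c, d, e]) (by simp [H.vi, H.vw, H.wv, H.wi, a, b, c, d, e])
        (by simp [H.vi, H.vw, H.wv, H.wi, a, b, c, d, e])
    · intro u a b c d e
      exact hz _ _ (by rw [H.nb4]; simp [a, b, c, d, e]) (by simp [H.vi, H.vw, H.wv, H.wi, a, b, c, d, e])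
        (by simp [H.vi, H.vw, H.wv, H.wi, a, b, c, d, e])
    · exact hz _ _ (by rw [H.nb1]; simp [H.vi, H.vw, H.wv, H.wi]) (by simp [H.vi, H.vw, H.wv, H.wi])
        (by simp [H.vi, H.vw, H.wv, H.wi])
    · exact hz _ _ (by rw [H.nb5]; simp [H.vi, H.vw, H.wv, H.wi]) (by simp [H.vi, H.vw, H.wv, H.wi])
        (by simp [H.vi, H.vw, H.wv, H.wi])
    · exact hz _ _ (by rw [H.nb1]; simp [H.vi, H.vw, H.wv, H.wi]) (by simp [H.vi, H.vw, H.wv, H.wi])
        (by simp [H.vi, H.vw, H.wv, H.wi])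
    · exact hz _ _ (by rw [H.nb2]; simp [H.vi, H.vw, H.wv, H.wi]) (by simp [H.vi, H.vw, H.wv, H.wi])
        (by simp [H.vi, H.vw, H.wv, H.wi])
    · exact hz _ _ (by rw [H.nb4]; simp [H.vi, H.vw, H.wv, H.wi]) (by simp [H.vi, H.vw, H.wv, H.wi])
        (by simp [H.vi, H.vw, H.wv, H.wi])
  · refine H.expand R hsym ?_ ?_ ?_ ?_ (hE _) (hE _) hf
      (Or.inr (Or.inl ⟨?_, ?_, ?_, ?_, ?_⟩))
    · intro u a b c d e
      exact hz _ _ (by rw [H.nb1]; simp [a, b, c, d, e]) (by simp [H.vi, H.vw, H.wv, H.wi, a, b, c, d, e])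
        (by simp [H.vi, H.vw, H.wv, H.wi, a, b, c, d, e])
    · intro u a b c d e
      exact hz _ _ (by rw [H.nb5]; simp [a, b, c, d, e]) (by simp [H.vi, H.vw, H.wv, H.wi, a, b, c, d, e])
        (by simp [H.vi, H.vw, H.wv, H.wi, a, b, c, d, e])
    · intro u a b c d e
      exact hz _ _ (by rw [H.nb2]; simp [a, b, c, d, e]) (by simp [H.vi, H.vw, H.wv, H.wi, a, b, c, d, e])
        (by simp [H.vi, H.vw, H.wv, H.wi, a, b, c, d, e])
    · intro u a b c d e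
      exact hz _ _ (by rw [H.nb4]; simp [a, b, c, d, e]) (by simp [H.vi, H.vw, H.wv, H.wi, a, b, c, d, e])
        (by simp [H.vi, H.vw, H.wv, H.wi, a, b, c, d, e])
    · exact hz _ _ (by rw [H.nb1]; simp [H.vi, H.vw, H.wv, H.wi]) (by simp [H.vi, H.vw, H.wv, H.wi])
        (by simp [H.vi, H.vw, H.wv, H.wi])
    · exact hz _ _ (by rw [H.nb5]; simp [H.vi, H.vw, H.wv, H.wi]) (by simp [H.vi, H.vw, H.wv, H.wi])
        (by simp [H.vi, H.vw, H.wv, H.wi])
    · exact hz _ _ (by rw [H.nb1]; simp [H.vi, H.vw, H.wv, H.wi]) (by simp [H.vi, H.vw, H.wv, H.wi])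
        (by simp [H.vi, H.vw, H.wv, H.wi])
    · exact hz _ _ (by rw [H.nb5]; simp [H.vi, H.vw, H.wv, H.wi]) (by simp [H.vi, H.vw, H.wv, H.wi])
        (by simp [H.vi, H.vw, H.wv, H.wi])
    · exact hz _ _ (by rw [H.nb4]; simp [H.vi, H.vw, H.wv, H.wi]) (by simp [H.vi, H.vw, H.wv, H.wi])
        (by simp [H.vi, H.vw, H.wv, H.wi])
  · refine H.expand R hsym ?_ ?_ ?_ ?_ (hE _) (hE _) hf
      (Or.inl ⟨?_, ?_, ?_, ?_, ?_⟩)
    · intro u a b c d e
      exact hz _ _ (by rw [H.nb1]; simp [a, b, c, d, e]) (by simp [H.vi, H.vw, H.wv, H.wi, a, b, c, d, e])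
        (by simp [H.vi, H.vw, H.wv, H.wi, a, b, c, d, e])
    · intro u a b c d e
      exact hz _ _ (by rw [H.nb5]; simp [a, b, c, d, e]) (by simp [H.vi, H.vw, H.wv, H.wi, a, b, c, d, e])
        (by simp [H.vi, H.vw, H.wv, H.wi, a, b, c, d, e])
    · intro u a b c d e
      exact hz _ _ (by rw [H.nb2]; simp [a, b, c, d, e]) (by simp [H.vi, H.vw, H.wv, H.wi, a, b, c, d, e])
        (by simp [H.vi, H.vw, H.wv, H.wi, a, b, c, d, e])
    · intro u a b c d e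
      exact hz _ _ (by rw [H.nb4]; simp [a, b, c, d, e]) (by simp [H.vi, H.vw, H.wv, H.wi, a, b, c, d, e])
        (by simp [H.vi, H.vw, H.wv, H.wi, a, b, c, d, e])
    · exact hz _ _ (by rw [H.nb1]; simp [H.vi, H.vw, H.wv, H.wi]) (by simp [H.vi, H.vw, H.wv, H.wi])
        (by simp [H.vi, H.vw, H.wv, H.wi])
    · exact hz _ _ (by rw [H.nb5]; simp [H.vi, H.vw, H.wv, H.wi]) (by simp [H.vi, H.vw, H.wv, H.wi])
        (by simp [H.vi, H.vw, H.wv, H.wi])
    · exact hz _ _ (by rw [H.nb1]; simp [H.vi, H.vw, H.wv, H.wi]) (by simp [H.vi, H.vw, H.wv, H.wi])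
        (by simp [H.vi, H.vw, H.wv, H.wi])
    · exact hz _ _ (by rw [H.nb5]; simp [H.vi, H.vw, H.wv, H.wi]) (by simp [H.vi, H.vw, H.wv, H.wi])
        (by simp [H.vi, H.vw, H.wv, H.wi])
    · exact hz _ _ (by rw [H.nb2]; simp [H.vi, H.vw, H.wv, H.wi]) (by simp [H.vi, H.vw, H.wv, H.wi])
        (by simp [H.vi, H.vw, H.wv, H.wi])

theorem Hx.not_q03 (H : Hx G side v w) (h03 : ¬ G.Adj (w 0) (w 3)) :
    ¬ (quot G (stdQ v)).Adj (w 0) (w 3) := fun h => h03 (H.qn_ww h)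

/-- stresses of the quotient vanish -/
theorem Hx.quot_free {ρ : V → E} (H : Hx G side v w) (R : Rh G side v w ρ)
    (h03 : ¬ G.Adj (w 0) (w 3)) : StressFree (quot G (stdQ v)) (rhoX v w ρ) := by
  intro τ hτ
  have hsupp : ∀ a b, τ a b ≠ 0 → (quot G (stdQ v)).Adj a b := by
    intro a b hne
    by_contra hc
    exact hne (hτ.2.1 a b hc)
  have h := (H.red R hτ.1 (fun a b hne => Or.inl (hsupp a b hne)) hτ.2.2).2.2
  have h0 : τ (w 0) (w 3) = 0 := hτ.2.1 _ _ (H.not_q03 h03)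
  exact R.free τ (h.of_addE h0)

theorem addE_sup {F : SimpleGraph V} {x y : V} {ρ : V → E} {ω : V → V → ℝ}
    (h : Stress (addE F x y) ρ ω) :
    ∀ a b, ω a b ≠ 0 → F.Adj a b ∨ (a = x ∧ b = y) ∨ (a = y ∧ b = x) := by
  intro a b hne
  by_contra hc
  push Not at hc
  apply hne
  apply h.2.1
  rw [addE_adj]
  rintro (h1 | ⟨⟨h1, h2⟩ | ⟨h1, h2⟩, -⟩)
  · exact hc.1 h1
  · exact hc.2.1 h1 h2
  · exact hc.2.2 h1 h2

/-- the collapsed pairs are killed -/
theorem Hx.kill_col {ρ : V → E} (H : Hx G side v w) (R : Rh G side v w ρ)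
    (h03 : ¬ G.Adj (w 0) (w 3)) {x y : V} (hxy : (quot G (stdQ v)).Adj (stdQ v x) (stdQ v y))
    (hc : Cs v w x y) : StressFree (addE G x y) (kap v w ρ) := by
  intro ω hω
  refine H.expand2 R hω.1 (addE_sup hω) hω.2.2 ?_ hc
  refine H.quot_free R h03 (pushW (stdQ v) ω) (pushGen (F := addE G x y) ?_ hω)
  intro a b hab
  rw [addE_adj] at hab
  rcases hab with hab | ⟨⟨rfl, rfl⟩ | ⟨rfl, rfl⟩, -⟩
  · exact quot_adj H.bip H.side_q hab
  · exact hxy
  · exact hxy.symm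

/-- `G` itself is stress-free -/
theorem Hx.free_G {ρ : V → E} (H : Hx G side v w) (R : Rh G side v w ρ)
    (h03 : ¬ G.Adj (w 0) (w 3)) : StressFree G (kap v w ρ) := by
  intro ω hω
  refine H.expand2 (x := v 0) (y := w 0) R hω.1 ?_ hω.2.2 ?_ (Or.inl ⟨H.sing0, H.singw 0⟩)
  · intro a b hne
    left
    by_contra hc
    exact hne (hω.2.1 a b hc)
  · exact H.quot_free R h03 (pushW (stdQ v) ω)
      (pushGen (F := G) (fun a b hab => quot_adj H.bip H.side_q hab) hω)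

/-- `G` without the edge `v 5 v 0` -/
def delE (G : SimpleGraph V) (v : Fin 6 → V) : SimpleGraph V where
  Adj a b := G.Adj a b ∧ ¬ (a = v 5 ∧ b = v 0) ∧ ¬ (a = v 0 ∧ b = v 5)
  symm := ⟨fun a b h => ⟨h.1.symm, fun h' => h.2.2 ⟨h'.2, h'.1⟩, fun h' => h.2.1 ⟨h'.2, h'.1⟩⟩⟩
  loopless := ⟨fun a h => h.1.ne rfl⟩

theorem Hx.addE_delE (H : Hx G side v w) : addE (delE G v) (v 5) (v 0) = G := by
  ext a b
  rw [addE_adj]
  constructor
  · rintro (h | ⟨⟨rfl, rfl⟩ | ⟨rfl, rfl⟩, -⟩)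
    · exact h.1
    · exact (H.nb5 _).2 (Or.inl rfl)
    · exact (H.nb0 _).2 (Or.inr (Or.inl rfl))
  · intro h
    by_cases h1 : a = v 5 ∧ b = v 0
    · exact Or.inr ⟨Or.inl h1, by rw [Ne, H.vi]; decide⟩
    · by_cases h2 : a = v 0 ∧ b = v 5
      · exact Or.inr ⟨Or.inr h2, by rw [Ne, H.vi]; decide⟩
      · exact Or.inl ⟨h, h1, h2⟩

/-- `addE (delE G v) (w 0) (w 3)` is stress-free, by `core` -/
theorem Hx.free_w {ρ : V → E} (H : Hx G side v w) (R : Rh G side v w ρ)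
    (hcore : ∀ τ, Stress (addE (stdK G v) (w 0) (w 3)) ρ τ → τ (v 1) (w 1) = 0 →
      ∀ a b, τ a b = 0) : StressFree (addE (delE G v) (w 0) (w 3)) (kap v w ρ) := by
  classical
  intro ω hω
  have hv := H.vec R
  have hv2 := hv.vec2
  have hsup := addE_sup hω
  have h50 : ω (v 5) (v 0) = 0 := by
    by_contra hne
    rcases hsup _ _ hne with h | ⟨h, -⟩ | ⟨h, -⟩
    · exact h.2.1 ⟨rfl, rfl⟩
    · exact H.vw _ _ h
    · exact H.vw _ _ h
  have hsup2 : ∀ a b, ω a b ≠ 0 → G.Adj a b ∨ (a = w 0 ∧ b = w 3) ∨ (a = w 3 ∧ b = w 0) := by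
    intro a b hne
    rcases hsup a b hne with h | h | h
    · exact Or.inl h.1
    · exact Or.inr (Or.inl h)
    · exact Or.inr (Or.inr h)
  refine H.expand2 R hω.1 hsup2 hω.2.2 ?_ (Or.inl ⟨H.singw 0, H.singw 3⟩)
  -- the fibre sums
  have hst : Stress (addE (quot G (stdQ v)) (w 0) (w 3)) (rhoX v w ρ) (pushW (stdQ v) ω) := by
    refine pushGen (F := addE (delE G v) (w 0) (w 3)) ?_ hω
    intro a b hab
    rw [addE_adj] at hab ⊢
    rcases hab with hab | ⟨⟨rfl, rfl⟩ | ⟨rfl, rfl⟩, -⟩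
    · exact Or.inl (quot_adj H.bip H.side_q hab.1)
    · rw [H.qw, H.qw]
      exact Or.inr ⟨Or.inl ⟨rfl, rfl⟩, by rw [Ne, H.wi]; decide⟩
    · rw [H.qw, H.qw]
      exact Or.inr ⟨Or.inr ⟨rfl, rfl⟩, by rw [Ne, H.wi]; decide⟩
  obtain ⟨hz0, hz3, hst2⟩ := H.red R hst.1 (addE_sup hst) hst.2.2
  refine hcore _ hst2 ?_
  have h10 : ω (v 1) (v 0) = 0 := by
    have h1 := hz0 (v 1)
    rw [hst.1, H.push_1s H.sing0, h50, add_zero] at h1
    exact h1
  have h1 := hω.2.2 (v 1)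
  rw [← Finset.sum_subset (Finset.subset_univ ({v 0, v 2, w 1} : Finset V))] at h1
  · rw [Finset.sum_insert, Finset.sum_pair, h10, zero_smul, zero_add, H.kap2, H.kapw] at h1
    · have h2 := (hv.nB1.rel h1).2
      rw [H.push_1s (H.singw 1), h2, zero_add]
      by_contra hne
      rcases hsup2 _ _ hne with h | ⟨h, -⟩ | ⟨h, -⟩
      · rw [H.nb5] at h
        simp [H.wv, H.wi] at h
      · exact H.vw _ _ h
      · exact H.vw _ _ h
    · exact H.vw _ _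
    · simp [H.vw, H.vi]
  · intro u _ hu
    simp only [Finset.mem_insert, Finset.mem_singleton, not_or] at hu
    have : ω (v 1) u = 0 := by
      by_contra hne
      rcases hsup2 _ _ hne with h | ⟨h, -⟩ | ⟨h, -⟩
      · rw [H.nb1] at h
        rcases h with h | h | h
        · exact hu.2.1 h
        · exact hu.1 h
        · exact hu.2.2 h
      · exact H.vw _ _ h
      · exact H.vw _ _ h
    rw [this, zero_smul]

end

end SK
end N3
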