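import Pool.Agent.Lib_n3.StdKillB

/-!
# Module StdKill, part C: the pairs `(v 0, z)`
-/

open scoped Matrix Topology
open Finset

set_option linter.unusedSectionVars false
set_option linter.unusedVariables false

namespace N3
namespace SK

section
variable {V : Type} [Fintype V] [DecidableEq V]
variable {G : SimpleGraph V} {side : V → Bool} {v w : Fin 6 → V}

/-- neighbours outside `A` -/
theorem dg_zero {G : SimpleGraph V} {A : Finset V} {u : V} (h : ∀ n, G.Adj u n → n ∈ A) :
    dg G Aᶜ u = 0 := by
  classical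
  unfold dg
  rw [Finset.card_eq_zero, Finset.filter_eq_empty_iff]
  intro n hn hadj
  rw [Finset.mem_compl] at hn
  exact hn (h n hadj)

theorem dg_le_one {G : SimpleGraph V} {A : Finset V} {u x : V} (h : ∀ n, G.Adj u n → n ∈ A ∨ n = x) :
    dg G Aᶜ u ≤ 1 := by
  classical
  unfold dg
  rw [Finset.card_le_one]
  intro a ha b hb
  rw [Finset.mem_filter, Finset.mem_compl] at ha hb
  have h1 := (h a ha.2).resolve_left ha.1
  have h2 := (h b hb.2).resolve_left hb.1
  rw [h1, h2]

theorem cut_le {G : SimpleGraph V} {A B : Finset V}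
    (h : ∀ u ∈ A, u ∉ B → ∀ n, G.Adj u n → n ∈ A) : cut G A ≤ ∑ u ∈ B, dg G Aᶜ u := by
  classical
  unfold cut ed
  have h1 : ∑ u ∈ A, dg G Aᶜ u = ∑ u ∈ A ∩ B, dg G Aᶜ u := by
    symm
    refine Finset.sum_subset Finset.inter_subset_left ?_
    intro u hu hn
    rw [Finset.mem_inter, not_and] at hn
    exact dg_zero (h u hu (hn hu))
  rw [h1]
  exact Finset.sum_le_sum_of_subset Finset.inter_subset_right

theorem three_le {A : Finset V} {a b c : V} (ha : a ∈ A) (hb : b ∈ A) (hc : c ∈ A) (hab : a ≠ b)
    (hac : a ≠ c) (hbc : b ≠ c) : 3 ≤ A.card := by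
  have h : ({a, b, c} : Finset V) ⊆ A := by
    intro x hx
    simp only [mem_insert, mem_singleton] at hx
    rcases hx with rfl | rfl | rfl
    · exact ha
    · exact hb
    · exact hc
  have h3 : ({a, b, c} : Finset V).card = 3 := Finset.card_eq_three.2 ⟨a, b, c, hab, hac, hbc, rfl⟩
  rw [← h3]
  exact Finset.card_le_card h

/-- the changed realization is separated -/
theorem Hx.sepX {ρ : V → E} (H : Hx G side v w) (R : Rh G side v w ρ) :
    Sep side (rhoX v w ρ) := by
  have hv := H.vec R
  have hv2 := hv.vec2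
  have ss : ∀ {a b : V}, side a = side (v 0) → side b = (!side (v 0)) → side a ≠ side b := by
    intro a b h1 h2
    rw [h1, h2]
    cases side (v 0) <;> decide
  -- at `v 0`
  have c0 : ∀ u, u ≠ v 0 → side u = side (v 0) →
      Np (crossProduct (ρ (v 1)) (ρ (w 0))) (ρ u) := by
    intro u hu hs
    by_contra hn
    obtain ⟨c, hc⟩ := exists_smul_of_not_np hv2.z0 hn
    have hA : ρ u ⬝ᵥ ρ (v 1) = 0 := by
      rw [hc, smul_dotProduct, dotProduct_comm, hv2.o0A, smul_zero]
    have hW : ρ u ⬝ᵥ ρ (w 0) = 0 := by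
      rw [hc, smul_dotProduct, dotProduct_comm, hv2.o0W, smul_zero]
    have hadj : (stdK G v).Adj u (v 1) := by
      by_contra hk
      refine R.exact _ _ (ss hs H.s1) hk ?_ hA
      simp [H.vw, H.wv]
    rcases H.qn1 (kadj.1 hadj).1.symm with rfl | rfl | rfl | rfl
    · exact hu rfl
    · exact hv.BW0 hW
    · exact hv.W01 (by rw [dotProduct_comm]; exact hW)
    · exact hv.W05 (by rw [dotProduct_comm]; exact hW)
  have c3 : ∀ u, u ≠ v 3 → side u = side (v 3) →
      Np (crossProduct (ρ (v 2)) (ρ (w 3))) (ρ u) := by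
    intro u hu hs
    by_contra hn
    obtain ⟨c, hc⟩ := exists_smul_of_not_np hv2.z3 hn
    have hA : ρ u ⬝ᵥ ρ (v 2) = 0 := by
      rw [hc, smul_dotProduct, dotProduct_comm, hv2.o3B, smul_zero]
    have hW : ρ u ⬝ᵥ ρ (w 3) = 0 := by
      rw [hc, smul_dotProduct, dotProduct_comm, hv2.o3W, smul_zero]
    have hadj : (stdK G v).Adj u (v 2) := by
      by_contra hk
      refine R.exact _ _ (ss H.s2 (hs.trans H.s3)).symm hk ?_ hA
      simp [H.vw, H.wv]
    rcases H.qn2 (kadj.1 hadj).1.symm with rfl | rfl | rfl | rfl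
    · exact hu rfl
    · exact hv.AW3 hW
    · exact hv.W32 (by rw [dotProduct_comm]; exact hW)
    · exact hv.W34 (by rw [dotProduct_comm]; exact hW)
  have s03 : side (v 0) ≠ side (v 3) := ss rfl H.s3
  constructor
  · intro u
    by_cases h0 : u = v 0
    · subst h0; rw [rhoX0]; exact hv2.z0
    by_cases h3 : u = v 3
    · subst h3; rw [H.rhoX3]; exact hv2.z3
    rw [rhoX_other ρ h0 h3]; exact R.sep.1 u
  · intro a b hab hs
    by_cases ha0 : a = v 0
    · subst ha0
      have hb3 : b ≠ v 3 := by rintro rfl; exact s03 hs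
      rw [rhoX0, rhoX_other ρ hab.symm hb3]
      exact c0 b hab.symm hs.symm
    by_cases ha3 : a = v 3
    · subst ha3
      have hb0 : b ≠ v 0 := by rintro rfl; exact s03 hs.symm
      rw [H.rhoX3, rhoX_other ρ hb0 hab.symm]
      exact c3 b hab.symm hs.symm
    by_cases hb0 : b = v 0
    · subst hb0
      rw [rhoX0, rhoX_other ρ ha0 ha3]
      exact (c0 a ha0 hs).symm
    by_cases hb3 : b = v 3
    · subst hb3
      rw [H.rhoX3, rhoX_other ρ ha0 ha3]
      exact (c3 a ha3 hs).symm
    rw [rhoX_other ρ ha0 ha3, rhoX_other ρ hb0 hb3]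
    exact R.sep.2 a b hab hs

/-- three nonzero weights in a small set -/
theorem sub_all {N : Finset V} {a b c : V} (h3 : 3 ≤ N.card) (hs : ∀ x ∈ N, x = a ∨ x = b ∨ x = c) :
    a ∈ N ∧ b ∈ N ∧ c ∈ N := by
  have hsub : N ⊆ {a, b, c} := by
    intro x hx
    simpa using hs x hx
  have hc : ({a, b, c} : Finset V).card ≤ 3 := Finset.card_le_three
  have heq := Finset.eq_of_subset_of_card_le hsub (by omega)
  rw [heq]
  simp

/-- COUNTING: the load `(v 0, z)` cannot be in the support -/
theorem Hx.count {ρ : V → E} (H : Hx G side v w) (R : Rh G side v w ρ) {z : V}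
    (hz : ∀ i, z ≠ v i) (hzw : z ≠ w 0) (hzs : side z = !side (v 0)) {τ : V → V → ℝ}
    (hτ : Stress (addE (quot G (stdQ v)) (v 0) z) (rhoX v w ρ) τ) : τ (v 0) z = 0 := by
  classical
  by_contra hne
  have hv := H.vec R
  have hsup := addE_sup hτ
  have hsym := hτ.1
  have d : ∀ i j : Fin 6, i ≠ j → v i ≠ v j := fun i j h => by rw [Ne, H.vi]; exact h
  have hzS : Sing v z := ⟨hz _, hz _, hz _, hz _⟩
  have ss : ∀ {a b : V}, side a = side (v 0) → side b = (!side (v 0)) → side a ≠ side b := by
    intro a b h1 h2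
    rw [h1, h2]
    cases side (v 0) <;> decide
  -- `v 3` is not in the support
  have e3 : ∀ b, b ≠ v 2 → b ≠ w 3 → τ (v 3) b = 0 := by
    intro b h1 h2
    by_contra hn
    rcases hsup _ _ hn with h | ⟨h, -⟩ | ⟨h, -⟩
    · rcases H.qn3 h with h | h
      · exact h1 h
      · exact h2 h
    · exact d 3 0 (by decide) h
    · exact hz _ h.symm
  have t3 : ∀ b, τ (v 3) b = 0 := by
    have s3 : τ (v 3) (v 2) • ρ (v 2) + τ (v 3) (w 3) • ρ (w 3) = 0 := by
      have h := hτ.2.2 (v 3)
      rw [← Finset.sum_subset (Finset.subset_univ ({v 2, w 3} : Finset V))] at h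
      · rw [Finset.sum_pair (H.vw _ _)] at h
        rwa [rhoX_other, rhoX_other] at h
        · exact H.wv _ _
        · exact H.wv _ _
        · exact d _ _ (by decide)
        · exact d _ _ (by decide)
      · intro b _ hb
        simp only [Finset.mem_insert, Finset.mem_singleton, not_or] at hb
        rw [e3 b hb.1 hb.2, zero_smul]
    intro b
    by_cases h1 : b = v 2
    · subst h1; exact (hv.nB3.rel s3).1
    by_cases h2 : b = w 3
    · subst h2; exact (hv.nB3.rel s3).2
    exact e3 b h1 h2
  have hbip : Bip (addE (quot G (stdQ v)) (v 0) z) side :=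
    (quot_bip H.bip H.side_q).addE (ss rfl hzs)
  -- the support
  let S : V → Prop := fun a => ∃ b, τ a b ≠ 0
  let N : V → Finset V := fun a => univ.filter (fun b => τ a b ≠ 0)
  have memN : ∀ {a b}, b ∈ N a ↔ τ a b ≠ 0 := by
    intro a b; simp [N]
  have hN3 : ∀ a, S a → 3 ≤ (N a).card := by
    rintro a ⟨b, hb⟩
    exact core V _ side _ hbip (H.sepX R) τ hτ a b hb
  have hS : ∀ {a b}, b ∈ N a → S b := by
    intro a b hb
    rw [memN, hsym] at hb
    exact ⟨a, hb⟩
  have hS3 : ¬ S (v 3) := fun ⟨b, hb⟩ => hb (t3 b)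
  have hN_ne3 : ∀ {a}, v 3 ∉ N a := fun h => hS3 (hS h)
  have hS0 : S (v 0) := ⟨z, hne⟩
  have hN0 : ∀ x ∈ N (v 0), x = v 1 ∨ x = w 0 ∨ x = z := by
    intro x hx
    rcases hsup _ _ (memN.1 hx) with h | ⟨-, h⟩ | ⟨h, -⟩
    · rcases H.qn0 h with h | h
      · exact Or.inl h
      · exact Or.inr (Or.inl h)
    · exact Or.inr (Or.inr h)
    · exact absurd h.symm (hz _)
  obtain ⟨m1, m2, m3⟩ := sub_all (hN3 _ hS0) hN0
  have S1 : S (v 1) := hS m1
  have Sw0 : S (w 0) := hS m2
  have Sz : S z := hS m3
  -- generic vertices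
  have gen : ∀ a, Sing v a → a ≠ v 0 → a ≠ z → S a → ∀ n, G.Adj a n → S (stdQ v n) := by
    intro a ha ha0 haz hSa n hn
    let Ng : Finset V := univ.filter (fun x => G.Adj a x)
    have hNg : Ng.card = 3 := by
      have := H.cubic a
      unfold dg at this
      convert this
    have hsub : N a ⊆ Ng.image (stdQ v) := by
      intro b hb
      rcases hsup _ _ (memN.1 hb) with h | ⟨h, -⟩ | ⟨h, -⟩
      · obtain ⟨n', hn', hq⟩ := H.qn_sing ha h
        rw [Finset.mem_image]
        exact ⟨n', by simp [Ng, hn'], hq⟩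
      · exact absurd h ha0
      · exact absurd h haz
    have hle : (Ng.image (stdQ v)).card ≤ (N a).card :=
      le_trans Finset.card_image_le (by rw [hNg]; exact hN3 a hSa)
    have heq := Finset.eq_of_subset_of_card_le hsub hle
    apply hS (a := a)
    rw [heq, Finset.mem_image]
    exact ⟨n, by simp [Ng, hn], rfl⟩
  -- at `z`
  have atz : ∀ A : Finset V, (∀ u, S (stdQ v u) → u ∈ A) → dg G Aᶜ z ≤ 1 := by
    intro A hA
    let Ng : Finset V := univ.filter (fun x => G.Adj z x)
    have hNg : Ng.card = 3 := by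
      have := H.cubic z
      unfold dg at this
      convert this
    have hsub : (N z).erase (v 0) ⊆ (Ng.filter (fun x => x ∈ A)).image (stdQ v) := by
      intro b hb
      rw [Finset.mem_erase] at hb
      rcases hsup _ _ (memN.1 hb.2) with h | ⟨h, -⟩ | ⟨-, h⟩
      · obtain ⟨n', hn', hq⟩ := H.qn_sing hzS h
        rw [Finset.mem_image]
        refine ⟨n', ?_, hq⟩
        rw [Finset.mem_filter]
        refine ⟨by simp [Ng, hn'], hA _ ?_⟩
        rw [hq]; exact hS hb.2
      · exact absurd h (hz _)
      · exact absurd h hb.1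
    have h1 : 2 ≤ ((N z).erase (v 0)).card := by
      have := Finset.pred_card_le_card_erase (s := N z) (a := v 0)
      have := hN3 z Sz
      omega
    have h2 : 2 ≤ (Ng.filter (fun x => x ∈ A)).card :=
      h1.trans ((Finset.card_le_card hsub).trans Finset.card_image_le)
    have h3 := Finset.card_filter_add_card_filter_not (s := Ng) (fun x => x ∈ A)
    have h4 : dg G Aᶜ z = (Ng.filter (fun x => ¬ x ∈ A)).card := by
      unfold dg
      congr 1
      ext x
      simp [Ng, and_comm]
    rw [h4]
    omega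
  have hn1 : ∀ x ∈ N (v 1), x = v 0 ∨ x = v 2 ∨ x = w 1 ∨ x = w 5 := by
    intro x hx
    rcases hsup _ _ (memN.1 hx) with h | ⟨h, -⟩ | ⟨h, -⟩
    · exact H.qn1 h
    · exact absurd h (d _ _ (by decide))
    · exact absurd h.symm (hz _)
  have hn2 : ∀ x ∈ N (v 2), x = v 1 ∨ x = w 2 ∨ x = w 4 := by
    intro x hx
    rcases hsup _ _ (memN.1 hx) with h | ⟨h, -⟩ | ⟨h, -⟩
    · rcases H.qn2 h with h | h
      · subst h; exact absurd hx hN_ne3
      · exact h
    · exact absurd h (d _ _ (by decide))
    · exact absurd h.symm (hz _)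
  by_cases hS2 : S (v 2)
  · -- case `B ∈ S`
    obtain ⟨b1, b2, b3⟩ := sub_all (hN3 _ hS2) hn2
    have Sw2 : S (w 2) := hS b2
    have Sw4 : S (w 4) := hS b3
    let A : Finset V := univ.filter (fun u => S (stdQ v u) ∨ u = v 3)
    have mA : ∀ {u}, u ∈ A ↔ S (stdQ v u) ∨ u = v 3 := by
      intro u; simp [A]
    have i0 : v 0 ∈ A := mA.2 (Or.inl (by rw [H.q0]; exact hS0))
    have i1 : v 1 ∈ A := mA.2 (Or.inl (by rw [H.q1]; exact S1))
    have i2 : v 2 ∈ A := mA.2 (Or.inl (by rw [H.q2]; exact hS2))
    have i3 : v 3 ∈ A := mA.2 (Or.inr rfl)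
    have i4 : v 4 ∈ A := mA.2 (Or.inl (by rw [H.q4]; exact hS2))
    have i5 : v 5 ∈ A := mA.2 (Or.inl (by rw [q5]; exact S1))
    have iw0 : w 0 ∈ A := mA.2 (Or.inl (by rw [H.qw]; exact Sw0))
    have iw2 : w 2 ∈ A := mA.2 (Or.inl (by rw [H.qw]; exact Sw2))
    have iw4 : w 4 ∈ A := mA.2 (Or.inl (by rw [H.qw]; exact Sw4))
    have closed : ∀ u ∈ A, u ∉ ({v 1, v 5, v 3, z} : Finset V) → ∀ n, G.Adj u n → n ∈ A := by
      intro u hu hB n hn
      simp only [Finset.mem_insert, Finset.mem_singleton, not_or] at hB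
      obtain ⟨B1, B5, B3, Bz⟩ := hB
      by_cases u0 : u = v 0
      · subst u0
        rw [H.nb0] at hn
        rcases hn with rfl | rfl | rfl
        · exact i1
        · exact i5
        · exact iw0
      by_cases u2 : u = v 2
      · subst u2
        rw [H.nb2] at hn
        rcases hn with rfl | rfl | rfl
        · exact i3
        · exact i1
        · exact iw2
      by_cases u4 : u = v 4
      · subst u4
        rw [H.nb4] at hn
        rcases hn with rfl | rfl | rfl
        · exact i5
        · exact i3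
        · exact iw4
      have huS : Sing v u := ⟨B1, u2, u4, B5⟩
      have hSu : S u := by
        have := (mA.1 hu).resolve_right B3
        rwa [q_self huS] at this
      exact mA.2 (Or.inl (gen u huS u0 Bz hSu n hn))
    have d1 : dg G Aᶜ (v 1) ≤ 1 := dg_le_one (x := w 1) (by
      intro n hn
      rw [H.nb1] at hn
      rcases hn with rfl | rfl | rfl
      · exact Or.inl i2
      · exact Or.inl i0
      · exact Or.inr rfl)
    have d5 : dg G Aᶜ (v 5) ≤ 1 := dg_le_one (x := w 5) (by
      intro n hn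
      rw [H.nb5] at hn
      rcases hn with rfl | rfl | rfl
      · exact Or.inl i0
      · exact Or.inl i4
      · exact Or.inr rfl)
    have d3 : dg G Aᶜ (v 3) ≤ 1 := dg_le_one (x := w 3) (by
      intro n hn
      rw [H.nb3] at hn
      rcases hn with rfl | rfl | rfl
      · exact Or.inl i4
      · exact Or.inl i2
      · exact Or.inr rfl)
    have dz : dg G Aᶜ z ≤ 1 := atz A (fun u hu => mA.2 (Or.inl hu))
    have d15 : dg G Aᶜ (v 1) + dg G Aᶜ (v 5) ≤ 1 := by
      by_cases hw1 : w 1 ∈ A
      · have : dg G Aᶜ (v 1) = 0 := dg_zero (by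
          intro n hn
          rw [H.nb1] at hn
          rcases hn with rfl | rfl | rfl
          · exact i2
          · exact i0
          · exact hw1)
        omega
      · by_cases hw5 : w 5 ∈ A
        · have : dg G Aᶜ (v 5) = 0 := dg_zero (by
            intro n hn
            rw [H.nb5] at hn
            rcases hn with rfl | rfl | rfl
            · exact i0
            · exact i4
            · exact hw5)
          omega
        · exfalso
          have hsub : N (v 1) ⊆ {v 0, v 2} := by
            intro x hx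
            rcases hn1 x hx with rfl | rfl | rfl | rfl
            · simp
            · simp
            · exact absurd (mA.2 (Or.inl (by rw [H.qw]; exact hS hx))) hw1
            · exact absurd (mA.2 (Or.inl (by rw [H.qw]; exact hS hx))) hw5
          have := Finset.card_le_card hsub
          have h2 : ({v 0, v 2} : Finset V).card ≤ 2 := Finset.card_le_two
          have := hN3 _ S1
          omega
    have hcut : cut G A ≤ 3 := by
      refine (cut_le closed).trans ?_
      rw [Finset.sum_insert, Finset.sum_insert, Finset.sum_pair (hz _).symm]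
      · omega
      · simp [H.vi, (hz 5).symm]
      · simp [H.vi, (hz 1).symm]
    have hA3 : 3 ≤ A.card := three_le i0 i1 i2 (d _ _ (by decide)) (d _ _ (by decide))
      (d _ _ (by decide))
    have hAc : Aᶜ.card ≤ 2 := by
      rcases H.c5 A (by omega) with h | h
      · omega
      · exact h
    have w3z : w 3 ≠ z := by
      intro h
      exact ss H.t3 hzs (by rw [h])
    have Sw3 : ¬ S (w 3) := by
      intro h
      have h31 : G.Adj (w 3) (v 3) := ((H.nb3 _).2 (Or.inr (Or.inr rfl))).symm
      have := gen (w 3) (H.singw 3) (H.wv _ _) w3z h (v 3) h31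
      rw [H.q3] at this
      exact hS3 this
    have nw3 : w 3 ∉ A := by
      rw [mA, H.qw]
      rintro (h | h)
      · exact Sw3 h
      · exact H.wv _ _ h
    -- neighbours of `w 3`
    have key : ∀ n, G.Adj (w 3) n → n ≠ v 3 → n = z := by
      intro n hn hn3
      have hns : side n = !side (v 0) := by
        have := flipB (H.bip _ _ hn)
        rw [this, H.t3]
      have hnA : n ∈ A := by
        by_contra hnA
        have hne' : w 3 ≠ n := hn.ne
        have hAc2 : ∀ m, m ∉ A → m = w 3 ∨ m = n := by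
          intro m hm
          by_contra hcon
          push Not at hcon
          have := three_le (A := Aᶜ) (a := w 3) (b := n) (c := m) (Finset.mem_compl.2 nw3)
            (Finset.mem_compl.2 hnA) (Finset.mem_compl.2 hm) hne' hcon.1.symm hcon.2.symm
          omega
        -- a neighbour `m ≠ w 3` of `n`
        obtain ⟨m, hm, hmw⟩ : ∃ m, G.Adj n m ∧ m ≠ w 3 := by
          by_contra hcon
          push Not at hcon
          have h3 := H.cubic n
          unfold dg at h3
          have hle : (univ.filter (fun x => G.Adj n x)).card ≤ 1 := by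
            rw [Finset.card_le_one]
            intro a ha b hb
            rw [Finset.mem_filter] at ha hb
            rw [hcon a ha.2, hcon b hb.2]
          have h3' : (univ.filter (fun x => G.Adj n x)).card = 3 := by convert h3
          omega
        have hms : side m = side (v 0) := by
          have := flipB (H.bip _ _ hm)
          rw [this, hns, Bool.not_not]
        have hmA : m ∈ A := by
          by_contra hmA
          rcases hAc2 m hmA with h | h
          · exact hmw h
          · exact hm.ne h.symm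
        refine hnA (closed m hmA ?_ n hm.symm)
        simp only [Finset.mem_insert, Finset.mem_singleton, not_or]
        refine ⟨?_, ?_, ?_, ?_⟩
        · rintro rfl; exact ss hms H.s1 rfl
        · rintro rfl; exact ss hms H.s5 rfl
        · rintro rfl; exact ss hms H.s3 rfl
        · rintro rfl; exact ss hms hzs rfl
      by_contra hnz
      refine nw3 (closed n hnA ?_ (w 3) hn.symm)
      simp only [Finset.mem_insert, Finset.mem_singleton, not_or]
      refine ⟨?_, ?_, hn3, hnz⟩
      · rintro rfl
        have := (H.nb1 _).1 hn.symm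
        simp [H.wv, H.wi] at this
      · rintro rfl
        have := (H.nb5 _).1 hn.symm
        simp [H.wv, H.wi] at this
    have h3 := H.cubic (w 3)
    unfold dg at h3
    have h3' : (univ.filter (fun x => G.Adj (w 3) x)).card = 3 := by convert h3
    have hsub : univ.filter (fun x => G.Adj (w 3) x) ⊆ {v 3, z} := by
      intro x hx
      rw [Finset.mem_filter] at hx
      by_cases h : x = v 3
      · simp [h]
      · simp [key x hx.2 h]
    have := Finset.card_le_card hsub
    have h2 : ({v 3, z} : Finset V).card ≤ 2 := Finset.card_le_two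
    omega
  · -- case `B ∉ S`
    have hn1' : ∀ x ∈ N (v 1), x = v 0 ∨ x = w 1 ∨ x = w 5 := by
      intro x hx
      rcases hn1 x hx with h | h | h
      · exact Or.inl h
      · subst h; exact absurd (hS hx) hS2
      · exact Or.inr h
    obtain ⟨b1, b2, b3⟩ := sub_all (hN3 _ S1) hn1'
    have Sw1 : S (w 1) := hS b2
    have Sw5 : S (w 5) := hS b3
    let A : Finset V := univ.filter (fun u => S (stdQ v u))
    have mA : ∀ {u}, u ∈ A ↔ S (stdQ v u) := by
      intro u; simp [A]
    have i0 : v 0 ∈ A := mA.2 (by rw [H.q0]; exact hS0)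
    have i1 : v 1 ∈ A := mA.2 (by rw [H.q1]; exact S1)
    have i5 : v 5 ∈ A := mA.2 (by rw [q5]; exact S1)
    have iw0 : w 0 ∈ A := mA.2 (by rw [H.qw]; exact Sw0)
    have iw1 : w 1 ∈ A := mA.2 (by rw [H.qw]; exact Sw1)
    have iw5 : w 5 ∈ A := mA.2 (by rw [H.qw]; exact Sw5)
    have o2 : v 2 ∉ A := by rw [mA, H.q2]; exact hS2
    have o3 : v 3 ∉ A := by rw [mA, H.q3]; exact hS3
    have o4 : v 4 ∉ A := by rw [mA, H.q4]; exact hS2
    have closed : ∀ u ∈ A, u ∉ ({v 1, v 5, z} : Finset V) → ∀ n, G.Adj u n → n ∈ A := by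
      intro u hu hB n hn
      simp only [Finset.mem_insert, Finset.mem_singleton, not_or] at hB
      obtain ⟨B1, B5, Bz⟩ := hB
      by_cases u0 : u = v 0
      · subst u0
        rw [H.nb0] at hn
        rcases hn with rfl | rfl | rfl
        · exact i1
        · exact i5
        · exact iw0
      have u2 : u ≠ v 2 := by rintro rfl; exact o2 hu
      have u4 : u ≠ v 4 := by rintro rfl; exact o4 hu
      have huS : Sing v u := ⟨B1, u2, u4, B5⟩
      have hSu : S u := by
        have := mA.1 hu
        rwa [q_self huS] at this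
      exact mA.2 (gen u huS u0 Bz hSu n hn)
    have d1 : dg G Aᶜ (v 1) ≤ 1 := dg_le_one (x := v 2) (by
      intro n hn
      rw [H.nb1] at hn
      rcases hn with rfl | rfl | rfl
      · exact Or.inr rfl
      · exact Or.inl i0
      · exact Or.inl iw1)
    have d5 : dg G Aᶜ (v 5) ≤ 1 := dg_le_one (x := v 4) (by
      intro n hn
      rw [H.nb5] at hn
      rcases hn with rfl | rfl | rfl
      · exact Or.inl i0
      · exact Or.inr rfl
      · exact Or.inl iw5)
    have dz : dg G Aᶜ z ≤ 1 := atz A (fun u hu => mA.2 hu)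
    have hcut : cut G A ≤ 3 := by
      refine (cut_le closed).trans ?_
      rw [Finset.sum_insert, Finset.sum_pair (hz _).symm]
      · omega
      · simp [H.vi, (hz 1).symm]
    have hA3 : 3 ≤ A.card := three_le i0 i1 i5 (d _ _ (by decide)) (d _ _ (by decide))
      (d _ _ (by decide))
    have hAc3 : 3 ≤ Aᶜ.card := three_le (Finset.mem_compl.2 o2) (Finset.mem_compl.2 o3)
      (Finset.mem_compl.2 o4) (d _ _ (by decide)) (d _ _ (by decide)) (d _ _ (by decide))
    rcases H.c5 A (by omega) with h | h <;> omega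

/-- the pairs `(v 0, z)` are killed -/
theorem Hx.kill0 {ρ : V → E} (H : Hx G side v w) (R : Rh G side v w ρ)
    (h03 : ¬ G.Adj (w 0) (w 3)) {z : V} (hz : ∀ i, z ≠ v i) (hzw : z ≠ w 0)
    (hzs : side z = !side (v 0)) : StressFree (addE G (v 0) z) (kap v w ρ) := by
  intro ω hω
  have hzS : Sing v z := ⟨hz _, hz _, hz _, hz _⟩
  refine H.expand2 R hω.1 (addE_sup hω) hω.2.2 ?_ (Or.inl ⟨H.sing0, hzS⟩)
  have hst : Stress (addE (quot G (stdQ v)) (v 0) z) (rhoX v w ρ) (pushW (stdQ v) ω) := by
    refine pushGen (F := addE G (v 0) z) ?_ hω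
    intro a b hab
    rw [addE_adj] at hab ⊢
    rcases hab with hab | ⟨⟨rfl, rfl⟩ | ⟨rfl, rfl⟩, h⟩
    · exact Or.inl (quot_adj H.bip H.side_q hab)
    · rw [H.q0, q_self hzS]
      exact Or.inr ⟨Or.inl ⟨rfl, rfl⟩, h⟩
    · rw [H.q0, q_self hzS]
      exact Or.inr ⟨Or.inr ⟨rfl, rfl⟩, h⟩
  have h0 := H.count R hz hzw hzs hst
  exact H.quot_free R h03 _ (hst.of_addE h0)

end

end SK
end N3
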