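import Pool.Agent.Lib_n3.StdKillC

/-!
# Module StdKill, part D: the points needed for Lemma A
-/

open scoped Matrix Topology
open Finset

set_option linter.unusedSectionVars false
set_option linter.unusedVariables false

namespace N3
namespace SK

/-- right multiplication by `W` -/
noncomputable def XR (W : E) : E →ₗ[ℝ] E := (crossProduct : E →ₗ[ℝ] E →ₗ[ℝ] E).flip W

theorem XR_apply (W x : E) : XR W x = crossProduct x W := rfl

/-- the cross product of two independent vectors orthogonal to `a` -/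
theorem cross_par {x y a : E} (ha : a ≠ 0) (hxa : x ⬝ᵥ a = 0) (hya : y ⬝ᵥ a = 0) (h : Np x y) :
    ∃ l : ℝ, l ≠ 0 ∧ crossProduct x y = l • a := by
  have h1 : ¬ Np a (crossProduct x y) := by
    intro hn
    apply hn.symm
    rw [cross_cross_eq_smul_sub_smul, hxa, hya]
    simp
  obtain ⟨c, hc⟩ := exists_smul_of_not_np ha h1
  refine ⟨c, ?_, hc⟩
  rintro rfl
  rw [zero_smul] at hc
  exact h hc

section chain
variable (W1 W2 W3 W4 W5 : E)

noncomputable def C1 : E →ₗ[ℝ] E := XR W1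
noncomputable def C2 : E →ₗ[ℝ] E := XR W2 ∘ₗ C1 W1
noncomputable def C3 : E →ₗ[ℝ] E := XR W3 ∘ₗ C2 W1 W2
noncomputable def C4 : E →ₗ[ℝ] E := XR W4 ∘ₗ C3 W1 W2 W3
noncomputable def C5 : E →ₗ[ℝ] E := XR W5 ∘ₗ C4 W1 W2 W3 W4

theorem C1_apply (x : E) : C1 W1 x = crossProduct x W1 := rfl
theorem C2_apply (x : E) : C2 W1 W2 x = crossProduct (C1 W1 x) W2 := rfl
theorem C3_apply (x : E) : C3 W1 W2 W3 x = crossProduct (C2 W1 W2 x) W3 := rfl
theorem C4_apply (x : E) : C4 W1 W2 W3 W4 x = crossProduct (C3 W1 W2 W3 x) W4 := rfl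
theorem C5_apply (x : E) : C5 W1 W2 W3 W4 W5 x = crossProduct (C4 W1 W2 W3 W4 x) W5 := rfl

end chain

/-- the value of the closing form at `W0 × W2` -/
theorem closing (W0 W1 W2 W3 W4 W5 : E) (h03 : W0 ⬝ᵥ W3 = 0) :
    C5 W1 W2 W3 W4 W5 (crossProduct W0 W2) ⬝ᵥ crossProduct W0 W2 =
      (W2 ⬝ᵥ W1) * (W2 ⬝ᵥ W3) * (W0 ⬝ᵥ W5) * (W4 ⬝ᵥ crossProduct W0 W2) := by
  have e1 : C1 W1 (crossProduct W0 W2) = (W0 ⬝ᵥ W1) • W2 - (W2 ⬝ᵥ W1) • W0 := by
    rw [C1_apply, cross_cross_eq_smul_sub_smul]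
  have e2 : C2 W1 W2 (crossProduct W0 W2) = (- (W2 ⬝ᵥ W1)) • crossProduct W0 W2 := by
    rw [C2_apply, e1, map_sub, LinearMap.sub_apply, map_smul, map_smul, LinearMap.smul_apply,
      LinearMap.smul_apply, cross_self, smul_zero, zero_sub, neg_smul]
  have e3 : C3 W1 W2 W3 (crossProduct W0 W2) = ((W2 ⬝ᵥ W1) * (W2 ⬝ᵥ W3)) • W0 := by
    rw [C3_apply, e2, map_smul, LinearMap.smul_apply, cross_cross_eq_smul_sub_smul, h03, zero_smul,
      zero_sub, smul_neg, neg_smul, neg_neg, smul_smul]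
  have e5 : C5 W1 W2 W3 W4 W5 (crossProduct W0 W2) =
      ((W2 ⬝ᵥ W1) * (W2 ⬝ᵥ W3)) • ((W0 ⬝ᵥ W5) • W4 - (W4 ⬝ᵥ W5) • W0) := by
    rw [C5_apply, C4_apply, e3, map_smul, LinearMap.smul_apply, map_smul, LinearMap.smul_apply,
      cross_cross_eq_smul_sub_smul]
  rw [e5, smul_dotProduct, sub_dotProduct, smul_dotProduct, smul_dotProduct, dot_self_cross]
  simp only [smul_eq_mul]
  ring

section
variable {V : Type} [Fintype V] [DecidableEq V]
variable {G : SimpleGraph V} {side : V → Bool} {v w : Fin 6 → V}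

theorem Hx.near {ρ : V → E} (H : Hx G side v w) (R : Rh G side v w ρ)
    (h03 : ρ (w 0) ⬝ᵥ ρ (w 3) = 0) : ∀ U ∈ 𝓝 (kap v w ρ), ∃ m ∈ U, Rlz (delE G v) m ∧
      m (w 0) ⬝ᵥ m (w 3) = 0 ∧ m (v 5) ⬝ᵥ m (v 0) ≠ 0 := by
  classical
  intro U hU
  have hv := H.vec R
  have hv2 := hv.vec2
  have hrlz := H.kap_rlz R
  set A := ρ (v 1) with hA
  set B := ρ (v 2) with hB
  set W0 := ρ (w 0) with hW0
  set W1 := ρ (w 1) with hW1
  set W2 := ρ (w 2) with hW2
  set W3 := ρ (w 3) with hW3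
  set W4 := ρ (w 4) with hW4
  set W5 := ρ (w 5) with hW5
  have hA0 : A ≠ 0 := R.sep.1 _
  have hB0 : B ≠ 0 := R.sep.1 _
  set κ0 := crossProduct A W0 with hκ0
  set κ3 := crossProduct B W3 with hκ3
  set η := crossProduct W0 W2 with hη
  -- the constants
  obtain ⟨l1, n1, f1⟩ : ∃ l : ℝ, l ≠ 0 ∧ C1 W1 κ0 = l • A := by
    obtain ⟨l, hl, h⟩ := cross_par (x := κ0) (y := W1) hA0 (by rw [dotProduct_comm]; exact hv2.o0A)
      (by rw [dotProduct_comm]; exact hv.AW1) hv2.m01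
    exact ⟨l, hl, h⟩
  obtain ⟨l2, n2, f2⟩ : ∃ l : ℝ, l ≠ 0 ∧ C2 W1 W2 κ0 = l • B := by
    obtain ⟨l, hl, h⟩ := cross_par (x := A) (y := W2) hB0 hv.AB
      (by rw [dotProduct_comm]; exact hv.BW2) hv.nA2
    refine ⟨l1 * l, mul_ne_zero n1 hl, ?_⟩
    rw [C2_apply, f1, map_smul, LinearMap.smul_apply, h, smul_smul]
  obtain ⟨l3, n3, f3⟩ : ∃ l : ℝ, l ≠ 0 ∧ C3 W1 W2 W3 κ0 = l • κ3 := by
    refine ⟨l2, n2, ?_⟩
    rw [C3_apply, f2, map_smul, LinearMap.smul_apply]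
  obtain ⟨l4, n4, f4⟩ : ∃ l : ℝ, l ≠ 0 ∧ C4 W1 W2 W3 W4 κ0 = l • B := by
    obtain ⟨l, hl, h⟩ := cross_par (x := κ3) (y := W4) hB0 (by rw [dotProduct_comm]; exact hv2.o3B)
      (by rw [dotProduct_comm]; exact hv.BW4) hv2.m34
    refine ⟨l3 * l, mul_ne_zero n3 hl, ?_⟩
    rw [C4_apply, f3, map_smul, LinearMap.smul_apply, h, smul_smul]
  obtain ⟨l5, n5, f5⟩ : ∃ l : ℝ, l ≠ 0 ∧ C5 W1 W2 W3 W4 W5 κ0 = l • A := by
    obtain ⟨l, hl, h⟩ := cross_par (x := B) (y := W5) hA0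
      (by rw [dotProduct_comm]; exact hv.AB)
      (by rw [dotProduct_comm]; exact hv.AW5) hv.nB5
    refine ⟨l4 * l, mul_ne_zero n4 hl, ?_⟩
    rw [C5_apply, f4, map_smul, LinearMap.smul_apply, h, smul_smul]
  -- the closing form
  have hγ : C5 W1 W2 W3 W4 W5 η ⬝ᵥ η ≠ 0 := by
    rw [closing W0 W1 W2 W3 W4 W5 h03]
    refine mul_ne_zero (mul_ne_zero (mul_ne_zero ?_ ?_) hv.W05) ?_
    · rw [dotProduct_comm]; exact hv.W12
    · rw [dotProduct_comm]; exact hv.W32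
    · obtain ⟨l, hl, h⟩ := cross_par (x := W2) (y := W4) hB0
        (by rw [dotProduct_comm]; exact hv.BW2) (by rw [dotProduct_comm]; exact hv.BW4) hv.n24
      rw [triple_product_permutation, h, dotProduct_smul, dotProduct_comm]
      exact mul_ne_zero hl hv.BW0
  set β := C5 W1 W2 W3 W4 W5 κ0 ⬝ᵥ η + C5 W1 W2 W3 W4 W5 η ⬝ᵥ κ0 with hβ
  set γ := C5 W1 W2 W3 W4 W5 η ⬝ᵥ η with hγd
  have hF : ∀ t : ℝ, C5 W1 W2 W3 W4 W5 (κ0 + t • η) ⬝ᵥ (κ0 + t • η) = t * (β + γ * t) := by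
    intro t
    have h0 : C5 W1 W2 W3 W4 W5 κ0 ⬝ᵥ κ0 = 0 := by
      rw [f5, smul_dotProduct, hv2.o0A, smul_zero]
    rw [map_add, map_smul, add_dotProduct, dotProduct_add, dotProduct_add, h0, dotProduct_smul,
      smul_dotProduct, smul_dotProduct, dotProduct_smul]
    simp only [smul_eq_mul]
    ring
  -- the path
  let δ : V → E := fun u => if u = v 0 then η else if u = v 1 then l1⁻¹ • C1 W1 η else
    if u = v 2 then l2⁻¹ • C2 W1 W2 η else if u = v 3 then l3⁻¹ • C3 W1 W2 W3 η else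
    if u = v 4 then l4⁻¹ • C4 W1 W2 W3 W4 η else if u = v 5 then l5⁻¹ • C5 W1 W2 W3 W4 W5 η else 0
  have δ0 : δ (v 0) = η := by simp [δ]
  have δ1 : δ (v 1) = l1⁻¹ • C1 W1 η := by simp [δ, H.vi]
  have δ2 : δ (v 2) = l2⁻¹ • C2 W1 W2 η := by simp [δ, H.vi]
  have δ3 : δ (v 3) = l3⁻¹ • C3 W1 W2 W3 η := by simp [δ, H.vi]
  have δ4 : δ (v 4) = l4⁻¹ • C4 W1 W2 W3 W4 η := by simp [δ, H.vi]
  have δ5 : δ (v 5) = l5⁻¹ • C5 W1 W2 W3 W4 W5 η := by simp [δ, H.vi]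
  have δo : ∀ u, u ≠ v 0 → u ≠ v 1 → u ≠ v 2 → u ≠ v 3 → u ≠ v 4 → u ≠ v 5 → δ u = 0 := by
    intro u a b c d e f
    simp [δ, a, b, c, d, e, f]
  have δw : ∀ i, δ (w i) = 0 := fun i =>
    δo _ (H.wv _ _) (H.wv _ _) (H.wv _ _) (H.wv _ _) (H.wv _ _) (H.wv _ _)
  let m : ℝ → V → E := fun t => kap v w ρ + t • δ
  have hm : ∀ t u, m t u = kap v w ρ u + t • δ u := fun t u => rfl
  have M0 : ∀ t, m t (v 0) = κ0 + t • η := by
    intro t; rw [hm, δ0, H.kap0]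
  have M1 : ∀ t, m t (v 1) = l1⁻¹ • C1 W1 (κ0 + t • η) := by
    intro t
    rw [hm, δ1, H.kap1, map_add, map_smul, f1, smul_add, inv_smul_smul₀ n1, smul_comm]
  have M2 : ∀ t, m t (v 2) = l2⁻¹ • C2 W1 W2 (κ0 + t • η) := by
    intro t
    rw [hm, δ2, H.kap2, map_add, map_smul, f2, smul_add, inv_smul_smul₀ n2, smul_comm]
  have M3 : ∀ t, m t (v 3) = l3⁻¹ • C3 W1 W2 W3 (κ0 + t • η) := by
    intro t
    rw [hm, δ3, H.kap3, map_add, map_smul, f3, smul_add, inv_smul_smul₀ n3, smul_comm]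
  have M4 : ∀ t, m t (v 4) = l4⁻¹ • C4 W1 W2 W3 W4 (κ0 + t • η) := by
    intro t
    rw [hm, δ4, H.kap4, map_add, map_smul, f4, smul_add, inv_smul_smul₀ n4, smul_comm]
  have M5 : ∀ t, m t (v 5) = l5⁻¹ • C5 W1 W2 W3 W4 W5 (κ0 + t • η) := by
    intro t
    rw [hm, δ5, H.kap5, map_add, map_smul, f5, smul_add, inv_smul_smul₀ n5, smul_comm]
  have Mw : ∀ t i, m t (w i) = ρ (w i) := by
    intro t i
    rw [hm, δw, smul_zero, add_zero, H.kapw]
  have Mo : ∀ t u, u ≠ v 0 → u ≠ v 1 → u ≠ v 2 → u ≠ v 3 → u ≠ v 4 → u ≠ v 5 →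
      m t u = kap v w ρ u := by
    intro t u a b c d e f
    rw [hm, δo u a b c d e f, smul_zero, add_zero]
  -- hexagon edges
  have E01 : ∀ t, m t (v 0) ⬝ᵥ m t (v 1) = 0 := by
    intro t
    rw [M0, M1, dotProduct_smul, C1_apply, dot_self_cross, smul_zero]
  have E12 : ∀ t, m t (v 1) ⬝ᵥ m t (v 2) = 0 := by
    intro t
    rw [M1, M2, dotProduct_smul, smul_dotProduct, C2_apply, dot_self_cross, smul_zero, smul_zero]
  have E23 : ∀ t, m t (v 2) ⬝ᵥ m t (v 3) = 0 := by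
    intro t
    rw [M2, M3, dotProduct_smul, smul_dotProduct, C3_apply, dot_self_cross, smul_zero, smul_zero]
  have E34 : ∀ t, m t (v 3) ⬝ᵥ m t (v 4) = 0 := by
    intro t
    rw [M3, M4, dotProduct_smul, smul_dotProduct, C4_apply, dot_self_cross, smul_zero, smul_zero]
  have E45 : ∀ t, m t (v 4) ⬝ᵥ m t (v 5) = 0 := by
    intro t
    rw [M4, M5, dotProduct_smul, smul_dotProduct, C5_apply, dot_self_cross, smul_zero, smul_zero]
  have F0 : ∀ t, m t (v 0) ⬝ᵥ m t (w 0) = 0 := by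
    intro t
    rw [M0, Mw, dotProduct_comm, dotProduct_add, dotProduct_smul, dot_self_cross, hv2.o0W]
    simp
  have F1 : ∀ t, m t (v 1) ⬝ᵥ m t (w 1) = 0 := by
    intro t
    rw [M1, Mw, dotProduct_comm, dotProduct_smul, C1_apply, dot_cross_self, smul_zero]
  have F2 : ∀ t, m t (v 2) ⬝ᵥ m t (w 2) = 0 := by
    intro t
    rw [M2, Mw, dotProduct_comm, dotProduct_smul, C2_apply, dot_cross_self, smul_zero]
  have F3 : ∀ t, m t (v 3) ⬝ᵥ m t (w 3) = 0 := by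
    intro t
    rw [M3, Mw, dotProduct_comm, dotProduct_smul, C3_apply, dot_cross_self, smul_zero]
  have F4 : ∀ t, m t (v 4) ⬝ᵥ m t (w 4) = 0 := by
    intro t
    rw [M4, Mw, dotProduct_comm, dotProduct_smul, C4_apply, dot_cross_self, smul_zero]
  have F5 : ∀ t, m t (v 5) ⬝ᵥ m t (w 5) = 0 := by
    intro t
    rw [M5, Mw, dotProduct_comm, dotProduct_smul, C5_apply, dot_cross_self, smul_zero]
  have hR0 : ∀ t b, (delE G v).Adj (v 0) b → m t (v 0) ⬝ᵥ m t b = 0 := by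
    intro t b hb
    rcases (H.nb0 b).1 hb.1 with rfl | rfl | rfl
    · exact E01 t
    · exact absurd ⟨rfl, rfl⟩ hb.2.2
    · exact F0 t
  have hR1 : ∀ t b, (delE G v).Adj (v 1) b → m t (v 1) ⬝ᵥ m t b = 0 := by
    intro t b hb
    rcases (H.nb1 b).1 hb.1 with rfl | rfl | rfl
    · exact E12 t
    · rw [dotProduct_comm]; exact E01 t
    · exact F1 t
  have hR2 : ∀ t b, (delE G v).Adj (v 2) b → m t (v 2) ⬝ᵥ m t b = 0 := by
    intro t b hb
    rcases (H.nb2 b).1 hb.1 with rfl | rfl | rfl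
    · exact E23 t
    · rw [dotProduct_comm]; exact E12 t
    · exact F2 t
  have hR3 : ∀ t b, (delE G v).Adj (v 3) b → m t (v 3) ⬝ᵥ m t b = 0 := by
    intro t b hb
    rcases (H.nb3 b).1 hb.1 with rfl | rfl | rfl
    · exact E34 t
    · rw [dotProduct_comm]; exact E23 t
    · exact F3 t
  have hR4 : ∀ t b, (delE G v).Adj (v 4) b → m t (v 4) ⬝ᵥ m t b = 0 := by
    intro t b hb
    rcases (H.nb4 b).1 hb.1 with rfl | rfl | rfl
    · exact E45 t
    · rw [dotProduct_comm]; exact E34 t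
    · exact F4 t
  have hR5 : ∀ t b, (delE G v).Adj (v 5) b → m t (v 5) ⬝ᵥ m t b = 0 := by
    intro t b hb
    rcases (H.nb5 b).1 hb.1 with rfl | rfl | rfl
    · exact absurd ⟨rfl, rfl⟩ hb.2.1
    · rw [dotProduct_comm]; exact E45 t
    · exact F5 t
  have hR : ∀ t, Rlz (delE G v) (m t) := by
    intro t a b hab
    by_cases a0 : a = v 0
    · subst a0; exact hR0 t b hab
    by_cases a1 : a = v 1
    · subst a1; exact hR1 t b hab
    by_cases a2 : a = v 2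
    · subst a2; exact hR2 t b hab
    by_cases a3 : a = v 3
    · subst a3; exact hR3 t b hab
    by_cases a4 : a = v 4
    · subst a4; exact hR4 t b hab
    by_cases a5 : a = v 5
    · subst a5; exact hR5 t b hab
    have hba := hab.symm
    by_cases b0 : b = v 0
    · subst b0; rw [dotProduct_comm]; exact hR0 t a hba
    by_cases b1 : b = v 1
    · subst b1; rw [dotProduct_comm]; exact hR1 t a hba
    by_cases b2 : b = v 2
    · subst b2; rw [dotProduct_comm]; exact hR2 t a hba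
    by_cases b3 : b = v 3
    · subst b3; rw [dotProduct_comm]; exact hR3 t a hba
    by_cases b4 : b = v 4
    · subst b4; rw [dotProduct_comm]; exact hR4 t a hba
    by_cases b5 : b = v 5
    · subst b5; rw [dotProduct_comm]; exact hR5 t a hba
    rw [Mo t a a0 a1 a2 a3 a4 a5, Mo t b b0 b1 b2 b3 b4 b5]
    exact hrlz a b hab.1
  -- a small parameter
  have hcont : Continuous m := by
    change Continuous (fun t : ℝ => kap v w ρ + t • δ)
    exact continuous_const.add (continuous_id.smul continuous_const)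
  have hm0 : m 0 = kap v w ρ := by
    funext u; rw [hm, zero_smul, add_zero]
  have hpre : m ⁻¹' U ∈ 𝓝 (0 : ℝ) := hcont.continuousAt.preimage_mem_nhds (by rw [hm0]; exact hU)
  obtain ⟨ε, hε, hball⟩ := Metric.mem_nhds_iff.1 hpre
  obtain ⟨t, ht0, htε, htγ⟩ : ∃ t : ℝ, 0 < t ∧ t < ε ∧ β + γ * t ≠ 0 := by
    by_cases h : β + γ * (ε / 2) = 0
    · refine ⟨ε / 3, by positivity, by linarith, ?_⟩
      intro h'
      have : γ * (ε / 2 - ε / 3) = 0 := by linarith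
      rcases mul_eq_zero.1 this with h1 | h1
      · exact hγ h1
      · linarith
    · exact ⟨ε / 2, by positivity, by linarith, h⟩
  refine ⟨m t, hball ?_, hR t, ?_, ?_⟩
  · rw [Metric.mem_ball, Real.dist_eq, sub_zero, abs_of_pos ht0]; exact htε
  · rw [Mw, Mw]; exact h03
  · rw [M5, M0, smul_dotProduct, hF]
    exact mul_ne_zero (inv_ne_zero n5) (mul_ne_zero ht0.ne' htγ)

end

end SK
end N3
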