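import Pool.Agent.Lib_n3.Defs

/-!
# Statements of the modules of the project MP_07e12a_co (frozen S07024)

Each module proves one (or several) of the `def XStmt : Prop` below, as
`theorem N3.xxx : N3.XStmt`, in its own file `Pool/Agent/Lib_n3/XXX.lean`.
-/

open scoped Matrix Topology
open Finset

namespace N3

/-! ### Module SP: perturbation at stress-free points -/

/-- SP.  At a stress-free `ρ`, the values `ρ u ⬝ᵥ ρ v` on the edges of `F` can be prescribed freely near
the actual ones, by a small change of `ρ`. (Open mapping theorem: `HasStrictFDerivAt.map_nhds_eq_of_surj`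
for `ρ ↦ (ρ p ⬝ᵥ ρ l)` indexed by the edges `(p, l)`, `side p = false`, `side l = true`; the derivative is
surjective iff the gradients are linearly independent iff there is no nonzero stress.) -/
def SPStmt : Prop := ∀ (V : Type) [Fintype V] [DecidableEq V] (F : SimpleGraph V) (side : V → Bool)
  (ρ : V → E), Bip F side → StressFree F ρ → ∀ U ∈ 𝓝 ρ, ∃ ε > 0, ∀ c : V → V → ℝ,
    (∀ u v, c u v = c v u) → (∀ u v, F.Adj u v → |c u v - ρ u ⬝ᵥ ρ v| < ε) →
      ∃ ρ' ∈ U, ∀ u v, F.Adj u v → ρ' u ⬝ᵥ ρ' v = c u v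

/-- `StressFree F` is an open condition (`isOpen_setOf_linearIndependent` for the gradients). -/
def SFOpenStmt : Prop := ∀ (V : Type) [Fintype V] [DecidableEq V] (F : SimpleGraph V) (side : V → Bool),
  Bip F side → IsOpen {ρ : V → E | StressFree F ρ}

/-- MIN.  Choose in `U ∩ {realizations of F}` a `ρ` with the least number of zero non-adjacent pairs of
different sides; by SP (applied to `addE F x y`, `c = 0` on `F` and `c x y` small nonzero) every zero
pair `x, y` has a nonzero stress of `addE F x y`. -/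
def MinStmt : Prop := ∀ (V : Type) [Fintype V] [DecidableEq V] (F : SimpleGraph V) (side : V → Bool),
  Bip F side → ∀ U : Set (V → E), IsOpen U → ∀ ρ₀ ∈ U, Rlz F ρ₀ →
    ∃ ρ ∈ U, Rlz F ρ ∧ ∀ x y, side x ≠ side y → ¬ F.Adj x y → ρ x ⬝ᵥ ρ y = 0 →
      ¬ StressFree (addE F x y) ρ

/-- KILL.  If a realization `κ` of `G` by nonzero vectors is such that every zero non-adjacent pair
`x, y` is killed (`addE G x y` is stress-free at `κ`), then `G` has an exact realization.  (MIN in a
small open neighbourhood `U` of `κ` on which the finitely many killed pairs stay killed (SFOpen), the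
nonzero pairs stay nonzero and the vectors stay nonzero; then all non-adjacent pairs of different sides
are nonzero, and two vertices `u ≠ v` of the same side are not parallel since, by `NoC4` and
`2 ≤ degree`, some neighbour of `u` is not adjacent to `v`.) -/
def KillStmt : Prop := ∀ (V : Type) [Fintype V] [DecidableEq V] (G : SimpleGraph V) (side : V → Bool),
  Bip G side → NoC4 G → (∀ v, 2 ≤ dg G univ v) → ∀ κ : V → E, (∀ v, κ v ≠ 0) → Rlz G κ →
    (∀ x y, side x ≠ side y → ¬ G.Adj x y → κ x ⬝ᵥ κ y = 0 → StressFree (addE G x y) κ) →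
      ∃ ρ, Exact G side ρ

/-- `Sep` is an open condition. -/
def SepOpenStmt : Prop := ∀ (V : Type) [Fintype V] (side : V → Bool),
  IsOpen {ρ : V → E | Sep side ρ}

/-! ### Module G: exact realizations of 2-degenerate graphs -/

/-- CORE.  At a separated `ρ`, the support of a stress has minimum degree at least three. -/
def CoreStmt : Prop := ∀ (V : Type) [Fintype V] [DecidableEq V] (F : SimpleGraph V) (side : V → Bool)
  (ρ : V → E), Bip F side → Sep side ρ → ∀ ω, Stress F ρ ω → ∀ v u, ω v u ≠ 0 →
    3 ≤ (univ.filter (fun w => ω v w ≠ 0)).card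

/-- A 2-degenerate graph is stress-free at separated `ρ` (by CORE). -/
def TwoDegFreeStmt : Prop := ∀ (V : Type) [Fintype V] [DecidableEq V] (F : SimpleGraph V)
  (side : V → Bool) (ρ : V → E), Bip F side → Sep side ρ → TwoDeg F → StressFree F ρ

/-- THEOREM G.  (Induction: for `S : Finset V` let `F_S = res F S`;
there is an exact realization of `F_S`.  Remove from `S` a vertex `v` with at most two neighbours in `S`,
take an exact realization of `F_{S \ v}` and change it at `v`: to `ρ u₁ × ρ u₂` if `v` has two neighbours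
`u₁, u₂` in `S`; to a vector of `ρ u₁^⊥`, resp. of `ℝ³`, not parallel to any other vector if `v` has one,
resp. no, neighbour in `S`.  The new `ρ` is separated: in the first case `ρ w ∥ ρ u₁ × ρ u₂` means
`w ~ u₁, u₂` by exactness, a 4-cycle.  Apply MIN to `F_S` with `U = {Sep}`: every zero pair `x, y` has a
nonzero stress of `addE F_S x y`, impossible by TwoDegFree since `addE F_S x y ≤ addE F x y`.) -/
def ThmGStmt : Prop := ∀ (V : Type) [Fintype V] [DecidableEq V] (F : SimpleGraph V) (side : V → Bool),
  Bip F side → NoC4 F → TwoDeg F →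
    (∀ x y, side x ≠ side y → ¬ F.Adj x y → TwoDeg (addE F x y)) → ∃ ρ, Exact F side ρ

/-- A proper induced piece of a Levi graph has an exact realization: Theorem G for `res G A`.
(2-degeneracy of `addE (res G A) x y`: if all vertices of `S` have at least 3 neighbours in `S` in
`addE (res G A) x y`, then `S ⊆ A` (vertices outside `A` have at most one neighbour) and every vertex of
`S` other than `x, y` has its three `G`-neighbours in `S`, and `x, y` at least two, so `cut G S ≤ 2`,
against `c3` as `S ≠ univ`.) -/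
def ResExactStmt : Prop := ∀ (V : Type) [Fintype V] [DecidableEq V] (G : SimpleGraph V)
  (side : V → Bool), Lev G side → ∀ A : Finset V, A ≠ univ → ∃ ρ, Exact (res G A) side ρ

/-! ### Module CUTS: counting edges -/

/-- elementary facts on `dg`, `ed`, `cut` -/
def CutsStmt : Prop := ∀ (V : Type) [Fintype V] [DecidableEq V] (G : SimpleGraph V) (side : V → Bool),
  -- symmetry and additivity
  (∀ A B, ed G A B = ed G B A) ∧
  (∀ A B C : Finset V, Disjoint B C → ed G A (B ∪ C) = ed G A B + ed G A C) ∧
  (∀ A B C : Finset V, Disjoint A B → ed G (A ∪ B) C = ed G A C + ed G B C) ∧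
  (∀ A, cut G Aᶜ = cut G A) ∧
  -- submodularity
  (∀ A B, cut G (A ∩ B) + cut G (A ∪ B) ≤ cut G A + cut G B) ∧
  (∀ A B, cut G (A \ B) + cut G (B \ A) ≤ cut G A + cut G B) ∧
  -- moving a set `P` out of `A`
  (∀ A P : Finset V, P ⊆ A → cut G (A \ P) + ed G P Aᶜ = cut G A + ed G P (A \ P)) ∧
  (∀ F A, F ≤ G → cut F A ≤ cut G A) ∧
  -- cubic graphs
  ((∀ v, dg G univ v = 3) →
    (∀ A : Finset V, 3 * A.card = ed G A A + cut G A) ∧ (∀ A : Finset V, Even (ed G A A)) ∧
    (∀ A : Finset V, cut G A % 2 = A.card % 2)) ∧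
  -- parity: cut edges starting at points of `A`, minus those starting at lines of `A`, is
  -- `3 (#points - #lines)`
  (Bip G side → (∀ v, dg G univ v = 3) → ∀ A : Finset V,
    ed G (A.filter (fun v => side v = false)) Aᶜ + 3 * (A.filter (fun v => side v = true)).card
      = ed G (A.filter (fun v => side v = true)) Aᶜ + 3 * (A.filter (fun v => side v = false)).card)

/-! ### Module PUSH -/

/-- PUSH.  The image of a stress of `addE G x y` at `ρ ∘ q` under `q` is a stress of
`addE (quot G q) (q x) (q y)` at `ρ`. -/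
def PushStmt : Prop := ∀ (V : Type) [Fintype V] [DecidableEq V] (G : SimpleGraph V) (side : V → Bool)
  (q : V → V) (ρ : V → E) (ω : V → V → ℝ) (x y : V), Bip G side → (∀ v, side (q v) = side v) →
    side x ≠ side y → Stress (addE G x y) (ρ ∘ q) ω →
      Stress (addE (quot G q) (q x) (q y)) ρ
        (fun a b => ∑ u, ∑ v, if q u = a ∧ q v = b then ω u v else 0)

/-! ### Modules GLUE -/

/-- If `G` (3-connected) has a nontrivial 3-edge-cut, it has an exact realization. -/
def Glue3Stmt : Prop := ∀ (V : Type) [Fintype V] [DecidableEq V] (G : SimpleGraph V) (side : V → Bool),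
  Lev G side → ∀ A : Finset V, cut G A = 3 → 2 ≤ A.card → 2 ≤ Aᶜ.card → ∃ ρ, Exact G side ρ

/-- If `G` has no nontrivial 3-edge-cut but a nontrivial 4-edge-cut, it has an exact realization. -/
def Glue4Stmt : Prop := ∀ (V : Type) [Fintype V] [DecidableEq V] (G : SimpleGraph V) (side : V → Bool),
  Lev G side → Cyc4 G → ∀ A : Finset V, cut G A = 4 → 3 ≤ A.card → 3 ≤ Aᶜ.card →
    ∃ ρ, Exact G side ρ

/-! ### Cyclically 5-connected graphs -/

/-- LEMMA E.  In a cyclically 5-edge-connected graph of girth at least 8 there is a path `v x p` whose two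
edges lie in no nontrivial 5-edge-cut.  Proof: let `cut G A = 5`, `4 ≤ |A|`.  Then `|A|` is odd and not 5
(5 vertices spanning `(15 - 5) / 2 = 5` edges: some side has at most 2 of the vertices, at most one common
neighbour, so at most 4 edges), so `|A| ≥ 7`.
If there is no nontrivial 5-cut take any path.  Otherwise let `B` be an inclusion-minimal set with
`cut G B = 5`, `4 ≤ |B|`, `4 ≤ |Bᶜ|`; some `x ∈ B` has two neighbours `v, p` in `B` (else `ed B B ≤ |B|`).
Claim: no edge inside `B` lies in `∂A`, `A` a nontrivial 5-cut.  If it does, `A ∩ B` and `B - A` are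
nonempty.  By submodularity, minimality of `B` and `Cyc5`, `|A ∩ B| ≤ 3` or `|B - A| ≤ 3` (otherwise both
have cut at least 6, so `cut (A ∪ B) ≤ 4` and `cut (A - B) ≤ 4`, so `|(A ∪ B)ᶜ| ≤ 2`, `|A - B| ≤ 2` and
`|Bᶜ| ≤ 4`, but `|Bᶜ| ≥ 7`).  Replacing `A` by `Aᶜ` assume `P = A ∩ B`, `1 ≤ |P| ≤ 3`; a cut of at most 4
edges or of 5 edges there: use `cut G P ≥ ...`: let `k = ed P (B - P)`, `j = ed P Bᶜ`, so `j + k = cut G P`;
`B - P` has at least 4 vertices so `5 - j + k = cut (B - P) ≥ 6` (minimality, `Cyc5`); `A - P` has at least 4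
vertices so `5 - b + a = cut (A - P) ≥ 5` where `a = ed P (A - P) ≤ j`, `b = ed P Aᶜ ≥ k`:
`a ≥ b ≥ k ≥ j + 1 > a`, a contradiction. -/
def LemmaEStmt : Prop := ∀ (V : Type) [Fintype V] [DecidableEq V] (G : SimpleGraph V)
  (side : V → Bool), Nonempty V → Lev G side → Cyc5 G → NoC6 G → ∃ v x p, G.Adj v x ∧ G.Adj x p ∧ v ≠ p ∧
    ∀ A : Finset V, cut G A = 5 → 4 ≤ A.card → 4 ≤ Aᶜ.card → (v ∈ A ↔ x ∈ A) ∧ (x ∈ A ↔ p ∈ A)

/-- girth at least 8 -/
def DFStmt : Prop := ∀ (V : Type) [Fintype V] [DecidableEq V] (G : SimpleGraph V) (side : V → Bool),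
  Lev G side → Cyc5 G → NoC6 G → ∃ ρ, Exact G side ρ

/-- with a hexagon, `n ≥ 11` -/
def HexStmt : Prop := ∀ (V : Type) [Fintype V] [DecidableEq V] (G : SimpleGraph V) (side : V → Bool),
  Lev G side → Cyc5 G → ¬ NoC6 G → 22 ≤ Fintype.card V → ∃ ρ, Exact G side ρ

/-! ### Main -/

/-- every 3-connected `(n_3)` configuration with `n ≥ 11` has an exact real realization -/
def MainStmt : Prop := ∀ (V : Type) [Fintype V] [DecidableEq V] (G : SimpleGraph V) (side : V → Bool),
  Lev G side → 22 ≤ Fintype.card V → ∃ ρ, Exact G side ρ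

theorem main_of (h3 : Glue3Stmt) (h4 : Glue4Stmt) (hD : DFStmt) (hH : HexStmt) : MainStmt := by
  intro V _ _ G side hL hV
  by_cases hc4 : Cyc4 G
  · by_cases hc5 : Cyc5 G
    · by_cases h6 : NoC6 G
      · exact hD V G side hL hc5 h6
      · exact hH V G side hL hc5 h6 hV
    · unfold Cyc5 at hc5
      push Not at hc5
      obtain ⟨A, hA, hA1, hA2⟩ := hc5
      refine h4 V G side hL hc4 A ?_ (by omega) (by omega)
      have : ¬ cut G A ≤ 3 := fun h => by
        rcases hc4 A h with h' | h' <;> omega
      omega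
  · unfold Cyc4 at hc4
    push Not at hc4
    obtain ⟨A, hA, hA1, hA2⟩ := hc4
    refine h3 V G side hL A ?_ (by omega) (by omega)
    have := hL.c3 A (Finset.card_pos.1 (by omega)) (Finset.card_pos.1 (by omega))
    omega

end N3
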