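import Pool.Agent.Lib_n3.Stmts

/-!
# Statements of the modules for girth at least 8 (MP_07e12a_co)

`v` is a vertex with neighbours `x 0, x 1, x 2`; the neighbours of `x i` are `v, p i, r i`.  We identify
`p 1 = r 1` and `p 2 = r 2`, take `x 0 = p 0 × r 0`, `v` generic orthogonal to `x 0`,
`x i = v × p i` (`i = 1, 2`).  Say that `v, p i, r i` are points and the `x i` are lines.
-/

open scoped Matrix Topology
open Finset

namespace N3

section
variable {V : Type} [Fintype V] [DecidableEq V]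

structure DFData (G : SimpleGraph V) (side : V → Bool) (v : V) (x p r : Fin 3 → V) : Prop where
  lev : Lev G side
  c5 : Cyc5 G
  c6 : NoC6 G
  x_inj : Function.Injective x
  vx : ∀ i, G.Adj v (x i)
  xp : ∀ i, G.Adj (x i) (p i)
  xr : ∀ i, G.Adj (x i) (r i)
  pv : ∀ i, p i ≠ v
  rv : ∀ i, r i ≠ v
  pr : ∀ i, p i ≠ r i
  good : ∀ A : Finset V, cut G A = 5 → 4 ≤ A.card → 4 ≤ Aᶜ.card →
    (v ∈ A ↔ x 0 ∈ A) ∧ (x 0 ∈ A ↔ p 0 ∈ A)

/-- the identification `r 1 ↦ p 1`, `r 2 ↦ p 2` -/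
def dfQ (p r : Fin 3 → V) : V → V := fun u => if u = r 1 then p 1 else if u = r 2 then p 2 else u

/-- the quotient, with `v, x 0, x 1, x 2` removed -/
def dfH (G : SimpleGraph V) (v : V) (x p r : Fin 3 → V) : SimpleGraph V :=
  res (quot G (dfQ p r)) (univ \ {v, x 0, x 1, x 2})

/-- `dfH` together with `x 0` (adjacent to `p 0` and `r 0`) -/
def dfF (G : SimpleGraph V) (v : V) (x p r : Fin 3 → V) : SimpleGraph V :=
  addE (addE (dfH G v x p r) (x 0) (p 0)) (x 0) (r 0)

/-- every non-isolated vertex of `T` has degree at least 3 -/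
def Core3 (T : SimpleGraph V) : Prop := ∀ u w, T.Adj u w → 3 ≤ dg T univ u

/-- conclusion of the combinatorial module: -/
structure DFComb (G : SimpleGraph V) (side : V → Bool) (v : V) (x p r : Fin 3 → V) : Prop where
  bip : Bip (dfF G v x p r) side
  noC4 : NoC4 (dfF G v x p r)
  twoDeg : TwoDeg (dfF G v x p r)
  /-- pairs not involving `x 0` are good -/
  pairs : ∀ y z, side y ≠ side z → ¬ (dfF G v x p r).Adj y z → y ≠ x 0 → z ≠ x 0 →
    TwoDeg (addE (dfF G v x p r) y z)
  /-- a 3-core of `F + x 0 y` is everything -/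
  full : ∀ y, side y ≠ side (x 0) → ¬ (dfF G v x p r).Adj (x 0) y →
    ∀ T ≤ addE (dfF G v x p r) (x 0) y, T ≠ ⊥ → Core3 T → T = addE (dfF G v x p r) (x 0) y
  /-- there is no 3-core of `F + x 0 M + x 0 y` avoiding the edge `x 0 p 0` (`M` = `p 1` or `p 2`) -/
  two : ∀ m, (m = p 1 ∨ m = p 2) → ∀ y, side y ≠ side (x 0) → y ≠ m → y ≠ p 0 → y ≠ r 0 →
    ∀ T ≤ addE (addE (dfF G v x p r) (x 0) m) (x 0) y, ¬ T.Adj (x 0) (p 0) → Core3 T → T = ⊥

/-- conclusion of the second module: a realization of `F` -/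
structure DFRho (G : SimpleGraph V) (side : V → Bool) (v : V) (x p r : Fin 3 → V) (ρ : V → E) :
    Prop where
  rlz : Rlz (dfF G v x p r) ρ
  sep : Sep side ρ
  free : StressFree (dfF G v x p r) ρ
  exact : ∀ y z, side y ≠ side z → ¬ (dfF G v x p r).Adj y z → y ≠ x 0 → z ≠ x 0 → ρ y ⬝ᵥ ρ z ≠ 0
  /-- if `y` lies on the line `x 0` there is a stress of `F + x 0 y` which is nonzero on every edge -/
  tau : ∀ y, side y ≠ side (x 0) → ¬ (dfF G v x p r).Adj (x 0) y → ρ (x 0) ⬝ᵥ ρ y = 0 →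
    ∃ τ, Stress (addE (dfF G v x p r) (x 0) y) ρ τ ∧
      ∀ a b, (addE (dfF G v x p r) (x 0) y).Adj a b → τ a b ≠ 0
  /-- if `p 1` or `p 2` is on the line `x 0`, no other vertex is, except `p 0`, `r 0` -/
  two : ∀ m, (m = p 1 ∨ m = p 2) → ρ (x 0) ⬝ᵥ ρ m = 0 →
    ∀ y, side y ≠ side (x 0) → y ≠ m → y ≠ p 0 → y ≠ r 0 → ρ (x 0) ⬝ᵥ ρ y ≠ 0

end

/-! ### Module DFComb

Notation: points = side of `v`, lines = side of `x 0`; `q = dfQ p r`, `M1 = p 1`, `M2 = p 2`.  All ten
vertices `v, x i, p i, r i` are distinct (`NoC4`), no vertex is adjacent to two of `p i, r i` other than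
`x i` (`NoC4`), none is adjacent to one of `p i, r i` and one of `p j, r j`, `i ≠ j` (`NoC6`, hexagon
through `x i, v, x j`).  In `F = dfF`: `v, x 1, x 2, r 1, r 2` are isolated, `M1, M2` have degree 4, `x 0`
degree 2, `p 0, r 0` degree 3, every other vertex degree 3.  Let `T` be as in `pairs` (a graph of minimum
degree at least 3 on `S`, contained in `F + y z`), `full` or `two`, and `S` its set of non-isolated
vertices.  A LINE in `S` different from `x 0` (and from the line of the pair `y z`) has all its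
neighbours in `S`.  Let `A = q⁻¹(S) ∪ {x 1 if M1 ∈ S} ∪ {x 2 if M2 ∈ S} ∪ {v if ...}`; an edge of `G`
leaving `A` starts at `M1`, `M2` (at most one each, if not in the pair), at an element of the pair (at
most one more), or is one of `v x i`, `x 0 p 0`.

`twoDeg`, `pairs` (`y, z ≠ x 0`, so `x 0 ∉ S`; not both `p 0, r 0` are in `S`):
* `M1, M2 ∈ S`: `A = q⁻¹(S) ∪ {x 1, x 2, v}`: the cut is `v x 0`, at most one edge at each of `M1, M2` (not
  counting the pair) and at most one more at each of `y, z`: at most 5 edges, and `v ∈ A`, `x 0 ∉ A`.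
  By `good` and `Cyc5`, `|Aᶜ| ≤ 3`.  Say `r 0 ∉ S`.  `r 0` has two more neighbours `l, l'`; a line in `S`
  missing its neighbour `r 0` is the line of the pair; so one of them, `l'`, is not in `S`, so
  `Aᶜ = {x 0, r 0, l'}`, `p 0 ∈ S`, so `p 0` is the point of the pair, `l` its line; the other two
  neighbours of `l'` are in `A` and can only be at `M1`, `M2`, one each: excluded by `NoC6`.
* `M1 ∈ S`, `M2 ∉ S`: `A = q⁻¹(S) ∪ {x 1}`, cut at most 4, `v, x 0, x 2 ∉ A`, `|A| ≥ 3`: against `Cyc5`.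
* `M1, M2 ∉ S`: `A = S`, cut at most 2: against `c3`.
`full` (load `x 0 y`; by `twoDeg` the edge `x 0 y` is in `T`, so `x 0, y, p 0, r 0 ∈ S`):
* `M1, M2 ∈ S`: `A = q⁻¹(S) ∪ {x 1, x 2, v}`: cut at most 3 (one edge at `M1`, `M2`, `y`; two at `M1` if
  `y = M1`): `|Aᶜ| ≤ 2`; a point in `Aᶜ` would have its three line neighbours in `Aᶜ`, so `Aᶜ` consists
  of lines with 3 edges to `A` each, so `Aᶜ` is empty or one line with neighbours at `M1, M2` (excluded
  by `NoC6`) or twice `M1` (`NoC4`).  So `S` is everything; a line in `S` has degree at most 3 in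
  `F + x 0 y`, so all its edges are in `T`, and every edge contains a line: `T = F + x 0 y`.
* `M1 ∈ S`, `M2 ∉ S`: `A = q⁻¹(S) ∪ {x 1, v}`, cut at most 3, `x 2, p 2, r 2 ∉ A`.
* `M1, M2 ∉ S`: `A = q⁻¹(S) ∪ {v}`, cut at most 3, `x 1, x 2, p 1 ∉ A`.
`two` (say `m = M1`; `x 0 ∈ S` by `twoDeg` applied to `T` without `x 0`; its degree in `T` is 3, so
`r 0, M1, y ∈ S`, `p 0 ∉ S` as it has degree 2):
* `M2 ∈ S`: `A = q⁻¹(S) ∪ {x 1, x 2, v}`: the cut is `x 0 p 0`, at most two edges at `M1`, one at `M2`, one at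
  `y` (two at `M2` if `y = M2`): at most 5, with `x 0 ∈ A`, `p 0 ∉ A`; so `|Aᶜ| ≤ 3`.  The other two
  neighbours `l, l'` of `p 0` are lines, not in `S`; so `Aᶜ = {p 0, l, l'}` and the four further neighbours
  of `l, l'` are two at `M1`, one at `M2`, one at `y` (or two at `M1`, two at `M2`): some `l` has two at
  `M1` (`NoC4`) or one at `M1` and one at `M2` (`NoC6`).
* `M2 ∉ S`: `A = q⁻¹(S) ∪ {x 1, v}`: cut `v x 2`, `x 0 p 0`, two at `M1`, one at `y`: at most 5 and
  `x 0 ∈ A`, `p 0, x 2, p 2, r 2 ∉ A`: excluded by `good` and `Cyc5`. -/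

def DFCombStmt : Prop := ∀ (V : Type) [Fintype V] [DecidableEq V] (G : SimpleGraph V)
  (side : V → Bool) (v : V) (x p r : Fin 3 → V), DFData G side v x p r → DFComb G side v x p r

/-! ### Module DFRho

Theorem G gives an exact realization of `dfH` (it has no 4-cycles and all pairs are good, being
subgraphs of `dfF` and `addE (dfF) y z`).  Change it at `x 0` to `ρ (p 0) × ρ (r 0)`: separated since a
vector parallel to it belongs to a vertex adjacent to `p 0` and `r 0` in `dfH`: a 4-cycle in `G`.  MIN for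
`F = dfF`, `U = {Sep}` gives `ρ`: zero non-adjacent pairs have a nonzero stress; by `pairs`, `twoDeg` and
TwoDegFree these pairs involve `x 0`.  `tau`: the support of the stress is a graph `T` with `Core3 T`
(CORE), so it is everything by `full`.  `two`: the combination of the stresses for `m` and `y` which
vanishes on the edge `x 0 p 0` is nonzero, its support contradicts `DFComb.two`. -/

def DFRhoStmt : Prop := ∀ (V : Type) [Fintype V] [DecidableEq V] (G : SimpleGraph V)
  (side : V → Bool) (v : V) (x p r : Fin 3 → V), DFData G side v x p r → DFComb G side v x p r →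
    ∃ ρ, DFRho G side v x p r ρ

/-! ### Module DFKill

Let `ρ` be as in `DFRho`, `ℓ = ρ (x 0)`, `Pi = ρ (p i)`.  Choose `w` with `w ⬝ᵥ ℓ = 0` and `w ⬝ᵥ z ≠ 0` for
`z` in the following finite list of vectors not parallel to `ℓ`:
(i) `ρ u`, `u ≠ x 0` a line; (ii) `ℓ × ρ y` for points `y` with `ρ y ⬝ᵥ ℓ = 0` (so `w` is not parallel to any
`ρ y`); (iii) `Pj × ρ y` (`j = 1, 2`, `y ≠ p j` a point) unless both `Pj` and `ρ y` are orthogonal to `ℓ`;
(iv) for `y` as in `tau` with stress `τ` and `j ∈ {1, 2}` with `Pj ⬝ᵥ ℓ ≠ 0`, `y ≠ p j`, and `u, u'` the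
neighbours of `p j` in `G` other than `x j`: `U = τ (p j) u • ρ u + τ (p j) u' • ρ u'` (it is nonzero, and
not parallel to `ℓ` since it is orthogonal to `Pj`).
Let `κ v = w`, `κ (x j) = w × Pj` (`j = 1, 2`), `κ u = ρ (dfQ p r u)` otherwise.  Zero non-adjacent pairs
of `G` (point `y`, line `z`):
(a) `y ∈ {p j, r j}`, `z` adjacent to the other one of them, `j = 1, 2`;
(b) `z = x 0`, `y ≠ v, p 0, r 0` with `ρ (q y) ⬝ᵥ ℓ = 0`;
(d) `z = x j`, `Pj ⬝ᵥ ℓ = 0`, `y = p 0` or `y = r 0` (by `DFRho.two`); then `κ (x j) = λ ℓ`, `λ ≠ 0`.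
Kills.  Let `ω` be a stress of `addE G y z` at `κ`, `t` the load `ω y z`.  If `z ≠ x i` (`i = 1, 2`), then at
`x i`: `ω (x i) v = 0` and `ω (x i) (p i) = - ω (x i) (r i)`.
In (a), (b): so `ω v (x 0) = 0` by the equilibrium at `v`, and the fibre sums of `ω` under `q`, restricted
to `dfF`, form a stress `ω'` of `addE dfF (q y) z` at `ρ`.
(a): `ω' = 0` (`free`); at `y`: `ω y (x j) κ (x j) + t ρ z = 0` with `κ (x j)` orthogonal to `w` and `ρ z`
not: `t = 0`; then all weights vanish (at `p i`, `r i`: the weight to `x i` times `κ (x i) ≠ 0`).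
(b): `ω' = s τ` (`free`); take `j` with `Pj ⬝ᵥ ℓ ≠ 0` and `q y ≠ p j` (by `two`: if `q y = p i` take the other
index; otherwise both are fine); the equilibrium at `p j`, multiplied by `w`, gives `s (w ⬝ᵥ U) = 0`, so
`s = 0` and everything vanishes as in (a).
(d), `z = x j`, `i` the other index, `Pi ⬝ᵥ ℓ ≠ 0`: the weights with `ω' (x 0) c = ω (x 0) c + λ ω (x j) c` for
`c = p 0, r 0`, `ω' (x 0) (p j) = λ (ω (x j) (p j) + ω (x j) (r j))`, fibre sums elsewhere, form a stress of
`addE dfF (x 0) (p j)`, so `ω' = s τ`, and the equilibrium at `p i` times `w` gives `s = 0`.  If `y = p 0`: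
`ω (x 0) (r 0) = 0`, `ω (x 0) (p 0) = - λ t`, so at `x 0`: `ω (x 0) v w = λ t ρ (p 0)`, so `t = 0`; all
weights vanish.  Same for `y = r 0`. -/

def DFKillStmt : Prop := ∀ (V : Type) [Fintype V] [DecidableEq V] (G : SimpleGraph V)
  (side : V → Bool) (v : V) (x p r : Fin 3 → V) (ρ : V → E), DFData G side v x p r →
    DFRho G side v x p r ρ → ∃ κ : V → E, (∀ u, κ u ≠ 0) ∧ Rlz G κ ∧
      ∀ y z, side y ≠ side z → ¬ G.Adj y z → κ y ⬝ᵥ κ z = 0 → StressFree (addE G y z) κ

/-! ### Module DF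

`LemmaE` gives `v, x 0, p 0`; choose the remaining neighbours. -/

def DFFromStmt : Prop := LemmaEStmt → DFCombStmt → DFRhoStmt → DFKillStmt → KillStmt → DFStmt

end N3
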