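import Pool.Agent.Lib_n3.Stmts

/-!
# Statements of the gluing modules (nontrivial 3- and 4-edge-cuts), MP_07e12a_co

Let `A` be one side of the cut, `Aᶜ` the other.  Exact realizations `ρA` of `res G A` and `ρB` of
`res G Aᶜ` exist by `ResExactStmt`.  We glue them: keep `ρA` on `A` and move `ρB` by a projective
transformation (`g` on points, the dual map `h` on lines) such that the cut edges become incidences.
-/

open scoped Matrix Topology
open Finset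

namespace N3

/-- `g` acts on points, `h` on lines, preserving `⬝ᵥ` (so both are invertible) -/
def DualPair (g h : E →ₗ[ℝ] E) : Prop := ∀ p l : E, g p ⬝ᵥ h l = p ⬝ᵥ l

/-- determinant -/
def det3 (a b c : E) : ℝ := a ⬝ᵥ crossProduct b c

/-- any three of the four vectors are independent -/
def GP (a b c d : E) : Prop := det3 a b c ≠ 0 ∧ det3 a b d ≠ 0 ∧ det3 a c d ≠ 0 ∧ det3 b c d ≠ 0

section
variable {V : Type} [Fintype V] [DecidableEq V]

/-- the glued realization -/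
def glueR (side : V → Bool) (A : Finset V) (ρA ρB : V → E) (g h : E →ₗ[ℝ] E) : V → E :=
  fun v => if v ∈ A then ρA v else if side v = true then h (ρB v) else g (ρB v)

/-- the tensor identity across `A`: `∑ ± ω(p, l) p ⊗ l = 0` over the edges `p l` (`p` point, `l` line)
between `A` and `Aᶜ`, with sign `+` if `p ∈ A` and `-` if `l ∈ A` -/
def TensorId (side : V → Bool) (κ : V → E) (A : Finset V) (ω : V → V → ℝ) : Prop := ∀ s t : E,
  ∑ u ∈ A.filter (fun u => side u = false), ∑ v ∈ Aᶜ, ω u v * ((s ⬝ᵥ κ u) * (t ⬝ᵥ κ v)) =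
  ∑ u ∈ A.filter (fun u => side u = true), ∑ v ∈ Aᶜ, ω u v * ((s ⬝ᵥ κ v) * (t ⬝ᵥ κ u))

/-- the pair `x ∈ A`, `y ∉ A` is killed by tensors: a weight on the cut edges and `x y` satisfying the
tensor identity vanishes -/
def TensorKill (G : SimpleGraph V) (side : V → Bool) (κ : V → E) (A : Finset V) (x y : V) : Prop :=
  ∀ ω : V → V → ℝ, (∀ u v, ω u v = ω v u) → (∀ u v, ¬ (addE G x y).Adj u v → ω u v = 0) →
    TensorId side κ A ω → ∀ u ∈ A, ∀ v ∉ A, ω u v = 0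

end

/-! ### Module GlueCore -/

/-- TENSOR.  Multiply the equilibrium at each `u ∈ A` by `δ u := (s ⬝ᵥ κ u) • t` if `u` is a point and
`δ u := - (t ⬝ᵥ κ u) • s` if `u` is a line, and sum over `u ∈ A`; the edges inside `A` cancel. -/
def TensorStmt : Prop := ∀ (V : Type) [Fintype V] [DecidableEq V] (F : SimpleGraph V) (side : V → Bool)
  (κ : V → E) (ω : V → V → ℝ) (A : Finset V), Bip F side → Stress F κ ω → TensorId side κ A ω

/-- A separated realization is stress-free on a proper induced piece of a Levi graph. -/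
def ResFreeStmt : Prop := ∀ (V : Type) [Fintype V] [DecidableEq V] (G : SimpleGraph V)
  (side : V → Bool), Lev G side → ∀ A : Finset V, A ≠ univ → ∀ ρ : V → E, Sep side ρ →
    StressFree (res G A) ρ

/-- GLUE.  If the glued realization satisfies the cut edges and every zero non-adjacent cross pair is
killed by tensors, then `G` has an exact realization.  (KillStmt for `κ = glueR ..`: pairs inside `A`
or inside `Aᶜ` are nonzero by exactness of `ρA`, `ρB` and `DualPair`; for a cross pair a stress `ω` of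
`addE G x y` satisfies the tensor identity, so it vanishes across `A`, so its restrictions to `A` and
`Aᶜ` are stresses of `res G A` at `ρA` and of `res G Aᶜ` at `ρB` (apply the inverse of `g`, `h`), hence
zero by ResFree.) -/
def GlueStmt : Prop := ∀ (V : Type) [Fintype V] [DecidableEq V] (G : SimpleGraph V) (side : V → Bool),
  Lev G side → ∀ A : Finset V, A.Nonempty → Aᶜ.Nonempty → ∀ (ρA ρB : V → E) (g h : E →ₗ[ℝ] E),
    Exact (res G A) side ρA → Exact (res G Aᶜ) side ρB → DualPair g h →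
    (∀ u ∈ A, ∀ v ∉ A, G.Adj u v → glueR side A ρA ρB g h u ⬝ᵥ glueR side A ρA ρB g h v = 0) →
    (∀ x ∈ A, ∀ y ∉ A, side x ≠ side y → ¬ G.Adj x y →
      glueR side A ρA ρB g h x ⬝ᵥ glueR side A ρA ρB g h y = 0 →
      TensorKill G side (glueR side A ρA ρB g h) A x y) → ∃ ρ, Exact G side ρ

/-! ### Module CutEnds -/

/-- The three edges of a nontrivial 3-cut: disjoint, and the ends in `A` are all points or all lines
(`side_parity`). -/
def Cut3Stmt : Prop := ∀ (V : Type) [Fintype V] [DecidableEq V] (G : SimpleGraph V) (side : V → Bool),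
  Lev G side → ∀ A : Finset V, cut G A = 3 → 2 ≤ A.card → 2 ≤ Aᶜ.card →
    ∃ a b : Fin 3 → V, Function.Injective a ∧ Function.Injective b ∧
      (∀ i, a i ∈ A ∧ b i ∉ A ∧ G.Adj (a i) (b i)) ∧
      (∀ u ∈ A, ∀ v ∉ A, G.Adj u v → ∃ i, u = a i ∧ v = b i) ∧ ∃ s, ∀ i, side (a i) = s

/-- The four edges of a nontrivial 4-cut of a graph without nontrivial 3-cuts: disjoint, and two ends
in `A` are points, two are lines. -/
def Cut4Stmt : Prop := ∀ (V : Type) [Fintype V] [DecidableEq V] (G : SimpleGraph V) (side : V → Bool),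
  Lev G side → Cyc4 G → ∀ A : Finset V, cut G A = 4 → 3 ≤ A.card → 3 ≤ Aᶜ.card →
    ∃ a b : Fin 4 → V, Function.Injective a ∧ Function.Injective b ∧
      (∀ i, a i ∈ A ∧ b i ∉ A ∧ G.Adj (a i) (b i)) ∧
      (∀ u ∈ A, ∀ v ∉ A, G.Adj u v → ∃ i, u = a i ∧ v = b i) ∧
      side (a 0) = false ∧ side (a 1) = false ∧ side (a 2) = true ∧ side (a 3) = true

/-! ### Module GlueLA3 -/

/-- a projective transformation is determined by the images of a basis -/
def ExDualStmt : Prop := ∀ B T : Fin 3 → E, LinearIndependent ℝ B → LinearIndependent ℝ T →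
  ∃ g h : E →ₗ[ℝ] E, DualPair g h ∧ ∀ i, g (B i) = T i

/-- `a i` points (independent), `b i` lines (pairwise independent), `L` finitely many lines.
Proof: if `b` is independent choose independent `m i ∈ (a i)^⊥` not parallel to elements of `L`
(first `m 0` not in `(a 2)^⊥`, then `m 1`, then `m 2` outside the span of `m 0, m 1`) and `h (b i) = m i`;
if `b` is dependent use LAdepStmt. -/
def LAindStmt : Prop := ∀ a b : Fin 3 → E, LinearIndependent ℝ a → (∀ i j, i ≠ j → Np (b i) (b j)) →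
  ∀ L : Finset E, (∀ l ∈ L, l ≠ 0) → ∃ g h : E →ₗ[ℝ] E, DualPair g h ∧
    ∀ i, a i ⬝ᵥ h (b i) = 0 ∧ ∀ l ∈ L, Np (h (b i)) l

/-- `b` dependent: choose `O` off all lines in `L` and outside the spans of `a i, a j`, put
`m i = a i × O`; `b 2 = α b 0 + β b 1` and `m 2 = α' m 0 + β' m 1` with nonzero coefficients;
`h (b 0) = (α'/α) m 0`, `h (b 1) = (β'/β) m 1`, `h (b 0 × b 1) = O`. -/
def LAdepStmt : Prop := ∀ a b : Fin 3 → E, (∀ i j, i ≠ j → Np (a i) (a j)) →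
  (∀ i j, i ≠ j → Np (b i) (b j)) → ¬ LinearIndependent ℝ b →
  ∀ L : Finset E, (∀ l ∈ L, l ≠ 0) → ∃ (g h : E →ₗ[ℝ] E) (O : E), DualPair g h ∧
    (∀ i, a i ⬝ᵥ h (b i) = 0 ∧ O ⬝ᵥ h (b i) = 0) ∧ (∀ l ∈ L, O ⬝ᵥ l ≠ 0) ∧ det3 (a 0) (a 1) O ≠ 0

/-- rank one elements of the span of `a i ⊗ m i`, `a` independent, `m` pairwise independent -/
def RankIndStmt : Prop := ∀ a m : Fin 3 → E, LinearIndependent ℝ a →
  (∀ i j, i ≠ j → Np (m i) (m j)) → ∀ (c : Fin 3 → ℝ) (r : ℝ) (p l : E), p ≠ 0 → l ≠ 0 →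
    (∀ s t : E, ∑ i, c i * ((s ⬝ᵥ a i) * (t ⬝ᵥ m i)) + r * ((s ⬝ᵥ p) * (t ⬝ᵥ l)) = 0) →
    (r = 0 ∧ ∀ i, c i = 0) ∨ ∃ i, ¬ Np p (a i) ∧ ¬ Np l (m i)

/-- rank one elements of the span of `a i ⊗ m i`, `a` and `m` dependent, pairwise independent -/
def RankDepStmt : Prop := ∀ a m : Fin 3 → E, (∀ i j, i ≠ j → Np (a i) (a j)) →
  ¬ LinearIndependent ℝ a → (∀ i j, i ≠ j → Np (m i) (m j)) → ∀ O : E, O ≠ 0 →
  (∀ i, O ⬝ᵥ m i = 0) → ∀ (c : Fin 3 → ℝ) (r : ℝ) (p l : E), p ≠ 0 → l ≠ 0 →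
    (∀ s t : E, ∑ i, c i * ((s ⬝ᵥ a i) * (t ⬝ᵥ m i)) + r * ((s ⬝ᵥ p) * (t ⬝ᵥ l)) = 0) →
    (r = 0 ∧ ∀ i, c i = 0) ∨ (det3 (a 0) (a 1) p = 0 ∧ O ⬝ᵥ l = 0)

/-! ### Module NoFourth -/

/-- For a nontrivial 3-cut there is an exact realization of `res G A` in which either the three ends
`a i` are independent or no further vertex of `A` on their side lies on the line `a 0, a 1`.
Proof.  Let `ρ₀` be exact for `res G A` (ResExact).  If some `l ∈ A` is adjacent to `a 0` and `a 1`, then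
`ρ₀ l ∥ ρ₀ (a 0) × ρ₀ (a 1)`; if `l ~ a 2` the neighbours of `l` are the `a i` and the second alternative
holds by exactness, otherwise `ρ₀ (a 2) ⬝ᵥ ρ₀ l ≠ 0` gives the first.  Otherwise let
`F = res G A ⊔ edge (b 0) (a 0) ⊔ edge (b 0) (a 1)` (the vertex `b 0 ∉ A` represents the line
`a 0 × a 1`) and change `ρ₀` at `b 0` to `ρ₀ (a 0) × ρ₀ (a 1)`; the result is separated: a vector `ρ₀ w`
parallel to it is orthogonal to `ρ₀ (a 0)`, `ρ₀ (a 1)`, so `w` is adjacent to both in `res G A` by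
exactness.  Apply MIN to `F` with `U = {Sep}` and get `ρ`.  Zero pairs not involving `b 0` do not exist
(`b 0` has degree 2 in `addE F x y`, so a 3-core of it is one of `addE (res G A) x y`).  If
`ρ (b 0) ⬝ᵥ ρ p = 0`, `p ∈ A` on the side of the `a i`, `p ≠ a i`, there is a nonzero stress
of `addE F (b 0) p`; its support `S` has minimum degree at least 3 (CORE), so `S' = S - {b 0} ⊆ A`
contains `a 0`, `a 1` and not `a 2` (which has degree 2), and the edges leaving `S'` in `G` are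
`a 0 b 0`, `a 1 b 1` and at most one edge at `p`; then the edges leaving `A - S'` (which contains `a 2`)
are at most that edge and `a 2 b 2`, against `c3`.  Finally `ρ (b 0) = ρ (a 0) × ρ (a 1)` up to scaling,
and changing `ρ` at `b 0` to a vector not orthogonal and not parallel to any other makes `ρ` exact for
`res G A` (where `b 0` is isolated). -/
def NoFourthStmt : Prop := ∀ (V : Type) [Fintype V] [DecidableEq V] (G : SimpleGraph V)
  (side : V → Bool), Lev G side → ∀ (A : Finset V) (a b : Fin 3 → V),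
    Function.Injective a → Function.Injective b → (∀ i, a i ∈ A ∧ b i ∉ A ∧ G.Adj (a i) (b i)) →
    (∀ u ∈ A, ∀ v ∉ A, G.Adj u v → ∃ i, u = a i ∧ v = b i) → (∃ s, ∀ i, side (a i) = s) →
    2 ≤ Aᶜ.card →
    ∃ ρ, Exact (res G A) side ρ ∧ (LinearIndependent ℝ (fun i => ρ (a i)) ∨
      ∀ p ∈ A, side p = side (a 0) → (∀ i, p ≠ a i) → det3 (ρ (a 0)) (ρ (a 1)) (ρ p) ≠ 0)

/-! ### Module GlueLA4 -/

/-- Four cut edges.  `a 0, a 1, b 2, b 3` are points, `a 2, a 3, b 0, b 1` lines; `a` on one side, `b` on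
the other.  PROOF.  Let `σ i = - (b i ⬝ᵥ b 2) / (b i ⬝ᵥ b 3)` (`i = 0, 1`, nonzero), so `b 2 + σ i b 3` is the
intersection of the line `b i` with the line `n` of `b 2, b 3`.  Choose `P2 ∈ (a 2)^⊥` with
`det3 (a 0) (a 1) P2 ≠ 0`, `P2 ⬝ᵥ a 3 ≠ 0`, not parallel to `a 0`, `a 1` and the elements of `P`; then
`P3 ∈ (a 3)^⊥` with `P3 ⬝ᵥ a 2`, `det3 (a 0) (a 1) P3`, `det3 (a 0) P2 P3`, `det3 (a 1) P2 P3` nonzero, not
parallel to elements of `P`; then `s ≠ 0` outside a finite set, `μ = s / σ 0`, `c = σ 1 / σ 0`,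
`S0 = P2 + s P3`, `S1 = P2 + c s P3`, `m i = a i × S i`.
CASE I, `c ≠ 1` (the point `N = b 0 × b 1` is not on `n`): `N' = m 0 × m 1`; `g` maps `b 2, b 3, N` to
`P2, μ P3, N'`.  Identities: `N' ⬝ᵥ (P2 × P3) = ± s (c - 1) det3 (a 0) P2 P3 det3 (a 1) P2 P3`; the
`s²`-coefficient of `a 2 ⬝ᵥ N'` is `± c (a 2 ⬝ᵥ P3) det3 (a 0) (a 1) P3`; the `s⁰`-coefficient of
`a 3 ⬝ᵥ N'` is `± (a 3 ⬝ᵥ P2) det3 (a 0) (a 1) P2`; `det3 (a 2) (a 3) (m i)` is affine in `s` and not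
identically zero since `a i` is not parallel to `a 2 × a 3`; `m i ∥ l` for at most one `s`.
CASE II, `c = 1` (`N = b 2 + σ b 3`): `N' = S0 = S1`, `g` maps `b 2, b 3` to `P2, μ P3` and a point `Q` of the
line `b 0` other than `N` to `τ (a 0)`, `τ` chosen such that `m 1` is the image of `b 1`
(if `Q + β b 2` is on `b 1`, `β ≠ 0`, then `τ = - β (m 1 ⬝ᵥ P2) / (m 1 ⬝ᵥ a 0)`); here
`det3 (a 2) (m 0) (m 1) = ± (a 2 ⬝ᵥ N') det3 (a 0) (a 1) N'` and the same with `a 3`. -/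
def LA4Stmt : Prop := ∀ a b : Fin 4 → E, Np (a 0) (a 1) → Np (a 2) (a 3) → Np (b 0) (b 1) →
  Np (b 2) (b 3) → (b 0 ⬝ᵥ b 2 ≠ 0) → (b 0 ⬝ᵥ b 3 ≠ 0) → (b 1 ⬝ᵥ b 2 ≠ 0) → (b 1 ⬝ᵥ b 3 ≠ 0) →
  Np (crossProduct (a 0) (a 1)) (a 2) → Np (crossProduct (a 0) (a 1)) (a 3) →
  Np (crossProduct (a 2) (a 3)) (a 0) → Np (crossProduct (a 2) (a 3)) (a 1) →
  ∀ L P : Finset E, (∀ l ∈ L, l ≠ 0) → (∀ p ∈ P, p ≠ 0) → ∃ g h : E →ₗ[ℝ] E, DualPair g h ∧
    a 0 ⬝ᵥ h (b 0) = 0 ∧ a 1 ⬝ᵥ h (b 1) = 0 ∧ a 2 ⬝ᵥ g (b 2) = 0 ∧ a 3 ⬝ᵥ g (b 3) = 0 ∧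
    GP (a 0) (a 1) (g (b 2)) (g (b 3)) ∧ GP (h (b 0)) (h (b 1)) (a 2) (a 3) ∧
    (∀ l ∈ L, Np (h (b 0)) l ∧ Np (h (b 1)) l) ∧ (∀ p ∈ P, Np (g (b 2)) p ∧ Np (g (b 3)) p)

/-- rank one elements of the span of four `p i ⊗ l i` in general position -/
def Rank4Stmt : Prop := ∀ P L : Fin 4 → E, GP (P 0) (P 1) (P 2) (P 3) → GP (L 0) (L 1) (L 2) (L 3) →
  ∀ (c : Fin 4 → ℝ) (r : ℝ) (p l : E), p ≠ 0 → l ≠ 0 →
    (∀ s t : E, ∑ i, c i * ((s ⬝ᵥ P i) * (t ⬝ᵥ L i)) + r * ((s ⬝ᵥ p) * (t ⬝ᵥ l)) = 0) →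
    (r = 0 ∧ ∀ i, c i = 0) ∨ ∃ i, ¬ Np p (P i) ∧ ¬ Np l (L i)

end N3
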